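import Pool.Agent.Helper63.WH.Pint

/-!
# LLX ABOUND: algebraic numbers are bounded at all places

Proof. For `c` algebraic over `ℚ` let `y ≠ 0` be an integer with `y • c` integral over `ℤ`
(`Algebra.IsAlgebraic.exists_integral_multiples`, see `Helper63/WH/Pint.lean`). For
`τ : E →+* PadicAlgCl p`: `‖τ (y • c)‖ ≤ 1` (`pint_le_one`) and `‖y‖_p ≥ 1 / |y|`
(`|y|_p = p^(-v_p(y))` and `p^(v_p(y))` divides `y`), so `‖τ c‖ ≤ |y|`. For `s : E →+* ℂ`: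
`s c` is a root of the minimal polynomial of `c` over `ℚ`, which has finitely many complex
roots. Take the maximum over the finite set `S`.
-/

namespace Pool.Agent.LLX

open Pool.Agent.Helper63.WH

private theorem int_norm_ge (p : Nat.Primes) (y : ℤ) (hy : y ≠ 0) :
    (1 : ℝ) ≤ ‖(y : PadicAlgCl p)‖ * |(y : ℝ)| := by
  have hp : Fact (p : ℕ).Prime := ⟨p.2⟩
  have h3 := PadicAlgCl.norm_extends p (y : ℚ_[p])
  rw [map_intCast] at h3
  rw [h3]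
  have h4 : ‖(y : ℚ_[p])‖ = ((p : ℕ) : ℝ) ^ (-(padicValInt p y : ℤ)) := by
    have h5 := Padic.eq_padicNorm (p := p) (y : ℚ)
    rw [Rat.cast_intCast] at h5
    rw [h5, padicNorm.eq_zpow_of_nonzero (by exact_mod_cast hy), padicValRat.of_int]
    push_cast
    rfl
  rw [h4]
  have h6 : ((p : ℕ) : ℤ) ^ padicValInt p y ∣ y := padicValInt_dvd y
  have h7 : ((p : ℕ) : ℤ) ^ padicValInt p y ≤ |y| :=
    Int.le_of_dvd (abs_pos.2 hy) ((dvd_abs _ _).2 h6)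
  have h8 : (((p : ℕ) : ℝ)) ^ padicValInt p y ≤ |(y : ℝ)| := by exact_mod_cast h7
  have h9 : (0 : ℝ) < ((p : ℕ) : ℝ) ^ padicValInt p y := by
    have : (0 : ℝ) < ((p : ℕ) : ℝ) := by exact_mod_cast p.2.pos
    positivity
  rw [zpow_neg, zpow_natCast, inv_mul_eq_div, le_div_iff₀ h9, one_mul]
  exact h8

private theorem arch_bound {E : Type*} [Field E] [CharZero E] [Algebra.IsAlgebraic ℚ E] (c : E) :
    ∃ B : ℝ, ∀ s : E →+* ℂ, ‖s c‖ ≤ B := by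
  have hfin : ((minpoly ℚ c).rootSet ℂ).Finite := Polynomial.rootSet_finite _ _
  obtain ⟨B, hB⟩ := (hfin.image fun z : ℂ => ‖z‖).bddAbove
  refine ⟨B, fun s => hB (Set.mem_image_of_mem _ ?_)⟩
  have hc : IsAlgebraic ℚ c := Algebra.IsAlgebraic.isAlgebraic c
  rw [Polynomial.mem_rootSet]
  refine ⟨minpoly.ne_zero hc.isIntegral, ?_⟩
  have h1 := Polynomial.aeval_algHom_apply s.toRatAlgHom c (minpoly ℚ c)
  rw [minpoly.aeval, map_zero] at h1
  exact h1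

theorem abound {E : Type*} [Field E] [CharZero E] [Algebra.IsAlgebraic ℚ E] (S : Finset E) :
    ∃ B : ℝ, 1 ≤ B ∧ (∀ (p : Nat.Primes) (τ : E →+* PadicAlgCl p), ∀ c ∈ S, ‖τ c‖ ≤ B) ∧
      ∀ s : E →+* ℂ, ∀ c ∈ S, ‖s c‖ ≤ B := by
  have halg : Algebra.IsAlgebraic ℤ E :=
    (IsFractionRing.comap_isAlgebraic_iff (A := ℤ) (K := ℚ) (C := E)).2 inferInstance
  obtain ⟨y, hy, hint⟩ := Algebra.IsAlgebraic.exists_integral_multiples ℤ S
  have h1 : ∀ (p : Nat.Primes) (τ : E →+* PadicAlgCl p), ∀ c ∈ S, ‖τ c‖ ≤ |(y : ℝ)| := by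
    intro p τ c hc
    have h1 : ‖τ (y • c)‖ ≤ 1 := pint_le_one p _ ((hint c hc).map (τ.toIntAlgHom))
    rw [zsmul_eq_mul, map_mul, map_intCast, norm_mul] at h1
    have h2 := int_norm_ge p y hy
    have h3 : 0 ≤ ‖τ c‖ := norm_nonneg _
    have h4 : 0 ≤ |(y : ℝ)| := abs_nonneg _
    calc ‖τ c‖ = 1 * ‖τ c‖ := (one_mul _).symm
      _ ≤ (‖(y : PadicAlgCl p)‖ * |(y : ℝ)|) * ‖τ c‖ := mul_le_mul_of_nonneg_right h2 h3
      _ = (‖(y : PadicAlgCl p)‖ * ‖τ c‖) * |(y : ℝ)| := by ring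
      _ ≤ 1 * |(y : ℝ)| := mul_le_mul_of_nonneg_right h1 h4
      _ = |(y : ℝ)| := one_mul _
  choose B hB using fun c : E => arch_bound c
  refine ⟨1 + |(y : ℝ)| + ∑ c ∈ S, |B c|, ?_, ?_, ?_⟩
  · have h2 : 0 ≤ ∑ c ∈ S, |B c| := Finset.sum_nonneg fun _ _ => abs_nonneg _
    have h4 : 0 ≤ |(y : ℝ)| := abs_nonneg _
    linarith
  · intro p τ c hc
    have h2 : 0 ≤ ∑ c ∈ S, |B c| := Finset.sum_nonneg fun _ _ => abs_nonneg _
    have := h1 p τ c hc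
    linarith
  · intro s c hc
    have h2 : |B c| ≤ ∑ c ∈ S, |B c| :=
      Finset.single_le_sum (f := fun c => |B c|) (fun _ _ => abs_nonneg _) hc
    have h4 : 0 ≤ |(y : ℝ)| := abs_nonneg _
    have h5 := (hB c s).trans (le_abs_self _)
    linarith

end Pool.Agent.LLX
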