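import Pool.Agent.LLX.Defs2
import Pool.Agent.PW.Segl
import Pool.Agent.PW.Defs

/-!
# LLX SEGX: subsets of products of projective spaces

`clo_seg`: if `z ≠ 0` is a zero of all the forms vanishing on `X`, in particular of the quadratic
forms vanishing at all the points of the product of projective spaces, then `z = c • seg x` by
`segrel`. If `x ∉ X` then some multihomogeneous `G` of the family defining `X` (`ZClosed`) does not
vanish at `x`, and `seglift` gives a form `F` with `eval (seg x) F ≠ 0` which vanishes on `X`; but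
`eval z F = c ^ k * eval (seg x) F ≠ 0`.
`seg_ne`: if `seg x w = c * seg y w` for all `w`, then `c ≠ 0` (`seg x ≠ 0`) and, fixing
coordinates `w₀` with `(y i).rep (w₀ i) ≠ 0` for all `i` (so also `(x i).rep (w₀ i) ≠ 0`) and
varying one coordinate `i`, `(x i).rep` and `(y i).rep` are proportional, so `x i = y i`
(`Projectivization.mk_eq_mk_iff'`, `Projectivization.mk_rep`).
`hil_bound`: the sequence `hil m * d! / m ^ d` converges, so it is bounded by `B`, and
`hil m ≤ hil m * d! ≤ B * m ^ d` for `m ≥ 1`; for `m = 0` add `hil 0` (or use `hil_le`).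
`avoid`: a nonzero polynomial in the coefficients of `l` (the product of the nonzero linear
polynomials `∑ w, V i w * l w`) has a nonzero value, as `E` is infinite
(`MvPolynomial.funext`).
-/

open MvPolynomial

namespace Pool.Agent.LLX

open Pool.Agent.Helper90.KSC Pool.Agent.Helper63.SAND Pool.Agent.PW

variable {K : Type*} [Field K] {ι : Type*} [Fintype ι] [DecidableEq ι] {N : ι → ℕ}

omit [Fintype ι] [DecidableEq ι] in
private theorem segx_smul {W : Type*} {F : MvPolynomial W K} {k : ℕ} (hF : F.IsHomogeneous k)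
    (c : K) (z : W → K) : eval (c • z) F = c ^ k * eval z F := by
  rw [eval_eq, eval_eq, Finset.mul_sum]
  refine Finset.sum_congr rfl fun s hs => ?_
  have hsk : ∑ i ∈ s.support, s i = k := by
    have := hF (mem_support_iff.1 hs)
    rw [Finsupp.weight_apply] at this
    simpa [Finsupp.sum] using this
  simp only [Pi.smul_apply, smul_eq_mul, mul_pow, Finset.prod_mul_distrib,
    Finset.prod_pow_eq_pow_sum, hsk]
  ring

theorem clo_seg (X : Set (PPt K N)) (hX : ZClosed X) :
    Clo (fun x : X => seg (x : PPt K N)) := by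
  intro z hz hP
  obtain ⟨x, c, hc, hzx⟩ := segrel z hz fun F hF hF' => hP F 2 hF fun y => hF' y
  have hx : x ∈ X := by
    by_contra hxX
    obtain ⟨S, hS, rfl⟩ := hX
    have h1 : ∃ G ∈ S, eval (fun s : Σ i, Fin (N i + 1) => (x s.1).rep s.2) G ≠ 0 := by
      by_contra hcon
      push Not at hcon
      exact hxX hcon
    obtain ⟨G, hG, hG0⟩ := h1
    obtain ⟨b, hb⟩ := hS G hG
    obtain ⟨k, F, hF, hF0, hF1⟩ := seglift G b hb x hG0
    have h2 : eval z F = 0 := hP F k hF fun y => hF1 y (y.2 G hG)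
    rw [hzx, segx_smul hF] at h2
    exact mul_ne_zero (pow_ne_zero k hc) hF0 h2
  refine ⟨⟨x, hx⟩, c, hc, fun w => ?_⟩
  rw [hzx]
  rfl

theorem seg_ne (x y : PPt K N) (h : x ≠ y) (c : K) : ∃ w, seg x w ≠ c * seg y w := by
  by_contra hcon
  push Not at hcon
  apply h
  have hx : ∀ i, ∃ j, (x i).rep j ≠ 0 := fun i => Function.ne_iff.mp (x i).rep_nonzero
  choose u hu using hx
  have hxu : seg x u ≠ 0 := Finset.prod_ne_zero_iff.2 fun i _ => hu i
  funext i
  have hseg : ∀ (z : PPt K N) (j : Fin (N i + 1)), seg z (Function.update u i j) =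
      (z i).rep j * ∏ i' ∈ Finset.univ.erase i, (z i').rep (u i') := by
    intro z j
    unfold seg
    rw [← Finset.mul_prod_erase _ _ (Finset.mem_univ i), Function.update_self]
    congr 1
    refine Finset.prod_congr rfl fun i' hi' => ?_
    rw [Function.update_of_ne (Finset.ne_of_mem_erase hi')]
  set A := ∏ i' ∈ Finset.univ.erase i, (x i').rep (u i') with hA
  set B := ∏ i' ∈ Finset.univ.erase i, (y i').rep (u i') with hB
  have hA0 : A ≠ 0 := Finset.prod_ne_zero_iff.2 fun i' _ => hu i'
  have key : ∀ j, (x i).rep j = (c * B / A) * (y i).rep j := by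
    intro j
    have h1 := hcon (Function.update u i j)
    rw [hseg, hseg, ← hA, ← hB] at h1
    field_simp
    linear_combination h1
  rw [← Projectivization.mk_rep (x i), ← Projectivization.mk_rep (y i),
    Projectivization.mk_eq_mk_iff']
  refine ⟨c * B / A, ?_⟩
  funext j
  rw [Pi.smul_apply, smul_eq_mul]
  exact (key j).symm

theorem hil_bound (X : Set (PPt K N)) (d e : ℕ) (h : HasDegree X d e) :
    ∃ CH : ℕ, ∀ m, hil (fun x : X => seg (x : PPt K N)) m ≤ CH * (m + 1) ^ d := by
  obtain ⟨B, hB⟩ := h.bddAbove_range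
  refine ⟨⌈|B|⌉₊ + hil (fun x : X => seg (x : PPt K N)) 0, fun m => ?_⟩
  rcases Nat.eq_zero_or_pos m with hm | hm
  · subst hm
    simp
  · have h1 : (hil (fun x : X => seg (x : PPt K N)) m : ℝ) * (d.factorial : ℝ) /
        (m : ℝ) ^ d ≤ B := hB ⟨m, rfl⟩
    have hm0 : (0 : ℝ) < (m : ℝ) ^ d := by
      have : (0 : ℝ) < m := Nat.cast_pos.2 hm
      positivity
    rw [div_le_iff₀ hm0] at h1
    have h2 : (1 : ℝ) ≤ (d.factorial : ℝ) := by exact_mod_cast Nat.succ_le_of_lt d.factorial_pos
    have h3 : (hil (fun x : X => seg (x : PPt K N)) m : ℝ) ≤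
        (⌈|B|⌉₊ : ℝ) * ((m : ℝ) + 1) ^ d := by
      have h4 : (0 : ℝ) ≤ hil (fun x : X => seg (x : PPt K N)) m := Nat.cast_nonneg _
      have h5 : B ≤ (⌈|B|⌉₊ : ℝ) := (le_abs_self B).trans (Nat.le_ceil _)
      have h6 : (m : ℝ) ^ d ≤ ((m : ℝ) + 1) ^ d := by
        gcongr
        linarith
      calc (hil (fun x : X => seg (x : PPt K N)) m : ℝ)
          ≤ (hil (fun x : X => seg (x : PPt K N)) m : ℝ) * (d.factorial : ℝ) :=
            le_mul_of_one_le_right h4 h2
        _ ≤ B * (m : ℝ) ^ d := h1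
        _ ≤ (⌈|B|⌉₊ : ℝ) * (m : ℝ) ^ d := by gcongr
        _ ≤ _ := by gcongr
    have h7 : hil (fun x : X => seg (x : PPt K N)) m ≤ ⌈|B|⌉₊ * (m + 1) ^ d := by
      exact_mod_cast h3
    refine h7.trans ?_
    gcongr
    exact Nat.le_add_right _ _

theorem avoid {E W : Type*} [Field E] [Infinite E] [Fintype W] {M : ℕ} (V : Fin M → W → E)
    (hV : ∀ i, V i ≠ 0) : ∃ l : W → E, ∀ i, lin l (V i) ≠ 0 := by
  classical
  set P : MvPolynomial W E := ∏ i, ∑ w, C (V i w) * X w with hP
  have hP0 : P ≠ 0 := by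
    rw [hP, Finset.prod_ne_zero_iff]
    intro i _ h0
    obtain ⟨w, hw⟩ := Function.ne_iff.1 (hV i)
    apply hw
    have h1 := congrArg (eval (Pi.single w (1 : E))) h0
    rw [map_sum, map_zero, Finset.sum_eq_single w] at h1
    · simpa using h1
    · intro w' _ hw'
      simp [hw']
    · intro h
      exact absurd (Finset.mem_univ w) h
  have h2 : ∃ l, eval l P ≠ 0 := by
    by_contra hcon
    push Not at hcon
    exact hP0 (MvPolynomial.funext fun l => by rw [hcon l, map_zero])
  obtain ⟨l, hl⟩ := h2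
  refine ⟨l, fun i => ?_⟩
  rw [hP, map_prod, Finset.prod_ne_zero_iff] at hl
  have h3 := hl i (Finset.mem_univ i)
  rw [map_sum] at h3
  convert h3 using 1
  unfold lin
  refine Finset.sum_congr rfl fun w _ => ?_
  rw [map_mul, eval_C, eval_X, mul_comm]

end Pool.Agent.LLX
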