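import Pool.Agent.LLX.Adefs
import Pool.Agent.PW.Conde

/-!
# LLX NLP: the Nullstellensatz for the zeros of a homogeneous prime ideal

`ZQ a Q` are the points `y : Ω` with `a y` in the zeros of `Q`.

* `van_ZQ`: copy the proof of `Pool.Agent.PW.null` (`PW/Null.lean`), with `Clo a` in place of the
  Segre relations: if `P ∉ Q` is a form, then `P * X w ∉ Q` for a variable `X w ∉ Q`; by the
  Nullstellensatz there is a zero `v` of `Q` with `eval v (P * X w) ≠ 0`, so `v ≠ 0`, and by
  `Clo a` (the forms vanishing at all the `a x` are in `Q` by `hc`) `v = c • a y`, `c ≠ 0`. As `Q`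
  is generated by forms `y : ZQ a Q`, and `P` does not vanish at `a y`.
* `primeH_ZQ`, `isCond_ZQ`: copy the proofs of `primeH_subX`, `isCond_subX` in `PW/Final.lean`
  (`conde`).
* `nonempty_ZQ`: otherwise `1 ∈ Q` by `van_ZQ`.
* `exists_HP`: the ideal `I` generated by the forms which vanish on `a`; an element of `I` vanishes
  at all the points `a x`, so a form is in `I` if and only if it vanishes at all the points; `I` is
  homogeneous (`Ideal.homogeneous_span`), prime by `Ideal.IsHomogeneous.isPrime_of_homogeneous_mem_or_mem` (see the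
  proof of `idl_HP` in `PW/Null.lean`).
-/

open MvPolynomial

namespace Pool.Agent.LLX.AS

open Pool.Agent.Helper63.SAND Pool.Agent.PW

variable {E : Type*} [Field E] {Ω W : Type*}

private theorem nlp_eval_smul {F : MvPolynomial W E} {k : ℕ} (hF : F.IsHomogeneous k) (c : E)
    (v : W → E) : eval (fun w => c * v w) F = c ^ k * eval v F := by
  rw [eval_eq, eval_eq, Finset.mul_sum]
  refine Finset.sum_congr rfl fun s hs => ?_
  have hsk : ∑ i ∈ s.support, s i = k := by
    have := hF (mem_support_iff.1 hs)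
    rw [Finsupp.weight_apply] at this
    simpa [Finsupp.sum] using this
  simp only [mul_pow, Finset.prod_mul_distrib]
  rw [Finset.prod_pow_eq_pow_sum, hsk]
  ring

private theorem nlp_comp_self {F : MvPolynomial W E} {k : ℕ} (hF : F.IsHomogeneous k) (j : ℕ) :
    homogeneousComponent j F = if j = k then F else 0 :=
  homogeneousComponent_of_mem (mem_homogeneousSubmodule _ _ |>.mpr hF)

attribute [local instance] MvPolynomial.gradedAlgebra in
private theorem nlp_hc_mul {F : MvPolynomial W E} {k : ℕ}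
    (hF : F.IsHomogeneous k) (m : ℕ) (P : MvPolynomial W E) :
    homogeneousComponent m (P * F) = if k ≤ m then homogeneousComponent (m - k) P * F else 0 := by
  have h1 : ∀ (R : MvPolynomial W E) (i : ℕ),
      (DirectSum.decompose (homogeneousSubmodule W E) R i : MvPolynomial W E) =
        homogeneousComponent i R := fun R i => decomposition.decompose'_apply R i
  have h2 := DirectSum.coe_decompose_mul_of_right_mem (homogeneousSubmodule W E) (a := P) m
    ((mem_homogeneousSubmodule _ _).2 hF)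
  rw [h1, h1] at h2
  exact h2

/-- the ideal of the polynomials all of whose homogeneous components vanish on `a` -/
private def nlp_idl (a : Ω → W → E) : Ideal (MvPolynomial W E) where
  carrier := {P | ∀ k, Van a (homogeneousComponent k P)}
  add_mem' {P Q} hP hQ k x := by rw [map_add, map_add, hP k x, hQ k x, add_zero]
  zero_mem' k x := by rw [map_zero, map_zero]
  smul_mem' c P hP m x := by
    rw [smul_eq_mul]
    have h1 : c * P = ∑ i ∈ Finset.range (P.totalDegree + 1), c * homogeneousComponent i P := by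
      rw [← Finset.mul_sum, sum_homogeneousComponent]
    rw [h1, map_sum, map_sum]
    refine Finset.sum_eq_zero fun i _ => ?_
    rw [nlp_hc_mul (homogeneousComponent_isHomogeneous i P)]
    split_ifs
    · rw [map_mul, hP i x, mul_zero]
    · exact map_zero _

private theorem nlp_mem {a : Ω → W → E} {P : MvPolynomial W E} :
    P ∈ nlp_idl a ↔ ∀ k, Van a (homogeneousComponent k P) := Iff.rfl

private theorem nlp_mem_hom {a : Ω → W → E} {P : MvPolynomial W E} {k : ℕ}
    (hP : P.IsHomogeneous k) : P ∈ nlp_idl a ↔ Van a P := by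
  rw [nlp_mem]
  constructor
  · intro h
    have h1 := h k
    rwa [nlp_comp_self hP, if_pos rfl] at h1
  · intro h j
    rw [nlp_comp_self hP]
    split_ifs
    · exact h
    · exact fun x => map_zero _

theorem van_ZQ [IsAlgClosed E] [Finite W] (a : Ω → W → E) (hcl : Clo a)
    (Q : Ideal (MvPolynomial W E)) (hQ : HP Q) (hc : Cont a Q) (P : MvPolynomial W E) (k : ℕ)
    (hP : P.IsHomogeneous k) : Van (fun y : ZQ a Q => a y) P ↔ P ∈ Q := by
  constructor
  · intro h
    by_contra hPQ
    have := hQ.prime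
    obtain ⟨w, hw⟩ := hQ.rel
    have h1 : P * MvPolynomial.X w ∉ Q := fun h => (hQ.prime.mem_or_mem h).elim hPQ hw
    rw [← MvPolynomial.IsPrime.vanishingIdeal_zeroLocus (K := E) Q, mem_vanishingIdeal_iff] at h1
    push Not at h1
    obtain ⟨v, hv, hv1⟩ := h1
    rw [mem_zeroLocus_iff] at hv
    have hv2 : ∀ G ∈ Q, eval v G = 0 := fun G hG => by
      have := hv G hG
      rwa [aeval_eq_eval] at this
    rw [aeval_eq_eval] at hv1
    change eval v (P * MvPolynomial.X w) ≠ 0 at hv1
    rw [map_mul, eval_X] at hv1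
    have hvP := left_ne_zero_of_mul hv1
    have hv0 : v ≠ 0 := by
      rintro rfl
      exact right_ne_zero_of_mul hv1 rfl
    obtain ⟨x, c, hc0, hvx⟩ := hcl v hv0 fun G j hG hGv => hv2 G (hc G j hG hGv)
    have hv3 : v = fun w => c * a x w := funext hvx
    subst hv3
    have hev : ∀ (G : MvPolynomial W E) (j : ℕ), G.IsHomogeneous j → G ∈ Q →
        eval (a x) G = 0 := by
      intro G j hG hGQ
      have h2 := hv2 G hGQ
      rw [nlp_eval_smul hG] at h2
      exact (mul_eq_zero.mp h2).resolve_left (pow_ne_zero _ hc0)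
    have hxZ : ∀ G ∈ Q, eval (a x) G = 0 := by
      intro G hG
      rw [← sum_homogeneousComponent G, map_sum]
      refine Finset.sum_eq_zero fun j _ => ?_
      exact hev _ j (homogeneousComponent_isHomogeneous j G) (hQ.hom G hG j)
    rw [nlp_eval_smul hP] at hvP
    have h3 : eval (a x) P = 0 := h ⟨x, hxZ⟩
    rw [h3, mul_zero] at hvP
    exact hvP rfl
  · intro h x
    exact x.2 P h

theorem nonempty_ZQ [IsAlgClosed E] [Finite W] (a : Ω → W → E) (hcl : Clo a)
    (Q : Ideal (MvPolynomial W E)) (hQ : HP Q) (hc : Cont a Q) : Nonempty (ZQ a Q) := by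
  by_contra hcon
  rw [not_nonempty_iff] at hcon
  have h1 : (1 : MvPolynomial W E) ∈ Q := by
    rw [← van_ZQ a hcl Q hQ hc 1 0 (isHomogeneous_one _ _)]
    exact fun x => hcon.elim x
  exact hQ.prime.ne_top ((Ideal.eq_top_iff_one Q).mpr h1)

theorem primeH_ZQ [IsAlgClosed E] [Finite W] (a : Ω → W → E) (hcl : Clo a)
    (Q : Ideal (MvPolynomial W E)) (hQ : HP Q) (hc : Cont a Q) :
    PrimeH (fun y : ZQ a Q => a y) := by
  intro P R i j hP hR hPR
  have h1 := (van_ZQ a hcl Q hQ hc _ _ (hP.mul hR)).1 hPR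
  rcases hQ.prime.mem_or_mem h1 with h | h
  · exact Or.inl ((van_ZQ a hcl Q hQ hc _ _ hP).2 h)
  · exact Or.inr ((van_ZQ a hcl Q hQ hc _ _ hR).2 h)

theorem isCond_ZQ [IsAlgClosed E] [CharZero E] [Finite W] (a : Ω → W → E) (hcl : Clo a)
    (Q : Ideal (MvPolynomial W E)) (hQ : HP Q) (hc : Cont a Q) {d : ℕ}
    (z : Fin (d + 1) → MvPolynomial W E) (hz : NN Q z) (e : ℕ) (he : RankLE Q z e) :
    ∃ (c₀ : ℕ) (Θ : MvPolynomial W E), c₀ ≤ e * e ∧ IsCond (fun y : ZQ a Q => a y) c₀ Θ := by
  obtain ⟨c₀, Θ, hc₀, hΘ1, hΘ2, hΘ3⟩ := conde Q hQ z hz e he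
  refine ⟨c₀, Θ, hc₀, hΘ1, fun h => hΘ2 ((van_ZQ a hcl Q hQ hc Θ c₀ hΘ1).1 h), ?_⟩
  intro b e₁ k N' D A hk hN hD hDv hA hrel
  have hD' : D ∉ Q := fun h => hDv ((van_ZQ a hcl Q hQ hc D e₁ hD).2 h)
  have hhom : (N' ^ k + ∑ i ∈ Finset.range k, A (i + 1) * D ^ (i + 1) * N' ^ (k - 1 - i)
      ).IsHomogeneous ((b + e₁) * k) := by
    refine (hN.pow k).add (IsHomogeneous.sum _ _ _ fun i hi => ?_)
    rw [Finset.mem_range] at hi
    have h1 := ((hA (i + 1)).mul (hD.pow (i + 1))).mul (hN.pow (k - 1 - i))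
    have h2 : (i + 1) * b + e₁ * (i + 1) + (b + e₁) * (k - 1 - i) = (b + e₁) * k := by
      obtain ⟨j, rfl⟩ : ∃ j, k = i + 1 + j := ⟨k - (i + 1), by omega⟩
      have : i + 1 + j - 1 - i = j := by omega
      rw [this]
      ring
    rw [h2] at h1
    exact h1
  have hmem := (van_ZQ a hcl Q hQ hc _ _ hhom).1 hrel
  obtain ⟨R, hR, hR2⟩ := hΘ3 b e₁ N' D hN hD hD' ⟨k, A, hk, hmem⟩
  exact ⟨R, hR, fun x => x.2 _ hR2⟩

attribute [local instance] MvPolynomial.gradedAlgebra in
theorem exists_HP [Nonempty Ω] (a : Ω → W → E) (ha0 : ∀ x, a x ≠ 0) (ha : PrimeH a) :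
    ∃ Q : Ideal (MvPolynomial W E), HP Q ∧ Cont a Q ∧
      ∀ P ∈ Q, ∀ k, Van a (homogeneousComponent k P) := by
  have hhom : ∀ F ∈ nlp_idl a, ∀ k : ℕ, homogeneousComponent k F ∈ nlp_idl a := by
    intro F hF k
    rw [nlp_mem_hom (homogeneousComponent_isHomogeneous k F)]
    exact hF k
  obtain ⟨x0⟩ := ‹Nonempty Ω›
  refine ⟨nlp_idl a, ⟨?_, hhom, ?_⟩, fun P k hP hv => (nlp_mem_hom hP).2 hv,
    fun P hP k => hP k⟩
  · apply Ideal.IsHomogeneous.isPrime_of_homogeneous_mem_or_mem
      (𝒜 := homogeneousSubmodule W E)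
    · intro i F hF
      have h1 : (DirectSum.decompose (homogeneousSubmodule W E) F i :
          MvPolynomial W E) = homogeneousComponent i F :=
        decomposition.decompose'_apply F i
      rw [h1]
      exact hhom F hF i
    · intro h
      have h1 : (1 : MvPolynomial W E) ∈ nlp_idl a := by rw [h]; trivial
      rw [nlp_mem_hom (isHomogeneous_one _ _)] at h1
      have := h1 x0
      rw [map_one] at this
      exact one_ne_zero this
    · rintro F G ⟨i, hF⟩ ⟨j, hG⟩ hFG
      rw [mem_homogeneousSubmodule] at hF hG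
      rw [nlp_mem_hom (hF.mul hG)] at hFG
      rcases ha F G i j hF hG hFG with h | h
      · exact Or.inl ((nlp_mem_hom hF).mpr h)
      · exact Or.inr ((nlp_mem_hom hG).mpr h)
  · obtain ⟨w, hw⟩ := Function.ne_iff.mp (ha0 x0)
    refine ⟨w, fun h => hw ?_⟩
    rw [nlp_mem_hom (isHomogeneous_X _ _)] at h
    have := h x0
    rwa [eval_X] at this

end Pool.Agent.LLX.AS
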