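import Pool.Agent.LLX.Wt
import Pool.Agent.PW.Defs

/-!
# LLX: definitions for the algebra side
-/

open MvPolynomial

namespace Pool.Agent.LLX.AS

open Pool.Agent.Helper63.SAND Pool.Agent.Helper63.WH Pool.Agent.PW

section Abs

variable {E R : Type*} [Field E] [CommRing R] [Algebra E R]

/-- A multiplicative exhaustive filtration of an algebra. -/
structure Filt (Φ : ℕ → Submodule E R) : Prop where
  one : (1 : R) ∈ Φ 0
  mono : Monotone Φ
  mul : ∀ i j f g, f ∈ Φ i → g ∈ Φ j → f * g ∈ Φ (i + j)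
  exh : ∀ f, ∃ k, f ∈ Φ k

/-- The prime `p` is obstructed: the elements of degree `k ≥ 1` of `J`-order at least `β k`
modulo `p` are in `p`. -/
def Obst (Φ : ℕ → Submodule E R) (J : Ideal R) (β : ℝ) (p : Ideal R) : Prop :=
  ∀ (k : ℕ) (g : R) (j : ℕ), 1 ≤ k → g ∈ Φ k → β * k ≤ j → g ∈ J ^ j ⊔ p → g ∈ p

theorem Obst.mono {Φ : ℕ → Submodule E R} {J : Ideal R} {β β' : ℝ} {p : Ideal R} (h : β ≤ β')
    (hO : Obst Φ J β p) : Obst Φ J β' p := fun k g j hk hg hj hJ =>
  hO k g j hk hg ((mul_le_mul_of_nonneg_right h (Nat.cast_nonneg k)).trans hj) hJ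

end Abs

variable {E : Type*} [Field E] {Ω W : Type*}

/-- A polynomial, in the variables of the block `q`. -/
noncomputable abbrev blk (E : Type*) [Field E] {W : Type*} {n : ℕ} (q : Fin (n + 1)) :
    MvPolynomial W E →ₐ[E] MvPolynomial (Fin (n + 1) × W) E := rename fun w => (q, w)

/-- The degree of `P` in the variables of the block `i` is at most `m i`. -/
def Bdd [Fintype W] {n : ℕ} (m : Fin (n + 1) → ℕ) (P : MvPolynomial (Fin (n + 1) × W) E) :
    Prop := ∀ s ∈ P.support, ∀ i, ∑ w, s (i, w) ≤ m i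

/-- The points which are zeros of `Q`. -/
abbrev ZQ (a : Ω → W → E) (Q : Ideal (MvPolynomial W E)) : Type _ :=
  {y : Ω // ∀ P ∈ Q, eval (a y) P = 0}

/-- `Q` contains the forms which vanish at all the points. -/
def Cont (a : Ω → W → E) (Q : Ideal (MvPolynomial W E)) : Prop :=
  ∀ (P : MvPolynomial W E) (k : ℕ), P.IsHomogeneous k → Van a P → P ∈ Q

/-- The ideal of the polynomials vanishing at `y`. -/
noncomputable def pI (y : W → E) : Ideal (MvPolynomial W E) := RingHom.ker (eval y)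

theorem mem_pI {y : W → E} {P : MvPolynomial W E} : P ∈ pI y ↔ eval y P = 0 := Iff.rfl

end Pool.Agent.LLX.AS
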