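import Pool.Agent.LLX.Defs2

/-!
# LLX ALG: a basis of the jets consisting of monomials of exact degree

`exact_deg`: `linB l i - 1 ∈ VI` (value at `npt a F l x'`: `∑_w l i w * a .. w / lin .. - 1 = 0`).
Take `Q = ∑_s C (coeff s P) * monomial s 1 * ∏_i (linB l i) ^ (k * ω i - ∑_w s (i, w))` (sum over
the support of `P`), block homogeneous of multidegree `k * ω i`, and `P - Q ∈ VI` because
`1 - ∏ (linB l i) ^ .. ∈ VI`.
`pick`: `S` spans, so it contains a basis (`Module.Basis.ofSpan`/`exists_linearIndependent`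
extension inside `S`); it has the cardinality of `ι`, because `b` is a basis; number it by `ι`.
`Cm = Basis.toMatrix`: invertible.
`alg`: apply `pick` in `V = R ⧸ (VI ⊔ (⨅ mI) ^ j)` (as a vector space over `E`) to
`b r` = class of `Er r` (independent: `hind`; spanning: `hsp`) and `S` = classes of the
`monomial g 1` with `∑_w g (i, w) = k * ω i` for all `i`: it spans because of `hsurj` and
`exact_deg` (a block homogeneous polynomial of multidegree `k * ω` is a combination of such
monomials).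
-/

open MvPolynomial

namespace Pool.Agent.LLX

open Pool.Agent.Helper63.SAND

theorem pick {E V ι : Type*} [Field E] [AddCommGroup V] [Module E V] [Fintype ι] [DecidableEq ι]
    (b : ι → V) (hli : LinearIndependent E b) (hsp : Submodule.span E (Set.range b) = ⊤)
    (S : Set V) (hS : Submodule.span E S = ⊤) :
    ∃ g : ι → V, (∀ c, g c ∈ S) ∧ ∃ Cm : Matrix ι ι E, Cm.det ≠ 0 ∧
      ∀ c, g c = ∑ r, Cm r c • b r := by
  obtain ⟨T, hTS, hTsp, hTli⟩ := exists_linearIndependent E S
  let B1 : Module.Basis ι E V := Module.Basis.mk hli hsp.ge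
  let B2 : Module.Basis T E V := Module.Basis.mk hTli (by
    rw [Subtype.range_coe, hTsp, hS])
  let e : ι ≃ T := B1.indexEquiv B2
  let B3 : Module.Basis ι E V := B2.reindex e.symm
  have hB3 : ∀ c, B3 c = (e c : V) := by
    intro c
    simp [B3, B2]
  have hB1 : ∀ r, B1 r = b r := by
    intro r
    simp [B1]
  refine ⟨fun c => (e c : V), fun c => hTS (e c).2, B1.toMatrix B3, ?_, ?_⟩
  · let _ := B1.invertibleToMatrix B3
    exact (Matrix.isUnit_det_of_invertible (B1.toMatrix B3)).ne_zero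
  · intro c
    have h := B1.sum_toMatrix_smul_self B3 c
    rw [hB3] at h
    refine h.symm.trans ?_
    exact Finset.sum_congr rfl fun r _ => by rw [hB1]

variable {E Ω W : Type*} [Field E] [Fintype W] {n : ℕ} (a : Ω → W → E) (F : Ω → Ω)
  (l : Fin (n + 1) → W → E)

/-- The weight of a monomial of the graph ring. -/
lemma alg_weight (s : Fin (n + 1) × W →₀ ℕ) (i : Fin (n + 1)) :
    Finsupp.weight (fun q : Fin (n + 1) × W => (Pi.single q.1 1 : Fin (n + 1) → ℕ)) s i =
      ∑ w, s (i, w) := by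
  classical
  rw [Finsupp.weight_apply, Finsupp.sum_fintype _ _ (fun q => by simp), Finset.sum_apply,
    Fintype.sum_prod_type]
  rw [Finset.sum_eq_single i]
  · refine Finset.sum_congr rfl fun w _ => ?_
    simp
  · intro i' _ hne
    refine Finset.sum_eq_zero fun w _ => ?_
    simp [Ne.symm hne]
  · intro h
    exact absurd (Finset.mem_univ i) h

lemma alg_linB (i : Fin (n + 1)) :
    BHom (Pi.single i 1 : Fin (n + 1) → ℕ) (linB l i) := by
  unfold BHom linB
  refine IsWeightedHomogeneous.sum _ _ _ fun w _ => ?_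
  have h1 := (isWeightedHomogeneous_C (R := E)
    (fun q : Fin (n + 1) × W => (Pi.single q.1 1 : Fin (n + 1) → ℕ)) (l i w)).mul
    (isWeightedHomogeneous_X E
      (fun q : Fin (n + 1) × W => (Pi.single q.1 1 : Fin (n + 1) → ℕ)) (i, w))
  rwa [zero_add] at h1

lemma alg_prod (e : Fin (n + 1) → ℕ) : BHom e (∏ i, linB l i ^ e i) := by
  classical
  have h1 : BHom (∑ i, e i • (Pi.single i 1 : Fin (n + 1) → ℕ)) (∏ i, linB l i ^ e i) := by
    refine IsWeightedHomogeneous.prod _ _ _ fun i _ => ?_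
    exact (alg_linB l i).pow (e i)
  have h2 : (∑ i, e i • (Pi.single i 1 : Fin (n + 1) → ℕ)) = e := by
    funext i
    rw [Finset.sum_apply, Finset.sum_eq_single i]
    · simp
    · intro i' _ hne
      simp [Ne.symm hne]
    · intro h
      exact absurd (Finset.mem_univ i) h
  rwa [h2] at h1

lemma alg_eval_linB (x : Ω) (hx : Adm a F l x) (i : Fin (n + 1)) :
    eval (npt a F l x) (linB l i) = 1 := by
  unfold linB npt
  rw [map_sum]
  have h1 : ∀ w, eval (fun q : Fin (n + 1) × W =>
      a (F^[q.1] x) q.2 / lin (l q.1) (a (F^[q.1] x))) (C (l i w) * X (i, w)) =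
      l i w * a (F^[i] x) w / lin (l i) (a (F^[i] x)) := by
    intro w
    rw [map_mul, eval_C, eval_X, mul_div_assoc]
  rw [Finset.sum_congr rfl fun w _ => h1 w, ← Finset.sum_div]
  exact div_self (hx i)

theorem exact_deg (ω : Fin (n + 1) → ℕ) (k : ℕ) (P : MvPolynomial (Fin (n + 1) × W) E)
    (hP : P ∈ Fl E W ω k) :
    ∃ Q, BHom (fun i => k * ω i) Q ∧ P - Q ∈ VI a F l := by
  classical
  refine ⟨∑ s ∈ P.support, monomial s (coeff s P) *
    ∏ i, linB l i ^ (k * ω i - ∑ w, s (i, w)), ?_, ?_⟩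
  · refine IsWeightedHomogeneous.sum _ _ _ fun s hs => ?_
    have h1 : (monomial s (coeff s P)).IsWeightedHomogeneous
        (fun q : Fin (n + 1) × W => (Pi.single q.1 1 : Fin (n + 1) → ℕ))
        (fun i => ∑ w, s (i, w)) :=
      isWeightedHomogeneous_monomial _ _ _ (funext fun i => alg_weight s i)
    have h2 := h1.mul (alg_prod l fun i => k * ω i - ∑ w, s (i, w))
    have h3 : ((fun i => ∑ w, s (i, w)) + fun i => k * ω i - ∑ w, s (i, w) :
        Fin (n + 1) → ℕ) = fun i => k * ω i := by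
      funext i
      rw [Pi.add_apply]
      have := hP s hs i
      omega
    rw [h3] at h2
    exact h2
  · intro x hx
    rw [map_sub, map_sum]
    have h1 : ∀ s ∈ P.support, eval (npt a F l x) (monomial s (coeff s P) *
        ∏ i, linB l i ^ (k * ω i - ∑ w, s (i, w))) =
        eval (npt a F l x) (monomial s (coeff s P)) := by
      intro s _
      rw [map_mul, map_prod]
      have h2 : ∀ i, eval (npt a F l x) (linB l i ^ (k * ω i - ∑ w, s (i, w))) = 1 := by
        intro i
        rw [map_pow, alg_eval_linB a F l x hx i, one_pow]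
      rw [Finset.prod_congr rfl fun i _ => h2 i, Finset.prod_const_one, mul_one]
    rw [Finset.sum_congr rfl h1, ← map_sum, ← map_sub, ← P.as_sum, sub_self, map_zero]

theorem alg {d j M : ℕ} (ω : Fin (n + 1) → ℕ) (k : ℕ) (x : Fin M → Ω) (I : Fin M → Fin d → W)
    (ep : Fin M → MvPolynomial (Fin (n + 1) × W) E)
    (hsp : ∀ P, ∃ c : Fin M × JI d j → E, P - ∑ r, C (c r) * Er a F l x I ep r ∈
      VI a F l ⊔ (⨅ i, mI a F l (x i)) ^ j)
    (hind : ∀ c : Fin M × JI d j → E, ∑ r, C (c r) * Er a F l x I ep r ∈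
      VI a F l ⊔ (⨅ i, mI a F l (x i)) ^ j → c = 0)
    (hsurj : Fl E W ω k ⊔ (VI a F l ⊔ (⨅ i, mI a F l (x i)) ^ j).restrictScalars E = ⊤) :
    ∃ (g : Fin M × JI d j → (Fin (n + 1) × W →₀ ℕ))
      (Cm : Matrix (Fin M × JI d j) (Fin M × JI d j) E),
      (∀ c i, ∑ w, g c (i, w) = k * ω i) ∧ Cm.det ≠ 0 ∧
      ∀ c, monomial (g c) 1 - ∑ r, C (Cm r c) * Er a F l x I ep r ∈
        VI a F l ⊔ (⨅ i, mI a F l (x i)) ^ j := by
  set J : Ideal (MvPolynomial (Fin (n + 1) × W) E) := VI a F l ⊔ (⨅ i, mI a F l (x i)) ^ j with hJ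
  let JE : Submodule E (MvPolynomial (Fin (n + 1) × W) E) := J.restrictScalars E
  have hmem : ∀ P, P ∈ JE ↔ P ∈ J := fun P => Iff.rfl
  have hsm : ∀ c : Fin M × JI d j → E, JE.mkQ (∑ r, C (c r) * Er a F l x I ep r) =
      ∑ r, c r • JE.mkQ (Er a F l x I ep r) := by
    intro c
    rw [map_sum]
    refine Finset.sum_congr rfl fun r _ => ?_
    rw [← smul_eq_C_mul, map_smul]
  obtain ⟨g, hg, Cm, hdet, hCm⟩ := pick (E := E) (fun r => JE.mkQ (Er a F l x I ep r))
    (by
      rw [Fintype.linearIndependent_iff]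
      intro c hc
      have h1 := hind c (by
        rw [← hmem, ← Submodule.Quotient.mk_eq_zero, ← Submodule.mkQ_apply, hsm, hc])
      intro r
      rw [h1]
      rfl)
    (by
      rw [eq_top_iff]
      intro z _
      obtain ⟨P, rfl⟩ := JE.mkQ_surjective z
      obtain ⟨c, hc⟩ := hsp P
      have h1 : JE.mkQ P = ∑ r, c r • JE.mkQ (Er a F l x I ep r) := by
        rw [← hsm, ← sub_eq_zero, ← map_sub, Submodule.mkQ_apply, Submodule.Quotient.mk_eq_zero]
        exact hc
      rw [h1]
      refine Submodule.sum_mem _ fun r _ => Submodule.smul_mem _ _ (Submodule.subset_span ⟨r, rfl⟩))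
    {z | ∃ g : Fin (n + 1) × W →₀ ℕ, (∀ i, ∑ w, g (i, w) = k * ω i) ∧
      z = JE.mkQ (monomial g 1)}
    (by
      rw [eq_top_iff]
      intro z _
      obtain ⟨P, rfl⟩ := JE.mkQ_surjective z
      have h1 : P ∈ Fl E W ω k ⊔ JE := by
        rw [hsurj]
        exact Submodule.mem_top
      obtain ⟨P1, hP1, P2, h2, rfl⟩ := Submodule.mem_sup.1 h1
      obtain ⟨Q, hQ, hPQ⟩ := exact_deg a F l ω k P1 hP1
      have h3 : JE.mkQ (P1 + P2) = JE.mkQ Q := by
        rw [← sub_eq_zero, ← map_sub, Submodule.mkQ_apply, Submodule.Quotient.mk_eq_zero, hmem]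
        have h4 : P1 + P2 - Q = (P1 - Q) + P2 := by ring
        rw [h4]
        exact J.add_mem (Ideal.mem_sup_left hPQ) h2
      rw [h3, Q.as_sum, map_sum]
      refine Submodule.sum_mem _ fun s hs => ?_
      have h5 : monomial s (coeff s Q) = coeff s Q • (monomial s (1 : E)) := by
        rw [smul_monomial, smul_eq_mul, mul_one]
      rw [h5, map_smul]
      refine Submodule.smul_mem _ _ (Submodule.subset_span ⟨s, fun i => ?_, rfl⟩)
      have h6 := hQ (mem_support_iff.1 hs)
      rw [← alg_weight s i, h6])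
  choose g' hg' hgg using hg
  refine ⟨g', Cm, hg', hdet, fun c => ?_⟩
  have h1 := hCm c
  rw [hgg c, ← hsm (fun r => Cm r c), ← sub_eq_zero, ← map_sub, Submodule.mkQ_apply,
    Submodule.Quotient.mk_eq_zero] at h1
  exact h1

end Pool.Agent.LLX
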