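import Pool.Agent.LLX.Rel
import Pool.Agent.PW.Recur

/-!
# LLX CHN: the recursion

`sel`: suppose that no `Q' ∈ S` satisfies `Q' ≤ p.comap (blk E 0)`; choose `H Q' ∈ Q'` with
`blk E 0 (H Q') ∉ p`. The product `∏ Q' ∈ S, blk E 0 (H Q')` is not in the prime `p`; by the
Nullstellensatz (`MvPolynomial.IsPrime.vanishingIdeal_zeroLocus`, see the proof of `null` in
`PW/Null.lean`) there is a zero `v` of `p` at which it does not vanish. Let
`y w = v (0, w)`; `eval v (blk E 0 P) = eval y P`. `y ≠ 0` as `linB l 0 - 1 ∈ VI a F l ≤ p`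
(`rel_lin`). `y` is a zero of `Q` and of `Φ`, so `hS` gives `Q' ∈ S` with `y ∈ Zeros Q'`, but
`eval y (H Q') ≠ 0`: contradiction.

`chain`: induction on `d`, as the proof of `recur` in `PW/Recur.lean`, but following only the
component given by `sel`: `step` gives `Slow Λ Q` (take `Q' = Q`, `Λ' = Λ`), or a form
`Φ ∉ Q` of degree `k ≤ Λ ^ C` with `blk E 0 Φ ∈ p`; `comp` (`PW/Comp.lean`) gives the finite set
`S` (for `d = 0` it is empty, because `d' + 1 = d`: contradiction to `sel`), with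
`RankLE Q₁ z₁ (e * (e * k))`, `e * (e * k) ≤ Λ ^ (C + 2)`; use the induction hypothesis for
`Λ ^ (C + 2)`, `(Λ ^ (C + 2)) ^ ex C d ≤ Λ ^ ex C (d + 1)`.
-/

open MvPolynomial

namespace Pool.Agent.LLX.AS

open Pool.Agent.Helper63.SAND Pool.Agent.PW

variable {E : Type*} [Field E] {Ω W : Type*} [Fintype W] {n : ℕ}

theorem sel [IsAlgClosed E] (a : Ω → W → E) (F : Ω → Ω) (l : Fin (n + 1) → W → E)
    (p : Ideal (MvPolynomial (Fin (n + 1) × W) E)) (hpp : p.IsPrime) (hp : VI a F l ≤ p)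
    (Q : Ideal (MvPolynomial W E)) (hQp : Q ≤ p.comap (blk E 0)) (Φ : MvPolynomial W E)
    (hΦ : blk E 0 Φ ∈ p) (S : Finset (Ideal (MvPolynomial W E)))
    (hS : ∀ y : W → E, y ≠ 0 → y ∈ Zeros Q → eval y Φ = 0 → ∃ Q' ∈ S, y ∈ Zeros Q') :
    ∃ Q' ∈ S, Q' ≤ p.comap (blk E 0) := by
  classical
  by_contra hcon
  push Not at hcon
  have hH : ∀ Q' : Ideal (MvPolynomial W E), ∃ H : MvPolynomial W E,
      Q' ∈ S → H ∈ Q' ∧ blk E 0 H ∉ p := by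
    intro Q'
    by_cases hQ' : Q' ∈ S
    · obtain ⟨H, hH1, hH2⟩ := SetLike.not_le_iff_exists.1 (hcon Q' hQ')
      exact ⟨H, fun _ => ⟨hH1, hH2⟩⟩
    · exact ⟨0, fun h => absurd h hQ'⟩
  choose H hH using hH
  have hprod : ∏ Q' ∈ S, blk E 0 (H Q') ∉ p := by
    intro h
    obtain ⟨Q', hQ', h1⟩ := hpp.prod_mem_iff.1 h
    exact (hH Q' hQ').2 h1
  rw [← MvPolynomial.IsPrime.vanishingIdeal_zeroLocus (K := E) p, mem_vanishingIdeal_iff]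
    at hprod
  push Not at hprod
  obtain ⟨v, hv, hv1⟩ := hprod
  rw [mem_zeroLocus_iff] at hv
  have hv2 : ∀ G ∈ p, eval v G = 0 := fun G hG => by
    have := hv G hG
    rwa [aeval_eq_eval] at this
  rw [aeval_eq_eval] at hv1
  change eval v (∏ Q' ∈ S, blk E 0 (H Q')) ≠ 0 at hv1
  rw [map_prod] at hv1
  have hev : ∀ P : MvPolynomial W E, eval v (blk E 0 P) = eval (fun w => v (0, w)) P := by
    intro P
    rw [eval_rename]
    rfl
  have hy0 : (fun w => v (0, w)) ≠ 0 := by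
    intro h0
    have h1 := hv2 _ (hp (rel_lin a F l 0))
    have h2 : ∀ w, v (0, w) = 0 := fun w => congrFun h0 w
    rw [map_sub, map_one, linB, map_sum] at h1
    simp only [map_mul, eval_C, eval_X, h2, mul_zero, Finset.sum_const_zero] at h1
    simp at h1
  obtain ⟨Q', hQ', hyQ'⟩ := hS _ hy0 (by
    intro G hG
    rw [← hev]
    exact hv2 _ (hQp hG)) (by
    rw [← hev]
    exact hv2 _ hΦ)
  have h1 := Finset.prod_ne_zero_iff.1 hv1 Q' hQ'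
  apply h1
  rw [hev]
  exact hyQ' _ (hH Q' hQ').1

theorem chain [IsAlgClosed E] (a : Ω → W → E) (F : Ω → Ω) (l : Fin (n + 1) → W → E)
    (p : Ideal (MvPolynomial (Fin (n + 1) × W) E)) (hpp : p.IsPrime) (hp : VI a F l ≤ p)
    (C : ℕ) (Slow : ℕ → Ideal (MvPolynomial W E) → Prop) (Λ₀ B : ℕ) (hΛ₀ : 2 ≤ Λ₀)
    (step : ∀ (Λ : ℕ) (Q : Ideal (MvPolynomial W E)), Λ₀ ≤ Λ → Λ ≤ B → HP Q → Cont a Q →
      Q ≤ p.comap (blk E 0) → ∀ {d : ℕ} (z : Fin (d + 1) → MvPolynomial W E) (e : ℕ), NN Q z →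
      RankLE Q z e → e ≤ Λ → Slow Λ Q ∨ ∃ (k : ℕ) (Φ : MvPolynomial W E), k ≤ Λ ^ C ∧
        Φ.IsHomogeneous k ∧ Φ ∉ Q ∧ blk E 0 Φ ∈ p) :
    ∀ (d Λ : ℕ) (Q : Ideal (MvPolynomial W E)) (z : Fin (d + 1) → MvPolynomial W E) (e : ℕ),
      Λ₀ ≤ Λ → Λ ^ ex C d ≤ B → HP Q → Cont a Q → Q ≤ p.comap (blk E 0) → NN Q z →
      RankLE Q z e → e ≤ Λ →
      ∃ (Q' : Ideal (MvPolynomial W E)) (Λ' d' : ℕ) (z' : Fin (d' + 1) → MvPolynomial W E),
        HP Q' ∧ Cont a Q' ∧ Q' ≤ p.comap (blk E 0) ∧ Λ ≤ Λ' ∧ Λ' ≤ Λ ^ ex C d ∧ Slow Λ' Q' ∧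
        NN Q' z' ∧ RankLE Q' z' Λ' := by
  intro d
  induction d with
  | zero =>
    intro Λ Q z e hΛ hB hQ hC hQp hz he heΛ
    have hex : Λ ^ ex C 0 = Λ := by simp [ex]
    rw [hex] at hB
    rcases step Λ Q hΛ hB hQ hC hQp z e hz he heΛ with hs | ⟨k, Φ, hk, hΦ, hΦQ, hΦp⟩
    · exact ⟨Q, Λ, 0, z, hQ, hC, hQp, le_refl _, hex.ge, hs, hz, he.mono heΛ⟩
    · obtain ⟨S, _, hS2, hS3⟩ := comp Q hQ z hz e he Φ k hΦ hΦQ
      obtain ⟨Q', hQ', _⟩ := sel a F l p hpp hp Q hQp Φ hΦp S hS3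
      obtain ⟨_, _, d', _, hd, _⟩ := hS2 Q' hQ'
      omega
  | succ d ih =>
    intro Λ Q z e hΛ hB hQ hC hQp hz he heΛ
    have hΛ1 : 1 ≤ Λ := by omega
    have hΛex : Λ ≤ Λ ^ ex C (d + 1) := by
      calc Λ = Λ ^ 1 := (pow_one _).symm
        _ ≤ Λ ^ ex C (d + 1) := Nat.pow_le_pow_right hΛ1 (one_le_ex C _)
    rcases step Λ Q hΛ (hΛex.trans hB) hQ hC hQp z e hz he heΛ with
      hs | ⟨k, Φ, hk, hΦ, hΦQ, hΦp⟩
    · exact ⟨Q, Λ, d + 1, z, hQ, hC, hQp, le_refl _, hΛex, hs, hz, he.mono heΛ⟩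
    · obtain ⟨S, _, hS2, hS3⟩ := comp Q hQ z hz e he Φ k hΦ hΦQ
      obtain ⟨Q₁, hQ₁, hQ₁p⟩ := sel a F l p hpp hp Q hQp Φ hΦp S hS3
      obtain ⟨hQ1, hQ2, d', z', hd, hz', hr'⟩ := hS2 Q₁ hQ₁
      have : d' = d := by omega
      subst this
      set M : ℕ := Λ ^ (C + 2) with hM
      have hb : e * (e * k) ≤ M := by
        calc e * (e * k) ≤ Λ * (Λ * Λ ^ C) :=
              Nat.mul_le_mul heΛ (Nat.mul_le_mul heΛ hk)
          _ = M := by rw [hM]; ring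
      have hΛM : Λ ≤ M := by
        calc Λ = Λ ^ 1 := (pow_one _).symm
          _ ≤ M := Nat.pow_le_pow_right hΛ1 (by omega)
      have hpow : M ^ ex C d' ≤ Λ ^ ex C (d' + 1) := by
        rw [hM, ← pow_mul]
        apply Nat.pow_le_pow_right hΛ1
        simp only [ex]
        exact Nat.mul_le_mul_left _ (by omega)
      obtain ⟨Q', Λ', d'', z'', h1, h2, h3, h4, h5, h6, h7, h8⟩ := ih M Q₁ z' _
        (hΛ.trans hΛM) (hpow.trans hB) hQ1 (fun P k hP hv => hQ2 (hC P k hP hv)) hQ₁p hz' hr' hb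
      exact ⟨Q', Λ', d'', z'', h1, h2, h3, hΛM.trans h4, h5.trans hpow, h6, h7, h8⟩

end Pool.Agent.LLX.AS
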