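import Pool.Agent.LLX.Cut
import Pool.Agent.LLX.Nlp
import Pool.Agent.Helper63.SAND.Indep
import Pool.Agent.Helper63.SAND.Tools

/-!
# LLX CST: the numbers

Copy the relevant part of the proof of `step` in `Helper63/WH/CoreC.lean` (calculus of
polynomially bounded functions `PB`, `SAND/Tools.lean`): `m = Fintype.card W`,
`lam Λ = 4 (CA + 1) Λ` (`β' = (CA + 1) Λ`), `b Λ = Λ * lam Λ ^ m`, `k₀` with
`m (b Λ + 1 + Λ ^ 2) ≤ Λ ^ k₀`, `C₃ > max C₁ ((k₀ + 1) / log (ρ / r))`,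
`τ = N Λ = ⌈C₃ log Λ⌉₊` (`1 ≤ τ`, as `C₃ ≥ 1`, `log Λ > 0`; and
`τ ≤ (C₃ + 2) log Λ ≤ n`, so `τ : Fin (n + 1)`), `b₁ = ⌈b Λ * r ^ τ⌉₊ ≤ (b + 1) r ^ τ`.
Either the iterate `F^[τ]` is given on `ZQ a Q` by forms of degree
`m (b₁ + c₀) ≤ m (b + 1 + Λ ^ 2) r ^ τ ≤ ρ ^ τ` (`c₀ ≤ e' ^ 2 ≤ Λ ^ 2`: `isCond_ZQ`), or
`indep` (SAND/Indep.lean, with `primeH_ZQ`, `isCond_ZQ`, `nonempty_ZQ`, `chart_locF` and
`LocF.comp` as in `CoreC.lean`) gives `w₀ w₁` for `cut`; the degree `b₁ + b e ^ τ` is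
polynomially bounded in `Λ`.
-/

open MvPolynomial

namespace Pool.Agent.LLX.AS

open Pool.Agent.Helper63.SAND Pool.Agent.PW


/-- Polynomially bounded functions are bounded by powers. -/
private theorem cst_le_pow {g : ℕ → ℝ} (hg : PB g) :
    ∃ k : ℕ, ∀ Λ : ℕ, 2 ≤ Λ → g Λ ≤ (Λ : ℝ) ^ k := by
  obtain ⟨k, hk⟩ := hg
  refine ⟨2 * k, fun Λ hΛ => (le_abs_self _).trans ((hk Λ).trans ?_)⟩
  have h2 : (2 : ℝ) ≤ Λ := by exact_mod_cast hΛ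
  rw [pow_mul]
  exact pow_le_pow_left₀ (by linarith) (by nlinarith) k

private theorem cst_log_two_half : (1 / 2 : ℝ) < Real.log 2 := by
  have := Real.log_two_gt_d9
  linarith

/-- The numbers. -/
private theorem cst_numbers (mW e CA : ℕ) (r ρ C₁ : ℝ) (hr : 1 ≤ r) (hρ : r < ρ) :
    ∃ (N : ℕ → ℕ) (C : ℕ), ∀ Λ : ℕ, 2 ≤ Λ → 1 ≤ N Λ ∧ C₁ * Real.log Λ ≤ N Λ ∧
      (N Λ : ℝ) ≤ C * Real.log Λ ∧
      (∀ c₀ : ℕ, c₀ ≤ Λ * Λ → ((mW * (⌈((Λ * (4 * (CA + 1) * Λ) ^ mW : ℕ) : ℝ) * r ^ N Λ⌉₊ +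
        c₀) : ℕ) : ℝ) ≤ ρ ^ N Λ) ∧
      ⌈((Λ * (4 * (CA + 1) * Λ) ^ mW : ℕ) : ℝ) * r ^ N Λ⌉₊ +
        Λ * (4 * (CA + 1) * Λ) ^ mW * e ^ N Λ ≤ Λ ^ C := by
  obtain ⟨b, hbdef⟩ : ∃ b : ℕ → ℕ, ∀ Λ, b Λ = Λ * (4 * (CA + 1) * Λ) ^ mW := ⟨_, fun _ => rfl⟩
  have hPBb : PB fun Λ => (b Λ : ℝ) := by
    have h1 : (fun Λ => (b Λ : ℝ)) = fun Λ : ℕ => (Λ : ℝ) *
        ((4 * ((CA : ℝ) + 1)) * (Λ : ℝ)) ^ mW := by
      funext Λ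
      rw [hbdef]
      push_cast
      ring
    rw [h1]
    exact PB.id.mul (((PB.const _).mul PB.id).pow mW)
  -- the iterate
  obtain ⟨k₀, hk₀⟩ : ∃ k₀ : ℕ, ∀ Λ : ℕ, 2 ≤ Λ →
      (mW : ℝ) * ((b Λ : ℝ) + 1 + (Λ : ℝ) ^ 2) ≤ (Λ : ℝ) ^ k₀ :=
    cst_le_pow ((PB.const (mW : ℝ)).mul ((hPBb.add (PB.const 1)).add (PB.id.pow 2)))
  have hr0 : 0 < r := by linarith
  have hρr : 1 < ρ / r := by rwa [one_lt_div hr0]
  have hlρ : 0 < Real.log (ρ / r) := Real.log_pos hρr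
  obtain ⟨C₃, hC₃⟩ := exists_nat_gt (max C₁ ((k₀ + 1) / Real.log (ρ / r)))
  have hC₃1 : C₁ ≤ C₃ := ((le_max_left _ _).trans hC₃.le)
  have hC₃2 : (k₀ + 1 : ℝ) ≤ C₃ * Real.log (ρ / r) := by
    have := ((le_max_right _ _).trans hC₃.le)
    rwa [div_le_iff₀ hlρ] at this
  have hC₃0 : (0 : ℝ) < C₃ := by
    have h1 : (0 : ℝ) < (k₀ + 1) / Real.log (ρ / r) := by positivity
    exact h1.trans_le ((le_max_right _ _).trans hC₃.le)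
  obtain ⟨N, hNdef⟩ : ∃ N : ℕ → ℕ, ∀ Λ, N Λ = ⌈(C₃ : ℝ) * Real.log Λ⌉₊ := ⟨_, fun _ => rfl⟩
  have hN1 : ∀ Λ : ℕ, (C₃ : ℝ) * Real.log Λ ≤ N Λ := fun Λ => by
    rw [hNdef]
    exact Nat.le_ceil _
  have hlog : ∀ Λ : ℕ, 2 ≤ Λ → (1 / 2 : ℝ) ≤ Real.log Λ := by
    intro Λ hΛ
    have h1 : (2 : ℝ) ≤ Λ := by exact_mod_cast hΛ
    exact cst_log_two_half.le.trans (Real.log_le_log (by norm_num) h1)
  have hN2 : ∀ Λ : ℕ, 2 ≤ Λ → (N Λ : ℝ) ≤ (C₃ + 2) * Real.log Λ := by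
    intro Λ hΛ
    have h1 := hlog Λ hΛ
    have h2 : (N Λ : ℝ) < C₃ * Real.log Λ + 1 := by
      rw [hNdef]
      exact Nat.ceil_lt_add_one (by positivity)
    nlinarith
  -- powers with exponent N
  have hPBpow : ∀ x : ℝ, 0 ≤ x → PB fun Λ => x ^ N Λ := by
    intro x hx
    obtain ⟨E₀, hE₀⟩ := exists_nat_gt (max x 1)
    have hE1 : (1 : ℝ) ≤ E₀ := (le_max_right _ _).trans hE₀.le
    have hE2 : x ≤ E₀ := (le_max_left _ _).trans hE₀.le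
    have hE3 : (0 : ℝ) < E₀ := by linarith
    obtain ⟨k, hk⟩ := exists_nat_gt ((C₃ + 2) * Real.log E₀)
    have h3 : PB fun Λ => ((Λ : ℝ) + 2) ^ k := (PB.id.add (PB.const 2)).pow k
    have h4 : PB fun Λ => (E₀ : ℝ) ^ (N 0 + N 1) * ((Λ : ℝ) + 2) ^ k := (PB.const _).mul h3
    refine h4.mono fun Λ => ?_
    have hb2 : (1 : ℝ) ≤ ((Λ : ℝ) + 2) ^ k := one_le_pow₀ (PB.base1 Λ)
    have hb3 : (1 : ℝ) ≤ (E₀ : ℝ) ^ (N 0 + N 1) := one_le_pow₀ hE1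
    rw [abs_of_nonneg (by positivity), abs_of_nonneg (by positivity)]
    have h5 : x ^ N Λ ≤ (E₀ : ℝ) ^ N Λ := pow_le_pow_left₀ hx hE2 _
    rcases Nat.lt_or_ge Λ 2 with hΛ | hΛ
    · have h6 : N Λ ≤ N 0 + N 1 := by
        interval_cases Λ
        · omega
        · omega
      calc x ^ N Λ ≤ (E₀ : ℝ) ^ N Λ := h5
        _ ≤ (E₀ : ℝ) ^ (N 0 + N 1) := pow_le_pow_right₀ hE1 h6
        _ ≤ (E₀ : ℝ) ^ (N 0 + N 1) * ((Λ : ℝ) + 2) ^ k := by nlinarith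
    · have hΛ0 : (0 : ℝ) < Λ := by
        have : 0 < Λ := by omega
        exact_mod_cast this
      have h6 : (E₀ : ℝ) ^ N Λ ≤ (Λ : ℝ) ^ k := by
        have h7 : (E₀ : ℝ) ^ N Λ = Real.exp (N Λ * Real.log E₀) := by
          rw [Real.exp_nat_mul, Real.exp_log hE3]
        have h8 : (Λ : ℝ) ^ k = Real.exp (k * Real.log Λ) := by
          rw [Real.exp_nat_mul, Real.exp_log hΛ0]
        rw [h7, h8, Real.exp_le_exp]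
        have h9 := hN2 Λ hΛ
        have h10 : 0 ≤ Real.log E₀ := Real.log_nonneg hE1
        have h11 : 0 ≤ Real.log Λ := (by norm_num : (0 : ℝ) ≤ 1 / 2).trans (hlog Λ hΛ)
        calc (N Λ : ℝ) * Real.log E₀ ≤ ((C₃ + 2) * Real.log Λ) * Real.log E₀ :=
              mul_le_mul_of_nonneg_right h9 h10
          _ = ((C₃ + 2) * Real.log E₀) * Real.log Λ := by ring
          _ ≤ k * Real.log Λ := mul_le_mul_of_nonneg_right hk.le h11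
      have h7 : (Λ : ℝ) ^ k ≤ ((Λ : ℝ) + 2) ^ k :=
        pow_le_pow_left₀ hΛ0.le (by linarith) k
      nlinarith
  have hPBr : PB fun Λ => r ^ N Λ := hPBpow r hr0.le
  have hPBe : PB fun Λ => (e : ℝ) ^ N Λ := hPBpow e (Nat.cast_nonneg _)
  obtain ⟨b₁, hb₁def⟩ : ∃ b₁ : ℕ → ℕ, ∀ Λ, b₁ Λ = ⌈(b Λ : ℝ) * r ^ N Λ⌉₊ := ⟨_, fun _ => rfl⟩
  have hPBb₁ : PB fun Λ => (b₁ Λ : ℝ) := by
    have h1 : (fun Λ => (b₁ Λ : ℝ)) = fun Λ => ((⌈(b Λ : ℝ) * r ^ N Λ⌉₊ : ℕ) : ℝ) := by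
      funext Λ
      rw [hb₁def]
    rw [h1]
    exact (hPBb.mul hPBr).nat_ceil
  have hPBD : PB fun Λ => ((b₁ Λ + b Λ * e ^ N Λ : ℕ) : ℝ) := by
    have h1 : (fun Λ => ((b₁ Λ + b Λ * e ^ N Λ : ℕ) : ℝ)) = fun Λ : ℕ =>
        (b₁ Λ : ℝ) + (b Λ : ℝ) * (e : ℝ) ^ N Λ := by
      funext Λ
      push_cast
      ring
    rw [h1]
    exact hPBb₁.add (hPBb.mul hPBe)
  obtain ⟨kD, hkD⟩ := cst_le_pow hPBD
  refine ⟨N, max (C₃ + 2) kD, fun Λ hΛ => ?_⟩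
  have hΛ1 : (1 : ℝ) ≤ Λ := by
    have : 1 ≤ Λ := by omega
    exact_mod_cast this
  have hlogΛ : 0 < Real.log Λ := lt_of_lt_of_le (by norm_num) (hlog Λ hΛ)
  refine ⟨?_, ?_, ?_, ?_, ?_⟩
  · have h1 := hN1 Λ
    have h2 : (0 : ℝ) < N Λ := lt_of_lt_of_le (mul_pos hC₃0 hlogΛ) h1
    have h3 : 0 < N Λ := by exact_mod_cast h2
    exact h3
  · exact (mul_le_mul_of_nonneg_right hC₃1 hlogΛ.le).trans (hN1 Λ)
  · refine (hN2 Λ hΛ).trans (mul_le_mul_of_nonneg_right ?_ hlogΛ.le)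
    have : C₃ + 2 ≤ max (C₃ + 2) kD := le_max_left _ _
    exact_mod_cast this
  · intro c₀ hc₀
    rw [← hbdef, ← hb₁def]
    have hrN : (1 : ℝ) ≤ r ^ N Λ := one_le_pow₀ hr
    have h1 : (b₁ Λ : ℝ) < b Λ * r ^ N Λ + 1 := by
      rw [hb₁def]
      exact Nat.ceil_lt_add_one (by positivity)
    have h2 : (c₀ : ℝ) ≤ (Λ : ℝ) ^ 2 := by
      have : (c₀ : ℝ) ≤ (Λ : ℝ) * Λ := by exact_mod_cast hc₀
      nlinarith
    have h3 : ((mW * (b₁ Λ + c₀) : ℕ) : ℝ) ≤ mW * ((b Λ : ℝ) + 1 + (Λ : ℝ) ^ 2) * r ^ N Λ := by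
      push_cast
      rw [mul_assoc]
      apply mul_le_mul_of_nonneg_left _ (Nat.cast_nonneg mW)
      have h4 : (Λ : ℝ) ^ 2 ≤ (Λ : ℝ) ^ 2 * r ^ N Λ := le_mul_of_one_le_right (by positivity) hrN
      nlinarith
    have h4 : (Λ : ℝ) ^ k₀ ≤ (ρ / r) ^ N Λ := by
      have hΛ0 : (0 : ℝ) < Λ := by linarith
      have h5 : (Λ : ℝ) ^ k₀ = Real.exp (k₀ * Real.log Λ) := by
        rw [Real.exp_nat_mul, Real.exp_log hΛ0]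
      have h6 : (ρ / r) ^ N Λ = Real.exp (N Λ * Real.log (ρ / r)) := by
        rw [Real.exp_nat_mul, Real.exp_log (by linarith)]
      rw [h5, h6, Real.exp_le_exp]
      calc (k₀ : ℝ) * Real.log Λ ≤ (C₃ * Real.log (ρ / r)) * Real.log Λ := by
            apply mul_le_mul_of_nonneg_right _ hlogΛ.le
            linarith
        _ = (C₃ * Real.log Λ) * Real.log (ρ / r) := by ring
        _ ≤ N Λ * Real.log (ρ / r) := mul_le_mul_of_nonneg_right (hN1 Λ) hlρ.le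
    calc ((mW * (b₁ Λ + c₀) : ℕ) : ℝ) ≤ mW * ((b Λ : ℝ) + 1 + (Λ : ℝ) ^ 2) * r ^ N Λ := h3
      _ ≤ (ρ / r) ^ N Λ * r ^ N Λ := by
        apply mul_le_mul_of_nonneg_right _ (by positivity)
        exact (hk₀ Λ hΛ).trans h4
      _ = ρ ^ N Λ := by
        rw [← mul_pow, div_mul_cancel₀ _ hr0.ne']
  · rw [← hbdef, ← hb₁def]
    have h7 := hkD Λ hΛ
    have h8 : b₁ Λ + b Λ * e ^ N Λ ≤ Λ ^ kD := by exact_mod_cast h7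
    refine h8.trans ?_
    exact Nat.pow_le_pow_right (by omega) (le_max_right _ _)

variable {E : Type*} [Field E] [CharZero E] [IsAlgClosed E]

theorem lstep {Ω W T : Type*} [Fintype W] (a : Ω → W → E) (ha0 : ∀ x, a x ≠ 0) (F : Ω → Ω)
    (e : ℕ) (G : T → W → MvPolynomial W E) (hG : LocF a (fun x => a (F x)) e G) (hcl : Clo a)
    (r ρ C₁ : ℝ) (CA : ℕ) (hr : 1 ≤ r) (hρ : r < ρ) :
    ∃ C : ℕ, ∀ Λ : ℕ, 2 ≤ Λ → ∀ n M : ℕ, C * Real.log Λ ≤ n → M ≤ Λ →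
      ∀ x : Fin M → Ω, (∀ i i', i ≠ i' → ∀ c : E, ∃ w, a (x i) w ≠ c * a (x i') w) →
      ∀ l : Fin (n + 1) → W → E, (∀ i, Adm a F l (x i)) →
      ∀ p : Ideal (MvPolynomial (Fin (n + 1) × W) E), p.IsPrime → VI a F l ≤ p →
      Obst (fun k => Fl E W (wt r n) k) (⨅ i, mI a F l (x i)) (((CA : ℝ) + 1) * Λ * r ^ n) p →
      ∀ Q : Ideal (MvPolynomial W E), HP Q → Cont a Q → Q ≤ p.comap (blk E 0) →
      ∀ {d : ℕ} (z : Fin (d + 1) → MvPolynomial W E) (e' : ℕ), NN Q z → RankLE Q z e' → e' ≤ Λ →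
      (∃ τ m : ℕ, C₁ * Real.log Λ ≤ τ ∧ (τ : ℝ) ≤ C * Real.log Λ ∧ (m : ℝ) ≤ ρ ^ τ ∧
        RepF (fun y : ZQ a Q => a y) (fun y => a (F^[τ] (y : Ω))) m) ∨
      ∃ (k : ℕ) (Φ : MvPolynomial W E), k ≤ Λ ^ C ∧ Φ.IsHomogeneous k ∧ Φ ∉ Q ∧
        blk E 0 Φ ∈ p := by
  classical
  obtain ⟨N, C, hNC⟩ := cst_numbers (Fintype.card W) e CA r ρ C₁ hr hρ
  refine ⟨C, ?_⟩
  intro Λ hΛ n M hn hM x hne l hx p hpp hp hobs Q hQ hc hQp d z e' hz he' heΛ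
  obtain ⟨hN0, hN1, hN2, hrep, hdeg⟩ := hNC Λ hΛ
  by_cases hslow : ∃ m : ℕ, (m : ℝ) ≤ ρ ^ N Λ ∧
      RepF (fun y : ZQ a Q => a y) (fun y => a (F^[N Λ] (y : Ω))) m
  · obtain ⟨m, hm1, hm2⟩ := hslow
    exact Or.inl ⟨N Λ, m, hN1, hN2, hm1, hm2⟩
  right
  obtain ⟨c₀, Θ, hc₀, hΘ⟩ := isCond_ZQ a hcl Q hQ hc z hz e' he'
  have : Nonempty (ZQ a Q) := nonempty_ZQ a hcl Q hQ hc
  have hc₀' : c₀ ≤ Λ * Λ := hc₀.trans (Nat.mul_le_mul heΛ heΛ)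
  obtain ⟨b, hb⟩ : ∃ b : ℕ, b = Λ * (4 * (CA + 1) * Λ) ^ Fintype.card W := ⟨_, rfl⟩
  obtain ⟨b₁, hb₁⟩ : ∃ b₁ : ℕ, b₁ = ⌈(b : ℝ) * r ^ N Λ⌉₊ := ⟨_, rfl⟩
  rw [← hb] at hrep hdeg
  rw [← hb₁] at hrep hdeg
  have hno : ¬ RepF (fun y : ZQ a Q => a y) (fun y => a (F^[N Λ] (y : Ω)))
      (Fintype.card W * (b₁ + c₀)) := fun h => hslow ⟨_, hrep c₀ hc₀', h⟩
  obtain ⟨w₀, w₁, hind⟩ := indep (fun y : ZQ a Q => a y) (primeH_ZQ a hcl Q hQ hc) c₀ Θ hΘ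
    (fun y : ZQ a Q => a (F^[N Λ] (y : Ω))) (fun y => ha0 _) (e ^ N Λ) (chart G (N Λ))
    ((chart_locF a ha0 F e G hG (N Λ)).comp (fun y : ZQ a Q => (y : Ω))) b₁ b hno
  have hNn : N Λ < n + 1 := by
    have h1 : (N Λ : ℝ) ≤ n := hN2.trans hn
    have h2 : N Λ ≤ n := by exact_mod_cast h1
    omega
  have hΛ0 : 0 < Λ := by omega
  have hrN : (1 : ℝ) ≤ r ^ N Λ := one_le_pow₀ hr
  obtain ⟨Φ, hΦ1, hΦ2, hΦ3⟩ := cut a ha0 F e G hG hcl l x hx hne r hr (((CA : ℝ) + 1) * Λ)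
    (by positivity) p hpp hp hobs Q hQ hc hQp ⟨N Λ, hNn⟩ (by
      intro h
      have := congrArg Fin.val h
      simp only [Fin.val_zero] at this
      omega) b b₁ (4 * (CA + 1) * Λ) (by
      rw [hb]
      exact Nat.one_le_iff_ne_zero.2 (by positivity)) (by
      push_cast
      apply le_of_eq
      ring) (Nat.one_le_iff_ne_zero.2 (by positivity)) (by
      rw [hb]
      exact Nat.mul_le_mul_right _ hM) (by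
      rw [hb₁]
      exact Nat.le_ceil _) (by
      have h1 : (b₁ : ℝ) < b * r ^ N Λ + 1 := by
        rw [hb₁]
        exact Nat.ceil_lt_add_one (by positivity)
      have h2 : ((b : ℝ) + 1) * r ^ N Λ = b * r ^ N Λ + r ^ N Λ := by ring
      rw [h2]
      linarith) w₀ w₁ hind
  exact ⟨_, Φ, hdeg, hΦ1, hΦ2, hΦ3⟩

end Pool.Agent.LLX.AS
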