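import Pool.Agent.LLX.Adefs

/-!
# LLX MXL: the ideals of points

* `max_const`: `MvPolynomial.isMaximal_iff_eq_vanishingIdeal_singleton` (Nullstellensatz): `𝔪` is
  the ideal of a point `y`; take `c = eval y f`.
* `mI_max`: `mI a F l x` is the kernel of the surjective ring homomorphism `eval (npt a F l x)` onto
  the field `E` (`RingHom.ker_isMaximal_of_surjective`).
* `mI_ne`: if they are equal then the polynomials `X (0, w) - C (npt a F l x (0, w))` give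
  `npt a F l x (0, w) = npt a F l x' (0, w)`, that is `a x w / lin (l 0) (a x) =
  a x' w / lin (l 0) (a x')`, so `a x w = c * a x' w` for all `w`.
* `inf_pow_sup`: the `𝔪 i` are pairwise coprime (different maximal ideals), so are the `𝔪 i ^ N`
  and hence `∏ i, 𝔪 i ^ N = ⨅ i, 𝔪 i ^ N` and `∏ (𝔪 i ^ N ⊔ p) = ⨅ (𝔪 i ^ N ⊔ p)`
  (`Ideal.prod_eq_iInf_of_pairwise_isCoprime`), and `∏ (A i ⊔ p) ≤ (∏ A i) ⊔ p` (induction), and
  `∏ i, 𝔪 i ^ N = (∏ i, 𝔪 i) ^ N ≤ (⨅ i, 𝔪 i) ^ N`.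
* `le_of_sup_ne_top`: `(⨅ i, 𝔪 i) ⊔ p` is contained in a maximal ideal `𝔫`; the finite infimum
  `⨅ i, 𝔪 i ≤ 𝔫` gives `𝔪 i ≤ 𝔫` for some `i` (`Ideal.IsPrime.inf_le'`), so `𝔪 i = 𝔫`.
  (For `M = 0` the infimum is `⊤`.)
-/

open MvPolynomial

namespace Pool.Agent.LLX.AS

variable {E : Type*} [Field E] {Ω W : Type*} [Fintype W] {n : ℕ}

theorem max_const [IsAlgClosed E] {σ : Type*} [Finite σ] (𝔪 : Ideal (MvPolynomial σ E))
    (h𝔪 : 𝔪.IsMaximal) (f : MvPolynomial σ E) : ∃ c : E, f - C c ∈ 𝔪 := by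
  obtain ⟨y, hy⟩ := MvPolynomial.isMaximal_iff_eq_vanishingIdeal_singleton.1 h𝔪
  refine ⟨aeval y f, ?_⟩
  rw [hy, mem_vanishingIdeal_singleton_iff]
  simp

theorem mI_max (a : Ω → W → E) (F : Ω → Ω) (l : Fin (n + 1) → W → E) (x : Ω) :
    (mI a F l x).IsMaximal := by
  have h : mI a F l x = RingHom.ker (eval (npt a F l x)) := by
    ext P
    rw [RingHom.mem_ker]
    rfl
  rw [h]
  exact RingHom.ker_isMaximal_of_surjective _ fun c => ⟨C c, eval_C _⟩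

theorem VI_le_mI (a : Ω → W → E) (F : Ω → Ω) (l : Fin (n + 1) → W → E) (x : Ω)
    (hx : Adm a F l x) : VI a F l ≤ mI a F l x := fun _ hP => hP x hx

theorem mI_ne (a : Ω → W → E) (F : Ω → Ω) (l : Fin (n + 1) → W → E) (x x' : Ω)
    (hx : Adm a F l x) (hx' : Adm a F l x') (hne : ∀ c : E, ∃ w, a x w ≠ c * a x' w) :
    mI a F l x ≠ mI a F l x' := by
  intro heq
  obtain ⟨w, hw⟩ := hne (lin (l 0) (a x) / lin (l 0) (a x'))
  have h1 := hx 0
  have h2 := hx' 0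
  simp only [Fin.val_zero, Function.iterate_zero, id_eq] at h1 h2
  have hmem : (X (0, w) - C (npt a F l x (0, w)) : MvPolynomial (Fin (n + 1) × W) E) ∈
      mI a F l x := by
    change eval (npt a F l x) _ = 0
    rw [map_sub, eval_X, eval_C, sub_self]
  rw [heq] at hmem
  have h3 : eval (npt a F l x') (X (0, w) - C (npt a F l x (0, w))) = 0 := hmem
  rw [map_sub, eval_X, eval_C, sub_eq_zero] at h3
  simp only [npt, Fin.val_zero, Function.iterate_zero, id_eq] at h3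
  apply hw
  rw [div_eq_div_iff h2 h1] at h3
  field_simp
  linear_combination -h3

private theorem prod_sup_le {R : Type*} [CommRing R] {ι : Type*} (s : Finset ι) (A : ι → Ideal R)
    (p : Ideal R) : ∏ i ∈ s, (A i ⊔ p) ≤ (∏ i ∈ s, A i) ⊔ p := by
  classical
  induction s using Finset.induction_on with
  | empty => simp
  | insert i s hi ih =>
    rw [Finset.prod_insert hi, Finset.prod_insert hi]
    calc (A i ⊔ p) * ∏ i ∈ s, (A i ⊔ p) ≤ (A i ⊔ p) * ((∏ i ∈ s, A i) ⊔ p) :=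
          Ideal.mul_mono_right ih
      _ = A i * ((∏ i ∈ s, A i) ⊔ p) ⊔ p * ((∏ i ∈ s, A i) ⊔ p) := Ideal.sup_mul _ _ _
      _ = (A i * (∏ i ∈ s, A i) ⊔ A i * p) ⊔ p * ((∏ i ∈ s, A i) ⊔ p) := by
          rw [Ideal.mul_sup (A i)]
      _ ≤ _ := by
          refine sup_le (sup_le le_sup_left ?_) ?_
          · exact (Ideal.mul_le_right : A i * p ≤ p).trans
              (le_sup_right : p ≤ A i * (∏ i ∈ s, A i) ⊔ p)
          · exact (Ideal.mul_le_left : p * ((∏ i ∈ s, A i) ⊔ p) ≤ p).trans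
              (le_sup_right : p ≤ A i * (∏ i ∈ s, A i) ⊔ p)

theorem inf_pow_sup {R : Type*} [CommRing R] {M : ℕ} (𝔪 : Fin M → Ideal R)
    (hmax : ∀ i, (𝔪 i).IsMaximal) (hne : ∀ i j, i ≠ j → 𝔪 i ≠ 𝔪 j) (p : Ideal R) (N : ℕ) (f : R)
    (hf : ∀ i, f ∈ 𝔪 i ^ N ⊔ p) : f ∈ (⨅ i, 𝔪 i) ^ N ⊔ p := by
  have hcop : Pairwise (Function.onFun IsCoprime 𝔪) := fun i i' h =>
    Ideal.isCoprime_iff_sup_eq.2 ((hmax i).coprime_of_ne (hmax i') (hne i i' h))
  have hcopN : Pairwise (Function.onFun IsCoprime fun i => 𝔪 i ^ N ⊔ p) := by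
    intro i i' h
    have h1 : IsCoprime (𝔪 i ^ N) (𝔪 i' ^ N) := IsCoprime.pow (hcop h)
    rw [Function.onFun, Ideal.isCoprime_iff_sup_eq, eq_top_iff]
    rw [Ideal.isCoprime_iff_sup_eq] at h1
    rw [← h1]
    exact sup_le_sup le_sup_left le_sup_left
  have e1 := Ideal.prod_eq_iInf_of_pairwise_isCoprime (s := Finset.univ)
    (J := fun i => 𝔪 i ^ N ⊔ p) (hcopN.set_pairwise _)
  have e2 := Ideal.prod_eq_iInf_of_pairwise_isCoprime (s := Finset.univ)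
    (J := 𝔪) (hcop.set_pairwise _)
  simp only [Finset.mem_univ, iInf_pos] at e1 e2
  have h1 : f ∈ ∏ i, (𝔪 i ^ N ⊔ p) := by
    rw [e1, Submodule.mem_iInf]
    exact hf
  have h2 := prod_sup_le Finset.univ (fun i => 𝔪 i ^ N) p h1
  rwa [Finset.prod_pow, e2] at h2

theorem le_of_sup_ne_top {R : Type*} [CommRing R] {M : ℕ} (𝔪 : Fin M → Ideal R)
    (hmax : ∀ i, (𝔪 i).IsMaximal) (p : Ideal R) (h : (⨅ i, 𝔪 i) ⊔ p ≠ ⊤) : ∃ i, p ≤ 𝔪 i := by
  obtain ⟨𝔫, h𝔫, hle⟩ := Ideal.exists_le_maximal _ h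
  have h1 : Finset.univ.inf 𝔪 ≤ 𝔫 := by
    rw [Finset.inf_univ_eq_iInf]
    exact le_sup_left.trans hle
  obtain ⟨i, -, hi⟩ := (Ideal.IsPrime.inf_le' h𝔫.isPrime).1 h1
  refine ⟨i, ?_⟩
  rw [(hmax i).eq_of_le h𝔫.ne_top hi]
  exact le_sup_right.trans hle

end Pool.Agent.LLX.AS
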