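import Pool.Agent.LLX.Rel
import Pool.Agent.LLX.Mxl
import Pool.Agent.PW.Minp
import Pool.Agent.PW.Rkfin

/-!
# LLX DMZ: dimension zero

(1) For every `w` there is `c w : E` with `X w - C (c w) * z 0 ∈ Q`: `hz.int (X w)` gives
`k, A` with `X w ^ k + ∑ i, aeval z (A i) * X w ^ i ∈ Q`; take the homogeneous component of degree
`k` (`hQ.hom`; `z 0` is a form of degree `1`, so the component of degree `k - i` of
`aeval z (A i)` is a constant times `z 0 ^ (k - i)`; compare `minp`, `minp_comp_mul`,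
`minp_comp_aeval` in `PW/Minp.lean`; if `z 0 ∈ Q`... it is not, by `hz.inj`, but this is not
needed): `X w ^ k + ∑ i < k, C (a i) * z 0 ^ (k - i) * X w ^ i ∈ Q`. The polynomial
`T ^ k + ∑ a i T ^ i` over `E` splits: `= ∏ (T - c j)`, and homogenizing,
`X w ^ k + ∑ .. = ∏ (X w - C (c j) * z 0)`. `Q` is prime. (`k ≥ 1` as `1 ∉ Q`.)
(2) Put `ζ = blk E 0 (z 0)`, `c₀ = ∑ w, l 0 w * c w`. Modulo `p`: `X (0, w) ≡ c w ζ`,
`1 ≡ linB l 0 ≡ c₀ ζ` (`rel_lin`), so `c₀ ≠ 0`, `ζ ≡ c₀⁻¹` and `X (0, w) ≡ C (c w / c₀)`.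
(3) As `p ≤ mI a F l x`, `c w / c₀ = npt a F l x (0, w)`; so for every `H`,
`blk E 0 H ≡ C (eval (npt a F l x) (blk E 0 H))` modulo `p`.
(4) `chart_ne`, `rel_chart`: `U X (q, w) ≡ blk E 0 (chart G q t w)` with `U ≡` a nonzero constant,
so `X (q, w) ≡` a constant modulo `p`, for all `q, w`; so every polynomial is congruent to a constant
modulo `p`, and `p = mI a F l x` (if `f ∈ mI`, `f - C c ∈ p ≤ mI`, then `c = 0`, `f ∈ p`), which is
maximal (`mI_max`).
-/

open MvPolynomial

namespace Pool.Agent.LLX.AS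

open Pool.Agent.Helper63.SAND Pool.Agent.PW

variable {E : Type*} [Field E] {Ω W T : Type*} [Fintype W] {n : ℕ}

omit [Fintype W] in
/-- A form in one variable. -/
private theorem dmz_one (A : MvPolynomial (Fin (0 + 1)) E) (m : ℕ) (hA : A.IsHomogeneous m) :
    ∃ a : E, A = C a * X 0 ^ m := by
  classical
  refine ⟨coeff (Finsupp.single 0 m) A, ?_⟩
  ext s
  have hs : s = Finsupp.single 0 (s 0) := by
    ext i
    have : i = 0 := Fin.ext (by have := i.2; simp only [Fin.val_zero]; omega)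
    subst this
    simp
  rw [coeff_C_mul, coeff_X_pow]
  split_ifs with h
  · rw [← h, mul_one]
  · rw [mul_zero]
    by_contra hne
    apply h
    have h1 := hA hne
    rw [Finsupp.weight_apply, Finsupp.sum_fintype _ _ (by simp)] at h1
    simp at h1
    rw [hs, h1]

/-- In dimension zero every coordinate is a constant multiple of `z 0`. -/
private theorem dmz_coord [IsAlgClosed E] (Q : Ideal (MvPolynomial W E)) (hQ : HP Q)
    (z : Fin (0 + 1) → MvPolynomial W E) (hz : NN Q z) (w : W) :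
    ∃ c : E, X w - C c * z 0 ∈ Q := by
  classical
  have hprime := hQ.prime
  obtain ⟨e, he⟩ := rank_finite Q hQ.prime z hz
  obtain ⟨k, hk, _, A, hA, hrel, _⟩ := minp Q hQ z hz e he (X w) 1 (isHomogeneous_X _ _)
  have hA' : ∀ i : Fin k, ∃ a : E, A i = C a * X 0 ^ (k - (i : ℕ)) := by
    intro i
    have := dmz_one (A i) _ (hA i)
    rwa [one_mul] at this
  choose b hb using hA'
  let D := MvPolynomial W E ⧸ Q
  let K := FractionRing D
  let φ : MvPolynomial W E →ₐ[E] K :=
    (IsScalarTower.toAlgHom E D K).comp (Ideal.Quotient.mkₐ E Q)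
  have hφ : ∀ f, φ f = 0 ↔ f ∈ Q := by
    intro f
    have h1 : φ f = algebraMap D K (Ideal.Quotient.mk Q f) := rfl
    rw [h1, FaithfulSMul.algebraMap_eq_zero_iff, Ideal.Quotient.eq_zero_iff_mem]
  have hφC : ∀ c : E, φ (C c) = algebraMap E K c := fun c => φ.commutes c
  have hz0 : φ (z 0) ≠ 0 := by
    rw [Ne, hφ]
    intro h
    have := hz.inj (X 0) (by simpa using h)
    exact X_ne_zero 0 this
  set u : K := φ (X w) / φ (z 0) with hu
  have hXu : φ (X w) = u * φ (z 0) := by rw [hu, div_mul_cancel₀ _ hz0]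
  have hint : u ^ k + ∑ i : Fin k, algebraMap E K (b i) * u ^ (i : ℕ) = 0 := by
    have h1 := (hφ _).2 hrel
    rw [map_add, map_pow, map_sum, hXu] at h1
    have h2 : ∀ i : Fin k, φ (aeval z (A i) * X w ^ (i : ℕ)) =
        (algebraMap E K (b i) * u ^ (i : ℕ)) * φ (z 0) ^ k := by
      intro i
      have h3 : aeval z (A i) = C (b i) * z 0 ^ (k - (i : ℕ)) := by
        rw [hb i, map_mul, map_pow, aeval_X, aeval_C]
        rfl
      have h4 : φ (z 0) ^ k = φ (z 0) ^ (k - (i : ℕ)) * φ (z 0) ^ (i : ℕ) := by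
        rw [← pow_add, Nat.sub_add_cancel i.2.le]
      rw [h3, map_mul, map_mul, map_pow, map_pow, hXu, hφC, h4, mul_pow]
      ring
    rw [Finset.sum_congr rfl fun i _ => h2 i, ← Finset.sum_mul, mul_pow, ← add_mul] at h1
    exact (mul_eq_zero.1 h1).resolve_right (pow_ne_zero _ hz0)
  have hui : IsIntegral E u := by
    refine ⟨Polynomial.X ^ k + ∑ i : Fin k, Polynomial.C (b i) * Polynomial.X ^ (i : ℕ),
      Polynomial.monic_X_pow_add (Polynomial.degree_sum_fin_lt b), ?_⟩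
    rw [Polynomial.eval₂_add, Polynomial.eval₂_pow, Polynomial.eval₂_X,
      Polynomial.eval₂_finsetSum]
    simp only [Polynomial.eval₂_mul, Polynomial.eval₂_C, Polynomial.eval₂_pow, Polynomial.eval₂_X]
    exact hint
  obtain ⟨c, hc⟩ := minpoly.mem_range_of_degree_eq_one E u
    (IsAlgClosed.degree_eq_one_of_irreducible E (minpoly.irreducible hui))
  refine ⟨c, ?_⟩
  rw [← hφ, map_sub, map_mul, hφC, hXu, hc, sub_self]

omit [Fintype W] in
private theorem dmz_const {σ : Type*} (p : Ideal (MvPolynomial σ E))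
    (h : ∀ s, ∃ c : E, X s - C c ∈ p) (f : MvPolynomial σ E) : ∃ c : E, f - C c ∈ p := by
  induction f using MvPolynomial.induction_on with
  | C a => exact ⟨a, by simp⟩
  | add f g hf hg =>
    obtain ⟨c, hc⟩ := hf
    obtain ⟨c', hc'⟩ := hg
    refine ⟨c + c', ?_⟩
    have := p.add_mem hc hc'
    have h1 : f + g - C (c + c') = f - C c + (g - C c') := by rw [C_add]; ring
    rwa [h1]
  | mul_X f s hf =>
    obtain ⟨c, hc⟩ := hf
    obtain ⟨c', hc'⟩ := h s
    refine ⟨c * c', ?_⟩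
    have := p.add_mem (p.mul_mem_right (X s) hc) (p.mul_mem_left (C c) hc')
    have h1 : f * X s - C (c * c') = (f - C c) * X s + C c * (X s - C c') := by
      rw [C_mul]; ring
    rwa [h1]

theorem dmz [IsAlgClosed E] (a : Ω → W → E) (ha0 : ∀ x, a x ≠ 0) (F : Ω → Ω) (e : ℕ)
    (G : T → W → MvPolynomial W E) (hG : LocF a (fun x => a (F x)) e G)
    (l : Fin (n + 1) → W → E) (x : Ω) (hx : Adm a F l x)
    (p : Ideal (MvPolynomial (Fin (n + 1) × W) E)) (hpp : p.IsPrime) (hp : VI a F l ≤ p)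
    (hpx : p ≤ mI a F l x) (Q : Ideal (MvPolynomial W E)) (hQ : HP Q)
    (hQp : Q ≤ p.comap (blk E 0)) (z : Fin (0 + 1) → MvPolynomial W E) (hz : NN Q z) :
    p.IsMaximal := by
  classical
  choose c hc using dmz_coord Q hQ z hz
  set ζ : MvPolynomial (Fin (n + 1) × W) E := blk E 0 (z 0) with hζ
  -- the coordinates of the first block
  have h0 : ∀ w, X (0, w) - C (c w) * ζ ∈ p := by
    intro w
    have h1 : blk E 0 (X w - C (c w) * z 0) ∈ p := hQp (hc w)
    rw [map_sub, map_mul, rename_X, rename_C] at h1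
    exact h1
  have h1 : C (∑ w, l 0 w * c w) * ζ - 1 ∈ p := by
    have h2 := hp (rel_lin a F l 0)
    have h3 : ∑ w, C (l 0 w) * (X (0, w) - C (c w) * ζ) ∈ p :=
      Ideal.sum_mem _ fun w _ => p.mul_mem_left _ (h0 w)
    have h4 := p.sub_mem h2 h3
    have h5 : linB l 0 - 1 - ∑ w, C (l 0 w) * (X (0, w) - C (c w) * ζ) =
        C (∑ w, l 0 w * c w) * ζ - 1 := by
      unfold linB
      simp only [mul_sub, Finset.sum_sub_distrib, map_sum, Finset.sum_mul, C_mul]
      have : ∀ w, C (l 0 w) * (C (c w) * ζ) = C (l 0 w) * C (c w) * ζ := fun w => by ring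
      simp only [this]
      ring
    rwa [h5] at h4
  have hc0 : (∑ w, l 0 w * c w) ≠ 0 := by
    intro h
    rw [h, C_0, zero_mul, zero_sub, neg_mem_iff] at h1
    exact hpp.ne_top (p.eq_top_of_isUnit_mem h1 isUnit_one)
  have h2 : ζ - C (∑ w, l 0 w * c w)⁻¹ ∈ p := by
    have h3 := p.mul_mem_left (C (∑ w, l 0 w * c w)⁻¹) h1
    have h4 : C (∑ w, l 0 w * c w)⁻¹ * (C (∑ w, l 0 w * c w) * ζ - 1) =
        ζ - C (∑ w, l 0 w * c w)⁻¹ := by
      rw [mul_sub, ← mul_assoc, ← C_mul, inv_mul_cancel₀ hc0, C_1, one_mul, mul_one]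
    rwa [h4] at h3
  have h3 : ∀ w, X (0, w) - C (c w * (∑ w, l 0 w * c w)⁻¹) ∈ p := by
    intro w
    have h4 := p.add_mem (h0 w) (p.mul_mem_left (C (c w)) h2)
    have h5 : X (0, w) - C (c w) * ζ + C (c w) * (ζ - C (∑ w, l 0 w * c w)⁻¹) =
        X (0, w) - C (c w * (∑ w, l 0 w * c w)⁻¹) := by
      rw [C_mul]
      ring
    rwa [h5] at h4
  -- the functions of the first block
  have h4 : ∀ H : MvPolynomial W E, ∃ c : E, blk E 0 H - C c ∈ p := by
    intro H
    obtain ⟨c', hc'⟩ := dmz_const (p.comap (blk E 0)) (fun w => ⟨_, by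
      rw [Ideal.mem_comap, map_sub, rename_X, rename_C]
      exact h3 w⟩) H
    refine ⟨c', ?_⟩
    rw [Ideal.mem_comap, map_sub, rename_C] at hc'
    exact hc'
  have h5 : ∀ s : Fin (n + 1) × W, ∃ c : E, X s - C c ∈ p := by
    rintro ⟨q, w⟩
    obtain ⟨t, ht⟩ := chart_ne a ha0 F e G hG l x hx q
    obtain ⟨u, hu⟩ := h4 (∑ w', C (l q w') * chart G q t w')
    obtain ⟨v, hv⟩ := h4 (chart G q t w)
    have hu0 : u ≠ 0 := by
      rintro rfl
      apply ht
      have := hpx hu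
      rw [C_0, sub_zero] at this
      exact this
    have h6 := hp (rel_chart a ha0 F e G hG l q t w)
    refine ⟨u⁻¹ * v, ?_⟩
    have h7 := p.mul_mem_left (C u⁻¹) (p.sub_mem hv (p.add_mem h6
      (p.mul_mem_right (X (q, w)) hu)))
    have h8 : C u⁻¹ * (blk E 0 (chart G q t w) - C v -
        (blk E 0 (chart G q t w) - blk E 0 (∑ w', C (l q w') * chart G q t w') * X (q, w) +
          (blk E 0 (∑ w', C (l q w') * chart G q t w') - C u) * X (q, w))) =
        X (q, w) - C (u⁻¹ * v) := by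
      have h9 : (C u⁻¹ * C u : MvPolynomial (Fin (n + 1) × W) E) = 1 := by
        rw [← C_mul, inv_mul_cancel₀ hu0, C_1]
      rw [C_mul]
      linear_combination (X (q, w)) * h9
    rwa [h8] at h7
  have h6 : p = mI a F l x := by
    refine le_antisymm hpx fun f hf => ?_
    obtain ⟨c', hc'⟩ := dmz_const p h5 f
    have h7 : C c' ∈ mI a F l x := by
      have := (mI a F l x).sub_mem hf (hpx hc')
      rwa [sub_sub_cancel] at this
    have h8 : c' = 0 := by
      have : eval (npt a F l x) (C c') = 0 := h7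
      rwa [eval_C] at this
    rw [h8, C_0, sub_zero] at hc'
    exact hc'
  rw [h6]
  exact mI_max a F l x

end Pool.Agent.LLX.AS
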