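import Pool.Agent.LLX.Adefs

/-!
# LLX FLT: degrees in the blocks

The support of a product is contained in the sum of the supports (`MvPolynomial.support_mul`), the
support of a sum in the union (`support_add`); the support of `rename f H` (`f` injective) is the
image of the support of `H` under `Finsupp.mapDomain f` (`support_rename_of_injective`), and
`∑ w, (mapDomain (fun w => (q, w)) s) (i, w)` is `∑ w, s w` for `i = q`, and `0` otherwise.
`Fl` is `Bdd (fun i => k * ω i)` by definition.
-/

open MvPolynomial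

namespace Pool.Agent.LLX.AS

variable {E : Type*} [Field E] {W : Type*} [Fintype W] {n : ℕ}

theorem mem_Fl {ω : Fin (n + 1) → ℕ} {k : ℕ} {P : MvPolynomial (Fin (n + 1) × W) E} :
    P ∈ Fl E W ω k ↔ Bdd (fun i => k * ω i) P := Iff.rfl

theorem Bdd.mono {m m' : Fin (n + 1) → ℕ} {P : MvPolynomial (Fin (n + 1) × W) E}
    (h : ∀ i, m i ≤ m' i) (hP : Bdd m P) : Bdd m' P := fun s hs i => (hP s hs i).trans (h i)

theorem Bdd.mul {m m' : Fin (n + 1) → ℕ} {P Q : MvPolynomial (Fin (n + 1) × W) E}
    (hP : Bdd m P) (hQ : Bdd m' Q) : Bdd (fun i => m i + m' i) (P * Q) := by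
  classical
  intro s hs i
  obtain ⟨s1, hs1, s2, hs2, rfl⟩ := Finset.mem_add.1 (MvPolynomial.support_mul P Q hs)
  have h : ∑ w, (s1 + s2) (i, w) = ∑ w, s1 (i, w) + ∑ w, s2 (i, w) := by
    rw [← Finset.sum_add_distrib]
    rfl
  rw [h]
  exact add_le_add (hP s1 hs1 i) (hQ s2 hs2 i)

theorem bdd_C (m : Fin (n + 1) → ℕ) (c : E) :
    Bdd m (C c : MvPolynomial (Fin (n + 1) × W) E) := by
  classical
  intro s hs i
  rw [MvPolynomial.mem_support_iff, MvPolynomial.coeff_C] at hs
  have h : (0 : Fin (n + 1) × W →₀ ℕ) = s := by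
    by_contra h
    rw [if_neg h] at hs
    exact hs rfl
  rw [← h]
  simp

theorem Bdd.pow {m : Fin (n + 1) → ℕ} {P : MvPolynomial (Fin (n + 1) × W) E}
    (hP : Bdd m P) (s : ℕ) : Bdd (fun i => s * m i) (P ^ s) := by
  induction s with
  | zero =>
    rw [pow_zero, ← C_1]
    exact bdd_C _ 1
  | succ s ih =>
    rw [pow_succ]
    refine (ih.mul hP).mono fun i => ?_
    rw [add_mul, one_mul]

theorem Bdd.sum {ι : Type*} (S : Finset ι) {m : Fin (n + 1) → ℕ}
    {P : ι → MvPolynomial (Fin (n + 1) × W) E} (hP : ∀ i ∈ S, Bdd m (P i)) :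
    Bdd m (∑ i ∈ S, P i) := by
  classical
  intro s hs i
  obtain ⟨j, hj, hs2⟩ := Finset.mem_biUnion.1 (MvPolynomial.support_sum hs)
  exact hP j hj s hs2 i

theorem bdd_X (q : Fin (n + 1)) (w : W) :
    Bdd (fun i => if i = q then 1 else 0) (X (q, w) : MvPolynomial (Fin (n + 1) × W) E) := by
  classical
  intro s hs i
  rw [MvPolynomial.support_X, Finset.mem_singleton] at hs
  rw [hs]
  beta_reduce
  by_cases h : i = q
  · rw [if_pos h, h]
    have h1 : ∀ w', (Finsupp.single (q, w) 1 : Fin (n + 1) × W →₀ ℕ) (q, w') =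
        if w = w' then 1 else 0 := by
      intro w'
      rw [Finsupp.single_apply]
      simp [Prod.ext_iff]
    rw [Finset.sum_congr rfl fun w' _ => h1 w']
    simp
  · rw [if_neg h]
    refine le_of_eq (Finset.sum_eq_zero fun w' _ => ?_)
    rw [Finsupp.single_apply, if_neg]
    intro h2
    exact h (congrArg Prod.fst h2).symm

theorem bdd_blk (q : Fin (n + 1)) (H : MvPolynomial W E) (k : ℕ) (hH : H.IsHomogeneous k) :
    Bdd (fun i => if i = q then k else 0) (blk E q H) := by
  classical
  intro s hs i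
  have hinj : Function.Injective (fun w : W => (q, w)) := fun a b h => (Prod.ext_iff.1 h).2
  rw [blk, MvPolynomial.support_rename_of_injective hinj, Finset.mem_image] at hs
  obtain ⟨t, ht, rfl⟩ := hs
  beta_reduce
  by_cases h : i = q
  · rw [if_pos h, h]
    have h1 : ∀ w, (Finsupp.mapDomain (fun w : W => (q, w)) t) (q, w) = t w := fun w =>
      Finsupp.mapDomain_apply hinj t w
    rw [Finset.sum_congr rfl fun w _ => h1 w]
    have h2 := hH (MvPolynomial.mem_support_iff.1 ht)
    have h3 : t.degree = k :=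
      (DFunLike.congr_fun (Finsupp.degree_eq_weight_one (R := ℕ)) t).trans h2
    rw [Finsupp.degree_eq_sum] at h3
    exact h3.le
  · rw [if_neg h]
    refine le_of_eq (Finset.sum_eq_zero fun w _ => ?_)
    refine Finsupp.mapDomain_of_notMem_range _ _ ?_
    rintro ⟨w', hw'⟩
    exact h (congrArg Prod.fst hw').symm

theorem fl_filt (ω : Fin (n + 1) → ℕ) (hω : ∀ i, 1 ≤ ω i) : Filt fun k => Fl E W ω k where
  one := by
    have h := bdd_C (E := E) (W := W) (fun i => 0 * ω i) 1
    rw [C_1] at h
    exact h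
  mono := by
    intro k l hkl P hP
    exact Bdd.mono (fun i => Nat.mul_le_mul_right _ hkl) hP
  mul := by
    intro i j f g hf hg
    have h := Bdd.mul (mem_Fl.1 hf) (mem_Fl.1 hg)
    refine mem_Fl.2 (h.mono fun a => ?_)
    rw [add_mul]
  exh := by
    intro P
    refine ⟨P.totalDegree, fun s hs i => ?_⟩
    have h1 := MvPolynomial.le_totalDegree hs
    have h2 : ∑ w, s (i, w) ≤ s.sum fun _ e => e := by
      rw [Finsupp.sum_fintype _ _ (fun _ => rfl), Fintype.sum_prod_type]
      exact Finset.single_le_sum (f := fun i => ∑ w, s (i, w)) (fun _ _ => Nat.zero_le _)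
        (Finset.mem_univ i)
    calc ∑ w, s (i, w) ≤ P.totalDegree := h2.trans h1
      _ = P.totalDegree * 1 := (mul_one _).symm
      _ ≤ P.totalDegree * ω i := Nat.mul_le_mul_left _ (hω i)

end Pool.Agent.LLX.AS
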