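import Pool.Agent.LLX.Dev
import Pool.Agent.LLX.Flt
import Pool.Agent.LLX.Mxl

/-!
# LLX OBS: an obstructed prime

Suppose that no prime `p ≥ VI a F l` which is not maximal is obstructed for `β`. Apply `dev` with
`I₀ = VI a F l`, `J = ⨅ i, mI a F l (x i)`, `α = (β₀ + β) / 2` (`hmax` from `max_const`, the
constants are in `Fl 0`): for `k` large and `j = ⌈β₀ k⌉₊ ≤ β₀ k + 1 ≤ α k` this contradicts
`NoSep`. So there is an obstructed `p`, prime, not maximal, `VI ≤ p`. If `J ⊔ p = ⊤` then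
`J ^ j ⊔ p = ⊤` for all `j` and `1 ∈ Fl 1` would be in `p`; so `le_of_sup_ne_top` applies.
-/

open MvPolynomial

namespace Pool.Agent.LLX.AS

variable {E : Type*} [Field E] {Ω W : Type*} [Fintype W] {n : ℕ}

theorem obs [IsAlgClosed E] (a : Ω → W → E) (F : Ω → Ω) (l : Fin (n + 1) → W → E)
    (ω : Fin (n + 1) → ℕ) (hω : ∀ i, 1 ≤ ω i) {M : ℕ} (x : Fin M → Ω) (β₀ β : ℝ) (h0 : 0 ≤ β₀)
    (hβ : β₀ < β) (hns : NoSep a F l ω x β₀) :
    ∃ p : Ideal (MvPolynomial (Fin (n + 1) × W) E), p.IsPrime ∧ ¬ p.IsMaximal ∧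
      VI a F l ≤ p ∧ Obst (fun k => Fl E W ω k) (⨅ i, mI a F l (x i)) β p ∧ ∃ i, p ≤ mI a F l (x i) := by
  have hfilt := fl_filt (E := E) (W := W) ω hω
  -- an obstructed prime
  obtain ⟨p, hp, hpm, hVI, hO⟩ : ∃ p : Ideal (MvPolynomial (Fin (n + 1) × W) E),
      p.IsPrime ∧ ¬ p.IsMaximal ∧ VI a F l ≤ p ∧
      Obst (fun k => Fl E W ω k) (⨅ i, mI a F l (x i)) β p := by
    by_contra hcon
    push Not at hcon
    obtain ⟨k₀, hk₀⟩ := dev (fun k => Fl E W ω k) hfilt (VI a F l) (⨅ i, mI a F l (x i))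
      (fun 𝔪 h𝔪 _ f => by
        obtain ⟨c, hc⟩ := max_const 𝔪 h𝔪 f
        refine ⟨C c, ?_, hc⟩
        rw [mem_Fl]
        exact bdd_C _ c)
      ((β₀ + β) / 2) β (by linarith) (by linarith)
      (fun p h1 h2 h3 h4 => hcon p h1 h2 h3 h4)
    obtain ⟨k₁, hk₁⟩ := hns
    have hpos : 0 < (β - β₀) / 2 := by linarith
    obtain ⟨k₂, hk₂⟩ := exists_nat_ge (1 / ((β - β₀) / 2))
    set k := max k₀ (max k₁ k₂) with hk
    have h1 : k₀ ≤ k := le_max_left _ _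
    have h2 : k₁ ≤ k := (le_max_left _ _).trans (le_max_right _ _)
    have h3 : k₂ ≤ k := (le_max_right _ _).trans (le_max_right _ _)
    have h4 : (1 : ℝ) ≤ (β - β₀) / 2 * k := by
      have h5 : 1 / ((β - β₀) / 2) ≤ (k : ℝ) := hk₂.trans (by exact_mod_cast h3)
      rw [div_le_iff₀ hpos] at h5
      linarith
    refine hk₁ k h2 ⌈β₀ * k⌉₊ (Nat.le_ceil _) (hk₀ k h1 ⌈β₀ * k⌉₊ ?_)
    have h6 : (⌈β₀ * k⌉₊ : ℝ) < β₀ * k + 1 := Nat.ceil_lt_add_one (by positivity)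
    linarith
  refine ⟨p, hp, hpm, hVI, hO, le_of_sup_ne_top (fun i => mI a F l (x i))
    (fun i => mI_max a F l (x i)) p fun htop => ?_⟩
  have h1 : (⨅ i, mI a F l (x i)) ^ ⌈β⌉₊ ⊔ p = ⊤ := Ideal.pow_sup_eq_top htop
  refine hp.ne_top ((Ideal.eq_top_iff_one p).2 (hO 1 1 ⌈β⌉₊ le_rfl
    (hfilt.mono (Nat.zero_le 1) hfilt.one) ?_ ?_))
  · rw [Nat.cast_one, mul_one]
    exact Nat.le_ceil β
  · rw [h1]
    exact Submodule.mem_top

end Pool.Agent.LLX.AS
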