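import Pool.Agent.LLX.Arith
import Pool.Agent.LLX.Obs
import Pool.Agent.LLX.Cst
import Pool.Agent.LLX.Chn
import Pool.Agent.LLX.Dmz
import Pool.Agent.PW.Noeth
import Pool.Agent.PW.Rkfin

/-!
# LLX ALGSIDE: the algebra side

If the jets are not separated then one of the points lies on a positive dimensional subvariety of
small degree on which an iterate has small degree.

PLAN (helper51; architect of this side: helper63).

Notation: `R = MvPolynomial (Fin (n+1) × W) E`, `ω = wt r n`, `Fl k = Fl E W ω k`, `I = VI a F l`,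
`m_i = mI a F l (x i)`, `J = ⨅ i, m_i`, blocks `Y_q = (X (q, w))_w`.

(DEV) devissage, in a Noetherian `E`-algebra with an exhaustive filtration `Fl` (monotone,
multiplicative, `1 ∈ Fl 0`), `E` algebraically closed, `R` of finite type: if `β > 0`, `I₀` is an
ideal, and every prime `p ≥ I₀` which is NOT maximal has `k ≥ 1`, `g ∈ Fl k \ p`, `b ≥ β k` with
`g ∈ J ^ b ⊔ p`, then for all `α < β` there is `k₀` with `Fl k ⊔ I₀ ⊔ J ^ j = ⊤` for all
`k ≥ k₀`, `j ≤ α k`. Proof: Noetherian induction, statement for all `I ≥ I₀` and all `α < β`.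
`I` maximal: `R = E + I`. `I = p` prime, not maximal: `p + (g)` is larger; for `α < α' < β` and
`k` large write `φ = s_0 + g φ_1`, `φ_1 = s_1 + g φ_2`, ... modulo `p + J ^ j` with
`s_i ∈ Fl (k - i k_p)`: at the `i`-th stage `φ_i` only matters modulo `J ^ (j - i b)` (because
`g ∈ J ^ b + p`), and `j - i b ≤ α (k - i k_p)`; stop when `i b ≥ j`; then
`k - i k_p ≥ (1 - α/β) k - ... ≥ k₁` is large enough at all the stages used.
`I` not prime, `≠ ⊤`: there is `c ∉ I` with `p = (I : c)` prime (associated prime); use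
`I + (c)` and `p ≥ I` (strictly larger, as `I` is not prime): `φ = s + c ψ`, `ψ = s' + p + J ^ j`,
`s' ∈ Fl (k - l)`, `c ∈ Fl l`, `c p ⊆ I`.

(OBS) So `NoSep ... β₀` gives (with `β > β₀`, e.g. `β = β₀ + 1`; `α` in between, `j = ⌈β₀ k⌉`) a
prime `p ≥ I`, not maximal, which is OBSTRUCTED: for all `k ≥ 1`, `g ∈ Fl k`, `b ≥ β k`,
`g ∈ J ^ b ⊔ p → g ∈ p`. Then `p ≤ m_i` for some `i` (otherwise `J ^ b ⊔ p = ⊤`, take `g = 1`).
Fix such an `i₀`.

(PROJ) `𝔭₀ = {H : MvPolynomial W E | ∀ k, rename (fun w => (0, w)) (homogeneousComponent k H)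
∈ p}` is an `HP` ideal (homogeneous prime, does not contain `linP (l 0)` because
`linB l 0 - 1 ∈ I`), contains all the forms vanishing on `a`, and `𝔭₀ ≤` the ideal of the point
`a (x i₀)`.

(REL) Relations in `I`: `linB l q - 1`; the forms vanishing on `a`, in every block; for every
chart `χ` (`chart G q χ`, `Helper63/SAND/Iter.lean` `chart_locF`):
`chart_w(Y_0) - linP (l q)(chart(Y_0)) * X (q, w) ∈ I`.

(LOCPOLY) for `x i` admissible and `b`: `R = E[Y_0] + I + m_i ^ b` (choose a chart with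
`linP (l q)(chart)` not vanishing at the point; it is invertible modulo `m_i ^ b` as a polynomial
in `Y_0`). Hence the image of a subspace of `R` in `R / (m_i ^ b ⊔ p)` has dimension at most the
dimension of the polynomials in `Y_0` of degree `≤ b - 1` modulo `p`, which is at most
`hil_Y (b - 1)` for every `HP` ideal `Q ≤ 𝔭₀` (`Y` = zeros of `Q`; multiply by powers of
`linP (l 0)` to make forms of degree `b - 1`; forms of degree `b - 1` in `Q` are in `𝔭₀`).

(CUT) Let `Q ≤ 𝔭₀` be `HP`, containing the forms vanishing on `a`, with conductor of degree `c₀`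
on `Y = {y | ∀ P ∈ Q, eval (a y) P = 0}` (`PW/Final.lean isCond_subX`, `conde`: `c₀ ≤ e * e`);
`τ ≤ n`, `b`, `b₁ = ⌈b r ^ τ⌉₊`, and suppose that `a ∘ F^[τ]` is not `RepF` on `Y` with degree
`card W * (b₁ + c₀)`. `indep` (Helper63/SAND/Indep.lean) gives `w₀, w₁` such that the functions
`∑_i P_i(a y) y_{w₀}^(b-i) y_{w₁}^i`, `P_i` forms of degree `b₁`, form a space of dimension
`(b + 1) hil_Y b₁`. If this is larger than `M * hil_Y (b' - 1)` there is such a tuple `(P_i)`, not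
all `P_i` vanishing on `Y`, with `s' = ∑ P_i(Y_0) X (τ, w₀) ^ (b - i) X (τ, w₁) ^ i ∈
m_i ^ b' ⊔ p` for all `i` with `p ≤ m_i` (for the other `i` this is automatic,
`m_i ^ b' ⊔ p = ⊤`), hence `s' ∈ ⨅_i (m_i ^ b' ⊔ p) = J ^ b' ⊔ p` (coprime ideals; the `m_i` are
different because the points are; `∏ m_i ^ b' ≤ J ^ b'`).
Powers: `s' ^ q ∈ Fl k` for `k = ⌈2 q b r ^ τ / r ^ n⌉₊` (block `0`: `q b₁ ≤ 2 q b r^τ ≤ k ω_0`;
block `τ`: `q b ≤ k ω_τ`), `s' ^ q ∈ J ^ (q b') ⊔ p`, and `q b' ≥ β k` for large `q` as soon as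
`b' ≥ 3 (β / r ^ n) b r ^ τ`, so `s' ^ q ∈ p`, `s' ∈ p`. With `β ≤ 2 CA r ^ n Λ` take
`b' = ⌈6 CA Λ b r ^ τ⌉₊`; `hil_Y (b' - 1) ≤ λ' ^ card W * hil_Y b₁`, `λ' = 6 CA Λ + 1` (`hilb2`), so
`b = M * λ' ^ card W` suffices.

(CUT2) There are `y ∈ Y` and a chart `χ` with
`Φ = ∑_i P_i chart_{w₀} ^ (b - i) chart_{w₁} ^ i` not zero at `a y`; `Φ` is a form of degree
`b₁ + b e ^ τ`, `Φ ∉ Q`, and `Φ ∈ 𝔭₀` because `Φ(Y_0) = linP (l τ)(chart(Y_0)) ^ b * s'` modulo
`I` (REL).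

(STEP) numbers as in `Helper63/WH/CoreC.lean step` (`PB` calculus): for `Λ ≥ 2`, `HP Q`,
`RankLE Q z e`, `e ≤ Λ`, `τ = ⌈C₃ log Λ⌉₊ ≤ n`: either `Q` is slow (`RepF` on `Y` of degree
`≤ ρ ^ τ`), or there is a form of degree `≤ Λ ^ C` in `𝔭₀`, not in `Q`.

(CHAIN) as `PW/Recur.lean recur`, but following one component: for `Q ≤ 𝔭₀` and a form
`Φ ∈ 𝔭₀ \ Q`, one of the primes `Q'` of `comp` satisfies `Q' ≤ 𝔭₀` (otherwise choose forms
`G_Q' ∈ Q' \ 𝔭₀`; their product and a variable are not in `𝔭₀`, so there is a zero `v ≠ 0` of `𝔭₀`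
at which they do not vanish (Nullstellensatz, as in `PW/Null.lean`), but `v` is a zero of `Q` and
of `Φ`, so a zero of some `Q'`). The Noether dimension drops at every step.

(DIM0) If `NN Q z` with `z : Fin 1 → _` then `X w - C (c w) * z 0 ∈ Q` for some `c : W → E`.
So if the last `Q` had `d' = 0`, then with `Q ≤ 𝔭₀` the `X (0, w)` are constants modulo `p`, equal
to the coordinates of the point `x i₀` (`p ≤ m_{i₀}`), and then by REL (charts good at
`F^[q] (x i₀)`) all the `X (q, w)` are constants modulo `p`, so `p` is maximal: contradiction.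
-/

open MvPolynomial

namespace Pool.Agent.LLX

open Pool.Agent.Helper63.SAND Pool.Agent.Helper63.WH Pool.Agent.PW AS

variable {E : Type*} [Field E] [CharZero E] [IsAlgClosed E]

theorem algside {Ω W T : Type*} [Fintype W] [Fintype T] (a : Ω → W → E)
    (ha0 : ∀ x, a x ≠ 0) (F : Ω → Ω) (e : ℕ) (G : T → W → MvPolynomial W E)
    (hG : LocF a (fun x => a (F x)) e G) (ha : PrimeH a) (hcl : Clo a)
    (r ρ C₁ : ℝ) (CA : ℕ) (hr : 1 ≤ r) (hρ : r < ρ) :
    ∃ C : ℕ, ∀ (Λ n M : ℕ), 2 ≤ Λ → C ≤ Λ → C * Real.log Λ ≤ n → M ≤ Λ →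
      ∀ x : Fin M → Ω, (∀ i i', i ≠ i' → ∀ c : E, ∃ w, a (x i) w ≠ c * a (x i') w) →
      ∀ l : Fin (n + 1) → W → E, (∀ i, Adm a F l (x i)) →
      NoSep a F l (wt r n) x (CA * r ^ n * Λ) →
      ∃ (i : Fin M) (Q : Ideal (MvPolynomial W E)) (Λ' τ m : ℕ), HP Q ∧
        (∀ (P : MvPolynomial W E) (k : ℕ), P.IsHomogeneous k → Van a P → P ∈ Q) ∧
        (∀ P ∈ Q, eval (a (x i)) P = 0) ∧ Λ ≤ Λ' ∧ Λ' ≤ Λ ^ C ∧
        C₁ * Real.log Λ' ≤ τ ∧ τ ≤ C * Real.log Λ' ∧
        (∃ (d' : ℕ) (z : Fin (d' + 1) → MvPolynomial W E), 1 ≤ d' ∧ NN Q z ∧ RankLE Q z Λ') ∧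
        (m : ℝ) ≤ ρ ^ τ ∧
        RepF (fun y : {y : Ω // ∀ P ∈ Q, eval (a y) P = 0} => a y)
          (fun y => a (F^[τ] (y : Ω))) m := by
  classical
  obtain ⟨Cs, hstep⟩ := lstep a ha0 F e G hG hcl r ρ C₁ CA hr hρ
  have hr0 : 0 < r := by linarith
  have hwt : ∀ (n : ℕ) (i : Fin (n + 1)), 1 ≤ wt r n i := fun n i =>
    Nat.one_le_iff_ne_zero.2 (Nat.ceil_pos.2 (by positivity)).ne'
  have hβ : ∀ (Λ n : ℕ), (0 : ℝ) < Λ →
      (CA : ℝ) * r ^ n * Λ < ((CA : ℝ) + 1) * Λ * r ^ n := by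
    intro Λ n hΛ
    have h1 : 0 < (Λ : ℝ) * r ^ n := mul_pos hΛ (pow_pos hr0 n)
    nlinarith
  by_cases hΩ : Nonempty Ω
  swap
  · refine ⟨0, fun Λ n M hΛ _ _ _ x _ l _ hns => ?_⟩
    have hΛ0 : (0 : ℝ) < Λ := by
      have : 0 < Λ := by omega
      exact_mod_cast this
    obtain ⟨_, _, _, _, _, i, _⟩ := obs a F l (wt r n) (hwt n) x (CA * r ^ n * Λ)
      (((CA : ℝ) + 1) * Λ * r ^ n) (by positivity) (hβ Λ n hΛ0) hns
    exact absurd ⟨x i⟩ hΩ
  obtain ⟨Q₀, hQ₀, hc₀, hv₀⟩ := exists_HP a ha0 ha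
  obtain ⟨d₀, z₀, hz₀⟩ := noeth Q₀ hQ₀
  obtain ⟨e₀, he₀⟩ := rank_finite Q₀ hQ₀.prime z₀ hz₀
  set Ex := ex Cs d₀ with hEx
  have hEx1 : 1 ≤ Ex := one_le_ex _ _
  refine ⟨Cs * Ex + Ex + e₀, fun Λ n M hΛ hCΛ hn hM x hne l hx hns => ?_⟩
  have hΛ0 : (0 : ℝ) < Λ := by
    have : 0 < Λ := by omega
    exact_mod_cast this
  have hlogΛ : 0 ≤ Real.log Λ := Real.log_natCast_nonneg Λ
  obtain ⟨p, hp1, hp2, hp3, hp4, i, hi⟩ := obs a F l (wt r n) (hwt n) x (CA * r ^ n * Λ)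
    (((CA : ℝ) + 1) * Λ * r ^ n) (by positivity) (hβ Λ n hΛ0) hns
  have hQ₀p : Q₀ ≤ p.comap (blk E 0) := by
    intro P hP
    rw [Ideal.mem_comap, ← sum_homogeneousComponent P, map_sum]
    exact Ideal.sum_mem _ fun k _ => hp3 (rel_van a F l 0 _ k
      (homogeneousComponent_isHomogeneous k P) (hv₀ P hP k))
  obtain ⟨Q, Λ', d', z', h1, h2, h3, h4, h5, ⟨τ, m, h6, h7, h8, h9⟩, h10, h11⟩ :=
    chain a F l p hp1 hp3 Cs
      (fun Λ₁ Q => ∃ τ m : ℕ, C₁ * Real.log Λ₁ ≤ τ ∧ (τ : ℝ) ≤ Cs * Real.log Λ₁ ∧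
        (m : ℝ) ≤ ρ ^ τ ∧ RepF (fun y : ZQ a Q => a y) (fun y => a (F^[τ] (y : Ω))) m)
      Λ (Λ ^ Ex) hΛ (by
        intro Λ₁ Q hΛ₁ hΛB hQ hc hQp d z e' hz he' heΛ
        refine hstep Λ₁ (hΛ.trans hΛ₁) n M ?_ (hM.trans hΛ₁) x hne l hx p hp1 hp3 ?_ Q hQ hc hQp
          z e' hz he' heΛ
        · have hΛ₁0 : (0 : ℝ) < Λ₁ := by
            have : 0 < Λ₁ := by omega
            exact_mod_cast this
          have h1 : Real.log Λ₁ ≤ Ex * Real.log Λ := by
            rw [← Real.log_pow]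
            apply Real.log_le_log hΛ₁0
            exact_mod_cast hΛB
          calc (Cs : ℝ) * Real.log Λ₁ ≤ Cs * (Ex * Real.log Λ) :=
                mul_le_mul_of_nonneg_left h1 (Nat.cast_nonneg _)
            _ ≤ ((Cs * Ex + Ex + e₀ : ℕ) : ℝ) * Real.log Λ := by
                rw [← mul_assoc]
                apply mul_le_mul_of_nonneg_right _ hlogΛ
                push_cast
                have : (0 : ℝ) ≤ Ex + e₀ := by positivity
                linarith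
            _ ≤ n := hn
        · refine hp4.mono ?_
          have : (Λ : ℝ) ≤ Λ₁ := by exact_mod_cast hΛ₁
          have h0 : (0 : ℝ) ≤ CA + 1 := by positivity
          have h1 := pow_pos hr0 n
          gcongr)
      d₀ Λ Q₀ z₀ e₀ le_rfl le_rfl hQ₀ hc₀ hQ₀p hz₀ he₀ (by omega)
  have hΛ'0 : 2 ≤ Λ' := hΛ.trans h4
  have hlogΛ' : 0 ≤ Real.log Λ' := Real.log_natCast_nonneg Λ'
  refine ⟨i, Q, Λ', τ, m, h1, h2, ?_, h4, h5.trans (Nat.pow_le_pow_right (by omega) (by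
    nlinarith [Nat.zero_le (Cs * Ex)])), h6, ?_, ?_, h8, h9⟩
  · -- the point is a zero of Q
    have hL : lin (l 0) (a (x i)) ≠ 0 := hx i 0
    have hhom : ∀ (P : MvPolynomial W E) (k : ℕ), P.IsHomogeneous k → P ∈ Q →
        eval (a (x i)) P = 0 := by
      intro P k hP hPQ
      have h12 : eval (npt a F l (x i)) (blk E 0 P) = 0 := hi (h3 hPQ)
      rw [eval_rename] at h12
      have h13 : (npt a F l (x i)) ∘ (fun w => ((0 : Fin (n + 1)), w)) =
          fun w => (lin (l 0) (a (x i)))⁻¹ * a (x i) w := by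
        funext w
        simp only [Function.comp, npt, Fin.val_zero, Function.iterate_zero, id]
        rw [div_eq_inv_mul]
      rw [h13] at h12
      have h14 : eval (fun w => (lin (l 0) (a (x i)))⁻¹ * a (x i) w) P =
          (lin (l 0) (a (x i)))⁻¹ ^ k * eval (a (x i)) P := by
        rw [eval_eq, eval_eq, Finset.mul_sum]
        refine Finset.sum_congr rfl fun s hs => ?_
        have hsk : ∑ i ∈ s.support, s i = k := by
          have := hP (mem_support_iff.1 hs)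
          rw [Finsupp.weight_apply] at this
          simpa [Finsupp.sum] using this
        simp only [mul_pow, Finset.prod_mul_distrib]
        rw [Finset.prod_pow_eq_pow_sum, hsk]
        ring
      rw [h14] at h12
      exact (mul_eq_zero.1 h12).resolve_left (pow_ne_zero _ (inv_ne_zero hL))
    intro P hP
    rw [← sum_homogeneousComponent P, map_sum]
    exact Finset.sum_eq_zero fun k _ => hhom _ k (homogeneousComponent_isHomogeneous k P)
      (h1.hom P hP k)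
  · refine h7.trans (mul_le_mul_of_nonneg_right ?_ hlogΛ')
    have : Cs ≤ Cs * Ex + Ex + e₀ := by nlinarith
    exact_mod_cast this
  · refine ⟨d', z', ?_, h10, h11⟩
    by_contra hd
    have hd0 : d' = 0 := by omega
    subst hd0
    exact hp2 (dmz a ha0 F e G hG l (x i) (hx i) p hp1 hp3 hi Q h1 h3 z' h10)

end Pool.Agent.LLX
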