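import Pool.Agent.LLX.Defs2
import Pool.Agent.Helper63.WH.Aapi
import Pool.Agent.Helper63.WH.Ahtq
import Pool.Agent.Helper63.WH.Pint
import Pool.Agent.LLX.Abound

/-!
# LLX ANTI: the height of the tangent spaces when a multiple of the anticanonical class is effective

`form_height`: `absHeight (fun I => eval z (Gc I)) ≤ m * absHeight z + C` for nonzero vectors `z`
with `(eval z (Gc I))_I ≠ 0`: apply `abs_htq` to the vector `(eval z (Gc I))_I` and the family
consisting of `m` copies of `z` and of the vector of all the coefficients of the `Gc I` together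
with `1` (its height is the constant; at a nonarchimedean place
`sup_I ‖Gc I (z)‖ ≤ (sup of the coefficients) * (sup z) ^ m`, at an archimedean place there is an
additional factor, the number of the coefficients: this is the constant `c` of `abs_htq`).
(The index types must be in one universe: use `ULift`, or the index type `Option (I × (W →₀ ℕ))`
restricted to the support, or note that all the types used here live in the universe of `W` or
`0`.)

`anti`. For `x` with `(eval (a x) (Gc I))_I ≠ 0` and a basis `v` of the tangent space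
(`hT`: it exists) we have `eval (a x) (Gc I) = c * plu v I.1 ^ r₀ * ∏ i, a x (I.2 i)`, `c ≠ 0`. The
height of the right side is `r₀ * absHeight (plu v) + m₁ * absHeight (a x)`: `absHeight_smul` for
`c`, and `absHeight_prod` for the product over the two factors / over `Option (Fin m₁)`; the height
of the vector of the `r₀`-th powers is `r₀` times the height: the suprema at all places are the
`r₀`-th powers (e.g. compare with `fun J : Fin r₀ → _ => ∏ k, plu v (J k)`, which has the same
suprema at all the places, so the same height: two applications of `abs_htq` with `c = 1`, or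
`absHeight_prod`). So `r₀ * absHeight (plu v) + m₁ * absHeight (a x) ≤
(r₀ * (d + 1) + m₁) * absHeight (a x) + C`, i.e. `absHeight (plu v) ≤ (d + 1) * absHeight (a x) +
C / r₀`.
-/

open MvPolynomial

namespace Pool.Agent.LLX

open Pool.Agent.Helper63.SAND Pool.Agent.Helper63.WH

/-- The forms `Gc I` define a section of a multiple `- r₀ K` of the anticanonical class, multiplied
by the monomials of degree `m₁`: at every point `x` they are proportional to the products of the
`r₀`-th power of a Plücker coordinate of the tangent space and of `m₁` coordinates of `x`. -/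
structure AntiCan {E Ω W : Type*} [Field E] [Fintype W] (a : Ω → W → E) (d r₀ m₁ : ℕ)
    (Gc : (Fin (d + 1) → W) × (Fin m₁ → W) → MvPolynomial W E) : Prop where
  hom : ∀ I, (Gc I).IsHomogeneous (r₀ * (d + 1) + m₁)
  prop : ∀ (x : Ω) (v : Fin (d + 1) → W → E), TanB a x v →
    ∃ c : E, ∀ I, eval (a x) (Gc I) = c * plu v I.1 ^ r₀ * ∏ i, a x (I.2 i)

private theorem anti_deg {E W : Type*} [Field E] {F : MvPolynomial W E} {k : ℕ}
    (hF : F.IsHomogeneous k) {s : W →₀ ℕ} (hs : s ∈ F.support) : ∑ i ∈ s.support, s i = k := by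
  have := hF (mem_support_iff.1 hs)
  rw [Finsupp.weight_apply] at this
  simpa [Finsupp.sum] using this

private theorem anti_zero {E W : Type*} [Field E] {F : MvPolynomial W E} {k : ℕ}
    (hF : F.IsHomogeneous k) (hk : k ≠ 0) : eval (0 : W → E) F = 0 := by
  rw [eval_eq]
  refine Finset.sum_eq_zero fun s hs => ?_
  have h1 := anti_deg hF hs
  have h2 : ∃ i ∈ s.support, s i ≠ 0 := by
    by_contra hcon
    push Not at hcon
    rw [Finset.sum_eq_zero hcon] at h1
    exact hk h1.symm
  obtain ⟨i, hi, hi0⟩ := h2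
  rw [Finset.prod_eq_zero hi (by simp [hi0]), mul_zero]

/-- the values of a monomial. -/
private theorem anti_mono {E W : Type*} [Field E] [Fintype W] (v : AbsoluteValue E ℝ)
    {F : MvPolynomial W E} {k : ℕ} (hF : F.IsHomogeneous k) {s : W →₀ ℕ} (hs : s ∈ F.support)
    (z : W → E) : v (∏ i ∈ s.support, z i ^ s i) ≤ (⨆ i, v (z i)) ^ k := by
  rw [map_prod, ← anti_deg hF hs, ← Finset.prod_pow_eq_pow_sum]
  refine Finset.prod_le_prod (fun i _ => v.nonneg _) fun i _ => ?_
  rw [map_pow]
  exact pow_le_pow_left₀ (v.nonneg _)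
    (le_ciSup (f := fun i => v (z i)) (Set.finite_range _).bddAbove i) _

private theorem anti_sup_nonneg {E W : Type*} [Field E] (v : AbsoluteValue E ℝ) (z : W → E) :
    0 ≤ ⨆ i, v (z i) := Real.iSup_nonneg fun i => v.nonneg _

/-- the values of a form, archimedean. -/
private theorem anti_arch {E W : Type*} [Field E] [Fintype W] (v : AbsoluteValue E ℝ) (y : E)
    {F : MvPolynomial W E} {k : ℕ} (hF : F.IsHomogeneous k) {B : ℝ}
    (hB : ∀ s ∈ F.support, v (y * coeff s F) ≤ B) (z : W → E) :
    v (y * eval z F) ≤ F.support.card * B * (⨆ i, v (z i)) ^ k := by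
  rw [eval_eq, Finset.mul_sum]
  refine (v.sum_le _ _).trans ?_
  have h1 : ∀ s ∈ F.support, v (y * (coeff s F * ∏ i ∈ s.support, z i ^ s i)) ≤
      B * (⨆ i, v (z i)) ^ k := by
    intro s hs
    rw [← mul_assoc, map_mul v]
    exact mul_le_mul (hB s hs) (anti_mono v hF hs z) (v.nonneg _)
      ((v.nonneg _).trans (hB s hs))
  refine (Finset.sum_le_sum h1).trans (le_of_eq ?_)
  rw [Finset.sum_const, nsmul_eq_mul, mul_assoc]

/-- the values of a form, nonarchimedean. -/
private theorem anti_non {E W : Type*} [Field E] [Fintype W] (v : AbsoluteValue E ℝ)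
    (hv : IsNonarchimedean v) (y : E)
    {F : MvPolynomial W E} {k : ℕ} (hF : F.IsHomogeneous k)
    (hB : ∀ s ∈ F.support, v (y * coeff s F) ≤ 1) (z : W → E) :
    v (y * eval z F) ≤ (⨆ i, v (z i)) ^ k := by
  classical
  rw [eval_eq, Finset.mul_sum]
  have h0 : 0 ≤ (⨆ i, v (z i)) ^ k := pow_nonneg (anti_sup_nonneg v z) k
  have h1 : ∀ s ∈ F.support, v (y * (coeff s F * ∏ i ∈ s.support, z i ^ s i)) ≤
      (⨆ i, v (z i)) ^ k := by
    intro s hs
    rw [← mul_assoc, map_mul v]
    calc v (y * coeff s F) * v (∏ i ∈ s.support, z i ^ s i)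
        ≤ 1 * (⨆ i, v (z i)) ^ k :=
          mul_le_mul (hB s hs) (anti_mono v hF hs z) (v.nonneg _) zero_le_one
      _ = _ := one_mul _
  have h2 : ∀ T ⊆ F.support, v (∑ s ∈ T, y * (coeff s F * ∏ i ∈ s.support, z i ^ s i)) ≤
      (⨆ i, v (z i)) ^ k := by
    intro T
    induction T using Finset.induction_on with
    | empty =>
      intro _
      rw [Finset.sum_empty, map_zero]
      exact h0
    | insert a T ha ih =>
      intro hT
      rw [Finset.sum_insert ha]
      refine (hv _ _).trans (max_le (h1 a (hT (Finset.mem_insert_self _ _))) (ih ?_))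
      exact (Finset.subset_insert _ _).trans hT
  exact h2 _ (Finset.Subset.refl _)

/-- the absolute value of a complex embedding. -/
private noncomputable def cAbs {E : Type*} [Field E] (s : E →+* ℂ) : AbsoluteValue E ℝ where
  toFun z := ‖s z‖
  map_mul' a b := by rw [map_mul, norm_mul]
  nonneg' a := norm_nonneg _
  eq_zero' a := by rw [norm_eq_zero, map_eq_zero]
  add_le' a b := by
    rw [map_add]
    exact norm_add_le _ _

theorem form_height {E W : Type*} [Field E] [CharZero E] [Algebra.IsAlgebraic ℚ E] [Fintype W]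
    {I : Type*} [Fintype I] (m : ℕ) (Gc : I → MvPolynomial W E)
    (hG : ∀ i, (Gc i).IsHomogeneous m) :
    ∃ C : ℝ, ∀ z : W → E, (∃ i, eval z (Gc i) ≠ 0) →
      absHeight (fun i => eval z (Gc i)) ≤ m * absHeight z + C := by
  classical
  have halg : Algebra.IsAlgebraic ℤ E :=
    (IsFractionRing.comap_isAlgebraic_iff (A := ℤ) (K := ℚ) (C := E)).2 inferInstance
  set S : Finset E := Finset.univ.biUnion fun i => (Gc i).support.image fun s => coeff s (Gc i)
    with hS
  have hmemS : ∀ i, ∀ s ∈ (Gc i).support, coeff s (Gc i) ∈ S := by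
    intro i s hs
    rw [hS, Finset.mem_biUnion]
    exact ⟨i, Finset.mem_univ i, Finset.mem_image_of_mem _ hs⟩
  obtain ⟨y, hy, hint⟩ := Algebra.IsAlgebraic.exists_integral_multiples ℤ S
  obtain ⟨B, hB1, -, hB⟩ := abound (S.image fun c => (y : E) * c)
  set n : ℕ := ∑ i, (Gc i).support.card with hn
  refine ⟨Real.log (max 1 (n * B)), fun z hz => ?_⟩
  obtain ⟨i₀, hi₀⟩ := hz
  have : Nonempty I := ⟨i₀⟩
  have hyE : (y : E) ≠ 0 := Int.cast_ne_zero.2 hy
  have h1 : absHeight ((y : E) • fun i => eval z (Gc i)) = absHeight (fun i => eval z (Gc i)) :=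
    absHeight_smul _ hyE _
  rw [← h1]
  have hne : ((y : E) • fun i => eval z (Gc i)) ≠ 0 := by
    intro h0
    have := congrFun h0 i₀
    rw [Pi.smul_apply, smul_eq_mul] at this
    exact mul_ne_zero hyE hi₀ this
  have h2 := abs_htq ((y : E) • fun i => eval z (Gc i)) hne (fun _ : Fin m => z) (fun j h0 => by
    rw [h0] at hi₀
    exact hi₀ (anti_zero (hG i₀) (by
      have := j.2
      omega))) (max 1 (n * B)) (le_max_left _ _) ?_ ?_ ∅ (fun _ => 1) (by simp) (by simp)
  · rw [Finset.sum_empty, add_zero, Finset.sum_const, Finset.card_univ, Fintype.card_fin,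
      nsmul_eq_mul] at h2
    linarith
  · intro s
    rw [Finset.prod_const, Finset.card_univ, Fintype.card_fin]
    refine ciSup_le fun i => ?_
    have h3 : ‖s ((y : E) * eval z (Gc i))‖ ≤ (Gc i).support.card * B *
        (⨆ i, ‖s (z i)‖) ^ m :=
      anti_arch (cAbs s) (y : E) (hG i) (B := B) (fun t ht => hB s _
        (Finset.mem_image_of_mem _ (hmemS i t ht))) z
    have h4 : (0 : ℝ) ≤ (⨆ i, ‖s (z i)‖) ^ m := pow_nonneg (anti_sup_nonneg (cAbs s) z) m
    refine h3.trans ?_
    refine mul_le_mul_of_nonneg_right ?_ h4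
    refine le_trans ?_ (le_max_right _ _)
    have h5 : (Gc i).support.card ≤ n :=
      Finset.single_le_sum (f := fun i => (Gc i).support.card) (fun _ _ => Nat.zero_le _)
        (Finset.mem_univ i)
    have h6 : ((Gc i).support.card : ℝ) ≤ n := by exact_mod_cast h5
    exact mul_le_mul_of_nonneg_right h6 (by linarith)
  · intro p τ
    rw [Finset.prod_const, Finset.card_univ, Fintype.card_fin]
    refine ciSup_le fun i => ?_
    refine anti_non (pAbs p τ) (pAbs_nonarch p τ) (y : E) (hG i) (fun t ht => ?_) z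
    rw [pAbs_apply]
    have h7 := pint_le_one p (τ ((y : E) * coeff t (Gc i)))
      (by
        have h8 := (hint _ (hmemS i t ht)).map (τ.toIntAlgHom)
        rw [zsmul_eq_mul] at h8
        exact h8)
    exact h7

private theorem anti_cmp {E : Type*} [Field E] (v : AbsoluteValue E ℝ) {X W : Type*} [Fintype X]
    [Fintype W] [Nonempty X] {r m : ℕ} (P : X → E) (a : W → E) (f : Fin r → X) (g : Fin m → W) :
    v ((∏ k, P (f k)) * ∏ i, a (g i)) ≤
      ⨆ q : X × (Fin m → W), v (P q.1 ^ r * ∏ i, a (q.2 i)) := by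
  obtain ⟨J₀, hJ₀⟩ := Finite.exists_max fun J => v (P J)
  have h1 : v ((∏ k, P (f k)) * ∏ i, a (g i)) ≤ v (P J₀ ^ r * ∏ i, a (g i)) := by
    rw [map_mul, map_mul]
    refine mul_le_mul_of_nonneg_right ?_ (v.nonneg _)
    rw [map_prod, map_pow]
    calc ∏ k, v (P (f k)) ≤ ∏ _k : Fin r, v (P J₀) :=
          Finset.prod_le_prod (fun _ _ => v.nonneg _) fun k _ => hJ₀ _
      _ = v (P J₀) ^ r := by rw [Finset.prod_const, Finset.card_univ, Fintype.card_fin]
  exact h1.trans (le_ciSup (f := fun q : X × (Fin m → W) => v (P q.1 ^ r * ∏ i, a (q.2 i)))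
    (Set.finite_range _).bddAbove (J₀, g))

universe u

private def antiS (X W : Type u) (r m : ℕ) : Fin r ⊕ Fin m → Type u
  | .inl _ => X
  | .inr _ => W

private def antiT {E : Type*} {X W : Type u} (P : X → E) (b : W → E) (r m : ℕ) :
    (α : Fin r ⊕ Fin m) → antiS X W r m α → E
  | .inl _ => P
  | .inr _ => b

private theorem anti_height {E : Type*} [Field E] [CharZero E] [Algebra.IsAlgebraic ℚ E]
    {X W : Type u} [Fintype X] [Fintype W] (P : X → E) (hP : P ≠ 0) (b : W → E) (hb : b ≠ 0)
    (r m : ℕ) : r * absHeight P + m * absHeight b ≤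
      absHeight (fun q : X × (Fin m → W) => P q.1 ^ r * ∏ i, b (q.2 i)) := by
  classical
  obtain ⟨J₀, hJ₀⟩ := Function.ne_iff.1 hP
  obtain ⟨w₀, hw₀⟩ := Function.ne_iff.1 hb
  have hX : Nonempty X := ⟨J₀⟩
  have hW : Nonempty W := ⟨w₀⟩
  have hfin : ∀ α, Finite (antiS X W r m α) := by
    rintro (α | α)
    · exact inferInstanceAs (Finite X)
    · exact inferInstanceAs (Finite W)
  have hne : ∀ α, Nonempty (antiS X W r m α) := by
    rintro (α | α)
    · exact hX
    · exact hW
  have hT0 : ∀ α, antiT P b r m α ≠ 0 := by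
    rintro (α | α)
    · exact hP
    · exact hb
  have hT := absHeight_prod (antiT P b r m) hT0
  have hTs : ∑ α, absHeight (antiT P b r m α) = r * absHeight P + m * absHeight b := by
    rw [Fintype.sum_sum_type]
    show ∑ _i : Fin r, absHeight P + ∑ _i : Fin m, absHeight b = _
    rw [Finset.sum_const, Finset.sum_const, Finset.card_univ, Finset.card_univ,
      Fintype.card_fin, Fintype.card_fin, nsmul_eq_mul, nsmul_eq_mul]
  have hTeq : ∀ I : (α : Fin r ⊕ Fin m) → antiS X W r m α, ∏ α, antiT P b r m α (I α) =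
      (∏ k, P (I (Sum.inl k))) * ∏ i, b (I (Sum.inr i)) := by
    intro I
    exact Fintype.prod_sum_type _
  set U : X × (Fin m → W) → E := fun q => P q.1 ^ r * ∏ i, b (q.2 i) with hU
  have hU0 : U ≠ 0 := by
    intro h0
    have h1 := congrFun h0 (J₀, fun _ => w₀)
    exact mul_ne_zero (pow_ne_zero r hJ₀) (Finset.prod_ne_zero_iff.2 fun _ _ => hw₀) h1
  set T : ((α : Fin r ⊕ Fin m) → antiS X W r m α) → E :=
    fun I => ∏ α, antiT P b r m α (I α) with hTdef
  have hTne : T ≠ 0 := by
    have h2 : ∀ α, ∃ j, antiT P b r m α j ≠ 0 := fun α => Function.ne_iff.1 (hT0 α)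
    choose j hj using h2
    intro h0
    exact (Finset.prod_ne_zero_iff.2 fun α _ => hj α) (congrFun h0 j)
  have hval : ∀ (v : AbsoluteValue E ℝ) (I : (α : Fin r ⊕ Fin m) → antiS X W r m α),
      v (T I) ≤ ⨆ q, v (U q) := by
    intro v I
    have h1 : T I = (∏ k, P (I (Sum.inl k))) * ∏ i, b (I (Sum.inr i)) := hTeq I
    rw [h1]
    exact anti_cmp v P b (fun k => I (Sum.inl k)) (fun i => I (Sum.inr i))
  have hcmp := abs_htq T hTne (fun _ : Unit => U) (fun _ => hU0) 1 le_rfl (fun s => by
      rw [Finset.prod_const, Finset.card_univ, Fintype.card_unit, pow_one, one_mul]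
      exact ciSup_le fun I => hval (cAbs s) I) (fun p τ => by
      rw [Finset.prod_const, Finset.card_univ, Fintype.card_unit, pow_one]
      exact ciSup_le fun I => hval (pAbs p τ) I) ∅ (fun _ => 1) (by simp) (by simp)
  rw [Real.log_one, Finset.sum_empty, Finset.sum_const, Finset.card_univ,
    Fintype.card_unit, one_smul, zero_add, zero_add] at hcmp
  rw [← hTs, ← hT]
  exact hcmp

theorem anti {E Ω W : Type*} [Field E] [CharZero E] [Algebra.IsAlgebraic ℚ E] [Fintype W]
    (a : Ω → W → E) (ha0 : ∀ x, a x ≠ 0) (d r₀ m₁ : ℕ) (hr₀ : 1 ≤ r₀)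
    (Gc : (Fin (d + 1) → W) × (Fin m₁ → W) → MvPolynomial W E) (hGc : AntiCan a d r₀ m₁ Gc) :
    ∃ κ : ℝ, 0 ≤ κ ∧ ∀ (x : Ω) (v : Fin (d + 1) → W → E), TanB a x v →
      (∃ I, eval (a x) (Gc I) ≠ 0) →
      absHeight (plu v) ≤ (d + 1) * absHeight (a x) + κ := by
  classical
  obtain ⟨C, hC⟩ := form_height (r₀ * (d + 1) + m₁) Gc hGc.hom
  refine ⟨|C|, abs_nonneg C, fun x v hv hx => ?_⟩
  obtain ⟨c, hc⟩ := hGc.prop x v hv
  obtain ⟨I₀, hI₀⟩ := hx
  have h1 := hI₀
  rw [hc I₀] at h1
  have hc0 : c ≠ 0 := left_ne_zero_of_mul (left_ne_zero_of_mul h1)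
  have hp0 : plu v I₀.1 ≠ 0 := by
    intro h0
    rw [h0, zero_pow (by omega), mul_zero, zero_mul] at h1
    exact h1 rfl
  have hpl : plu v ≠ 0 := fun h0 => hp0 (congrFun h0 _)
  have hU1 : absHeight (fun q : (Fin (d + 1) → W) × (Fin m₁ → W) =>
      plu v q.1 ^ r₀ * ∏ i, a x (q.2 i)) = absHeight fun I => eval (a x) (Gc I) := by
    rw [← absHeight_smul c hc0]
    congr 1
    funext I
    rw [hc I, Pi.smul_apply, smul_eq_mul, mul_assoc]
  have hcmp := anti_height (plu v) hpl (a x) (ha0 x) r₀ m₁
  rw [hU1] at hcmp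
  have h3 := hC (a x) ⟨I₀, hI₀⟩
  have hr : (1 : ℝ) ≤ r₀ := by exact_mod_cast hr₀
  have h4 : (r₀ : ℝ) * absHeight (plu v) ≤ r₀ * ((d + 1) * absHeight (a x) + |C|) := by
    have h5 : C ≤ r₀ * |C| := by
      have h6 := le_abs_self C
      have h7 := abs_nonneg C
      nlinarith
    push_cast at h3
    nlinarith
  exact le_of_mul_le_mul_left h4 (by linarith)

end Pool.Agent.LLX
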