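import Pool.Agent.LLX.Defs

/-!
# LLX CNT: counting jets

`bz_eq`: the number of `s : Fin d →₀ ℕ` with `s.degree < j` is `(j + d - 1).choose d` for `j ≥ 1`
(induction on `d`, splitting off one coordinate: `∑_{i<j} #{s' : degree < j - i}`, and the hockey
stick identity; or stars and bars, `Sym.card_sym_eq_choose` in the `d + 1` variables with the slack
variable `j - 1 - degree`).
`sum_JI`: `∑ t, t b = #{(t, m) : 1 ≤ m ≤ t b}`, and `(t, m) ↦ (t - m e_b, m)` is a bijection onto
the pairs `(t', m)`, `m ≥ 1`, `degree t' < j - m`, so the sum is `∑_{m=1}^{j-1} bz d (j - m)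
= ∑_{i=1}^{j-1} (i + d - 1).choose d = (j + d - 1).choose (d + 1)` (hockey stick,
`Nat.sum_Icc_choose`).
`bz_lower`: `d! * (j + d - 1).choose d = j (j + 1) ... (j + d - 1) ≥ j ^ d`
(`Nat.ascFactorial`/`Nat.descFactorial` lemmas, or induction on `d`).
`bz_upper`: `s ↦ (b ↦ s b)` is an injection to `Fin d → Fin j` (see the instance in Defs).
`bo_le`: for `d = 0` it says `j - 1 ≤ bz 0 j * j`; for `d ≥ 1` use `sum_JI` with `b = 0` and
`t b < j`.
`sum_gain`: every term is at least `D' - j`.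
-/

open MvPolynomial

namespace Pool.Agent.LLX

private theorem cnt_deg_cons {d : ℕ} (i : ℕ) (s : Fin d →₀ ℕ) :
    (Finsupp.cons i s).degree = i + s.degree := by
  rw [Finsupp.degree_eq_sum, Finsupp.degree_eq_sum, Fin.sum_univ_succ, Finsupp.cons_zero]
  simp only [Finsupp.cons_succ]

private theorem cnt_deg_tail {d : ℕ} (s : Fin (d + 1) →₀ ℕ) :
    s.degree = s 0 + s.tail.degree := by
  conv_lhs => rw [← Finsupp.cons_tail s]
  exact cnt_deg_cons _ _

/-- Splitting off the first coordinate. -/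
private noncomputable def cntEquiv (d j : ℕ) : JI (d + 1) j ≃ Σ i : Fin j, JI d (j - i) where
  toFun s := ⟨⟨s.1 0, by have := s.2; rw [cnt_deg_tail] at this; omega⟩,
    ⟨s.1.tail, by have := s.2; rw [cnt_deg_tail] at this; simp only; omega⟩⟩
  invFun t := ⟨Finsupp.cons t.1 t.2.1, by
    rw [cnt_deg_cons]
    have := t.2.2
    omega⟩
  left_inv s := Subtype.ext (Finsupp.cons_tail s.1)
  right_inv := by
    rintro ⟨⟨i, hi⟩, ⟨t, ht⟩⟩
    simp only [Finsupp.cons_zero, Finsupp.tail_cons]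

private theorem bz_succ (d j : ℕ) : bz (d + 1) j = ∑ i : Fin j, bz d (j - i) := by
  unfold bz
  rw [Fintype.card_congr (cntEquiv d j), Fintype.card_sigma]

private theorem bz_zero (j : ℕ) (hj : 1 ≤ j) : bz 0 j = 1 := by
  unfold bz
  rw [Fintype.card_eq_one_iff]
  refine ⟨⟨0, by simp only [map_zero]; omega⟩, fun s => Subtype.ext (Subsingleton.elim _ _)⟩

theorem bz_eq (d j : ℕ) (hj : 1 ≤ j) : bz d j = (j + d - 1).choose d := by
  induction d generalizing j with
  | zero => rw [bz_zero j hj, Nat.choose_zero_right]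
  | succ d ih =>
    rw [bz_succ]
    obtain ⟨n, rfl⟩ : ∃ n, j = n + 1 := ⟨j - 1, by omega⟩
    have e1 : ∀ i : Fin (n + 1), bz d (n + 1 - i) = (n - (i : ℕ) + d).choose d := by
      intro i
      have := i.2
      rw [ih _ (by omega)]
      congr 1
      omega
    rw [Finset.sum_congr rfl fun i _ => e1 i,
      Fin.sum_univ_eq_sum_range (fun i => (n - i + d).choose d) (n + 1),
      ← Finset.sum_range_reflect (fun i => (n - i + d).choose d) (n + 1)]
    have e2 : ∀ i ∈ Finset.range (n + 1), (n - (n + 1 - 1 - i) + d).choose d = (i + d).choose d := by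
      intro i hi
      rw [Finset.mem_range] at hi
      congr 2
      omega
    rw [Finset.sum_congr rfl e2, Nat.sum_range_add_choose]
    congr 1
    omega

theorem bz_pos (d j : ℕ) (hj : 1 ≤ j) : 0 < bz d j := by
  rw [bz_eq d j hj]
  exact Nat.choose_pos (by omega)

private theorem cnt_deg_add {d : ℕ} (s : Fin d →₀ ℕ) (b : Fin d) (m : ℕ) :
    (s + Finsupp.single b m).degree = s.degree + m := by
  rw [map_add, Finsupp.degree_single]

private theorem cnt_le_deg {d : ℕ} (s : Fin d →₀ ℕ) (b : Fin d) : s b ≤ s.degree := by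
  rw [Finsupp.degree_eq_sum]
  exact Finset.single_le_sum (f := fun b => s b) (fun _ _ => Nat.zero_le _) (Finset.mem_univ b)

private theorem cnt_sub {d : ℕ} (s : Fin d →₀ ℕ) (b : Fin d) (m : ℕ) (h : m ≤ s b) :
    s - Finsupp.single b m + Finsupp.single b m = s := by
  apply tsub_add_cancel_of_le
  rwa [Finsupp.single_le_iff]

private theorem cnt_deg_sub {d : ℕ} (s : Fin d →₀ ℕ) (b : Fin d) (m : ℕ) (h : m ≤ s b) :
    (s - Finsupp.single b m).degree + m = s.degree := by
  rw [← cnt_deg_add, cnt_sub s b m h]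

private noncomputable def cntEquiv2 (d j : ℕ) (b : Fin d) :
    (Σ t : JI d j, Fin (t.1 b)) ≃ Σ m : Fin (j - 1), JI d (j - 1 - m) where
  toFun t := ⟨⟨t.2, by have h1 := t.1.2; have h2 := t.2.2; have h3 := cnt_le_deg t.1.1 b; omega⟩,
    ⟨t.1.1 - Finsupp.single b ((t.2 : ℕ) + 1), by
      have h1 := t.1.2
      have h2 := t.2.2
      have h3 := cnt_deg_sub t.1.1 b ((t.2 : ℕ) + 1) (by omega)
      simp only
      omega⟩⟩
  invFun u := ⟨⟨u.2.1 + Finsupp.single b ((u.1 : ℕ) + 1), by
      have h1 := u.2.2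
      rw [cnt_deg_add]
      omega⟩, ⟨u.1, by
      simp only [Finsupp.add_apply, Finsupp.single_eq_same]
      omega⟩⟩
  left_inv := by
    rintro ⟨⟨t, ht⟩, ⟨m, hm⟩⟩
    have h1 := cnt_sub t b (m + 1) (by simpa using hm)
    have h2 : ∀ (t' : Fin d →₀ ℕ) (ht' : t'.degree < j) (hm' : m < t' b), t' = t →
        (⟨⟨t', ht'⟩, ⟨m, hm'⟩⟩ : Σ t : JI d j, Fin (t.1 b)) = ⟨⟨t, ht⟩, ⟨m, hm⟩⟩ := by
      intro t' ht' hm' h
      subst h
      rfl
    exact h2 _ _ _ h1
  right_inv := by
    rintro ⟨⟨m, hm⟩, ⟨t, ht⟩⟩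
    simp only [add_tsub_cancel_right]

theorem sum_JI (d j : ℕ) (b : Fin d) : ∑ t : JI d j, t.1 b = bo d j := by
  have e1 : ∑ t : JI d j, t.1 b = Fintype.card (Σ t : JI d j, Fin (t.1 b)) := by
    rw [Fintype.card_sigma]
    simp only [Fintype.card_fin]
  rw [e1, Fintype.card_congr (cntEquiv2 d j b), Fintype.card_sigma]
  have e2 : ∑ m : Fin (j - 1), Fintype.card (JI d (j - 1 - m)) = bz (d + 1) (j - 1) := by
    rw [bz_succ]
    rfl
  rw [e2]
  unfold bo
  rcases Nat.lt_or_ge (j - 1) 1 with h | h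
  · have h0 : j - 1 = 0 := by omega
    rw [h0]
    have : bz (d + 1) 0 = 0 := by
      unfold bz
      rw [Fintype.card_eq_zero_iff]
      exact ⟨fun s => absurd s.2 (Nat.not_lt_zero _)⟩
    rw [this]
    symm
    apply Nat.choose_eq_zero_of_lt
    omega
  · rw [bz_eq (d + 1) (j - 1) h]
    congr 1
    omega

theorem bz_lower (d j : ℕ) (hj : 1 ≤ j) : j ^ d ≤ d.factorial * bz d j := by
  rw [bz_eq d j hj, ← Nat.ascFactorial_eq_factorial_mul_choose']
  exact Nat.pow_succ_le_ascFactorial j d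

theorem bz_upper (d j : ℕ) : bz d j ≤ j ^ d := by
  have h := Fintype.card_le_of_injective (fun s : JI d j => fun b : Fin d =>
    (⟨s.1 b, lt_of_le_of_lt (cnt_le_deg s.1 b) s.2⟩ : Fin j)) (by
    intro s t h
    ext b
    have := congrArg Fin.val (congrFun h b)
    simpa using this)
  simpa [bz] using h

theorem bo_le (d j : ℕ) : bo d j ≤ bz d j * j := by
  rcases Nat.lt_or_ge j 1 with h | h
  · have h0 : j = 0 := by omega
    subst h0
    unfold bo
    rw [Nat.choose_eq_zero_of_lt (by omega)]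
    exact Nat.zero_le _
  · rw [bz_eq d j h]
    unfold bo
    have e1 := Nat.choose_succ_right_eq (j + d - 1) d
    have e2 : j + d - 1 - d = j - 1 := by omega
    rw [e2] at e1
    calc (j + d - 1).choose (d + 1) ≤ (j + d - 1).choose (d + 1) * (d + 1) :=
          Nat.le_mul_of_pos_right _ (Nat.succ_pos d)
      _ = (j + d - 1).choose d * (j - 1) := e1
      _ ≤ (j + d - 1).choose d * j := Nat.mul_le_mul_left _ (Nat.sub_le _ _)

theorem sum_gain (M d j D' : ℕ) :
    M * bz d j * (D' - j) ≤ ∑ r : Fin M × JI d j, (D' - r.2.1.degree) := by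
  have h := Finset.card_nsmul_le_sum (Finset.univ : Finset (Fin M × JI d j))
    (fun r => D' - r.2.1.degree) (D' - j) (fun r _ => Nat.sub_le_sub_left r.2.2.le D')
  rw [Finset.card_univ, Fintype.card_prod, Fintype.card_fin, smul_eq_mul] at h
  exact h

end Pool.Agent.LLX
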