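import Pool.Agent.LLX.Defs2

/-!
# LLX CRT: jets at several points

`mI_max`: the kernel of the surjective homomorphism `eval (npt a F l x)` onto the field `E`.
`mI_ne`: otherwise `X (0, w) - C (npt a F l x (0, w))` vanishes at `npt a F l x'`, so
`a x w / lin (l 0) (a x) = a x' w / lin (l 0) (a x')` for all `w`, against `h` for
`c = lin (l 0) (a x) / lin (l 0) (a x')`.
`crt`: the `m i` are pairwise comaximal, hence so are the `m i ^ j`; Chinese remainder theorem
(`Ideal.quotientInfRingEquivPiQuotient` or: for each `i`, `m i ^ j` and `∏_{i' ≠ i} m i' ^ j` are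
comaximal) gives the `ep i`. Last clause: `∑ ep i - 1 ∈ ⨅ m i ^ j`, and with
`P - Q i = v i + μ i`, `v i ∈ V`, `μ i ∈ m i ^ j`,
`P - ∑ ep i * Q i = P * (1 - ∑ ep i) + ∑ ep i * v i + ∑ ep i * μ i`, `ep i * μ i ∈ m i' ^ j` for all
`i'`; and `⨅ m i ^ j = ∏ m i ^ j = (∏ m i) ^ j ≤ (⨅ m i) ^ j` for pairwise comaximal ideals. For
`j = 0` everything is `⊤`; `M = 0` is allowed (`⨅` over the empty set is `⊤`).
`span_all`: apply `crt` to `Q i = ∑ s, C (c i s) * ∏ ...`.
-/

open MvPolynomial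

namespace Pool.Agent.LLX

open Pool.Agent.Helper63.SAND

theorem crt {R : Type*} [CommRing R] {M : ℕ} (m : Fin M → Ideal R)
    (hm : ∀ i, (m i).IsMaximal) (hne : ∀ i i', i ≠ i' → m i ≠ m i') (j : ℕ) :
    ∃ ep : Fin M → R, (∀ i, ep i - 1 ∈ m i ^ j) ∧ (∀ i i', i ≠ i' → ep i ∈ m i' ^ j) ∧
      ∀ (V : Ideal R) (P : R) (Q : Fin M → R), (∀ i, P - Q i ∈ V ⊔ m i ^ j) →
        P - ∑ i, ep i * Q i ∈ V ⊔ (⨅ i, m i) ^ j := by
  classical
  have hcop : Pairwise (Function.onFun IsCoprime m) := fun i i' h =>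
    Ideal.isCoprime_iff_sup_eq.2 ((hm i).coprime_of_ne (hm i') (hne i i' h))
  have hcopj : Pairwise (Function.onFun IsCoprime fun i => m i ^ j) := fun i i' h =>
    IsCoprime.pow (hcop h)
  choose ep hep using fun i => Ideal.exists_forall_sub_mem_ideal hcopj
    (fun i' => if i' = i then (1 : R) else 0)
  have h1 : ∀ i, ep i - 1 ∈ m i ^ j := fun i => by simpa using hep i i
  have h0 : ∀ i i', i ≠ i' → ep i ∈ m i' ^ j := fun i i' h => by
    have := hep i i'
    rwa [if_neg (Ne.symm h), sub_zero] at this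
  have hinf : (⨅ i, m i ^ j) ≤ (⨅ i, m i) ^ j := by
    have e1 := Ideal.prod_eq_iInf_of_pairwise_isCoprime (s := Finset.univ)
      (J := fun i => m i ^ j) (hcopj.set_pairwise _)
    have e2 := Ideal.prod_eq_iInf_of_pairwise_isCoprime (s := Finset.univ)
      (J := m) (hcop.set_pairwise _)
    simp only [Finset.mem_univ, iInf_pos] at e1 e2
    rw [← e1, ← e2, Finset.prod_pow]
  refine ⟨ep, h1, h0, fun V P Q h => ?_⟩
  have hsum : ∑ i, ep i - 1 ∈ ⨅ i, m i ^ j := by
    rw [Submodule.mem_iInf]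
    intro i
    rw [← Finset.add_sum_erase _ _ (Finset.mem_univ i), add_sub_right_comm]
    exact add_mem (h1 i) (sum_mem fun i' hi' => h0 i' i (Finset.ne_of_mem_erase hi'))
  choose v hv μ hμ hvμ using fun i => Submodule.mem_sup.1 (h i)
  have e : P - ∑ i, ep i * Q i =
      ∑ i, ep i * v i + (∑ i, ep i * μ i - P * (∑ i, ep i - 1)) := by
    have hQ : ∀ i, Q i = P - (v i + μ i) := fun i => by rw [hvμ]; ring
    simp only [hQ, mul_sub, mul_add, Finset.sum_sub_distrib, Finset.sum_add_distrib,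
      ← Finset.sum_mul]
    ring
  rw [e]
  refine Submodule.add_mem_sup (sum_mem fun i _ => V.mul_mem_left _ (hv i)) (hinf ?_)
  refine sub_mem ?_ (Ideal.mul_mem_left _ _ hsum)
  rw [Submodule.mem_iInf]
  intro i
  refine sum_mem fun i' _ => ?_
  by_cases hi : i' = i
  · subst hi
    exact Ideal.mul_mem_left _ _ (hμ i')
  · exact Ideal.mul_mem_right _ _ (h0 i' i hi)

variable {E Ω W : Type*} [Field E] [Fintype W] {n : ℕ} (a : Ω → W → E) (F : Ω → Ω)
  (l : Fin (n + 1) → W → E)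

theorem mI_max (x : Ω) : (mI a F l x).IsMaximal := by
  have h : mI a F l x = RingHom.ker (eval (npt a F l x)) := by
    ext P
    rw [RingHom.mem_ker]
    rfl
  rw [h]
  exact RingHom.ker_isMaximal_of_surjective _ fun c => ⟨C c, eval_C _⟩

theorem mI_ne (x x' : Ω) (hx : Adm a F l x) (hx' : Adm a F l x')
    (h : ∀ c : E, ∃ w, a x w ≠ c * a x' w) : mI a F l x ≠ mI a F l x' := by
  intro heq
  obtain ⟨w, hw⟩ := h (lin (l 0) (a x) / lin (l 0) (a x'))
  have h1 := hx 0
  have h2 := hx' 0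
  simp only [Fin.val_zero, Function.iterate_zero, id_eq] at h1 h2
  have hmem : (X (0, w) - C (npt a F l x (0, w)) : MvPolynomial (Fin (n + 1) × W) E) ∈
      mI a F l x := by
    change eval (npt a F l x) _ = 0
    rw [map_sub, eval_X, eval_C, sub_self]
  rw [heq] at hmem
  have h3 : eval (npt a F l x') (X (0, w) - C (npt a F l x (0, w))) = 0 := hmem
  rw [map_sub, eval_X, eval_C, sub_eq_zero] at h3
  simp only [npt, Fin.val_zero, Function.iterate_zero, id_eq] at h3
  apply hw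
  rw [div_eq_div_iff h2 h1] at h3
  field_simp
  linear_combination -h3

theorem span_all {d j M : ℕ} (x : Fin M → Ω) (hadm : ∀ i, Adm a F l (x i))
    (hne : ∀ i i', i ≠ i' → ∀ c : E, ∃ w, a (x i) w ≠ c * a (x i') w) (I : Fin M → Fin d → W)
    (hsp : ∀ i P, ∃ c : JI d j → E, P - ∑ s, C (c s) * ∏ b, zc a F l (x i) (I i) b ^ s.1 b ∈
      VI a F l ⊔ mI a F l (x i) ^ j) :
    ∃ ep : Fin M → MvPolynomial (Fin (n + 1) × W) E, (∀ i, ep i - 1 ∈ mI a F l (x i) ^ j) ∧
      (∀ i i', i ≠ i' → ep i ∈ mI a F l (x i') ^ j) ∧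
      ∀ P, ∃ c : Fin M × JI d j → E, P - ∑ r, C (c r) * Er a F l x I ep r ∈
        VI a F l ⊔ (⨅ i, mI a F l (x i)) ^ j := by
  obtain ⟨ep, h1, h2, h3⟩ := crt (fun i => mI a F l (x i)) (fun i => mI_max a F l (x i))
    (fun i i' hi => mI_ne a F l (x i) (x i') (hadm i) (hadm i') (hne i i' hi)) j
  refine ⟨ep, h1, h2, fun P => ?_⟩
  choose c hc using fun i => hsp i P
  refine ⟨fun r => c r.1 r.2, ?_⟩
  have h4 := h3 (VI a F l) P _ hc
  convert h4 using 2
  rw [Fintype.sum_prod_type]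
  refine Finset.sum_congr rfl fun i _ => ?_
  rw [Finset.mul_sum]
  refine Finset.sum_congr rfl fun s _ => ?_
  simp only [Er]
  ring

end Pool.Agent.LLX
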