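import Pool.Agent.Helper63.WH.Aapi
import Pool.Agent.Helper63.WH.Ahtq
import Pool.Agent.Helper63.WH.Pint

/-!
# LLX HTQ2: the product formula for an inequality with heights on both sides

Proof. Apply `abs_htq` (Helper63/WH/Ahtq.lean) to
`z = Z • (tensor product of the B j, each taken n₂ j times)` (a function on
`∀ t : (Σ j, Fin (n₂ j)), κ t.1`; its height is `∑ n₂ j * absHeight (B j)` by `absHeight_smul`
and `absHeight_prod`, and the supremum of its absolute values is the product of the suprema: e.g.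
`Height`-API or a direct argument, the maximum is attained at the product of the maximal
coordinates) and the family consisting of the `A j`, each taken `n₁ j` times, and of `m` times the
vector `(1, N⁻¹)`, where `N = ∏_{p < p₀} p` and `m = ⌈log Γ / log 2⌉`. For a prime `p < p₀` and
`τ : E →+* PadicAlgCl p` the supremum of `(1, N⁻¹)` is `p ≥ 2`, so its `m`-th power is at least
`2 ^ m ≥ Γ`; for the other primes it is `1`, and for `s : E →+* ℂ` it is `1`. Its height is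
`log N` (at most: `absHeight (1, N⁻¹) = absHeight (N, 1) = log N`; only `≤` is needed; use
`absHeight` over `ℚ`, or `abs_htq` again). (`abs_htq` wants all the
index types in the same universe: use `ULift (Fin 2)` for the vector `(1, N⁻¹)`.) So
`∑ n₂ j h(B j) ≤ log Γ + log γ + ∑ n₁ j h(A j) + m log N` and `m ≤ log Γ / log 2 + 1`.
-/

namespace Pool.Agent.LLX

universe u

open Pool.Agent.Helper63.WH

private theorem htq2_tensor_le {E F : Type*} [Field E] [NormedField F] (τ : E →+* F)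
    {J₂ : Type} [Fintype J₂] (κ : J₂ → Type u) [∀ j, Fintype (κ j)] (B : ∀ j, κ j → E)
    (n₂ : J₂ → ℕ) (Z : E) :
    (⨆ I : (t : (Σ j, Fin (n₂ j))) → κ t.1, ‖τ (Z * ∏ t, B t.1 (I t))‖) ≤
      ‖τ Z‖ * ∏ j, (⨆ k, ‖τ (B j k)‖) ^ n₂ j := by
  have hsup0 : ∀ j, 0 ≤ ⨆ k, ‖τ (B j k)‖ := fun j => Real.iSup_nonneg fun _ => norm_nonneg _
  refine Real.iSup_le (fun I => ?_) ?_
  · rw [map_mul, norm_mul, map_prod, norm_prod]
    refine mul_le_mul_of_nonneg_left ?_ (norm_nonneg _)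
    have h1 : ∏ j, (⨆ k, ‖τ (B j k)‖) ^ n₂ j =
        ∏ t : (Σ j, Fin (n₂ j)), ⨆ k, ‖τ (B t.1 k)‖ := by
      rw [Fintype.prod_sigma]
      refine Finset.prod_congr rfl fun j _ => ?_
      change _ = ∏ _y : Fin (n₂ j), ⨆ k, ‖τ (B j k)‖
      rw [Finset.prod_const, Finset.card_univ, Fintype.card_fin]
    rw [h1]
    refine Finset.prod_le_prod (fun _ _ => norm_nonneg _) fun t _ => ?_
    exact le_ciSup (f := fun k => ‖τ (B t.1 k)‖) (Set.finite_range _).bddAbove (I t)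
  · exact mul_nonneg (norm_nonneg _) (Finset.prod_nonneg fun j _ => pow_nonneg (hsup0 j) _)

/-- The vector `(1, N⁻¹)`. -/
private noncomputable def htq2vec (E : Type*) [Field E] (N : ℕ) : ULift.{u} (Fin 2) → E :=
  fun i => if i.down = 0 then 1 else (N : E)⁻¹

private theorem htq2vec_ge_one {E F : Type*} [Field E] [NormedField F] (τ : E →+* F) (N : ℕ) :
    1 ≤ ⨆ i : ULift.{u} (Fin 2), ‖τ (htq2vec.{u} E N i)‖ := by
  have h1 : ‖τ (htq2vec.{u} E N ⟨0⟩)‖ ≤ ⨆ i : ULift.{u} (Fin 2), ‖τ (htq2vec.{u} E N i)‖ :=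
    le_ciSup (f := fun i => ‖τ (htq2vec.{u} E N i)‖) (Set.finite_range _).bddAbove ⟨0⟩
  have h2 : ‖τ (htq2vec.{u} E N ⟨0⟩)‖ = 1 := by
    unfold htq2vec
    rw [if_pos rfl, map_one, norm_one]
  rwa [h2] at h1

private theorem htq2_norm_p (p : Nat.Primes) : ‖((p : ℕ) : PadicAlgCl p)‖ = 1 / (p : ℝ) := by
  rw [← PadicAlgCl.valuation_coe, PadicAlgCl.valuation_p]
  simp

private theorem htq2vec_ge_two {E : Type*} [Field E] (p : Nat.Primes)
    (τ : E →+* PadicAlgCl p) (N : ℕ) (hN : N ≠ 0) (hp : (p : ℕ) ∣ N) :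
    2 ≤ ⨆ i : ULift.{u} (Fin 2), ‖τ (htq2vec.{u} E N i)‖ := by
  have h1 : ‖τ (htq2vec.{u} E N ⟨1⟩)‖ ≤ ⨆ i : ULift.{u} (Fin 2), ‖τ (htq2vec.{u} E N i)‖ :=
    le_ciSup (f := fun i => ‖τ (htq2vec.{u} E N i)‖) (Set.finite_range _).bddAbove ⟨1⟩
  have h2 : ‖τ (htq2vec.{u} E N ⟨1⟩)‖ = ‖(N : PadicAlgCl p)‖⁻¹ := by
    unfold htq2vec
    rw [if_neg (by simp), map_inv₀, map_natCast, norm_inv]
  rw [h2] at h1
  refine le_trans ?_ h1
  obtain ⟨N', rfl⟩ := hp
  have hN' : N' ≠ 0 := fun h => hN (by rw [h, mul_zero])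
  have h3 : ‖(N' : PadicAlgCl p)‖ ≤ 1 := by
    refine pint_le_one p _ ?_
    have : IsIntegral ℤ ((N' : ℤ) : PadicAlgCl p) := isIntegral_algebraMap
    simpa using this
  have h4 : 0 < ‖(N' : PadicAlgCl p)‖ := norm_pos_iff.2 (by exact_mod_cast hN')
  have hp2 : (2 : ℝ) ≤ (p : ℝ) := by exact_mod_cast p.2.two_le
  rw [Nat.cast_mul, norm_mul, htq2_norm_p, mul_inv, one_div, inv_inv]
  have h5 : 1 ≤ ‖(N' : PadicAlgCl p)‖⁻¹ := (one_le_inv₀ h4).2 h3
  nlinarith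

theorem htq2 {E : Type*} [Field E] [CharZero E] [Algebra.IsAlgebraic ℚ E] (p₀ : ℕ) :
    ∃ C₀ : ℝ, 0 ≤ C₀ ∧ ∀ (J₁ J₂ : Type) [Fintype J₁] [Fintype J₂] (σ : J₁ → Type u)
      (κ : J₂ → Type u) [∀ j, Fintype (σ j)] [∀ j, Fintype (κ j)] (A : ∀ j, σ j → E)
      (B : ∀ j, κ j → E) (n₁ : J₁ → ℕ) (n₂ : J₂ → ℕ) (Z : E), Z ≠ 0 → (∀ j, A j ≠ 0) →
      (∀ j, B j ≠ 0) → ∀ (Γ γ : ℝ), 1 ≤ Γ → 0 < γ → ∀ pst : Nat.Primes, p₀ ≤ (pst : ℕ) →
      (∀ s : E →+* ℂ, ‖s Z‖ * ∏ j, (⨆ k, ‖s (B j k)‖) ^ n₂ j ≤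
        Γ * ∏ j, (⨆ k, ‖s (A j k)‖) ^ n₁ j) →
      (∀ (p : Nat.Primes) (τ : E →+* PadicAlgCl p), (p : ℕ) < p₀ →
        ‖τ Z‖ * ∏ j, (⨆ k, ‖τ (B j k)‖) ^ n₂ j ≤ Γ * ∏ j, (⨆ k, ‖τ (A j k)‖) ^ n₁ j) →
      (∀ (p : Nat.Primes) (τ : E →+* PadicAlgCl p), p₀ ≤ (p : ℕ) →
        ‖τ Z‖ * ∏ j, (⨆ k, ‖τ (B j k)‖) ^ n₂ j ≤ ∏ j, (⨆ k, ‖τ (A j k)‖) ^ n₁ j) →
      (∀ τ : E →+* PadicAlgCl pst,
        ‖τ Z‖ * ∏ j, (⨆ k, ‖τ (B j k)‖) ^ n₂ j ≤ γ * ∏ j, (⨆ k, ‖τ (A j k)‖) ^ n₁ j) →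
      ∑ j, n₂ j * absHeight (B j) ≤
        C₀ * (Real.log Γ + 1) + Real.log γ + ∑ j, n₁ j * absHeight (A j) := by
  classical
  -- the integer `N`, divisible by all the primes below `p₀`
  obtain ⟨N, hN0, hNp⟩ : ∃ N : ℕ, N ≠ 0 ∧ ∀ p : ℕ, p ≠ 0 → p < p₀ → p ∣ N :=
    ⟨p₀.factorial, Nat.factorial_ne_zero _, fun p hp0 hp =>
      Nat.dvd_factorial (Nat.pos_of_ne_zero hp0) hp.le⟩
  obtain ⟨H, hH⟩ : ∃ H : ℝ, H = absHeight (htq2vec.{u} E N) := ⟨_, rfl⟩
  have hH0 : 0 ≤ H := by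
    rw [hH]
    exact absHeight_nonneg _
  have hlog2 : 0 < Real.log 2 := Real.log_pos (by norm_num)
  have hC0 : 0 ≤ 1 + H / Real.log 2 + H := by positivity
  refine ⟨1 + H / Real.log 2 + H, hC0, ?_⟩
  intro J₁ J₂ _ _ σ κ _ _ A B n₁ n₂ Z hZ hA hB Γ γ hΓ hγ pst hpst harch hsmall hbig hpstar
  have hlogΓ : 0 ≤ Real.log Γ := Real.log_nonneg hΓ
  obtain ⟨m, hm⟩ : ∃ m : ℕ, m = ⌈Real.log Γ / Real.log 2⌉₊ := ⟨_, rfl⟩
  have hm1 : (m : ℝ) ≤ Real.log Γ / Real.log 2 + 1 := by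
    rw [hm]
    exact (Nat.ceil_lt_add_one (by positivity)).le
  have hm2 : Γ ≤ 2 ^ m := by
    have h1 : Real.log Γ / Real.log 2 ≤ m := by
      rw [hm]
      exact Nat.le_ceil _
    have h2 : Real.log Γ ≤ m * Real.log 2 := by
      rwa [div_le_iff₀ hlog2] at h1
    have h3 : Real.log Γ ≤ Real.log (2 ^ m) := by
      rwa [Real.log_pow]
    exact (Real.log_le_log_iff (by linarith) (by positivity)).1 h3
  -- the family
  obtain ⟨S, hS⟩ : ∃ S : ((Σ j, Fin (n₁ j)) ⊕ Fin m) → Type u,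
      S = Sum.elim (fun t => σ t.1) (fun _ => ULift.{u} (Fin 2)) := ⟨_, rfl⟩
  subst hS
  have hfin : ∀ j', Finite ((Sum.elim (fun t : (Σ j, Fin (n₁ j)) => σ t.1)
      (fun _ : Fin m => ULift.{u} (Fin 2))) j') := by
    rintro (t | i)
    · change Finite (σ t.1)
      infer_instance
    · change Finite (ULift.{u} (Fin 2))
      infer_instance
  obtain ⟨A', hA'1, hA'2⟩ : ∃ A' : ∀ j', (Sum.elim (fun t : (Σ j, Fin (n₁ j)) => σ t.1)
      (fun _ : Fin m => ULift.{u} (Fin 2))) j' → E,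
      (∀ t, A' (Sum.inl t) = A t.1) ∧ (∀ i, A' (Sum.inr i) = htq2vec.{u} E N) :=
    ⟨fun j' => match j' with
      | Sum.inl t => A t.1
      | Sum.inr _ => htq2vec.{u} E N, fun _ => rfl, fun _ => rfl⟩
  have hvec0 : htq2vec.{u} E N ≠ 0 := by
    intro h
    have h1 := congrFun h ⟨0⟩
    unfold htq2vec at h1
    rw [if_pos rfl] at h1
    exact one_ne_zero h1
  have hA'0 : ∀ j', A' j' ≠ 0 := by
    rintro (t | i)
    · rw [hA'1]
      exact hA t.1
    · rw [hA'2]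
      exact hvec0
  have hz0 : (fun I : (t : (Σ j, Fin (n₂ j))) → κ t.1 => Z * ∏ t, B t.1 (I t)) ≠ 0 := by
    have h3 : ∀ t : (Σ j, Fin (n₂ j)), ∃ i, B t.1 i ≠ 0 := fun t => Function.ne_iff.1 (hB t.1)
    choose I hI using h3
    intro h
    exact mul_ne_zero hZ (Finset.prod_ne_zero_iff.2 fun t _ => hI t) (congrFun h I)
  -- the product of the suprema of the family
  have hprod : ∀ {F : Type} [NormedField F] (τ : E →+* F),
      (∏ j', ⨆ i, ‖τ (A' j' i)‖) = (∏ j, (⨆ k, ‖τ (A j k)‖) ^ n₁ j) *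
        (⨆ i, ‖τ (htq2vec.{u} E N i)‖) ^ m := by
    intro F _ τ
    rw [Fintype.prod_sum_type]
    congr 1
    · have h1 : ∀ t : (Σ j, Fin (n₁ j)), (⨆ i, ‖τ (A' (Sum.inl t) i)‖) =
          ⨆ k, ‖τ (A t.1 k)‖ := by
        intro t
        rw [hA'1]
        rfl
      rw [Finset.prod_congr rfl fun t _ => h1 t, Fintype.prod_sigma]
      refine Finset.prod_congr rfl fun j _ => ?_
      change ∏ _y : Fin (n₁ j), (⨆ k, ‖τ (A j k)‖) = _
      rw [Finset.prod_const, Finset.card_univ, Fintype.card_fin]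
    · have h1 : ∀ i : Fin m, (⨆ k, ‖τ (A' (Sum.inr i) k)‖) =
          ⨆ k, ‖τ (htq2vec.{u} E N k)‖ := by
        intro i
        rw [hA'2]
        rfl
      rw [Finset.prod_congr rfl fun i _ => h1 i, Finset.prod_const, Finset.card_univ,
        Fintype.card_fin]
  have hP0 : ∀ {F : Type} [NormedField F] (τ : E →+* F),
      0 ≤ ∏ j, (⨆ k, ‖τ (A j k)‖) ^ n₁ j := by
    intro F _ τ
    exact Finset.prod_nonneg fun j _ => pow_nonneg (Real.iSup_nonneg fun _ => norm_nonneg _) _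
  have hmain := abs_htq (fun I : (t : (Σ j, Fin (n₂ j))) → κ t.1 => Z * ∏ t, B t.1 (I t)) hz0
    A' hA'0 Γ hΓ (fun s => by
      refine (htq2_tensor_le s κ B n₂ Z).trans ((harch s).trans ?_)
      rw [hprod s]
      refine mul_le_mul_of_nonneg_left ?_ (by linarith)
      exact le_mul_of_one_le_right (hP0 s) (one_le_pow₀ (htq2vec_ge_one s N)))
    (fun p τ => by
      refine (htq2_tensor_le τ κ B n₂ Z).trans ?_
      refine le_trans ?_ (hprod τ).symm.le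
      rcases lt_or_ge (p : ℕ) p₀ with hp | hp
      · refine (hsmall p τ hp).trans ?_
        rw [mul_comm]
        refine mul_le_mul_of_nonneg_left ?_ (hP0 τ)
        refine hm2.trans ?_
        exact pow_le_pow_left₀ (by norm_num)
          (htq2vec_ge_two p τ N hN0 (hNp p p.2.ne_zero hp)) m
      · refine (hbig p τ hp).trans ?_
        exact le_mul_of_one_le_right (hP0 τ) (one_le_pow₀ (htq2vec_ge_one τ N)))
    {pst} (fun _ => γ) (fun _ _ => hγ)
    (fun p hp τ => by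
      rw [Finset.mem_singleton] at hp
      subst hp
      refine (htq2_tensor_le τ κ B n₂ Z).trans ((hpstar τ).trans ?_)
      refine mul_le_mul_of_nonneg_left ?_ hγ.le
      refine le_trans ?_ (hprod τ).symm.le
      exact le_mul_of_one_le_right (hP0 τ) (one_le_pow₀ (htq2vec_ge_one τ N)))
  -- the heights
  have hzh : absHeight (fun I : (t : (Σ j, Fin (n₂ j))) → κ t.1 => Z * ∏ t, B t.1 (I t)) =
      ∑ j, n₂ j * absHeight (B j) := by
    have h1 : (fun I : (t : (Σ j, Fin (n₂ j))) → κ t.1 => Z * ∏ t, B t.1 (I t)) =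
        Z • (fun I : (t : (Σ j, Fin (n₂ j))) → κ t.1 => ∏ t, B t.1 (I t)) := rfl
    rw [h1, absHeight_smul Z hZ, absHeight_prod (fun t : (Σ j, Fin (n₂ j)) => B t.1)
      (fun t => hB t.1), Fintype.sum_sigma]
    refine Finset.sum_congr rfl fun j _ => ?_
    change ∑ _y : Fin (n₂ j), absHeight (B j) = _
    rw [Finset.sum_const, Finset.card_univ, Fintype.card_fin, nsmul_eq_mul]
  have hAh : ∑ j', absHeight (A' j') = ∑ j, n₁ j * absHeight (A j) + m * H := by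
    rw [Fintype.sum_sum_type]
    congr 1
    · have h1 : ∀ t : (Σ j, Fin (n₁ j)), absHeight (A' (Sum.inl t)) = absHeight (A t.1) := by
        intro t
        rw [hA'1]
        rfl
      rw [Finset.sum_congr rfl fun t _ => h1 t, Fintype.sum_sigma]
      refine Finset.sum_congr rfl fun j _ => ?_
      change ∑ _y : Fin (n₁ j), absHeight (A j) = _
      rw [Finset.sum_const, Finset.card_univ, Fintype.card_fin, nsmul_eq_mul]
    · have h1 : ∀ i : Fin m, absHeight (A' (Sum.inr i)) = H := by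
        intro i
        rw [hA'2, hH]
        rfl
      rw [Finset.sum_congr rfl fun i _ => h1 i, Finset.sum_const, Finset.card_univ,
        Fintype.card_fin, nsmul_eq_mul]
  rw [hzh, hAh, Finset.sum_singleton] at hmain
  have hfinal : Real.log Γ + m * H ≤ (1 + H / Real.log 2 + H) * (Real.log Γ + 1) := by
    have h1 : (m : ℝ) * H ≤ (Real.log Γ / Real.log 2 + 1) * H :=
      mul_le_mul_of_nonneg_right hm1 hH0
    have h2 : (Real.log Γ / Real.log 2 + 1) * H = Real.log Γ * (H / Real.log 2) + H := by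
      ring
    have h3 : 0 ≤ H / Real.log 2 := by positivity
    have h4 : 0 ≤ Real.log Γ * H := mul_nonneg hlogΓ hH0
    nlinarith
  linarith

end Pool.Agent.LLX
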