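import Pool.Agent.LLX.Loc

/-!
# LLX LDET: the determinant of the jets of the monomials

`loc_det`. Put `u i = ∏ q, linY q ^ (k * ω q)`. By `eps_mono` and `ord_mulmat` the entry
`((i, s), c)` of `Gh Y g` is `∑_t mulMat (u i) s t * coeff t (eps_i (monomial (g c) 1))`. By
`loc_mem` (for `monomial (g c) 1 - ∑ ...`) and `loc_E`,
`coeff t (eps_i (monomial (g c) 1)) = ∑_t' zMat_i t t' * τ (Cm (i, t') c)` for `t` in `JI d j`. So
`Gh Y g = D₁ * D₂ * Cm.map τ` with the block diagonal matrices `D₁` (blocks `mulMat d j (u i)`) and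
`D₂` (blocks `zMat_i`) (`Matrix.blockDiagonal` with the index type `JI × Fin M`, reindexed by
`Equiv.prodComm`; `Matrix.det_blockDiagonal`). Use `det_mulMat`
(`constantCoeff (u i) = ∏ q, (c i q * τ (lin (l q) (a (F^[q] (x i))))) ^ (k * ω q)` by
`linY_const`), `loc_z` and `RingHom.map_det`. The inverses `V` come from `exists_V`.

`loc_est`. Write `A i q = ⨆ w, ‖τ (a (F^[q] (x i)) w)‖` and `B i = ⨆ J, ‖τ (plu (v i) J)‖`, both
positive. `Expn.val` and the hypotheses on the constant coefficients give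
`‖c i q‖ * A i q = 1` (the maximum of `‖c i q‖ * ‖τ (a .. w)‖` over `w` is `1`), and `Expn.one` with
`Expn.tan` gives `1 = ‖lam i‖ * ‖τ (plu (v i) J)‖ ≤ ‖lam i‖ * B i`. In `loc_det` take norms:
`‖det Gh‖ = ‖τ det Cm‖ * ∏_i ((∏_q ((A i q)⁻¹ * ‖τ lin_q‖) ^ (k ω q)) ^ bz *
((A i 0) ^ (d+1) * ‖τ lin_0‖⁻¹ ^ (d+1) * ‖lam i‖ * ‖τ (pv ..)‖) ^ bo)`; multiply by
`∏_i ((∏_q A i q ^ (k ω q bz)) * B i ^ bo)` and use `‖lam i‖ * B i ≥ 1`; `A i 0` is the supremum
for `a (x i)`. `Zd` collects the algebraic numbers.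
-/

open MvPolynomial

namespace Pool.Agent.LLX

open Pool.Agent.Helper63.SAND

variable {E Ω W : Type*} [Field E] [Fintype W] {n d : ℕ}

private theorem ldet_block {J K : Type*} [Fintype J] [DecidableEq J] [Field K] {M : ℕ}
    (B : Fin M → Matrix J J K) :
    (Matrix.of fun r c : Fin M × J => if r.1 = c.1 then B r.1 r.2 c.2 else 0).det =
      ∏ i, (B i).det := by
  have h : (Matrix.of fun r c : Fin M × J => if r.1 = c.1 then B r.1 r.2 c.2 else 0) =
      (Matrix.blockDiagonal B).submatrix (Equiv.prodComm _ _) (Equiv.prodComm _ _) := by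
    ext r c
    rfl
  rw [h, Matrix.det_submatrix_equiv_self, Matrix.det_blockDiagonal]

private theorem ldet_block_mul {J K : Type*} [Fintype J] [Field K] {M : ℕ} {C : Type*}
    (B : Fin M → Matrix J J K) (X : Matrix (Fin M × J) C K) (i : Fin M) (s : J) (c : C) :
    ((Matrix.of fun r c : Fin M × J => if r.1 = c.1 then B r.1 r.2 c.2 else 0) * X) (i, s) c =
      ∑ t, B i s t * X (i, t) c := by
  rw [Matrix.mul_apply, Fintype.sum_prod_type, Finset.sum_eq_single i]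
  · refine Finset.sum_congr rfl fun t _ => ?_
    simp only [Matrix.of_apply, if_true]
  · intro i' _ hi'
    refine Finset.sum_eq_zero fun t _ => ?_
    simp only [Matrix.of_apply]
    rw [if_neg (Ne.symm hi'), zero_mul]
  · intro h
    exact absurd (Finset.mem_univ _) h

theorem loc_det {K : Type*} [Field K] {M : ℕ} (a : Ω → W → E) (F : Ω → Ω) (j : ℕ) (hj : 1 ≤ j)
    (τ : E →+* K) (x : Fin M → Ω) (v : Fin M → Fin (d + 1) → W → E)
    (Y : Fin M → Fin (n + 1) → W → MvPolynomial (Fin d) K) (c : Fin M → Fin (n + 1) → K)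
    (lam : Fin M → K) (l : Fin (n + 1) → W → E)
    (hE : ∀ i, Expn a F n j d τ (x i) (v i) (Y i) (c i) (lam i)) (hadm : ∀ i, Adm a F l (x i))
    (I : Fin M → Fin d → W) (ep : Fin M → MvPolynomial (Fin (n + 1) × W) E)
    (he1 : ∀ i, ep i - 1 ∈ mI a F l (x i) ^ j)
    (he2 : ∀ i i', i ≠ i' → ep i ∈ mI a F l (x i') ^ j)
    (ω : Fin (n + 1) → ℕ) (k : ℕ) (g : Fin M × JI d j → (Fin (n + 1) × W →₀ ℕ))
    (Cm : Matrix (Fin M × JI d j) (Fin M × JI d j) E)
    (hg : ∀ c i, ∑ w, g c (i, w) = k * ω i)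
    (hCm : ∀ c, monomial (g c) 1 - ∑ r, C (Cm r c) * Er a F l x I ep r ∈
        VI a F l ⊔ (⨅ i, mI a F l (x i)) ^ j) :
    (Gh Y g).det = τ Cm.det * ∏ i,
      ((∏ q : Fin (n + 1), (c i q * τ (lin (l q) (a (F^[q] (x i))))) ^ (k * ω q)) ^ bz d j *
        ((c i 0 * τ (lin (l 0) (a (x i))))⁻¹ ^ (d + 1) *
          (lam i * τ (pv (l 0) (I i) (v i)))) ^ bo d j) := by
  have hVex := fun i => exists_V a F j τ (x i) (v i) (Y i) (c i) (lam i) l (hE i) (hadm i)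
  choose V hV using hVex
  have hV' : ∀ i q, linY τ l (Y i) q * V i q - 1 ∈ OrdI K d j := fun i q =>
    ord_anti (Nat.le_succ j) (hV i q)
  set u : Fin M → MvPolynomial (Fin d) K := fun i => ∏ q, linY τ l (Y i) q ^ (k * ω q) with hu
  set D1 : Matrix (Fin M × JI d j) (Fin M × JI d j) K := Matrix.of fun r c =>
    if r.1 = c.1 then mulMat d j (u r.1) r.2 c.2 else 0 with hD1
  set Z : Fin M → Matrix (JI d j) (JI d j) K := fun i =>
    zMat j (fun b => eps τ (Y i) (V i) (zc a F l (x i) (I i) b)) with hZ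
  set D2 : Matrix (Fin M × JI d j) (Fin M × JI d j) K := Matrix.of fun r c =>
    if r.1 = c.1 then Z r.1 r.2 c.2 else 0 with hD2
  have hcoef : ∀ (i : Fin M) (t : JI d j) (cc : Fin M × JI d j),
      coeff t.1 (eps τ (Y i) (V i) (monomial (g cc) 1)) =
        ∑ t', Z i t t' * τ (Cm (i, t') cc) := by
    intro i t cc
    have h1 := loc_mem a F j hj τ x v Y c lam l hE hadm V hV i _ (hCm cc) t.1 t.2
    rw [map_sub, coeff_sub, sub_eq_zero, map_sum, coeff_sum] at h1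
    rw [h1, Fintype.sum_prod_type, Finset.sum_eq_single i]
    · refine Finset.sum_congr rfl fun t' _ => ?_
      have h2 : eps τ (Y i) (V i) (C (Cm (i, t') cc)) = C (τ (Cm (i, t') cc)) := by
        unfold eps
        rw [coe_eval₂Hom, eval₂_C]
        rfl
      rw [map_mul, h2, coeff_C_mul,
        loc_E a F j hj τ x v Y c lam l hE hadm V hV I ep he1 he2 i i t t', if_pos rfl, mul_comm]
    · intro i' _ hi'
      refine Finset.sum_eq_zero fun t' _ => ?_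
      have h2 : eps τ (Y i) (V i) (C (Cm (i', t') cc)) = C (τ (Cm (i', t') cc)) := by
        unfold eps
        rw [coe_eval₂Hom, eval₂_C]
        rfl
      rw [map_mul, h2, coeff_C_mul,
        loc_E a F j hj τ x v Y c lam l hE hadm V hV I ep he1 he2 i i' t t',
        if_neg (Ne.symm hi'), mul_zero]
    · intro h
      exact absurd (Finset.mem_univ _) h
  have hGh : Gh Y g = D1 * (D2 * Cm.map τ) := by
    ext r cc
    obtain ⟨i, s⟩ := r
    rw [hD1, ldet_block_mul (fun i => mulMat d j (u i))]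
    have h3 : Gh Y g (i, s) cc = coeff s.1 (u i * eps τ (Y i) (V i) (monomial (g cc) 1)) := by
      unfold Gh
      simp only [Matrix.of_apply]
      have h4 := eps_mono j τ (Y i) l (V i) (hV' i) (fun q => k * ω q) (g cc) (hg cc) s.1 s.2
      rw [coeff_sub, sub_eq_zero] at h4
      exact h4
    rw [h3, ord_mulmat]
    refine Finset.sum_congr rfl fun t _ => ?_
    rw [hD2, ldet_block_mul Z, hcoef]
    rfl
  have hdet1 : D1.det = ∏ i, (mulMat d j (u i)).det :=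
    ldet_block fun i => mulMat d j (u i)
  have hdet2 : D2.det = ∏ i, (Z i).det := ldet_block Z
  have hdet3 : (Cm.map τ).det = τ Cm.det := (RingHom.map_det τ Cm).symm
  have hperm : (∏ i, (mulMat d j (u i)).det) * ((∏ i, (Z i).det) * τ Cm.det) =
      τ Cm.det * ∏ i, ((mulMat d j (u i)).det * (Z i).det) := by
    rw [Finset.prod_mul_distrib]
    ring
  rw [hGh, Matrix.det_mul, Matrix.det_mul, hdet1, hdet2, hdet3, hperm]
  congr 1
  refine Finset.prod_congr rfl fun i _ => ?_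
  rw [det_mulMat, hZ]
  simp only
  rw [loc_z a F j hj τ (x i) (v i) (Y i) (c i) (lam i) l (hE i) (hadm i) (V i) (hV i) (I i), hu]
  simp only
  rw [map_prod]
  simp only [map_pow]
  congr 2
  refine Finset.prod_congr rfl fun q _ => ?_
  rw [linY_const a F j τ (x i) (v i) (Y i) (c i) (lam i) l (hE i) q]

/-- The algebraic number to which the product formula is applied. -/
noncomputable def Zd {M : ℕ} (a : Ω → W → E) (F : Ω → Ω) (j : ℕ) (x : Fin M → Ω)
    (v : Fin M → Fin (d + 1) → W → E) (l : Fin (n + 1) → W → E) (I : Fin M → Fin d → W)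
    (ω : Fin (n + 1) → ℕ) (k : ℕ) (D : E) : E :=
  D * ∏ i, ((∏ q : Fin (n + 1), lin (l q) (a (F^[q] (x i))) ^ (k * ω q * bz d j)) *
    ((lin (l 0) (a (x i)))⁻¹ ^ ((d + 1) * bo d j) * pv (l 0) (I i) (v i) ^ bo d j))

theorem loc_est {K : Type*} [NormedField K] {M : ℕ} (a : Ω → W → E) (ha0 : ∀ x, a x ≠ 0)
    (F : Ω → Ω) (j : ℕ) (hj : 1 ≤ j)
    (τ : E →+* K) (x : Fin M → Ω) (v : Fin M → Fin (d + 1) → W → E)
    (Y : Fin M → Fin (n + 1) → W → MvPolynomial (Fin d) K) (c : Fin M → Fin (n + 1) → K)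
    (lam : Fin M → K) (l : Fin (n + 1) → W → E)
    (hE : ∀ i, Expn a F n j d τ (x i) (v i) (Y i) (c i) (lam i)) (hadm : ∀ i, Adm a F l (x i))
    (hY1 : ∀ i q w, ‖constantCoeff (Y i q w)‖ ≤ 1)
    (hY2 : ∀ i q, ∃ w, ‖constantCoeff (Y i q w)‖ = 1)
    (I : Fin M → Fin d → W) (ep : Fin M → MvPolynomial (Fin (n + 1) × W) E)
    (he1 : ∀ i, ep i - 1 ∈ mI a F l (x i) ^ j)
    (he2 : ∀ i i', i ≠ i' → ep i ∈ mI a F l (x i') ^ j)
    (ω : Fin (n + 1) → ℕ) (k : ℕ) (g : Fin M × JI d j → (Fin (n + 1) × W →₀ ℕ))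
    (Cm : Matrix (Fin M × JI d j) (Fin M × JI d j) E)
    (hg : ∀ c i, ∑ w, g c (i, w) = k * ω i)
    (hCm : ∀ c, monomial (g c) 1 - ∑ r, C (Cm r c) * Er a F l x I ep r ∈
        VI a F l ⊔ (⨅ i, mI a F l (x i)) ^ j) :
    ‖τ (Zd a F j x v l I ω k Cm.det)‖ * ∏ i, (⨆ w, ‖τ (a (x i) w)‖) ^ ((d + 1) * bo d j) ≤
      ‖(Gh Y g).det‖ * ((∏ i, ∏ q : Fin (n + 1),
        (⨆ w, ‖τ (a (F^[q] (x i)) w)‖) ^ (k * ω q * bz d j)) *
          ∏ i, (⨆ J, ‖τ (plu (v i) J)‖) ^ bo d j) := by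
  rw [loc_det a F j hj τ x v Y c lam l hE hadm I ep he1 he2 ω k g Cm hg hCm]
  -- the local heights
  set A : Fin M → Fin (n + 1) → ℝ := fun i q => ⨆ w, ‖τ (a (F^[q] (x i)) w)‖ with hA
  set B : Fin M → ℝ := fun i => ⨆ J, ‖τ (plu (v i) J)‖ with hB
  have hc0 : ∀ i q, 0 < ‖c i q‖ := fun i q => norm_pos_iff.2 ((hE i).cne q)
  have hAc : ∀ i q, ‖c i q‖ * A i q = 1 := by
    intro i q
    obtain ⟨w1, hw1⟩ := hY2 i q
    have hne : Nonempty W := ⟨w1⟩
    rw [(hE i).val, norm_mul] at hw1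
    have h1 : A i q = ‖c i q‖⁻¹ := by
      refine le_antisymm (ciSup_le fun w => ?_) ?_
      · have h2 := hY1 i q w
        rw [(hE i).val, norm_mul] at h2
        rw [← one_div, le_div_iff₀ (hc0 i q), mul_comm]
        exact h2
      · have h3 : ‖τ (a (F^[q] (x i)) w1)‖ = ‖c i q‖⁻¹ := eq_inv_of_mul_eq_one_right hw1
        rw [← h3]
        exact le_ciSup (f := fun w => ‖τ (a (F^[q] (x i)) w)‖) (Set.finite_range _).bddAbove w1
    rw [h1, mul_inv_cancel₀ (hc0 i q).ne']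
  have hA0 : ∀ i q, 0 < A i q := by
    intro i q
    by_contra h
    have := mul_nonpos_of_nonneg_of_nonpos (hc0 i q).le (not_lt.1 h)
    rw [hAc] at this
    linarith
  have hcA : ∀ i q, ‖c i q‖ = (A i q)⁻¹ := fun i q => eq_inv_of_mul_eq_one_left (hAc i q)
  have hlB : ∀ i, 1 ≤ ‖lam i‖ * B i := by
    intro i
    obtain ⟨J, hJ⟩ := (hE i).one
    have h1 := (hE i).tan J
    rw [hJ] at h1
    have h2 : (1 : ℝ) = ‖lam i‖ * ‖τ (plu (v i) J)‖ := by
      rw [← norm_mul, ← h1, norm_one]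
    rw [h2]
    refine mul_le_mul_of_nonneg_left ?_ (norm_nonneg _)
    exact le_ciSup (f := fun J => ‖τ (plu (v i) J)‖) (Set.finite_range _).bddAbove J
  have hA00 : ∀ i, (⨆ w, ‖τ (a (x i) w)‖) = A i 0 := fun i => rfl
  simp only [hA00]
  unfold Zd
  simp only [map_mul, map_prod, map_pow, map_inv₀, norm_mul, norm_prod, norm_pow, norm_inv]
  have hBnn : ∀ i, 0 ≤ B i := by
    intro i
    by_contra h
    have := mul_nonpos_of_nonneg_of_nonpos (norm_nonneg (lam i)) (not_le.1 h).le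
    linarith [hlB i]
  have key : ∀ i, ((∏ q : Fin (n + 1), ‖τ (lin (l q) (a (F^[q] (x i))))‖ ^ (k * ω q * bz d j)) *
      ((‖τ (lin (l 0) (a (x i)))‖⁻¹ ^ ((d + 1) * bo d j)) *
        ‖τ (pv (l 0) (I i) (v i))‖ ^ bo d j)) * A i 0 ^ ((d + 1) * bo d j) ≤
      ((∏ q : Fin (n + 1), (‖c i q‖ * ‖τ (lin (l q) (a (F^[q] (x i))))‖) ^ (k * ω q)) ^ bz d j *
        ((‖c i 0‖ * ‖τ (lin (l 0) (a (x i)))‖)⁻¹ ^ (d + 1) *
          (‖lam i‖ * ‖τ (pv (l 0) (I i) (v i))‖)) ^ bo d j) *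
        ((∏ q : Fin (n + 1), A i q ^ (k * ω q * bz d j)) * B i ^ bo d j) := by
    intro i
    have e1 : (∏ q : Fin (n + 1), (‖c i q‖ * ‖τ (lin (l q) (a (F^[q] (x i))))‖) ^ (k * ω q)) ^
        bz d j * ∏ q : Fin (n + 1), A i q ^ (k * ω q * bz d j) =
        ∏ q : Fin (n + 1), ‖τ (lin (l q) (a (F^[q] (x i))))‖ ^ (k * ω q * bz d j) := by
      rw [← Finset.prod_pow, ← Finset.prod_mul_distrib]
      refine Finset.prod_congr rfl fun q _ => ?_
      rw [← pow_mul, ← mul_pow]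
      congr 1
      have := hAc i q
      calc ‖c i q‖ * ‖τ (lin (l q) (a (F^[q] (x i))))‖ * A i q =
            (‖c i q‖ * A i q) * ‖τ (lin (l q) (a (F^[q] (x i))))‖ := by ring
        _ = _ := by rw [this, one_mul]
    have e2 : ((‖c i 0‖ * ‖τ (lin (l 0) (a (x i)))‖)⁻¹ ^ (d + 1) *
          (‖lam i‖ * ‖τ (pv (l 0) (I i) (v i))‖)) ^ bo d j * B i ^ bo d j =
        (A i 0 ^ ((d + 1) * bo d j) * ‖τ (lin (l 0) (a (x i)))‖⁻¹ ^ ((d + 1) * bo d j) *
          ‖τ (pv (l 0) (I i) (v i))‖ ^ bo d j) * (‖lam i‖ * B i) ^ bo d j := by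
      rw [hcA i 0, mul_inv, inv_inv, mul_pow, pow_mul, pow_mul, ← mul_pow, ← mul_pow, ← mul_pow,
        ← mul_pow]
      ring
    set P1 := ∏ q : Fin (n + 1), ‖τ (lin (l q) (a (F^[q] (x i))))‖ ^ (k * ω q * bz d j) with hP1
    have hP1n : 0 ≤ P1 := Finset.prod_nonneg fun q _ => by positivity
    calc _ = P1 * (A i 0 ^ ((d + 1) * bo d j) * ‖τ (lin (l 0) (a (x i)))‖⁻¹ ^ ((d + 1) * bo d j) *
          ‖τ (pv (l 0) (I i) (v i))‖ ^ bo d j) * 1 := by ring
      _ ≤ P1 * (A i 0 ^ ((d + 1) * bo d j) * ‖τ (lin (l 0) (a (x i)))‖⁻¹ ^ ((d + 1) * bo d j) *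
          ‖τ (pv (l 0) (I i) (v i))‖ ^ bo d j) * (‖lam i‖ * B i) ^ bo d j := by
          have := (hA0 i 0).le
          refine mul_le_mul_of_nonneg_left (one_le_pow₀ (hlB i)) (by positivity)
      _ = P1 * ((A i 0 ^ ((d + 1) * bo d j) * ‖τ (lin (l 0) (a (x i)))‖⁻¹ ^ ((d + 1) * bo d j) *
          ‖τ (pv (l 0) (I i) (v i))‖ ^ bo d j) * (‖lam i‖ * B i) ^ bo d j) := by ring
      _ = _ := by rw [← e2, ← e1]; ring
  calc _ = ‖τ Cm.det‖ * ∏ i, (((∏ q : Fin (n + 1),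
        ‖τ (lin (l q) (a (F^[q] (x i))))‖ ^ (k * ω q * bz d j)) *
      ((‖τ (lin (l 0) (a (x i)))‖⁻¹ ^ ((d + 1) * bo d j)) *
        ‖τ (pv (l 0) (I i) (v i))‖ ^ bo d j)) * A i 0 ^ ((d + 1) * bo d j)) := by
        rw [Finset.prod_mul_distrib (f := fun i => ((∏ q : Fin (n + 1),
        ‖τ (lin (l q) (a (F^[q] (x i))))‖ ^ (k * ω q * bz d j)) *
      ((‖τ (lin (l 0) (a (x i)))‖⁻¹ ^ ((d + 1) * bo d j)) *
        ‖τ (pv (l 0) (I i) (v i))‖ ^ bo d j))), ← mul_assoc]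
    _ ≤ ‖τ Cm.det‖ * ∏ i, (((∏ q : Fin (n + 1), (‖c i q‖ *
          ‖τ (lin (l q) (a (F^[q] (x i))))‖) ^ (k * ω q)) ^ bz d j *
        ((‖c i 0‖ * ‖τ (lin (l 0) (a (x i)))‖)⁻¹ ^ (d + 1) *
          (‖lam i‖ * ‖τ (pv (l 0) (I i) (v i))‖)) ^ bo d j) *
        ((∏ q : Fin (n + 1), A i q ^ (k * ω q * bz d j)) * B i ^ bo d j)) := by
        refine mul_le_mul_of_nonneg_left ?_ (norm_nonneg _)
        refine Finset.prod_le_prod (fun i _ => ?_) fun i _ => key i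
        have := (hA0 i 0).le
        refine mul_nonneg (mul_nonneg (Finset.prod_nonneg fun q _ => by positivity)
          (by positivity)) (by positivity)
    _ = _ := by
        rw [Finset.prod_mul_distrib, Finset.prod_mul_distrib (f := fun i =>
          ∏ q : Fin (n + 1), A i q ^ (k * ω q * bz d j)), ← mul_assoc]

end Pool.Agent.LLX
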