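import Pool.Agent.LLX.Defs

/-!
# LLX SMO: uniform smoothness data

Proof. The ideal `I` spanned by the forms vanishing on `a` is finitely generated (Noetherian), by
finitely many forms `Fs i` (every element of `I` is a sum of multiples of forms vanishing on `a`;
take the forms occurring in a finite set of generators).
Fix `x`, and `c`, `H` from `SmD` (`c = card W - 1 - d` does not depend on `x`; if `Ω` is empty
take `c = card W - 1 - d` ... then `card` needs `d + 1 ≤ card W`: this is why `Ω` is assumed to
be nonempty).
`minor`: each `H i` is in `I`, so `H i = ∑ A i u * Fs u`, and the differential of `H i` at `a x`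
is `∑ (A i u)(a x) d(Fs u)` (`Fs u` vanishes at `a x`). So the `d(Fs u)(a x)` span a space of
dimension at least `c`; choose `t : Fin c → Fin s` with `d(Fs (t i))(a x)` linearly independent
(a basis of the span of the `d(H i)` extended / `exists_linearIndependent'`; more precisely among
the `d(Fs u)` there are `c` linearly independent ones). By Euler's formula
`∑_w a x w ∂_w (Fs (t i)) (a x) = deg · Fs (t i) (a x) = 0`, so if `a x w₀ ≠ 0` the column `w₀` of
the `c × W` matrix `(∂_w (Fs (t i)) (a x))` is a linear combination of the other columns, hence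
the matrix without the column `w₀` has rank `c`, and some `c × c` minor with columns different
from `w₀` is not zero. Number these columns by `Fin c`, `w₀` by `Fin 1` and the remaining
`card W - 1 - c = d` columns by `Fin d` to get `σ`.
`gen`: let `t` be with linearly independent differentials. By `SmD` (last clause, for
`P = Fs (t i)`) there are `q_i` with `q_i(a x) ≠ 0` and `q_i * Fs (t i) = ∑ B i l * H l`.
Differentiate at `a x`: `q_i(a x) d(Fs (t i)) = ∑ B i l (a x) dH l` (`H l`, `Fs (t i)` vanish at
`a x`), so the matrix `B(a x)` is invertible (it maps the independent family `dH` onto an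
independent family). Multiply by the adjugate of `B`: `det B * H l ∈ Ideal.span (range Fs∘t)`.
Given `P` with `q * P ∈ span (range H)`, `(det B * q) * P ∈ span`, `(det B * q)(a x) ≠ 0`.
`q` must be a form: replace `det B * q` by its homogeneous component which does not vanish at
`a x`: since `P` and the `Fs (t i)` are homogeneous, the homogeneous components of
`(det B * q) * P` are in the ideal as well (the ideal spanned by the forms `Fs (t i)` is
homogeneous: `Ideal.homogeneous_span`; or multiply out), and the component of degree `m + k` is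
`(component m of det B * q) * P`.
-/

open MvPolynomial

namespace Pool.Agent.LLX

open Pool.Agent.Helper63.SAND

attribute [local instance] MvPolynomial.gradedAlgebra

section

variable {E Ω W : Type*} [Field E]

/-- The differential at a point. -/
private noncomputable def smoD (z : W → E) : MvPolynomial W E →ₗ[E] (W → E) where
  toFun := fun P w => eval z (pderiv w P)
  map_add' := by
    intro P Q
    funext w
    simp
  map_smul' := by
    intro c P
    funext w
    simp [MvPolynomial.smul_eq_C_mul]

private theorem smoD_mul (z : W → E) (P Q : MvPolynomial W E) :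
    smoD z (P * Q) = eval z P • smoD z Q + eval z Q • smoD z P := by
  funext w
  simp only [smoD, LinearMap.coe_mk, AddHom.coe_mk, Pi.add_apply, Pi.smul_apply, smul_eq_mul,
    Derivation.leibniz, map_add, map_mul]

private lemma smo_dec (P : MvPolynomial W E) (i : ℕ) :
    ((DirectSum.decompose (homogeneousSubmodule W E) P i :
      homogeneousSubmodule W E i) : MvPolynomial W E) = homogeneousComponent i P :=
  decomposition.decompose'_apply P i

private lemma smo_comp_mul (P Q : MvPolynomial W E) {i j : ℕ} (hQ : Q.IsHomogeneous j) :
    homogeneousComponent (i + j) (P * Q) = homogeneousComponent i P * Q := by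
  have h := DirectSum.coe_decompose_mul_add_of_right_mem (homogeneousSubmodule W E) (a := P)
    (i := i) ((mem_homogeneousSubmodule j Q).2 hQ)
  rwa [smo_dec, smo_dec] at h

/-- The differential of an element of an ideal whose generators vanish at the point. -/
private theorem smoD_span (z : W → E) {ι : Type*} (F : ι → MvPolynomial W E)
    (hF : ∀ i, eval z (F i) = 0) (P : MvPolynomial W E) (hP : P ∈ Ideal.span (Set.range F)) :
    eval z P = 0 ∧ smoD z P ∈ Submodule.span E (Set.range fun i => smoD z (F i)) := by
  refine Submodule.span_induction (p := fun P _ => eval z P = 0 ∧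
    smoD z P ∈ Submodule.span E (Set.range fun i => smoD z (F i))) ?_ ?_ ?_ ?_ hP
  · rintro _ ⟨i, rfl⟩
    exact ⟨hF i, Submodule.subset_span ⟨i, rfl⟩⟩
  · exact ⟨map_zero _, by rw [map_zero]; exact Submodule.zero_mem _⟩
  · intro P Q _ _ h1 h2
    refine ⟨by rw [map_add, h1.1, h2.1, add_zero], ?_⟩
    rw [map_add]
    exact Submodule.add_mem _ h1.2 h2.2
  · intro c P _ h
    rw [smul_eq_mul]
    refine ⟨by rw [map_mul, h.1, mul_zero], ?_⟩
    rw [smoD_mul, h.1, zero_smul, add_zero]
    exact Submodule.smul_mem _ _ h.2

/-- `c` independent rows of length `card W` such that one coordinate is determined by the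
others. -/
private theorem smo_minor [Fintype W] {c d : ℕ} (hcard : c + d + 1 = Fintype.card W)
    (N : Fin c → W → E) (hN : LinearIndependent E N) (z : W → E) (w₀ : W) (hz : z w₀ ≠ 0)
    (hE : ∀ i, ∑ w, z w * N i w = 0) :
    ∃ σ : (Fin 1 ⊕ (Fin c ⊕ Fin d)) ≃ W, σ (Sum.inl 0) = w₀ ∧
      (Matrix.of fun i l : Fin c => N i (σ (Sum.inr (Sum.inl l)))).det ≠ 0 := by
  classical
  -- the rows without the column `w₀` are independent
  set N' : Matrix (Fin c) {w : W // w ≠ w₀} E := Matrix.of fun i w => N i w with hN'
  have h1 : LinearIndependent E (fun i => N' i) := by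
    rw [Fintype.linearIndependent_iff]
    intro g hg
    rw [Fintype.linearIndependent_iff] at hN
    refine hN g ?_
    have h2 : ∀ w : W, w ≠ w₀ → ∑ i, g i * N i w = 0 := by
      intro w hw
      have := congrFun hg ⟨w, hw⟩
      simpa [hN', Finset.sum_apply] using this
    have h3 : ∑ w, z w * ∑ i, g i * N i w = 0 := by
      calc ∑ w, z w * ∑ i, g i * N i w = ∑ i, g i * ∑ w, z w * N i w := by
            simp only [Finset.mul_sum]
            rw [Finset.sum_comm]
            refine Finset.sum_congr rfl fun i _ => Finset.sum_congr rfl fun w _ => ?_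
            ring
        _ = 0 := by simp [hE]
    rw [Finset.sum_eq_single w₀ (fun w _ hw => by rw [h2 w hw, mul_zero])
      (fun h => absurd (Finset.mem_univ _) h)] at h3
    have h4 : ∑ i, g i * N i w₀ = 0 := (mul_eq_zero.1 h3).resolve_left hz
    funext w
    rw [Finset.sum_apply, Pi.zero_apply]
    simp only [Pi.smul_apply, smul_eq_mul]
    by_cases hw : w = w₀
    · rw [hw]; exact h4
    · exact h2 w hw
  -- `c` independent columns
  obtain ⟨κ, e, hinj, hspan, hli⟩ := exists_linearIndependent' E
    (fun w : {w : W // w ≠ w₀} => fun i => N' i w)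
  have : Finite κ := Finite.of_injective e hinj
  let _ := Fintype.ofFinite κ
  have hrank : Module.finrank E (Submodule.span E (Set.range
      (fun w : {w : W // w ≠ w₀} => fun i => N' i w))) = c := by
    have h5 : N'.rank = c := by
      have := LinearIndependent.rank_matrix h1
      rwa [Fintype.card_fin] at this
    rw [Matrix.rank_eq_finrank_span_cols] at h5
    exact h5
  have hκ : Fintype.card κ = c := by
    rw [← hrank, ← hspan]
    exact (finrank_span_eq_card hli).symm
  let φ : Fin c ≃ κ := (Fintype.equivFinOfCardEq hκ).symm
  set l : Fin c → {w : W // w ≠ w₀} := fun i => e (φ i) with hl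
  have hlinj : Function.Injective l := hinj.comp φ.injective
  have hdet : (Matrix.of fun i k : Fin c => N' i (l k)).det ≠ 0 := by
    have h6 : LinearIndependent E (fun k : Fin c => fun i => N' i (l k)) :=
      hli.comp φ φ.injective
    have h7 : LinearIndependent E (Matrix.of fun k i : Fin c => N' i (l k)).row := h6
    rw [Matrix.linearIndependent_rows_iff_isUnit, Matrix.isUnit_iff_isUnit_det] at h7
    have h8 : (Matrix.of fun i k : Fin c => N' i (l k)) =
      (Matrix.of fun k i : Fin c => N' i (l k)).transpose := rfl
    rw [h8, Matrix.det_transpose]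
    exact h7.ne_zero
  -- the numbering
  let g : Fin 1 ⊕ Fin c → W := Sum.elim (fun _ => w₀) (fun k => (l k : W))
  have hg : Function.Injective g := by
    rintro (x | x) (y | y) h
    · rw [Subsingleton.elim x y]
    · exact absurd h (Ne.symm (l y).2)
    · exact absurd h (l x).2
    · exact congrArg Sum.inr (hlinj (Subtype.ext h))
  have hcompl : Fintype.card ((Set.range g)ᶜ : Set W) = d := by
    rw [Fintype.card_compl_set, Set.card_range_of_injective hg, Fintype.card_sum,
      Fintype.card_fin, Fintype.card_fin]
    omega
  let σ : (Fin 1 ⊕ (Fin c ⊕ Fin d)) ≃ W :=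
    ((Equiv.sumAssoc _ _ _).symm.trans
      ((Equiv.ofInjective g hg).sumCongr (Fintype.equivFinOfCardEq hcompl).symm)).trans
      (Equiv.Set.sumCompl (Set.range g))
  refine ⟨σ, rfl, ?_⟩
  exact hdet

end

theorem smo {E Ω W : Type*} [Field E] [CharZero E] [Fintype W] [Nonempty Ω] (a : Ω → W → E)
    (d : ℕ) (h : SmD a d) :
    ∃ (c s : ℕ) (Fs : Fin s → MvPolynomial W E), Jac a c d Fs := by
  classical
  set G : Set (MvPolynomial W E) := {P | (∃ k, P.IsHomogeneous k) ∧ Van a P} with hG
  obtain ⟨S, hS1, hS2⟩ := (Submodule.fg_span_iff_fg_span_finset_subset (R := MvPolynomial W E)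
    G).1 (IsNoetherian.noetherian _)
  obtain ⟨x₀⟩ := ‹Nonempty Ω›
  obtain ⟨c, -, hc, -⟩ := h x₀
  set Fs : Fin S.card → MvPolynomial W E := fun i => (S.equivFin.symm i : MvPolynomial W E)
    with hFs
  have hrange : Set.range Fs = (S : Set (MvPolynomial W E)) := by
    ext P
    constructor
    · rintro ⟨i, rfl⟩
      exact (S.equivFin.symm i).2
    · intro hP
      exact ⟨S.equivFin ⟨P, hP⟩, by rw [hFs]; simp⟩
  have hspan : Ideal.span (Set.range Fs) = Ideal.span G := by
    rw [hrange]
    exact hS2.symm
  have hmem : ∀ i, Fs i ∈ G := fun i => hS1 (hrange ▸ ⟨i, rfl⟩)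
  have hvan : ∀ i, Van a (Fs i) := fun i => (hmem i).2
  refine ⟨c, S.card, Fs, hc, fun i => (hmem i).1, hvan, ?_, ?_⟩
  · intro x w₀ hw₀
    obtain ⟨c', H, hc', hH1, hH2, hH3, -⟩ := h x
    obtain rfl : c' = c := by omega
    -- the differentials of the `H i` are combinations of those of the `Fs u`
    have h1 : ∀ i, smoD (a x) (H i) ∈ Submodule.span E
        (Set.range fun u => smoD (a x) (Fs u)) := by
      intro i
      refine (smoD_span (a x) Fs (fun u => hvan u x) (H i) ?_).2
      rw [hspan]
      exact Ideal.subset_span ⟨hH1 i, hH2 i⟩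
    obtain ⟨κ, e, hinj, hsp, hli⟩ := exists_linearIndependent' E
      (fun u => smoD (a x) (Fs u))
    have : Finite κ := Finite.of_injective e hinj
    let _ := Fintype.ofFinite κ
    have hcκ : c' ≤ Fintype.card κ := by
      have h2 : LinearIndependent E fun i => smoD (a x) (H i) := hH3
      have h3 : Submodule.span E (Set.range fun i => smoD (a x) (H i)) ≤
          Submodule.span E (Set.range fun u => smoD (a x) (Fs u)) := by
        rw [Submodule.span_le]
        rintro _ ⟨i, rfl⟩
        exact h1 i
      have h4 := Submodule.finrank_mono h3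
      rw [finrank_span_eq_card h2, Fintype.card_fin, ← hsp, finrank_span_eq_card hli] at h4
      exact h4
    let ψ : Fin c' → κ := fun i => (Fintype.equivFin κ).symm (Fin.castLE hcκ i)
    have hψ : Function.Injective ψ :=
      (Fintype.equivFin κ).symm.injective.comp (Fin.castLE_injective hcκ)
    have hN : LinearIndependent E fun i => smoD (a x) (Fs (e (ψ i))) := hli.comp ψ hψ
    obtain ⟨σ, hσ1, hσ2⟩ := smo_minor (d := d) hc (fun i => smoD (a x) (Fs (e (ψ i)))) hN (a x) w₀
      hw₀ (by
        intro i
        obtain ⟨k, hk⟩ := (hmem (e (ψ i))).1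
        have h5 := congrArg (eval (a x)) hk.sum_X_mul_pderiv
        rw [map_sum, map_nsmul, hvan (e (ψ i)) x, smul_zero] at h5
        simpa [smoD] using h5)
    refine ⟨σ, fun i => e (ψ i), hσ1, ?_⟩
    rw [mnr, RingHom.map_det]
    exact hσ2
  · intro x t hli P k hP hPv
    obtain ⟨c', H, hc', hH1, hH2, hH3, hH4⟩ := h x
    obtain rfl : c' = c := by omega
    have h1 : ∀ i : Fin c', ∃ (q : MvPolynomial W E) (b : Fin c' → MvPolynomial W E),
        eval (a x) q ≠ 0 ∧ q * Fs (t i) = ∑ l, b l * H l := by
      intro i
      obtain ⟨k', hk'⟩ := (hmem (t i)).1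
      obtain ⟨q, m, -, hq2, hq3⟩ := hH4 (Fs (t i)) k' hk' (hvan (t i))
      obtain ⟨b, hb⟩ := (Ideal.mem_span_range_iff_exists_fun).1 hq3
      exact ⟨q, b, hq2, hb.symm⟩
    choose q b hq hb using h1
    set B : Matrix (Fin c') (Fin c') (MvPolynomial W E) := Matrix.of b with hB
    have hD : ∀ i, eval (a x) (q i) • smoD (a x) (Fs (t i)) =
        ∑ l, eval (a x) (b i l) • smoD (a x) (H l) := by
      intro i
      have h2 := congrArg (smoD (a x)) (hb i)
      rw [smoD_mul, hvan (t i) x, zero_smul, add_zero, map_sum] at h2
      rw [h2]
      refine Finset.sum_congr rfl fun l _ => ?_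
      rw [smoD_mul, hH2 l x, zero_smul, add_zero]
    have hdetB : eval (a x) B.det ≠ 0 := by
      rw [RingHom.map_det]
      have h3 : LinearIndependent E ((eval (a x)).mapMatrix B).row := by
        rw [Fintype.linearIndependent_iff]
        intro g hg i
        have hli' : LinearIndependent E fun i => smoD (a x) (Fs (t i)) := hli
        rw [Fintype.linearIndependent_iff] at hli'
        have h4 : ∑ i, (g i * eval (a x) (q i)) • smoD (a x) (Fs (t i)) = 0 := by
          calc ∑ i, (g i * eval (a x) (q i)) • smoD (a x) (Fs (t i))
              = ∑ i, g i • ∑ l, eval (a x) (b i l) • smoD (a x) (H l) := by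
                refine Finset.sum_congr rfl fun i _ => ?_
                rw [mul_smul, hD]
            _ = ∑ l, (∑ i, g i * eval (a x) (b i l)) • smoD (a x) (H l) := by
                simp only [Finset.smul_sum, Finset.sum_smul, mul_smul]
                rw [Finset.sum_comm]
            _ = 0 := by
                refine Finset.sum_eq_zero fun l _ => ?_
                have h5 := congrFun hg l
                rw [Finset.sum_apply, Pi.zero_apply] at h5
                have h6 : ∑ i, g i * eval (a x) (b i l) = 0 := by
                  rw [← h5]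
                  refine Finset.sum_congr rfl fun i _ => ?_
                  rfl
                rw [h6, zero_smul]
        exact (mul_eq_zero.1 (hli' _ h4 i)).resolve_right (hq i)
      rw [Matrix.linearIndependent_rows_iff_isUnit, Matrix.isUnit_iff_isUnit_det] at h3
      exact h3.ne_zero
    set J : Ideal (MvPolynomial W E) := Ideal.span (Set.range fun i => Fs (t i)) with hJ
    have hBH : ∀ l, B.det * H l ∈ J := by
      intro l
      have h7 : B.det * H l = ∑ i, B.adjugate l i * (q i * Fs (t i)) := by
        have h8 : ∀ l', ∑ i, B.adjugate l i * b i l' = if l = l' then B.det else 0 := by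
          intro l'
          have h9 := congrFun (congrFun (Matrix.adjugate_mul B) l) l'
          rw [Matrix.mul_apply, Matrix.smul_apply, Matrix.one_apply] at h9
          rw [smul_eq_mul, mul_ite, mul_one, mul_zero] at h9
          exact h9
        calc B.det * H l = ∑ l', (if l = l' then B.det else 0) * H l' := by
              rw [Finset.sum_eq_single l]
              · rw [if_pos rfl]
              · intro l' _ hl'
                rw [if_neg (Ne.symm hl'), zero_mul]
              · intro h'
                exact absurd (Finset.mem_univ _) h'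
          _ = ∑ l', (∑ i, B.adjugate l i * b i l') * H l' := by
              refine Finset.sum_congr rfl fun l' _ => ?_
              rw [h8]
          _ = ∑ i, B.adjugate l i * (q i * Fs (t i)) := by
              simp only [hb, Finset.mul_sum, Finset.sum_mul]
              rw [Finset.sum_comm]
              refine Finset.sum_congr rfl fun i _ => Finset.sum_congr rfl fun l' _ => ?_
              ring
      rw [h7]
      refine Ideal.sum_mem _ fun i _ => ?_
      rw [← mul_assoc]
      exact Ideal.mul_mem_left _ _ (Ideal.subset_span ⟨i, rfl⟩)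
    obtain ⟨q', m', -, hq'2, hq'3⟩ := hH4 P k hP hPv
    obtain ⟨b', hb'⟩ := (Ideal.mem_span_range_iff_exists_fun).1 hq'3
    set g : MvPolynomial W E := B.det * q' with hg
    have hgJ : g * P ∈ J := by
      rw [hg, mul_assoc, ← hb', Finset.mul_sum]
      refine Ideal.sum_mem _ fun l _ => ?_
      have : B.det * (b' l * H l) = b' l * (B.det * H l) := by ring
      rw [this]
      exact Ideal.mul_mem_left _ _ (hBH l)
    have hgx : eval (a x) g ≠ 0 := by
      rw [hg, map_mul]
      exact mul_ne_zero hdetB hq'2
    have hex : ∃ m, eval (a x) (homogeneousComponent m g) ≠ 0 := by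
      by_contra hcon
      push Not at hcon
      refine hgx ?_
      rw [← sum_homogeneousComponent g, map_sum]
      exact Finset.sum_eq_zero fun m _ => hcon m
    obtain ⟨m, hm⟩ := hex
    have hJhom : J.IsHomogeneous (homogeneousSubmodule W E) := by
      refine Ideal.homogeneous_span _ _ ?_
      rintro _ ⟨i, rfl⟩
      obtain ⟨k', hk'⟩ := (hmem (t i)).1
      exact ⟨k', (mem_homogeneousSubmodule k' _).2 hk'⟩
    refine ⟨homogeneousComponent m g, m, homogeneousComponent_isHomogeneous m g, hm, ?_⟩
    have h10 := (Ideal.IsHomogeneous.mem_iff (homogeneousSubmodule W E) hJhom).1 hgJ (m + k)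
    rw [smo_dec, smo_comp_mul g P hP] at h10
    exact h10

end Pool.Agent.LLX
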