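import Pool.Agent.LLX.Cot

/-!
# LLX SPAN: the jets at a point are spanned by the monomials in the local parameters

`mI_eq`: a polynomial vanishing at the point `p` is in the ideal generated by the `X q - C (p q)`
(`MvPolynomial.mem_ideal_span_X_sub_C...` / induction on the polynomial: `P - C (eval p P)` is in
this ideal).
`spanx`. Put `m = mI a F l x`, `V = VI a F l`, `Z = Ideal.span (range (zc a F l x I)) ≤ m`. By
`cot` and `mI_eq`, `m ≤ Z ⊔ (V ⊔ m ^ 2)`. Induction on `j` (`j = 0`: `m ^ 0 = ⊤`). Step: given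
`P - ∑_{|s|<j} ... ∈ V ⊔ m ^ j`, it suffices that every `μ ∈ m ^ j` is
`∑_{|s| = j} C (c s) * zc ^ s` modulo `V ⊔ m ^ (j + 1)`. For `j = 0`: `μ - C (eval p μ) ∈ m`.
In general `m ^ j ≤ (Z ⊔ (V ⊔ m ^ 2)) ^ j ≤ Z ^ j ⊔ (V ⊔ m ^ (j + 1))` (all the factors are in `m`
up to `V`), and an element of `Z ^ j` is `∑_{|s| = j} B s * zc ^ s` with polynomials `B s`
(`Ideal.span_pow_eq...` / induction on `j`), and `B s - C (eval p (B s)) ∈ m`, `zc ^ s ∈ m ^ j`.
-/

open MvPolynomial

namespace Pool.Agent.LLX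

open Pool.Agent.Helper63.SAND

theorem mI_eq {E Ω W : Type*} [Field E] [Fintype W] {n : ℕ} (a : Ω → W → E) (F : Ω → Ω)
    (l : Fin (n + 1) → W → E) (x : Ω) :
    mI a F l x = Ideal.span (Set.range fun q => X q - C (npt a F l x q)) := by
  set p := npt a F l x with hp
  apply le_antisymm
  · intro P hP
    have hP' : eval p P = 0 := hP
    set J := Ideal.span (Set.range fun q => (X q - C (p q) : MvPolynomial (Fin (n + 1) × W) E))
      with hJ
    have hhom : (Ideal.Quotient.mk J : MvPolynomial (Fin (n + 1) × W) E →+* _) =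
        ((Ideal.Quotient.mk J).comp (C (σ := Fin (n + 1) × W))).comp (eval p) := by
      apply MvPolynomial.ringHom_ext
      · intro r
        simp
      · intro q
        simp only [RingHom.coe_comp, Function.comp_apply, eval_X]
        rw [Ideal.Quotient.eq]
        exact Ideal.subset_span ⟨q, rfl⟩
    have h1 := congrArg (fun f : MvPolynomial (Fin (n + 1) × W) E →+* _ => f P) hhom
    simp only [RingHom.coe_comp, Function.comp_apply, hP', map_zero] at h1
    exact Ideal.Quotient.eq_zero_iff_mem.1 h1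
  · rw [Ideal.span_le]
    rintro _ ⟨q, rfl⟩
    change eval p _ = 0
    rw [map_sub, eval_X, eval_C, sub_self]

private theorem span_pw {R : Type*} [CommRing R] {d : ℕ} (z : Fin d → R) (j : ℕ) :
    Ideal.span (Set.range z) ^ j ≤
      Ideal.span ((fun s : Fin d →₀ ℕ => ∏ b, z b ^ s b) '' {s | s.degree = j}) := by
  have h1 : Ideal.span (Set.range z) = Ideal.map (aeval z : MvPolynomial (Fin d) R →ₐ[R] R)
      (idealOfVars (Fin d) R) := by
    rw [idealOfVars, Ideal.map_span, ← Set.range_comp]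
    congr 2
    ext b
    simp
  rw [h1, ← Ideal.map_pow, pow_idealOfVars_eq_span, Ideal.map_span, Ideal.span_le]
  rintro _ ⟨_, ⟨s, hs, rfl⟩, rfl⟩
  apply Ideal.subset_span
  refine ⟨s, hs, ?_⟩
  simp [aeval_monomial, Finsupp.prod_fintype]

private theorem pw_le {R : Type*} [CommRing R] (m Z V : Ideal R) (hm1 : m ≤ Z ⊔ (V ⊔ m ^ 2))
    (hZm : Z ≤ m) (i : ℕ) : m ^ i ≤ Z ^ i ⊔ (V ⊔ m ^ (i + 1)) := by
  induction i with
  | zero => simp
  | succ i ih =>
    have h1 : m ^ i * Z ≤ Z ^ (i + 1) ⊔ (V ⊔ m ^ (i + 1 + 1)) := by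
      calc m ^ i * Z ≤ (Z ^ i ⊔ (V ⊔ m ^ (i + 1))) * Z := Ideal.mul_mono_left ih
        _ = Z ^ i * Z ⊔ (V * Z ⊔ m ^ (i + 1) * Z) := by rw [Ideal.sup_mul, Ideal.sup_mul]
        _ ≤ _ := by
          refine sup_le_sup ?_ (sup_le_sup ?_ ?_)
          · rw [← pow_succ]
          · exact (Ideal.mul_le_left : V * Z ≤ V)
          · rw [pow_succ m (i + 1)]
            exact Ideal.mul_mono_right hZm
    have hV : V ≤ Z ^ (i + 1) ⊔ (V ⊔ m ^ (i + 1 + 1)) :=
      (le_sup_left : V ≤ V ⊔ m ^ (i + 1 + 1)).trans le_sup_right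
    have hV' : m ^ (i + 1 + 1) ≤ Z ^ (i + 1) ⊔ (V ⊔ m ^ (i + 1 + 1)) :=
      (le_sup_right : m ^ (i + 1 + 1) ≤ V ⊔ m ^ (i + 1 + 1)).trans le_sup_right
    have h2 : m ^ i * V ≤ Z ^ (i + 1) ⊔ (V ⊔ m ^ (i + 1 + 1)) :=
      (Ideal.mul_le_right : m ^ i * V ≤ V).trans hV
    have h3 : m ^ i * m ^ 2 ≤ Z ^ (i + 1) ⊔ (V ⊔ m ^ (i + 1 + 1)) := by
      rw [← pow_add]
      exact hV'
    calc m ^ (i + 1) = m ^ i * m := pow_succ _ _
      _ ≤ m ^ i * (Z ⊔ (V ⊔ m ^ 2)) := Ideal.mul_mono_right hm1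
      _ = m ^ i * Z ⊔ (m ^ i * V ⊔ m ^ i * m ^ 2) := by rw [Ideal.mul_sup, Ideal.mul_sup]
      _ ≤ Z ^ (i + 1) ⊔ (V ⊔ m ^ (i + 1 + 1)) := sup_le h1 (sup_le h2 h3)

private theorem key {E R : Type*} [Field E] [CommRing R] [Algebra E R] {d : ℕ} (z : Fin d → R)
    (m V : Ideal R) (hzm : ∀ b, z b ∈ m) (hm1 : m ≤ Ideal.span (Set.range z) ⊔ (V ⊔ m ^ 2))
    (hres : ∀ r : R, ∃ c : E, r - algebraMap E R c ∈ m) (i : ℕ) (P : R) :
    ∃ c : JI d i → E, P - ∑ s, algebraMap E R (c s) * ∏ b, z b ^ s.1 b ∈ V ⊔ m ^ i := by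
  have hmono : ∀ s : Fin d →₀ ℕ, ∏ b, z b ^ s b ∈ m ^ s.degree := by
    intro s
    rw [Finsupp.degree_eq_sum, ← Finset.prod_pow_eq_pow_sum]
    exact Ideal.prod_mem_prod fun b _ => Ideal.pow_mem_pow (hzm b) _
  have hZm : Ideal.span (Set.range z) ≤ m := by
    rw [Ideal.span_le]
    rintro _ ⟨b, rfl⟩
    exact hzm b
  have key : ∀ i : ℕ, Submodule.span E (Set.range fun s : JI d i => ∏ b, z b ^ s.1 b) ⊔
      (V ⊔ m ^ i).restrictScalars E = ⊤ := by
    intro i
    induction i with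
    | zero => simp
    | succ i ih =>
      have hSS : Submodule.span E (Set.range fun s : JI d i => ∏ b, z b ^ s.1 b) ≤
          Submodule.span E (Set.range fun s : JI d (i + 1) => ∏ b, z b ^ s.1 b) := by
        rw [Submodule.span_le]
        rintro _ ⟨s, rfl⟩
        exact Submodule.subset_span ⟨⟨s.1, s.2.trans (Nat.lt_succ_self i)⟩, rfl⟩
      obtain ⟨T, hT⟩ : ∃ T : Submodule E R, T = Submodule.span E
        (Set.range fun s : JI d (i + 1) => ∏ b, z b ^ s.1 b) ⊔
          (V ⊔ m ^ (i + 1)).restrictScalars E := ⟨_, rfl⟩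
      have hVT : ∀ f ∈ V ⊔ m ^ (i + 1), f ∈ T := fun f hf => by
        rw [hT]
        exact Submodule.mem_sup_right ((Submodule.restrictScalars_mem _ _ _).2 hf)
      have hZT : ∀ f ∈ Ideal.span (Set.range z) ^ i, f ∈ T := by
        intro f hf
        have hf' := span_pw z i hf
        have h2 : ∀ r : R, r * f ∈ T := by
          refine Submodule.span_induction (p := fun f _ => ∀ r : R, r * f ∈ T) ?_ ?_ ?_ ?_ hf'
          · rintro _ ⟨s, hs, rfl⟩ r
            obtain ⟨c, hc⟩ := hres r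
            have e : r * ∏ b, z b ^ s b = c • ∏ b, z b ^ s b +
                (r - algebraMap E R c) * ∏ b, z b ^ s b := by
              rw [Algebra.smul_def]
              ring
            change r * ∏ b, z b ^ s b ∈ T
            rw [e]
            refine add_mem ?_ (hVT _ (Submodule.mem_sup_right ?_))
            · rw [hT]
              refine Submodule.mem_sup_left (Submodule.smul_mem _ _
                (Submodule.subset_span ⟨⟨s, ?_⟩, rfl⟩))
              exact lt_of_le_of_lt (le_of_eq hs) (Nat.lt_succ_self i)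
            · rw [pow_succ']
              refine Ideal.mul_mem_mul hc ?_
              have := hmono s
              rwa [show s.degree = i from hs] at this
          · intro r
            rw [mul_zero]
            exact zero_mem _
          · intro f g _ _ hf hg r
            rw [mul_add]
            exact add_mem (hf r) (hg r)
          · intro b f _ hf r
            rw [smul_eq_mul, ← mul_assoc]
            exact hf _
        have h3 := h2 1
        rwa [one_mul] at h3
      have hmT : ∀ f ∈ m ^ i, f ∈ T := by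
        intro f hf
        obtain ⟨u, hu, w, hw, rfl⟩ := Submodule.mem_sup.1 (pw_le m _ V hm1 hZm i hf)
        exact add_mem (hZT u hu) (hVT w hw)
      rw [← hT, eq_top_iff, ← ih]
      refine sup_le ?_ ?_
      · rw [hT]
        exact hSS.trans le_sup_left
      · intro f hf
        have hf1 : f ∈ V ⊔ m ^ i := hf
        obtain ⟨u, hu, w, hw, rfl⟩ := Submodule.mem_sup.1 hf1
        exact add_mem (hVT u (Submodule.mem_sup_left hu)) (hmT w hw)
  have hP : P ∈ Submodule.span E (Set.range fun s : JI d i => ∏ b, z b ^ s.1 b) ⊔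
      (V ⊔ m ^ i).restrictScalars E := by
    rw [key i]
    trivial
  obtain ⟨u, hu, w, hw, huw⟩ := Submodule.mem_sup.1 hP
  obtain ⟨c, hc⟩ := (Submodule.mem_span_range_iff_exists_fun E).1 hu
  refine ⟨c, ?_⟩
  have e : P - ∑ s, algebraMap E R (c s) * ∏ b, z b ^ s.1 b = w := by
    rw [← huw, ← hc]
    simp only [Algebra.smul_def]
    ring
  rw [e]
  exact hw

theorem spanx {E Ω W T : Type*} [Field E] [Fintype W] {c d s n : ℕ} (a : Ω → W → E)
    (ha0 : ∀ x, a x ≠ 0) (F : Ω → Ω) (e : ℕ) (G : T → W → MvPolynomial W E)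
    (hG : LocF a (fun x => a (F x)) e G) (Fs : Fin s → MvPolynomial W E) (hJ : Jac a c d Fs)
    (l : Fin (n + 1) → W → E) (x : Ω) (hadm : Adm a F l x) (v : Fin (d + 1) → W → E)
    (hv : TanB a x v) (I : Fin d → W) (hI : pv (l 0) I v ≠ 0) (j : ℕ)
    (P : MvPolynomial (Fin (n + 1) × W) E) :
    ∃ c : JI d j → E, P - ∑ s, C (c s) * ∏ b, zc a F l x I b ^ s.1 b ∈
      VI a F l ⊔ mI a F l x ^ j := by
  refine key (E := E) (zc a F l x I) (mI a F l x) (VI a F l) ?_ ?_ ?_ j P
  · intro b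
    change eval (npt a F l x) _ = 0
    rw [zc, map_sub, eval_X, eval_C, sub_self]
  · intro f hf
    rw [mI_eq] at hf
    refine (Ideal.span_le.2 ?_) hf
    rintro _ ⟨q, rfl⟩
    exact cot a ha0 F e G hG Fs hJ l x hadm v hv I hI q
  · intro r
    refine ⟨eval (npt a F l x) r, ?_⟩
    change eval (npt a F l x) (r - C (eval (npt a F l x) r)) = 0
    rw [map_sub, eval_C, sub_self]

end Pool.Agent.LLX
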