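import Pool.Agent.LLX.Places
import Pool.Agent.LLX.Span
import Pool.Agent.LLX.Crt
import Pool.Agent.LLX.Alg
import Pool.Agent.LLX.Ldet
import Pool.Agent.LLX.Htq2
import Pool.Agent.LLX.Smo

/-!
# LLX KEY: the fundamental inequality

Proof. `smo` gives `Jac a c d Fs`; `places` gives `p₀, pst, Kc, ε, B`; `htq2 p₀` gives `C₀'`. Put
`c₀ = - log ε`.
Given the data: `exists_I` (`Adm` for the block `0`: `lin (l 0) (a (x i)) ≠ 0`) gives `I i` with
`pv (l 0) (I i) (v i) ≠ 0`; `spanx` and `span_all` give `ep` and the spanning hypothesis of `alg`;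
`loc_ind` at one complex place (`E →+* ℂ` is inhabited: `IsAlgClosed.lift`; use the `PlaceOK` data
and `exists_V`) gives the independence hypothesis; so `alg` gives `g`, `Cm`.
Let `Z = Zd a F j x v l I ω k Cm.det`; `Z ≠ 0` (`Adm`, `pv ≠ 0`, `det Cm ≠ 0`).
Apply `htq2` with `J₁ = (Fin M × Fin (n + 1)) ⊕ Fin M`, `A (inl (i, q)) = a (F^[q] (x i))` with
`n₁ = k * ω q * bz d j`, `A (inr i) = plu (v i)` with `n₁ = bo d j`, `J₂ = Fin M`,
`B i = a (x i)` with `n₂ = (d + 1) * bo d j`, `Γ = (M bz)! (2 ^ (k ∑ ω) B ^ ((n+1) j)) ^ (M bz)`,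
`γ = ε ^ (...)`. The hypotheses at the places are `loc_est` with the bounds of `PlaceOK`
(`plu (v i) ≠ 0`: `Expn.one`, `Expn.tan` at the complex place). Products over a sum type:
`Fintype.prod_sum_type`, `Fintype.prod_prod_type`. Finally
`log Γ ≤ S log S + S (k ∑ ω + (n + 1) j log B)` for `S = M * bz d j` (`S! ≤ S ^ S`, `log 2 ≤ 1`)
and `log γ = - c₀ * (...)`. Take `C₀ = C₀' * (1 + log B) + C₀'`-like.
-/

open MvPolynomial

namespace Pool.Agent.LLX

open Pool.Agent.Helper63.SAND Pool.Agent.Helper63.WH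

private theorem place_est {E Ω W K : Type*} [Field E] [Fintype W] [NormedField K] {n M d : ℕ}
    (a : Ω → W → E) (ha0 : ∀ x, a x ≠ 0) (F : Ω → Ω) (j : ℕ) (hj : 1 ≤ j) (τ : E →+* K)
    (x : Fin M → Ω) (v : Fin M → Fin (d + 1) → W → E) {Γ : (Fin (n + 1) → ℕ) → ℕ → ℝ}
    (hP : PlaceOK (n := n) a F j d τ x v Γ) (l : Fin (n + 1) → W → E)
    (hadm : ∀ i, Adm a F l (x i))
    (I : Fin M → Fin d → W) (ep : Fin M → MvPolynomial (Fin (n + 1) × W) E)
    (he1 : ∀ i, ep i - 1 ∈ mI a F l (x i) ^ j)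
    (he2 : ∀ i i', i ≠ i' → ep i ∈ mI a F l (x i') ^ j)
    (ω : Fin (n + 1) → ℕ) (k : ℕ) (g : Fin M × JI d j → (Fin (n + 1) × W →₀ ℕ))
    (Cm : Matrix (Fin M × JI d j) (Fin M × JI d j) E)
    (hg : ∀ c i, ∑ w, g c (i, w) = k * ω i)
    (hCm : ∀ c, monomial (g c) 1 - ∑ r, C (Cm r c) * Er a F l x I ep r ∈
        VI a F l ⊔ (⨅ i, mI a F l (x i)) ^ j) :
    ‖τ (Zd a F j x v l I ω k Cm.det)‖ * ∏ i, (⨆ w, ‖τ (a (x i) w)‖) ^ ((d + 1) * bo d j) ≤
      Γ ω k * ((∏ i, ∏ q : Fin (n + 1),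
        (⨆ w, ‖τ (a (F^[q] (x i)) w)‖) ^ (k * ω q * bz d j)) *
          ∏ i, (⨆ J, ‖τ (plu (v i) J)‖) ^ bo d j) := by
  obtain ⟨Y, cc, lam, hE, h1, h2, h3⟩ := hP
  refine (loc_est a ha0 F j hj τ x v Y cc lam l hE hadm h1 h2 I ep he1 he2 ω k g Cm hg hCm).trans ?_
  refine mul_le_mul_of_nonneg_right (h3 ω k g hg) (mul_nonneg ?_ ?_)
  · exact Finset.prod_nonneg fun i _ => Finset.prod_nonneg fun q _ =>
      pow_nonneg (Real.iSup_nonneg fun _ => norm_nonneg _) _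
  · exact Finset.prod_nonneg fun i _ => pow_nonneg (Real.iSup_nonneg fun _ => norm_nonneg _) _

private theorem log_gam (S A m : ℕ) {B : ℝ} (hB : 1 ≤ B) :
    Real.log (S.factorial * (2 ^ A * B ^ m) ^ S) ≤
      (1 + Real.log B) * (S * (Real.log S + A + m)) := by
  have hB0 : 0 < B := by linarith
  have hlB : 0 ≤ Real.log B := Real.log_nonneg hB
  have hf : (0 : ℝ) < S.factorial := by exact_mod_cast Nat.factorial_pos S
  have h1 : Real.log (S.factorial * (2 ^ A * B ^ m) ^ S) =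
      Real.log S.factorial + S * (A * Real.log 2 + m * Real.log B) := by
    rw [Real.log_mul hf.ne' (by positivity), Real.log_pow, Real.log_mul (by positivity)
      (by positivity), Real.log_pow, Real.log_pow]
  have h2 : Real.log S.factorial ≤ S * Real.log S := by
    have h3 : (S.factorial : ℝ) ≤ (S : ℝ) ^ S := by exact_mod_cast Nat.factorial_le_pow S
    have h4 := Real.log_le_log hf h3
    rwa [Real.log_pow] at h4
  have h5 : Real.log 2 ≤ 1 := by
    have := Real.log_two_lt_d9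
    linarith
  have hS : (0 : ℝ) ≤ S := Nat.cast_nonneg S
  have hA : (0 : ℝ) ≤ A := Nat.cast_nonneg A
  have hm : (0 : ℝ) ≤ m := Nat.cast_nonneg m
  have hlS : 0 ≤ Real.log S := Real.log_natCast_nonneg S
  rw [h1]
  have h6 : (S : ℝ) * (A * Real.log 2 + m * Real.log B) ≤ S * (A + m * Real.log B) := by
    refine mul_le_mul_of_nonneg_left ?_ hS
    nlinarith
  have h7 : (1 + Real.log B) * (S * (Real.log S + A + m)) =
      S * Real.log S + S * (A + m * Real.log B) +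
        (S * m + Real.log B * (S * (Real.log S + A))) := by ring
  have h8 : 0 ≤ (S : ℝ) * m + Real.log B * (S * (Real.log S + A)) := by positivity
  linarith

theorem key {E Ω W T : Type*} [Field E] [CharZero E] [Algebra.IsAlgebraic ℚ E]
    [IsAlgClosed E] [Fintype W] [Fintype T] [Nonempty Ω] (a : Ω → W → E)
    (ha0 : ∀ x, a x ≠ 0) (F : Ω → Ω) (e : ℕ) (G : T → W → MvPolynomial W E)
    (hG : LocF a (fun x => a (F x)) e G) (hcl : Clo a) (d : ℕ) (hsm : SmD a d)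
    (D : ℕ) (hD : 1 ≤ D) :
    ∃ (C₀ c₀ : ℝ) (Kc : ℕ), 0 ≤ C₀ ∧ 0 < c₀ ∧
      ∀ (n M : ℕ) (x : Fin M → Ω) (v : Fin M → Fin (d + 1) → W → E),
      (∀ i, FieldLE a G D (x i)) → (∀ i, TanB a (x i) (v i)) →
      (∀ i i', i ≠ i' → ∀ c : E, ∃ w, a (x i) w ≠ c * a (x i') w) →
      ∀ l : Fin (n + 1) → W → E, (∀ i, Adm a F l (x i)) →
      ∀ (ω : Fin (n + 1) → ℕ) (k j : ℕ), 1 ≤ j →
      Fl E W ω k ⊔ (VI a F l ⊔ (⨅ i, mI a F l (x i)) ^ j).restrictScalars E = ⊤ →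
      ∀ D' : ℕ,
        c₀ * ((((∑ r : Fin M × JI d j, (D' - r.2.1.degree)) -
            Kc * hil a (D' - 1) * D' : ℕ)) : ℝ) +
          ∑ i, (((d + 1) * bo d j : ℕ) : ℝ) * absHeight (a (x i)) ≤
        C₀ * (((M * bz d j : ℕ) : ℝ) * (Real.log ((M * bz d j : ℕ) : ℝ) +
            k * ∑ i, (ω i : ℝ) + (n + 1) * j) + 1) +
          ∑ i, ((∑ q : Fin (n + 1), ((k * ω q * bz d j : ℕ) : ℝ) *
            absHeight (a (F^[q] (x i)))) + ((bo d j : ℕ) : ℝ) * absHeight (plu (v i))) := by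
  classical
  obtain ⟨c, s, Fs, hJ⟩ := smo a d hsm
  obtain ⟨p₀, pst, Kc, ε, B, hp0, hε0, hε1, hB, hpl⟩ := places a ha0 F e G hG hcl Fs hJ D hD
  obtain ⟨C₀', hC0', hh⟩ := htq2 (E := E) p₀
  have hlB : 0 ≤ Real.log B := Real.log_nonneg hB
  have hlε : Real.log ε < 0 := Real.log_neg hε0 hε1
  refine ⟨C₀' * (1 + Real.log B), -Real.log ε, Kc, by positivity, by linarith, ?_⟩
  intro n M x v hfield htan hne l hadm ω k j hj hsurj D'
  obtain ⟨hplC, hplp, hplbig, hplst⟩ := hpl n j M x v hfield htan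
  -- the coordinates
  have hI : ∀ i, ∃ I : Fin d → W, pv (l 0) I (v i) ≠ 0 := fun i =>
    exists_I a ha0 Fs hJ (x i) (v i) (htan i) (l 0) (by simpa using hadm i 0)
  choose I hI using hI
  obtain ⟨ep, he1, he2, hsp⟩ := span_all a F l (j := j) x hadm hne I fun i P =>
    spanx a ha0 F e G hG Fs hJ l (x i) (hadm i) (v i) (htan i) (I i) (hI i) j P
  -- a complex place
  obtain ⟨τ₀⟩ : Nonempty (E →+* ℂ) := ⟨(IsAlgClosed.lift (R := ℚ) : E →ₐ[ℚ] ℂ).toRingHom⟩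
  obtain ⟨Y, cc, lam, hE, -, -, -⟩ := hplC τ₀
  have hV := fun i => exists_V a F j τ₀ (x i) (v i) (Y i) (cc i) (lam i) l (hE i) (hadm i)
  choose V hV using hV
  have hind : ∀ b : Fin M × JI d j → E, ∑ r, C (b r) * Er a F l x I ep r ∈
      VI a F l ⊔ (⨅ i, mI a F l (x i)) ^ j → b = 0 := fun b hb =>
    loc_ind a F j hj τ₀ x v Y cc lam l hE hadm V hV I ep he1 he2 hI b hb
  have hplu : ∀ i, plu (v i) ≠ 0 := by
    intro i h0
    obtain ⟨J, hJ1⟩ := (hE i).one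
    have h1 := (hE i).tan J
    rw [hJ1, h0] at h1
    simp at h1
  obtain ⟨g, Cm, hg, hCm0, hCm⟩ := alg a F l ω k x I ep hsp hind hsurj
  -- the algebraic number
  have hZ : Zd a F j x v l I ω k Cm.det ≠ 0 := by
    unfold Zd
    refine mul_ne_zero hCm0 (Finset.prod_ne_zero_iff.2 fun i _ => mul_ne_zero
      (Finset.prod_ne_zero_iff.2 fun q _ => pow_ne_zero _ (hadm i q)) (mul_ne_zero
        (pow_ne_zero _ (inv_ne_zero (by simpa using hadm i 0))) (pow_ne_zero _ (hI i))))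
  -- the data for the product formula
  let σ : (Fin M × Fin (n + 1)) ⊕ Fin M → Type _ :=
    Sum.elim (fun _ => W) (fun _ => Fin (d + 1) → W)
  let _ : ∀ t, Fintype (σ t) := fun t => match t with
    | .inl _ => (inferInstance : Fintype W)
    | .inr _ => (inferInstance : Fintype (Fin (d + 1) → W))
  let A : ∀ t, σ t → E := fun t => match t with
    | .inl q => a (F^[q.2] (x q.1))
    | .inr i => plu (v i)
  let n₁ : (Fin M × Fin (n + 1)) ⊕ Fin M → ℕ := Sum.elim (fun q => k * ω q.2 * bz d j)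
    (fun _ => bo d j)
  have hA : ∀ t, A t ≠ 0 := by
    rintro (q | i)
    · exact ha0 _
    · exact hplu i
  set S := M * bz d j with hS
  set m := (n + 1) * j with hm
  set Γ : ℝ := S.factorial * (2 ^ (k * ∑ i, ω i) * B ^ m) ^ S with hΓ
  set N := (∑ r : Fin M × JI d j, (D' - r.2.1.degree)) - Kc * hil a (D' - 1) * D' with hN
  have hΓ1 : 1 ≤ Γ := by
    have h1 : (1 : ℝ) ≤ S.factorial := by exact_mod_cast Nat.factorial_pos S
    have h2 : (1 : ℝ) ≤ (2 ^ (k * ∑ i, ω i) * B ^ m) ^ S :=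
      one_le_pow₀ (one_le_mul_of_one_le_of_one_le (one_le_pow₀ (by norm_num)) (one_le_pow₀ hB))
    exact one_le_mul_of_one_le_of_one_le h1 h2
  have hprod : ∀ {K : Type} [NormedField K] (τ : E →+* K),
      ∏ t, (⨆ k, ‖τ (A t k)‖) ^ n₁ t = (∏ i, ∏ q : Fin (n + 1),
        (⨆ w, ‖τ (a (F^[q] (x i)) w)‖) ^ (k * ω q * bz d j)) *
          ∏ i, (⨆ J, ‖τ (plu (v i) J)‖) ^ bo d j := by
    intro K _ τ
    rw [Fintype.prod_sum_type, Fintype.prod_prod_type]
    rfl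
  have hest := hh ((Fin M × Fin (n + 1)) ⊕ Fin M) (Fin M) σ (fun _ => W) A (fun i => a (x i)) n₁
    (fun _ => (d + 1) * bo d j) (Zd a F j x v l I ω k Cm.det) hZ hA (fun i => ha0 _) Γ (ε ^ N)
    hΓ1 (by positivity) pst hp0
    (fun τ => by
      rw [hprod τ]
      exact place_est a ha0 F j hj τ x v (hplC τ) l hadm I ep he1 he2 ω k g Cm hg hCm)
    (fun p τ _ => by
      rw [hprod τ]
      exact place_est a ha0 F j hj τ x v (hplp p τ) l hadm I ep he1 he2 ω k g Cm hg hCm)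
    (fun p τ hp => by
      rw [hprod τ]
      have := place_est a ha0 F j hj τ x v (hplbig p τ hp) l hadm I ep he1 he2 ω k g Cm hg hCm
      rwa [one_mul] at this)
    (fun τ => by
      rw [hprod τ]
      exact place_est a ha0 F j hj τ x v (hplst τ D') l hadm I ep he1 he2 ω k g Cm hg hCm)
  have hlogγ : Real.log (ε ^ N) = N * Real.log ε := Real.log_pow _ _
  have hlogΓ := log_gam S (k * ∑ i, ω i) m hB
  have hsum : ∑ t, (n₁ t : ℝ) * absHeight (A t) =
      ∑ i, ((∑ q : Fin (n + 1), ((k * ω q * bz d j : ℕ) : ℝ) *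
            absHeight (a (F^[q] (x i)))) + ((bo d j : ℕ) : ℝ) * absHeight (plu (v i))) := by
    rw [Fintype.sum_sum_type, Fintype.sum_prod_type, Finset.sum_add_distrib]
    rfl
  rw [hlogγ, hsum] at hest
  have hX : (1 + Real.log B) * ((S : ℝ) * (Real.log S + ((k * ∑ i, ω i : ℕ) : ℝ) + (m : ℕ))) =
      (1 + Real.log B) * (((S : ℕ) : ℝ) * (Real.log ((S : ℕ) : ℝ) +
            k * ∑ i, (ω i : ℝ) + (n + 1) * j)) := by
    rw [hm]
    push_cast
    ring
  rw [hX] at hlogΓ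
  set X : ℝ := ((S : ℕ) : ℝ) * (Real.log ((S : ℕ) : ℝ) + k * ∑ i, (ω i : ℝ) + (n + 1) * j) with hXd
  have h9 : C₀' * (Real.log Γ + 1) ≤ C₀' * (1 + Real.log B) * (X + 1) := by
    rw [mul_assoc]
    refine mul_le_mul_of_nonneg_left ?_ hC0'
    have : (1 + Real.log B) * (X + 1) = (1 + Real.log B) * X + 1 + Real.log B := by ring
    rw [this]
    linarith
  linarith

end Pool.Agent.LLX
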