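import Pool.Agent.LLX.Wt
import Pool.Agent.LLX.Key
import Pool.Agent.LLX.Cnt

/-!
# LLX ARITH: the arithmetic side

The main theorem of the arithmetic side: jets of high order at many small points are not
separated.

Proof. If `Ω` is empty, then `M = 0`, which contradicts `C * (n + κ + 1) ^ d ≤ M` for `C ≥ 1`
(all the constants below are taken `≥ 1`). Otherwise `key` gives `C₀, c₀, Kc`. Suppose that
`NoSep` fails, with `β = C * r ^ n * (h + κ + 1)`; so for every `k₀` there are `k ≥ k₀` and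
`j ≥ β k` (so `j ≥ k`, as `β ≥ 1`) with `Fl ⊔ ... = ⊤`. Apply `key` with `ω = wt r n` and
`D' = 4 * t * j`, `t = ⌈(2 * (C₀ * (n + 1) + κ) + 2 * (n + 1)) / c₀⌉₊ + 1`, `S = M * bz d j ≥ 1`.
* Gain: `∑_r (D' - |s_r|) ≥ S (4 t j - j) ≥ 3 S t j` (`sum_gain`) and
  `Kc * hil a (D' - 1) * D' ≤ Kc * CH * (4 t j) ^ (d + 1) ≤ 2 S t j`, because
  `j ^ d ≤ d! * bz d j` (`bz_lower`) and `Kc * CH * 4 ^ (d+1) * d! * t ^ d ≤ 2 M` (this is where
  `M ≥ C * (n + κ + 1) ^ d` is used: `t ≤ C₅ * (n + κ + 1)`). So the gain is `≥ S t j`.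
* `absHeight (a (F^[q] (x i))) ≤ Cs * r ^ q * (h + 1)`, `wt r n q = ⌈r ^ (n - q)⌉ ≤ 2 r ^ (n-q)`
  (`r ≥ 1`), so `∑ q, ω q * absHeight (..) ≤ 2 (n + 1) Cs r ^ n (h + 1)` and
  `∑ ω ≤ 2 (n + 1) r ^ n`.
* `bo * absHeight (plu (v i)) ≤ (d+1) * bo * absHeight (a (x i)) + bo * κ`, `bo ≤ bz * j`
  (`bo_le`).
So, after cancelling the heights and dividing by `S`,
`c₀ t j ≤ C₀ (log S + 2 (n+1) r^n k + (n+1) j + 1) + 2 (n+1) Cs r^n (h+1) k + κ j`, hence
`(n + 1) j + (n + 1) j ≤ C₀ (log S + 1) + 2 (n + 1) (C₀ + Cs) r ^ n (h + 1) k`. For `k` (so `j`)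
large `C₀ (log S + 1) ≤ j` (`log S ≤ log M + d log j`, `bz_upper`), and then
`(n + 1) j ≤ 2 (n + 1) (C₀ + Cs) r ^ n (h + 1) k`, so `j ≤ 2 (C₀ + Cs) r ^ n (h + 1) k`, against
`j ≥ C r ^ n (h + κ + 1) k`, `k ≥ 1`, when `C > 2 (C₀ + Cs)`.
-/

open MvPolynomial

namespace Pool.Agent.LLX

open Pool.Agent.Helper63.SAND Pool.Agent.Helper63.WH

/-- The gain. -/
private theorem arith_gain {M d j t Kc CH H : ℕ} (hj : 1 ≤ j) (ht : 1 ≤ t)
    (hM : Kc * CH * 4 ^ (d + 1) * d.factorial * t ^ d ≤ 2 * M)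
    (hH : H ≤ CH * (4 * t * j) ^ d) :
    M * bz d j * t * j ≤ (∑ r : Fin M × JI d j, (4 * t * j - r.2.1.degree)) -
      Kc * H * (4 * t * j) := by
  have h1 := sum_gain M d j (4 * t * j)
  have h2 : M * bz d j * (3 * t * j) ≤ M * bz d j * (4 * t * j - j) := by
    apply Nat.mul_le_mul_left
    have : j ≤ t * j := Nat.le_mul_of_pos_left j ht
    have h3 : 4 * t * j = 3 * t * j + t * j := by ring
    omega
  have h3 : Kc * H * (4 * t * j) ≤ 2 * (M * bz d j * t * j) := by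
    have e1 : Kc * H * (4 * t * j) ≤ Kc * (CH * (4 * t * j) ^ d) * (4 * t * j) :=
      Nat.mul_le_mul_right _ (Nat.mul_le_mul_left _ hH)
    have e2 : Kc * (CH * (4 * t * j) ^ d) * (4 * t * j) =
        (Kc * CH * 4 ^ (d + 1) * t ^ d) * (t * j) * j ^ d := by
      rw [mul_pow, mul_pow, pow_succ]; ring
    have e3 : (Kc * CH * 4 ^ (d + 1) * t ^ d) * (t * j) * j ^ d ≤
        (Kc * CH * 4 ^ (d + 1) * t ^ d) * (t * j) * (d.factorial * bz d j) :=
      Nat.mul_le_mul_left _ (bz_lower d j hj)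
    have e4 : (Kc * CH * 4 ^ (d + 1) * t ^ d) * (t * j) * (d.factorial * bz d j) =
        (Kc * CH * 4 ^ (d + 1) * d.factorial * t ^ d) * (t * j * bz d j) := by ring
    have e5 : (Kc * CH * 4 ^ (d + 1) * d.factorial * t ^ d) * (t * j * bz d j) ≤
        2 * M * (t * j * bz d j) := Nat.mul_le_mul_right _ hM
    have e6 : 2 * M * (t * j * bz d j) = 2 * (M * bz d j * t * j) := by ring
    calc _ ≤ _ := e1
      _ = _ := e2
      _ ≤ _ := e3
      _ = _ := e4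
      _ ≤ _ := e5
      _ = _ := e6
  have h4 : M * bz d j * (3 * t * j) = 3 * (M * bz d j * t * j) := by ring
  apply Nat.le_sub_of_add_le
  omega

/-- The logarithm of the number of jets. -/
private theorem arith_log (C₀ : ℝ) (hC : 0 ≤ C₀) (M d : ℕ) (hM : 1 ≤ M) :
    ∃ J : ℕ, ∀ j : ℕ, J ≤ j → 1 ≤ j →
      C₀ * (Real.log ((M * bz d j : ℕ) : ℝ) + 1) ≤ j := by
  have hlo := Real.isLittleO_log_id_atTop.bound (c := 1 / (2 * (C₀ * d + 1))) (by positivity)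
  obtain ⟨X, hX⟩ := Filter.eventually_atTop.1 hlo
  obtain ⟨J1, hJ1⟩ := exists_nat_ge X
  obtain ⟨J2, hJ2⟩ := exists_nat_ge (2 * (C₀ * (Real.log M + 1)))
  refine ⟨max J1 J2, fun j hj hj1 => ?_⟩
  have hjR : (1 : ℝ) ≤ j := by exact_mod_cast hj1
  have a1 : X ≤ (j : ℝ) := hJ1.trans (by exact_mod_cast (le_max_left _ _).trans hj)
  have a2 : 2 * (C₀ * (Real.log M + 1)) ≤ (j : ℝ) :=
    hJ2.trans (by exact_mod_cast (le_max_right _ _).trans hj)
  have a3 := hX j a1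
  simp only [id, Real.norm_eq_abs, abs_of_nonneg (Real.log_nonneg hjR),
    abs_of_nonneg (show (0 : ℝ) ≤ j by linarith)] at a3
  have hb : 0 < bz d j := bz_pos d j hj1
  have hMR : (1 : ℝ) ≤ M := by exact_mod_cast hM
  have a4 : Real.log ((M * bz d j : ℕ) : ℝ) ≤ Real.log M + d * Real.log j := by
    have e1 : ((M * bz d j : ℕ) : ℝ) ≤ M * (j : ℝ) ^ d := by
      push_cast
      apply mul_le_mul_of_nonneg_left _ (by positivity)
      exact_mod_cast bz_upper d j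
    have e2 : (0 : ℝ) < ((M * bz d j : ℕ) : ℝ) := by
      exact_mod_cast Nat.mul_pos (by omega) hb
    refine (Real.log_le_log e2 e1).trans (le_of_eq ?_)
    rw [Real.log_mul (by positivity) (by positivity), Real.log_pow]
  have a5 : C₀ * (d * Real.log j) ≤ j / 2 := by
    have e1 : C₀ * (d * Real.log j) ≤ (C₀ * d) * (1 / (2 * (C₀ * d + 1)) * j) := by
      rw [← mul_assoc]
      exact mul_le_mul_of_nonneg_left a3 (by positivity)
    have e2 : (C₀ * d) * (1 / (2 * (C₀ * d + 1)) * j) = (C₀ * d) / (C₀ * d + 1) * (j / 2) := by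
      field_simp
    have e3 : (C₀ * d) / (C₀ * d + 1) ≤ 1 := by
      rw [div_le_one (by positivity)]; linarith
    rw [e2] at e1
    refine e1.trans ?_
    have : 0 ≤ (j : ℝ) / 2 := by positivity
    nlinarith
  have a6 := mul_le_mul_of_nonneg_left a4 hC
  nlinarith

private theorem arith_wt {r : ℝ} (hr : 1 ≤ r) (n : ℕ) (i : Fin (n + 1)) :
    ((wt r n i : ℕ) : ℝ) * r ^ (i : ℕ) ≤ 2 * r ^ n := by
  have h1 : (1 : ℝ) ≤ r ^ (n - (i : ℕ)) := one_le_pow₀ hr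
  have h2 : ((wt r n i : ℕ) : ℝ) ≤ 2 * r ^ (n - (i : ℕ)) := by
    unfold wt
    have := Nat.ceil_lt_add_one (show (0 : ℝ) ≤ r ^ (n - (i : ℕ)) by linarith)
    linarith
  have h3 : r ^ n = r ^ (n - (i : ℕ)) * r ^ (i : ℕ) := by
    rw [← pow_add]; congr 1; have := i.2; omega
  have h4 : 0 ≤ r ^ (i : ℕ) := by positivity
  rw [h3, ← mul_assoc]
  exact mul_le_mul_of_nonneg_right h2 h4

private theorem arith_wt' {r : ℝ} (hr : 1 ≤ r) (n : ℕ) (i : Fin (n + 1)) :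
    ((wt r n i : ℕ) : ℝ) ≤ 2 * r ^ n := by
  refine le_trans ?_ (arith_wt hr n i)
  exact le_mul_of_one_le_right (Nat.cast_nonneg _) (one_le_pow₀ hr)

/-- The final contradiction: real arithmetic. -/
private theorem arith_final {C₀ c₀ Cs κ h r L : ℝ} {n t : ℕ} {k j : ℕ} {N : ℝ} (hN : 1 ≤ N)
    (hC₀ : 0 ≤ C₀) (hCs : 0 ≤ Cs) (hκ : 0 ≤ κ) (hh : 0 ≤ h) (hr : 1 ≤ r)
    (ht : (C₀ + 2) * (n + 1) + κ ≤ c₀ * t)
    (hL : C₀ * (L + 1) ≤ j) (hk : 1 ≤ k)
    (hkey : c₀ * (N * t * j) ≤ C₀ * (N * (L + k * (2 * (n + 1) * r ^ n) + (n + 1) * j) + 1) +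
      (N * k * (2 * (n + 1) * (Cs * (h + 1) * r ^ n)) + N * j * κ)) :
    (j : ℝ) ≤ 2 * (C₀ + Cs) * r ^ n * (h + 1) * k := by
  have hjn : (0 : ℝ) ≤ j := Nat.cast_nonneg j
  have hnn : (0 : ℝ) ≤ n := Nat.cast_nonneg n
  have hkR : (1 : ℝ) ≤ k := by exact_mod_cast hk
  have hrn : (1 : ℝ) ≤ r ^ n := one_le_pow₀ hr
  -- divide by N
  have h1 : N * (c₀ * t * j) ≤ N * (C₀ * (L + 1) + C₀ * (k * (2 * (n + 1) * r ^ n)) +
      C₀ * ((n + 1) * j) + k * (2 * (n + 1) * (Cs * (h + 1) * r ^ n)) + j * κ) := by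
    have : C₀ ≤ N * C₀ := le_mul_of_one_le_left hC₀ hN
    nlinarith
  have h2 := le_of_mul_le_mul_left h1 (by linarith)
  have h3 : ((C₀ + 2) * (n + 1) + κ) * j ≤ c₀ * t * j := mul_le_mul_of_nonneg_right ht hjn
  have h4 : 2 * (n + 1) * (j : ℝ) ≤ j + C₀ * (k * (2 * (n + 1) * r ^ n)) +
      k * (2 * (n + 1) * (Cs * (h + 1) * r ^ n)) := by nlinarith
  have h5 : C₀ * (k * (2 * (n + 1) * r ^ n)) ≤ C₀ * (k * (2 * (n + 1) * r ^ n)) * (h + 1) := by
    refine le_mul_of_one_le_right (by positivity) (by linarith)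
  have h6 : ((n : ℝ) + 1) * j ≤ (n + 1) * (2 * (C₀ + Cs) * r ^ n * (h + 1) * k) := by
    have : (j : ℝ) ≤ (n + 1) * j := by nlinarith
    nlinarith
  exact le_of_mul_le_mul_left h6 (by positivity)

variable {E : Type*} [Field E] [CharZero E] [Algebra.IsAlgebraic ℚ E] [IsAlgClosed E]

/-- Let `S` be a set of points of bounded degree at which the heights of the iterates grow at most
at the rate `r`. If `x i`, `i < M`, are points of `S` of height at most `h` at which the height of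
the tangent space is at most `(d + 1) h(x) + κ` and `M ≥ C (n + κ + 1) ^ d`, then the functions of
degree `k` do not separate the jets of order `j ≥ C r ^ n (h + κ + 1) k` at the `x i`. -/
theorem arith {Ω W T : Type*} [Fintype W] [Fintype T] (a : Ω → W → E)
    (ha0 : ∀ x, a x ≠ 0) (F : Ω → Ω) (e : ℕ) (G : T → W → MvPolynomial W E)
    (hG : LocF a (fun x => a (F x)) e G) (ha : PrimeH a) (hcl : Clo a) (d : ℕ) (hsm : SmD a d)
    (hdim : ∃ CH : ℕ, ∀ m : ℕ, hil a m ≤ CH * (m + 1) ^ d)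
    (S : Set Ω) (D : ℕ) (hD : 1 ≤ D) (hSD : ∀ x ∈ S, FieldLE a G D x)
    (r Cs : ℝ) (hr : 1 ≤ r) (hCs : 0 ≤ Cs)
    (hS : ∀ x ∈ S, ∀ n : ℕ, absHeight (a (F^[n] x)) ≤ Cs * r ^ n * (absHeight (a x) + 1)) :
    ∃ C : ℕ, ∀ (n M : ℕ) (κ h : ℝ), 0 ≤ κ → 0 ≤ h → C * (n + κ + 1) ^ d ≤ M →
      ∀ x : Fin M → Ω, (∀ i, x i ∈ S ∧ absHeight (a (x i)) ≤ h ∧
        ∃ v : Fin (d + 1) → W → E, TanB a (x i) v ∧
          absHeight (plu v) ≤ (d + 1) * absHeight (a (x i)) + κ) →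
      (∀ i i', i ≠ i' → ∀ c : E, ∃ w, a (x i) w ≠ c * a (x i') w) →
      ∀ l : Fin (n + 1) → W → E, (∀ i, Adm a F l (x i)) →
        NoSep a F l (wt r n) x (C * r ^ n * (h + κ + 1)) := by
  rcases isEmpty_or_nonempty Ω with hΩ | hΩ
  · -- there are no points
    refine ⟨1, fun n M κ h hκ _ hM x _ _ l _ => ?_⟩
    exfalso
    have h1 : (1 : ℝ) ≤ (n + κ + 1) ^ d := one_le_pow₀ (by
      have : (0 : ℝ) ≤ n := Nat.cast_nonneg n
      linarith)
    have h2 : (1 : ℝ) ≤ M := by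
      refine le_trans ?_ hM
      rw [Nat.cast_one, one_mul]
      exact h1
    have h3 : 1 ≤ M := by exact_mod_cast h2
    exact hΩ.false (x ⟨0, h3⟩)
  obtain ⟨C₀, c₀, Kc, hC₀, hc₀, hkey⟩ := key a ha0 F e G hG hcl d hsm D hD
  obtain ⟨CH, hCH⟩ := hdim
  -- the constants
  obtain ⟨C₅, hC₅⟩ := exists_nat_ge ((C₀ + 3) / c₀ + 2)
  obtain ⟨C₆, hC₆⟩ := exists_nat_ge (2 * (C₀ + Cs))
  refine ⟨Kc * CH * 4 ^ (d + 1) * d.factorial * C₅ ^ d + C₆ + 1,
    fun n M κ h hκ hh hM x hx hne l hadm => ?_⟩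
  set C : ℕ := Kc * CH * 4 ^ (d + 1) * d.factorial * C₅ ^ d + C₆ + 1 with hCdef
  have hnn : (0 : ℝ) ≤ n := Nat.cast_nonneg n
  have hrn : (1 : ℝ) ≤ r ^ n := one_le_pow₀ hr
  have hbase : (1 : ℝ) ≤ n + κ + 1 := by linarith
  have hbp : (1 : ℝ) ≤ (n + κ + 1) ^ d := one_le_pow₀ hbase
  have hC1 : (1 : ℝ) ≤ (C : ℝ) := by
    rw [hCdef]; push_cast
    have : (0 : ℝ) ≤ (Kc : ℝ) * CH * 4 ^ (d + 1) * d.factorial * C₅ ^ d + C₆ := by positivity
    linarith
  have hM1 : 1 ≤ M := by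
    have : (1 : ℝ) ≤ M := by
      refine le_trans ?_ hM
      nlinarith
    exact_mod_cast this
  -- the parameter t
  set t : ℕ := ⌈((C₀ + 2) * (n + 1) + κ) / c₀⌉₊ + 1 with htdef
  have ht1 : 1 ≤ t := by omega
  have htlo : (C₀ + 2) * (n + 1) + κ ≤ c₀ * t := by
    have h1 := Nat.le_ceil (((C₀ + 2) * (n + 1) + κ) / c₀)
    rw [div_le_iff₀ hc₀] at h1
    rw [htdef]
    push_cast
    nlinarith
  have hthi : (t : ℝ) ≤ C₅ * (n + κ + 1) := by
    have h1 := (Nat.ceil_lt_add_one (show 0 ≤ ((C₀ + 2) * (n + 1) + κ) / c₀ by positivity)).le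
    have h2 : ((C₀ + 2) * (n + 1) + κ) / c₀ ≤ (C₀ + 3) / c₀ * (n + κ + 1) := by
      rw [div_mul_eq_mul_div]
      apply div_le_div_of_nonneg_right _ hc₀.le
      nlinarith
    have h3 : ((C₀ + 3) / c₀ + 2) * (n + κ + 1) ≤ C₅ * (n + κ + 1) :=
      mul_le_mul_of_nonneg_right hC₅ (by linarith)
    rw [htdef]
    push_cast
    nlinarith
  have hMt : Kc * CH * 4 ^ (d + 1) * d.factorial * t ^ d ≤ 2 * M := by
    have h1 : (t : ℝ) ^ d ≤ C₅ ^ d * (n + κ + 1) ^ d := by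
      rw [← mul_pow]
      exact pow_le_pow_left₀ (Nat.cast_nonneg t) hthi d
    have h2 : ((Kc * CH * 4 ^ (d + 1) * d.factorial * t ^ d : ℕ) : ℝ) ≤ M := by
      push_cast
      calc (Kc : ℝ) * CH * 4 ^ (d + 1) * d.factorial * t ^ d ≤
          Kc * CH * 4 ^ (d + 1) * d.factorial * (C₅ ^ d * (n + κ + 1) ^ d) :=
            mul_le_mul_of_nonneg_left h1 (by positivity)
        _ = (Kc * CH * 4 ^ (d + 1) * d.factorial * C₅ ^ d) * (n + κ + 1) ^ d := by ring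
        _ ≤ C * (n + κ + 1) ^ d := by
            apply mul_le_mul_of_nonneg_right _ (by positivity)
            rw [hCdef]; push_cast
            have : (0 : ℝ) ≤ C₆ := Nat.cast_nonneg _
            linarith
        _ ≤ M := hM
    have h3 : Kc * CH * 4 ^ (d + 1) * d.factorial * t ^ d ≤ M := by exact_mod_cast h2
    omega
  -- the negation
  by_contra hneg
  unfold NoSep at hneg
  push Not at hneg
  obtain ⟨J, hJ⟩ := arith_log C₀ hC₀ M d hM1
  obtain ⟨k, hk, j, hkj, htop⟩ := hneg (max J 1)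
  have hk1 : 1 ≤ k := (le_max_right _ _).trans hk
  have hkR : (1 : ℝ) ≤ k := by exact_mod_cast hk1
  have hβ : (1 : ℝ) ≤ C * r ^ n * (h + κ + 1) := by
    have h1 : (1 : ℝ) ≤ C * r ^ n := by nlinarith
    nlinarith
  have hkj' : (k : ℝ) ≤ j := by nlinarith
  have hkjN : k ≤ j := by exact_mod_cast hkj'
  have hj1 : 1 ≤ j := hk1.trans hkjN
  have hJj : J ≤ j := ((le_max_left _ _).trans hk).trans hkjN
  -- the tangent vectors
  choose hxS hxh v hv hvh using hx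
  have hk2 := hkey n M x v (fun i => hSD _ (hxS i)) hv hne l hadm (wt r n) k j hj1 htop
    (4 * t * j)
  have hH : hil a (4 * t * j - 1) ≤ CH * (4 * t * j) ^ d := by
    have h1 := hCH (4 * t * j - 1)
    have h2 : 4 * t * j - 1 + 1 = 4 * t * j := by
      have : 1 ≤ 4 * t * j := Nat.mul_pos (by omega) hj1
      omega
    rwa [h2] at h1
  have hgain := arith_gain (H := hil a (4 * t * j - 1)) hj1 ht1 hMt hH
  have hgainR : ((M * bz d j : ℕ) : ℝ) * t * j ≤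
      (((∑ r : Fin M × JI d j, (4 * t * j - r.2.1.degree)) -
        Kc * hil a (4 * t * j - 1) * (4 * t * j) : ℕ) : ℝ) := by
    have : ((M * bz d j * t * j : ℕ) : ℝ) ≤ _ := Nat.cast_le.2 hgain
    push_cast at this ⊢
    exact this
  have hb : 0 < bz d j := bz_pos d j hj1
  have hN1 : (1 : ℝ) ≤ ((M * bz d j : ℕ) : ℝ) := by
    exact_mod_cast Nat.mul_pos hM1 hb
  have hω : ∑ i, ((wt r n i : ℕ) : ℝ) ≤ 2 * (n + 1) * r ^ n := by
    refine (Finset.sum_le_sum fun i _ => arith_wt' hr n i).trans (le_of_eq ?_)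
    rw [Finset.sum_const, Finset.card_univ, Fintype.card_fin, nsmul_eq_mul]
    push_cast; ring
  have hbo : (((bo d j : ℕ)) : ℝ) ≤ bz d j * j := by exact_mod_cast bo_le d j
  -- the heights
  have hpt : ∀ i, (∑ q : Fin (n + 1), ((k * wt r n q * bz d j : ℕ) : ℝ) *
      absHeight (a (F^[q] (x i)))) + ((bo d j : ℕ) : ℝ) * absHeight (plu (v i)) ≤
      k * bz d j * (2 * (n + 1) * (Cs * (h + 1) * r ^ n)) + bz d j * j * κ +
        (((d + 1) * bo d j : ℕ) : ℝ) * absHeight (a (x i)) := by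
    intro i
    have h1 : ∀ q : Fin (n + 1), ((k * wt r n q * bz d j : ℕ) : ℝ) *
        absHeight (a (F^[q] (x i))) ≤ k * bz d j * (2 * (Cs * (h + 1) * r ^ n)) := by
      intro q
      have e1 := hS _ (hxS i) q
      have e2 : Cs * r ^ (q : ℕ) * (absHeight (a (x i)) + 1) ≤ Cs * r ^ (q : ℕ) * (h + 1) := by
        apply mul_le_mul_of_nonneg_left _ (by positivity)
        linarith [hxh i]
      have e3 := arith_wt hr n q
      push_cast
      calc (k : ℝ) * wt r n q * bz d j * absHeight (a (F^[q] (x i))) ≤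
          (k : ℝ) * wt r n q * bz d j * (Cs * r ^ (q : ℕ) * (h + 1)) :=
            mul_le_mul_of_nonneg_left (e1.trans e2) (by positivity)
        _ = (k * bz d j * (Cs * (h + 1))) * (wt r n q * r ^ (q : ℕ)) := by ring
        _ ≤ (k * bz d j * (Cs * (h + 1))) * (2 * r ^ n) :=
            mul_le_mul_of_nonneg_left e3 (by positivity)
        _ = _ := by ring
    have h2 : ∑ q : Fin (n + 1), ((k * wt r n q * bz d j : ℕ) : ℝ) *
        absHeight (a (F^[q] (x i))) ≤ k * bz d j * (2 * (n + 1) * (Cs * (h + 1) * r ^ n)) := by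
      refine (Finset.sum_le_sum fun q _ => h1 q).trans (le_of_eq ?_)
      rw [Finset.sum_const, Finset.card_univ, Fintype.card_fin, nsmul_eq_mul]
      push_cast; ring
    have h3 : ((bo d j : ℕ) : ℝ) * absHeight (plu (v i)) ≤
        ((bo d j : ℕ) : ℝ) * ((d + 1) * absHeight (a (x i)) + κ) :=
      mul_le_mul_of_nonneg_left (hvh i) (Nat.cast_nonneg _)
    have h4 : ((bo d j : ℕ) : ℝ) * κ ≤ bz d j * j * κ := mul_le_mul_of_nonneg_right hbo hκ
    push_cast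
    push_cast at h2
    nlinarith
  have hsum := Finset.sum_le_sum fun i (_ : i ∈ Finset.univ) => hpt i
  rw [Finset.sum_add_distrib (f := fun i : Fin M =>
    (k : ℝ) * bz d j * (2 * (n + 1) * (Cs * (h + 1) * r ^ n)) + bz d j * j * κ),
    Finset.sum_const, Finset.card_univ, Fintype.card_fin, nsmul_eq_mul] at hsum
  have hfin : c₀ * (((M * bz d j : ℕ) : ℝ) * t * j) ≤
      C₀ * (((M * bz d j : ℕ) : ℝ) * (Real.log ((M * bz d j : ℕ) : ℝ) +
        k * (2 * (n + 1) * r ^ n) + (n + 1) * j) + 1) +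
      (((M * bz d j : ℕ) : ℝ) * k * (2 * (n + 1) * (Cs * (h + 1) * r ^ n)) +
        ((M * bz d j : ℕ) : ℝ) * j * κ) := by
    have e1 := mul_le_mul_of_nonneg_left hgainR hc₀.le
    have e2 : C₀ * (((M * bz d j : ℕ) : ℝ) * (Real.log ((M * bz d j : ℕ) : ℝ) +
        k * ∑ i, ((wt r n i : ℕ) : ℝ) + (n + 1) * j) + 1) ≤
        C₀ * (((M * bz d j : ℕ) : ℝ) * (Real.log ((M * bz d j : ℕ) : ℝ) +
        k * (2 * (n + 1) * r ^ n) + (n + 1) * j) + 1) := by
      apply mul_le_mul_of_nonneg_left _ hC₀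
      have := mul_le_mul_of_nonneg_left hω (show (0 : ℝ) ≤ k by linarith)
      have := mul_le_mul_of_nonneg_left (show Real.log ((M * bz d j : ℕ) : ℝ) +
        k * ∑ i, ((wt r n i : ℕ) : ℝ) + (n + 1) * j ≤ Real.log ((M * bz d j : ℕ) : ℝ) +
        k * (2 * (n + 1) * r ^ n) + (n + 1) * j by linarith)
        (show (0 : ℝ) ≤ ((M * bz d j : ℕ) : ℝ) by linarith)
      linarith
    have e3 : (M : ℝ) * (k * bz d j * (2 * (n + 1) * (Cs * (h + 1) * r ^ n)) + bz d j * j * κ) =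
        ((M * bz d j : ℕ) : ℝ) * k * (2 * (n + 1) * (Cs * (h + 1) * r ^ n)) +
        ((M * bz d j : ℕ) : ℝ) * j * κ := by
      push_cast; ring
    rw [e3] at hsum
    linarith
  have hres := arith_final hN1 hC₀ hCs hκ hh hr htlo (hJ j hJj hj1) hk1 hfin
  -- the contradiction
  have hC6 : 2 * (C₀ + Cs) < (C : ℝ) := by
    rw [hCdef]; push_cast
    have : (0 : ℝ) ≤ (Kc : ℝ) * CH * 4 ^ (d + 1) * d.factorial * C₅ ^ d := by positivity
    linarith
  have f1 : 2 * (C₀ + Cs) * (r ^ n * (h + 1) * k) < C * (r ^ n * (h + 1) * k) :=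
    mul_lt_mul_of_pos_right hC6 (by positivity)
  have f2 : (C : ℝ) * (r ^ n * (h + 1) * k) ≤ C * r ^ n * (h + κ + 1) * k := by
    have : (C : ℝ) * r ^ n * (h + 1) ≤ C * r ^ n * (h + κ + 1) :=
      mul_le_mul_of_nonneg_left (by linarith) (by positivity)
    have := mul_le_mul_of_nonneg_right this (show (0 : ℝ) ≤ k by linarith)
    linarith
  linarith

end Pool.Agent.LLX
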