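import Pool.Agent.LLX.Defs

/-!
# LLX ORD: the ideals `OrdI K d j`

Proofs. `ord_mul`: in `coeff s (P * Q) = ∑ coeff s₁ P * coeff s₂ Q` with `|s₁| + |s₂| < i + j`
one of `|s₁| < i`, `|s₂| < j` holds. `ord_cancel`: induction on `j`: if `P ∈ OrdI j` and
`q * P ∈ OrdI (j + 1)` then for `|s| = j` one has `coeff s (q * P) = q(0) coeff s P`.
`ord_inv`: with `u = q(0)` take `V = C u⁻¹ * ∑_{m < j + 1} (1 - C u⁻¹ * q) ^ m` and
`1 - C u⁻¹ * q ∈ OrdI 1`, `1 - q V = (1 - C u⁻¹ q)^(j+1)`.
`ord_mulmat`: the exponents `s'` with `s' ≤ s` and `|s| < j` have `|s'| < j`, so they are in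
`JI d j` (`MvPolynomial.coeff_mul` and a bijection with the antidiagonal).
-/

open MvPolynomial

namespace Pool.Agent.LLX

variable {K : Type*} [Field K] {d : ℕ}

theorem ord_zero : OrdI K d 0 = ⊤ := by
  rw [eq_top_iff]
  intro P _ s hs
  exact absurd hs (Nat.not_lt_zero _)

theorem ord_anti {i j : ℕ} (h : i ≤ j) : OrdI K d j ≤ OrdI K d i :=
  fun _ hP s hs => hP s (lt_of_lt_of_le hs h)

theorem ord_one (P : MvPolynomial (Fin d) K) : P ∈ OrdI K d 1 ↔ constantCoeff P = 0 := by
  rw [constantCoeff_eq]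
  constructor
  · intro h
    exact h 0 (by simp)
  · intro h s hs
    have h1 : s = 0 := by
      rw [← Finsupp.degree_eq_zero_iff]
      omega
    rw [h1]
    exact h

theorem ord_mul {i j : ℕ} {P Q : MvPolynomial (Fin d) K} (hP : P ∈ OrdI K d i)
    (hQ : Q ∈ OrdI K d j) : P * Q ∈ OrdI K d (i + j) := by
  classical
  intro s hs
  rw [coeff_mul]
  refine Finset.sum_eq_zero fun x hx => ?_
  rw [Finset.HasAntidiagonal.mem_antidiagonal] at hx
  have h1 : x.1.degree + x.2.degree = s.degree := by rw [← map_add, hx]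
  rcases Nat.lt_or_ge x.1.degree i with h2 | h2
  · rw [hP x.1 h2, zero_mul]
  · rw [hQ x.2 (by omega), mul_zero]

theorem ord_pow {P : MvPolynomial (Fin d) K} (hP : P ∈ OrdI K d 1) (k : ℕ) :
    P ^ k ∈ OrdI K d k := by
  induction k with
  | zero =>
    rw [ord_zero]
    exact Submodule.mem_top
  | succ k ih =>
    rw [pow_succ]
    exact ord_mul ih hP

theorem ord_sq (i : ℕ) : OrdI K d i ^ 2 ≤ OrdI K d (2 * i) := by
  rw [sq, Ideal.mul_le]
  intro P hP Q hQ
  rw [two_mul]
  exact ord_mul hP hQ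

theorem ord_cancel {j : ℕ} {q P : MvPolynomial (Fin d) K} (hq : constantCoeff q ≠ 0)
    (h : q * P ∈ OrdI K d j) : P ∈ OrdI K d j := by
  classical
  induction j with
  | zero =>
    rw [ord_zero]
    exact Submodule.mem_top
  | succ j ih =>
    have h1 := ih (ord_anti (Nat.le_succ j) h)
    intro s hs
    rcases Nat.lt_or_ge s.degree j with h2 | h2
    · exact h1 s h2
    · have h3 := h s hs
      rw [coeff_mul, Finset.sum_eq_single (0, s)] at h3
      · rcases mul_eq_zero.1 h3 with h4 | h4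
        · exact absurd h4 (by rw [constantCoeff_eq] at hq; exact hq)
        · exact h4
      · intro x hx hne
        rw [Finset.HasAntidiagonal.mem_antidiagonal] at hx
        have h4 : x.1.degree + x.2.degree = s.degree := by rw [← map_add, hx]
        have h5 : x.1.degree ≠ 0 := by
          intro h0
          rw [Finsupp.degree_eq_zero_iff] at h0
          apply hne
          rw [h0, zero_add] at hx
          exact Prod.ext h0 hx
        rw [h1 x.2 (by omega), mul_zero]
      · intro h4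
        exact absurd (Finset.HasAntidiagonal.mem_antidiagonal.2 (by simp)) h4

theorem ord_inv (j : ℕ) {q : MvPolynomial (Fin d) K} (hq : constantCoeff q ≠ 0) :
    ∃ V : MvPolynomial (Fin d) K, q * V - 1 ∈ OrdI K d j ∧
      constantCoeff V = (constantCoeff q)⁻¹ := by
  obtain ⟨u, hu⟩ : ∃ u, u = constantCoeff q := ⟨_, rfl⟩
  obtain ⟨e, he⟩ : ∃ e, e = 1 - C u⁻¹ * q := ⟨_, rfl⟩
  have hu0 : u ≠ 0 := by rw [hu]; exact hq
  have he0 : constantCoeff e = 0 := by
    rw [he, map_sub, map_one, map_mul, constantCoeff_C, ← hu, inv_mul_cancel₀ hu0, sub_self]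
  refine ⟨C u⁻¹ * ∑ m ∈ Finset.range (j + 1), e ^ m, ?_, ?_⟩
  · have h1 : q * (C u⁻¹ * ∑ m ∈ Finset.range (j + 1), e ^ m) - 1 = -e ^ (j + 1) := by
      have h2 := mul_neg_geom_sum e (j + 1)
      have h3 : q * (C u⁻¹ * ∑ m ∈ Finset.range (j + 1), e ^ m) =
          (1 - e) * ∑ m ∈ Finset.range (j + 1), e ^ m := by
        rw [he]
        ring
      rw [h3, h2]
      ring
    rw [h1]
    exact (OrdI K d j).neg_mem (ord_anti (Nat.le_succ j) (ord_pow ((ord_one e).2 he0) (j + 1)))
  · rw [map_mul, constantCoeff_C, map_sum, ← hu]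
    have h1 : ∑ m ∈ Finset.range (j + 1), constantCoeff (e ^ m) = 1 := by
      rw [Finset.sum_range_succ']
      simp [he0]
    rw [h1, mul_one]

/-- Powers of the ideal of polynomials whose image has no constant term. -/
theorem ord_map_pow {R : Type*} [CommRing R] (φ : R →+* MvPolynomial (Fin d) K) (I : Ideal R)
    (hI : ∀ P ∈ I, φ P ∈ OrdI K d 1) (j : ℕ) : ∀ P ∈ I ^ j, φ P ∈ OrdI K d j := by
  have key : I ^ j ≤ (OrdI K d j).comap φ := by
    induction j with
    | zero =>
      rw [ord_zero, Ideal.comap_top]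
      exact le_top
    | succ j ih =>
      rw [pow_succ, Ideal.mul_le]
      intro P hP Q hQ
      rw [Ideal.mem_comap, map_mul]
      exact ord_mul (ih hP) (hI Q hQ)
  exact fun P hP => key hP

open Classical in
/-- The matrix of the multiplication by `u` on the jets. -/
noncomputable def mulMat (d j : ℕ) (u : MvPolynomial (Fin d) K) :
    Matrix (JI d j) (JI d j) K :=
  Matrix.of fun s t => if t.1 ≤ s.1 then coeff (s.1 - t.1) u else 0

theorem ord_mulmat (j : ℕ) (u P : MvPolynomial (Fin d) K) (s : JI d j) :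
    coeff s.1 (u * P) = ∑ t, mulMat d j u s t * coeff t.1 P := by
  classical
  unfold mulMat
  simp only [Matrix.of_apply, ite_mul, zero_mul]
  rw [← Finset.sum_filter, coeff_mul]
  refine Finset.sum_bij' (fun x hx => (⟨x.2, ?_⟩ : JI d j)) (fun t _ => (s.1 - t.1, t.1))
    ?_ ?_ ?_ ?_ ?_
  · rw [Finset.HasAntidiagonal.mem_antidiagonal] at hx
    have h1 : x.1.degree + x.2.degree = s.1.degree := by rw [← map_add, hx]
    have h2 := s.2
    omega
  · intro x hx
    rw [Finset.HasAntidiagonal.mem_antidiagonal] at hx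
    rw [Finset.mem_filter]
    refine ⟨Finset.mem_univ _, ?_⟩
    show x.2 ≤ s.1
    rw [← hx]
    exact le_add_self
  · intro t ht
    rw [Finset.mem_filter] at ht
    rw [Finset.HasAntidiagonal.mem_antidiagonal]
    exact tsub_add_cancel_of_le ht.2
  · intro x hx
    rw [Finset.HasAntidiagonal.mem_antidiagonal] at hx
    refine Prod.ext ?_ rfl
    show s.1 - x.2 = x.1
    rw [← hx, add_tsub_cancel_right]
  · intro t ht
    rfl
  · intro x hx
    rw [Finset.HasAntidiagonal.mem_antidiagonal] at hx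
    show coeff x.1 u * coeff x.2 P = coeff (s.1 - x.2) u * coeff x.2 P
    rw [← hx, add_tsub_cancel_right]

end Pool.Agent.LLX
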