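import Pool.Agent.LLX.Tay
import Pool.Agent.LLX.Ord

/-!
# LLX NEWT: Newton's iteration, formal properties

`y` is a common zero of the `P i`, `J i l = ∂ P i / ∂ X_{σ (inr (inl l))} (y)` and `J * Q = 1`.

`newt_const`: induction on `m`: the constant coefficient of `aeval (newt m) (P i)` is
`eval y (P i) = 0` (`constantCoeff` is a ring homomorphism).
`newt_succ_sub`: `newt (m+1) w - newt m w ∈ OrdI (m+1)`: for `w = σ (inr (inl l))` it is
`- ∑ C (Q l i) * aeval (newt m) (P i)`, which is in `OrdI (m+1)` by `newt_ord`; for the other `w`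
it is `0` (for `m = 0` look at the definition: `newt 0 w = C (y w) (+ X b)`).
`newt_ord`: induction on `m`. `m = 0`: constant coefficient `0`. Step: with `δ = newt (m+1) -
newt m` (supported on the `inr (inl l)`, `δ_l = - ∑_i C (Q l i) P_i(newt m) ∈ OrdI (m+1)`),
`taylor_ideal` gives `P_i'(newt (m+1)) = P_i'(newt m) + ∑_l (∂_l P_i')(newt m) δ_l` modulo
`OrdI (m+1) ^ 2 ≤ OrdI (2m+2) ≤ OrdI (m+2)`, and `(∂_l P_i')(newt m) - C (J i' l) ∈ OrdI 1`
(constant coefficients), so modulo `OrdI (m+2)` it is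
`P_i'(newt m) - ∑_l ∑_i C (J i' l * Q l i) P_i(newt m) = 0` because `J * Q = 1`.
-/

set_option linter.unusedSectionVars false

open MvPolynomial

namespace Pool.Agent.LLX

variable {K W : Type*} [Field K] [Fintype W] {c d : ℕ}

/-- The Jacobian matrix at `y`. -/
noncomputable def jac (σ : (Fin 1 ⊕ (Fin c ⊕ Fin d)) ≃ W) (P : Fin c → MvPolynomial W K)
    (y : W → K) : Matrix (Fin c) (Fin c) K :=
  Matrix.of fun i l => eval y (pderiv (σ (Sum.inr (Sum.inl l))) (P i))

variable (σ : (Fin 1 ⊕ (Fin c ⊕ Fin d)) ≃ W) (P : Fin c → MvPolynomial W K) (y : W → K)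
  (Q : Matrix (Fin c) (Fin c) K)

theorem newt_inl (m : ℕ) (i : Fin 1) : newt σ P y Q m (σ (Sum.inl i)) = C (y (σ (Sum.inl i))) := by
  cases m with
  | zero => simp [newt]
  | succ m => simp [newt]

theorem newt_inr (m : ℕ) (b : Fin d) : newt σ P y Q m (σ (Sum.inr (Sum.inr b))) =
    C (y (σ (Sum.inr (Sum.inr b)))) + X b := by
  cases m with
  | zero => simp [newt]
  | succ m => simp [newt]

private theorem newt_mid0 (l : Fin c) : newt σ P y Q 0 (σ (Sum.inr (Sum.inl l))) =
    C (y (σ (Sum.inr (Sum.inl l)))) := by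
  simp [newt]

private theorem newt_mid (m : ℕ) (l : Fin c) : newt σ P y Q (m + 1) (σ (Sum.inr (Sum.inl l))) =
    newt σ P y Q m (σ (Sum.inr (Sum.inl l))) - ∑ i, C (Q l i) * aeval (newt σ P y Q m) (P i) := by
  simp [newt]

private theorem newt_cases (w : W) : (∃ i, w = σ (Sum.inl i)) ∨
    (∃ l, w = σ (Sum.inr (Sum.inl l))) ∨ ∃ b, w = σ (Sum.inr (Sum.inr b)) := by
  obtain ⟨x, rfl⟩ := σ.surjective w
  rcases x with x | x | x
  · exact Or.inl ⟨x, rfl⟩
  · exact Or.inr (Or.inl ⟨x, rfl⟩)
  · exact Or.inr (Or.inr ⟨x, rfl⟩)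

private theorem newt_cc (f : W → MvPolynomial (Fin d) K) (p : MvPolynomial W K) :
    constantCoeff (aeval f p) = eval (fun w => constantCoeff (f w)) p := by
  rw [aeval_def, hom_eval₂, eval]
  congr 1
  ext r
  simp

theorem newt_const (hy : ∀ i, eval y (P i) = 0) (m : ℕ) (w : W) :
    constantCoeff (newt σ P y Q m w) = y w := by
  induction m generalizing w with
  | zero =>
    rcases newt_cases σ w with ⟨i, rfl⟩ | ⟨l, rfl⟩ | ⟨b, rfl⟩
    · rw [newt_inl, constantCoeff_C]
    · rw [newt_mid0, constantCoeff_C]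
    · rw [newt_inr, map_add, constantCoeff_C, constantCoeff_X, add_zero]
  | succ m ih =>
    rcases newt_cases σ w with ⟨i, rfl⟩ | ⟨l, rfl⟩ | ⟨b, rfl⟩
    · rw [newt_inl, constantCoeff_C]
    · rw [newt_mid, map_sub, ih, map_sum]
      have h1 : ∀ i, constantCoeff (C (Q l i) * aeval (newt σ P y Q m) (P i)) = 0 := by
        intro i
        have h2 : (fun w => constantCoeff (newt σ P y Q m w)) = y := funext fun w => ih w
        rw [map_mul, newt_cc, h2, hy, mul_zero]
      rw [Finset.sum_eq_zero fun i _ => h1 i, sub_zero]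
    · rw [newt_inr, map_add, constantCoeff_C, constantCoeff_X, add_zero]

private theorem newt_aeval (hy : ∀ i, eval y (P i) = 0) (m : ℕ) (p : MvPolynomial W K) :
    constantCoeff (aeval (newt σ P y Q m) p) = eval y p := by
  have h2 : (fun w => constantCoeff (newt σ P y Q m w)) = y :=
    funext fun w => newt_const σ P y Q hy m w
  rw [newt_cc, h2]

theorem newt_ord (hy : ∀ i, eval y (P i) = 0) (hQ : jac σ P y * Q = 1) (m : ℕ) (i : Fin c) :
    aeval (newt σ P y Q m) (P i) ∈ OrdI K d (m + 1) := by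
  induction m generalizing i with
  | zero =>
    rw [zero_add, ord_one, newt_aeval σ P y Q hy, hy]
  | succ m ih =>
    obtain ⟨δ, hδ⟩ : ∃ δ : W → MvPolynomial (Fin d) K,
        δ = fun w => newt σ P y Q (m + 1) w - newt σ P y Q m w := ⟨_, rfl⟩
    have hδl : ∀ l, δ (σ (Sum.inr (Sum.inl l))) =
        -∑ i, C (Q l i) * aeval (newt σ P y Q m) (P i) := by
      intro l
      rw [hδ]
      simp only
      rw [newt_mid]
      ring
    have hδ0 : ∀ i, δ (σ (Sum.inl i)) = 0 := by
      intro i
      rw [hδ]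
      simp only
      rw [newt_inl, newt_inl, sub_self]
    have hδ1 : ∀ b, δ (σ (Sum.inr (Sum.inr b))) = 0 := by
      intro b
      rw [hδ]
      simp only
      rw [newt_inr, newt_inr, sub_self]
    have hδm : ∀ w, δ w ∈ OrdI K d (m + 1) := by
      intro w
      rcases newt_cases σ w with ⟨i, rfl⟩ | ⟨l, rfl⟩ | ⟨b, rfl⟩
      · rw [hδ0]
        exact Ideal.zero_mem _
      · rw [hδl]
        exact (OrdI K d (m + 1)).neg_mem
          (Ideal.sum_mem _ fun i _ => Ideal.mul_mem_left _ _ (ih i))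
      · rw [hδ1]
        exact Ideal.zero_mem _
    have h1 := taylor_ideal (R := K) (P i) (newt σ P y Q m) δ (OrdI K d (m + 1)) hδm
    have h2 : (fun w => newt σ P y Q m w + δ w) = newt σ P y Q (m + 1) := by
      funext w
      rw [hδ]
      simp only
      ring
    rw [h2] at h1
    have h3 : ∑ w, aeval (newt σ P y Q m) (pderiv w (P i)) * δ w =
        ∑ l, aeval (newt σ P y Q m) (pderiv (σ (Sum.inr (Sum.inl l))) (P i)) *
          δ (σ (Sum.inr (Sum.inl l))) := by
      rw [← Equiv.sum_comp σ, Fintype.sum_sum_type, Fintype.sum_sum_type]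
      simp only [hδ0, hδ1, mul_zero, Finset.sum_const_zero, zero_add, add_zero]
    rw [h3] at h1
    have h4 := ord_anti (K := K) (d := d) (show m + 1 + 1 ≤ 2 * (m + 1) by omega)
      (ord_sq (m + 1) h1)
    have h5 : ∑ l, (aeval (newt σ P y Q m) (pderiv (σ (Sum.inr (Sum.inl l))) (P i)) -
        C (jac σ P y i l)) * δ (σ (Sum.inr (Sum.inl l))) ∈ OrdI K d (m + 1 + 1) := by
      refine Ideal.sum_mem _ fun l _ => ?_
      rw [add_comm (m + 1) 1]
      refine ord_mul ?_ (hδm _)
      rw [ord_one, map_sub, newt_aeval σ P y Q hy, constantCoeff_C]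
      exact sub_self _
    have h6 : ∑ l, C (jac σ P y i l) * δ (σ (Sum.inr (Sum.inl l))) =
        -aeval (newt σ P y Q m) (P i) := by
      have h7 : ∀ l, C (jac σ P y i l) * δ (σ (Sum.inr (Sum.inl l))) =
          -∑ i', C (jac σ P y i l * Q l i') * aeval (newt σ P y Q m) (P i') := by
        intro l
        rw [hδl, mul_neg, Finset.mul_sum]
        congr 1
        refine Finset.sum_congr rfl fun i' _ => ?_
        rw [C_mul, mul_assoc]
      simp only [h7]
      rw [Finset.sum_neg_distrib, Finset.sum_comm]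
      congr 1
      have h8 : ∀ i', ∑ l, C (jac σ P y i l * Q l i') * aeval (newt σ P y Q m) (P i') =
          C ((jac σ P y * Q) i i') * aeval (newt σ P y Q m) (P i') := by
        intro i'
        rw [← Finset.sum_mul, ← map_sum, Matrix.mul_apply]
      simp only [h8]
      rw [hQ, Finset.sum_eq_single i]
      · rw [Matrix.one_apply_eq, C_1, one_mul]
      · intro i' _ hne
        rw [Matrix.one_apply_ne hne.symm, C_0, zero_mul]
      · intro h
        exact absurd (Finset.mem_univ i) h
    have h9 := Ideal.add_mem _ h4 h5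
    simp only [sub_mul, Finset.sum_sub_distrib] at h9
    rw [h6] at h9
    convert h9 using 1
    ring

end Pool.Agent.LLX
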