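import Pool.Agent.LLX.Defs

/-!
# LLX NRM: the weighted `l^1` norm of polynomials

`nrm ρ P = ∑ ‖c_s‖ ρ^|s|` on `MvPolynomial (Fin d) K`, `K` a normed field (`ℂ` or `PadicAlgCl p`).
All the statements are elementary: expand and use `norm_add_le`, `norm_mul`. Hints: `nrm ρ P` is
the sum over any finite set containing the support (`nrm_eq_sum`), so that sums over different
supports can be compared. For products use `P * Q = ∑ ∑ monomial (s + t) (c_s * c'_t)`
(`MvPolynomial.mul_def` or `as_sum`) and `nrm_sum_le`, `nrm_monomial`.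
`nrm_shrink`: all the monomials of `P` have degree at least `1`, and `θ ^ m ≤ θ` for `m ≥ 1`.
`nrm_aeval_le`: `P = ∑ monomials`, each monomial of degree `m ≤ e` has norm `≤ A ^ m ≤ A ^ e`.
-/

open MvPolynomial

namespace Pool.Agent.LLX

variable {K : Type*} [NormedField K] {d : ℕ} {ρ : ℝ}

theorem nrm_eq_sum (P : MvPolynomial (Fin d) K) (S : Finset (Fin d →₀ ℕ)) (hS : P.support ⊆ S) :
    nrm ρ P = ∑ s ∈ S, ‖coeff s P‖ * ρ ^ s.degree := by
  unfold nrm
  refine Finset.sum_subset hS fun s _ hs => ?_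
  rw [notMem_support_iff.1 hs, norm_zero, zero_mul]

theorem nrm_nonneg (hρ : 0 ≤ ρ) (P : MvPolynomial (Fin d) K) : 0 ≤ nrm ρ P :=
  Finset.sum_nonneg fun _ _ => mul_nonneg (norm_nonneg _) (pow_nonneg hρ _)

theorem nrm_zero : nrm ρ (0 : MvPolynomial (Fin d) K) = 0 := by
  unfold nrm
  simp

theorem nrm_monomial (s : Fin d →₀ ℕ) (c : K) : nrm ρ (monomial s c) = ‖c‖ * ρ ^ s.degree := by
  classical
  rw [nrm_eq_sum (monomial s c) {s} support_monomial_subset, Finset.sum_singleton, coeff_monomial,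
    if_pos rfl]

theorem nrm_C (c : K) : nrm ρ (C c : MvPolynomial (Fin d) K) = ‖c‖ := by
  rw [C_apply, nrm_monomial]
  simp

theorem nrm_X (b : Fin d) : nrm ρ (X b : MvPolynomial (Fin d) K) = ρ := by
  unfold X
  rw [nrm_monomial]
  simp

theorem nrm_neg (P : MvPolynomial (Fin d) K) : nrm ρ (-P) = nrm ρ P := by
  unfold nrm
  rw [support_neg]
  simp only [coeff_neg, norm_neg]

theorem nrm_add_le (hρ : 0 ≤ ρ) (P Q : MvPolynomial (Fin d) K) :
    nrm ρ (P + Q) ≤ nrm ρ P + nrm ρ Q := by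
  classical
  rw [nrm_eq_sum (P + Q) (P.support ∪ Q.support) support_add,
    nrm_eq_sum P (P.support ∪ Q.support) Finset.subset_union_left,
    nrm_eq_sum Q (P.support ∪ Q.support) Finset.subset_union_right, ← Finset.sum_add_distrib]
  refine Finset.sum_le_sum fun s _ => ?_
  rw [coeff_add, ← add_mul]
  exact mul_le_mul_of_nonneg_right (norm_add_le _ _) (pow_nonneg hρ _)

theorem nrm_sub_le (hρ : 0 ≤ ρ) (P Q : MvPolynomial (Fin d) K) :
    nrm ρ (P - Q) ≤ nrm ρ P + nrm ρ Q := by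
  rw [sub_eq_add_neg, ← nrm_neg Q]
  exact nrm_add_le hρ P (-Q)

theorem nrm_sum_le (hρ : 0 ≤ ρ) {ι : Type*} (s : Finset ι) (f : ι → MvPolynomial (Fin d) K) :
    nrm ρ (∑ i ∈ s, f i) ≤ ∑ i ∈ s, nrm ρ (f i) := by
  classical
  induction s using Finset.induction_on with
  | empty => simp [nrm_zero]
  | insert a s ha ih =>
    rw [Finset.sum_insert ha, Finset.sum_insert ha]
    exact (nrm_add_le hρ _ _).trans (by linarith)

theorem nrm_mul_le (hρ : 0 ≤ ρ) (P Q : MvPolynomial (Fin d) K) :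
    nrm ρ (P * Q) ≤ nrm ρ P * nrm ρ Q := by
  classical
  conv_lhs => rw [P.as_sum, Q.as_sum, Finset.sum_mul_sum]
  refine (nrm_sum_le hρ _ _).trans ?_
  unfold nrm
  rw [Finset.sum_mul_sum]
  refine Finset.sum_le_sum fun s _ => ?_
  refine (nrm_sum_le hρ _ _).trans ?_
  refine Finset.sum_le_sum fun t _ => ?_
  rw [monomial_mul, nrm_monomial, norm_mul, map_add, pow_add]
  apply le_of_eq
  ring

theorem nrm_pow_le (hρ : 0 ≤ ρ) (P : MvPolynomial (Fin d) K) (k : ℕ) :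
    nrm ρ (P ^ k) ≤ nrm ρ P ^ k := by
  induction k with
  | zero =>
    rw [pow_zero, pow_zero, ← C_1, nrm_C, norm_one]
  | succ k ih =>
    rw [pow_succ, pow_succ]
    exact (nrm_mul_le hρ _ _).trans (mul_le_mul_of_nonneg_right ih (nrm_nonneg hρ _))

theorem nrm_prod_le (hρ : 0 ≤ ρ) {ι : Type*} (s : Finset ι) (f : ι → MvPolynomial (Fin d) K) :
    nrm ρ (∏ i ∈ s, f i) ≤ ∏ i ∈ s, nrm ρ (f i) := by
  classical
  induction s using Finset.induction_on with
  | empty =>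
    rw [Finset.prod_empty, Finset.prod_empty, ← C_1, nrm_C, norm_one]
  | insert a s ha ih =>
    rw [Finset.prod_insert ha, Finset.prod_insert ha]
    exact (nrm_mul_le hρ _ _).trans (mul_le_mul_of_nonneg_left ih (nrm_nonneg hρ _))

theorem nrm_coeff_le (hρ : 0 ≤ ρ) (P : MvPolynomial (Fin d) K) (s : Fin d →₀ ℕ) :
    ‖coeff s P‖ * ρ ^ s.degree ≤ nrm ρ P := by
  by_cases hs : s ∈ P.support
  · exact Finset.single_le_sum (f := fun s => ‖coeff s P‖ * ρ ^ s.degree)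
      (fun s _ => mul_nonneg (norm_nonneg _) (pow_nonneg hρ _)) hs
  · rw [notMem_support_iff.1 hs, norm_zero, zero_mul]
    exact nrm_nonneg hρ P

theorem nrm_shrink (hρ : 0 ≤ ρ) (θ : ℝ) (hθ : 0 ≤ θ) (hθ1 : θ ≤ 1) (P : MvPolynomial (Fin d) K)
    (hP : constantCoeff P = 0) : nrm (θ * ρ) P ≤ θ * nrm ρ P := by
  unfold nrm
  rw [Finset.mul_sum]
  refine Finset.sum_le_sum fun s hs => ?_
  have hs0 : s.degree ≠ 0 := by
    intro h0
    rw [Finsupp.degree_eq_zero_iff] at h0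
    subst h0
    exact mem_support_iff.1 hs hP
  have h1 : θ ^ s.degree ≤ θ := pow_le_of_le_one hθ hθ1 hs0
  rw [mul_pow]
  calc ‖coeff s P‖ * (θ ^ s.degree * ρ ^ s.degree)
      = θ ^ s.degree * (‖coeff s P‖ * ρ ^ s.degree) := by ring
    _ ≤ θ * (‖coeff s P‖ * ρ ^ s.degree) :=
        mul_le_mul_of_nonneg_right h1 (mul_nonneg (norm_nonneg _) (pow_nonneg hρ _))

theorem nrm_mono (hρ : 0 ≤ ρ) {ρ' : ℝ} (h : ρ ≤ ρ') (P : MvPolynomial (Fin d) K) :
    nrm ρ P ≤ nrm ρ' P :=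
  Finset.sum_le_sum fun _ _ => mul_le_mul_of_nonneg_left (pow_le_pow_left₀ hρ h _) (norm_nonneg _)

theorem nrm_aeval_le {W : Type*} [Fintype W] (hρ : 0 ≤ ρ) (Y : W → MvPolynomial (Fin d) K)
    (A : ℝ) (hA : 1 ≤ A) (hY : ∀ w, nrm ρ (Y w) ≤ A) (P : MvPolynomial W K) (e : ℕ)
    (hP : P.totalDegree ≤ e) :
    nrm ρ (aeval Y P) ≤ (∑ s ∈ P.support, ‖coeff s P‖) * A ^ e := by
  classical
  have hA0 : 0 ≤ A := by linarith
  conv_lhs => rw [P.as_sum, map_sum]
  refine (nrm_sum_le hρ _ _).trans ?_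
  rw [Finset.sum_mul]
  refine Finset.sum_le_sum fun s hs => ?_
  rw [aeval_monomial, MvPolynomial.algebraMap_eq]
  refine (nrm_mul_le hρ _ _).trans ?_
  rw [nrm_C]
  refine mul_le_mul_of_nonneg_left ?_ (norm_nonneg _)
  have h1 : nrm ρ (s.prod fun i k => Y i ^ k) ≤ ∏ i ∈ s.support, A ^ s i := by
    refine (nrm_prod_le hρ s.support fun i => Y i ^ s i).trans ?_
    refine Finset.prod_le_prod (fun i _ => nrm_nonneg hρ _) fun i _ => ?_
    exact (nrm_pow_le hρ _ _).trans (pow_le_pow_left₀ (nrm_nonneg hρ _) (hY i) _)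
  refine h1.trans ?_
  rw [Finset.prod_pow_eq_pow_sum]
  exact pow_le_pow_right₀ hA ((le_totalDegree hs).trans hP)

end Pool.Agent.LLX
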