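import Pool.Agent.LLX.Defs
import Pool.Agent.LLX.Nrm

/-!
# LLX TAY: Taylor expansion to second order

`taylor_ideal`. The set of the `P` for which the statement holds (for given `y`, `δ`, `I`)
contains the constants and the variables, and is closed under sums and products (Leibniz rule,
using `aeval (y + δ) P - aeval y P ∈ I`); use `MvPolynomial.induction_on` or
`MvPolynomial.induction_on'`; prove together that `aeval (y + δ) P - aeval y P ∈ I`.

`taylor_nrm`. Reduce to monomials `∏ X w ^ s w` of degree `m ≤ e` (`P.as_sum`, `nrm_sum_le`).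
For a product of `m` factors `C y_i + Z_i` with `‖y_i‖ ≤ 1`, `nrm Z_i ≤ η ≤ 1` show by induction
on the number of factors the three bounds
`nrm (∏ - C ∏ y) ≤ 2^m η`, `nrm (∏ - C ∏ y - ∑_i C (∏_{i' ≠ i} y_i') Z_i) ≤ 2^m η²`, and
`nrm (∏) ≤ 2^m`. (Or: expand the product over subsets: the terms with at least two factors `Z`.)
It may be convenient to prove the statement by induction on the polynomial in the form:
let `N P = ∑ ‖coeff‖ 2 ^ |s|`; then the remainder `R P` satisfies `nrm (R P) ≤ N P η²`,
`nrm (R' P) ≤ N P η` for the first order remainder, and for a monomial times a variable use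
`R (P X_w) = R P (C y_w + Z_w) + (R' P) Z_w ...`.
-/

open MvPolynomial

namespace Pool.Agent.LLX

private theorem tay_ideal_aux {R A W : Type*} [CommRing R] [CommRing A] [Algebra R A] [Fintype W]
    (P : MvPolynomial W R) (y δ : W → A) (I : Ideal A) (hδ : ∀ w, δ w ∈ I) :
    aeval (fun w => y w + δ w) P - aeval y P ∈ I ∧
    aeval (fun w => y w + δ w) P - aeval y P - ∑ w, aeval y (pderiv w P) * δ w ∈ I ^ 2 := by
  classical
  induction P using MvPolynomial.induction_on with
  | C a => simp
  | add p q hp hq =>
    constructor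
    · have h : aeval (fun w => y w + δ w) (p + q) - aeval y (p + q) =
          (aeval (fun w => y w + δ w) p - aeval y p) +
          (aeval (fun w => y w + δ w) q - aeval y q) := by
        rw [map_add, map_add]
        ring
      rw [h]
      exact I.add_mem hp.1 hq.1
    · have h : aeval (fun w => y w + δ w) (p + q) - aeval y (p + q) -
          ∑ w, aeval y (pderiv w (p + q)) * δ w =
          (aeval (fun w => y w + δ w) p - aeval y p - ∑ w, aeval y (pderiv w p) * δ w) +
          (aeval (fun w => y w + δ w) q - aeval y q - ∑ w, aeval y (pderiv w q) * δ w) := by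
        have h1 : ∑ w, aeval y (pderiv w (p + q)) * δ w =
            ∑ w, aeval y (pderiv w p) * δ w + ∑ w, aeval y (pderiv w q) * δ w := by
          rw [← Finset.sum_add_distrib]
          refine Finset.sum_congr rfl fun w _ => ?_
          rw [map_add, map_add, add_mul]
        rw [h1, map_add, map_add]
        ring
      rw [h]
      exact (I ^ 2).add_mem hp.2 hq.2
  | mul_X p v hp =>
    have h1 : ∑ w, aeval y (pderiv w (p * X v)) * δ w =
        (∑ w, aeval y (pderiv w p) * δ w) * y v + aeval y p * δ v := by
      have h2 : ∀ w, aeval y (pderiv w (p * X v)) * δ w =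
          aeval y (pderiv w p) * δ w * y v + (if w = v then aeval y p * δ v else 0) := by
        intro w
        rw [Derivation.leibniz, pderiv_X]
        by_cases hwv : w = v
        · subst hwv
          simp
          ring
        · rw [Pi.single_eq_of_ne (fun h => hwv h.symm)]
          simp [hwv]
          ring
      rw [Finset.sum_congr rfl fun w _ => h2 w, Finset.sum_add_distrib, Finset.sum_mul,
        Finset.sum_ite_eq' Finset.univ v]
      simp
    constructor
    · have h : aeval (fun w => y w + δ w) (p * X v) - aeval y (p * X v) =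
          (aeval (fun w => y w + δ w) p - aeval y p) * y v +
            aeval (fun w => y w + δ w) p * δ v := by
        rw [map_mul, map_mul, aeval_X, aeval_X]
        ring
      rw [h]
      exact I.add_mem (I.mul_mem_right _ hp.1) (I.mul_mem_left _ (hδ v))
    · have h : aeval (fun w => y w + δ w) (p * X v) - aeval y (p * X v) -
          ∑ w, aeval y (pderiv w (p * X v)) * δ w =
          (aeval (fun w => y w + δ w) p - aeval y p - ∑ w, aeval y (pderiv w p) * δ w) * y v +
            (aeval (fun w => y w + δ w) p - aeval y p) * δ v := by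
        rw [h1, map_mul, map_mul, aeval_X, aeval_X]
        ring
      rw [h]
      refine (I ^ 2).add_mem ((I ^ 2).mul_mem_right _ hp.2) ?_
      rw [pow_two]
      exact Ideal.mul_mem_mul hp.1 (hδ v)

theorem taylor_ideal {R A W : Type*} [CommRing R] [CommRing A] [Algebra R A] [Fintype W]
    (P : MvPolynomial W R) (y δ : W → A) (I : Ideal A) (hδ : ∀ w, δ w ∈ I) :
    aeval (fun w => y w + δ w) P - aeval y P - ∑ w, aeval y (pderiv w P) * δ w ∈ I ^ 2 :=
  (tay_ideal_aux P y δ I hδ).2

private theorem tay_nrm_aux {K W : Type*} [NormedField K] [Fintype W] {d : ℕ} {ρ : ℝ}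
    (hρ : 0 ≤ ρ) (y : W → K) (hy : ∀ w, ‖y w‖ ≤ 1)
    (Z : W → MvPolynomial (Fin d) K) (η : ℝ) (hη : 0 ≤ η) (hη1 : η ≤ 1)
    (hZ : ∀ w, nrm ρ (Z w) ≤ η) (m : ℕ) : ∀ s : W →₀ ℕ, s.degree = m →
      nrm ρ (aeval (fun w => C (y w) + Z w) (monomial s (1 : K))) ≤ 2 ^ m ∧
      nrm ρ (aeval (fun w => C (y w) + Z w) (monomial s (1 : K)) -
        C (eval y (monomial s (1 : K)))) ≤ (2 ^ m - 1) * η ∧
      nrm ρ (aeval (fun w => C (y w) + Z w) (monomial s (1 : K)) -
        C (eval y (monomial s (1 : K))) -
        ∑ w, C (eval y (pderiv w (monomial s (1 : K)))) * Z w) ≤ (2 ^ m - 1) * η ^ 2 := by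
  classical
  induction m with
  | zero =>
    intro s hs
    rw [Finsupp.degree_eq_zero_iff] at hs
    subst hs
    have h1 : (monomial (0 : W →₀ ℕ) (1 : K)) = 1 := rfl
    rw [h1]
    simp only [map_one, Derivation.map_one_eq_zero, map_zero, zero_mul, Finset.sum_const_zero,
      sub_self, pow_zero]
    refine ⟨?_, ?_, ?_⟩
    · rw [← C_1, nrm_C, norm_one]
    · rw [nrm_zero]
    · rw [nrm_zero]
  | succ m ih =>
    intro s hs
    have hs0 : s ≠ 0 := by
      intro h0
      rw [h0, map_zero] at hs
      omega
    obtain ⟨v, hv⟩ : ∃ v, s v ≠ 0 := by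
      by_contra hcon
      push Not at hcon
      exact hs0 (Finsupp.ext hcon)
    obtain ⟨t, ht⟩ : ∃ t : W →₀ ℕ, s = t + Finsupp.single v 1 := by
      refine ⟨s - Finsupp.single v 1, ?_⟩
      ext w
      by_cases hwv : v = w
      · subst hwv
        simp
        omega
      · simp [Finsupp.single_eq_of_ne' hwv]
    have htd : t.degree = m := by
      rw [ht, map_add, Finsupp.degree_single] at hs
      omega
    obtain ⟨i1, i2, i3⟩ := ih t htd
    rw [ht, monomial_add_single, pow_one]
    generalize monomial t (1 : K) = p at i1 i2 i3 ⊢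
    have hyZ : nrm ρ (C (y v) + Z v) ≤ 2 := by
      refine (nrm_add_le hρ _ _).trans ?_
      rw [nrm_C]
      have := hy v
      have := hZ v
      linarith
    have hder : ∑ w, C (eval y (pderiv w (p * X v))) * Z w =
        (∑ w, C (eval y (pderiv w p)) * Z w) * C (y v) + C (eval y p) * Z v := by
      have h2 : ∀ w, C (eval y (pderiv w (p * X v))) * Z w =
          C (eval y (pderiv w p)) * Z w * C (y v) +
            (if w = v then C (eval y p) * Z v else 0) := by
        intro w
        rw [Derivation.leibniz, pderiv_X]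
        by_cases hwv : w = v
        · subst hwv
          simp
          ring
        · rw [Pi.single_eq_of_ne (fun h => hwv h.symm)]
          simp [hwv]
          ring
      rw [Finset.sum_congr rfl fun w _ => h2 w, Finset.sum_add_distrib, Finset.sum_mul,
        Finset.sum_ite_eq' Finset.univ v]
      simp
    have hZ0 : 0 ≤ nrm ρ (Z v) := nrm_nonneg hρ _
    have h2m : (1 : ℝ) ≤ 2 ^ m := one_le_pow₀ (by norm_num)
    refine ⟨?_, ?_, ?_⟩
    · rw [map_mul, aeval_X]
      refine (nrm_mul_le hρ _ _).trans ?_
      rw [pow_succ]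
      exact mul_le_mul i1 hyZ (nrm_nonneg hρ _) (by positivity)
    · have h : aeval (fun w => C (y w) + Z w) (p * X v) - C (eval y (p * X v)) =
          (aeval (fun w => C (y w) + Z w) p - C (eval y p)) * C (y v) +
            aeval (fun w => C (y w) + Z w) p * Z v := by
        rw [map_mul, map_mul, aeval_X, eval_X, C_mul]
        ring
      rw [h]
      refine (nrm_add_le hρ _ _).trans ?_
      have e1 : nrm ρ ((aeval (fun w => C (y w) + Z w) p - C (eval y p)) * C (y v)) ≤
          (2 ^ m - 1) * η * 1 := by
        refine (nrm_mul_le hρ _ _).trans ?_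
        refine mul_le_mul i2 ?_ (nrm_nonneg hρ _) ?_
        · rw [nrm_C]
          exact hy v
        · exact mul_nonneg (by linarith) hη
      have e2 : nrm ρ (aeval (fun w => C (y w) + Z w) p * Z v) ≤ 2 ^ m * η := by
        refine (nrm_mul_le hρ _ _).trans ?_
        exact mul_le_mul i1 (hZ v) hZ0 (by positivity)
      rw [pow_succ]
      linarith
    · have h : aeval (fun w => C (y w) + Z w) (p * X v) - C (eval y (p * X v)) -
          ∑ w, C (eval y (pderiv w (p * X v))) * Z w =
          (aeval (fun w => C (y w) + Z w) p - C (eval y p) -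
            ∑ w, C (eval y (pderiv w p)) * Z w) * C (y v) +
            (aeval (fun w => C (y w) + Z w) p - C (eval y p)) * Z v := by
        rw [hder, map_mul, map_mul, aeval_X, eval_X, C_mul]
        ring
      rw [h]
      refine (nrm_add_le hρ _ _).trans ?_
      have e1 : nrm ρ ((aeval (fun w => C (y w) + Z w) p - C (eval y p) -
            ∑ w, C (eval y (pderiv w p)) * Z w) * C (y v)) ≤
          (2 ^ m - 1) * η ^ 2 * 1 := by
        refine (nrm_mul_le hρ _ _).trans ?_
        refine mul_le_mul i3 ?_ (nrm_nonneg hρ _) ?_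
        · rw [nrm_C]
          exact hy v
        · exact mul_nonneg (by linarith) (by positivity)
      have e2 : nrm ρ ((aeval (fun w => C (y w) + Z w) p - C (eval y p)) * Z v) ≤
          (2 ^ m - 1) * η * η := by
        refine (nrm_mul_le hρ _ _).trans ?_
        exact mul_le_mul i2 (hZ v) hZ0 (mul_nonneg (by linarith) hη)
      have e3 : 0 ≤ η ^ 2 := by positivity
      rw [pow_succ]
      nlinarith

theorem taylor_nrm {K W : Type*} [NormedField K] [Fintype W] {d : ℕ} {ρ : ℝ} (hρ : 0 ≤ ρ)
    (P : MvPolynomial W K) (e : ℕ) (hP : P.totalDegree ≤ e) (y : W → K) (hy : ∀ w, ‖y w‖ ≤ 1)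
    (Z : W → MvPolynomial (Fin d) K) (η : ℝ) (hη : 0 ≤ η) (hη1 : η ≤ 1)
    (hZ : ∀ w, nrm ρ (Z w) ≤ η) :
    nrm ρ (aeval (fun w => C (y w) + Z w) P - C (eval y P) -
      ∑ w, C (eval y (pderiv w P)) * Z w) ≤
      (∑ s ∈ P.support, ‖coeff s P‖) * 2 ^ e * η ^ 2 := by
  classical
  have key : aeval (fun w => C (y w) + Z w) P - C (eval y P) -
      ∑ w, C (eval y (pderiv w P)) * Z w = ∑ s ∈ P.support, C (coeff s P) *
        (aeval (fun w => C (y w) + Z w) (monomial s (1 : K)) -
        C (eval y (monomial s (1 : K))) -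
        ∑ w, C (eval y (pderiv w (monomial s (1 : K)))) * Z w) := by
    have hm : ∀ s : W →₀ ℕ, monomial s (coeff s P) = C (coeff s P) * monomial s (1 : K) := by
      intro s
      rw [C_mul_monomial, mul_one]
    have hPs : P = ∑ s ∈ P.support, C (coeff s P) * monomial s (1 : K) := by
      conv_lhs => rw [P.as_sum]
      exact Finset.sum_congr rfl fun s _ => hm s
    have a1 : aeval (fun w => C (y w) + Z w) P = ∑ s ∈ P.support, C (coeff s P) *
        aeval (fun w => C (y w) + Z w) (monomial s (1 : K)) := by
      conv_lhs => rw [hPs]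
      rw [map_sum]
      refine Finset.sum_congr rfl fun s _ => ?_
      rw [map_mul, aeval_C, MvPolynomial.algebraMap_eq]
    have a2 : C (eval y P) = ∑ s ∈ P.support, C (coeff s P) *
        (C (eval y (monomial s (1 : K))) : MvPolynomial (Fin d) K) := by
      conv_lhs => rw [hPs]
      rw [map_sum, map_sum]
      refine Finset.sum_congr rfl fun s _ => ?_
      rw [map_mul, eval_C, C_mul]
    have a3 : ∑ w, C (eval y (pderiv w P)) * Z w = ∑ s ∈ P.support, C (coeff s P) *
        ∑ w, C (eval y (pderiv w (monomial s (1 : K)))) * Z w := by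
      have b : ∀ w, C (eval y (pderiv w P)) * Z w = ∑ s ∈ P.support, C (coeff s P) *
          (C (eval y (pderiv w (monomial s (1 : K)))) * Z w) := by
        intro w
        conv_lhs => rw [hPs]
        rw [map_sum, map_sum, map_sum, Finset.sum_mul]
        refine Finset.sum_congr rfl fun s _ => ?_
        rw [pderiv_C_mul, map_mul (eval y), eval_C, C_mul, mul_assoc]
      rw [Finset.sum_congr rfl fun w _ => b w, Finset.sum_comm]
      refine Finset.sum_congr rfl fun s _ => ?_
      rw [Finset.mul_sum]
    rw [a1, a2, a3, ← Finset.sum_sub_distrib, ← Finset.sum_sub_distrib]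
    refine Finset.sum_congr rfl fun s _ => ?_
    ring
  rw [key]
  refine (nrm_sum_le hρ _ _).trans ?_
  rw [mul_assoc, Finset.sum_mul]
  refine Finset.sum_le_sum fun s hs => ?_
  refine (nrm_mul_le hρ _ _).trans ?_
  rw [nrm_C]
  refine mul_le_mul_of_nonneg_left ?_ (norm_nonneg _)
  refine (tay_nrm_aux hρ y hy Z η hη hη1 hZ _ s rfl).2.2.trans ?_
  refine mul_le_mul_of_nonneg_right ?_ (by positivity)
  have h1 : s.degree ≤ e := (le_totalDegree hs).trans hP
  have h2 : (2 : ℝ) ^ s.degree ≤ 2 ^ e := pow_le_pow_right₀ (by norm_num) h1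
  linarith

end Pool.Agent.LLX
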