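import Pool.Agent.LLX.Nrm
import Pool.Agent.LLX.Tay
import Pool.Agent.LLX.Newt

/-!
# LLX NEWTB: Newton's iteration stays bounded on a fixed polydisc

Proof. Put `η = 1 / (2 (c+1) B^2 2^e)` (so `0 < η ≤ 1`), and `ρ₀ ≤ η` with
`(c+1) B · (d+1) · (e B) · ρ₀ ≤ η / 2`, i.e. `ρ₀ = η / (2 (c+1) (d+1) (e+1) B^2)`.
Show by induction on `m`: `nrm ρ₀ (newt m w - C (y w)) ≤ η` for all `w`.
`m = 0`: it is `0` or `X b` of norm `ρ₀ ≤ η`.
Step: write `newt m w = C (y w) + Z w`, so `Z (σ (inl 0)) = 0`, `Z (σ (inr (inr b))) = X b`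
(`newt_inl`, `newt_inr`). `taylor_nrm` gives
`aeval (newt m) (P i) = ∑_w C (∂_w P_i (y)) * Z w + R i`, `nrm (R i) ≤ B 2^e η²`
(`eval y (P i) = 0`). Since `Q * jac = 1`,
`∑_i C (Q l i) * ∑_l' C (jac i l') * Z_l' = Z_l`, so
`newt (m+1) w - C (y w) = - ∑_i C (Q l i) * (∑_b C (∂_b P_i (y)) * X b + R i)` for
`w = σ (inr (inl l))`, of norm `≤ c B (d e B ρ₀ + B 2^e η²) ≤ η / 2 + η / 2`.
Here `‖∂_b P_i (y)‖ ≤ e B` because `‖(k : K)‖ ≤ k` for natural `k ≤ e` and `‖y‖ ≤ 1`.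
-/

open MvPolynomial

namespace Pool.Agent.LLX

private theorem newtb_eval_mono {K W : Type*} [NormedField K] [Fintype W] (y : W → K)
    (hy : ∀ w, ‖y w‖ ≤ 1) (s : W →₀ ℕ) (a : K) : ‖eval y (monomial s a)‖ ≤ ‖a‖ := by
  rw [eval_monomial, norm_mul]
  refine mul_le_of_le_one_right (norm_nonneg _) ?_
  unfold Finsupp.prod
  rw [norm_prod]
  refine Finset.prod_le_one (fun _ _ => norm_nonneg _) fun w _ => ?_
  rw [norm_pow]
  exact pow_le_one₀ (norm_nonneg _) (hy w)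

private theorem newtb_der {K W : Type*} [NormedField K] [Fintype W] (y : W → K)
    (hy : ∀ w, ‖y w‖ ≤ 1) (P : MvPolynomial W K) (e : ℕ) (hP : P.totalDegree ≤ e) (B : ℝ)
    (hB : ∑ s ∈ P.support, ‖coeff s P‖ ≤ B) (w : W) : ‖eval y (pderiv w P)‖ ≤ e * B := by
  classical
  have h1 : eval y (pderiv w P) = ∑ s ∈ P.support, eval y (pderiv w (monomial s (coeff s P))) := by
    conv_lhs => rw [P.as_sum]
    rw [map_sum, map_sum]
  rw [h1]
  refine (norm_sum_le _ _).trans ?_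
  have h2 : ∀ s ∈ P.support, ‖eval y (pderiv w (monomial s (coeff s P)))‖ ≤
      e * ‖coeff s P‖ := by
    intro s hs
    rw [pderiv_monomial]
    refine (newtb_eval_mono y hy _ _).trans ?_
    rw [norm_mul, mul_comm]
    refine mul_le_mul_of_nonneg_right ?_ (norm_nonneg _)
    have h3 : ‖((s w : ℕ) : K)‖ ≤ (s w : ℝ) := by
      have := Nat.norm_cast_le (α := K) (s w)
      rwa [norm_one, mul_one] at this
    refine h3.trans ?_
    have h4 : s w ≤ s.degree := by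
      rw [Finsupp.degree_eq_sum]
      exact Finset.single_le_sum (f := fun b => s b) (fun _ _ => Nat.zero_le _)
        (Finset.mem_univ w)
    have h5 : s.degree ≤ e := (le_totalDegree hs).trans hP
    exact_mod_cast h4.trans h5
  refine (Finset.sum_le_sum h2).trans ?_
  rw [← Finset.mul_sum]
  exact mul_le_mul_of_nonneg_left hB (Nat.cast_nonneg _)

theorem newt_bound (c d e : ℕ) (W : Type*) [Fintype W] (B : ℝ) (hB : 1 ≤ B) :
    ∃ ρ₀ : ℝ, 0 < ρ₀ ∧ ρ₀ ≤ 1 ∧ ∀ (K : Type) [NormedField K]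
      (σ : (Fin 1 ⊕ (Fin c ⊕ Fin d)) ≃ W) (P : Fin c → MvPolynomial W K) (y : W → K)
      (Q : Matrix (Fin c) (Fin c) K), (∀ i, (P i).totalDegree ≤ e) →
      (∀ i, ∑ s ∈ (P i).support, ‖coeff s (P i)‖ ≤ B) → (∀ w, ‖y w‖ ≤ 1) →
      (∀ l i, ‖Q l i‖ ≤ B) → (∀ i, eval y (P i) = 0) → Q * jac σ P y = 1 →
      ∀ m w, nrm ρ₀ (newt σ P y Q m w - C (y w)) ≤ 1 := by
  classical
  obtain ⟨η, hη⟩ : ∃ η : ℝ, η = 1 / (2 * ((c : ℝ) + 1) * B ^ 2 * 2 ^ e) := ⟨_, rfl⟩
  obtain ⟨ρ₀, hρ₀⟩ : ∃ ρ₀ : ℝ, ρ₀ =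
      η / (2 * ((c : ℝ) + 1) * ((d : ℝ) + 1) * ((e : ℝ) + 1) * B ^ 2) := ⟨_, rfl⟩
  have hc0 : (0 : ℝ) ≤ c := Nat.cast_nonneg _
  have hd0 : (0 : ℝ) ≤ d := Nat.cast_nonneg _
  have he0 : (0 : ℝ) ≤ e := Nat.cast_nonneg _
  have hB2 : 1 ≤ B ^ 2 := one_le_pow₀ hB
  have h2e : (1 : ℝ) ≤ 2 ^ e := one_le_pow₀ (by norm_num)
  have hden1 : 1 ≤ 2 * ((c : ℝ) + 1) * B ^ 2 * 2 ^ e := by
    have a1 : (1 : ℝ) ≤ 2 * ((c : ℝ) + 1) := by linarith
    exact one_le_mul_of_one_le_of_one_le (one_le_mul_of_one_le_of_one_le a1 hB2) h2e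
  have hden2 : 1 ≤ 2 * ((c : ℝ) + 1) * ((d : ℝ) + 1) * ((e : ℝ) + 1) * B ^ 2 := by
    have a1 : (1 : ℝ) ≤ 2 * ((c : ℝ) + 1) := by linarith
    have a2 : (1 : ℝ) ≤ (d : ℝ) + 1 := by linarith
    have a3 : (1 : ℝ) ≤ (e : ℝ) + 1 := by linarith
    exact one_le_mul_of_one_le_of_one_le
      (one_le_mul_of_one_le_of_one_le (one_le_mul_of_one_le_of_one_le a1 a2) a3) hB2
  have hηpos : 0 < η := by
    rw [hη]
    positivity
  have hη1 : η ≤ 1 := by
    rw [hη, div_le_one (by linarith)]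
    exact hden1
  have hρpos : 0 < ρ₀ := by
    rw [hρ₀]
    positivity
  have hρη : ρ₀ ≤ η := by
    rw [hρ₀]
    exact div_le_self hηpos.le hden2
  -- the two estimates
  have est1 : (c : ℝ) * (B * (B * 2 ^ e * η ^ 2)) ≤ η / 2 := by
    have h1 : 2 * ((c : ℝ) + 1) * B ^ 2 * 2 ^ e * η = 1 := by
      rw [hη]
      field_simp
    have h2 : (c : ℝ) * (B * (B * 2 ^ e * η ^ 2)) =
        (2 * (c : ℝ) * B ^ 2 * 2 ^ e * η) * (η / 2) := by ring
    have h3 : 2 * (c : ℝ) * B ^ 2 * 2 ^ e * η ≤ 1 := by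
      have h4 : 2 * ((c : ℝ) + 1) * B ^ 2 * 2 ^ e * η =
        2 * (c : ℝ) * B ^ 2 * 2 ^ e * η + 2 * B ^ 2 * 2 ^ e * η := by ring
      have h5 : 0 ≤ 2 * B ^ 2 * 2 ^ e * η := by positivity
      linarith
    rw [h2]
    have h6 : 0 ≤ η / 2 := by positivity
    calc (2 * (c : ℝ) * B ^ 2 * 2 ^ e * η) * (η / 2) ≤ 1 * (η / 2) :=
          mul_le_mul_of_nonneg_right h3 h6
      _ = η / 2 := one_mul _
  have est2 : (c : ℝ) * (B * ((d : ℝ) * ((e : ℝ) * B * ρ₀))) ≤ η / 2 := by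
    have h1 : 2 * ((c : ℝ) + 1) * ((d : ℝ) + 1) * ((e : ℝ) + 1) * B ^ 2 * ρ₀ = η := by
      rw [hρ₀]
      field_simp
    have h2 : (c : ℝ) * (B * ((d : ℝ) * ((e : ℝ) * B * ρ₀))) =
        ((c : ℝ) * d * e) * (B ^ 2 * ρ₀) := by ring
    have h3 : ((c : ℝ) * d * e) ≤ ((c : ℝ) + 1) * ((d : ℝ) + 1) * ((e : ℝ) + 1) := by
      have a1 : (c : ℝ) * d ≤ ((c : ℝ) + 1) * ((d : ℝ) + 1) :=
        mul_le_mul (by linarith) (by linarith) hd0 (by linarith)
      exact mul_le_mul a1 (by linarith) he0 (by positivity)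
    have h4 : 0 ≤ B ^ 2 * ρ₀ := by positivity
    rw [h2]
    calc ((c : ℝ) * d * e) * (B ^ 2 * ρ₀) ≤
          (((c : ℝ) + 1) * ((d : ℝ) + 1) * ((e : ℝ) + 1)) * (B ^ 2 * ρ₀) :=
          mul_le_mul_of_nonneg_right h3 h4
      _ = (2 * ((c : ℝ) + 1) * ((d : ℝ) + 1) * ((e : ℝ) + 1) * B ^ 2 * ρ₀) / 2 := by ring
      _ = η / 2 := by rw [h1]
  refine ⟨ρ₀, hρpos, hρη.trans hη1, ?_⟩
  intro K _ σ P y Q hdeg hco hy hQ hP0 hQJ
  suffices h : ∀ m w, nrm ρ₀ (newt σ P y Q m w - C (y w)) ≤ η from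
    fun m w => (h m w).trans hη1
  have hinl : ∀ (m : ℕ) (i : Fin 1),
      nrm ρ₀ (newt σ P y Q m (σ (Sum.inl i)) - C (y (σ (Sum.inl i)))) ≤ η := by
    intro m i
    rw [newt_inl, sub_self, nrm_zero]
    exact hηpos.le
  have hinr : ∀ (m : ℕ) (b : Fin d),
      nrm ρ₀ (newt σ P y Q m (σ (Sum.inr (Sum.inr b))) -
        C (y (σ (Sum.inr (Sum.inr b))))) ≤ η := by
    intro m b
    rw [newt_inr, add_sub_cancel_left, nrm_X]
    exact hρη
  have hred : ∀ m : ℕ, (∀ l : Fin c, nrm ρ₀ (newt σ P y Q m (σ (Sum.inr (Sum.inl l))) -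
        C (y (σ (Sum.inr (Sum.inl l))))) ≤ η) →
      ∀ w, nrm ρ₀ (newt σ P y Q m w - C (y w)) ≤ η := by
    intro m hm w
    obtain ⟨v, rfl⟩ := σ.surjective w
    rcases v with i | l | b
    · exact hinl m i
    · exact hm l
    · exact hinr m b
  intro m
  induction m with
  | zero =>
    refine hred 0 fun l => ?_
    have h0 : newt σ P y Q 0 (σ (Sum.inr (Sum.inl l))) =
        C (y (σ (Sum.inr (Sum.inl l)))) := by
      simp only [newt, Equiv.symm_apply_apply, add_zero]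
    rw [h0, sub_self, nrm_zero]
    exact hηpos.le
  | succ m ih =>
    refine hred (m + 1) fun l => ?_
    obtain ⟨Z, hZdef⟩ : ∃ Z : W → MvPolynomial (Fin d) K,
        ∀ w, Z w = newt σ P y Q m w - C (y w) := ⟨_, fun _ => rfl⟩
    have hnewt : newt σ P y Q m = fun w => C (y w) + Z w := by
      funext w
      rw [hZdef]
      ring
    have hZ : ∀ w, nrm ρ₀ (Z w) ≤ η := by
      intro w
      rw [hZdef]
      exact ih w
    obtain ⟨R, hR⟩ : ∃ R : Fin c → MvPolynomial (Fin d) K, ∀ i, R i =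
        aeval (fun w => C (y w) + Z w) (P i) - C (eval y (P i)) -
          ∑ w, C (eval y (pderiv w (P i))) * Z w := ⟨_, fun _ => rfl⟩
    have hRn : ∀ i, nrm ρ₀ (R i) ≤ B * 2 ^ e * η ^ 2 := by
      intro i
      rw [hR]
      refine (taylor_nrm hρpos.le (P i) e (hdeg i) y hy Z η hηpos.le hη1 hZ).trans ?_
      refine mul_le_mul_of_nonneg_right ?_ (by positivity)
      exact mul_le_mul_of_nonneg_right (hco i) (by positivity)
    have hsum : ∀ i, ∑ w, C (eval y (pderiv w (P i))) * Z w =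
        ∑ l' : Fin c, C (jac σ P y i l') * Z (σ (Sum.inr (Sum.inl l'))) +
        ∑ b : Fin d, C (eval y (pderiv (σ (Sum.inr (Sum.inr b))) (P i))) * X b := by
      intro i
      rw [← σ.sum_comp, Fintype.sum_sum_type, Fintype.sum_sum_type]
      have e1 : ∑ x : Fin 1, C (eval y (pderiv (σ (Sum.inl x)) (P i))) * Z (σ (Sum.inl x)) =
          0 := by
        refine Finset.sum_eq_zero fun x _ => ?_
        rw [hZdef, newt_inl, sub_self, mul_zero]
      rw [e1, zero_add]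
      congr 1
      refine Finset.sum_congr rfl fun b _ => ?_
      rw [hZdef, newt_inr, add_sub_cancel_left]
    have hP : ∀ i, aeval (newt σ P y Q m) (P i) = R i +
        (∑ l' : Fin c, C (jac σ P y i l') * Z (σ (Sum.inr (Sum.inl l'))) +
        ∑ b : Fin d, C (eval y (pderiv (σ (Sum.inr (Sum.inr b))) (P i))) * X b) := by
      intro i
      rw [hnewt, ← hsum i, hR, hP0 i, C_0]
      ring
    have hstep : newt σ P y Q (m + 1) (σ (Sum.inr (Sum.inl l))) =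
        newt σ P y Q m (σ (Sum.inr (Sum.inl l))) -
          ∑ i, C (Q l i) * aeval (newt σ P y Q m) (P i) := by
      simp only [newt, Equiv.symm_apply_apply]
    have hQJ' : ∑ i, C (Q l i) * ∑ l' : Fin c, C (jac σ P y i l') *
        Z (σ (Sum.inr (Sum.inl l'))) = Z (σ (Sum.inr (Sum.inl l))) := by
      have e1 : ∀ i, C (Q l i) * ∑ l' : Fin c, C (jac σ P y i l') *
          Z (σ (Sum.inr (Sum.inl l'))) = ∑ l' : Fin c, C (Q l i * jac σ P y i l') *
          Z (σ (Sum.inr (Sum.inl l'))) := by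
        intro i
        rw [Finset.mul_sum]
        refine Finset.sum_congr rfl fun l' _ => ?_
        rw [C_mul]
        ring
      rw [Finset.sum_congr rfl fun i _ => e1 i, Finset.sum_comm]
      have e2 : ∀ l', ∑ i, C (Q l i * jac σ P y i l') * Z (σ (Sum.inr (Sum.inl l'))) =
          if l = l' then Z (σ (Sum.inr (Sum.inl l'))) else 0 := by
        intro l'
        rw [← Finset.sum_mul, ← map_sum C]
        have e3 : ∑ i, Q l i * jac σ P y i l' = (1 : Matrix (Fin c) (Fin c) K) l l' := by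
          rw [← hQJ, Matrix.mul_apply]
        rw [e3, Matrix.one_apply]
        by_cases hl : l = l'
        · rw [if_pos hl, if_pos hl, C_1, one_mul]
        · rw [if_neg hl, if_neg hl, C_0, zero_mul]
      rw [Finset.sum_congr rfl fun l' _ => e2 l', Finset.sum_ite_eq Finset.univ l]
      simp
    have hfin : newt σ P y Q (m + 1) (σ (Sum.inr (Sum.inl l))) -
        C (y (σ (Sum.inr (Sum.inl l)))) =
        -∑ i, C (Q l i) * (R i +
          ∑ b : Fin d, C (eval y (pderiv (σ (Sum.inr (Sum.inr b))) (P i))) * X b) := by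
      have e1 : ∑ i, C (Q l i) * aeval (newt σ P y Q m) (P i) =
          ∑ i, C (Q l i) * (R i +
          ∑ b : Fin d, C (eval y (pderiv (σ (Sum.inr (Sum.inr b))) (P i))) * X b) +
          ∑ i, C (Q l i) * ∑ l' : Fin c, C (jac σ P y i l') *
            Z (σ (Sum.inr (Sum.inl l'))) := by
        rw [← Finset.sum_add_distrib]
        refine Finset.sum_congr rfl fun i _ => ?_
        rw [hP i]
        ring
      rw [hstep, e1, hQJ', hZdef]
      ring
    rw [hfin, nrm_neg]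
    refine (nrm_sum_le hρpos.le _ _).trans ?_
    have hterm : ∀ i ∈ (Finset.univ : Finset (Fin c)), nrm ρ₀ (C (Q l i) * (R i +
          ∑ b : Fin d, C (eval y (pderiv (σ (Sum.inr (Sum.inr b))) (P i))) * X b)) ≤
          B * (B * 2 ^ e * η ^ 2) + B * ((d : ℝ) * ((e : ℝ) * B * ρ₀)) := by
      intro i _
      refine (nrm_mul_le hρpos.le _ _).trans ?_
      rw [nrm_C, ← mul_add]
      refine mul_le_mul (hQ l i) ?_ (nrm_nonneg hρpos.le _) (by linarith)
      refine (nrm_add_le hρpos.le _ _).trans ?_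
      refine add_le_add (hRn i) ?_
      refine (nrm_sum_le hρpos.le _ _).trans ?_
      have hb : ∀ b ∈ (Finset.univ : Finset (Fin d)),
          nrm ρ₀ (C (eval y (pderiv (σ (Sum.inr (Sum.inr b))) (P i))) * X b) ≤
            (e : ℝ) * B * ρ₀ := by
        intro b _
        refine (nrm_mul_le hρpos.le _ _).trans ?_
        rw [nrm_C, nrm_X]
        exact mul_le_mul_of_nonneg_right (newtb_der y hy (P i) e (hdeg i) B (hco i) _) hρpos.le
      refine (Finset.sum_le_sum hb).trans ?_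
      rw [Finset.sum_const, Finset.card_univ, Fintype.card_fin, nsmul_eq_mul]
    refine (Finset.sum_le_sum hterm).trans ?_
    rw [Finset.sum_const, Finset.card_univ, Fintype.card_fin, nsmul_eq_mul, mul_add]
    linarith

end Pool.Agent.LLX
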