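import Pool.Agent.LLX.Int

/-!
# LLX NSZ: lower bounds from the Nullstellensatz

`nsz`. Let `I` be the ideal spanned by all the forms vanishing on `a` and the `H i`. If `z` is a
common zero of `I` then `z w₀ = 0`: this is clear for `z = 0`; otherwise `z = c • a x` (`Clo`) and
all the `H i` vanish at `a x`, so `a x w₀ = 0` by hypothesis. By the Nullstellensatz
(`MvPolynomial.vanishingIdeal_zeroLocus_eq_radical`, see `PW/Null.lean` for the current names)
`X w₀ ^ m ∈ I` for some `m`, and we may take `m` larger than all the `deg i`. Write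
`X w₀ ^ m = P + ∑ B i * H i`, `P` in the ideal of the forms vanishing on `a` (so all the
homogeneous components of `P` vanish on `a`: an ideal generated by forms is homogeneous), and take
homogeneous components of degree `m`.

`low_arch`, `low_non`. Let `m`, `B` be as in `nsz`, and `S` the set of all the coefficients of the
`B i` (together with `1`). At `y w = τ (a x w / a x w₀)` (so `‖y w‖ ≤ 1`, `y w₀ = 1`) we get
`1 = ∑_i (B i)(y) (H i)(y)` (the form `X w₀ ^ m - ∑ B i * H i` vanishes at `a x`, hence at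
`a x / a x w₀`). Archimedean: `‖(B i)(y)‖ ≤ (number of coefficients) * B₀`, so some
`‖(H i)(y)‖ ≥ B₁⁻¹` with `B₁ = (number of i) * (number of coefficients) * B₀ + 1` (the index set
is nonempty because otherwise `1 = 0`). Nonarchimedean: `‖(B i)(y)‖ ≤ 1`, so some
`‖(H i)(y)‖ ≥ 1`.
-/

open MvPolynomial

namespace Pool.Agent.LLX

open Pool.Agent.Helper63.SAND

private theorem nsz_eval_smul {K W : Type*} [Field K] {F : MvPolynomial W K} {k : ℕ}
    (hF : F.IsHomogeneous k) (c : K) (v : W → K) :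
    eval (fun w => c * v w) F = c ^ k * eval v F := by
  rw [eval_eq, eval_eq, Finset.mul_sum]
  refine Finset.sum_congr rfl fun s hs => ?_
  have hsk : ∑ i ∈ s.support, s i = k := by
    have := hF (mem_support_iff.1 hs)
    rw [Finsupp.weight_apply] at this
    simpa [Finsupp.sum] using this
  simp only [mul_pow, Finset.prod_mul_distrib]
  rw [Finset.prod_pow_eq_pow_sum, hsk]
  ring

private theorem nsz_eval_map {E K W : Type*} [Field E] [Field K] (τ : E →+* K) (z : W → E)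
    (R : MvPolynomial W E) : eval (fun w => τ (z w)) (R.map τ) = τ (eval z R) :=
  (map_eval τ z R).symm

attribute [local instance] MvPolynomial.gradedAlgebra in
private theorem nsz_hc_mul {K W : Type*} [Field K] {F : MvPolynomial W K} {k : ℕ}
    (hF : F.IsHomogeneous k) (m : ℕ) (P : MvPolynomial W K) :
    homogeneousComponent m (P * F) = if k ≤ m then homogeneousComponent (m - k) P * F else 0 := by
  have h1 : ∀ (R : MvPolynomial W K) (i : ℕ),
      (DirectSum.decompose (homogeneousSubmodule W K) R i : MvPolynomial W K) =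
        homogeneousComponent i R := fun R i => decomposition.decompose'_apply R i
  have h2 := DirectSum.coe_decompose_mul_of_right_mem (homogeneousSubmodule W K) (a := P) m
    ((mem_homogeneousSubmodule _ _).2 hF)
  rw [h1, h1] at h2
  exact h2

/-- the polynomials all of whose homogeneous components vanish on `a` -/
private theorem nsz_van {E Ω W : Type*} [Field E] (a : Ω → W → E) (P : MvPolynomial W E)
    (hP : P ∈ Ideal.span {Q : MvPolynomial W E | ∃ k, Q.IsHomogeneous k ∧ Van a Q}) (m : ℕ) :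
    Van a (homogeneousComponent m P) := by
  induction hP using Submodule.span_induction generalizing m with
  | mem Q hQ =>
    obtain ⟨k, hk, hv⟩ := hQ
    have h1 := nsz_hc_mul hk m 1
    rw [one_mul] at h1
    rw [h1]
    split_ifs
    · intro x
      rw [map_mul, hv x, mul_zero]
    · intro x
      exact map_zero _
  | zero =>
    intro x
    rw [map_zero, map_zero]
  | add P Q _ _ hP hQ =>
    intro x
    rw [map_add, map_add, hP m x, hQ m x, add_zero]
  | smul c P _ hP =>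
    intro x
    rw [smul_eq_mul]
    -- multiply by a general polynomial: sum over the components of `P`
    have h1 : c * P = ∑ i ∈ Finset.range (P.totalDegree + 1), c * homogeneousComponent i P := by
      rw [← Finset.mul_sum, sum_homogeneousComponent]
    rw [h1, map_sum, map_sum]
    refine Finset.sum_eq_zero fun i _ => ?_
    rw [nsz_hc_mul (homogeneousComponent_isHomogeneous i P)]
    split_ifs
    · rw [map_mul, hP i x, mul_zero]
    · exact map_zero _

theorem nsz {E Ω W I : Type*} [Field E] [IsAlgClosed E] [Fintype W] [Fintype I] (a : Ω → W → E)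
    (hcl : Clo a) (H : I → MvPolynomial W E) (deg : I → ℕ)
    (hH : ∀ i, (H i).IsHomogeneous (deg i)) (w₀ : W)
    (h : ∀ x, a x w₀ ≠ 0 → ∃ i, eval (a x) (H i) ≠ 0) :
    ∃ (m : ℕ) (B : I → MvPolynomial W E), (∀ i, deg i ≤ m) ∧
      (∀ i, (B i).IsHomogeneous (m - deg i)) ∧ Van a (X w₀ ^ m - ∑ i, B i * H i) := by
  classical
  set J : Ideal (MvPolynomial W E) :=
    Ideal.span {Q : MvPolynomial W E | ∃ k, Q.IsHomogeneous k ∧ Van a Q} ⊔
      Ideal.span (Set.range H) with hJ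
  have hrad : (X w₀ : MvPolynomial W E) ∈ J.radical := by
    rw [← vanishingIdeal_zeroLocus_eq_radical (K := E) J, mem_vanishingIdeal_iff]
    intro z hz
    rw [aeval_X]
    by_contra hz0
    rw [mem_zeroLocus_iff] at hz
    have hz1 : z ≠ 0 := fun e => hz0 (by rw [e]; rfl)
    obtain ⟨x, c, hc, hzc⟩ := hcl z hz1 (fun P k hP hv => by
      have := hz P (Ideal.mem_sup_left (Ideal.subset_span ⟨k, hP, hv⟩))
      rwa [aeval_eq_eval] at this)
    have hx0 : a x w₀ ≠ 0 := fun e => hz0 (by rw [hzc, e, mul_zero])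
    obtain ⟨i, hi⟩ := h x hx0
    have h1 := hz (H i) (Ideal.mem_sup_right (Ideal.subset_span ⟨i, rfl⟩))
    rw [aeval_eq_eval] at h1
    change eval z (H i) = 0 at h1
    rw [show z = fun w => c * a x w from funext hzc, nsz_eval_smul (hH i)] at h1
    exact hi ((mul_eq_zero.1 h1).resolve_left (pow_ne_zero _ hc))
  obtain ⟨m₀, hm₀⟩ := hrad
  set m := m₀ + ∑ i, deg i with hm
  have hdeg : ∀ i, deg i ≤ m := fun i =>
    (Finset.single_le_sum (f := deg) (fun _ _ => Nat.zero_le _) (Finset.mem_univ i)).trans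
      (Nat.le_add_left _ _)
  have hXm : (X w₀ : MvPolynomial W E) ^ m ∈ J := by
    rw [hm, pow_add]
    exact J.mul_mem_right _ hm₀
  obtain ⟨P, hP, R, hR, hPR⟩ := Submodule.mem_sup.1 hXm
  obtain ⟨B, hB⟩ := Ideal.mem_span_range_iff_exists_fun.1 hR
  refine ⟨m, fun i => homogeneousComponent (m - deg i) (B i), hdeg,
    fun i => homogeneousComponent_isHomogeneous _ _, ?_⟩
  have h1 : (X w₀ : MvPolynomial W E) ^ m = homogeneousComponent m P +
      ∑ i, homogeneousComponent (m - deg i) (B i) * H i := by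
    have h2 : homogeneousComponent m ((X w₀ : MvPolynomial W E) ^ m) = X w₀ ^ m := by
      have h3 := homogeneousComponent_of_mem (m := m)
        ((mem_homogeneousSubmodule m _).2 (isHomogeneous_X_pow (R := E) w₀ m))
      rw [if_pos rfl] at h3
      exact h3
    rw [← h2, ← hPR, ← hB, map_add, map_sum]
    congr 1
    refine Finset.sum_congr rfl fun i _ => ?_
    rw [nsz_hc_mul (hH i), if_pos (hdeg i)]
  intro x
  rw [h1, add_sub_cancel_right]
  exact nsz_van a P hP m x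

private theorem nsz_one {E K Ω W I : Type*} [Field E] [Field K] [Fintype W] [Fintype I]
    (a : Ω → W → E) (H : I → MvPolynomial W E) (deg : I → ℕ)
    (hH : ∀ i, (H i).IsHomogeneous (deg i)) (w₀ : W) (m : ℕ) (B : I → MvPolynomial W E)
    (hdeg : ∀ i, deg i ≤ m) (hB : ∀ i, (B i).IsHomogeneous (m - deg i))
    (hv : Van a (X w₀ ^ m - ∑ i, B i * H i)) (τ : E →+* K) (x : Ω) (hx : a x w₀ ≠ 0) :
    ∑ i, eval (fun w => τ (a x w / a x w₀)) ((B i).map τ) *
      eval (fun w => τ (a x w / a x w₀)) ((H i).map τ) = 1 := by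
  have hhom : (X w₀ ^ m - ∑ i, B i * H i : MvPolynomial W E).IsHomogeneous m := by
    refine (isHomogeneous_X_pow w₀ m).sub (IsHomogeneous.sum _ _ _ fun i _ => ?_)
    have := (hB i).mul (hH i)
    rwa [Nat.sub_add_cancel (hdeg i)] at this
  have h1 : eval (fun w => (a x w₀)⁻¹ * a x w) (X w₀ ^ m - ∑ i, B i * H i) = 0 := by
    rw [nsz_eval_smul hhom, hv x, mul_zero]
  rw [map_sub, map_pow, eval_X, inv_mul_cancel₀ hx, one_pow, map_sum, sub_eq_zero] at h1
  have h2 := congrArg τ h1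
  rw [map_one, map_sum] at h2
  rw [h2]
  refine Finset.sum_congr rfl fun i _ => ?_
  have h3 : (fun w => τ (a x w / a x w₀)) = fun w => τ ((a x w₀)⁻¹ * a x w) := by
    funext w
    rw [div_eq_inv_mul]
  rw [h3, nsz_eval_map, nsz_eval_map, map_mul, map_mul]

private theorem nsz_y_le {E K Ω W : Type*} [Field E] [NormedField K] (a : Ω → W → E) (w₀ : W)
    (τ : E →+* K) (x : Ω) (hle : ∀ w, ‖τ (a x w)‖ ≤ ‖τ (a x w₀)‖) (w : W) :
    ‖τ (a x w / a x w₀)‖ ≤ 1 := by
  rw [map_div₀, norm_div]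
  exact div_le_one_of_le₀ (hle w) (norm_nonneg _)

private theorem nsz_term {K W : Type*} [NormedField K] (y : W → K) (hy : ∀ w, ‖y w‖ ≤ 1)
    (s : W →₀ ℕ) (c : K) : ‖c * ∏ i ∈ s.support, y i ^ s i‖ ≤ ‖c‖ := by
  rw [norm_mul, norm_prod]
  refine mul_le_of_le_one_right (norm_nonneg _) (Finset.prod_le_one (fun _ _ => norm_nonneg _) ?_)
  intro i _
  rw [norm_pow]
  exact pow_le_one₀ (norm_nonneg _) (hy i)

/-- The same for a single coordinate `w₀`. -/
theorem low_arch_at {E Ω W I : Type*} [Field E] [IsAlgClosed E] [Fintype W] [Fintype I]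
    (a : Ω → W → E) (hcl : Clo a) (H : I → MvPolynomial W E) (deg : I → ℕ)
    (hH : ∀ i, (H i).IsHomogeneous (deg i)) (w₀ : W)
    (h : ∀ x, a x w₀ ≠ 0 → ∃ i, eval (a x) (H i) ≠ 0) :
    ∃ S : Finset E, ∀ B₀ : ℝ, 1 ≤ B₀ → ∃ B₁ : ℝ, 1 ≤ B₁ ∧ ∀ (K : Type) [NormedField K]
      (τ : E →+* K), (∀ b ∈ S, ‖τ b‖ ≤ B₀) → ∀ x, a x w₀ ≠ 0 →
      (∀ w, ‖τ (a x w)‖ ≤ ‖τ (a x w₀)‖) →
      ∃ i, 1 ≤ B₁ * ‖eval (fun w => τ (a x w / a x w₀)) ((H i).map τ)‖ := by
  classical
  obtain ⟨m, B, hdeg, hB, hv⟩ := nsz a hcl H deg hH w₀ h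
  refine ⟨Finset.univ.biUnion fun i => (B i).support.image fun s => coeff s (B i),
    fun B₀ hB₀ => ⟨(∑ i, ((B i).support.card : ℝ)) * B₀ + 1, ?_, ?_⟩⟩
  · have : 0 ≤ (∑ i, ((B i).support.card : ℝ)) * B₀ :=
      mul_nonneg (Finset.sum_nonneg fun _ _ => Nat.cast_nonneg _) (by linarith)
    linarith
  intro K _ τ hS x hx hle
  have hone := nsz_one a H deg hH w₀ m B hdeg hB hv τ x hx
  set y : W → K := fun w => τ (a x w / a x w₀) with hy
  have hy1 : ∀ w, ‖y w‖ ≤ 1 := nsz_y_le a w₀ τ x hle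
  have hBi : ∀ i, ‖eval y ((B i).map τ)‖ ≤ ((B i).support.card : ℝ) * B₀ := by
    intro i
    rw [eval_map, eval₂_eq]
    refine (norm_sum_le _ _).trans ?_
    rw [← nsmul_eq_mul]
    refine Finset.sum_le_card_nsmul _ _ _ fun s hs => ?_
    refine (nsz_term y hy1 s _).trans (hS _ ?_)
    exact Finset.mem_biUnion.2 ⟨i, Finset.mem_univ i, Finset.mem_image_of_mem _ hs⟩
  by_contra hcon
  push Not at hcon
  set N : ℝ := (∑ i, ((B i).support.card : ℝ)) * B₀ with hN
  have hN0 : 0 ≤ N :=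
    mul_nonneg (Finset.sum_nonneg fun _ _ => Nat.cast_nonneg _) (by linarith)
  have h1 : (1 : ℝ) ≤ ∑ i, ((B i).support.card : ℝ) * B₀ * ‖eval y ((H i).map τ)‖ := by
    have h2 : ‖(1 : K)‖ = 1 := norm_one
    rw [← hone] at h2
    rw [← h2]
    refine (norm_sum_le _ _).trans (Finset.sum_le_sum fun i _ => ?_)
    rw [norm_mul]
    exact mul_le_mul_of_nonneg_right (hBi i) (norm_nonneg _)
  have h2 : (N + 1) * 1 ≤ N := by
    calc (N + 1) * 1 ≤ (N + 1) * ∑ i, ((B i).support.card : ℝ) * B₀ * ‖eval y ((H i).map τ)‖ :=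
          mul_le_mul_of_nonneg_left h1 (by linarith)
      _ = ∑ i, ((B i).support.card : ℝ) * B₀ * ((N + 1) * ‖eval y ((H i).map τ)‖) := by
          rw [Finset.mul_sum]
          exact Finset.sum_congr rfl fun i _ => by ring
      _ ≤ ∑ i, ((B i).support.card : ℝ) * B₀ * 1 := by
          refine Finset.sum_le_sum fun i _ => mul_le_mul_of_nonneg_left (hcon i).le ?_
          exact mul_nonneg (Nat.cast_nonneg _) (by linarith)
      _ = N := by
          rw [hN, Finset.sum_mul]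
          exact Finset.sum_congr rfl fun i _ => mul_one _
  linarith

private theorem nsz_na_lt {K I : Type*} [NormedField K] (hna : IsNonarchimedean (fun z : K => ‖z‖))
    {r : ℝ} (hr : 0 < r) (s : Finset I) (f : I → K) (hf : ∀ i ∈ s, ‖f i‖ < r) :
    ‖∑ i ∈ s, f i‖ < r := by
  classical
  induction s using Finset.induction_on with
  | empty => simpa using hr
  | insert i s hi ih =>
    rw [Finset.sum_insert hi]
    refine (hna _ _).trans_lt (max_lt (hf i (Finset.mem_insert_self _ _)) ?_)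
    exact ih fun j hj => hf j (Finset.mem_insert_of_mem hj)

private theorem nsz_na_le {K I : Type*} [NormedField K] (hna : IsNonarchimedean (fun z : K => ‖z‖))
    {r : ℝ} (hr : 0 ≤ r) (s : Finset I) (f : I → K) (hf : ∀ i ∈ s, ‖f i‖ ≤ r) :
    ‖∑ i ∈ s, f i‖ ≤ r := by
  classical
  induction s using Finset.induction_on with
  | empty => simpa using hr
  | insert i s hi ih =>
    rw [Finset.sum_insert hi]
    refine (hna _ _).trans (max_le (hf i (Finset.mem_insert_self _ _)) ?_)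
    exact ih fun j hj => hf j (Finset.mem_insert_of_mem hj)

theorem low_non_at {E Ω W I : Type*} [Field E] [IsAlgClosed E] [Fintype W] [Fintype I]
    (a : Ω → W → E) (hcl : Clo a) (H : I → MvPolynomial W E) (deg : I → ℕ)
    (hH : ∀ i, (H i).IsHomogeneous (deg i)) (w₀ : W)
    (h : ∀ x, a x w₀ ≠ 0 → ∃ i, eval (a x) (H i) ≠ 0) :
    ∃ S : Finset E, ∀ (K : Type) [NormedField K]
      (τ : E →+* K), IsNonarchimedean (fun z : K => ‖z‖) → (∀ b ∈ S, ‖τ b‖ ≤ 1) →
      ∀ x, a x w₀ ≠ 0 → (∀ w, ‖τ (a x w)‖ ≤ ‖τ (a x w₀)‖) →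
      ∃ i, 1 ≤ ‖eval (fun w => τ (a x w / a x w₀)) ((H i).map τ)‖ := by
  classical
  obtain ⟨m, B, hdeg, hB, hv⟩ := nsz a hcl H deg hH w₀ h
  refine ⟨Finset.univ.biUnion fun i => (B i).support.image fun s => coeff s (B i), ?_⟩
  intro K _ τ hna hS x hx hle
  have hone := nsz_one a H deg hH w₀ m B hdeg hB hv τ x hx
  set y : W → K := fun w => τ (a x w / a x w₀) with hy
  have hy1 : ∀ w, ‖y w‖ ≤ 1 := nsz_y_le a w₀ τ x hle
  have hBi : ∀ i, ‖eval y ((B i).map τ)‖ ≤ 1 := by
    intro i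
    rw [eval_map, eval₂_eq]
    refine nsz_na_le hna zero_le_one _ _ fun s hs => ?_
    refine (nsz_term y hy1 s _).trans (hS _ ?_)
    exact Finset.mem_biUnion.2 ⟨i, Finset.mem_univ i, Finset.mem_image_of_mem _ hs⟩
  by_contra hcon
  push Not at hcon
  have h1 : ‖∑ i, eval y ((B i).map τ) * eval y ((H i).map τ)‖ < 1 := by
    refine nsz_na_lt hna one_pos _ _ fun i _ => ?_
    rw [norm_mul]
    exact (mul_le_of_le_one_left (norm_nonneg _) (hBi i)).trans_lt (hcon i)
  rw [hone, norm_one] at h1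
  exact lt_irrefl _ h1

theorem low_arch {E Ω W I : Type*} [Field E] [IsAlgClosed E] [Fintype W] [Fintype I]
    (a : Ω → W → E) (hcl : Clo a) (H : I → MvPolynomial W E) (deg : I → ℕ)
    (hH : ∀ i, (H i).IsHomogeneous (deg i))
    (h : ∀ x w₀, a x w₀ ≠ 0 → ∃ i, eval (a x) (H i) ≠ 0) :
    ∃ S : Finset E, ∀ B₀ : ℝ, 1 ≤ B₀ → ∃ B₁ : ℝ, 1 ≤ B₁ ∧ ∀ (K : Type) [NormedField K]
      (τ : E →+* K), (∀ b ∈ S, ‖τ b‖ ≤ B₀) → ∀ x w₀, a x w₀ ≠ 0 →
      (∀ w, ‖τ (a x w)‖ ≤ ‖τ (a x w₀)‖) →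
      ∃ i, 1 ≤ B₁ * ‖eval (fun w => τ (a x w / a x w₀)) ((H i).map τ)‖ := by
  classical
  choose S hS using fun w₀ : W => low_arch_at a hcl H deg hH w₀ fun x => h x w₀
  refine ⟨Finset.univ.biUnion S, fun B₀ hB₀ => ?_⟩
  choose B₁ hB₁ hB₂ using fun w₀ : W => hS w₀ B₀ hB₀
  have hle : ∀ w₀, B₁ w₀ ≤ 1 + ∑ w, B₁ w := fun w₀ => by
    have := Finset.single_le_sum (f := B₁) (fun w _ => zero_le_one.trans (hB₁ w))
      (Finset.mem_univ w₀)
    linarith
  refine ⟨1 + ∑ w, B₁ w, ?_, ?_⟩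
  · have : 0 ≤ ∑ w, B₁ w := Finset.sum_nonneg fun w _ => zero_le_one.trans (hB₁ w)
    linarith
  · intro K _ τ hSτ x w₀ hx hw
    obtain ⟨i, hi⟩ := hB₂ w₀ K τ
      (fun b hb => hSτ b (Finset.mem_biUnion.2 ⟨w₀, Finset.mem_univ _, hb⟩)) x hx hw
    exact ⟨i, hi.trans (mul_le_mul_of_nonneg_right (hle w₀) (norm_nonneg _))⟩

theorem low_non {E Ω W I : Type*} [Field E] [IsAlgClosed E] [Fintype W] [Fintype I]
    (a : Ω → W → E) (hcl : Clo a) (H : I → MvPolynomial W E) (deg : I → ℕ)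
    (hH : ∀ i, (H i).IsHomogeneous (deg i))
    (h : ∀ x w₀, a x w₀ ≠ 0 → ∃ i, eval (a x) (H i) ≠ 0) :
    ∃ S : Finset E, ∀ (K : Type) [NormedField K]
      (τ : E →+* K), IsNonarchimedean (fun z : K => ‖z‖) → (∀ b ∈ S, ‖τ b‖ ≤ 1) →
      ∀ x w₀, a x w₀ ≠ 0 → (∀ w, ‖τ (a x w)‖ ≤ ‖τ (a x w₀)‖) →
      ∃ i, 1 ≤ ‖eval (fun w => τ (a x w / a x w₀)) ((H i).map τ)‖ := by
  classical
  choose S hS using fun w₀ : W => low_non_at a hcl H deg hH w₀ fun x => h x w₀
  refine ⟨Finset.univ.biUnion S, fun K _ τ hna hSτ x w₀ hx hw => ?_⟩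
  exact hS w₀ K τ hna
    (fun b hb => hSτ b (Finset.mem_biUnion.2 ⟨w₀, Finset.mem_univ _, hb⟩)) x hx hw

end Pool.Agent.LLX
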