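import Pool.Agent.LLX.Expc
import Pool.Agent.LLX.NewtB
import Pool.Agent.LLX.Nsz

/-!
# LLX BADX: expansions with bounded norm at an arbitrary place

Proof. The set `S`: all the coefficients of the `Fs i` and of the `G t w`, and the sets given by
`low_arch_at` for every `w₀` and the family of forms `mnr Fs σ t` (index: the pairs `(σ, t)` with
`σ (inl 0) = w₀`; a finite type; `Jac.minor` is the hypothesis; `mnr Fs σ t` is homogeneous: if
some `Fs (t i)` is `0` it is `0`, otherwise all the terms of the determinant have degree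
`∑ (deg (Fs (t i)) - 1)`; if the degree of some `Fs (t i)` is `0` its derivatives vanish), and by
`low_arch` for the forms `G t w` (index `T × W`; hypothesis from `hG.2.2`).
Given `B₀` let `B` be a common bound `≥ 1` for: `B₁` of the `low_arch` statements, the sums of the
norms of the coefficients of the `Fs i`, `G t w` (number of coefficients times `B₀`), and for the
entries of the inverse Jacobian matrices (below); `e'` a bound for the degrees. `ρ₀` from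
`newt_bound` (with this `B`, `e'`), `θ` from `itY_bound`.
Given `K`, `τ`, `x`: let `w₀` be a coordinate with `‖τ (a x w₀)‖` maximal (nonzero since
`a x ≠ 0`), `(σ, t)` with `σ (inl 0) = w₀` and `1 ≤ B₁ ‖mnr(y)‖`, `y w = τ (a x w / a x w₀)`,
`Q = (jac σ P y)⁻¹` (`det (jac σ P y)` is the value of `mnr` at `y`), whose entries are bounded by
`c! (bound of the entries of jac)^(c-1) B₁`. For every `i` let `χ i`, `w_i` be such that the value
of `G (χ i) w_i` at `y_i` is at least `B₁⁻¹` and moreover `w_i` maximises `‖G (χ i) w (y_i)‖`,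
where `y_i` is the vector of the constant coefficients of `itY i`; `μ i = (G (χ i) w_i (y_i))⁻¹`.
(`χ`, `μ` are chosen by recursion on `i`; `y_i` is proportional to `τ (a (F^[i] x))` and equal to
`τ (a (F^[i] x) w / a (F^[i] x) w_{i-1})` where `w_{i-1}` is a coordinate of maximal absolute
value. So one can choose first, for each `i`, `w'_i` maximal for `a (F^[i] x)` and `χ i` by
`low_arch` at `(F^[i] x, w'_i)`, and then `μ` so that the constant coefficient of the coordinate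
`w'_{i+1}` of `itY (i+1)` is `1`.)
Then the constant coefficients of `itY i` have maximal norm exactly `1`, `‖μ i‖ ≤ B₁`.
`expc` gives `Expn`. `newt_bound` gives `nrm ρ₀ (newt (j+1) w) ≤ 1 + ‖y w‖ ≤ 2`, and `itY_bound`
gives `nrm (ρ₀ θ^i) (itY i w) ≤ 2`; since `θ ≤ 1` and `i ≤ n`, `nrm_mono` gives the claim.
-/

open MvPolynomial

namespace Pool.Agent.LLX

open Pool.Agent.Helper63.SAND

/-- A form of degree `e` at a multiple of a vector. -/
private theorem bx_eval_smul {E W : Type*} [Field E] (P : MvPolynomial W E) (e : ℕ)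
    (hP : P.IsHomogeneous e) (c : E) (z : W → E) :
    eval (fun s => c * z s) P = c ^ e * eval z P := by
  rw [eval_eq, eval_eq, Finset.mul_sum]
  refine Finset.sum_congr rfl fun d hd => ?_
  have h1 : ∏ i ∈ d.support, (c * z i) ^ d i = c ^ e * ∏ i ∈ d.support, z i ^ d i := by
    have h2 : ∏ i ∈ d.support, (c * z i) ^ d i =
        (∏ i ∈ d.support, c ^ d i) * ∏ i ∈ d.support, z i ^ d i := by
      rw [← Finset.prod_mul_distrib]
      exact Finset.prod_congr rfl fun i _ => mul_pow _ _ _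
    rw [h2, Finset.prod_pow_eq_pow_sum]
    have h3 : ∑ i ∈ d.support, d i = e := by
      have h4 := hP (mem_support_iff.1 hd)
      rw [← h4, Finsupp.weight_apply, Finsupp.sum]
      simp
    rw [h3]
  rw [h1]
  ring

private theorem bx_eval_div {E K W : Type*} [Field E] [Field K] (τ : E →+* K)
    (P : MvPolynomial W E) (k : ℕ) (hP : P.IsHomogeneous k) (z : W → E) (b : E) :
    eval (fun w => τ (z w / b)) (P.map τ) = τ (b⁻¹ ^ k * eval z P) := by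
  have h1 : eval (fun w => τ (z w / b)) (P.map τ) = τ (eval (fun w => b⁻¹ * z w) P) := by
    rw [eval_map]
    have h2 : (fun w => τ (z w / b)) = τ ∘ fun w => b⁻¹ * z w := by
      funext w
      rw [Function.comp_apply, div_eq_inv_mul]
    rw [h2]
    exact (eval₂_comp τ (fun w => b⁻¹ * z w) P).symm
  rw [h1, bx_eval_smul P k hP]

private theorem bx_mnr_hom {E W : Type*} [Field E] [Fintype W] {c d s : ℕ}
    (Fs : Fin s → MvPolynomial W E) (hom : ∀ i, ∃ k, (Fs i).IsHomogeneous k)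
    (σ : (Fin 1 ⊕ (Fin c ⊕ Fin d)) ≃ W) (t : Fin c → Fin s) :
    ∃ k, (mnr Fs σ t).IsHomogeneous k := by
  choose k hk using hom
  refine ⟨∑ i, (k (t i) - 1), ?_⟩
  rw [mnr, Matrix.det_apply]
  refine IsHomogeneous.sum _ _ _ fun p _ => ?_
  have h1 : (∏ i, (Matrix.of fun i l : Fin c =>
      pderiv (σ (Sum.inr (Sum.inl l))) (Fs (t i))) (p i) i).IsHomogeneous
      (∑ i, (k (t (p i)) - 1)) :=
    IsHomogeneous.prod _ _ _ fun i _ => (hk _).pderiv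
  rw [Equiv.sum_comp p (fun i => k (t i) - 1)] at h1
  rcases Int.units_eq_one_or (Equiv.Perm.sign p) with h | h
  · rw [h, one_smul]; exact h1
  · rw [h, Units.neg_smul, one_smul]; exact h1.neg

private theorem bx_eval_le {E K W : Type*} [Field E] [NormedField K] [Fintype W] (τ : E →+* K)
    (y : W → K) (hy : ∀ w, ‖y w‖ ≤ 1) (P : MvPolynomial W E) (B₀ : ℝ)
    (hB : ∀ s ∈ P.support, ‖τ (coeff s P)‖ ≤ B₀) :
    ‖eval y (P.map τ)‖ ≤ P.support.card * B₀ := by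
  rw [eval_map, eval₂_eq']
  refine (norm_sum_le _ _).trans ?_
  rw [← nsmul_eq_mul]
  refine Finset.sum_le_card_nsmul _ _ _ fun s hs => ?_
  rw [norm_mul, norm_prod]
  calc ‖τ (coeff s P)‖ * ∏ i, ‖y i ^ s i‖ ≤ ‖τ (coeff s P)‖ * 1 := by
        refine mul_le_mul_of_nonneg_left ?_ (norm_nonneg _)
        refine Finset.prod_le_one (fun _ _ => norm_nonneg _) fun i _ => ?_
        rw [norm_pow]
        exact pow_le_one₀ (norm_nonneg _) (hy i)
    _ = ‖τ (coeff s P)‖ := mul_one _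
    _ ≤ B₀ := hB s hs

private theorem bx_deg_le {E K W : Type*} [Field E] [Field K] (τ : E →+* K)
    (P : MvPolynomial W E) : (P.map τ).totalDegree ≤ P.totalDegree :=
  Finset.sup_mono (support_map_subset τ P)

private theorem bx_sum_le {E K W : Type*} [Field E] [NormedField K] (τ : E →+* K)
    (P : MvPolynomial W E) (B₀ : ℝ) (hB : ∀ s ∈ P.support, ‖τ (coeff s P)‖ ≤ B₀) :
    ∑ s ∈ (P.map τ).support, ‖coeff s (P.map τ)‖ ≤ P.support.card * B₀ := by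
  rw [← nsmul_eq_mul]
  calc ∑ s ∈ (P.map τ).support, ‖coeff s (P.map τ)‖
      ≤ ∑ s ∈ P.support, ‖coeff s (P.map τ)‖ :=
        Finset.sum_le_sum_of_subset_of_nonneg (support_map_subset τ P)
          (fun _ _ _ => norm_nonneg _)
    _ ≤ P.support.card • B₀ := Finset.sum_le_card_nsmul _ _ _ fun s hs => by
        rw [coeff_map]; exact hB s hs

private theorem bx_inv {K : Type*} [NormedField K] {c : ℕ} (A : Matrix (Fin c) (Fin c) K)
    (D B₁ : ℝ) (hD : 1 ≤ D) (hA : ∀ i j, ‖A i j‖ ≤ D) (hB₁ : 0 < B₁)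
    (hdet : 1 ≤ B₁ * ‖A.det‖) :
    ∃ Q : Matrix (Fin c) (Fin c) K, A * Q = 1 ∧ Q * A = 1 ∧
      ∀ l i, ‖Q l i‖ ≤ B₁ * (c.factorial * D ^ c) := by
  have hne : A.det ≠ 0 := by
    intro h
    rw [h, norm_zero, mul_zero] at hdet
    exact absurd hdet (by norm_num)
  have hu : IsUnit A.det := isUnit_iff_ne_zero.2 hne
  refine ⟨A⁻¹, A.mul_nonsing_inv hu, A.nonsing_inv_mul hu, fun l i => ?_⟩
  rw [Matrix.inv_def, Matrix.smul_apply, smul_eq_mul, norm_mul, Ring.inverse_eq_inv']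
  have h1 : ‖A.det⁻¹‖ ≤ B₁ := by
    rw [norm_inv, inv_le_iff_one_le_mul₀ (norm_pos_iff.2 hne)]
    exact hdet
  have h2 : ‖A.adjugate l i‖ ≤ c.factorial * D ^ c := by
    rw [Matrix.adjugate_apply]
    have h3 := Matrix.det_le (A := A.updateRow i (Pi.single l 1))
      (abv := NormedField.toAbsoluteValue K) (x := D) (by
        intro p q
        change ‖A.updateRow i (Pi.single l 1) p q‖ ≤ D
        rw [Matrix.updateRow_apply]
        split_ifs with h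
        · by_cases hq : q = l
          · subst hq
            rw [Pi.single_eq_same, norm_one]
            exact hD
          · rw [Pi.single_eq_of_ne hq, norm_zero]
            linarith
        · exact hA p q)
    rw [Fintype.card_fin, nsmul_eq_mul] at h3
    exact h3
  exact mul_le_mul h1 h2 (norm_nonneg _) hB₁.le

/-- The constants `μ` and the constant coefficients of the expansions of the iterates. -/
private theorem bx_iter {E Ω W T : Type*} [Field E] [Fintype W] (a : Ω → W → E) (F : Ω → Ω)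
    (e : ℕ) (G : T → W → MvPolynomial W E) (hG : LocF a (fun x => a (F x)) e G)
    {K : Type*} [NormedField K] (τ : E →+* K) (x : Ω) (w' : ℕ → W)
    (hw0 : ∀ i, a (F^[i] x) (w' i) ≠ 0)
    (hmax : ∀ i w, ‖τ (a (F^[i] x) w)‖ ≤ ‖τ (a (F^[i] x) (w' i))‖)
    (B₁ : ℝ) (hB : 0 < B₁) (χ : ℕ → T) (u : ℕ → W)
    (hlow : ∀ i, 1 ≤ B₁ * ‖eval (fun w => τ (a (F^[i] x) w / a (F^[i] x) (w' i)))
      ((G (χ i) (u i)).map τ)‖) :
    ∃ μ : ℕ → K, (∀ i, μ i ≠ 0) ∧ (∀ i, ‖μ i‖ ≤ B₁) ∧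
      (∀ i, ∃ w, eval (a (F^[i] x)) (G (χ i) w) ≠ 0) ∧
      ∀ {d : ℕ} (Y₀ : W → MvPolynomial (Fin d) K),
        (∀ w, constantCoeff (Y₀ w) = τ (a x w / a x (w' 0))) →
        ∀ i w, constantCoeff (itY (fun t w => (G t w).map τ) χ μ Y₀ i w) =
          τ (a (F^[i] x) w / a (F^[i] x) (w' i)) := by
  choose g hg using hG.2.1
  obtain ⟨κ, hκ⟩ : ∃ κ : ℕ → E, ∀ i, κ i = (a (F^[i] x) (w' i))⁻¹ ^ e * g (χ i) (F^[i] x) :=
    ⟨_, fun _ => rfl⟩
  have hev : ∀ i w, eval (fun w => τ (a (F^[i] x) w / a (F^[i] x) (w' i)))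
      ((G (χ i) w).map τ) = τ (κ i * a (F^[i + 1] x) w) := by
    intro i w
    rw [bx_eval_div τ _ e (hG.1 _ _), hg, hκ, Function.iterate_succ_apply', mul_assoc]
  have hκ0 : ∀ i, κ i ≠ 0 := by
    intro i h
    have := hlow i
    rw [hev, h, zero_mul, map_zero, norm_zero, mul_zero] at this
    exact absurd this (by norm_num)
  have hne : ∀ i, τ (κ i * a (F^[i + 1] x) (w' (i + 1))) ≠ 0 := by
    intro i h
    rw [map_eq_zero] at h
    exact mul_ne_zero (hκ0 i) (hw0 (i + 1)) h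
  refine ⟨fun i => (τ (κ i * a (F^[i + 1] x) (w' (i + 1))))⁻¹, fun i => inv_ne_zero (hne i),
    fun i => ?_, fun i => ⟨u i, fun h => ?_⟩, fun {d} Y₀ hY₀ i => ?_⟩
  · change ‖(τ (κ i * a (F^[i + 1] x) (w' (i + 1))))⁻¹‖ ≤ B₁
    rw [norm_inv, inv_le_iff_one_le_mul₀ (norm_pos_iff.2 (hne i))]
    refine (hlow i).trans (mul_le_mul_of_nonneg_left ?_ hB.le)
    rw [hev, map_mul τ (κ i), map_mul τ (κ i), norm_mul, norm_mul]
    have h5 := hmax (i + 1) (u i)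
    have h6 : (0 : ℝ) ≤ ‖τ (κ i)‖ := norm_nonneg _
    exact mul_le_mul_of_nonneg_left h5 h6
  · have := hlow i
    rw [bx_eval_div τ _ e (hG.1 _ _), h, mul_zero, map_zero, norm_zero, mul_zero] at this
    exact absurd this (by norm_num)
  · induction i with
    | zero => exact hY₀
    | succ i ih =>
      intro w
      have h1 : ∀ P : MvPolynomial W K, constantCoeff (aeval (itY (fun t w => (G t w).map τ) χ
          (fun i => (τ (κ i * a (F^[i + 1] x) (w' (i + 1))))⁻¹) Y₀ i) P) =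
          eval (fun w => constantCoeff (itY (fun t w => (G t w).map τ) χ
            (fun i => (τ (κ i * a (F^[i + 1] x) (w' (i + 1))))⁻¹) Y₀ i w)) P := by
        intro P
        induction P using MvPolynomial.induction_on with
        | C r => simp
        | add p q hp hq => rw [map_add, map_add, map_add, hp, hq]
        | mul_X p n hp => rw [map_mul, map_mul, map_mul, hp, aeval_X, eval_X]
      rw [itY, map_mul, constantCoeff_C, h1]
      simp_rw [ih]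
      rw [hev, ← map_inv₀, ← map_mul]
      congr 1
      have h2 := hκ0 i
      have h3 := hw0 (i + 1)
      field_simp

/-- The statement at one place, from the bounds. -/
private theorem bx_place {E Ω W T : Type*} [Field E] [Fintype W]
    {c d s : ℕ} (a : Ω → W → E) (ha0 : ∀ x, a x ≠ 0) (F : Ω → Ω) (e e' : ℕ)
    (G : T → W → MvPolynomial W E) (hG : LocF a (fun x => a (F x)) e G)
    (Fs : Fin s → MvPolynomial W E) (hJ : Jac a c d Fs)
    (hdeg : ∀ i, (Fs i).totalDegree ≤ e') (B₀ B₁ BG N1 N2 N3 B ρ₀ θ : ℝ)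
    (hρ0 : 0 < ρ₀) (hθ0 : 0 < θ) (hθ1 : θ ≤ 1) (hB₁ : 0 < B₁) (hBG : 0 < BG) (hN2 : 0 ≤ N2)
    (h1 : ∀ i, ((Fs i).support.card : ℝ) * B₀ ≤ N1)
    (h2 : ∀ i w, ((pderiv w (Fs i)).support.card : ℝ) * B₀ ≤ N2)
    (h3 : ∀ t w, ((G t w).support.card : ℝ) * B₀ ≤ N3)
    (hBN1 : N1 ≤ B) (hBN3 : N3 ≤ B) (hBBG : BG ≤ B)
    (hBQ : B₁ * (c.factorial * (N2 + 1) ^ c) ≤ B)
    (K : Type) [NormedField K] [CharZero K] (τ : E →+* K)
    (hnewt : ∀ (σ : (Fin 1 ⊕ (Fin c ⊕ Fin d)) ≃ W) (P : Fin c → MvPolynomial W K) (y : W → K)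
      (Q : Matrix (Fin c) (Fin c) K), (∀ i, (P i).totalDegree ≤ e') →
      (∀ i, ∑ s ∈ (P i).support, ‖coeff s (P i)‖ ≤ B) → (∀ w, ‖y w‖ ≤ 1) →
      (∀ l i, ‖Q l i‖ ≤ B) → (∀ i, eval y (P i) = 0) → Q * jac σ P y = 1 →
      ∀ m w, nrm ρ₀ (newt σ P y Q m w - C (y w)) ≤ 1)
    (hit : ∀ (G : T → W → MvPolynomial W K) (χ : ℕ → T) (μ : ℕ → K)
      (Y₀ : W → MvPolynomial (Fin d) K) (ρ₀ : ℝ), 0 ≤ ρ₀ → (∀ t w, (G t w).totalDegree ≤ e) →
      (∀ t w, ∑ s ∈ (G t w).support, ‖coeff s (G t w)‖ ≤ B) → (∀ i, ‖μ i‖ ≤ B) →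
      (∀ i w, ‖constantCoeff (itY G χ μ Y₀ i w)‖ ≤ 1) → (∀ w, nrm ρ₀ (Y₀ w) ≤ 2) →
      ∀ i w, nrm (ρ₀ * θ ^ i) (itY G χ μ Y₀ i w) ≤ 2)
    (hτ1 : ∀ i, ∀ s ∈ (Fs i).support, ‖τ (coeff s (Fs i))‖ ≤ B₀)
    (hτ2 : ∀ i w, ∀ s ∈ (pderiv w (Fs i)).support, ‖τ (coeff s (pderiv w (Fs i)))‖ ≤ B₀)
    (hτ3 : ∀ t w, ∀ s ∈ (G t w).support, ‖τ (coeff s (G t w))‖ ≤ B₀)
    (hlowG : ∀ x w₀, a x w₀ ≠ 0 → (∀ w, ‖τ (a x w)‖ ≤ ‖τ (a x w₀)‖) → ∃ i : T × W,
      1 ≤ BG * ‖eval (fun w => τ (a x w / a x w₀)) ((G i.1 i.2).map τ)‖)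
    (hlowM : ∀ x w₀, a x w₀ ≠ 0 → (∀ w, ‖τ (a x w)‖ ≤ ‖τ (a x w₀)‖) →
      ∃ (σ : (Fin 1 ⊕ (Fin c ⊕ Fin d)) ≃ W) (t : Fin c → Fin s), σ (Sum.inl 0) = w₀ ∧
        1 ≤ B₁ * ‖eval (fun w => τ (a x w / a x w₀)) ((mnr Fs σ t).map τ)‖)
    (x : Ω) (v : Fin (d + 1) → W → E) (hv : TanB a x v) (n j : ℕ) :
      ∃ (Y : Fin (n + 1) → W → MvPolynomial (Fin d) K) (cc : Fin (n + 1) → K) (lam : K),
        Expn a F n j d τ x v Y cc lam ∧ (∀ i w, ‖constantCoeff (Y i w)‖ ≤ 1) ∧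
        (∀ i, ∃ w, ‖constantCoeff (Y i w)‖ = 1) ∧ ∀ i w, nrm (ρ₀ * θ ^ n) (Y i w) ≤ 2 := by
  -- the coordinates of maximal absolute value
  have hex : ∀ i : ℕ, ∃ w₀, a (F^[i] x) w₀ ≠ 0 ∧
      ∀ w, ‖τ (a (F^[i] x) w)‖ ≤ ‖τ (a (F^[i] x) w₀)‖ := by
    intro i
    obtain ⟨w1, hw1⟩ := Function.ne_iff.1 (ha0 (F^[i] x))
    have : Nonempty W := ⟨w1⟩
    obtain ⟨w₀, hw₀⟩ := Finite.exists_max fun w => ‖τ (a (F^[i] x) w)‖
    refine ⟨w₀, fun h => ?_, hw₀⟩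
    have h1 := hw₀ w1
    rw [h, map_zero, norm_zero] at h1
    have h2 : τ (a (F^[i] x) w1) = 0 := norm_le_zero_iff.1 h1
    rw [map_eq_zero] at h2
    exact hw1 h2
  choose w' hw0 hmax using hex
  -- the charts
  have hch : ∀ i : ℕ, ∃ p : T × W, 1 ≤ BG * ‖eval (fun w => τ (a (F^[i] x) w /
      a (F^[i] x) (w' i))) ((G p.1 p.2).map τ)‖ := fun i =>
    hlowG (F^[i] x) (w' i) (hw0 i) (hmax i)
  choose pu hpu using hch
  obtain ⟨μ, hμ0, hμB, hχ, hcc⟩ := bx_iter a F e G hG τ x w' hw0 hmax BG hBG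
    (fun i => (pu i).1) (fun i => (pu i).2) hpu
  have hx0 : a x (w' 0) ≠ 0 := hw0 0
  have hmax0 : ∀ w, ‖τ (a x w)‖ ≤ ‖τ (a x (w' 0))‖ := hmax 0
  obtain ⟨σ, t, hσ, hmn⟩ := hlowM x (w' 0) hx0 hmax0
  obtain ⟨y, hy⟩ : ∃ y : W → K, y = fun w => τ (a x w / a x (w' 0)) := ⟨_, rfl⟩
  rw [← hy] at hmn
  have hyw : ∀ w, y w = τ (a x w / a x (w' 0)) := fun w => by rw [hy]
  have hyle : ∀ w, ‖y w‖ ≤ 1 := by
    intro w
    rw [hyw, map_div₀, norm_div]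
    exact div_le_one_of_le₀ (hmax0 w) (norm_nonneg _)
  obtain ⟨kM, hkM⟩ := bx_mnr_hom Fs hJ.hom σ t
  obtain ⟨P, hP⟩ : ∃ P : Fin c → MvPolynomial W K, P = fun i => (Fs (t i)).map τ := ⟨_, rfl⟩
  have hdetA : (jac σ P y).det = eval y ((mnr Fs σ t).map τ) := by
    rw [mnr, RingHom.map_det, RingHom.map_det, hP]
    congr 1
    ext i l
    simp only [jac, RingHom.mapMatrix_apply, Matrix.map_apply, Matrix.of_apply]
    rw [pderiv_map]
  obtain ⟨Q, hQ1, hQ2, hQB⟩ := bx_inv (jac σ P y) (N2 + 1) B₁ (by linarith) (by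
      intro i l
      rw [jac, Matrix.of_apply, hP, pderiv_map]
      refine (bx_eval_le τ y hyle _ B₀ (hτ2 _ _)).trans ((h2 _ _).trans ?_)
      linarith) hB₁ (by
      rw [hdetA]
      exact hmn)
  have hmin : eval (a x) (mnr Fs σ t) ≠ 0 := by
    intro h
    rw [hy, bx_eval_div τ _ kM hkM, h, mul_zero, map_zero, norm_zero, mul_zero] at hmn
    exact absurd hmn (by norm_num)
  have hyz : ∀ i, eval y (P i) = 0 := by
    intro i
    obtain ⟨k, hk⟩ := hJ.hom (t i)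
    rw [hy, hP]
    rw [bx_eval_div τ _ k hk, hJ.van (t i) x, mul_zero, map_zero]
  have hnc : ∀ w, constantCoeff (newt σ P y Q (j + 1) w) =
      τ (a x w / a x (w' 0)) := fun w => by
    rw [newt_const σ P y Q hyz (j + 1) w, hyw]
  obtain ⟨cc, lam, hE⟩ := expc a ha0 F e G hG Fs hJ x σ t (by rw [hσ]; exact hx0) hmin τ y
    (by intro w; rw [hσ, hyw]) Q (by rw [← hP]; exact hQ1) v hv n j (fun i => (pu i).1) hχ μ hμ0
  rw [← hP] at hE
  have hccY := hcc (newt σ P y Q (j + 1)) hnc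
  have hle1 : ∀ i w, ‖constantCoeff (itY (fun t w => (G t w).map τ) (fun i => (pu i).1) μ
      (newt σ P y Q (j + 1)) i w)‖ ≤ 1 := by
    intro i w
    rw [hccY, map_div₀, norm_div]
    exact div_le_one_of_le₀ (hmax i w) (norm_nonneg _)
  have h0 : ∀ w, nrm ρ₀ (newt σ P y Q (j + 1) w) ≤ 2 := by
    intro w
    have h1 := hnewt σ P y Q (by
      intro i
      rw [hP]
      exact (bx_deg_le τ _).trans (hdeg _)) (by
      intro i
      rw [hP]
      exact (bx_sum_le τ _ B₀ (hτ1 _)).trans ((h1 _).trans hBN1)) hyle (fun l i =>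
      (hQB l i).trans hBQ) hyz hQ2 (j + 1) w
    have h2 : newt σ P y Q (j + 1) w =
        (newt σ P y Q (j + 1) w - C (y w)) + C (y w) := by ring
    rw [h2]
    refine (nrm_add_le hρ0.le _ _).trans ?_
    rw [nrm_C]
    linarith [hyle w]
  have h3' := hit (fun t w => (G t w).map τ) (fun i => (pu i).1) μ
      (newt σ P y Q (j + 1)) ρ₀ hρ0.le (fun t w =>
        (bx_deg_le τ _).trans ((hG.1 t w).totalDegree_le)) (fun t w =>
        (bx_sum_le τ _ B₀ (hτ3 _ _)).trans ((h3 _ _).trans hBN3)) (fun i =>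
        (hμB i).trans hBBG) hle1 h0
  refine ⟨_, cc, lam, hE, fun i w => hle1 i w, fun i => ⟨w' i, ?_⟩, fun i w => ?_⟩
  · rw [hccY, div_self (hw0 i), map_one, norm_one]
  · refine (nrm_mono (by positivity) ?_ _).trans (h3' i w)
    refine mul_le_mul_of_nonneg_left ?_ hρ0.le
    exact pow_le_pow_of_le_one hθ0.le hθ1 (Nat.lt_succ_iff.1 i.2)

private theorem bx_coeffs {E W ι : Type*} [Field E] [Finite ι] (H : ι → MvPolynomial W E) :
    ∃ S : Finset E, ∀ i, ∀ s ∈ (H i).support, coeff s (H i) ∈ S := by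
  classical
  have := Fintype.ofFinite ι
  refine ⟨Finset.univ.biUnion fun i => (H i).support.image fun s => coeff s (H i), ?_⟩
  intro i s hs
  exact Finset.mem_biUnion.2 ⟨i, Finset.mem_univ _, Finset.mem_image.2 ⟨s, hs, rfl⟩⟩

private theorem bx_bnd {ι : Type*} [Finite ι] (f : ι → ℝ) : ∃ N : ℝ, 0 ≤ N ∧ ∀ i, f i ≤ N := by
  have := Fintype.ofFinite ι
  refine ⟨∑ i, |f i|, Finset.sum_nonneg fun i _ => abs_nonneg _, fun i => ?_⟩
  exact (le_abs_self _).trans (Finset.single_le_sum (f := fun i => |f i|)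
    (fun i _ => abs_nonneg _) (Finset.mem_univ i))

/-- lower bounds for the minors -/
private theorem bx_minors {E Ω W : Type*} [Field E] [IsAlgClosed E] [Fintype W]
    {c d s : ℕ} (a : Ω → W → E) (hcl : Clo a)
    (Fs : Fin s → MvPolynomial W E) (hJ : Jac a c d Fs) (w₀ : W) :
    ∃ S : Finset E, ∀ B₀ : ℝ, 1 ≤ B₀ → ∃ B₁ : ℝ, 1 ≤ B₁ ∧
      ∀ (K : Type) [NormedField K] (τ : E →+* K), (∀ b ∈ S, ‖τ b‖ ≤ B₀) → ∀ x, a x w₀ ≠ 0 →
      (∀ w, ‖τ (a x w)‖ ≤ ‖τ (a x w₀)‖) →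
      ∃ (σ : (Fin 1 ⊕ (Fin c ⊕ Fin d)) ≃ W) (t : Fin c → Fin s), σ (Sum.inl 0) = w₀ ∧
        1 ≤ B₁ * ‖eval (fun w => τ (a x w / a x w₀)) ((mnr Fs σ t).map τ)‖ := by
  classical
  choose deg hdeg using fun i : {p : ((Fin 1 ⊕ (Fin c ⊕ Fin d)) ≃ W) × (Fin c → Fin s) //
    p.1 (Sum.inl 0) = w₀} => bx_mnr_hom Fs hJ.hom i.1.1 i.1.2
  obtain ⟨S, hS⟩ := low_arch_at a hcl (fun i : {p : ((Fin 1 ⊕ (Fin c ⊕ Fin d)) ≃ W) ×
    (Fin c → Fin s) // p.1 (Sum.inl 0) = w₀} => mnr Fs i.1.1 i.1.2) deg hdeg w₀ (by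
      intro x hx
      obtain ⟨σ, t, h1, h2⟩ := hJ.minor x w₀ hx
      exact ⟨⟨(σ, t), h1⟩, h2⟩)
  refine ⟨S, fun B₀ hB₀ => ?_⟩
  obtain ⟨B₁, hB₁, h⟩ := hS B₀ hB₀
  refine ⟨B₁, hB₁, fun K _ τ hτ x hx hmax => ?_⟩
  obtain ⟨⟨⟨σ, t⟩, hσ⟩, h1⟩ := h K τ hτ x hx hmax
  exact ⟨σ, t, hσ, h1⟩

theorem badx {E Ω W T : Type*} [Field E] [CharZero E] [IsAlgClosed E] [Fintype W] [Fintype T]
    {c d s : ℕ} (a : Ω → W → E) (ha0 : ∀ x, a x ≠ 0) (hcl : Clo a) (F : Ω → Ω) (e : ℕ)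
    (G : T → W → MvPolynomial W E) (hG : LocF a (fun x => a (F x)) e G)
    (Fs : Fin s → MvPolynomial W E) (hJ : Jac a c d Fs) :
    ∃ S : Finset E, ∀ B₀ : ℝ, 1 ≤ B₀ → ∃ ρ₀ θ : ℝ, 0 < ρ₀ ∧ ρ₀ ≤ 1 ∧ 0 < θ ∧ θ ≤ 1 ∧
      ∀ (K : Type) [NormedField K] [CharZero K] (τ : E →+* K), (∀ b ∈ S, ‖τ b‖ ≤ B₀) →
      ∀ (x : Ω) (v : Fin (d + 1) → W → E), TanB a x v → ∀ n j : ℕ,
      ∃ (Y : Fin (n + 1) → W → MvPolynomial (Fin d) K) (cc : Fin (n + 1) → K) (lam : K),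
        Expn a F n j d τ x v Y cc lam ∧ (∀ i w, ‖constantCoeff (Y i w)‖ ≤ 1) ∧
        (∀ i, ∃ w, ‖constantCoeff (Y i w)‖ = 1) ∧ ∀ i w, nrm (ρ₀ * θ ^ n) (Y i w) ≤ 2 := by
  classical
  choose SA hSA using fun w₀ => bx_minors a hcl Fs hJ w₀
  obtain ⟨SG, hSG⟩ := low_arch a hcl (fun i : T × W => G i.1 i.2) (fun _ => e)
    (fun i => hG.1 i.1 i.2) (by
      intro x w₀ _
      obtain ⟨t, w, h⟩ := hG.2.2 x
      exact ⟨(t, w), h⟩)
  obtain ⟨S1, hS1⟩ := bx_coeffs Fs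
  obtain ⟨S2, hS2⟩ := bx_coeffs (fun i : Fin s × W => pderiv i.2 (Fs i.1))
  obtain ⟨S3, hS3⟩ := bx_coeffs (fun i : T × W => G i.1 i.2)
  refine ⟨((((Finset.univ.biUnion SA) ∪ SG) ∪ S1) ∪ S2) ∪ S3, fun B₀ hB₀ => ?_⟩
  choose BA hBA1 hBA using fun w₀ => hSA w₀ B₀ hB₀
  obtain ⟨BG, hBG1, hBG⟩ := hSG B₀ hB₀
  obtain ⟨B₁, hB₁nn, hB₁⟩ := bx_bnd BA
  obtain ⟨N1, hN1nn, hN1⟩ := bx_bnd (fun i : Fin s => ((Fs i).support.card : ℝ) * B₀)
  obtain ⟨N2, hN2nn, hN2⟩ := bx_bnd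
    (fun i : Fin s × W => ((pderiv i.2 (Fs i.1)).support.card : ℝ) * B₀)
  obtain ⟨N3, hN3nn, hN3⟩ := bx_bnd (fun i : T × W => ((G i.1 i.2).support.card : ℝ) * B₀)
  obtain ⟨BQ, hBQ⟩ : ∃ BQ : ℝ, BQ = (B₁ + 1) * (c.factorial * (N2 + 1) ^ c) := ⟨_, rfl⟩
  have hBQnn : 0 ≤ BQ := by rw [hBQ]; positivity
  obtain ⟨B, hB⟩ : ∃ B : ℝ, B = BG + N1 + N3 + BQ := ⟨_, rfl⟩
  have hB1 : 1 ≤ B := by linarith
  obtain ⟨ρ₀, hρ0, hρ1, hnewt⟩ := newt_bound c d (∑ i, (Fs i).totalDegree) W B hB1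
  obtain ⟨θ, hθ0, hθ1, hit⟩ := itY_bound e B hB1
  refine ⟨ρ₀, θ, hρ0, hρ1, hθ0, hθ1, ?_⟩
  intro K _ _ τ hτ x v hv n j
  have hτA : ∀ w₀, ∀ b ∈ SA w₀, ‖τ b‖ ≤ B₀ := fun w₀ b hb => hτ b (Finset.mem_union_left _
    (Finset.mem_union_left _ (Finset.mem_union_left _ (Finset.mem_union_left _
      (Finset.mem_biUnion.2 ⟨w₀, Finset.mem_univ _, hb⟩)))))
  have hτG : ∀ b ∈ SG, ‖τ b‖ ≤ B₀ := fun b hb => hτ b (Finset.mem_union_left _
    (Finset.mem_union_left _ (Finset.mem_union_left _ (Finset.mem_union_right _ hb))))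
  have hτ1 : ∀ b ∈ S1, ‖τ b‖ ≤ B₀ := fun b hb => hτ b (Finset.mem_union_left _
    (Finset.mem_union_left _ (Finset.mem_union_right _ hb)))
  have hτ2 : ∀ b ∈ S2, ‖τ b‖ ≤ B₀ := fun b hb => hτ b (Finset.mem_union_left _
    (Finset.mem_union_right _ hb))
  have hτ3 : ∀ b ∈ S3, ‖τ b‖ ≤ B₀ := fun b hb => hτ b (Finset.mem_union_right _ hb)
  refine bx_place a ha0 F e (∑ i, (Fs i).totalDegree) G hG Fs hJ ?_ B₀ (B₁ + 1) BG N1 N2 N3 B
    ρ₀ θ hρ0 hθ0 hθ1 (by linarith) (by linarith) hN2nn hN1 (fun i w => hN2 (i, w))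
    (fun t w => hN3 (t, w)) (by linarith) (by linarith) (by linarith) (by linarith) K τ
    (fun σ P y Q => hnewt K σ P y Q) (fun G χ μ Y₀ ρ₀ => hit K W T d G χ μ Y₀ ρ₀)
    (fun i s hs => hτ1 _ (hS1 i s hs)) (fun i w s hs => hτ2 _ (hS2 (i, w) s hs))
    (fun t w s hs => hτ3 _ (hS3 (t, w) s hs)) (fun x w₀ hx hm => hBG K τ hτG x w₀ hx hm)
    (fun x w₀ hx hm => ?_) x v hv n j
  · intro i
    exact Finset.single_le_sum (f := fun i => (Fs i).totalDegree) (fun _ _ => Nat.zero_le _)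
      (Finset.mem_univ i)
  · obtain ⟨σ, t, hσ, h⟩ := hBA w₀ K τ (hτA w₀) x hx hm
    refine ⟨σ, t, hσ, h.trans (mul_le_mul_of_nonneg_right ?_ (norm_nonneg _))⟩
    linarith [hB₁ w₀]

end Pool.Agent.LLX
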