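import Pool.Agent.Helper63.WH.CoreB
import Pool.Agent.Helper63.WH.Padic

/-!
# LLX CLASS: residue classes at a fixed prime

Proof. `red : PadicAlgCl p → Fin q`, `q = D * p ^ D`, from `padic_red`; `ε = (1 / p) ^ (1 / (D * D))`
(see `oneclass` in Helper63/WH/CoreB.lean). The class of a point `x` at the place `τ`: a coordinate
`w₀` with `‖τ (a x w₀)‖` maximal, and the function `w ↦ red (τ (a x w / a x w₀))`; the classes are
numbered by `Fin Kc`, `Kc = card (W × (W → Fin q))`. `close_of_red` gives the last clause.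
-/

open MvPolynomial

namespace Pool.Agent.LLX

open Pool.Agent.Helper63.SAND Pool.Agent.Helper63.WH

theorem classes {E Ω W T : Type*} [Field E] [CharZero E] [Algebra.IsAlgebraic ℚ E] [Fintype W]
    (a : Ω → W → E) (ha0 : ∀ x, a x ≠ 0) (G : T → W → MvPolynomial W E) (D : ℕ) (hD : 1 ≤ D)
    (p : Nat.Primes) :
    ∃ (Kc : ℕ) (ε : ℝ), 0 < ε ∧ ε < 1 ∧ ∀ (τ : E →+* PadicAlgCl p) (M : ℕ) (x : Fin M → Ω),
      (∀ i, FieldLE a G D (x i)) →
      ∃ (cl : Fin M → Fin Kc) (w₀ : Fin Kc → W), (∀ i, a (x i) (w₀ (cl i)) ≠ 0) ∧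
        (∀ i w, ‖τ (a (x i) w)‖ ≤ ‖τ (a (x i) (w₀ (cl i)))‖) ∧
        ∀ i i', cl i = cl i' → ∀ w, ‖τ (a (x i) w / a (x i) (w₀ (cl i)) -
          a (x i') w / a (x i') (w₀ (cl i)))‖ ≤ ε := by
  classical
  obtain ⟨red, hred⟩ := padic_red p D hD
  have hp2 : (2 : ℝ) ≤ p := by exact_mod_cast p.2.two_le
  have hp0 : (0 : ℝ) < p := by linarith
  have hDD : (D * D : ℕ) ≠ 0 := by positivity
  have hDR : (0 : ℝ) < (1 : ℝ) / (D * D : ℕ) := by positivity
  have hpinv : (0 : ℝ) < 1 / p := by positivity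
  have hpinv1 : 1 / (p : ℝ) < 1 := by
    rw [div_lt_one hp0]
    linarith
  obtain ⟨ε, hε⟩ : ∃ ε : ℝ, ε = (1 / (p : ℝ)) ^ ((1 : ℝ) / (D * D : ℕ)) := ⟨_, rfl⟩
  have hε0 : 0 < ε := by
    rw [hε]
    exact Real.rpow_pos_of_pos hpinv _
  have hε1 : ε < 1 := by
    rw [hε]
    exact Real.rpow_lt_one hpinv.le hpinv1 hDR
  have hεD : ε ^ (D * D) = 1 / (p : ℝ) := by
    rw [hε, one_div ((D * D : ℕ) : ℝ)]
    exact Real.rpow_inv_natCast_pow hpinv.le hDD
  refine ⟨Fintype.card (W × (W → Fin (D * (p : ℕ) ^ D))), ε, hε0, hε1, ?_⟩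
  intro τ M x hx
  obtain ⟨e, -⟩ : ∃ e : W × (W → Fin (D * (p : ℕ) ^ D)) ≃
    Fin (Fintype.card (W × (W → Fin (D * (p : ℕ) ^ D)))), e = Fintype.equivFin _ := ⟨_, rfl⟩
  have hmax : ∀ i, ∃ w, a (x i) w ≠ 0 ∧ ∀ w', ‖τ (a (x i) w')‖ ≤ ‖τ (a (x i) w)‖ := by
    intro i
    obtain ⟨w', hw'⟩ := Function.ne_iff.1 (ha0 (x i))
    have : Nonempty W := ⟨w'⟩
    obtain ⟨w, hw⟩ := Finite.exists_max fun w => ‖τ (a (x i) w)‖
    refine ⟨w, fun h0 => hw' ?_, hw⟩
    have h1 := hw w'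
    rw [h0, map_zero, norm_zero] at h1
    have h2 : τ (a (x i) w') = 0 := norm_le_zero_iff.1 h1
    rw [Pi.zero_apply]
    exact (map_eq_zero τ).1 h2
  choose wm hwm hwmax using hmax
  have hkey : ∀ i, (e.symm (e (wm i, fun w => red (τ (a (x i) w / a (x i) (wm i)))))).1 =
      wm i := by
    intro i
    rw [Equiv.symm_apply_apply]
  refine ⟨fun i => e (wm i, fun w => red (τ (a (x i) w / a (x i) (wm i)))),
    fun κ => (e.symm κ).1, ?_, ?_, ?_⟩
  · intro i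
    simp only
    rw [hkey]
    exact hwm i
  · intro i w
    simp only
    rw [hkey]
    exact hwmax i w
  · intro i i' h w
    simp only at h ⊢
    rw [hkey]
    have h1 := e.injective h
    rw [Prod.mk.injEq] at h1
    obtain ⟨h2, h3⟩ := h1
    have h4 := congrFun h3 w
    have h5 := close_of_red a G D hD p red hred ε hε0 hεD τ (x i) (x i') (hx i) (hx i') (wm i) w
      (hwm i) (by rw [h2]; exact hwm i') (by rw [pAbs_apply, pAbs_apply]; exact hwmax i w)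
      (by rw [pAbs_apply, pAbs_apply, h2]; exact hwmax i' w) (by rw [h4, h2])
    rw [pAbs_apply] at h5
    exact h5

end Pool.Agent.LLX
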