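import Pool.Agent.LLX.Tanb
import Pool.Agent.Helper63.SAND.Iter

/-!
# LLX COT: the cotangent space of the graph

Write `m = mI a F l x`, `V = VI a F l`, `A = Ideal.span (range (zc a F l x I)) ⊔ (V ⊔ m ^ 2)`,
`p = npt a F l x`, and `y w = X (0, w) - C (p (0, w))`, an element of `m`.

(1) `linB l 0 - 1 ∈ V` (its value at an admissible point is `lin (l 0) (a x') / lin (l 0) (a x') -
1`), and `linB l 0 - 1 = ∑_w C (l 0 w) * y w`, because `∑_w l 0 w * p (0, w) = 1`.
(2) For a form `P` vanishing on `a`, `rename (fun w => (0, w)) P ∈ V` (homogeneity), and by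
Taylor's formula `rename P - ∑_w C (eval (p (0, ·)) (pderiv w P)) * y w ∈ m ^ 2` (the value of
`P` at `p (0, ·)` is `0`); `eval (p (0, ·)) (pderiv w P)` is
`(lin (l 0) (a x))⁻¹ ^ (k - 1) * eval (a x) (pderiv w P)`. So
`∑_w C (eval (a x) (pderiv w (Fs (t i)))) * y w ∈ V ⊔ m ^ 2` for the `c` forms `Fs (t i)` with
independent differentials at `a x` (`Jac.minor`, `jac_li`).
(3) The functionals `l 0`, `dFs (t i)` (`i < c`), `e_{I b}` (`b < d`) on `W → E` have no common
zero except `0`: `z` with `dFs (t i) z = 0` is `∑ α k * v k` (`tanb_ker`), and then `α = 0` by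
`pv_zero`. So they span the dual space (finite-dimensional linear algebra; e.g. every functional
`e_w` is a combination of them): `z w = α_w * lin (l 0) z + ∑_i β_{w i} dFs (t i) z +
∑_b γ_{w b} z (I b)` for all `z : W → E`. The coefficients of this identity give the same identity
for the `y w`, hence `y w ∈ A` for all `w`.
(4) Other blocks: let `χ` be a chart (`chart_locF` of Helper63/SAND/Iter for `F^[i]`) with
`eval (a x) (chart G i χ w') ≠ 0` for some `w'`. Let `H w = chart G i χ w` and
`L = ∑_w C (l i w) * H w`, forms of the same degree in the coordinates of the block `0`, and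
`q = rename L`. For all `x'`, `eval (a x') (H w) = g * a (F^[i] x') w` with `g` depending on `x'`,
so `X (i, w) * q - rename (H w) ∈ V` (divide by the power of `lin (l 0) (a x')`), and
`q₀ = eval (p (0, ·)) L ≠ 0` (`g ≠ 0` at `x` and `Adm`). Now
`C q₀ * (X (i, w) - C (p (i, w))) = (X (i, w) * q - rename (H w)) - (X (i, w) - C (p (i, w))) *
(q - C q₀) - C (p (i, w)) * (q - C q₀) + (rename (H w) - C (p (i, w) * q₀))`; the second term is in
`m ^ 2`, and `q - C q₀`, `rename (H w) - C (eval (p (0, ·)) (H w))` are in the ideal generated by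
the `y w'`, so in `A` (`p (i, w) * q₀ = eval (p (0, ·)) (H w)`).
-/

open MvPolynomial

namespace Pool.Agent.LLX

open Pool.Agent.Helper63.SAND

section

variable {E W : Type*} [Field E]

private theorem cot_eval_smul {P : MvPolynomial W E} {e : ℕ} (hP : P.IsHomogeneous e) (c : E)
    (z : W → E) : eval (fun w => c * z w) P = c ^ e * eval z P := by
  rw [eval_eq, eval_eq, Finset.mul_sum]
  refine Finset.sum_congr rfl fun d hd => ?_
  have h2 : ∑ i ∈ d.support, d i = e := by
    change d.degree = e
    rw [Finsupp.degree_eq_weight_one (R := ℕ)]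
    exact hP (mem_support_iff.1 hd)
  simp only [mul_pow, Finset.prod_mul_distrib, Finset.prod_pow_eq_pow_sum, h2]
  ring

variable {n : ℕ}

/-- The polynomials in the variables of the block `0`. -/
private noncomputable def cotR (n : ℕ) :
    MvPolynomial W E →ₐ[E] MvPolynomial (Fin (n + 1) × W) E :=
  rename fun w => ((0 : Fin (n + 1)), w)

private theorem cotR_X (w : W) :
    cotR (E := E) n (X w) = X ((0 : Fin (n + 1)), w) := by
  unfold cotR
  rw [rename_X]

private theorem cotR_C (c : E) : cotR (E := E) (W := W) n (C c) = C c := by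
  unfold cotR
  rw [rename_C]

private theorem cotR_eval (p : Fin (n + 1) × W → E) (P : MvPolynomial W E) :
    eval p (cotR n P) = eval (fun w => p (0, w)) P := by
  unfold cotR
  rw [eval_rename]
  rfl

/-- The coordinates of the block `0`, normalised at the point `p`. -/
private noncomputable def cotY (p : Fin (n + 1) × W → E) (w : W) :
    MvPolynomial (Fin (n + 1) × W) E := X (0, w) - C (p (0, w))

private theorem cot_sub_mem (p : Fin (n + 1) × W → E) (P : MvPolynomial W E) :
    cotR n P - C (eval (fun w => p (0, w)) P) ∈ Ideal.span (Set.range (cotY p)) := by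
  rw [← Ideal.Quotient.mk_eq_mk_iff_sub_mem]
  have h : ((Ideal.Quotient.mk (Ideal.span (Set.range (cotY p)))).comp
      (cotR (E := E) (W := W) n : MvPolynomial W E →+* MvPolynomial (Fin (n + 1) × W) E)) =
      (Ideal.Quotient.mk (Ideal.span (Set.range (cotY p)))).comp
        ((C : E →+* MvPolynomial (Fin (n + 1) × W) E).comp (eval fun w => p (0, w))) := by
    apply MvPolynomial.ringHom_ext
    · intro r
      simp
    · intro w
      simp only [RingHom.comp_apply, eval_X]
      rw [Ideal.Quotient.mk_eq_mk_iff_sub_mem]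
      change cotR n (X w) - C (p (0, w)) ∈ _
      rw [cotR_X]
      exact Ideal.subset_span ⟨w, rfl⟩
  exact congrArg (fun f : MvPolynomial W E →+*
    MvPolynomial (Fin (n + 1) × W) E ⧸ Ideal.span (Set.range (cotY p)) => f P) h

variable [Fintype W]

private theorem cot_taylor (p : Fin (n + 1) × W → E) (m : Ideal (MvPolynomial (Fin (n + 1) × W) E))
    (hm : ∀ w, cotY p w ∈ m) (P : MvPolynomial W E) :
    cotR n P - C (eval (fun w => p (0, w)) P) -
      ∑ w, C (eval (fun w => p (0, w)) (pderiv w P)) * cotY p w ∈ m ^ 2 := by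
  classical
  induction P using MvPolynomial.induction_on with
  | C r =>
    simp
  | add P Q hP hQ =>
    have := (m ^ 2).add_mem hP hQ
    convert this using 1
    simp only [map_add, add_mul, Finset.sum_add_distrib]
    ring
  | mul_X P w hP =>
    set p0 : W → E := fun w => p (0, w) with hp0
    set LP := ∑ w, C (eval p0 (pderiv w P)) * cotY p w with hLP
    have hL : LP ∈ m := Ideal.sum_mem _ fun w _ => Ideal.mul_mem_left _ _ (hm w)
    have h1 : ∑ w', C (eval p0 (pderiv w' (P * X w))) * cotY p w' =
        C (p0 w) * LP + C (eval p0 P) * cotY p w := by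
      have h2 : ∀ w', C (eval p0 (pderiv w' (P * X w))) * cotY p w' =
          C (p0 w) * (C (eval p0 (pderiv w' P)) * cotY p w') +
          (if w' = w then C (eval p0 P) * cotY p w' else 0) := by
        intro w'
        rw [Derivation.leibniz, pderiv_X, map_add, smul_eq_mul, smul_eq_mul, map_mul, map_mul,
          eval_X, map_add, map_mul, map_mul]
        by_cases hw : w' = w
        · subst hw
          simp
          ring
        · rw [if_neg hw, Pi.single_eq_of_ne (Ne.symm hw)]
          simp
          ring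
      rw [Finset.sum_congr rfl fun w' _ => h2 w', Finset.sum_add_distrib, ← Finset.mul_sum,
        Finset.sum_ite_eq' Finset.univ w, if_pos (Finset.mem_univ w)]
    rw [h1, map_mul, cotR_X, map_mul, eval_X, map_mul]
    have h3 : (X (0, w) : MvPolynomial (Fin (n + 1) × W) E) = C (p0 w) + cotY p w := by
      rw [hp0, cotY]
      ring
    rw [h3]
    have h4 : cotR n P * (C (p0 w) + cotY p w) - C (eval p0 P) * C (p0 w) -
        (C (p0 w) * LP + C (eval p0 P) * cotY p w) =
        (C (p0 w) + cotY p w) * (cotR n P - C (eval p0 P) - LP) + LP * cotY p w := by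
      ring
    rw [h4]
    refine (m ^ 2).add_mem (Ideal.mul_mem_left _ _ hP) ?_
    rw [sq]
    exact Ideal.mul_mem_mul hL (hm w)

end

theorem cot {E Ω W T : Type*} [Field E] [Fintype W] {c d s n : ℕ} (a : Ω → W → E)
    (ha0 : ∀ x, a x ≠ 0) (F : Ω → Ω) (e : ℕ) (G : T → W → MvPolynomial W E)
    (hG : LocF a (fun x => a (F x)) e G) (Fs : Fin s → MvPolynomial W E) (hJ : Jac a c d Fs)
    (l : Fin (n + 1) → W → E) (x : Ω) (hadm : Adm a F l x) (v : Fin (d + 1) → W → E)
    (hv : TanB a x v) (I : Fin d → W) (hI : pv (l 0) I v ≠ 0) (q : Fin (n + 1) × W) :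
    X q - C (npt a F l x q) ∈
      Ideal.span (Set.range (zc a F l x I)) ⊔ (VI a F l ⊔ mI a F l x ^ 2) := by
  classical
  set A := Ideal.span (Set.range (zc a F l x I)) ⊔ (VI a F l ⊔ mI a F l x ^ 2) with hA
  have hVA : VI a F l ≤ A := le_sup_of_le_right le_sup_left
  have hmA : mI a F l x ^ 2 ≤ A := le_sup_of_le_right le_sup_right
  set p := npt a F l x with hp
  have hl0 : lin (l 0) (a x) ≠ 0 := hadm 0
  -- the block 0 of a normalised point
  have hnpt0 : ∀ x', (fun w => npt a F l x' (0, w)) =
      fun w => (lin (l 0) (a x'))⁻¹ * a x' w := by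
    intro x'
    funext w
    unfold npt
    change a x' w / lin (l 0) (a x') = _
    rw [div_eq_mul_inv, mul_comm]
  have hym : ∀ w, cotY p w ∈ mI a F l x := by
    intro w
    change eval (npt a F l x) (cotY p w) = 0
    unfold cotY
    rw [map_sub, eval_X, eval_C, sub_self]
  -- forms vanishing on `a`
  have hform : ∀ (P : MvPolynomial W E) (k : ℕ), P.IsHomogeneous k → Van a P →
      cotR n P ∈ VI a F l := by
    intro P k hP hPv x' _
    rw [cotR_eval, hnpt0, cot_eval_smul hP, hPv x', mul_zero]
  -- the submodule of the vectors `u` with `∑ C (u w) * y w ∈ A`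
  let S : Submodule E (W → E) :=
    { carrier := {u | ∑ w, C (u w) * cotY p w ∈ A}
      add_mem' := by
        intro u u' hu hu'
        have := A.add_mem hu hu'
        simp only [Set.mem_ofPred_eq, Pi.add_apply, map_add, add_mul, Finset.sum_add_distrib]
        exact this
      zero_mem' := by
        simp
      smul_mem' := by
        intro r u hu
        have := A.mul_mem_left (C r) hu
        rw [Finset.mul_sum] at this
        simp only [Set.mem_ofPred_eq, Pi.smul_apply, smul_eq_mul, map_mul, mul_assoc]
        exact this }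
  have hSmem : ∀ u : W → E, u ∈ S ↔ ∑ w, C (u w) * cotY p w ∈ A := fun u => Iff.rfl
  have hS1 : l 0 ∈ S := by
    rw [hSmem]
    refine hVA ?_
    have h1 : ∑ w, C (l 0 w) * cotY p w = linB l 0 - 1 := by
      unfold cotY linB
      simp only [mul_sub, Finset.sum_sub_distrib]
      congr 1
      have h2 : ∑ w, l 0 w * p (0, w) = 1 := by
        have h3 : ∀ w, p (0, w) = (lin (l 0) (a x))⁻¹ * a x w := fun w => congrFun (hnpt0 x) w
        simp only [h3]
        have h4 : ∑ w, l 0 w * ((lin (l 0) (a x))⁻¹ * a x w) =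
            (lin (l 0) (a x))⁻¹ * lin (l 0) (a x) := by
          unfold lin
          rw [Finset.mul_sum]
          exact Finset.sum_congr rfl fun w _ => by ring
        rw [h4, inv_mul_cancel₀ hl0]
      simp only [← map_mul, ← map_sum]
      rw [h2, map_one]
    rw [h1]
    intro x' hx'
    have h5 : eval (npt a F l x') (linB l 0) = 1 := by
      unfold linB
      rw [map_sum]
      simp only [map_mul, eval_C, eval_X]
      have h3 : ∀ w, npt a F l x' (0, w) = (lin (l 0) (a x'))⁻¹ * a x' w :=
        fun w => congrFun (hnpt0 x') w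
      simp only [h3]
      have h4 : ∑ w, l 0 w * ((lin (l 0) (a x'))⁻¹ * a x' w) =
          (lin (l 0) (a x'))⁻¹ * lin (l 0) (a x') := by
        unfold lin
        rw [Finset.mul_sum]
        exact Finset.sum_congr rfl fun w _ => by ring
      have hx0 : lin (l 0) (a x') ≠ 0 := hx' 0
      rw [h4, inv_mul_cancel₀ hx0]
    rw [map_sub, map_one, h5, sub_self]
  have hS2 : ∀ (P : MvPolynomial W E) (k : ℕ), P.IsHomogeneous k → Van a P →
      (fun w => eval (a x) (pderiv w P)) ∈ S := by
    intro P k hP hPv
    have h1 : (fun w => eval (fun w => p (0, w)) (pderiv w P)) ∈ S := by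
      rw [hSmem]
      have h2 := cot_taylor p (mI a F l x) hym P
      have h3 : eval (fun w => p (0, w)) P = 0 := by
        rw [hp, hnpt0, cot_eval_smul hP, hPv x, mul_zero]
      rw [h3, map_zero, sub_zero] at h2
      have h4 := A.sub_mem (hVA (hform P k hP hPv)) (hmA h2)
      rw [sub_sub_cancel] at h4
      exact h4
    have h5 : (fun w => eval (a x) (pderiv w P)) =
        ((lin (l 0) (a x))⁻¹ ^ (k - 1))⁻¹ • (fun w => eval (fun w => p (0, w)) (pderiv w P)) := by
      funext w
      rw [Pi.smul_apply, smul_eq_mul, hp, hnpt0, cot_eval_smul (hP.pderiv (i := w))]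
      rw [← mul_assoc, inv_mul_cancel₀ (pow_ne_zero _ (inv_ne_zero hl0)), one_mul]
    rw [h5]
    exact S.smul_mem _ h1
  have hS3 : ∀ b, Pi.single (I b) 1 ∈ S := by
    intro b
    rw [hSmem]
    have h1 : ∑ w, C ((Pi.single (I b) 1 : W → E) w) * cotY p w = cotY p (I b) := by
      rw [Finset.sum_eq_single (I b)]
      · simp
      · intro w _ hw
        rw [Pi.single_eq_of_ne hw, map_zero, zero_mul]
      · intro h
        exact absurd (Finset.mem_univ _) h
    rw [h1]
    exact Ideal.mem_sup_left (Ideal.subset_span ⟨b, rfl⟩)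
  have hStop : S = ⊤ := by
    by_contra hne
    obtain ⟨f, hf0, hf⟩ := Submodule.exists_le_ker_of_lt_top S (lt_top_iff_ne_top.2 hne)
    apply hf0
    set z : W → E := fun w => f (Pi.single w 1) with hz
    have hfz : ∀ u : W → E, f u = ∑ w, u w * z w := by
      intro u
      conv_lhs => rw [← Finset.univ_sum_single u]
      rw [map_sum]
      refine Finset.sum_congr rfl fun w _ => ?_
      have : (Pi.single w (u w) : W → E) = u w • Pi.single w 1 := by
        rw [← Pi.single_smul, smul_eq_mul, mul_one]
      rw [this, map_smul, smul_eq_mul]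
    have hz0 : z = 0 := by
      obtain ⟨w₀, hw₀⟩ := Function.ne_iff.1 (ha0 x)
      obtain ⟨σ, t, -, hmn⟩ := hJ.minor x w₀ hw₀
      have hli := jac_li a Fs x σ t hmn
      have h1 : ∀ i, ∑ w, eval (a x) (pderiv w (Fs (t i))) * z w = 0 := by
        intro i
        obtain ⟨k, hk⟩ := hJ.hom (t i)
        have := hf (hS2 (Fs (t i)) k hk (hJ.van (t i)))
        rw [LinearMap.mem_ker, hfz] at this
        exact this
      obtain ⟨α, hα⟩ := tanb_ker a Fs hJ x t hli v hv z h1
      have h2 : lin (l 0) z = 0 := by
        have := hf hS1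
        rw [LinearMap.mem_ker, hfz] at this
        exact this
      have h3 : ∀ b, z (I b) = 0 := by
        intro b
        have := hf (hS3 b)
        rw [LinearMap.mem_ker] at this
        exact this
      have h4 : α = 0 := by
        refine pv_zero (l 0) I v hI α ?_ ?_
        · rw [← h2]
          unfold lin
          simp only [hα, Finset.mul_sum]
          rw [Finset.sum_comm]
          refine Finset.sum_congr rfl fun w _ => Finset.sum_congr rfl fun k _ => ?_
          ring
        · intro b
          rw [← hα]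
          exact h3 b
      funext w
      rw [hα w, h4]
      simp
    ext u
    rw [LinearMap.comp_apply, LinearMap.single_apply, LinearMap.comp_apply]
    rw [hfz, hz0]
    simp
  have hyA : ∀ w, cotY p w ∈ A := by
    intro w
    have h1 : (Pi.single w 1 : W → E) ∈ S := by rw [hStop]; trivial
    rw [hSmem] at h1
    have h2 : ∑ w', C ((Pi.single w 1 : W → E) w') * cotY p w' = cotY p w := by
      rw [Finset.sum_eq_single w]
      · simp
      · intro w' _ hw
        rw [Pi.single_eq_of_ne hw, map_zero, zero_mul]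
      · intro h
        exact absurd (Finset.mem_univ _) h
    rwa [h2] at h1
  have hspan : Ideal.span (Set.range (cotY p)) ≤ A := by
    rw [Ideal.span_le]
    rintro _ ⟨w, rfl⟩
    exact hyA w
  -- the other blocks
  obtain ⟨i, w⟩ := q
  have hloc := chart_locF a ha0 F e G hG (i : ℕ)
  obtain ⟨χ, w', hw'⟩ := hloc.2.2 x
  set H : W → MvPolynomial W E := fun w => chart G (i : ℕ) χ w with hH
  have hHh : ∀ w, (H w).IsHomogeneous (e ^ (i : ℕ)) := fun w => hloc.1 χ w
  set L : MvPolynomial W E := ∑ w, C (l i w) * H w with hL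
  have hLh : L.IsHomogeneous (e ^ (i : ℕ)) := by
    refine IsHomogeneous.sum _ _ _ fun w _ => ?_
    have := (isHomogeneous_C W (l i w)).mul (hHh w)
    rwa [zero_add] at this
  have hval : ∀ x', ∃ g : E, (∀ w, eval (a x') (H w) = g * a (F^[i] x') w) ∧
      eval (a x') L = g * lin (l i) (a (F^[i] x')) := by
    intro x'
    obtain ⟨g, hg⟩ := hloc.2.1 χ x'
    refine ⟨g, hg, ?_⟩
    rw [hL, map_sum]
    unfold lin
    rw [Finset.mul_sum]
    refine Finset.sum_congr rfl fun w _ => ?_
    rw [map_mul, eval_C, hg w]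
    ring
  have hN : X (i, w) * cotR n L - cotR n (H w) ∈ VI a F l := by
    intro x' hx'
    obtain ⟨g, hg1, hg2⟩ := hval x'
    rw [map_sub, map_mul, eval_X, cotR_eval, cotR_eval, hnpt0, cot_eval_smul hLh,
      cot_eval_smul (hHh w), hg1 w, hg2]
    unfold npt
    simp only
    have := hx' i
    field_simp
    ring
  obtain ⟨g, hg1, hg2⟩ := hval x
  set q0 : E := eval (fun w => p (0, w)) L with hq0
  have hq0' : q0 = (lin (l 0) (a x))⁻¹ ^ e ^ (i : ℕ) * (g * lin (l i) (a (F^[i] x))) := by
    rw [hq0, hp, hnpt0, cot_eval_smul hLh, hg2]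
  have hg0 : g ≠ 0 := by
    rintro rfl
    exact hw' (by rw [hg1 w', zero_mul])
  have hq0n : q0 ≠ 0 := by
    rw [hq0']
    exact mul_ne_zero (pow_ne_zero _ (inv_ne_zero hl0)) (mul_ne_zero hg0 (hadm i))
  have hpq : p (i, w) * q0 = eval (fun w => p (0, w)) (H w) := by
    rw [hq0', hp, hnpt0, cot_eval_smul (hHh w), hg1 w]
    unfold npt
    simp only
    have := hadm i
    field_simp
  have h1 : C q0 * (X (i, w) - C (p (i, w))) =
      (X (i, w) * cotR n L - cotR n (H w)) - X (i, w) * (cotR n L - C q0) +
        (cotR n (H w) - C (eval (fun w => p (0, w)) (H w))) := by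
    rw [← hpq, map_mul]
    ring
  have h2 : C q0 * (X (i, w) - C (p (i, w))) ∈ A := by
    rw [h1]
    refine A.add_mem (A.sub_mem (hVA hN) (A.mul_mem_left _ (hspan (cot_sub_mem p L))))
      (hspan (cot_sub_mem p (H w)))
  have h3 := A.mul_mem_left (C q0⁻¹) h2
  rw [← mul_assoc, ← map_mul, inv_mul_cancel₀ hq0n, map_one, one_mul] at h3
  exact h3

end Pool.Agent.LLX
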