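import Pool.Agent.LLX.Flt

/-!
# LLX POWR: powers of a function of small degree

Let `s ≥ 1` be large, `k = ⌈s (b + 1) / r ^ (n - τ)⌉₊ ≥ 1`. Then `g ^ s ∈ Fl k`: in block `0` its
degree is `≤ s b₁ ≤ s (b + 1) r ^ τ ≤ k r ^ (n - τ) r ^ τ = k r ^ n ≤ k ω 0`, in block `τ` it is
`≤ s b ≤ k r ^ (n - τ) ≤ k ω τ` (`ω = wt r n`, `ω i = ⌈r ^ (n - i)⌉₊`), and in the other blocks it
is `0`. And `g ^ s ∈ (J ^ N₀ ⊔ p) ^ s ≤ J ^ (N₀ s) ⊔ p`. Finally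
`β' r ^ n k ≤ β' r ^ n (s (b + 1) / r ^ (n - τ) + 1) = β' s (b + 1) r ^ τ + β' r ^ n ≤
2 β' (b + 1) r ^ τ s ≤ N₀ s` if `s ≥ r ^ n`. So `g ^ s ∈ p` (`Obst`), `g ∈ p`.
-/

open MvPolynomial

namespace Pool.Agent.LLX.AS

variable {E : Type*} [Field E] {W : Type*} [Fintype W] {n : ℕ}

private theorem sup_pow_le' {R : Type*} [CommRing R] (A p : Ideal R) (s : ℕ) :
    (A ⊔ p) ^ s ≤ A ^ s ⊔ p := by
  induction s with
  | zero => simp
  | succ s ih =>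
    have h1 : (A ^ s ⊔ p) * (A ⊔ p) ≤ A ^ (s + 1) ⊔ p := by
      rw [Ideal.sup_mul, Ideal.mul_sup, pow_succ]
      refine sup_le (sup_le le_sup_left ?_) ?_
      · exact (Ideal.mul_le_right : A ^ s * p ≤ p).trans (le_sup_right : p ≤ A ^ s * A ⊔ p)
      · exact (Ideal.mul_le_left : p * (A ⊔ p) ≤ p).trans (le_sup_right : p ≤ A ^ s * A ⊔ p)
    calc (A ⊔ p) ^ (s + 1) = (A ⊔ p) ^ s * (A ⊔ p) := pow_succ _ _
      _ ≤ (A ^ s ⊔ p) * (A ⊔ p) := Ideal.mul_mono_left ih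
      _ ≤ _ := h1

theorem powr (r : ℝ) (hr : 1 ≤ r) (β' : ℝ) (hβ' : 0 ≤ β')
    (J p : Ideal (MvPolynomial (Fin (n + 1) × W) E)) (hp : p.IsPrime)
    (hobs : Obst (fun k => Fl E W (wt r n) k) J (β' * r ^ n) p) (τ : Fin (n + 1)) (hτ : τ ≠ 0)
    (b b₁ N₀ : ℕ) (hb₁ : (b₁ : ℝ) ≤ (b + 1) * r ^ (τ : ℕ))
    (hN₀ : 2 * β' * (b + 1) * r ^ (τ : ℕ) ≤ N₀) (g : MvPolynomial (Fin (n + 1) × W) E)
    (hg : Bdd (fun i => if i = 0 then b₁ else if i = τ then b else 0) g)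
    (hgJ : g ∈ J ^ N₀ ⊔ p) : g ∈ p := by
  obtain ⟨s, hs⟩ : ∃ s : ℕ, s = ⌈r ^ n⌉₊ := ⟨_, rfl⟩
  obtain ⟨k, hk⟩ : ∃ k : ℕ, k = ⌈(s : ℝ) * (b + 1) / r ^ (n - (τ : ℕ))⌉₊ := ⟨_, rfl⟩
  have hr0 : 0 < r := by linarith
  have hrp : ∀ i : ℕ, 1 ≤ r ^ i := fun i => one_le_pow₀ hr
  have hs1 : r ^ n ≤ s := by
    rw [hs]
    exact Nat.le_ceil _
  have hs2 : (1 : ℝ) ≤ s := (hrp n).trans hs1
  have hb0 : (0 : ℝ) ≤ b := Nat.cast_nonneg _
  have hden : 0 < r ^ (n - (τ : ℕ)) := by positivity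
  have hk1 : (s : ℝ) * (b + 1) / r ^ (n - (τ : ℕ)) ≤ k := by
    rw [hk]
    exact Nat.le_ceil _
  have hk2 : (k : ℝ) ≤ s * (b + 1) / r ^ (n - (τ : ℕ)) + 1 := by
    rw [hk]
    exact (Nat.ceil_lt_add_one (by positivity)).le
  have hk0 : (0 : ℝ) < k := lt_of_lt_of_le (by positivity) hk1
  have hk3 : 1 ≤ k := by
    have : 0 < k := by exact_mod_cast hk0
    exact this
  have hτn : (τ : ℕ) ≤ n := by omega
  have hsplit : r ^ n = r ^ (n - (τ : ℕ)) * r ^ (τ : ℕ) := by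
    rw [← pow_add]
    congr 1
    omega
  have hk1' : (s : ℝ) * (b + 1) ≤ k * r ^ (n - (τ : ℕ)) := by
    rwa [div_le_iff₀ hden] at hk1
  have hbd : g ^ s ∈ Fl E W (wt r n) k := by
    rw [mem_Fl]
    refine Bdd.mono ?_ (hg.pow s)
    intro i
    by_cases hi0 : i = 0
    · subst hi0
      simp only [if_true]
      have h1 : (s : ℝ) * b₁ ≤ k * ⌈r ^ (n - ((0 : Fin (n + 1)) : ℕ))⌉₊ := by
        have h2 : r ^ n ≤ ⌈r ^ (n - ((0 : Fin (n + 1)) : ℕ))⌉₊ := by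
          refine le_trans ?_ (Nat.le_ceil _)
          simp
        calc (s : ℝ) * b₁ ≤ s * ((b + 1) * r ^ (τ : ℕ)) := by gcongr
          _ = (s * (b + 1)) * r ^ (τ : ℕ) := by ring
          _ ≤ (k * r ^ (n - (τ : ℕ))) * r ^ (τ : ℕ) := by gcongr
          _ = k * r ^ n := by rw [hsplit]; ring
          _ ≤ _ := by gcongr
      exact_mod_cast h1
    · by_cases hiτ : i = τ
      · subst hiτ
        simp only [if_neg hi0, if_true]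
        have h1 : (s : ℝ) * b ≤ k * ⌈r ^ (n - (i : ℕ))⌉₊ := by
          calc (s : ℝ) * b ≤ s * (b + 1) := by nlinarith
            _ ≤ k * r ^ (n - (i : ℕ)) := hk1'
            _ ≤ _ := by
              gcongr
              exact Nat.le_ceil _
        exact_mod_cast h1
      · simp only [if_neg hi0, if_neg hiτ, mul_zero]
        exact Nat.zero_le _
  have hJs : g ^ s ∈ J ^ (N₀ * s) ⊔ p := by
    rw [pow_mul]
    exact sup_pow_le' _ _ _ (Ideal.pow_mem_pow hgJ s)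
  have hnum : β' * r ^ n * k ≤ ((N₀ * s : ℕ) : ℝ) := by
    have hτ1 := hrp (τ : ℕ)
    have h1 : r ^ n * k ≤ 2 * (b + 1) * r ^ (τ : ℕ) * s := by
      calc r ^ n * k ≤ r ^ n * (s * (b + 1) / r ^ (n - (τ : ℕ)) + 1) := by gcongr
        _ = s * (b + 1) * r ^ (τ : ℕ) + r ^ n := by
          rw [hsplit]
          field_simp
        _ ≤ s * (b + 1) * r ^ (τ : ℕ) + s * (b + 1) * r ^ (τ : ℕ) := by
          have h3 : (1 : ℝ) ≤ (b + 1) * r ^ (τ : ℕ) := by nlinarith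
          have h4 : (s : ℝ) ≤ s * ((b + 1) * r ^ (τ : ℕ)) := by nlinarith
          nlinarith
        _ = _ := by ring
    calc β' * r ^ n * k = β' * (r ^ n * k) := by ring
      _ ≤ β' * (2 * (b + 1) * r ^ (τ : ℕ) * s) := by gcongr
      _ = (2 * β' * (b + 1) * r ^ (τ : ℕ)) * s := by ring
      _ ≤ N₀ * s := by gcongr
      _ = _ := by push_cast; ring
  have := hobs k (g ^ s) (N₀ * s) hk3 hbd hnum hJs
  exact hp.mem_of_pow_mem _ this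

end Pool.Agent.LLX.AS
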