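import Pool.Agent.LLX.Adefs
import Pool.Agent.Helper63.SAND.Iter

/-!
# LLX REL: relations in the ideal of the graph

`P ∈ VI a F l` means that `P` vanishes at `npt a F l x` for all admissible `x`; and
`npt a F l x (q, w) = a (F^[q] x) w / L_q`, `L_q = lin (l q) (a (F^[q] x)) ≠ 0`.

* `rel_lin`: `∑ w, l q w * (a (F^[q] x) w / L_q) = 1`.
* `rel_van`: `eval (npt) (blk E q P) = eval (fun w => a (F^[q] x) w / L_q) P = L_q⁻¹ ^ k *
  eval (a (F^[q] x)) P = 0`.
* `rel_chart`: `chart_locF` (SAND/Iter.lean): `eval (a x) (chart G q t w) = c * a (F^[q] x) w`, and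
  the charts are forms of degree `e ^ q`; so with `u = L_0⁻¹ ^ (e ^ q)`:
  `eval npt (blk E 0 (chart G q t w)) = u c a (F^[q] x) w` and
  `eval npt (blk E 0 (∑ w', C (l q w') * chart G q t w')) = u c L_q`.
* `chart_ne`: choose `t` with some `eval (a x) (chart G q t w) ≠ 0` (`chart_locF`), so `c ≠ 0` and
  the value is `u c L_q ≠ 0`.
-/

open MvPolynomial

namespace Pool.Agent.LLX.AS

open Pool.Agent.Helper63.SAND

variable {E : Type*} [Field E] {Ω W T : Type*} [Fintype W] {n : ℕ}

/-- A form of degree `e` at a multiple of a vector. -/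
private theorem rel_eval_smul {σ : Type*} (P : MvPolynomial σ E) (e : ℕ)
    (hP : P.IsHomogeneous e) (c : E) (z : σ → E) :
    eval (fun s => c * z s) P = c ^ e * eval z P := by
  rw [eval_eq, eval_eq, Finset.mul_sum]
  refine Finset.sum_congr rfl fun d hd => ?_
  have h1 : ∏ i ∈ d.support, (c * z i) ^ d i = c ^ e * ∏ i ∈ d.support, z i ^ d i := by
    have h2 : ∏ i ∈ d.support, (c * z i) ^ d i =
        (∏ i ∈ d.support, c ^ d i) * ∏ i ∈ d.support, z i ^ d i := by
      rw [← Finset.prod_mul_distrib]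
      exact Finset.prod_congr rfl fun i _ => mul_pow _ _ _
    rw [h2, Finset.prod_pow_eq_pow_sum]
    have h3 : ∑ i ∈ d.support, d i = e := by
      have h4 := hP (mem_support_iff.1 hd)
      rw [← h4, Finsupp.weight_apply, Finsupp.sum]
      simp
    rw [h3]
  rw [h1]
  ring

/-- The value at the point of the graph of a form in the block `q`. -/
private theorem rel_eval_blk (a : Ω → W → E) (F : Ω → Ω) (l : Fin (n + 1) → W → E) (x : Ω)
    (q : Fin (n + 1)) (P : MvPolynomial W E) (k : ℕ) (hP : P.IsHomogeneous k) :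
    eval (npt a F l x) (blk E q P) =
      ((lin (l q) (a (F^[q] x)))⁻¹) ^ k * eval (a (F^[q] x)) P := by
  rw [← rel_eval_smul P k hP]
  simp only [blk, eval_rename]
  congr 2
  funext w
  simp only [Function.comp_apply, npt, div_eq_mul_inv]
  ring

private theorem rel_eval_lin (l : W → E) (z : W → E) (Y : W → MvPolynomial W E) (c : E)
    (y : W → E) (h : ∀ w, eval z (Y w) = c * y w) :
    eval z (∑ w', C (l w') * Y w') = c * lin l y := by
  rw [map_sum, lin, Finset.mul_sum]
  refine Finset.sum_congr rfl fun w _ => ?_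
  rw [map_mul, eval_C, h w]
  ring

private theorem rel_hom (l : W → E) (Y : W → MvPolynomial W E) (e : ℕ)
    (h : ∀ w, (Y w).IsHomogeneous e) : (∑ w', C (l w') * Y w').IsHomogeneous e := by
  refine IsHomogeneous.sum _ _ _ fun w _ => ?_
  have := (isHomogeneous_C W (l w)).mul (h w)
  rwa [zero_add] at this

theorem rel_lin (a : Ω → W → E) (F : Ω → Ω) (l : Fin (n + 1) → W → E) (q : Fin (n + 1)) :
    linB l q - 1 ∈ VI a F l := by
  intro x hx
  have h0 := hx q
  have h1 : eval (npt a F l x) (linB l q) = 1 := by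
    rw [linB, map_sum]
    have h2 : ∀ w, eval (npt a F l x) (C (l q w) * X (q, w)) =
        (l q w * a (F^[q] x) w) / lin (l q) (a (F^[q] x)) := by
      intro w
      rw [map_mul, eval_C, eval_X, npt, mul_div_assoc]
    rw [Finset.sum_congr rfl fun w _ => h2 w, ← Finset.sum_div]
    exact div_self h0
  rw [map_sub, h1, map_one, sub_self]

theorem rel_van (a : Ω → W → E) (F : Ω → Ω) (l : Fin (n + 1) → W → E) (q : Fin (n + 1))
    (P : MvPolynomial W E) (k : ℕ) (hP : P.IsHomogeneous k) (hv : Van a P) :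
    blk E q P ∈ VI a F l := by
  intro x _
  rw [rel_eval_blk a F l x q P k hP, hv, mul_zero]

theorem rel_chart (a : Ω → W → E) (ha0 : ∀ x, a x ≠ 0) (F : Ω → Ω) (e : ℕ)
    (G : T → W → MvPolynomial W E) (hG : LocF a (fun x => a (F x)) e G)
    (l : Fin (n + 1) → W → E) (q : Fin (n + 1)) (t : Fin q → T) (w : W) :
    blk E 0 (chart G q t w) -
      blk E 0 (∑ w', C (l q w') * chart G q t w') * X (q, w) ∈ VI a F l := by
  intro x hx
  have hq := hx q
  have hC := chart_locF a ha0 F e G hG (q : ℕ)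
  obtain ⟨c, hc⟩ := hC.2.1 t x
  have h1 := rel_eval_blk a F l x 0 (chart G q t w) (e ^ (q : ℕ)) (hC.1 t w)
  have h2 := rel_eval_blk a F l x 0 (∑ w', C (l q w') * chart G q t w') (e ^ (q : ℕ))
    (rel_hom (l q) _ _ fun w' => hC.1 t w')
  have h3 : eval (a x) (∑ w', C (l q w') * chart G q t w') = c * lin (l q) (a (F^[q] x)) :=
    rel_eval_lin (l q) (a x) _ c _ hc
  simp only [Fin.val_zero, Function.iterate_zero, id_eq] at h1 h2
  rw [map_sub, map_mul, h1, h2, h3, hc w, eval_X, npt]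
  field_simp
  ring

theorem chart_ne (a : Ω → W → E) (ha0 : ∀ x, a x ≠ 0) (F : Ω → Ω) (e : ℕ)
    (G : T → W → MvPolynomial W E) (hG : LocF a (fun x => a (F x)) e G)
    (l : Fin (n + 1) → W → E) (x : Ω) (hx : Adm a F l x) (q : Fin (n + 1)) :
    ∃ t : Fin q → T, eval (npt a F l x) (blk E 0 (∑ w', C (l q w') * chart G q t w')) ≠ 0 := by
  have hq := hx q
  have h0 := hx 0
  have hC := chart_locF a ha0 F e G hG (q : ℕ)
  obtain ⟨t, w, hw⟩ := hC.2.2 x
  obtain ⟨c, hc⟩ := hC.2.1 t x
  refine ⟨t, ?_⟩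
  have h2 := rel_eval_blk a F l x 0 (∑ w', C (l q w') * chart G q t w') (e ^ (q : ℕ))
    (rel_hom (l q) _ _ fun w' => hC.1 t w')
  have h3 : eval (a x) (∑ w', C (l q w') * chart G q t w') = c * lin (l q) (a (F^[q] x)) :=
    rel_eval_lin (l q) (a x) _ c _ hc
  rw [h2]
  simp only [Fin.val_zero, Function.iterate_zero, id_eq] at h0 ⊢
  rw [h3]
  have hc0 : c ≠ 0 := by
    rintro rfl
    exact hw (by rw [hc w, zero_mul])
  exact mul_ne_zero (pow_ne_zero _ (inv_ne_zero h0)) (mul_ne_zero hc0 hq)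

end Pool.Agent.LLX.AS
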