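import Pool.Agent.LLX.Ker
import Pool.Agent.LLX.Powr
import Pool.Agent.LLX.Rel
import Pool.Agent.Helper63.SAND.Hilb2
import Pool.Agent.Helper63.SAND.Tools

/-!
# LLX CUT: the cutting form

`monomial_basis` (SAND/Hilb2.lean) for the family `ZQ a Q` and degree `b₁` gives `ex : Fin h → _`,
`h = hil .. b₁`, of degree `b₁`, linearly independent on `ZQ a Q`. By `hilb2`
`hil (lam (b₁ + 1) - 1) ≤ lam ^ card W * h`, so `ker` applies with `N₀ = lam (b₁ + 1)` (`h > 0`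
by `hil_pos`, SAND/Tools.lean, if you need it: it is a consequence of `hM`...; in fact
`M * hil .. ≤ M * lam ^ card W * h ≤ b h < (b + 1) h` needs `h > 0`, use `hil_pos`,
`nonempty_ZQ`). The function `g` of `ker` is `∑ i, blk 0 (P i) X (τ, w₀) ^ (b - i) X (τ, w₁) ^ i`
with `P i = ∑ j, C (c i j) * monomial (ex j) 1` of degree `b₁`; it is `Bdd` by `b₁` in block `0`, by
`b` in block `τ`; `powr` gives `g ∈ p` (`2 β' (b + 1) r ^ τ ≤ 4 β' b r ^ τ ≤ lam b₁ ≤ N₀`, as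
`b ≥ 1`, `4 β' ≤ lam`, `b r ^ τ ≤ b₁`). Some `c i j ≠ 0`, so `P i` does not vanish on `ZQ a Q`
(linear independence), and by `hind` there is `y : ZQ a Q` with
`∑ i, eval (a y) (P i) * a (F^[τ] y) w₀ ^ (b - i) * a (F^[τ] y) w₁ ^ i ≠ 0`. Choose a chart
`t : Fin τ → T` which does not vanish at `y` (`chart_locF`): `eval (a y) (chart G τ t w) =
c' * a (F^[τ] y) w`, `c' ≠ 0`. Then
`Φ = ∑ i, P i * chart G τ t w₀ ^ (b - i) * chart G τ t w₁ ^ i` is a form of degree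
`b₁ + b e ^ τ` with `eval (a y) Φ = c' ^ b * (∑ ..) ≠ 0`, so `Φ ∉ Q`; and by `rel_chart` modulo
`VI ≤ p`: `blk Φ ≡ U ^ b * g`, `U = blk (∑ w', C (l τ w') * chart G τ t w')`, so `blk Φ ∈ p`.
-/

open MvPolynomial

namespace Pool.Agent.LLX.AS

open Pool.Agent.Helper63.SAND Pool.Agent.PW

variable {E : Type*} [Field E] {Ω W T : Type*} [Fintype W] {n : ℕ}

theorem cut [IsAlgClosed E] (a : Ω → W → E) (ha0 : ∀ x, a x ≠ 0) (F : Ω → Ω) (e : ℕ)
    (G : T → W → MvPolynomial W E) (hG : LocF a (fun x => a (F x)) e G) (hcl : Clo a)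
    (l : Fin (n + 1) → W → E) {M : ℕ} (x : Fin M → Ω) (hx : ∀ i, Adm a F l (x i))
    (hne : ∀ i i', i ≠ i' → ∀ c : E, ∃ w, a (x i) w ≠ c * a (x i') w)
    (r : ℝ) (hr : 1 ≤ r) (β' : ℝ) (hβ' : 0 ≤ β')
    (p : Ideal (MvPolynomial (Fin (n + 1) × W) E)) (hpp : p.IsPrime) (hp : VI a F l ≤ p)
    (hobs : Obst (fun k => Fl E W (wt r n) k) (⨅ i, mI a F l (x i)) (β' * r ^ n) p)
    (Q : Ideal (MvPolynomial W E)) (hQ : HP Q) (hc : Cont a Q) (hQp : Q ≤ p.comap (blk E 0))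
    (τ : Fin (n + 1)) (hτ : τ ≠ 0) (b b₁ lam : ℕ) (hb : 1 ≤ b) (hlam : 4 * β' ≤ lam)
    (hlam1 : 1 ≤ lam) (hM : M * lam ^ Fintype.card W ≤ b) (hb₁ : (b : ℝ) * r ^ (τ : ℕ) ≤ b₁)
    (hb₁' : (b₁ : ℝ) ≤ (b + 1) * r ^ (τ : ℕ)) (w₀ w₁ : W)
    (hind : ∀ P : ℕ → MvPolynomial W E, (∀ i, (P i).IsHomogeneous b₁) →
      (∀ y : ZQ a Q, ∑ i ∈ Finset.range (b + 1), eval (a y) (P i) *
        a (F^[τ] (y : Ω)) w₀ ^ (b - i) * a (F^[τ] (y : Ω)) w₁ ^ i = 0) →
      ∀ i ≤ b, Van (fun y : ZQ a Q => a y) (P i)) :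
    ∃ Φ : MvPolynomial W E, Φ.IsHomogeneous (b₁ + b * e ^ (τ : ℕ)) ∧ Φ ∉ Q ∧
      blk E 0 Φ ∈ p := by
  classical
  obtain ⟨ex, hex1, hex2⟩ := monomial_basis (fun y : ZQ a Q => a y) b₁
  have hne0 := nonempty_ZQ a hcl Q hQ hc
  have hh : 0 < hil (fun y : ZQ a Q => a y) b₁ := hil_pos _ (fun y => ha0 _) b₁
  have hhil := hilb2 (fun y : ZQ a Q => a y) b₁ lam hlam1
  generalize hhd : hil (fun y : ZQ a Q => a y) b₁ = h at ex hex1 hex2 hh hhil
  have hN₀ : 1 ≤ lam * (b₁ + 1) := Nat.mul_pos hlam1 (Nat.succ_pos _)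
  obtain ⟨c, hc0, hcg⟩ := ker a ha0 F e G hG hcl l x hx hne p hp Q hQ hc hQp τ b h
    (lam * (b₁ + 1)) hN₀ (by
      calc M * hil (fun y : ZQ a Q => a y) (lam * (b₁ + 1) - 1) ≤
            M * (lam ^ Fintype.card W * h) := Nat.mul_le_mul_left M hhil
        _ = M * lam ^ Fintype.card W * h := by ring
        _ ≤ b * h := Nat.mul_le_mul_right h hM
        _ < (b + 1) * h := by nlinarith) ex w₀ w₁
  -- the forms
  obtain ⟨P, hPdef⟩ : ∃ P : ℕ → MvPolynomial W E, ∀ i : Fin (b + 1),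
      P i = ∑ j, C (c i j) * monomial (ex j) 1 ∧ ∀ i : ℕ, (P i).IsHomogeneous b₁ := by
    refine ⟨fun i => if hi : i < b + 1 then ∑ j, C (c ⟨i, hi⟩ j) * monomial (ex j) 1 else 0,
      fun i => ⟨?_, fun i => ?_⟩⟩
    · exact dif_pos i.2
    · dsimp only
      split_ifs with hi
      · refine IsHomogeneous.sum _ _ _ fun j _ => ?_
        have := (isHomogeneous_C W (c ⟨i, hi⟩ j)).mul
          (isHomogeneous_monomial (1 : E) (hex1 j))
        rwa [zero_add] at this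
      · exact isHomogeneous_zero _ _ _
  have hPe : ∀ i : Fin (b + 1), P i = ∑ j, C (c i j) * monomial (ex j) 1 :=
    fun i => (hPdef i).1
  have hPh : ∀ i, (P i).IsHomogeneous b₁ := (hPdef 0).2
  -- the function
  set g : MvPolynomial (Fin (n + 1) × W) E := ∑ i : Fin (b + 1),
    blk E 0 (P i) * X (τ, w₀) ^ (b - (i : ℕ)) * X (τ, w₁) ^ (i : ℕ) with hg
  have hgJ : g ∈ (⨅ i', mI a F l (x i')) ^ (lam * (b₁ + 1)) ⊔ p := by
    have h1 : g = ∑ i : Fin (b + 1), ∑ j, C (c i j) * blk E 0 (monomial (ex j) 1) *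
        X (τ, w₀) ^ (b - (i : ℕ)) * X (τ, w₁) ^ (i : ℕ) := by
      rw [hg]
      refine Finset.sum_congr rfl fun i _ => ?_
      rw [hPe i, map_sum, Finset.sum_mul, Finset.sum_mul]
      refine Finset.sum_congr rfl fun j _ => ?_
      rw [map_mul, rename_C]
    rw [h1]
    exact hcg
  have hgB : Bdd (fun i => if i = 0 then b₁ else if i = τ then b else 0) g := by
    refine Bdd.sum _ fun i _ => ?_
    refine Bdd.mono ?_ (((bdd_blk 0 (P i) b₁ (hPh i)).mul ((bdd_X τ w₀).pow (b - (i : ℕ)))).mul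
      ((bdd_X τ w₁).pow (i : ℕ)))
    intro i'
    have hi : (i : ℕ) ≤ b := Nat.lt_succ_iff.1 i.2
    by_cases h1 : i' = 0
    · subst h1
      simp [hτ.symm]
    · by_cases h2 : i' = τ
      · subst h2
        simp [h1]
        omega
      · simp [h1, h2]
  have hrτ : (1 : ℝ) ≤ r ^ (τ : ℕ) := one_le_pow₀ hr
  have hgp : g ∈ p := by
    refine powr r hr β' hβ' _ p hpp hobs τ hτ b b₁ (lam * (b₁ + 1)) hb₁' ?_ g hgB hgJ
    have hbr : (1 : ℝ) ≤ b := by exact_mod_cast hb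
    push_cast
    have h1 : 2 * β' * (b + 1) * r ^ (τ : ℕ) ≤ 4 * β' * (b * r ^ (τ : ℕ)) := by
      have h2 : 0 ≤ β' * r ^ (τ : ℕ) := by positivity
      nlinarith
    have h2 : 4 * β' * (b * r ^ (τ : ℕ)) ≤ lam * (b₁ + 1) := by
      apply mul_le_mul hlam (hb₁.trans (by linarith)) (by positivity) (Nat.cast_nonneg _)
    exact h1.trans h2
  -- a point where the function of the iterate does not vanish
  obtain ⟨i₀, hi₀⟩ := Function.ne_iff.1 hc0
  obtain ⟨j₀, hj₀⟩ := Function.ne_iff.1 hi₀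
  have hPv : ¬ Van (fun y : ZQ a Q => a y) (P i₀) := by
    intro hv
    rw [Fintype.linearIndependent_iff] at hex2
    apply hj₀
    refine hex2 (c i₀) ?_ j₀
    funext y
    have h1 := hv y
    rw [hPe i₀, map_sum] at h1
    simp only [map_mul, eval_C] at h1
    rw [Finset.sum_apply, Pi.zero_apply]
    refine Eq.trans (Finset.sum_congr rfl fun j _ => ?_) h1
    rfl
  have hy : ∃ y : ZQ a Q, ∑ i ∈ Finset.range (b + 1), eval (a y) (P i) *
      a (F^[τ] (y : Ω)) w₀ ^ (b - i) * a (F^[τ] (y : Ω)) w₁ ^ i ≠ 0 := by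
    by_contra hcon
    push Not at hcon
    exact hPv (hind P hPh hcon i₀ (Nat.lt_succ_iff.1 i₀.2))
  obtain ⟨y, hy⟩ := hy
  have hch := chart_locF a ha0 F e G hG (τ : ℕ)
  obtain ⟨t, w, htw⟩ := hch.2.2 (y : Ω)
  obtain ⟨c', hc'⟩ := hch.2.1 t (y : Ω)
  have hc'0 : c' ≠ 0 := by
    rintro rfl
    exact htw (by rw [hc' w, zero_mul])
  refine ⟨∑ i ∈ Finset.range (b + 1), P i * chart G (τ : ℕ) t w₀ ^ (b - i) *
    chart G (τ : ℕ) t w₁ ^ i, ?_, ?_, ?_⟩
  · refine IsHomogeneous.sum _ _ _ fun i hi => ?_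
    rw [Finset.mem_range] at hi
    have h1 := ((hPh i).mul ((hch.1 t w₀).pow (b - i))).mul ((hch.1 t w₁).pow i)
    have h2 : b₁ + e ^ (τ : ℕ) * (b - i) + e ^ (τ : ℕ) * i = b₁ + b * e ^ (τ : ℕ) := by
      have : b - i + i = b := by omega
      rw [add_assoc, ← mul_add, this, mul_comm]
    rwa [h2] at h1
  · intro hΦ
    have h1 := y.2 _ hΦ
    apply hy
    have h2 : c' ^ b * ∑ i ∈ Finset.range (b + 1), eval (a y) (P i) *
        a (F^[τ] (y : Ω)) w₀ ^ (b - i) * a (F^[τ] (y : Ω)) w₁ ^ i = 0 := by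
      refine Eq.trans ?_ h1
      rw [map_sum, Finset.mul_sum]
      refine Finset.sum_congr rfl fun i hi => ?_
      rw [Finset.mem_range] at hi
      have h3 : c' ^ b = c' ^ (b - i) * c' ^ i := by
        rw [← pow_add]
        congr 1
        omega
      rw [map_mul, map_mul, map_pow, map_pow, hc' w₀, hc' w₁, h3, mul_pow, mul_pow]
      ring
    exact (mul_eq_zero.1 h2).resolve_left (pow_ne_zero _ hc'0)
  · -- the form is in `p`
    have hp' : p.IsPrime := hpp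
    rw [← Ideal.Quotient.eq_zero_iff_mem]
    set U : MvPolynomial (Fin (n + 1) × W) E :=
      blk E 0 (∑ w', C (l τ w') * chart G τ t w') with hU
    have h1 : ∀ w, Ideal.Quotient.mk p (blk E 0 (chart G τ t w)) =
        Ideal.Quotient.mk p U * Ideal.Quotient.mk p (X (τ, w)) := by
      intro w
      rw [← map_mul, ← sub_eq_zero, ← map_sub, Ideal.Quotient.eq_zero_iff_mem]
      exact hp (rel_chart a ha0 F e G hG l τ t w)
    have h2 : Ideal.Quotient.mk p (blk E 0 (∑ i ∈ Finset.range (b + 1),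
        P i * chart G (τ : ℕ) t w₀ ^ (b - i) * chart G (τ : ℕ) t w₁ ^ i)) =
        Ideal.Quotient.mk p U ^ b * Ideal.Quotient.mk p g := by
      have hgr : g = ∑ i ∈ Finset.range (b + 1),
          blk E 0 (P i) * X (τ, w₀) ^ (b - i) * X (τ, w₁) ^ i :=
        (Finset.sum_range fun i => blk E 0 (P i) * X (τ, w₀) ^ (b - i) * X (τ, w₁) ^ i).symm
      rw [hgr, map_sum, map_sum, map_sum, Finset.mul_sum]
      refine Finset.sum_congr rfl fun i hi => ?_
      rw [Finset.mem_range] at hi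
      have h3 : Ideal.Quotient.mk p U ^ b =
          Ideal.Quotient.mk p U ^ (b - i) * Ideal.Quotient.mk p U ^ i := by
        rw [← pow_add]
        congr 1
        omega
      simp only [map_mul, map_pow]
      rw [h1 w₀, h1 w₁, h3, mul_pow, mul_pow]
      ring
    rw [h2, Ideal.Quotient.eq_zero_iff_mem.2 hgp, mul_zero]

end Pool.Agent.LLX.AS
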