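import Pool.Agent.Helper63.WH.Defs

/-!
# LLX: definitions

Determinants of jets at the points of small arithmetic degree.

`Ω` is the set of points of a projective variety, `a x` are the homogeneous coordinates of `x`
(indexed by `W`), `F : Ω → Ω` is an endomorphism. The graph ring has the variables `(i, w)`,
`i ≤ n`, the coordinates of the `i`-th iterate of `x`.
-/

open MvPolynomial

namespace Pool.Agent.LLX

open Pool.Agent.Helper63.SAND Pool.Agent.Helper63.WH

/-! ### Geometry -/

section Geometry

variable {E : Type*} [Field E] {Ω W : Type*} [Fintype W]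

/-- The vector `v` is tangent at `a x` to the cone over the family of points `a`. -/
def TanVec (a : Ω → W → E) (x : Ω) (v : W → E) : Prop :=
  ∀ (P : MvPolynomial W E) (k : ℕ), P.IsHomogeneous k → Van a P →
    ∑ w, eval (a x) (pderiv w P) * v w = 0

/-- Smooth of dimension `d`: at every point the ideal is generated locally by
`card W - 1 - d` forms with linearly independent differentials. -/
def SmD (a : Ω → W → E) (d : ℕ) : Prop :=
  ∀ x, ∃ (c : ℕ) (H : Fin c → MvPolynomial W E), c + d + 1 = Fintype.card W ∧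
    (∀ i, ∃ k, (H i).IsHomogeneous k) ∧ (∀ i, Van a (H i)) ∧
    LinearIndependent E (fun i w => eval (a x) (pderiv w (H i))) ∧
    ∀ (P : MvPolynomial W E) (k : ℕ), P.IsHomogeneous k → Van a P →
      ∃ (q : MvPolynomial W E) (m : ℕ), q.IsHomogeneous m ∧ eval (a x) q ≠ 0 ∧
        q * P ∈ Ideal.span (Set.range H)

/-- The Plücker coordinates of the vectors `v i`. -/
def plu {d : ℕ} (v : Fin (d + 1) → W → E) (J : Fin (d + 1) → W) : E :=
  (Matrix.of fun i k : Fin (d + 1) => v i (J k)).det

/-- The vectors `v` are a basis of the tangent space of the cone at `a x`. -/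
def TanB (a : Ω → W → E) {d : ℕ} (x : Ω) (v : Fin (d + 1) → W → E) : Prop :=
  LinearIndependent E v ∧ ∀ i, TanVec a x (v i)

/-- Every vector at which all the forms vanishing on the points `a x` vanish is a multiple of
some `a x`. -/
def Clo (a : Ω → W → E) : Prop :=
  ∀ z : W → E, z ≠ 0 → (∀ (P : MvPolynomial W E) (k : ℕ), P.IsHomogeneous k → Van a P →
    eval z P = 0) → ∃ x, ∃ c : E, c ≠ 0 ∧ ∀ w, z w = c * a x w

/-- The minor of the Jacobian matrix of the forms `Fs (t i)`, `i < c`, for the variables
`σ (inr (inl l))`, `l < c`. -/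
noncomputable def mnr {c d s : ℕ} (Fs : Fin s → MvPolynomial W E)
    (σ : (Fin 1 ⊕ (Fin c ⊕ Fin d)) ≃ W) (t : Fin c → Fin s) : MvPolynomial W E :=
  (Matrix.of fun i l : Fin c => pderiv (σ (Sum.inr (Sum.inl l))) (Fs (t i))).det

/-- Uniform smoothness data. -/
structure Jac (a : Ω → W → E) (c d : ℕ) {s : ℕ} (Fs : Fin s → MvPolynomial W E) : Prop where
  card : c + d + 1 = Fintype.card W
  hom : ∀ i, ∃ k, (Fs i).IsHomogeneous k
  van : ∀ i, Van a (Fs i)
  minor : ∀ x w₀, a x w₀ ≠ 0 → ∃ (σ : (Fin 1 ⊕ (Fin c ⊕ Fin d)) ≃ W) (t : Fin c → Fin s),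
    σ (Sum.inl 0) = w₀ ∧ eval (a x) (mnr Fs σ t) ≠ 0
  gen : ∀ (x : Ω) (t : Fin c → Fin s),
    LinearIndependent E (fun i w => eval (a x) (pderiv w (Fs (t i)))) →
    ∀ (P : MvPolynomial W E) (k : ℕ), P.IsHomogeneous k → Van a P →
      ∃ (q : MvPolynomial W E) (m : ℕ), q.IsHomogeneous m ∧ eval (a x) q ≠ 0 ∧
        q * P ∈ Ideal.span (Set.range fun i => Fs (t i))

end Geometry

/-! ### The graph ring -/

section Graph

variable {E : Type*} [Field E] {Ω W : Type*}

/-- Block homogeneous polynomials: of degree `m i` in the variables of the `i`-th block. -/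
def BHom {n : ℕ} (m : Fin (n + 1) → ℕ) (P : MvPolynomial (Fin (n + 1) × W) E) : Prop :=
  P.IsWeightedHomogeneous (fun q : Fin (n + 1) × W => (Pi.single q.1 1 : Fin (n + 1) → ℕ)) m

/-- The point of the graph of the iterates of `F`. -/
def gpt (a : Ω → W → E) (F : Ω → Ω) (n : ℕ) (x : Ω) (q : Fin (n + 1) × W) : E :=
  a (F^[q.1] x) q.2

variable [Fintype W]

/-- The value at `z` of the linear form with the coefficients `l`. -/
def lin (l z : W → E) : E := ∑ w, l w * z w

/-- The linear form with the coefficients `l`. -/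
noncomputable def linP (l : W → E) : MvPolynomial W E := ∑ w, C (l w) * X w

/-- The linear form `l i` in the variables of the `i`-th block. -/
noncomputable def linB {n : ℕ} (l : Fin (n + 1) → W → E) (i : Fin (n + 1)) :
    MvPolynomial (Fin (n + 1) × W) E := ∑ w, C (l i w) * X (i, w)

/-- The linear forms `l i` do not vanish at the iterates of `x`. -/
def Adm (a : Ω → W → E) (F : Ω → Ω) {n : ℕ} (l : Fin (n + 1) → W → E) (x : Ω) : Prop :=
  ∀ i : Fin (n + 1), lin (l i) (a (F^[i] x)) ≠ 0

/-- The point of the graph in the affine chart of the linear forms `l i`. -/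
def npt (a : Ω → W → E) (F : Ω → Ω) {n : ℕ} (l : Fin (n + 1) → W → E) (x : Ω)
    (q : Fin (n + 1) × W) : E :=
  a (F^[q.1] x) q.2 / lin (l q.1) (a (F^[q.1] x))

/-- The ideal of the affine part of the graph. -/
def VI (a : Ω → W → E) (F : Ω → Ω) {n : ℕ} (l : Fin (n + 1) → W → E) :
    Ideal (MvPolynomial (Fin (n + 1) × W) E) where
  carrier := {P | ∀ x, Adm a F l x → eval (npt a F l x) P = 0}
  add_mem' := by
    intro P Q hP hQ x hx
    rw [map_add, hP x hx, hQ x hx, add_zero]
  zero_mem' := by
    intro x _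
    simp
  smul_mem' := by
    intro P Q hQ x hx
    rw [smul_eq_mul, map_mul, hQ x hx, mul_zero]

/-- The maximal ideal of a point of the affine part of the graph. -/
def mI (a : Ω → W → E) (F : Ω → Ω) {n : ℕ} (l : Fin (n + 1) → W → E) (x : Ω) :
    Ideal (MvPolynomial (Fin (n + 1) × W) E) where
  carrier := {P | eval (npt a F l x) P = 0}
  add_mem' := by
    intro P Q hP hQ
    simp only [Set.mem_ofPred_eq] at hP hQ ⊢
    rw [map_add, hP, hQ, add_zero]
  zero_mem' := by simp
  smul_mem' := by
    intro P Q hQ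
    simp only [Set.mem_ofPred_eq] at hQ ⊢
    rw [smul_eq_mul, map_mul, hQ, mul_zero]

/-- The filtration: polynomials of degree at most `k * ω i` in the variables of the `i`-th
block. -/
def Fl (E W : Type*) [Field E] {n : ℕ} (ω : Fin (n + 1) → ℕ) (k : ℕ) [Fintype W] :
    Submodule E (MvPolynomial (Fin (n + 1) × W) E) where
  carrier := {P | ∀ s ∈ P.support, ∀ i, ∑ w, s (i, w) ≤ k * ω i}
  add_mem' := by
    classical
    intro P Q hP hQ s hs i
    rcases Finset.mem_union.1 (MvPolynomial.support_add hs) with h | h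
    · exact hP s h i
    · exact hQ s h i
  zero_mem' := by simp
  smul_mem' := by
    intro c P hP s hs i
    exact hP s (Finsupp.support_smul hs) i

/-- The functions of degree `k` do not separate the jets of order `j` at the points `x i` (as
soon as `j ≥ β k` and `k` is large). -/
def NoSep (a : Ω → W → E) (F : Ω → Ω) {n : ℕ} (l : Fin (n + 1) → W → E) (ω : Fin (n + 1) → ℕ)
    {M : ℕ} (x : Fin M → Ω) (β : ℝ) : Prop :=
  ∃ k₀ : ℕ, ∀ k ≥ k₀, ∀ j : ℕ, β * k ≤ j →
    Fl E W ω k ⊔ (VI a F l ⊔ (⨅ i, mI a F l (x i)) ^ j).restrictScalars E ≠ ⊤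

end Graph

/-! ### Local expansions -/

section Local

variable {K : Type*} [Field K]

/-- The polynomials in `d` variables without monomials of degree less than `j`. -/
def OrdI (K : Type*) [Field K] (d j : ℕ) : Ideal (MvPolynomial (Fin d) K) where
  carrier := {P | ∀ s : Fin d →₀ ℕ, s.degree < j → coeff s P = 0}
  add_mem' := by
    intro P Q hP hQ s hs
    rw [coeff_add, hP s hs, hQ s hs, add_zero]
  zero_mem' := by simp
  smul_mem' := by
    classical
    intro P Q hQ s hs
    rw [smul_eq_mul, coeff_mul]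
    refine Finset.sum_eq_zero fun x hx => ?_
    rw [Finset.HasAntidiagonal.mem_antidiagonal] at hx
    rw [hQ x.2 (lt_of_le_of_lt ?_ hs), mul_zero]
    rw [← hx, map_add]
    omega

/-- The indices of the jets of order `j` in `d` variables. -/
abbrev JI (d j : ℕ) : Type := {s : Fin d →₀ ℕ // s.degree < j}

noncomputable instance (d j : ℕ) : Fintype (JI d j) :=
  Fintype.ofInjective (fun s : JI d j => fun b : Fin d => (⟨s.1 b, by
    refine lt_of_le_of_lt ?_ s.2
    rw [Finsupp.degree_eq_sum]
    exact Finset.single_le_sum (f := fun b => s.1 b) (fun _ _ => Nat.zero_le _)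
      (Finset.mem_univ b)⟩ : Fin j)) (by
    intro s t h
    ext b
    have := congrArg Fin.val (congrFun h b)
    simpa using this)

/-- The number of jets. -/
noncomputable def bz (d j : ℕ) : ℕ := Fintype.card (JI d j)

/-- The sum of the exponents of one variable over all the jets. -/
def bo (d j : ℕ) : ℕ := (j + d - 1).choose (d + 1)

/-- The constant coefficients and the linear coefficients of the expansions. -/
noncomputable def tv {W : Type*} {d : ℕ} (Y : W → MvPolynomial (Fin d) K) :
    Fin (d + 1) → W → K :=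
  Fin.cons (fun w => constantCoeff (Y w)) fun b w => coeff (Finsupp.single b 1) (Y w)

/-- Newton's iteration for the local expansions: the coordinate `σ (inl 0)` is constant, the
coordinates `σ (inr (inr b))` are the parameters, and the coordinates `σ (inr (inl l))` are
determined by the equations `P i = 0`; `Q` is the inverse of the Jacobian matrix at `y`. -/
noncomputable def newt {W : Type*} {c d : ℕ} (σ : (Fin 1 ⊕ (Fin c ⊕ Fin d)) ≃ W)
    (P : Fin c → MvPolynomial W K) (y : W → K) (Q : Matrix (Fin c) (Fin c) K) :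
    ℕ → W → MvPolynomial (Fin d) K
  | 0 => fun w => C (y w) + (match σ.symm w with
      | .inl _ => 0
      | .inr (.inl _) => 0
      | .inr (.inr b) => X b)
  | m + 1 => fun w => match σ.symm w with
      | .inl _ => C (y w)
      | .inr (.inl l) => newt σ P y Q m w - ∑ i, C (Q l i) * aeval (newt σ P y Q m) (P i)
      | .inr (.inr b) => C (y w) + X b

/-- The expansions `Y i` of the coordinates of the iterates of `x`, up to order `j`: polynomials
in `d` local parameters over `K`; `v` is a basis of the tangent space of the cone at `x`. -/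
structure Expn {E Ω W : Type*} [Field E] [Fintype W] (a : Ω → W → E) (F : Ω → Ω) (n j d : ℕ)
    (τ : E →+* K) (x : Ω) (v : Fin (d + 1) → W → E)
    (Y : Fin (n + 1) → W → MvPolynomial (Fin d) K) (c : Fin (n + 1) → K) (lam : K) : Prop where
  kill : ∀ (m : Fin (n + 1) → ℕ) (P : MvPolynomial (Fin (n + 1) × W) E), BHom m P →
    (∀ x', eval (gpt a F n x') P = 0) →
    aeval (fun q : Fin (n + 1) × W => Y q.1 q.2) (P.map τ) ∈ OrdI K d j
  cne : ∀ i, c i ≠ 0
  val : ∀ i w, constantCoeff (Y i w) = c i * τ (a (F^[i] x) w)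
  tan : ∀ J : Fin (d + 1) → W, plu (tv (Y 0)) J = lam * τ (plu v J)
  one : ∃ J : Fin (d + 1) → W, plu (tv (Y 0)) J = 1

/-- The matrix of the jets of the monomials with the exponents `g c` at the points. -/
noncomputable def Gh {W : Type*} {M n d j : ℕ}
    (Y : Fin M → Fin (n + 1) → W → MvPolynomial (Fin d) K)
    (g : Fin M × JI d j → (Fin (n + 1) × W →₀ ℕ)) :
    Matrix (Fin M × JI d j) (Fin M × JI d j) K :=
  Matrix.of fun r c => coeff r.2.1
    (aeval (fun q : Fin (n + 1) × W => Y r.1 q.1 q.2) (monomial (g c) (1 : K)))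

/-- The weighted sum of the absolute values of the coefficients. -/
noncomputable def nrm {K : Type*} [NormedField K] {d : ℕ} (ρ : ℝ)
    (P : MvPolynomial (Fin d) K) : ℝ :=
  ∑ s ∈ P.support, ‖coeff s P‖ * ρ ^ s.degree

end Local

end Pool.Agent.LLX
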