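import Pool.Agent.LLX.Defs

/-!
# LLX: definitions, second part
-/

open MvPolynomial

namespace Pool.Agent.LLX

open Pool.Agent.Helper63.SAND

variable {E Ω W : Type*} [Field E] [Fintype W]

/-- The determinant of the linear form `l` and of the coordinates `I b` on the vectors `v k`. -/
def pv {d : ℕ} (l : W → E) (I : Fin d → W) (v : Fin (d + 1) → W → E) : E :=
  ∑ w, l w * plu v (Fin.cons w I)

/-- Local parameters at the point `x`: coordinates of the block `0`. -/
noncomputable def zc {n d : ℕ} (a : Ω → W → E) (F : Ω → Ω) (l : Fin (n + 1) → W → E) (x : Ω)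
    (I : Fin d → W) (b : Fin d) : MvPolynomial (Fin (n + 1) × W) E :=
  X (0, I b) - C (npt a F l x (0, I b))

/-- Functions which generate the jets at the points `x i`; `ep i` is close to `1` at `x i` and
close to `0` at the other points. -/
noncomputable def Er {n d j M : ℕ} (a : Ω → W → E) (F : Ω → Ω) (l : Fin (n + 1) → W → E)
    (x : Fin M → Ω) (I : Fin M → Fin d → W) (ep : Fin M → MvPolynomial (Fin (n + 1) × W) E)
    (r : Fin M × JI d j) : MvPolynomial (Fin (n + 1) × W) E :=
  ep r.1 * ∏ b, zc a F l (x r.1) (I r.1) b ^ r.2.1 b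

end Pool.Agent.LLX
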