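import Pool.Agent.LLX.Defs

/-!
# LLX INT: integral polynomials and integrality of Newton's iteration

`IntPoly v P` (Helper63/SAND/Defs): all the coefficients of `P` have `v ≤ 1`; `v` is
nonarchimedean. The integral polynomials form a subring (see `iter_sub` in
`Helper63/SAND/Iter.lean`, which is private there; copy it). `int_newt`: induction on `m` with
`int_aeval`.
`int_eval`: if moreover `v (y w) ≤ 1` then `v (eval y P) ≤ 1`; `int_eval_congr`: if
`v (y w - y' w) < 1` for all `w` then `v (eval y P - eval y' P) < 1` (the differences form an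
ideal: monomial by monomial).
-/

open MvPolynomial

namespace Pool.Agent.LLX

open Pool.Agent.Helper63.SAND

variable {K : Type*} [Field K] (v : AbsoluteValue K ℝ)

/-- The integral polynomials form a subring. -/
private noncomputable def int_ring {σ : Type*} (hv : IsNonarchimedean v) :
    Subring (MvPolynomial σ K) where
  carrier := {P | IntPoly v P}
  mul_mem' := by
    intro P Q hP hQ d
    classical
    rw [coeff_mul]
    by_cases hne : (Finset.HasAntidiagonal.antidiagonal d).Nonempty
    · obtain ⟨b, _, hb⟩ := hv.finset_image_add_of_nonempty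
        (fun x : (σ →₀ ℕ) × (σ →₀ ℕ) => coeff x.1 P * coeff x.2 Q) hne
      refine hb.trans ?_
      rw [map_mul]
      exact mul_le_one₀ (hP _) (v.nonneg _) (hQ _)
    · rw [Finset.not_nonempty_iff_eq_empty.1 hne]
      simp
  one_mem' := by
    intro d
    classical
    rw [coeff_one]
    split_ifs <;> simp
  add_mem' := by
    intro P Q hP hQ d
    rw [coeff_add]
    exact (hv _ _).trans (max_le (hP _) (hQ _))
  zero_mem' := by
    intro d
    simp
  neg_mem' := by
    intro P hP d
    rw [coeff_neg, v.map_neg]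
    exact hP d

private theorem int_mem {σ : Type*} (hv : IsNonarchimedean v) (P : MvPolynomial σ K) :
    P ∈ int_ring v hv ↔ IntPoly v P := Iff.rfl

theorem int_C {σ : Type*} (c : K) (hc : v c ≤ 1) : IntPoly v (C c : MvPolynomial σ K) := by
  intro d
  classical
  rw [coeff_C]
  split_ifs
  · exact hc
  · simp

theorem int_X {σ : Type*} (s : σ) : IntPoly v (X s : MvPolynomial σ K) := by
  intro d
  classical
  rw [coeff_X]
  split_ifs <;> simp

theorem int_add (hv : IsNonarchimedean v) {σ : Type*} {P Q : MvPolynomial σ K}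
    (hP : IntPoly v P) (hQ : IntPoly v Q) : IntPoly v (P + Q) :=
  (int_ring v hv).add_mem hP hQ

theorem int_sub (hv : IsNonarchimedean v) {σ : Type*} {P Q : MvPolynomial σ K}
    (hP : IntPoly v P) (hQ : IntPoly v Q) : IntPoly v (P - Q) :=
  (int_ring v hv).sub_mem hP hQ

theorem int_mul (hv : IsNonarchimedean v) {σ : Type*} {P Q : MvPolynomial σ K}
    (hP : IntPoly v P) (hQ : IntPoly v Q) : IntPoly v (P * Q) :=
  (int_ring v hv).mul_mem hP hQ

theorem int_sum (hv : IsNonarchimedean v) {σ ι : Type*} (s : Finset ι)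
    (f : ι → MvPolynomial σ K) (hf : ∀ i ∈ s, IntPoly v (f i)) : IntPoly v (∑ i ∈ s, f i) :=
  (int_ring v hv).sum_mem hf

theorem int_prod (hv : IsNonarchimedean v) {σ ι : Type*} (s : Finset ι)
    (f : ι → MvPolynomial σ K) (hf : ∀ i ∈ s, IntPoly v (f i)) : IntPoly v (∏ i ∈ s, f i) :=
  (int_ring v hv).prod_mem hf

theorem int_pow (hv : IsNonarchimedean v) {σ : Type*} {P : MvPolynomial σ K}
    (hP : IntPoly v P) (k : ℕ) : IntPoly v (P ^ k) :=
  (int_ring v hv).pow_mem hP k

theorem int_aeval (hv : IsNonarchimedean v) {σ ρ : Type*} (Y : σ → MvPolynomial ρ K)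
    (hY : ∀ s, IntPoly v (Y s)) (P : MvPolynomial σ K) (hP : IntPoly v P) :
    IntPoly v (aeval Y P) := by
  have h : aeval Y P = ∑ d ∈ P.support, C (coeff d P) * ∏ i ∈ d.support, Y i ^ d i := by
    rw [aeval_def, eval₂_eq]
    rfl
  rw [h]
  refine int_sum v hv _ _ fun d _ => ?_
  refine int_mul v hv (int_C v _ (hP d)) ?_
  exact int_prod v hv _ _ fun i _ => int_pow v hv (hY i) _

private theorem int_nat (hv : IsNonarchimedean v) (n : ℕ) : v (n : K) ≤ 1 := by
  induction n with
  | zero => simp
  | succ n ih =>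
    push_cast
    refine (hv _ _).trans (max_le ih ?_)
    rw [map_one]

theorem int_pderiv (hv : IsNonarchimedean v) {σ : Type*} {P : MvPolynomial σ K}
    (hP : IntPoly v P) (s : σ) : IntPoly v (pderiv s P) := by
  have h : pderiv s P = ∑ d ∈ P.support, monomial (d - Finsupp.single s 1)
      (coeff d P * (d s : K)) := by
    conv_lhs => rw [P.as_sum]
    rw [map_sum]
    exact Finset.sum_congr rfl fun d _ => pderiv_monomial
  rw [h]
  refine int_sum v hv _ _ fun d _ => ?_
  intro m
  classical
  rw [coeff_monomial]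
  split_ifs
  · rw [map_mul]
    exact mul_le_one₀ (hP d) (v.nonneg _) (int_nat v hv _)
  · simp

theorem int_det (hv : IsNonarchimedean v) {σ : Type*} {c : ℕ}
    (A : Matrix (Fin c) (Fin c) (MvPolynomial σ K)) (hA : ∀ i j, IntPoly v (A i j)) :
    IntPoly v A.det := by
  rw [Matrix.det_apply]
  refine int_sum v hv _ _ fun τ _ => ?_
  rw [Units.smul_def]
  exact (int_ring v hv).zsmul_mem (int_prod v hv _ _ fun i _ => hA _ _) _

private theorem int_vsum_le (hv : IsNonarchimedean v) {ι : Type*} (s : Finset ι) (f : ι → K)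
    (h : ∀ i ∈ s, v (f i) ≤ 1) : v (∑ i ∈ s, f i) ≤ 1 := by
  classical
  induction s using Finset.induction_on with
  | empty => simp
  | insert a s ha ih =>
    rw [Finset.sum_insert ha]
    exact (hv _ _).trans (max_le (h a (Finset.mem_insert_self a s))
      (ih fun i hi => h i (Finset.mem_insert_of_mem hi)))

private theorem int_vsum_lt (hv : IsNonarchimedean v) {ι : Type*} (s : Finset ι) (f : ι → K)
    (h : ∀ i ∈ s, v (f i) < 1) : v (∑ i ∈ s, f i) < 1 := by
  classical
  induction s using Finset.induction_on with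
  | empty => simp
  | insert a s ha ih =>
    rw [Finset.sum_insert ha]
    exact (hv _ _).trans_lt (max_lt (h a (Finset.mem_insert_self a s))
      (ih fun i hi => h i (Finset.mem_insert_of_mem hi)))

private theorem int_vprod_le {ι : Type*} (s : Finset ι) (f : ι → K)
    (h : ∀ i ∈ s, v (f i) ≤ 1) : v (∏ i ∈ s, f i) ≤ 1 := by
  rw [map_prod]
  exact Finset.prod_le_one (fun i _ => v.nonneg _) h

private theorem int_vmul_lt (hv : IsNonarchimedean v) {x x' y y' : K} (hx : v x ≤ 1)
    (hy' : v y' ≤ 1) (h1 : v (x - x') < 1) (h2 : v (y - y') < 1) : v (x * y - x' * y') < 1 := by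
  have e : x * y - x' * y' = x * (y - y') + (x - x') * y' := by ring
  rw [e]
  refine (hv _ _).trans_lt (max_lt ?_ ?_)
  · rw [map_mul]
    exact (mul_le_of_le_one_left (v.nonneg _) hx).trans_lt h2
  · rw [map_mul]
    exact (mul_le_of_le_one_right (v.nonneg _) hy').trans_lt h1

private theorem int_vpow_lt (hv : IsNonarchimedean v) {x x' : K} (hx : v x ≤ 1)
    (hx' : v x' ≤ 1) (h1 : v (x - x') < 1) (n : ℕ) : v (x ^ n - x' ^ n) < 1 := by
  induction n with
  | zero => simp
  | succ n ih =>
    rw [pow_succ, pow_succ]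
    refine int_vmul_lt v hv ?_ hx' ih h1
    rw [map_pow]
    exact pow_le_one₀ (v.nonneg _) hx

private theorem int_vprod_lt (hv : IsNonarchimedean v) {ι : Type*} (s : Finset ι) (f g : ι → K)
    (hf : ∀ i, v (f i) ≤ 1) (hg : ∀ i, v (g i) ≤ 1)
    (h : ∀ i, v (f i - g i) < 1) : v (∏ i ∈ s, f i - ∏ i ∈ s, g i) < 1 := by
  classical
  induction s using Finset.induction_on with
  | empty => simp
  | insert a s ha ih =>
    rw [Finset.prod_insert ha, Finset.prod_insert ha]
    exact int_vmul_lt v hv (hf a) (int_vprod_le v s g fun i _ => hg i) (h a) ih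

theorem int_eval (hv : IsNonarchimedean v) {σ : Type*} (y : σ → K) (hy : ∀ s, v (y s) ≤ 1)
    (P : MvPolynomial σ K) (hP : IntPoly v P) : v (eval y P) ≤ 1 := by
  rw [eval_eq]
  refine int_vsum_le v hv _ _ fun d _ => ?_
  rw [map_mul]
  refine mul_le_one₀ (hP d) (v.nonneg _) (int_vprod_le v _ _ fun i _ => ?_)
  rw [map_pow]
  exact pow_le_one₀ (v.nonneg _) (hy i)

theorem int_eval_congr (hv : IsNonarchimedean v) {σ : Type*} (y y' : σ → K)
    (hy : ∀ s, v (y s) ≤ 1) (hy' : ∀ s, v (y' s) ≤ 1) (h : ∀ s, v (y s - y' s) < 1)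
    (P : MvPolynomial σ K) (hP : IntPoly v P) : v (eval y P - eval y' P) < 1 := by
  rw [eval_eq, eval_eq, ← Finset.sum_sub_distrib]
  refine int_vsum_lt v hv _ _ fun d _ => ?_
  rw [← mul_sub, map_mul]
  refine (mul_le_of_le_one_left (v.nonneg _) (hP d)).trans_lt ?_
  refine int_vprod_lt v hv _ _ _ (fun i => ?_) (fun i => ?_) fun i => ?_
  · rw [map_pow]
    exact pow_le_one₀ (v.nonneg _) (hy i)
  · rw [map_pow]
    exact pow_le_one₀ (v.nonneg _) (hy' i)
  · exact int_vpow_lt v hv (hy i) (hy' i) (h i) _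

theorem int_newt (hv : IsNonarchimedean v) {W : Type*} {c d : ℕ}
    (σ : (Fin 1 ⊕ (Fin c ⊕ Fin d)) ≃ W) (P : Fin c → MvPolynomial W K) (y : W → K)
    (Q : Matrix (Fin c) (Fin c) K) (hP : ∀ i, IntPoly v (P i)) (hy : ∀ w, v (y w) ≤ 1)
    (hQ : ∀ l i, v (Q l i) ≤ 1) (m : ℕ) (w : W) : IntPoly v (newt σ P y Q m w) := by
  have h0 : IntPoly v (0 : MvPolynomial (Fin d) K) := (int_ring v hv).zero_mem
  induction m generalizing w with
  | zero =>
    rw [newt]
    refine int_add v hv (int_C v _ (hy w)) ?_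
    split
    · exact h0
    · exact h0
    · exact int_X v _
  | succ m ih =>
    rw [newt]
    beta_reduce
    split
    · exact int_C v _ (hy w)
    · refine int_sub v hv (ih w) (int_sum v hv _ _ fun i _ => ?_)
      exact int_mul v hv (int_C v _ (hQ _ _)) (int_aeval v hv _ ih _ (hP i))
    · exact int_add v hv (int_C v _ (hy w)) (int_X v _)

end Pool.Agent.LLX
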