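import Pool.Agent.LLX.Nrm
import Pool.Agent.LLX.Int

/-!
# LLX DETB: upper bounds of the determinant of the jets

`detb`: the entry `((i, s), c)` is the coefficient at `s`, `degree s < j`, of a product of
`∑ q, g c q = k * ∑ i, ω i` polynomials of norm `≤ 2`, so it has norm `≤ 2 ^ (k * ∑ ω) * ρ⁻¹ ^ j`
(`nrm_prod_le`, `nrm_pow_le`, `nrm_coeff_le`, `ρ ≤ 1`); the determinant is a sum of
`(M * bz d j)!` products of `M * bz d j` entries (`Matrix.det_apply`; the index set
`Fin M × JI d j` has `M * bz d j` elements).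
`detb_int`: all the entries are coefficients of integral polynomials (`int_prod`, `int_pow` for
the absolute value given by the norm of `K`), hence of norm `≤ 1`, and the norm is nonarchimedean
(`IsUltrametricDist` / `int_det`-like induction / `Matrix.det_apply` and a bound for sums).
-/

open MvPolynomial

namespace Pool.Agent.LLX

open Pool.Agent.Helper63.SAND

private theorem db_entry {K W : Type*} [Field K] {n d : ℕ}
    (Y : Fin (n + 1) → W → MvPolynomial (Fin d) K) (g : Fin (n + 1) × W →₀ ℕ) :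
    aeval (fun q : Fin (n + 1) × W => Y q.1 q.2) (monomial g (1 : K)) =
      ∏ q ∈ g.support, Y q.1 q.2 ^ g q := by
  rw [aeval_monomial, map_one, one_mul]
  rfl

theorem detb {K W : Type*} [NormedField K] [Fintype W] {n d j M : ℕ}
    (Y : Fin M → Fin (n + 1) → W → MvPolynomial (Fin d) K) (ρ : ℝ) (hρ0 : 0 < ρ) (hρ1 : ρ ≤ 1)
    (hY : ∀ i q w, nrm ρ (Y i q w) ≤ 2) (ω : Fin (n + 1) → ℕ) (k : ℕ)
    (g : Fin M × JI d j → (Fin (n + 1) × W →₀ ℕ)) (hg : ∀ c i, ∑ w, g c (i, w) = k * ω i) :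
    ‖(Gh Y g).det‖ ≤ (M * bz d j).factorial *
      (2 ^ (k * ∑ i, ω i) * ρ⁻¹ ^ j) ^ (M * bz d j) := by
  classical
  have hsum : ∀ c, ∑ q ∈ (g c).support, g c q = k * ∑ i, ω i := by
    intro c
    have h1 : ∑ q ∈ (g c).support, g c q = ∑ q : Fin (n + 1) × W, g c q := by
      refine Finset.sum_subset (Finset.subset_univ _) fun q _ hq => ?_
      exact Finsupp.notMem_support_iff.1 hq
    rw [h1, Fintype.sum_prod_type, Finset.mul_sum]
    exact Finset.sum_congr rfl fun i _ => hg c i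
  have hent : ∀ r c, ‖(Gh Y g) r c‖ ≤ 2 ^ (k * ∑ i, ω i) * ρ⁻¹ ^ j := by
    rintro ⟨i, s, hs⟩ c
    unfold Gh
    rw [Matrix.of_apply]
    simp only
    rw [db_entry (Y i) (g c)]
    have h1 := nrm_coeff_le hρ0.le (∏ q ∈ (g c).support, Y i q.1 q.2 ^ g c q) s
    have h2 : nrm ρ (∏ q ∈ (g c).support, Y i q.1 q.2 ^ g c q) ≤ 2 ^ (k * ∑ i, ω i) := by
      refine (nrm_prod_le hρ0.le _ _).trans ?_
      rw [← hsum c, ← Finset.prod_pow_eq_pow_sum]
      refine Finset.prod_le_prod (fun q _ => nrm_nonneg hρ0.le _) fun q _ => ?_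
      exact (nrm_pow_le hρ0.le _ _).trans (pow_le_pow_left₀ (nrm_nonneg hρ0.le _) (hY i _ _) _)
    have h3 : 0 < ρ ^ s.degree := pow_pos hρ0 _
    have h4 : ‖coeff s (∏ q ∈ (g c).support, Y i q.1 q.2 ^ g c q)‖ ≤
        2 ^ (k * ∑ i, ω i) * (ρ ^ s.degree)⁻¹ := by
      rw [← div_eq_mul_inv, le_div_iff₀ h3]
      exact h1.trans h2
    refine h4.trans (mul_le_mul_of_nonneg_left ?_ (by positivity))
    rw [← inv_pow]
    exact pow_le_pow_right₀ ((one_le_inv₀ hρ0).2 hρ1) hs.le
  have hcard : Fintype.card (Fin M × JI d j) = M * bz d j := by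
    rw [Fintype.card_prod, Fintype.card_fin, bz]
  have hdet := Matrix.det_le (A := Gh Y g) (abv := NormedField.toAbsoluteValue K) hent
  rw [hcard, nsmul_eq_mul] at hdet
  exact hdet

theorem detb_int {K W : Type*} [NormedField K] (hK : IsNonarchimedean (fun z : K => ‖z‖))
    [Fintype W] {n d j M : ℕ}
    (Y : Fin M → Fin (n + 1) → W → MvPolynomial (Fin d) K)
    (hY : ∀ i q w u, ‖coeff u (Y i q w)‖ ≤ 1)
    (g : Fin M × JI d j → (Fin (n + 1) × W →₀ ℕ)) : ‖(Gh Y g).det‖ ≤ 1 := by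
  classical
  have hv : IsNonarchimedean (NormedField.toAbsoluteValue K) := fun x y => hK x y
  have hent : ∀ r c, ‖(Gh Y g) r c‖ ≤ 1 := by
    rintro ⟨i, s, hs⟩ c
    unfold Gh
    rw [Matrix.of_apply]
    simp only
    rw [db_entry (Y i) (g c)]
    exact int_prod (NormedField.toAbsoluteValue K) hv _ _
      (fun q _ => int_pow (NormedField.toAbsoluteValue K) hv (fun u => hY i _ _ u) _) s
  have hsum : ∀ (ι : Type _) (t : Finset ι) (f : ι → K), (∀ i ∈ t, ‖f i‖ ≤ 1) →
      ‖∑ i ∈ t, f i‖ ≤ 1 := by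
    intro ι t f hf
    induction t using Finset.induction_on with
    | empty => simp
    | insert a t ha ih =>
      rw [Finset.sum_insert ha]
      exact (hK _ _).trans (max_le (hf a (Finset.mem_insert_self a t))
        (ih fun i hi => hf i (Finset.mem_insert_of_mem hi)))
  rw [Matrix.det_apply]
  refine hsum _ _ _ fun τ _ => ?_
  have h1 : ‖∏ i, (Gh Y g) (τ i) i‖ ≤ 1 := by
    rw [norm_prod]
    exact Finset.prod_le_one (fun i _ => norm_nonneg _) fun i _ => hent _ _
  rcases Int.units_eq_one_or (Equiv.Perm.sign τ) with h | h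
  · rw [h, one_smul]
    exact h1
  · rw [h, Units.neg_smul, one_smul, norm_neg]
    exact h1

end Pool.Agent.LLX
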