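import Pool.Agent.LLX.Ord

/-!
# LLX DETL: the determinant of the linear parts of normalised expansions

Proof. Write `T = tv Y`, `q k = lin l (T k)`, so `q 0 ≠ 0`. The constant coefficient of
`(∑ w, C (l w) * Y w) * V = 1 + OrdI 2` gives `constantCoeff V = (q 0)⁻¹`, and its coefficient at
`X b` gives `q 0 * V_b + q (succ b) * (q 0)⁻¹ = 0`, `V_b = coeff (single b 1) V`. So
`coeff (single b 1) (Y w * V) = T (succ b) w * (q 0)⁻¹ - T 0 w * q (succ b) * (q 0)⁻¹ ^ 2`
(for the product of two polynomials the linear coefficient is given by the Leibniz rule).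
Let `M` be the matrix with the rows `k : Fin (d+1)` and the columns `q k`, `T k (I 0), ...,
T k (I (d-1))`. Subtracting `q (succ b) / q 0` times the row `0` from the row `succ b` one gets a
first column `(q 0, 0, ..., 0)` and the block `q 0 * (coeff (single b 1) (Y (I a) * V))_{b, a}`, so
`det M = q 0 * q 0 ^ d * det (of fun b a => ...)` (`Matrix.det_transpose` and
`Matrix.det_succ_column_zero`, or `Matrix.fromBlocks` via `Fin.cons`).
Finally `det M = ∑ w, l w * plu T (Fin.cons w I)` because the first column is the combination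
`∑ w, l w * (T k w)_k` (linearity of the determinant in a column, e.g.
`Matrix.det_transpose`, `Matrix.detRowAlternating.map_sum`, or expansion along the first column).
-/

open MvPolynomial

namespace Pool.Agent.LLX

private theorem dl_leib {K : Type*} [Field K] {d : ℕ} (P Q : MvPolynomial (Fin d) K) (b : Fin d) :
    coeff (Finsupp.single b 1) (P * Q) =
      constantCoeff P * coeff (Finsupp.single b 1) Q +
        coeff (Finsupp.single b 1) P * constantCoeff Q := by
  classical
  rw [coeff_mul, Finsupp.antidiagonal_single]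
  simp [Finset.Nat.antidiagonal_succ, constantCoeff_eq]

/-- The first column of a determinant is a linear combination. -/
private theorem dl_col {K W : Type*} [Field K] [Fintype W] {d : ℕ} (T : Fin (d + 1) → W → K)
    (l : W → K) (I : Fin d → W) :
    (Matrix.of fun i k : Fin (d + 1) =>
      (Fin.cons (lin l (T i)) (fun a => T i (I a)) : Fin (d + 1) → K) k).det =
      ∑ w, l w * plu T (Fin.cons w I) := by
  have h1 : ∀ w, plu T (Fin.cons w I) = ∑ i : Fin (d + 1), (-1) ^ (i : ℕ) * T i w *
      (Matrix.of fun p a : Fin d => T (i.succAbove p) (I a)).det := by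
    intro w
    rw [plu, Matrix.det_succ_column_zero]
    refine Finset.sum_congr rfl fun i _ => ?_
    rw [Matrix.of_apply, Fin.cons_zero]
    congr 2
  rw [Matrix.det_succ_column_zero]
  simp_rw [h1, Finset.mul_sum]
  rw [Finset.sum_comm]
  refine Finset.sum_congr rfl fun i _ => ?_
  rw [Matrix.of_apply, Fin.cons_zero, lin, Finset.mul_sum, Finset.sum_mul]
  refine Finset.sum_congr rfl fun w _ => ?_
  have h2 : (Matrix.of fun i k : Fin (d + 1) =>
      (Fin.cons (∑ w, l w * T i w) (fun a => T i (I a)) : Fin (d + 1) → K) k).submatrix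
        i.succAbove Fin.succ = Matrix.of fun p a : Fin d => T (i.succAbove p) (I a) := by
    ext p a
    rw [Matrix.submatrix_apply, Matrix.of_apply, Fin.cons_succ, Matrix.of_apply]
  have h3 : (Matrix.of fun i k : Fin (d + 1) =>
      (Fin.cons (lin l (T i)) (fun a => T i (I a)) : Fin (d + 1) → K) k).submatrix
        i.succAbove Fin.succ = Matrix.of fun p a : Fin d => T (i.succAbove p) (I a) := h2
  rw [h3]
  ring

/-- Elimination in the first column. -/
private theorem dl_elim {K : Type*} [Field K] {d : ℕ} (q : Fin (d + 1) → K)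
    (R : Fin (d + 1) → Fin d → K) (L : Fin d → Fin d → K) (h0 : q 0 ≠ 0)
    (hL : ∀ b a, R b.succ a - q b.succ / q 0 * R 0 a = q 0 * L b a) :
    (Matrix.of fun i k : Fin (d + 1) => (Fin.cons (q i) (R i) : Fin (d + 1) → K) k).det =
      q 0 ^ (d + 1) * (Matrix.of L).det := by
  set M : Matrix (Fin (d + 1)) (Fin (d + 1)) K :=
    Matrix.of fun i k : Fin (d + 1) => (Fin.cons (q i) (R i) : Fin (d + 1) → K) k with hM
  set c : Fin (d + 1) → K := Fin.cons 0 (fun b => - (q b.succ / q 0)) with hc
  have h1 : (Matrix.of fun i k : Fin (d + 1) => M i k + c i * M 0 k).det = M.det :=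
    Matrix.det_eq_of_forall_row_eq_smul_add_const c 0 (by rw [hc, Fin.cons_zero])
      (fun i j => by rw [Matrix.of_apply])
  rw [← h1, Matrix.det_succ_column_zero, Fin.sum_univ_succ]
  have h2 : ∀ i : Fin d, (-1 : K) ^ ((i.succ : Fin (d + 1)) : ℕ) *
      (Matrix.of fun i k : Fin (d + 1) => M i k + c i * M 0 k) i.succ 0 *
      ((Matrix.of fun i k : Fin (d + 1) => M i k + c i * M 0 k).submatrix
        (i.succ).succAbove Fin.succ).det = 0 := by
    intro i
    have h3 : (Matrix.of fun i k : Fin (d + 1) => M i k + c i * M 0 k) i.succ 0 = 0 := by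
      rw [Matrix.of_apply, hM, hc, Matrix.of_apply, Matrix.of_apply, Fin.cons_zero, Fin.cons_zero,
        Fin.cons_succ]
      field_simp
      ring
    rw [h3, mul_zero, zero_mul]
  rw [Finset.sum_eq_zero fun i _ => h2 i, add_zero]
  have h4 : (Matrix.of fun i k : Fin (d + 1) => M i k + c i * M 0 k) 0 0 = q 0 := by
    rw [Matrix.of_apply, hM, hc, Matrix.of_apply, Fin.cons_zero, Fin.cons_zero, zero_mul, add_zero]
  have h5 : (Matrix.of fun i k : Fin (d + 1) => M i k + c i * M 0 k).submatrix
      (Fin.succAbove 0) Fin.succ = q 0 • Matrix.of L := by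
    ext b a
    rw [Matrix.submatrix_apply, Matrix.of_apply, Fin.succAbove_zero, hM, hc, Matrix.of_apply,
      Matrix.of_apply, Fin.cons_succ, Fin.cons_succ, Fin.cons_succ, Matrix.smul_apply, smul_eq_mul,
      Matrix.of_apply, ← hL]
    ring
  rw [h4, h5, Matrix.det_smul, Fintype.card_fin, Fin.val_zero, pow_zero, one_mul, pow_succ]
  ring

theorem detl {K W : Type*} [Field K] [Fintype W] {d : ℕ} (Y : W → MvPolynomial (Fin d) K)
    (l : W → K) (h0 : lin l (fun w => constantCoeff (Y w)) ≠ 0) (V : MvPolynomial (Fin d) K)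
    (hV : (∑ w, C (l w) * Y w) * V - 1 ∈ OrdI K d 2) (I : Fin d → W) :
    (Matrix.of fun a b : Fin d => coeff (Finsupp.single b 1) (Y (I a) * V)).det =
      (lin l (fun w => constantCoeff (Y w)))⁻¹ ^ (d + 1) *
        ∑ w, l w * plu (tv Y) (Fin.cons w I) := by
  classical
  obtain ⟨q, hq⟩ : ∃ q : Fin (d + 1) → K, ∀ k, q k = lin l (tv Y k) := ⟨_, fun _ => rfl⟩
  have hq0 : q 0 = lin l (fun w => constantCoeff (Y w)) := by
    rw [hq, tv, Fin.cons_zero]
  have hqs : ∀ b : Fin d, q b.succ = ∑ w, l w * coeff (Finsupp.single b 1) (Y w) := by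
    intro b
    rw [hq, tv, Fin.cons_succ, lin]
  have hc0 : constantCoeff (∑ w, C (l w) * Y w) = q 0 := by
    rw [hq0, map_sum, lin]
    refine Finset.sum_congr rfl fun w _ => ?_
    rw [map_mul, constantCoeff_C]
  have hc1 : ∀ b, coeff (Finsupp.single b 1) (∑ w, C (l w) * Y w) = q b.succ := by
    intro b
    rw [hqs, coeff_sum]
    refine Finset.sum_congr rfl fun w _ => ?_
    rw [coeff_C_mul]
  have hq0' : q 0 ≠ 0 := by rw [hq0]; exact h0
  have hV0 : constantCoeff V = (q 0)⁻¹ := by
    have h1 := hV 0 (by simp)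
    rw [← constantCoeff_eq, map_sub, map_mul, hc0, map_one] at h1
    field_simp
    linear_combination h1
  have hV1 : ∀ b, coeff (Finsupp.single b 1) V = - q b.succ * (q 0)⁻¹ ^ 2 := by
    intro b
    have h1 := hV (Finsupp.single b 1) (by simp)
    have h2 : coeff (Finsupp.single b 1) (1 : MvPolynomial (Fin d) K) = 0 := by
      rw [coeff_one, if_neg]
      intro h
      have := DFunLike.congr_fun h b
      simp at this
    rw [coeff_sub, dl_leib, hc0, hc1, hV0, h2] at h1
    field_simp
    field_simp at h1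
    linear_combination h1
  have key := dl_elim q (fun i a => tv Y i (I a))
    (fun b a => coeff (Finsupp.single b 1) (Y (I a) * V)) hq0' (by
      intro b a
      rw [dl_leib, hV0, hV1, tv, Fin.cons_succ, Fin.cons_zero]
      field_simp
      ring)
  have h3 := dl_col (tv Y) l I
  simp_rw [← hq] at h3
  rw [h3] at key
  rw [key, ← hq0, ← mul_assoc, ← mul_pow, inv_mul_cancel₀ hq0', one_pow, one_mul,
    ← Matrix.det_transpose]
  rfl

end Pool.Agent.LLX
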