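import Pool.Agent.LLX.Adefs

/-!
# LLX DEV: devissage

`Φ` is a filtration of the Noetherian algebra `R`. Write `𝒫(I)` for: for every `α'` with
`0 ≤ α' < β` there is `k₀` such that for `k ≥ k₀`, `j ≤ α' k` every `f : R` is in
`Φ k + (I ⊔ J ^ j)`. We show `𝒫(I)` for all `I ≥ I₀` by Noetherian induction (all strictly larger
ideals have `𝒫`; `IsNoetherian.induction` / `WellFoundedGT`).

* `I = ⊤`: clear.
* `I` maximal: `hmax` (and `Φ 0 ≤ Φ k`).
* `I` not prime, `≠ ⊤`: there are `a, b ∉ I`, `a b ∈ I`. `I' = I ⊔ (b)` and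
  `I'' = {y | b y ∈ I}` (contains `a`) are strictly larger. Let `b ∈ Φ l`, `α'' = (α' + β) / 2`.
  For large `k`: `f = s + (i + b ψ) + h`, `s ∈ Φ k`, `i ∈ I`, `h ∈ J ^ j` (`𝒫(I')`, `α'`), and
  `ψ = s' + y + h'`, `s' ∈ Φ (k - l)`, `y ∈ I''`, `h' ∈ J ^ j` (`𝒫(I'')`, `α''`; note
  `j ≤ α' k ≤ α'' (k - l)` for large `k`). So `f = (s + b s') + (i + b y) + (h + b h')`.
* `I` prime, not maximal: by `hpr` it is not obstructed: there are `m ≥ 1`, `g ∈ Φ m`, `g ∉ I`,
  `b ≥ β m`, `g ∈ J ^ b ⊔ I`. `I' = I ⊔ (g)` is strictly larger; take `k₁` for `I'`, `α'`.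
  CLAIM, by strong induction on `j`: if `j ≤ α' k` and `k₁ + j / β ≤ k` then every `f` is in
  `Φ k + (I ⊔ J ^ j)`. Proof: `k ≥ k₁`, so `f = s + (i + g φ) + h`. If `b ≥ j` then
  `g φ ∈ J ^ b ⊔ I ≤ J ^ j ⊔ I`. If `b < j` the claim for `(k - m, j - b)` (note
  `b / β ≥ m`, so `m ≤ k`, and `b ≥ β m ≥ α' m`, `b ≥ 1`) gives `φ = s' + i' + h'` with
  `s' ∈ Φ (k - m)`, `i' ∈ I`, `h' ∈ J ^ (j - b)`, and `g h' ∈ (J ^ b ⊔ I) * J ^ (j - b) ≤
  J ^ j ⊔ I`. Start: `j ≤ α' k` gives `k₁ + j / β ≤ k₁ + (α' / β) k ≤ k` for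
  `k ≥ k₁ / (1 - α' / β)`.
-/

namespace Pool.Agent.LLX.AS

private def Dec {E R : Type*} [Field E] [CommRing R] [Algebra E R] (Φ : ℕ → Submodule E R)
    (J I : Ideal R) (k j : ℕ) : Prop :=
  ∀ f : R, ∃ s ∈ Φ k, ∃ i ∈ I, ∃ h ∈ J ^ j, f = s + i + h

private theorem dec_step {E R : Type*} [Field E] [CommRing R] [Algebra E R]
    (Φ : ℕ → Submodule E R) (hΦ : Filt Φ) (J I : Ideal R) (α' β : ℝ) (hα : 0 ≤ α') (hαβ : α' < β)
    (m : ℕ) (g : R) (b : ℕ) (hm : 1 ≤ m) (hg : g ∈ Φ m) (hb : β * m ≤ b) (hgJ : g ∈ J ^ b ⊔ I)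
    (k₁ : ℕ) (hk₁ : ∀ k ≥ k₁, ∀ j : ℕ, (j : ℝ) ≤ α' * k → Dec Φ J (I ⊔ Ideal.span {g}) k j)
    (j : ℕ) : ∀ k : ℕ, (j : ℝ) ≤ α' * k → (k₁ : ℝ) + j / β ≤ k → Dec Φ J I k j := by
  have hβ : 0 < β := lt_of_le_of_lt hα hαβ
  have hm' : (1 : ℝ) ≤ m := by exact_mod_cast hm
  have hbpos : (0 : ℝ) < b := lt_of_lt_of_le (by positivity) hb
  have hb1 : 0 < b := by exact_mod_cast hbpos
  obtain ⟨u, hu, v, hv, huv⟩ := Submodule.mem_sup.1 hgJ
  induction j using Nat.strong_induction_on with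
  | _ j ih =>
    intro k hjk hkk f
    have hkk1 : k₁ ≤ k := by
      have : (0 : ℝ) ≤ j / β := by positivity
      have h : (k₁ : ℝ) ≤ k := by linarith
      exact_mod_cast h
    obtain ⟨s, hs, i₁, hi₁, h, hh, hf⟩ := hk₁ k hkk1 j hjk f
    obtain ⟨i, hi, t, ht, hit⟩ := Submodule.mem_sup.1 hi₁
    obtain ⟨φ, hφ⟩ := Ideal.mem_span_singleton'.1 ht
    by_cases hbj : j ≤ b
    · refine ⟨s, hs, i + v * φ, add_mem hi (I.mul_mem_right _ hv), h + u * φ,
        add_mem hh (Ideal.mul_mem_right _ _ (Ideal.pow_le_pow_right hbj hu)), ?_⟩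
      rw [hf, ← hit, ← hφ, ← huv]
      ring
    · push Not at hbj
      have hbj' : (b : ℝ) < j := by exact_mod_cast hbj
      have hbm : (m : ℝ) ≤ b / β := by
        rw [le_div_iff₀ hβ]
        linarith
      have hjb : (b : ℝ) / β < j / β := by
        gcongr
      have hmk : (m : ℝ) ≤ k := by
        have : (0 : ℝ) ≤ k₁ := Nat.cast_nonneg _
        linarith
      have hmk' : m ≤ k := by exact_mod_cast hmk
      have c1 : ((j - b : ℕ) : ℝ) = j - b := by rw [Nat.cast_sub hbj.le]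
      have c2 : ((k - m : ℕ) : ℝ) = k - m := by rw [Nat.cast_sub hmk']
      obtain ⟨s', hs', i', hi', h', hh', hφ'⟩ := ih (j - b) (by omega) (k - m) (by
        rw [c1, c2]
        have : α' * m ≤ β * m := by nlinarith
        nlinarith) (by
        rw [c1, c2, sub_div]
        linarith) φ
      refine ⟨s + g * s', add_mem hs ?_, i + g * i' + v * h', add_mem (add_mem hi
        (I.mul_mem_left _ hi')) (I.mul_mem_right _ hv), h + u * h', add_mem hh ?_, ?_⟩
      · have := hΦ.mul _ _ _ _ hg hs'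
        rwa [Nat.add_sub_cancel' hmk'] at this
      · have := Ideal.mul_mem_mul hu hh'
        rwa [← pow_add, Nat.add_sub_cancel' hbj.le] at this
      · rw [hf, ← hit, ← hφ, hφ']
        linear_combination h' * -huv

theorem dev {E R : Type*} [Field E] [CommRing R] [Algebra E R] [IsNoetherianRing R]
    (Φ : ℕ → Submodule E R) (hΦ : Filt Φ) (I₀ J : Ideal R)
    (hmax : ∀ 𝔪 : Ideal R, 𝔪.IsMaximal → I₀ ≤ 𝔪 → ∀ f : R, ∃ s ∈ Φ 0, f - s ∈ 𝔪)
    (α β : ℝ) (hα : 0 ≤ α) (hαβ : α < β)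
    (hpr : ∀ p : Ideal R, p.IsPrime → ¬ p.IsMaximal → I₀ ≤ p → ¬ Obst Φ J β p) :
    ∃ k₀ : ℕ, ∀ k ≥ k₀, ∀ j : ℕ, (j : ℝ) ≤ α * k →
      Φ k ⊔ (I₀ ⊔ J ^ j).restrictScalars E = ⊤ := by
  have hmain : ∀ I : Ideal R, I₀ ≤ I → ∀ α' : ℝ, 0 ≤ α' → α' < β →
      ∃ k₀ : ℕ, ∀ k ≥ k₀, ∀ j : ℕ, (j : ℝ) ≤ α' * k → Dec Φ J I k j := by
    intro I
    induction I using IsNoetherian.induction with
    | hgt I ih =>
      intro hI α' hα' hα'β
      have hβ : 0 < β := lt_of_le_of_lt hα' hα'β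
      by_cases hp : Ideal.IsPrime I
      · by_cases hM : Ideal.IsMaximal I
        · refine ⟨0, fun k _ j _ f => ?_⟩
          obtain ⟨s, hs, hfs⟩ := hmax I hM hI f
          exact ⟨s, hΦ.mono (Nat.zero_le k) hs, f - s, hfs, 0, zero_mem _, by ring⟩
        · have hO := hpr I hp hM hI
          unfold Obst at hO
          push Not at hO
          obtain ⟨m, g, b, hm, hg, hb, hgJ, hgI⟩ := hO
          have hgt : I < I ⊔ Ideal.span {g} := by
            refine lt_of_le_of_ne le_sup_left fun h => hgI ?_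
            rw [h]
            exact Submodule.mem_sup_right (Ideal.mem_span_singleton_self g)
          obtain ⟨k₁, hk₁⟩ := ih _ hgt (hI.trans le_sup_left) α' hα' hα'β
          have hr : 0 < 1 - α' / β := by
            rw [sub_pos, div_lt_one hβ]
            exact hα'β
          refine ⟨⌈(k₁ : ℝ) / (1 - α' / β)⌉₊, fun k hk j hj => ?_⟩
          refine dec_step Φ hΦ J I α' β hα' hα'β m g b hm hg hb hgJ k₁ hk₁ j k hj ?_
          have h1 : (k₁ : ℝ) / (1 - α' / β) ≤ k :=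
            (Nat.le_ceil _).trans (by exact_mod_cast hk)
          rw [div_le_iff₀ hr] at h1
          have h2 : (j : ℝ) / β ≤ α' * k / β := by gcongr
          have h3 : (k : ℝ) * (1 - α' / β) = k - α' * k / β := by ring
          linarith
      · by_cases htop : I = ⊤
        · refine ⟨0, fun k _ j _ f => ⟨0, zero_mem _, f, ?_, 0, zero_mem _, by ring⟩⟩
          rw [htop]
          trivial
        · obtain ⟨a, ha, b, hb, hab⟩ := (Ideal.not_isPrime_iff.1 hp).resolve_left htop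
          have hgt : I < I ⊔ Ideal.span {b} := by
            refine lt_of_le_of_ne le_sup_left fun h => hb ?_
            rw [h]
            exact Submodule.mem_sup_right (Ideal.mem_span_singleton_self b)
          obtain ⟨I₂, hI₂⟩ : ∃ I₂ : Ideal R, ∀ y, y ∈ I₂ ↔ b * y ∈ I :=
            ⟨Submodule.comap (LinearMap.mulLeft R b) I, fun y => Iff.rfl⟩
          have hII₂ : I ≤ I₂ := fun y hy => (hI₂ y).2 (Ideal.mul_mem_left I _ hy)
          have hgt₂ : I < I₂ := by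
            refine lt_of_le_of_ne hII₂ fun h => ha ?_
            rw [h, hI₂, mul_comm]
            exact hab
          obtain ⟨l, hl⟩ := hΦ.exh b
          obtain ⟨k₁, hk₁⟩ := ih _ hgt (hI.trans le_sup_left) α' hα' hα'β
          obtain ⟨k₂, hk₂⟩ := ih _ hgt₂ (hI.trans hII₂) ((α' + β) / 2) (by linarith)
            (by linarith)
          have hd : 0 < (β - α') / 2 := by linarith
          refine ⟨max k₁ (max (k₂ + l) ⌈(α' + β) / 2 * l / ((β - α') / 2)⌉₊),
            fun k hk j hj f => ?_⟩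
          have e1 : k₁ ≤ k := (le_max_left _ _).trans hk
          have e2 : k₂ + l ≤ k := (le_max_left _ _).trans ((le_max_right _ _).trans hk)
          have e3 : ⌈(α' + β) / 2 * l / ((β - α') / 2)⌉₊ ≤ k :=
            (le_max_right _ _).trans ((le_max_right _ _).trans hk)
          have e4 : (α' + β) / 2 * l / ((β - α') / 2) ≤ k :=
            (Nat.le_ceil _).trans (by exact_mod_cast e3)
          rw [div_le_iff₀ hd] at e4
          have c2 : ((k - l : ℕ) : ℝ) = k - l := by rw [Nat.cast_sub (by omega)]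
          obtain ⟨s, hs, i₁, hi₁, h, hh, hf⟩ := hk₁ k e1 j hj f
          obtain ⟨i, hi, t, ht, hit⟩ := Submodule.mem_sup.1 hi₁
          obtain ⟨ψ, hψ⟩ := Ideal.mem_span_singleton'.1 ht
          obtain ⟨s', hs', y, hy, h', hh', hψ'⟩ := hk₂ (k - l) (by omega) j (by
            rw [c2]
            nlinarith) ψ
          refine ⟨s + b * s', add_mem hs ?_, i + b * y, add_mem hi ((hI₂ y).1 hy), h + b * h',
            add_mem hh (Ideal.mul_mem_left _ _ hh'), ?_⟩
          · have := hΦ.mul _ _ _ _ hl hs'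
            rwa [Nat.add_sub_cancel' (by omega)] at this
          · rw [hf, ← hit, ← hψ, hψ']
            ring
  obtain ⟨k₀, hk₀⟩ := hmain I₀ le_rfl α hα hαβ
  refine ⟨k₀, fun k hk j hj => ?_⟩
  rw [eq_top_iff]
  intro f _
  obtain ⟨s, hs, i, hi, h, hh, hf⟩ := hk₀ k hk j hj f
  rw [hf, add_assoc]
  refine Submodule.add_mem_sup hs ?_
  rw [Submodule.restrictScalars_mem]
  exact Submodule.add_mem_sup hi hh

end Pool.Agent.LLX.AS
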