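import Pool.Agent.LLX.Ord

/-!
# LLX EPS: jets of the functions on the affine chart

`V i` is an inverse of the value of the linear form `l i` at the expansion `Y i`, modulo
`OrdI K d j`.

`linY_const`: `constantCoeff` is a ring homomorphism and `Expn.val`.
`eps_const`: `constantCoeff ∘ eps` is the evaluation of `P.map τ` at
`constantCoeff (Y i w) * constantCoeff (V i)`, and `constantCoeff (V i)` is the inverse of
`constantCoeff (linY i) = c i * τ (lin (l i) (a (F^[i] x)))` (`j ≥ 1`).
`eps_mono`: `(linY i) ^ m * V i ^ m ≡ 1` modulo `OrdI j`, and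
`eps (monomial s 1) = ∏_q (Y q * V q.1) ^ s q = (∏_q Y q ^ s q) * ∏_i V i ^ m i`
(`Fintype.prod_prod_type`).
`eps_VI`: for `j = 0` there is nothing to prove. Let `m i` be a bound for the degrees of `P` in
the `i`-th block. `Q = ∑_s C (coeff s P) * monomial s 1 * ∏_i (linB l i) ^ (m i + 1 - ∑_w s (i,w))`
is block homogeneous of multidegree `m i + 1` and vanishes at all the points `gpt a F n x'`: for
admissible `x'` its value is `∏ (lin (l i) (a (F^[i] x')))^(m i + 1) * eval (npt a F l x') P = 0`,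
for the others one of the factors `linB l i` is `0` (each exponent is `≥ 1`). So by `Expn.kill`
`aeval Y (Q.map τ) ∈ OrdI j`. As in `eps_mono`, `aeval Y (Q.map τ) ≡ (∏ i, linY i ^ (m i + 1)) *
eps P` modulo `OrdI j` (termwise: `linY i ^ (m i + 1) * V i ^ s_i ≡ linY i ^ (m i + 1 - s_i)`).
The constant coefficient of `∏ i, linY i ^ (m i + 1)` is not `0`: `ord_cancel`.
-/

open MvPolynomial

namespace Pool.Agent.LLX

variable {E K Ω W : Type*} [Field E] [Field K] [Fintype W] {n d : ℕ}

/-- The jets of the functions on the affine chart: substitution of the normalised expansions. -/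
noncomputable def eps (τ : E →+* K) (Y : Fin (n + 1) → W → MvPolynomial (Fin d) K)
    (V : Fin (n + 1) → MvPolynomial (Fin d) K) :
    MvPolynomial (Fin (n + 1) × W) E →+* MvPolynomial (Fin d) K :=
  eval₂Hom ((C : K →+* MvPolynomial (Fin d) K).comp τ) fun q => Y q.1 q.2 * V q.1

/-- The value of the linear form `l i` at the expansion `Y i`. -/
noncomputable def linY (τ : E →+* K) (l : Fin (n + 1) → W → E)
    (Y : Fin (n + 1) → W → MvPolynomial (Fin d) K) (i : Fin (n + 1)) : MvPolynomial (Fin d) K :=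
  ∑ w, C (τ (l i w)) * Y i w

variable (a : Ω → W → E) (F : Ω → Ω) (j : ℕ) (τ : E →+* K) (x : Ω)
  (v : Fin (d + 1) → W → E) (Y : Fin (n + 1) → W → MvPolynomial (Fin d) K)
  (c : Fin (n + 1) → K) (lam : K) (l : Fin (n + 1) → W → E)

theorem linY_const (hE : Expn a F n j d τ x v Y c lam) (i : Fin (n + 1)) :
    constantCoeff (linY τ l Y i) = c i * τ (lin (l i) (a (F^[i] x))) := by
  unfold linY lin
  rw [map_sum, map_sum, Finset.mul_sum]
  refine Finset.sum_congr rfl fun w _ => ?_
  rw [map_mul, constantCoeff_C, hE.val i w, map_mul]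
  ring

private theorem eps_V_const (hE : Expn a F n j d τ x v Y c lam) (hj : 1 ≤ j)
    (V : Fin (n + 1) → MvPolynomial (Fin d) K)
    (hV : ∀ i, linY τ l Y i * V i - 1 ∈ OrdI K d j) (i : Fin (n + 1)) :
    (c i * τ (lin (l i) (a (F^[i] x)))) * constantCoeff (V i) = 1 := by
  have h1 := (ord_one _).1 (ord_anti hj (hV i))
  rw [map_sub, map_mul, map_one, linY_const a F j τ x v Y c lam l hE i, sub_eq_zero] at h1
  exact h1

theorem eps_const (hE : Expn a F n j d τ x v Y c lam) (hadm : Adm a F l x) (hj : 1 ≤ j)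
    (V : Fin (n + 1) → MvPolynomial (Fin d) K)
    (hV : ∀ i, linY τ l Y i * V i - 1 ∈ OrdI K d j) (P : MvPolynomial (Fin (n + 1) × W) E) :
    constantCoeff (eps τ Y V P) = τ (eval (npt a F l x) P) := by
  have h : (constantCoeff.comp (eps τ Y V) : MvPolynomial (Fin (n + 1) × W) E →+* K) =
      τ.comp (eval (npt a F l x)) := by
    apply MvPolynomial.ringHom_ext
    · intro r
      simp [eps]
    · intro q
      have h1 := eps_V_const a F j τ x v Y c lam l hE hj V hV q.1
      have h2 : c q.1 * τ (lin (l q.1) (a (F^[q.1] x))) ≠ 0 := left_ne_zero_of_mul_eq_one h1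
      have h3 : τ (lin (l q.1) (a (F^[q.1] x))) ≠ 0 := right_ne_zero_of_mul h2
      have h4 : constantCoeff (V q.1) = (c q.1 * τ (lin (l q.1) (a (F^[q.1] x))))⁻¹ :=
        eq_inv_of_mul_eq_one_right h1
      have h5 : c q.1 ≠ 0 := hE.cne q.1
      simp only [eps, RingHom.comp_apply, coe_eval₂Hom, eval₂_X, map_mul, eval_X, npt, map_div₀]
      rw [hE.val, h4]
      field_simp
  exact congrArg (fun f : MvPolynomial (Fin (n + 1) × W) E →+* K => f P) h

private theorem eps_prod {R : Type*} [CommRing R] (f : Fin (n + 1) → R)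
    (s : Fin (n + 1) × W →₀ ℕ) :
    ∏ q : Fin (n + 1) × W, f q.1 ^ s q = ∏ i, f i ^ (∑ w, s (i, w)) := by
  rw [Fintype.prod_prod_type]
  exact Finset.prod_congr rfl fun i _ =>
    Finset.prod_pow_eq_pow_sum Finset.univ (fun w => s (i, w)) (f i)

theorem eps_mono (V : Fin (n + 1) → MvPolynomial (Fin d) K)
    (hV : ∀ i, linY τ l Y i * V i - 1 ∈ OrdI K d j) (m : Fin (n + 1) → ℕ)
    (s : Fin (n + 1) × W →₀ ℕ) (hs : ∀ i, ∑ w, s (i, w) = m i) :
    aeval (fun q : Fin (n + 1) × W => Y q.1 q.2) (monomial s (1 : K)) -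
      (∏ i, linY τ l Y i ^ m i) * eps τ Y V (monomial s 1) ∈ OrdI K d j := by
  classical
  have h1 : aeval (fun q : Fin (n + 1) × W => Y q.1 q.2) (monomial s (1 : K)) =
      ∏ q : Fin (n + 1) × W, Y q.1 q.2 ^ s q := by
    rw [aeval_monomial, map_one, one_mul, Finsupp.prod_fintype _ _ (fun _ => pow_zero _)]
  have h2 : eps τ Y V (monomial s 1) = (∏ q : Fin (n + 1) × W, Y q.1 q.2 ^ s q) *
      ∏ i, V i ^ m i := by
    unfold eps
    rw [coe_eval₂Hom, eval₂_monomial, map_one, one_mul,
      Finsupp.prod_fintype _ _ (fun _ => pow_zero _)]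
    simp only [mul_pow, Finset.prod_mul_distrib]
    rw [eps_prod V s]
    simp only [hs]
  rw [h1, h2, ← Ideal.Quotient.eq_zero_iff_mem]
  have h3 : ∀ i, Ideal.Quotient.mk (OrdI K d j) (linY τ l Y i) *
      Ideal.Quotient.mk (OrdI K d j) (V i) = 1 := by
    intro i
    rw [← map_mul, ← map_one (Ideal.Quotient.mk (OrdI K d j)), Ideal.Quotient.mk_eq_mk_iff_sub_mem]
    exact hV i
  have h4 : (∏ i, Ideal.Quotient.mk (OrdI K d j) (linY τ l Y i) ^ m i) *
      ∏ i, Ideal.Quotient.mk (OrdI K d j) (V i) ^ m i = 1 := by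
    rw [← Finset.prod_mul_distrib]
    refine Finset.prod_eq_one fun i _ => ?_
    rw [← mul_pow, h3, one_pow]
  rw [map_sub, map_mul, map_mul, map_prod, map_prod, map_prod]
  simp only [map_pow]
  rw [mul_left_comm, h4, mul_one, sub_self]

/-- The block degree of an exponent. -/
private def epsB (s : Fin (n + 1) × W →₀ ℕ) (i : Fin (n + 1)) : ℕ := ∑ w, s (i, w)

omit [Field K] in
private theorem eps_weight (s : Fin (n + 1) × W →₀ ℕ) :
    Finsupp.weight (fun q : Fin (n + 1) × W => (Pi.single q.1 1 : Fin (n + 1) → ℕ)) s =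
      epsB s := by
  classical
  rw [Finsupp.weight_apply, Finsupp.sum_fintype _ _ (by intro i; exact zero_smul ℕ _)]
  funext i
  rw [Finset.sum_apply, Fintype.sum_prod_type, Finset.sum_eq_single i]
  · unfold epsB
    refine Finset.sum_congr rfl fun w _ => ?_
    simp
  · intro i' _ hi'
    refine Finset.sum_eq_zero fun w _ => ?_
    simp [Pi.single_eq_of_ne (Ne.symm hi')]
  · intro h
    exact absurd (Finset.mem_univ _) h

/-- Multihomogenisation with respect to the linear forms. -/
private noncomputable def epsQ (l : Fin (n + 1) → W → E) (m : Fin (n + 1) → ℕ)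
    (P : MvPolynomial (Fin (n + 1) × W) E) : MvPolynomial (Fin (n + 1) × W) E :=
  ∑ s ∈ P.support, monomial s (coeff s P) * ∏ i, linB l i ^ (m i + 1 - epsB s i)

private theorem epsQ_hom (l : Fin (n + 1) → W → E) (m : Fin (n + 1) → ℕ)
    (P : MvPolynomial (Fin (n + 1) × W) E) (hm : ∀ s ∈ P.support, ∀ i, epsB s i ≤ m i) :
    BHom (fun i => m i + 1) (epsQ l m P) := by
  classical
  unfold BHom epsQ
  refine IsWeightedHomogeneous.sum _ _ _ fun s hs => ?_
  have h1 : IsWeightedHomogeneous (fun q : Fin (n + 1) × W =>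
      (Pi.single q.1 1 : Fin (n + 1) → ℕ)) (monomial s (coeff s P)) (epsB s) :=
    isWeightedHomogeneous_monomial _ _ _ (eps_weight s)
  have h2 : ∀ i, IsWeightedHomogeneous (fun q : Fin (n + 1) × W =>
      (Pi.single q.1 1 : Fin (n + 1) → ℕ)) (linB l i) (Pi.single i 1) := by
    intro i
    unfold linB
    refine IsWeightedHomogeneous.sum _ _ _ fun w _ => ?_
    have h3 := (isWeightedHomogeneous_C (fun q : Fin (n + 1) × W =>
      (Pi.single q.1 1 : Fin (n + 1) → ℕ)) (l i w)).mul
      (isWeightedHomogeneous_X E (fun q : Fin (n + 1) × W =>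
      (Pi.single q.1 1 : Fin (n + 1) → ℕ)) (i, w))
    rwa [zero_add] at h3
  have h3 : IsWeightedHomogeneous (fun q : Fin (n + 1) × W =>
      (Pi.single q.1 1 : Fin (n + 1) → ℕ)) (∏ i, linB l i ^ (m i + 1 - epsB s i))
      (∑ i, (m i + 1 - epsB s i) • (Pi.single i 1 : Fin (n + 1) → ℕ)) :=
    IsWeightedHomogeneous.prod _ _ _ fun i _ => (h2 i).pow _
  have h4 := h1.mul h3
  have h5 : epsB s + ∑ i, (m i + 1 - epsB s i) • (Pi.single i 1 : Fin (n + 1) → ℕ) =
      fun i => m i + 1 := by
    funext i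
    rw [Pi.add_apply, Finset.sum_apply, Finset.sum_eq_single i]
    · have := hm s hs i
      simp only [Pi.smul_apply, Pi.single_eq_same, smul_eq_mul, mul_one]
      omega
    · intro i' _ hi'
      simp [Pi.single_eq_of_ne (Ne.symm hi')]
    · intro h
      exact absurd (Finset.mem_univ _) h
  rwa [h5] at h4

private theorem eps_eval_linB (x' : Ω) (i : Fin (n + 1)) :
    eval (gpt a F n x') (linB l i) = lin (l i) (a (F^[i] x')) := by
  unfold linB lin gpt
  rw [map_sum]
  refine Finset.sum_congr rfl fun w _ => ?_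
  rw [map_mul, eval_C, eval_X]

private theorem epsQ_van (m : Fin (n + 1) → ℕ)
    (P : MvPolynomial (Fin (n + 1) × W) E) (hm : ∀ s ∈ P.support, ∀ i, epsB s i ≤ m i)
    (hP : P ∈ VI a F l) (x' : Ω) : eval (gpt a F n x') (epsQ l m P) = 0 := by
  classical
  unfold epsQ
  rw [map_sum]
  by_cases hadm : Adm a F l x'
  · have h1 : ∀ s ∈ P.support, eval (gpt a F n x') (monomial s (coeff s P) *
        ∏ i, linB l i ^ (m i + 1 - epsB s i)) =
        (∏ i, lin (l i) (a (F^[i] x')) ^ (m i + 1)) *
          eval (npt a F l x') (monomial s (coeff s P)) := by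
      intro s hs
      rw [map_mul, map_prod]
      simp only [map_pow, eps_eval_linB]
      rw [eval_monomial, eval_monomial, Finsupp.prod_fintype _ _ (fun _ => pow_zero _),
        Finsupp.prod_fintype _ _ (fun _ => pow_zero _)]
      have h2 : ∏ q : Fin (n + 1) × W, gpt a F n x' q ^ s q =
          (∏ q : Fin (n + 1) × W, npt a F l x' q ^ s q) *
            ∏ i, lin (l i) (a (F^[i] x')) ^ epsB s i := by
        have h3 := eps_prod (fun i : Fin (n + 1) => lin (l i) (a (F^[i] x'))) s
        unfold epsB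
        rw [← h3, ← Finset.prod_mul_distrib]
        refine Finset.prod_congr rfl fun q _ => ?_
        rw [← mul_pow]
        congr 1
        unfold gpt npt
        rw [div_mul_cancel₀]
        exact hadm q.1
      have h4 : (∏ i, lin (l i) (a (F^[i] x')) ^ epsB s i) *
          ∏ i, lin (l i) (a (F^[i] x')) ^ (m i + 1 - epsB s i) =
          ∏ i, lin (l i) (a (F^[i] x')) ^ (m i + 1) := by
        rw [← Finset.prod_mul_distrib]
        refine Finset.prod_congr rfl fun i _ => ?_
        rw [← pow_add]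
        congr 1
        have := hm s hs i
        omega
      rw [h2, ← h4]
      ring
    rw [Finset.sum_congr rfl h1, ← Finset.mul_sum, ← map_sum, ← as_sum P, hP x' hadm, mul_zero]
  · unfold Adm at hadm
    push Not at hadm
    obtain ⟨i, hi⟩ := hadm
    refine Finset.sum_eq_zero fun s hs => ?_
    rw [map_mul, map_prod]
    simp only [map_pow, eps_eval_linB]
    rw [Finset.prod_eq_zero (Finset.mem_univ i), mul_zero]
    rw [hi]
    refine zero_pow ?_
    have := hm s hs i
    omega

theorem eps_VI (hE : Expn a F n j d τ x v Y c lam) (hadm : Adm a F l x)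
    (V : Fin (n + 1) → MvPolynomial (Fin d) K)
    (hV : ∀ i, linY τ l Y i * V i - 1 ∈ OrdI K d j) (P : MvPolynomial (Fin (n + 1) × W) E)
    (hP : P ∈ VI a F l) : eps τ Y V P ∈ OrdI K d j := by
  classical
  set m : Fin (n + 1) → ℕ := fun i => P.support.sup fun s => epsB s i with hm
  have hm' : ∀ s ∈ P.support, ∀ i, epsB s i ≤ m i := fun s hs i =>
    Finset.le_sup (f := fun s => epsB s i) hs
  have hk := hE.kill (fun i => m i + 1) (epsQ l m P) (epsQ_hom l m P hm')
    (epsQ_van a F l m P hm' hP)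
  set mk := Ideal.Quotient.mk (OrdI K d j) with hmk
  have hlin : ∀ i, aeval (fun q : Fin (n + 1) × W => Y q.1 q.2) ((linB l i).map τ) =
      linY τ l Y i := by
    intro i
    unfold linB linY
    rw [map_sum, map_sum]
    refine Finset.sum_congr rfl fun w _ => ?_
    rw [map_mul, map_C, map_X, map_mul, aeval_C, aeval_X, algebraMap_eq]
  have hterm : ∀ s ∈ P.support, mk (aeval (fun q : Fin (n + 1) × W => Y q.1 q.2)
      ((monomial s (coeff s P) * ∏ i, linB l i ^ (m i + 1 - epsB s i)).map τ)) =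
      mk (∏ i, linY τ l Y i ^ (m i + 1)) * mk (eps τ Y V (monomial s (coeff s P))) := by
    intro s hs
    have h1 := eps_mono j τ Y l V hV (epsB s) s (fun _ => rfl)
    have h2 : mk (aeval (fun q : Fin (n + 1) × W => Y q.1 q.2) (monomial s (1 : K))) =
        mk (∏ i, linY τ l Y i ^ epsB s i) * mk (eps τ Y V (monomial s 1)) := by
      rw [← map_mul, hmk, Ideal.Quotient.mk_eq_mk_iff_sub_mem]
      exact h1
    have h3 : (monomial s (coeff s P) : MvPolynomial (Fin (n + 1) × W) E) =
        C (coeff s P) * monomial s 1 := by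
      rw [C_mul_monomial, mul_one]
    have h4 : eps τ Y V (C (coeff s P)) = C (τ (coeff s P)) := by
      unfold eps
      rw [coe_eval₂Hom, eval₂_C]
      rfl
    have h6 : aeval (fun q : Fin (n + 1) × W => Y q.1 q.2)
        (((C (coeff s P) * monomial s 1) * ∏ i, linB l i ^ (m i + 1 - epsB s i)).map τ) =
        C (τ (coeff s P)) * aeval (fun q : Fin (n + 1) × W => Y q.1 q.2) (monomial s (1 : K)) *
          ∏ i, linY τ l Y i ^ (m i + 1 - epsB s i) := by
      simp only [map_mul, map_prod, map_pow, MvPolynomial.map_C, MvPolynomial.map_monomial,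
        map_one, hlin, aeval_C, algebraMap_eq]
    rw [h3, h6, map_mul, map_mul, h2, map_mul (eps τ Y V), h4, map_mul mk (C _)]
    have h5 : (∏ i, mk (linY τ l Y i) ^ epsB s i) *
        (∏ i, mk (linY τ l Y i) ^ (m i + 1 - epsB s i)) =
        ∏ i, mk (linY τ l Y i) ^ (m i + 1) := by
      rw [← Finset.prod_mul_distrib]
      refine Finset.prod_congr rfl fun i _ => ?_
      rw [← pow_add]
      congr 1
      have := hm' s hs i
      omega
    rw [map_prod, map_prod, map_prod]
    simp only [map_pow]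
    rw [← h5]
    ring
  have hfin : mk ((∏ i, linY τ l Y i ^ (m i + 1)) * eps τ Y V P) = 0 := by
    have h6 : mk (aeval (fun q : Fin (n + 1) × W => Y q.1 q.2) ((epsQ l m P).map τ)) = 0 := by
      rw [hmk, Ideal.Quotient.eq_zero_iff_mem]
      exact hk
    unfold epsQ at h6
    rw [map_sum, map_sum, map_sum, Finset.sum_congr rfl hterm, ← Finset.mul_sum, ← map_sum,
      ← map_sum, ← as_sum P] at h6
    rw [map_mul]
    exact h6
  rw [hmk, Ideal.Quotient.eq_zero_iff_mem] at hfin
  refine ord_cancel ?_ hfin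
  rw [map_prod]
  refine Finset.prod_ne_zero_iff.2 fun i _ => ?_
  rw [map_pow, linY_const a F j τ x v Y c lam l hE i]
  exact pow_ne_zero _ (mul_ne_zero (hE.cne i) ((map_ne_zero τ).2 (hadm i)))

end Pool.Agent.LLX
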