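import Pool.Agent.LLX.Iter
import Pool.Agent.Helper63.SAND.Iter

/-!
# LLX KILL: the expansions satisfy the equations

`kill_form`. By `hJ.gen` there is a form `q`, `eval (a x) q ≠ 0`, with
`q * P = ∑_i B i * Fs (t i)`. Apply `aeval Y ∘ map τ`: the right side is in `OrdI j` because the
`aeval Y ((Fs (t i)).map τ)` are. The constant coefficient of `aeval Y (q.map τ)` is
`eval (fun w => c0 * τ (a x w)) (q.map τ) = c0 ^ m * τ (eval (a x) q) ≠ 0`. Use `ord_cancel`.

`kill_graph`. Let `i ≤ n` and `Y i w = C (m i) * aeval Y₀ ((chart G i χ w).map τ)` as given by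
`itY_chart`. For a block homogeneous `P` of multidegree `b` vanishing on the graph put
`H = aeval (fun q => chart G q.1 (fun k => χ k) q.2) P : MvPolynomial W E`. It is a form (block
homogeneous of multidegree `b`, the charts are forms of degree `e ^ i`, `chart_locF`), and it
vanishes on all the `a x'`: `chart G i` takes at `a x'` the values `c_i * a (F^[i] x') w`, so
`eval (a x') H = ∏ c_i ^ b_i * eval (gpt a F n x') P = 0`. By `kill_form`,
`aeval Y₀ (H.map τ) ∈ OrdI j`, and
`aeval (fun q => Y q.1 q.2) (P.map τ) = (∏ C (m i) ^ b i) * aeval Y₀ (H.map τ)`.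
-/

open MvPolynomial

namespace Pool.Agent.LLX

open Pool.Agent.Helper63.SAND

variable {E K Ω W T : Type*} [Field E] [Field K] [Fintype W]

omit [Fintype W] in
private theorem kill_cc {d : ℕ} (Y : W → MvPolynomial (Fin d) K) (p : MvPolynomial W K) :
    constantCoeff (aeval Y p) = eval (fun w => constantCoeff (Y w)) p := by
  rw [MvPolynomial.map_aeval]
  have h1 : (constantCoeff (R := K) (σ := Fin d)).comp
      (algebraMap K (MvPolynomial (Fin d) K)) = RingHom.id K := constantCoeff_comp_C K (Fin d)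
  rw [h1]
  rfl

omit [Fintype W] in
private theorem kill_smul (P : MvPolynomial W K) (e : ℕ) (hP : P.IsHomogeneous e) (c : K)
    (z : W → K) : eval (fun s => c * z s) P = c ^ e * eval z P := by
  rw [eval_eq, eval_eq, Finset.mul_sum]
  refine Finset.sum_congr rfl fun d hd => ?_
  have h1 : ∏ i ∈ d.support, (c * z i) ^ d i = c ^ e * ∏ i ∈ d.support, z i ^ d i := by
    have h2 : ∏ i ∈ d.support, (c * z i) ^ d i =
        (∏ i ∈ d.support, c ^ d i) * ∏ i ∈ d.support, z i ^ d i := by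
      rw [← Finset.prod_mul_distrib]
      exact Finset.prod_congr rfl fun i _ => mul_pow _ _ _
    rw [h2, Finset.prod_pow_eq_pow_sum]
    have h3 : ∑ i ∈ d.support, d i = e := by
      have h4 := hP (mem_support_iff.1 hd)
      rw [← h4, Finsupp.weight_apply, Finsupp.sum]
      simp
    rw [h3]
  rw [h1]
  ring

theorem kill_form {c d s : ℕ} (a : Ω → W → E) (Fs : Fin s → MvPolynomial W E)
    (hJ : Jac a c d Fs) (x : Ω) (t : Fin c → Fin s)
    (ht : LinearIndependent E (fun i w => eval (a x) (pderiv w (Fs (t i)))))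
    (τ : E →+* K) (j : ℕ) (Y : W → MvPolynomial (Fin d) K) (c0 : K) (hc0 : c0 ≠ 0)
    (hY : ∀ w, constantCoeff (Y w) = c0 * τ (a x w))
    (hYF : ∀ i, aeval Y ((Fs (t i)).map τ) ∈ OrdI K d j)
    (P : MvPolynomial W E) (k : ℕ) (hP : P.IsHomogeneous k) (hPv : Van a P) :
    aeval Y (P.map τ) ∈ OrdI K d j := by
  obtain ⟨q, m, hq, hqx, hmem⟩ := hJ.gen x t ht P k hP hPv
  let φ : MvPolynomial W E →+* MvPolynomial (Fin d) K :=
    ((aeval Y : MvPolynomial W K →ₐ[K] _) : MvPolynomial W K →+* _).comp (map τ)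
  have h1 : Ideal.span (Set.range fun i => Fs (t i)) ≤ (OrdI K d j).comap φ := by
    rw [Ideal.span_le]
    rintro _ ⟨i, rfl⟩
    exact hYF i
  have h2 : φ (q * P) ∈ OrdI K d j := h1 hmem
  rw [map_mul] at h2
  refine ord_cancel ?_ h2
  show constantCoeff (aeval Y (q.map τ)) ≠ 0
  rw [kill_cc, funext hY, kill_smul _ m (hq.map τ)]
  refine mul_ne_zero (pow_ne_zero _ hc0) ?_
  have h3 : eval (fun w => τ (a x w)) (map τ q) = τ (eval (a x) q) := by
    rw [eval_map]
    exact (eval₂_comp_left τ (RingHom.id E) (a x) q).symm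
  rw [h3]
  exact (map_ne_zero τ).2 hqx

private theorem kill_scale {n : ℕ} {R S : Type*} [CommSemiring R] [CommSemiring S] [Algebra R S]
    (P : MvPolynomial (Fin (n + 1) × W) R) (b : Fin (n + 1) → ℕ)
    (hP : ∀ s ∈ P.support, ∀ i, ∑ w, s (i, w) = b i) (c : Fin (n + 1) → S)
    (z : Fin (n + 1) × W → S) :
    aeval (fun q => c q.1 * z q) P = (∏ i, c i ^ b i) * aeval z P := by
  rw [aeval_def, aeval_def, eval₂_eq', eval₂_eq', Finset.mul_sum]
  refine Finset.sum_congr rfl fun s hs => ?_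
  have h1 : ∏ q : Fin (n + 1) × W, c q.1 ^ s q = ∏ i, c i ^ b i := by
    rw [Fintype.prod_prod_type]
    refine Finset.prod_congr rfl fun i _ => ?_
    simp only
    rw [Finset.prod_pow_eq_pow_sum, hP s hs i]
  have h2 : ∏ q : Fin (n + 1) × W, (c q.1 * z q) ^ s q =
      (∏ i, c i ^ b i) * ∏ q : Fin (n + 1) × W, z q ^ s q := by
    rw [← h1, ← Finset.prod_mul_distrib]
    exact Finset.prod_congr rfl fun q _ => mul_pow _ _ _
  rw [h2]
  ring

private theorem kill_bdeg {n : ℕ} (b : Fin (n + 1) → ℕ) (P : MvPolynomial (Fin (n + 1) × W) E)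
    (hP : BHom b P) : ∀ s ∈ P.support, ∀ i, ∑ w, s (i, w) = b i := by
  intro s hs i
  have h1 := hP (mem_support_iff.1 hs)
  have h2 := congrFun h1 i
  rw [Finsupp.weight_apply, Finsupp.sum_fintype s
    (fun q c => c • (Pi.single q.1 1 : Fin (n + 1) → ℕ)) (fun q => zero_smul ℕ _)] at h2
  rw [← h2, Finset.sum_apply, Fintype.sum_prod_type]
  rw [Finset.sum_eq_single i]
  · refine Finset.sum_congr rfl fun w _ => ?_
    simp
  · intro i' _ hne
    refine Finset.sum_eq_zero fun w _ => ?_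
    simp [Pi.single_apply, Ne.symm hne]
  · intro h
    exact absurd (Finset.mem_univ i) h

theorem kill_graph {c d s : ℕ} (a : Ω → W → E) (ha0 : ∀ x, a x ≠ 0) (F : Ω → Ω) (e : ℕ)
    (G : T → W → MvPolynomial W E) (hG : LocF a (fun x => a (F x)) e G)
    (Fs : Fin s → MvPolynomial W E)
    (hJ : Jac a c d Fs) (x : Ω) (t : Fin c → Fin s)
    (ht : LinearIndependent E (fun i w => eval (a x) (pderiv w (Fs (t i)))))
    (τ : E →+* K) (n j : ℕ) (Y : W → MvPolynomial (Fin d) K) (c0 : K) (hc0 : c0 ≠ 0)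
    (hY : ∀ w, constantCoeff (Y w) = c0 * τ (a x w))
    (hYF : ∀ i, aeval Y ((Fs (t i)).map τ) ∈ OrdI K d j)
    (χ : ℕ → T) (μ : ℕ → K) (hμ : ∀ i, μ i ≠ 0)
    (b : Fin (n + 1) → ℕ) (P : MvPolynomial (Fin (n + 1) × W) E) (hP : BHom b P)
    (hPv : ∀ x', eval (gpt a F n x') P = 0) :
    aeval (fun q : Fin (n + 1) × W => itY (fun t w => (G t w).map τ) χ μ Y q.1 q.2)
      (P.map τ) ∈ OrdI K d j := by
  have hbd := kill_bdeg b P hP
  choose m hm0 hm using fun i : ℕ => itY_chart τ G e hG.1 χ μ hμ Y i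
  let ch : Fin (n + 1) × W → MvPolynomial W E := fun q => chart G q.1 (fun k => χ k) q.2
  have hloc := fun i : ℕ => chart_locF a ha0 F e G hG i
  -- the form
  have hH : (bind₁ ch P).IsHomogeneous (∑ i : Fin (n + 1), b i * e ^ (i : ℕ)) := by
    have h1 : bind₁ ch P = ∑ s ∈ P.support, C (coeff s P) * ∏ q, ch q ^ s q := by
      rw [← aeval_eq_bind₁, aeval_def, eval₂_eq']
      rfl
    rw [h1]
    refine IsHomogeneous.sum _ _ _ fun s hs => ?_
    have h2 : (∏ q, ch q ^ s q).IsHomogeneous (∑ q : Fin (n + 1) × W, e ^ (q.1 : ℕ) * s q) :=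
      IsHomogeneous.prod _ _ _ fun q _ => ((hloc q.1).1 (fun k => χ k) q.2).pow (s q)
    have h3 : ∑ q : Fin (n + 1) × W, e ^ (q.1 : ℕ) * s q = ∑ i : Fin (n + 1), b i * e ^ (i : ℕ) := by
      rw [Fintype.sum_prod_type]
      refine Finset.sum_congr rfl fun i _ => ?_
      rw [← hbd s hs i, Finset.sum_mul]
      exact Finset.sum_congr rfl fun w _ => mul_comm _ _
    rw [h3] at h2
    have h4 := (isHomogeneous_C W (coeff s P)).mul h2
    rwa [zero_add] at h4
  have hV : Van a (bind₁ ch P) := by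
    intro x'
    choose cc hcc using fun i : Fin (n + 1) => (hloc i).2.1 (fun k => χ k) x'
    have h1 : eval (a x') (bind₁ ch P) = eval (fun q => eval (a x') (ch q)) P :=
      eval₂Hom_bind₁ (RingHom.id E) (a x') ch P
    have h2 : (fun q => eval (a x') (ch q)) = fun q => cc q.1 * gpt a F n x' q := by
      funext q
      exact hcc q.1 q.2
    rw [h1, h2]
    have h3 := kill_scale (S := E) P b hbd cc (gpt a F n x')
    have h4 : eval (fun q => cc q.1 * gpt a F n x' q) P =
        (∏ i, cc i ^ b i) * eval (gpt a F n x') P := h3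
    rw [h4, hPv x', mul_zero]
  have key := kill_form a Fs hJ x t ht τ j Y c0 hc0 hY hYF _ _ hH hV
  have hbd' : ∀ s ∈ (P.map τ).support, ∀ i, ∑ w, s (i, w) = b i := fun s hs =>
    hbd s (support_map_subset _ _ hs)
  have h1 : (fun q : Fin (n + 1) × W => itY (fun t w => (G t w).map τ) χ μ Y q.1 q.2) =
      fun q => (fun i : Fin (n + 1) => (C (m i) : MvPolynomial (Fin d) K)) q.1 *
        aeval Y ((ch q).map τ) := by
    funext q
    exact hm q.1 q.2
  have h2 : aeval (fun q => aeval Y ((ch q).map τ)) (P.map τ) = aeval Y ((bind₁ ch P).map τ) := by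
    rw [map_bind₁, aeval_bind₁]
  have h3 := kill_scale (P.map τ) b hbd'
    (fun i : Fin (n + 1) => (C (m i) : MvPolynomial (Fin d) K))
    (fun q => aeval Y ((ch q).map τ))
  rw [h1, h3, h2]
  exact (OrdI K d j).mul_mem_left _ key

end Pool.Agent.LLX
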