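import Pool.Agent.LLX.Tan
import Pool.Agent.LLX.Kill

/-!
# LLX EXPC: the expansions at a place, from the data

Proof. `Y₀ = newt σ P y Q (j + 1)`. `y` is a common zero of the `P i` (homogeneity of `Fs (t i)`,
`eval (a x) (Fs (t i)) = 0`). `constantCoeff (Y₀ w) = y w = (τ (a x w₀))⁻¹ * τ (a x w)`.
`aeval Y₀ (P i) ∈ OrdI (j + 2) ≤ OrdI j` (`newt_ord`, `ord_anti`).
`ht`: the differentials of the `Fs (t i)` at `a x` are linearly independent, because their minor
`mnr Fs σ t` does not vanish at `a x` (`hmin`; `eval` commutes with `det`).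
`kill`: `kill_graph`. `tan`, `one`: `tan_newt` with `m = j + 1`.
`val`, `cne`: induction on `i`: `constantCoeff (itY (i+1) w) = μ i * eval (fun w => c i * τ (a
(F^[i] x) w)) ((G (χ i) w).map τ) = μ i * c i ^ e * τ (eval (a (F^[i] x)) (G (χ i) w))
= μ i * c i ^ e * τ g * τ (a (F^[i+1] x) w)` where `g` is the constant of `LocF`, nonzero because
`hχ`: some value is not zero. (`itY` commutes with `constantCoeff`: `constantCoeff (aeval Y P) =
eval (fun w => constantCoeff (Y w)) P`.)
-/

open MvPolynomial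

namespace Pool.Agent.LLX

open Pool.Agent.Helper63.SAND

variable {E K Ω W T : Type*} [Field E] [Field K] [CharZero K] [Fintype W]

private theorem eval_smul' {K W : Type*} [Field K] {F : MvPolynomial W K} {k : ℕ}
    (hF : F.IsHomogeneous k) (c : K) (v : W → K) :
    eval (fun w => c * v w) F = c ^ k * eval v F := by
  rw [eval_eq, eval_eq, Finset.mul_sum]
  refine Finset.sum_congr rfl fun s hs => ?_
  have hsk : ∑ i ∈ s.support, s i = k := by
    have := hF (mem_support_iff.1 hs)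
    rw [Finsupp.weight_apply] at this
    simpa [Finsupp.sum] using this
  simp only [mul_pow, Finset.prod_mul_distrib]
  rw [Finset.prod_pow_eq_pow_sum, hsk]
  ring

private theorem eval_map' {E K W : Type*} [Field E] [Field K] (τ : E →+* K) (z : W → E)
    (R : MvPolynomial W E) : eval (fun w => τ (z w)) (R.map τ) = τ (eval z R) :=
  (map_eval τ z R).symm

private theorem cc_aeval {K W : Type*} [Field K] {d : ℕ} (Y : W → MvPolynomial (Fin d) K)
    (R : MvPolynomial W K) :
    constantCoeff (aeval Y R) = eval (fun w => constantCoeff (Y w)) R := by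
  have h : (constantCoeff : MvPolynomial (Fin d) K →+* K).comp
      (aeval Y : MvPolynomial W K →ₐ[K] _).toRingHom = eval (fun w => constantCoeff (Y w)) := by
    apply MvPolynomial.ringHom_ext
    · intro r
      simp
    · intro w
      simp
  exact congrArg (fun f : MvPolynomial W K →+* K => f R) h

theorem expc {c d s : ℕ} (a : Ω → W → E) (ha0 : ∀ x, a x ≠ 0) (F : Ω → Ω) (e : ℕ)
    (G : T → W → MvPolynomial W E) (hG : LocF a (fun x => a (F x)) e G)
    (Fs : Fin s → MvPolynomial W E) (hJ : Jac a c d Fs) (x : Ω)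
    (σ : (Fin 1 ⊕ (Fin c ⊕ Fin d)) ≃ W) (t : Fin c → Fin s) (h0 : a x (σ (Sum.inl 0)) ≠ 0)
    (hmin : eval (a x) (mnr Fs σ t) ≠ 0)
    (τ : E →+* K) (y : W → K) (hy : ∀ w, y w = τ (a x w / a x (σ (Sum.inl 0))))
    (Q : Matrix (Fin c) (Fin c) K) (hQ : jac σ (fun i => (Fs (t i)).map τ) y * Q = 1)
    (v : Fin (d + 1) → W → E) (hv : TanB a x v) (n j : ℕ)
    (χ : ℕ → T) (hχ : ∀ i, ∃ w, eval (a (F^[i] x)) (G (χ i) w) ≠ 0)
    (μ : ℕ → K) (hμ : ∀ i, μ i ≠ 0) :
    ∃ (cc : Fin (n + 1) → K) (lam : K), Expn a F n j d τ x v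
      (fun i : Fin (n + 1) => itY (fun t w => (G t w).map τ) χ μ
        (newt σ (fun i => (Fs (t i)).map τ) y Q (j + 1)) i) cc lam := by
  set Y₀ : W → MvPolynomial (Fin d) K :=
    newt σ (fun i => (Fs (t i)).map τ) y Q (j + 1) with hY₀
  have hc0 : (τ (a x (σ (Sum.inl 0))))⁻¹ ≠ 0 := inv_ne_zero ((map_ne_zero τ).2 h0)
  have hyc : ∀ w, y w = (τ (a x (σ (Sum.inl 0))))⁻¹ * τ (a x w) := by
    intro w
    rw [hy, map_div₀, div_eq_inv_mul]
  have hyz : ∀ i, eval y ((Fs (t i)).map τ) = 0 := by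
    intro i
    obtain ⟨k, hk⟩ := hJ.hom (t i)
    have h1 : y = fun w => τ ((a x (σ (Sum.inl 0)))⁻¹ * a x w) := by
      funext w
      rw [hyc, map_mul, map_inv₀]
    rw [h1, eval_map', eval_smul' hk, hJ.van (t i) x, mul_zero, map_zero]
  have hconst : ∀ w, constantCoeff (Y₀ w) = (τ (a x (σ (Sum.inl 0))))⁻¹ * τ (a x w) := by
    intro w
    rw [← hyc]
    exact newt_const σ (fun i => (Fs (t i)).map τ) y Q hyz (j + 1) w
  have hord : ∀ i, aeval Y₀ ((Fs (t i)).map τ) ∈ OrdI K d j := by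
    intro i
    exact ord_anti (by omega) (newt_ord σ (fun i => (Fs (t i)).map τ) y Q hyz hQ (j + 1) i)
  have ht : LinearIndependent E (fun i w => eval (a x) (pderiv w (Fs (t i)))) := by
    have h1 : (Matrix.of fun i l : Fin c =>
        eval (a x) (pderiv (σ (Sum.inr (Sum.inl l))) (Fs (t i)))).det ≠ 0 := by
      have h2 := RingHom.map_det (eval (a x)) (Matrix.of fun i l : Fin c =>
        pderiv (σ (Sum.inr (Sum.inl l))) (Fs (t i)))
      rw [mnr, h2] at hmin
      exact hmin
    have h2 := Matrix.linearIndependent_rows_of_det_ne_zero h1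
    exact LinearIndependent.of_comp
      (LinearMap.funLeft E E (fun l : Fin c => σ (Sum.inr (Sum.inl l)))) h2
  have hcc : ∀ i : ℕ, ∃ m : K, m ≠ 0 ∧ ∀ w,
      constantCoeff (itY (fun t w => (G t w).map τ) χ μ Y₀ i w) = m * τ (a (F^[i] x) w) := by
    intro i
    induction i with
    | zero => exact ⟨_, hc0, hconst⟩
    | succ i ih =>
      obtain ⟨m, hm, hmw⟩ := ih
      obtain ⟨g, hg⟩ := hG.2.1 (χ i) (F^[i] x)
      have hg0 : g ≠ 0 := by
        rintro rfl
        obtain ⟨w, hw⟩ := hχ i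
        exact hw (by rw [hg, zero_mul])
      refine ⟨μ i * (m ^ e * τ g), mul_ne_zero (hμ i)
        (mul_ne_zero (pow_ne_zero _ hm) ((map_ne_zero τ).2 hg0)), fun w => ?_⟩
      have h1 : constantCoeff (itY (fun t w => (G t w).map τ) χ μ Y₀ (i + 1) w) =
          μ i * eval (fun w => m * τ (a (F^[i] x) w)) ((G (χ i) w).map τ) := by
        rw [itY, map_mul, constantCoeff_C, cc_aeval]
        simp_rw [hmw]
      rw [h1, eval_smul' ((hG.1 (χ i) w).map τ), eval_map', hg, map_mul,
        Function.iterate_succ_apply']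
      ring
  choose cc hcc0 hccw using hcc
  obtain ⟨lam, htan, hone⟩ := tan_newt a Fs hJ x σ t h0 τ y hy Q hQ v hv (j + 1) (by omega)
  refine ⟨fun i => cc i, lam, ?_, fun i => hcc0 i, fun i w => hccw i w, ?_, ?_⟩
  · intro m P hP hPv
    exact kill_graph a ha0 F e G hG Fs hJ x t ht τ n j Y₀ _ hc0 hconst hord χ μ hμ m P hP hPv
  · exact htan
  · exact hone

end Pool.Agent.LLX
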