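import Mathlib

/-!
# LLX: the numbers in the final assembly
-/

namespace Pool.Agent.LLX

/-- The choice of the parameters `Λ`, `n`, `M` in `Fin0`. -/
theorem fin_num (CA CB d : ℕ) : ∃ C : ℕ, ∀ h κ : ℝ, 0 ≤ h → 0 ≤ κ → ∃ Λ n M : ℕ,
    2 ≤ Λ ∧ CB ≤ Λ ∧ CB * Real.log Λ ≤ n ∧ M ≤ Λ ∧ h + κ + 1 ≤ Λ ∧
    CA * (n + κ + 1) ^ d ≤ (M : ℝ) ∧ (M : ℝ) ≤ C * (1 + κ + Real.log (2 + h)) ^ d ∧
    ((Λ ^ CB : ℕ) : ℝ) ≤ C * (1 + h + κ) ^ C ∧
    CB * (CB * Real.log Λ) ≤ C * Real.log (2 + h + κ) := by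
  obtain ⟨K, hK⟩ : ∃ K : ℕ, K = CB * (d + 2) + 3 := ⟨_, rfl⟩
  obtain ⟨Cc, hCc⟩ : ∃ Cc : ℕ, Cc = CA * K ^ d + CB + 2 := ⟨_, rfl⟩
  obtain ⟨K2, hK2⟩ : ∃ K2 : ℕ, K2 = CB * (d + 1) * (1 + Cc) + CB + 3 := ⟨_, rfl⟩
  obtain ⟨T, hT⟩ : ∃ T : ℕ, T = 2 * Cc ^ (d + 1) := ⟨_, rfl⟩
  have hKr : (K : ℝ) = CB * (d + 2) + 3 := by rw [hK]; push_cast; ring
  have hK2r : (K2 : ℝ) = CB * (d + 1) * (1 + Cc) + CB + 3 := by rw [hK2]; push_cast; ring
  have hCcr : (Cc : ℝ) = CA * (K : ℝ) ^ d + CB + 2 := by rw [hCc]; push_cast; ring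
  have hCA0 : (0 : ℝ) ≤ CA := Nat.cast_nonneg _
  have hCB0 : (0 : ℝ) ≤ CB := Nat.cast_nonneg _
  have hd0 : (0 : ℝ) ≤ d := Nat.cast_nonneg _
  have hK0 : (0 : ℝ) ≤ K := Nat.cast_nonneg _
  have hK20 : (0 : ℝ) ≤ K2 := Nat.cast_nonneg _
  have hCc2 : (2 : ℝ) ≤ Cc := by
    rw [hCcr]
    have : 0 ≤ (CA : ℝ) * (K : ℝ) ^ d := by positivity
    linarith
  have hCcK : (CA : ℝ) * (K : ℝ) ^ d ≤ Cc := by
    rw [hCcr]
    linarith
  have hCcB : (CB : ℝ) ≤ Cc := by
    rw [hCcr]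
    have : 0 ≤ (CA : ℝ) * (K : ℝ) ^ d := by positivity
    linarith
  refine ⟨(CA * K2 ^ d + 1) + T ^ CB + (d + 1) * CB + CB * CB * (2 * T + (d + 1)), ?_⟩
  intro h κ hh hκ
  set C : ℕ := (CA * K2 ^ d + 1) + T ^ CB + (d + 1) * CB + CB * CB * (2 * T + (d + 1)) with hC
  obtain ⟨B, hB⟩ : ∃ B : ℝ, B = h + κ + Cc := ⟨_, rfl⟩
  have hB2 : 2 ≤ B := by linarith
  have hB1 : 1 ≤ B := by linarith
  have hBp : B ≤ B ^ (d + 1) := le_self_pow₀ hB1 (by omega)
  have hBp1 : 1 ≤ B ^ (d + 1) := one_le_pow₀ hB1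
  obtain ⟨Λ, hΛ⟩ : ∃ Λ : ℕ, Λ = ⌈B ^ (d + 1)⌉₊ := ⟨_, rfl⟩
  have hΛ1 : B ^ (d + 1) ≤ Λ := by rw [hΛ]; exact Nat.le_ceil _
  have hΛ2 : (Λ : ℝ) ≤ 2 * B ^ (d + 1) := by
    have : (Λ : ℝ) < B ^ (d + 1) + 1 := by
      rw [hΛ]
      exact Nat.ceil_lt_add_one (by positivity)
    linarith
  have hΛB : B ≤ Λ := hBp.trans hΛ1
  have hΛ0 : (0 : ℝ) < Λ := by linarith
  have hL0 : 0 ≤ Real.log B := Real.log_nonneg hB1
  have hLB : Real.log B ≤ B := by
    have := Real.log_le_sub_one_of_pos (show 0 < B by linarith)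
    linarith
  have hlogΛ : Real.log Λ ≤ 1 + (d + 1) * Real.log B := by
    calc Real.log Λ ≤ Real.log (2 * B ^ (d + 1)) := Real.log_le_log hΛ0 hΛ2
      _ = Real.log 2 + (d + 1) * Real.log B := by
        rw [Real.log_mul (by norm_num) (by positivity), Real.log_pow]
        push_cast
        ring
      _ ≤ 1 + (d + 1) * Real.log B := by
        have : Real.log 2 ≤ 1 := by
          have := Real.log_le_sub_one_of_pos (show (0 : ℝ) < 2 by norm_num)
          linarith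
        linarith
  have hlogΛ0 : 0 ≤ Real.log Λ := Real.log_nonneg (by linarith)
  obtain ⟨n, hn⟩ : ∃ n : ℕ, n = ⌈CB * Real.log Λ⌉₊ := ⟨_, rfl⟩
  have hn1 : CB * Real.log Λ ≤ n := by rw [hn]; exact Nat.le_ceil _
  have hn2 : (n : ℝ) ≤ CB * (1 + (d + 1) * Real.log B) + 1 := by
    have h1 : (n : ℝ) < CB * Real.log Λ + 1 := by
      rw [hn]
      exact Nat.ceil_lt_add_one (by positivity)
    have h2 : (CB : ℝ) * Real.log Λ ≤ CB * (1 + (d + 1) * Real.log B) :=
      mul_le_mul_of_nonneg_left hlogΛ hCB0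
    linarith
  have hn0 : (0 : ℝ) ≤ n := Nat.cast_nonneg _
  obtain ⟨M, hM⟩ : ∃ M : ℕ, M = ⌈CA * ((n : ℝ) + κ + 1) ^ d⌉₊ := ⟨_, rfl⟩
  have hM1 : CA * ((n : ℝ) + κ + 1) ^ d ≤ M := by rw [hM]; exact Nat.le_ceil _
  have hM2 : (M : ℝ) ≤ CA * ((n : ℝ) + κ + 1) ^ d + 1 := by
    rw [hM]
    exact (Nat.ceil_lt_add_one (by positivity)).le
  have hCC1 : (CA * K2 ^ d + 1 : ℕ) ≤ C := by omega
  have hCC2 : T ^ CB ≤ C := by omega
  have hCC3 : (d + 1) * CB ≤ C := by omega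
  have hCC4 : CB * CB * (2 * T + (d + 1)) ≤ C := by omega
  have hTr : (T : ℝ) = 2 * (Cc : ℝ) ^ (d + 1) := by rw [hT]; push_cast; ring
  have hT1 : (1 : ℝ) ≤ T := by
    rw [hTr]
    have : (1 : ℝ) ≤ (Cc : ℝ) ^ (d + 1) := one_le_pow₀ (by linarith)
    linarith
  have hV1 : 1 ≤ 1 + h + κ := by linarith
  have hBV : B ≤ Cc * (1 + h + κ) := by
    rw [hB]
    nlinarith
  have hΛV : (Λ : ℝ) ≤ T * (1 + h + κ) ^ (d + 1) := by
    refine hΛ2.trans ?_
    rw [hTr, mul_assoc, ← mul_pow]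
    exact mul_le_mul_of_nonneg_left (pow_le_pow_left₀ (by linarith) hBV _) (by norm_num)
  refine ⟨Λ, n, M, ?_, ?_, hn1, ?_, ?_, hM1, ?_, ?_, ?_⟩
  · have : (2 : ℝ) ≤ Λ := by linarith
    exact_mod_cast this
  · have : (CB : ℝ) ≤ Λ := by linarith
    exact_mod_cast this
  · rw [hM, hΛ]
    apply Nat.ceil_mono
    have h1 : (n : ℝ) + κ + 1 ≤ K * B := by
      have h2 : (CB : ℝ) * (d + 1) * Real.log B ≤ CB * (d + 1) * B :=
        mul_le_mul_of_nonneg_left hLB (by positivity)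
      have h3 : κ ≤ B := by rw [hB]; linarith
      have h4 : (CB : ℝ) ≤ CB * B := le_mul_of_one_le_right hCB0 hB1
      have h5 : ((CB : ℝ) * (d + 2) + 3) * B = CB * (d + 1) * B + CB * B + 3 * B := by ring
      rw [hKr, h5]
      linarith
    calc (CA : ℝ) * ((n : ℝ) + κ + 1) ^ d ≤ CA * (K * B) ^ d :=
          mul_le_mul_of_nonneg_left (pow_le_pow_left₀ (by positivity) h1 _) hCA0
      _ = CA * (K : ℝ) ^ d * B ^ d := by rw [mul_pow]; ring
      _ ≤ B * B ^ d := by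
        apply mul_le_mul_of_nonneg_right _ (by positivity)
        rw [hB]
        linarith
      _ = B ^ (d + 1) := by ring
  · linarith
  · have hU1 : 1 ≤ 1 + κ + Real.log (2 + h) := by
      have := Real.log_nonneg (show 1 ≤ 2 + h by linarith)
      linarith
    have hl0 := Real.log_nonneg (show 1 ≤ 2 + h by linarith)
    have hLU : Real.log B ≤ (1 + Cc) * (1 + κ + Real.log (2 + h)) := by
      have h1 : B ≤ (2 + h) * (1 + κ) * Cc := by
        rw [hB]
        have : 0 ≤ h * κ := by positivity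
        nlinarith
      calc Real.log B ≤ Real.log ((2 + h) * (1 + κ) * Cc) :=
            Real.log_le_log (by linarith) h1
        _ = Real.log (2 + h) + Real.log (1 + κ) + Real.log Cc := by
          rw [Real.log_mul (by positivity) (by positivity), Real.log_mul (by positivity)
            (by positivity)]
        _ ≤ Real.log (2 + h) + κ + Cc := by
          have h2 := Real.log_le_sub_one_of_pos (show (0 : ℝ) < 1 + κ by linarith)
          have h3 := Real.log_le_sub_one_of_pos (show (0 : ℝ) < Cc by linarith)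
          linarith
        _ ≤ (1 + Cc) * (1 + κ + Real.log (2 + h)) := by
          have h2 : (Cc : ℝ) ≤ Cc * (1 + κ + Real.log (2 + h)) :=
            le_mul_of_one_le_right (by linarith) hU1
          have h3 : (1 + (Cc : ℝ)) * (1 + κ + Real.log (2 + h)) =
            (1 + κ + Real.log (2 + h)) + Cc * (1 + κ + Real.log (2 + h)) := by ring
          rw [h3]
          linarith
    have h1 : (n : ℝ) + κ + 1 ≤ K2 * (1 + κ + Real.log (2 + h)) := by
      have h2 : (CB : ℝ) * (d + 1) * Real.log B ≤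
          CB * (d + 1) * ((1 + Cc) * (1 + κ + Real.log (2 + h))) :=
        mul_le_mul_of_nonneg_left hLU (by positivity)
      have h4 : (CB : ℝ) ≤ CB * (1 + κ + Real.log (2 + h)) := le_mul_of_one_le_right hCB0 hU1
      have h5 : ((CB : ℝ) * (d + 1) * (1 + Cc) + CB + 3) * (1 + κ + Real.log (2 + h)) =
          CB * (d + 1) * ((1 + Cc) * (1 + κ + Real.log (2 + h))) +
            CB * (1 + κ + Real.log (2 + h)) + 3 * (1 + κ + Real.log (2 + h)) := by ring
      rw [hK2r, h5]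
      linarith
    have hU : (1 : ℝ) ≤ (1 + κ + Real.log (2 + h)) ^ d := one_le_pow₀ hU1
    calc (M : ℝ) ≤ CA * ((n : ℝ) + κ + 1) ^ d + 1 := hM2
      _ ≤ CA * (K2 * (1 + κ + Real.log (2 + h))) ^ d + 1 := by
        have := mul_le_mul_of_nonneg_left (pow_le_pow_left₀ (by positivity) h1 d) hCA0
        linarith
      _ ≤ (CA * (K2 : ℝ) ^ d + 1) * (1 + κ + Real.log (2 + h)) ^ d := by
        have h6 : ((CA : ℝ) * (K2 : ℝ) ^ d + 1) * (1 + κ + Real.log (2 + h)) ^ d =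
          CA * (K2 * (1 + κ + Real.log (2 + h))) ^ d + (1 + κ + Real.log (2 + h)) ^ d := by
            rw [mul_pow]
            ring
        rw [h6]
        linarith
      _ ≤ C * (1 + κ + Real.log (2 + h)) ^ d := by
        apply mul_le_mul_of_nonneg_right _ (by positivity)
        exact_mod_cast hCC1
  · push_cast
    calc (Λ : ℝ) ^ CB ≤ (T * (1 + h + κ) ^ (d + 1)) ^ CB := pow_le_pow_left₀ hΛ0.le hΛV _
      _ = (T : ℝ) ^ CB * (1 + h + κ) ^ ((d + 1) * CB) := by rw [mul_pow, ← pow_mul]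
      _ ≤ C * (1 + h + κ) ^ C := by
        apply mul_le_mul
        · exact_mod_cast hCC2
        · exact pow_le_pow_right₀ hV1 hCC3
        · positivity
        · positivity
  · have hl : (1 / 2 : ℝ) ≤ Real.log (2 + h + κ) :=
      (by have := Real.log_two_gt_d9; linarith : (1 / 2 : ℝ) ≤ Real.log 2).trans
        (Real.log_le_log (by norm_num) (by linarith))
    have h1 : Real.log Λ ≤ (2 * T + (d + 1)) * Real.log (2 + h + κ) := by
      calc Real.log Λ ≤ Real.log (T * (1 + h + κ) ^ (d + 1)) := Real.log_le_log hΛ0 hΛV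
        _ = Real.log T + (d + 1) * Real.log (1 + h + κ) := by
          rw [Real.log_mul (by positivity) (by positivity), Real.log_pow]
          push_cast
          ring
        _ ≤ T + (d + 1) * Real.log (2 + h + κ) := by
          have h2 := Real.log_le_sub_one_of_pos (show (0 : ℝ) < T by linarith)
          have h3 : Real.log (1 + h + κ) ≤ Real.log (2 + h + κ) :=
            Real.log_le_log (by linarith) (by linarith)
          have h4 := mul_le_mul_of_nonneg_left h3 (show (0 : ℝ) ≤ d + 1 by linarith)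
          linarith
        _ ≤ (2 * T + (d + 1)) * Real.log (2 + h + κ) := by
          have h5 := mul_le_mul_of_nonneg_left hl (show (0 : ℝ) ≤ 2 * T by linarith)
          have h6 : (2 * (T : ℝ) + (d + 1)) * Real.log (2 + h + κ) =
            2 * T * Real.log (2 + h + κ) + (d + 1) * Real.log (2 + h + κ) := by ring
          rw [h6]
          linarith
    calc (CB : ℝ) * (CB * Real.log Λ) ≤
          CB * (CB * ((2 * T + (d + 1)) * Real.log (2 + h + κ))) := by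
          apply mul_le_mul_of_nonneg_left _ hCB0
          exact mul_le_mul_of_nonneg_left h1 hCB0
      _ = ((CB * CB * (2 * T + (d + 1)) : ℕ) : ℝ) * Real.log (2 + h + κ) := by
        push_cast
        ring
      _ ≤ C * Real.log (2 + h + κ) := by
        apply mul_le_mul_of_nonneg_right _ (by linarith)
        exact_mod_cast hCC4

end Pool.Agent.LLX
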