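import Pool.Agent.LLX.Algside
import Pool.Agent.LLX.Segx
import Pool.Agent.LLX.FinNum
import Pool.Agent.Helper63.WH.Final
import Pool.Agent.PW.Null
import Pool.Agent.PW.Deg

/-!
# LLX FINAL: the slow points of a smooth variety

PROOF of `llx` (compare `PW/Final.lean`, `pw`, from which most of the bookkeeping can be copied).
`δ ≤ 1`: there are no such points (`absArithDegree_ge_one`), as in `pw`. Otherwise `abs_badh` gives
`r, Cs`. `F : X → X`, `a : X → SIx N → E`, `a x = seg x`, `S = {x : X | DegLE D x ∧ ∃ b < δ, ...}`;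
`LocF`, `FieldLE` as in `pw` (`dG * (D + 1)`), `PrimeH a` (`primeH_seg`), `Clo a` (`clo_seg`),
`hil_bound`. `arith` gives `C_A`; `algside` with `CA = C_A` and the constant `4 * |C₁|` (instead of
`C₁`) gives `C_B`.
Given `h, κ`: `Λ = ⌈(h + κ + Cc) ^ Cc⌉₊` with a large constant `Cc` (such that `Λ ≥ 2`,
`Λ ≥ C_B`, `Λ ≥ h + κ + 1`, and `M ≤ Λ` below), `n = ⌈C_B * log Λ⌉₊`, `M = ⌈C_A * (n + κ + 1) ^ d⌉₊`.
Let `Bad` be the set of the `x ∈ X` with `DegLE D x`, `absTotal x ≤ h`, `a_f(x) < δ`, `TanHt` which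
do not lie on a subvariety `Z` as in the conclusion. Claim: `Bad` does not contain `M` different
points, so it is finite with fewer than `M` elements; `Ex = Bad`. Otherwise let `x i`, `i < M`, be
different points of `Bad`; `l q` (`q ≤ n`) is chosen by `avoid` for the vectors
`a (F^[q] (x i))`, so `Adm` holds for all `i`. `seg_ne`. `arith` gives `NoSep` with
`C_A * r ^ n * (h + κ + 1) ≤ C_A * r ^ n * Λ`; `NoSep` is monotone in `β`. `algside` gives
`i, Q, Λ', τ, m, d', z`. `Z = sub X Q` contains `x i` and, exactly as in `pw` (`basis`, `hil_limit`,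
`null`, `sub_closed`, `sub_irred`; `idl X ≤ Q` because the homogeneous components of the elements of
`idl X` vanish on `X`), it satisfies the conclusion with `n := τ`: `e' ≤ Λ' ≤ Λ ^ C_B`,
`C₁ * (1 + log e') ≤ 4 |C₁| log Λ' ≤ τ` (`log Λ' ≥ 1/2`), `τ ≤ C_B log Λ' ≤ C_B ^ 2 log Λ ≤
C * log (2 + h + κ)`; `RepF` gives `RepBy`. This contradicts `x i ∈ Bad`.
Size: `n ≤ C_B Cc log (h + κ + Cc) + 1`, so `M ≤ C_A (n + κ + 1) ^ d + 1 ≤
C * (1 + κ + log (2 + h)) ^ d` (`log (h + κ + Cc) ≤ log (2 + h) + κ + log Cc`) and `M ≤ Λ` for large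
`Cc` (`n + κ + 1 ≤ (C_B Cc + 3) (h + κ + Cc)`; hence
`M ≤ C_A ((C_B Cc + 3) (h + κ + Cc)) ^ d + 1 ≤ (h + κ + Cc) ^ (2 d + 3)` for
`Cc ≥ 2 C_A + 2` and so on; take for instance `Λ = ⌈(h + κ + Cc) ^ (2 d + 3)⌉₊` and
`n ≤ C_B (2 d + 3) log (h + κ + Cc) + C_B + 1`, so that the exponent does not depend on `Cc`).
-/

open MvPolynomial Filter Topology
open scoped LinearAlgebra.Projectivization

namespace Pool.Agent.LLX

open Pool.Agent.Helper90.KSC Pool.Agent.Helper63.SAND Pool.Agent.Helper63.WH Pool.Agent.PW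

variable {E : Type*} [Field E] {ι : Type*} [Fintype ι] [DecidableEq ι] {N : ι → ℕ}

/-- `X` is smooth of dimension `d` (Jacobian criterion for the Segre coordinates). -/
def SmoothDim (X : Set (PPt E N)) (d : ℕ) : Prop := SmD (fun x : X => seg (x : PPt E N)) d

/-- The height of the tangent space of `X` at `x` (that is, of the vector of the Plücker
coordinates of the tangent space of the cone over `X` in the Segre coordinates) is at most
`(d + 1) h(x) + κ`. -/
def TanHt [CharZero E] (X : Set (PPt E N)) (d : ℕ) (κ : ℝ) (x : X) : Prop :=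
  ∃ v : Fin (d + 1) → SIx N → E, TanB (fun x : X => seg (x : PPt E N)) x v ∧
    absHeight (plu v) ≤ (d + 1) * absTotal (x : PPt E N) + κ

theorem NoSep.mono {E : Type*} [Field E] {Ω W : Type*} [Fintype W] {a : Ω → W → E} {F : Ω → Ω}
    {n : ℕ} {l : Fin (n + 1) → W → E} {ω : Fin (n + 1) → ℕ} {M : ℕ} {x : Fin M → Ω} {β β' : ℝ}
    (h : NoSep a F l ω x β) (hβ : β ≤ β') : NoSep a F l ω x β' := by
  obtain ⟨k₀, hk⟩ := h
  refine ⟨k₀, fun k hk0 j hj => hk k hk0 j (le_trans ?_ hj)⟩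
  exact mul_le_mul_of_nonneg_right hβ (Nat.cast_nonneg _)

/-- A set without `M` different elements is a finite set with at most `M` elements. -/
theorem fin_card {α : Type*} (B : Set α) (M : ℕ)
    (h : ∀ g : Fin M → α, Function.Injective g → ¬ ∀ i, g i ∈ B) :
    ∃ Ex : Finset α, Ex.card ≤ M ∧ ∀ x, x ∉ Ex → x ∉ B := by
  classical
  by_cases hfin : B.Finite
  · refine ⟨hfin.toFinset, ?_, fun x hx hxB => hx (hfin.mem_toFinset.2 hxB)⟩
    by_contra hcon
    obtain ⟨T, hT, hTM⟩ := Finset.exists_subset_card_eq (n := M) (s := hfin.toFinset) (by omega)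
    obtain ⟨g⟩ : Nonempty (Fin M ≃ T) := by
      rw [← hTM]
      exact ⟨(T.equivFin).symm⟩
    refine h (fun i => (g i : α)) (fun i j hij => g.injective (Subtype.ext hij)) fun i => ?_
    exact hfin.mem_toFinset.1 (hT (g i).2)
  · exfalso
    let e := Set.Infinite.natEmbedding B hfin
    refine h (fun i => (e i : α)) (fun i j hij => ?_) fun i => (e i).2
    exact Fin.ext (e.injective (Subtype.ext hij))

variable [CharZero E] [Algebra.IsAlgebraic ℚ E]

theorem llx [IsAlgClosed E] (X : Set (PPt E N)) (hX : ZClosed X) (hXi : Irred X) (d e₀ : ℕ)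
    (hdeg : HasDegree X d e₀) (hsm : SmoothDim X d) (f : PPt E N → PPt E N)
    (hf : Set.MapsTo f X X) (hloc : LocallyByForms X f) (A : Matrix ι ι ℤ) (hA : ActsBy X f A)
    (δ : ℝ) :
    ∃ r < δ, ∀ ρ, r < ρ → ∀ (D : ℕ) (C₁ : ℝ), ∃ C : ℕ, ∀ h κ : ℝ, 0 ≤ h → 0 ≤ κ →
      ∃ Ex : Finset (PPt E N), (Ex.card : ℝ) ≤ C * (1 + κ + Real.log (2 + h)) ^ d ∧
        ∀ (x : PPt E N) (hx : x ∈ X), x ∉ Ex → DegLE D x → absTotal x ≤ h →
          (∃ a < δ, AbsArithDegree f x a) → TanHt X d κ ⟨x, hx⟩ →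
          ∃ Z ⊆ X, ZClosed Z ∧ Irred Z ∧ x ∈ Z ∧ ∃ d' e n k : ℕ, 1 ≤ d' ∧ HasDegree Z d' e ∧
            1 ≤ e ∧ (e : ℝ) ≤ C * (1 + h + κ) ^ C ∧ C₁ * (1 + Real.log e) ≤ n ∧
            n ≤ C * Real.log (2 + h + κ) ∧ (k : ℝ) ≤ ρ ^ n ∧ RepBy Z f^[n] k := by
  classical
  rcases le_or_gt δ 1 with hδ1 | hδ1
  · -- there are no such points
    refine ⟨δ - 1, by linarith, fun ρ _ D C₁ => ⟨0, fun h κ _ _ => ⟨∅, by simp, ?_⟩⟩⟩
    rintro x hx _ _ _ ⟨a, ha, h⟩ _
    exact absurd (absArithDegree_ge_one f x a h) (not_le.mpr (ha.trans_le hδ1))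
  obtain ⟨r, Cs, hr1, hrδ, hCs, hbad⟩ := abs_badh X f hf A hA δ hδ1
  refine ⟨r, hrδ, fun ρ hρ D C₁ => ?_⟩
  obtain ⟨e, t, G, hG1, hG2, hG3⟩ := hloc
  obtain ⟨dG, hdG, hfield⟩ := fieldLE_seg (N := N) G
  let F : X → X := fun x => ⟨f x, hf x.2⟩
  have hF : ∀ (n : ℕ) (x : X), ((F^[n] x : X) : PPt E N) = f^[n] x := by
    intro n
    induction n with
    | zero => intro x; rfl
    | succ n ih =>
      intro x
      rw [Function.iterate_succ_apply, Function.iterate_succ_apply, ih (F x)]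
  let a : X → SIx N → E := fun x => seg (x : PPt E N)
  have ha0 : ∀ x, a x ≠ 0 := fun x => seg_ne_zero _
  have hG : LocF a (fun x => a (F x)) e G := ⟨hG1, fun s x => hG2 s x x.2, fun x => hG3 x x.2⟩
  have hpr : PrimeH a := primeH_seg X hXi
  have hcl : Clo a := clo_seg X hX
  obtain ⟨CA, hCA⟩ := arith a ha0 F e G hG hpr hcl d hsm (hil_bound X d e₀ hdeg)
    {x : X | DegLE D (x : PPt E N) ∧ ∃ b < δ, AbsArithDegree f (x : PPt E N) b}
    (dG * (D + 1)) (Nat.mul_pos hdG (Nat.succ_pos D))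
    (by
      rintro x ⟨hx, _⟩
      obtain ⟨L, h1, h2, h3⟩ := hfield (D + 1) a x x rfl (by
        obtain ⟨L, h1, h2, h3⟩ := hx
        exact ⟨L, h1, h2.trans (Nat.le_succ D), h3⟩)
      exact ⟨L, h1, h2, h3⟩)
    r Cs hr1 hCs
    (by
      rintro x ⟨_, b, hb, h⟩ n
      simp only [a, absHeight_seg, hF]
      exact hbad x x.2 b hb h n)
  obtain ⟨CB, hCB⟩ := algside a ha0 F e G hG hpr hcl r ρ (4 * |C₁|) CA hr1 hρ
  obtain ⟨C, hC⟩ := fin_num CA CB d
  refine ⟨C, fun h κ hh hκ => ?_⟩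
  obtain ⟨Λ, n, M, hΛ2, hΛB, hn, hMΛ, hhΛ, hM1, hM2, hΛC, hlog⟩ := hC h κ hh hκ
  -- the conclusion
  set Con : PPt E N → Prop := fun x => ∃ Z ⊆ X, ZClosed Z ∧ Irred Z ∧ x ∈ Z ∧
    ∃ d' e n k : ℕ, 1 ≤ d' ∧ HasDegree Z d' e ∧
            1 ≤ e ∧ (e : ℝ) ≤ C * (1 + h + κ) ^ C ∧ C₁ * (1 + Real.log e) ≤ n ∧
            n ≤ C * Real.log (2 + h + κ) ∧ (k : ℝ) ≤ ρ ^ n ∧ RepBy Z f^[n] k with hCon
  obtain ⟨Ex, hEx1, hEx2⟩ := fin_card {x : X | DegLE D (x : PPt E N) ∧
    absTotal (x : PPt E N) ≤ h ∧ (∃ b < δ, AbsArithDegree f (x : PPt E N) b) ∧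
    TanHt X d κ x ∧ ¬ Con x} M (by
      intro x hxinj hx
      have hne : ∀ i i', i ≠ i' → ∀ c : E, ∃ w, a (x i) w ≠ c * a (x i') w := by
        intro i i' hii c
        exact seg_ne _ _ (fun h => hii (hxinj (Subtype.ext h))) c
      have hinf : Infinite E := inferInstance
      choose l hl using fun q : Fin (n + 1) =>
        avoid (fun i : Fin M => a (F^[q] (x i))) fun i => ha0 _
      have hadm : ∀ i, Adm a F l (x i) := fun i q => hl q i
      have h1 := hCA n M κ h hκ hh hM1 x (fun i => ⟨⟨(hx i).1, (hx i).2.2.1⟩, by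
        simp only [a, absHeight_seg]
        exact (hx i).2.1, by
        obtain ⟨v, hv1, hv2⟩ := (hx i).2.2.2.1
        refine ⟨v, hv1, ?_⟩
        simp only [a, absHeight_seg]
        exact hv2⟩) hne l hadm
      have h2 : NoSep a F l (wt r n) x (CA * r ^ n * Λ) := h1.mono (by
        apply mul_le_mul_of_nonneg_left hhΛ
        have : (0 : ℝ) ≤ r := by linarith
        positivity)
      obtain ⟨i, Q, Λ', τ, m, hQ1, hQvan, hQx, hΛ'1, hΛ'2, hτ1, hτ2, ⟨d', z', hd', hz', hr'⟩,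
        hm, hrep⟩ := hCB Λ n M hΛ2 hΛB hn hMΛ x hne l hadm h2
      have hXQ : idl X ≤ Q := by
        intro P hP
        rw [← sum_homogeneousComponent P]
        refine Ideal.sum_mem _ fun k _ => ?_
        exact hQvan _ k (homogeneousComponent_isHomogeneous k P) fun y => hP k y y.2
      obtain ⟨e', he'1, he'2, he'3, m', hm'1, hm'2⟩ := basis Q hQ1.prime z' hz' Λ' hr'
      have hΛ'2' : 2 ≤ Λ' := hΛ2.trans hΛ'1
      have hΛ'0 : (0 : ℝ) < Λ' := by
        have : 0 < Λ' := by omega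
        exact_mod_cast this
      have hΛ'3 : (Λ' : ℝ) ≤ ((Λ ^ CB : ℕ) : ℝ) := by exact_mod_cast hΛ'2
      have hlog2 : (1 / 2 : ℝ) ≤ Real.log Λ' := by
        have h3 : (2 : ℝ) ≤ Λ' := by exact_mod_cast hΛ'2'
        exact log_two_half.le.trans (Real.log_le_log (by norm_num) h3)
      refine (hx i).2.2.2.2 ⟨sub X Q, fun x hx => hx.1, sub_closed X hX Q hQ1.hom,
        sub_irred X hX Q hQ1 hXQ, ⟨(x i).2, hQx⟩, d', e', τ, m, hd', ?_, he'1, ?_, ?_, ?_, hm, ?_⟩
      · exact hil_limit Q hQ1 z' hz' e' he'3 m' hm'2 hm'1 (fun x : sub X Q => seg (x : PPt E N))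
          (fun P k hP => by
            rw [← null X hX Q hQ1 hXQ P k hP]
            constructor
            · intro h x hx
              exact h ⟨x, hx⟩
            · intro h x
              exact h x x.2)
      · have : (e' : ℝ) ≤ Λ' := by exact_mod_cast he'2
        exact this.trans (hΛ'3.trans hΛC)
      · have h1 : Real.log e' ≤ Real.log Λ' := by
          apply Real.log_le_log
          · exact_mod_cast he'1
          · exact_mod_cast he'2
        have h2 : 0 ≤ Real.log (e' : ℝ) := Real.log_nonneg (by exact_mod_cast he'1)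
        calc C₁ * (1 + Real.log e') ≤ |C₁| * (1 + Real.log e') :=
              mul_le_mul_of_nonneg_right (le_abs_self _) (by linarith)
          _ ≤ |C₁| * (4 * Real.log Λ') :=
              mul_le_mul_of_nonneg_left (by linarith) (abs_nonneg _)
          _ = 4 * |C₁| * Real.log Λ' := by ring
          _ ≤ τ := hτ1
      · have h1 : Real.log Λ' ≤ CB * Real.log Λ := by
          calc Real.log Λ' ≤ Real.log ((Λ ^ CB : ℕ) : ℝ) := Real.log_le_log hΛ'0 hΛ'3
            _ = CB * Real.log Λ := by push_cast; rw [Real.log_pow]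
        calc (τ : ℝ) ≤ CB * Real.log Λ' := hτ2
          _ ≤ CB * (CB * Real.log Λ) := mul_le_mul_of_nonneg_left h1 (Nat.cast_nonneg _)
          _ ≤ C * Real.log (2 + h + κ) := hlog
      · obtain ⟨P, hP1, ⟨w, hP2⟩, hP3⟩ := hrep
        refine ⟨P, hP1, ?_, fun x hx => ?_⟩
        · unfold Van at hP2
          push Not at hP2
          obtain ⟨y, hy⟩ := hP2
          exact ⟨((y : X) : PPt E N), ⟨(y : X).2, y.2⟩, w, hy⟩
        · obtain ⟨c, hc⟩ := hP3 ⟨⟨x, hx.1⟩, hx.2⟩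
          refine ⟨c, fun w => ?_⟩
          have h2 := hF τ ⟨x, hx.1⟩
          have h3 := hc w
          simp only [a, h2] at h3
          exact h3)
  refine ⟨Ex.image Subtype.val, ?_, ?_⟩
  · refine le_trans ?_ hM2
    exact_mod_cast Finset.card_image_le.trans hEx1
  · intro x hx hxEx hxD hxh hxb hxT
    by_contra hcon
    refine hEx2 ⟨x, hx⟩ (fun hm => hxEx ?_) ⟨hxD, hxh, hxb, hxT, hcon⟩
    exact Finset.mem_image.2 ⟨⟨x, hx⟩, hm, rfl⟩

end Pool.Agent.LLX
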