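import Pool.Agent.LLX.Expc
import Pool.Agent.LLX.Nsz
import Pool.Agent.Helper63.SAND.Iter

/-!
# LLX GOODX: integral expansions at the good places

`good_exists`. The set `S`: the coefficients of the `Fs i` and `G t w` and the sets given by
`low_non_at` for the minors `mnr Fs σ t` with `σ (inl 0) = w₀` (every `w₀`), and by `low_non` for
the forms `G t w` (see LLX/Badx.lean for the hypotheses of these lemmas). The first two clauses of
`GoodCh` are `low_non_at`. For the charts construct `χ i` recursively such that the vector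
`z_i = (eval y ((chart G i χ w).map τ))_w` satisfies `‖z_i w‖ ≤ 1` for all `w` (integrality,
`chart_int`-like, `int_eval`) and `1 ≤ ‖z_i w_i‖` for some `w_i`: `z_0 = y` has `z_0 w₀ = 1`.
`z_i` is proportional to `τ (a (F^[i] x))` (`chart_locF`, homogeneity), so
`z_i w = z_i w_i * τ (a (F^[i] x) w / a (F^[i] x) w_i)`, and `low_non` at the point `F^[i] x` and
the coordinate `w_i` gives `t = χ i`, `w` with `1 ≤ ‖G t w (z_i / z_i w_i)‖`, hence
`1 ≤ ‖G t w (z_i)‖` because `‖z_i w_i‖ = 1`; and `G t w (z_i) = eval y (chart G (i+1) χ w)`.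
(Recursion: build the sequence as a function on finite initial segments, or use
`∃ χ : ℕ → T, ∀ i, ...` from the step `∀ i, ∀ χ' good up to i, ∃ t` with `Nat.rec` /
`exists_seq`; the chart `chart G i (fun k => χ k)` only depends on `χ 0, ..., χ (i-1)`.)

`good_congr`. `int_eval_congr`: the values of the integral polynomials `mnr Fs σ t` and
`chart G i χ w` at `y` and `y'` differ by an element of norm less than `1`.

`good_expn`. `Y₀ = newt σ P y Q (j+1)` with `Q = (jac σ P y)⁻¹ = (det)⁻¹ • adjugate`, integral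
because `‖det‖ = 1` (`≤ 1` by integrality, `≥ 1` by hypothesis; `det (jac σ P y)` is the value of
`(mnr Fs σ t).map τ` at `y`). `itY_int` and `int_newt` give the integrality. The constant
coefficients of `itY i` are `eval y ((chart G i χ w).map τ)` (`itY_chart_one`). `hχ` of `expc`:
since the value of the chart `i+1` at `y` is not `0` for some `w`, neither is
`eval (a (F^[i] x)) (G (χ i) w)` (proportionality). Apply `expc`.
-/

open MvPolynomial

namespace Pool.Agent.LLX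

open Pool.Agent.Helper63.SAND

/-- The charts `σ`, `t` and the sequence of local forms `χ` are good for the point `x` at the
place `τ`, for the normalisation by the coordinate `w₀`. -/
def GoodCh {E K Ω W T : Type*} [Field E] [NormedField K] [Fintype W] {c d s : ℕ}
    (a : Ω → W → E) (G : T → W → MvPolynomial W E) (Fs : Fin s → MvPolynomial W E) (τ : E →+* K)
    (w₀ : W) (σ : (Fin 1 ⊕ (Fin c ⊕ Fin d)) ≃ W) (t : Fin c → Fin s) (χ : ℕ → T) (x : Ω) : Prop :=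
  σ (Sum.inl 0) = w₀ ∧
  1 ≤ ‖eval (fun w => τ (a x w / a x w₀)) ((mnr Fs σ t).map τ)‖ ∧
  ∀ i : ℕ, ∃ w, 1 ≤ ‖eval (fun w => τ (a x w / a x w₀)) ((chart G i (fun k => χ k) w).map τ)‖

/-! ### Tools -/

private theorem gd_smul {K σ : Type*} [Field K] (P : MvPolynomial σ K) (e : ℕ)
    (hP : P.IsHomogeneous e) (c : K) (z : σ → K) :
    eval (fun s => c * z s) P = c ^ e * eval z P := by
  rw [eval_eq, eval_eq, Finset.mul_sum]
  refine Finset.sum_congr rfl fun d hd => ?_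
  have h1 : ∏ i ∈ d.support, (c * z i) ^ d i = c ^ e * ∏ i ∈ d.support, z i ^ d i := by
    have h2 : ∏ i ∈ d.support, (c * z i) ^ d i =
        (∏ i ∈ d.support, c ^ d i) * ∏ i ∈ d.support, z i ^ d i := by
      rw [← Finset.prod_mul_distrib]
      exact Finset.prod_congr rfl fun i _ => mul_pow _ _ _
    rw [h2, Finset.prod_pow_eq_pow_sum]
    have h3 : ∑ i ∈ d.support, d i = e := by
      have h4 := hP (mem_support_iff.1 hd)
      rw [← h4, Finsupp.weight_apply, Finsupp.sum]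
      simp
    rw [h3]
  rw [h1]
  ring

private theorem gd_bind {K σ ρ : Type*} [Field K] (b : ρ → K) (f : σ → MvPolynomial ρ K)
    (P : MvPolynomial σ K) : eval b (bind₁ f P) = eval (fun s => eval b (f s)) P :=
  eval₂Hom_bind₁ (RingHom.id K) b f P

private theorem gd_map {E K σ : Type*} [Field E] [Field K] (τ : E →+* K) (b : σ → E)
    (P : MvPolynomial σ E) : eval (fun s => τ (b s)) (P.map τ) = τ (eval b P) := by
  rw [eval_map, eval, coe_eval₂Hom, hom_eval₂]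
  rfl

/-- the value of a form at the normalised point -/
private theorem gd_val {E K W : Type*} [Field E] [Field K] (τ : E →+* K) (b : W → E) (w₀ : W)
    (P : MvPolynomial W E) (k : ℕ) (hP : P.IsHomogeneous k) :
    eval (fun w => τ (b w / b w₀)) (P.map τ) = τ ((b w₀)⁻¹ ^ k * eval b P) := by
  have h : (fun w => b w / b w₀) = fun s => (b w₀)⁻¹ * b s :=
    funext fun w => div_eq_inv_mul _ _
  rw [gd_map τ (fun w => b w / b w₀), ← gd_smul P k hP, h]

private theorem gd_mnr {E W : Type*} [Field E] [Fintype W] {c d s : ℕ}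
    (Fs : Fin s → MvPolynomial W E) (hF : ∀ i, ∃ k, (Fs i).IsHomogeneous k)
    (σ : (Fin 1 ⊕ (Fin c ⊕ Fin d)) ≃ W) (t : Fin c → Fin s) :
    ∃ k, (mnr Fs σ t).IsHomogeneous k := by
  choose k hk using hF
  refine ⟨∑ i, (k (t i) - 1), ?_⟩
  unfold mnr
  rw [Matrix.det_apply']
  refine IsHomogeneous.sum _ _ _ fun π _ => ?_
  have h1 : (∏ i, (Matrix.of fun i l : Fin c => pderiv (σ (Sum.inr (Sum.inl l))) (Fs (t i)))
      (π i) i).IsHomogeneous (∑ i, (k (t i) - 1)) := by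
    have h2 := IsHomogeneous.prod Finset.univ (fun i : Fin c =>
      pderiv (σ (Sum.inr (Sum.inl i))) (Fs (t (π i)))) (fun i => k (t (π i)) - 1)
      (fun i _ => (hk (t (π i))).pderiv)
    have h3 : ∑ i, (k (t (π i)) - 1) = ∑ i, (k (t i) - 1) :=
      Equiv.sum_comp π fun i => k (t i) - 1
    rw [h3] at h2
    exact h2
  have h4 : (((Equiv.Perm.sign π : ℤˣ) : ℤ) : MvPolynomial W E) =
      C (((Equiv.Perm.sign π : ℤˣ) : ℤ) : E) := by
    rw [map_intCast]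
  rw [h4]
  exact h1.C_mul _

/-- the absolute value induced by an embedding -/
private noncomputable def gAbs {E K : Type*} [Field E] [NormedField K] (τ : E →+* K) :
    AbsoluteValue E ℝ where
  toFun z := ‖τ z‖
  map_mul' a b := by rw [map_mul, norm_mul]
  nonneg' a := norm_nonneg _
  eq_zero' a := by rw [norm_eq_zero, map_eq_zero]
  add_le' a b := by
    rw [map_add]
    exact norm_add_le _ _

private theorem gAbs_non {E K : Type*} [Field E] [NormedField K] (τ : E →+* K)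
    (hK : IsNonarchimedean (fun z : K => ‖z‖)) : IsNonarchimedean (gAbs τ) := by
  intro a b
  change ‖τ (a + b)‖ ≤ max ‖τ a‖ ‖τ b‖
  rw [map_add]
  exact hK (τ a) (τ b)

private theorem gK_non {K : Type*} [NormedField K]
    (hK : IsNonarchimedean (fun z : K => ‖z‖)) :
    IsNonarchimedean (NormedField.toAbsoluteValue K) := hK

private theorem gd_intmap {E K σ : Type*} [Field E] [NormedField K] (τ : E →+* K)
    {P : MvPolynomial σ E} (hP : IntPoly (gAbs τ) P) :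
    IntPoly (NormedField.toAbsoluteValue K) (P.map τ) := by
  intro u
  rw [coeff_map]
  exact hP u

private theorem gd_mnr_int {E K W : Type*} [Field E] [NormedField K] [Fintype W] {c d s : ℕ}
    (Fs : Fin s → MvPolynomial W E) (τ : E →+* K) (hK : IsNonarchimedean (fun z : K => ‖z‖))
    (hFs : ∀ i u, ‖τ ((Fs i).coeff u)‖ ≤ 1)
    (σ : (Fin 1 ⊕ (Fin c ⊕ Fin d)) ≃ W) (t : Fin c → Fin s) :
    IntPoly (gAbs τ) (mnr Fs σ t) := by
  unfold mnr
  refine int_det (gAbs τ) (gAbs_non τ hK) _ fun i l => ?_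
  exact int_pderiv (gAbs τ) (gAbs_non τ hK) (fun u => hFs (t i) u) _

private theorem gd_chart_int {E K W T : Type*} [Field E] [NormedField K]
    (G : T → W → MvPolynomial W E) (τ : E →+* K) (hK : IsNonarchimedean (fun z : K => ‖z‖))
    (hGs : ∀ t w u, ‖τ ((G t w).coeff u)‖ ≤ 1) (n : ℕ) (χ : Fin n → T) (w : W) :
    IntPoly (gAbs τ) (chart G n χ w) :=
  chart_int (gAbs τ) (gAbs_non τ hK) G (fun t w u => hGs t w u) n χ w

private theorem gd_y {E K Ω W : Type*} [Field E] [NormedField K] (a : Ω → W → E) (τ : E →+* K)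
    (w₀ : W) (x : Ω) (h0 : a x w₀ ≠ 0) (hm : ∀ w, ‖τ (a x w)‖ ≤ ‖τ (a x w₀)‖) (w : W) :
    ‖τ (a x w / a x w₀)‖ ≤ 1 := by
  rw [map_div₀, norm_div]
  have h1 : 0 < ‖τ (a x w₀)‖ := by
    rw [norm_pos_iff, map_ne_zero]
    exact h0
  exact (div_le_one h1).2 (hm w)

private theorem gd_eval {E K W : Type*} [Field E] [NormedField K] (τ : E →+* K)
    (hK : IsNonarchimedean (fun z : K => ‖z‖)) (y : W → K) (hy : ∀ w, ‖y w‖ ≤ 1)
    (P : MvPolynomial W E) (hP : IntPoly (gAbs τ) P) : ‖eval y (P.map τ)‖ ≤ 1 :=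
  int_eval (NormedField.toAbsoluteValue K) (gK_non hK) y hy _ (gd_intmap τ hP)

private theorem gd_eval_congr {E K W : Type*} [Field E] [NormedField K] (τ : E →+* K)
    (hK : IsNonarchimedean (fun z : K => ‖z‖)) (y y' : W → K) (hy : ∀ w, ‖y w‖ ≤ 1)
    (hy' : ∀ w, ‖y' w‖ ≤ 1) (h : ∀ w, ‖y w - y' w‖ < 1) (P : MvPolynomial W E)
    (hP : IntPoly (gAbs τ) P) (h1 : 1 ≤ ‖eval y (P.map τ)‖) : 1 ≤ ‖eval y' (P.map τ)‖ := by
  by_contra h2
  push Not at h2
  have h3 : ‖eval y (P.map τ) - eval y' (P.map τ)‖ < 1 :=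
    int_eval_congr (NormedField.toAbsoluteValue K) (gK_non hK) y y' hy hy' h _ (gd_intmap τ hP)
  have h4 := hK (eval y (P.map τ) - eval y' (P.map τ)) (eval y' (P.map τ))
  simp only [sub_add_cancel] at h4
  exact absurd (h1.trans h4) (not_le.2 (max_lt h3 h2))

private theorem gd_seq {T : Type*} (Q : (i : ℕ) → (Fin i → T) → Prop) (h0 : ∃ χ, Q 0 χ)
    (hs : ∀ i χ, Q i χ → ∃ t, Q (i + 1) (Fin.snoc (α := fun _ => T) χ t)) :
    ∃ χ : ℕ → T, ∀ i, Q i (fun k => χ k) := by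
  choose step hstep using hs
  obtain ⟨χ0, hχ0⟩ := h0
  let f : (i : ℕ) → {χ : Fin i → T // Q i χ} := fun i =>
    Nat.rec ⟨χ0, hχ0⟩ (fun i χ => ⟨Fin.snoc (α := fun _ => T) χ.1 (step i χ.1 χ.2),
      hstep i χ.1 χ.2⟩) i
  have hf : ∀ i, (f (i + 1)).1 =
      Fin.snoc (α := fun _ => T) (f i).1 (step i (f i).1 (f i).2) :=
    fun i => rfl
  refine ⟨fun k => (f (k + 1)).1 (Fin.last k), fun i => ?_⟩
  have key : ∀ i, (fun k : Fin i => (f (k + 1)).1 (Fin.last k)) = (f i).1 := by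
    intro i
    induction i with
    | zero => exact Subsingleton.elim _ _
    | succ i ih =>
      funext k
      refine Fin.lastCases ?_ (fun k' => ?_) k
      · rfl
      · rw [hf i, Fin.snoc_castSucc, ← ih]
        rfl
  rw [key i]
  exact (f i).2

/-- the step of the construction of the charts -/
private theorem gd_step {E Ω W T : Type*} [Field E] [Fintype W]
    (a : Ω → W → E) (ha0 : ∀ x, a x ≠ 0) (F : Ω → Ω) (e : ℕ)
    (G : T → W → MvPolynomial W E) (hG : LocF a (fun x => a (F x)) e G)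
    {K : Type} [NormedField K] (τ : E →+* K)
    (hK : IsNonarchimedean (fun z : K => ‖z‖)) (hGs : ∀ t w u, ‖τ ((G t w).coeff u)‖ ≤ 1)
    (hlow : ∀ x w₀, a x w₀ ≠ 0 → (∀ w, ‖τ (a x w)‖ ≤ ‖τ (a x w₀)‖) →
      ∃ p : T × W, 1 ≤ ‖eval (fun w => τ (a x w / a x w₀)) ((G p.1 p.2).map τ)‖)
    (x : Ω) (w₀ : W) (h0 : a x w₀ ≠ 0) (hm : ∀ w, ‖τ (a x w)‖ ≤ ‖τ (a x w₀)‖) (i : ℕ)
    (χ : Fin i → T)
    (h : ∃ w, 1 ≤ ‖eval (fun w => τ (a x w / a x w₀)) ((chart G i χ w).map τ)‖) :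
    ∃ t, ∃ w, 1 ≤ ‖eval (fun w => τ (a x w / a x w₀))
      ((chart G (i + 1) (Fin.snoc (α := fun _ => T) χ t) w).map τ)‖ := by
  obtain ⟨wi, hwi⟩ := h
  have hloc := chart_locF a ha0 F e G hG i
  obtain ⟨c, hc⟩ := hloc.2.1 χ x
  have hy := gd_y a τ w₀ x h0 hm
  have hz : ∀ w, eval (fun w => τ (a x w / a x w₀)) ((chart G i χ w).map τ) =
      τ ((a x w₀)⁻¹ ^ (e ^ i) * c) * τ (a (F^[i] x) w) := by
    intro w
    rw [gd_val τ (a x) w₀ _ _ (hloc.1 χ w), hc w, ← map_mul, mul_assoc]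
  obtain ⟨c', hc'⟩ : ∃ c', c' = τ ((a x w₀)⁻¹ ^ (e ^ i) * c) := ⟨_, rfl⟩
  rw [← hc'] at hz
  have hle : ∀ w, ‖c' * τ (a (F^[i] x) w)‖ ≤ 1 := by
    intro w
    rw [← hz w]
    exact gd_eval τ hK _ hy _ (gd_chart_int G τ hK hGs i χ w)
  rw [hz wi] at hwi
  have hone : ‖c' * τ (a (F^[i] x) wi)‖ = 1 := le_antisymm (hle wi) hwi
  have hne : c' * τ (a (F^[i] x) wi) ≠ 0 := by
    intro h1
    rw [h1, norm_zero] at hone
    exact zero_ne_one hone
  have hc0 : c' ≠ 0 := left_ne_zero_of_mul hne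
  have ha : a (F^[i] x) wi ≠ 0 := by
    intro h1
    rw [h1, map_zero, mul_zero] at hne
    exact hne rfl
  have hc0' : 0 < ‖c'‖ := norm_pos_iff.2 hc0
  have hmax : ∀ w, ‖τ (a (F^[i] x) w)‖ ≤ ‖τ (a (F^[i] x) wi)‖ := by
    intro w
    have h1 := (hle w).trans hone.ge
    rw [norm_mul, norm_mul] at h1
    exact le_of_mul_le_mul_left h1 hc0'
  obtain ⟨⟨t, w⟩, htw⟩ := hlow (F^[i] x) wi ha hmax
  refine ⟨t, w, ?_⟩
  have h2 : (Fin.init (Fin.snoc χ t : Fin (i + 1) → T)) = χ := Fin.init_snoc _ _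
  have h3 : (Fin.snoc χ t : Fin (i + 1) → T) (Fin.last i) = t := Fin.snoc_last _ _
  have h4 : eval (fun w => τ (a x w / a x w₀))
      ((chart G (i + 1) (Fin.snoc (α := fun _ => T) χ t) w).map τ) =
      (c' * τ (a (F^[i] x) wi)) ^ e *
        eval (fun w => τ (a (F^[i] x) w / a (F^[i] x) wi)) ((G t w).map τ) := by
    rw [chart, map_bind₁, gd_bind, h2, h3, ← gd_smul _ e ((hG.1 t w).map τ)]
    congr 2
    funext w'
    rw [hz w', map_div₀]
    have h5 : τ (a (F^[i] x) wi) ≠ 0 := by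
      rw [map_ne_zero]
      exact ha
    field_simp
  rw [h4, norm_mul, norm_pow, hone, one_pow, one_mul]
  exact htw

theorem good_exists {E Ω W T : Type*} [Field E] [CharZero E] [IsAlgClosed E] [Fintype W]
    [Fintype T] {c d s : ℕ} (a : Ω → W → E) (ha0 : ∀ x, a x ≠ 0) (hcl : Clo a) (F : Ω → Ω)
    (e : ℕ) (G : T → W → MvPolynomial W E) (hG : LocF a (fun x => a (F x)) e G)
    (Fs : Fin s → MvPolynomial W E) (hJ : Jac a c d Fs) :
    ∃ S : Finset E, (∀ i u, (Fs i).coeff u ≠ 0 → (Fs i).coeff u ∈ S) ∧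
      (∀ t w u, (G t w).coeff u ≠ 0 → (G t w).coeff u ∈ S) ∧
      ∀ (K : Type) [NormedField K] [CharZero K] (τ : E →+* K),
      IsNonarchimedean (fun z : K => ‖z‖) → (∀ b ∈ S, ‖τ b‖ ≤ 1) →
      ∀ x w₀, a x w₀ ≠ 0 → (∀ w, ‖τ (a x w)‖ ≤ ‖τ (a x w₀)‖) →
      ∃ (σ : (Fin 1 ⊕ (Fin c ⊕ Fin d)) ≃ W) (t : Fin c → Fin s) (χ : ℕ → T),
        GoodCh a G Fs τ w₀ σ t χ x := by
  classical
  have : Finite ((Fin 1 ⊕ (Fin c ⊕ Fin d)) ≃ W) := inferInstance
  let I (w₀ : W) := {p : ((Fin 1 ⊕ (Fin c ⊕ Fin d)) ≃ W) × (Fin c → Fin s) //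
    p.1 (Sum.inl 0) = w₀}
  have hI : ∀ w₀, Finite (I w₀) := fun w₀ => inferInstance
  have hS1 : ∀ w₀ : W, ∃ S : Finset E, ∀ (K : Type) [NormedField K]
      (τ : E →+* K), IsNonarchimedean (fun z : K => ‖z‖) → (∀ b ∈ S, ‖τ b‖ ≤ 1) →
      ∀ x, a x w₀ ≠ 0 → (∀ w, ‖τ (a x w)‖ ≤ ‖τ (a x w₀)‖) →
      ∃ i : I w₀, 1 ≤ ‖eval (fun w => τ (a x w / a x w₀)) ((mnr Fs i.1.1 i.1.2).map τ)‖ := by
    intro w₀
    have := Fintype.ofFinite (I w₀)
    have hd : ∀ i : I w₀, ∃ k, (mnr Fs i.1.1 i.1.2).IsHomogeneous k :=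
      fun i => gd_mnr Fs hJ.hom i.1.1 i.1.2
    choose deg hdeg using hd
    refine low_non_at a hcl (fun i : I w₀ => mnr Fs i.1.1 i.1.2) deg hdeg w₀ ?_
    intro x hx
    obtain ⟨σ, t, h1, h2⟩ := hJ.minor x w₀ hx
    exact ⟨⟨(σ, t), h1⟩, h2⟩
  choose S1 hS1 using hS1
  obtain ⟨S2, hS2⟩ := low_non (I := T × W) a hcl (fun p => G p.1 p.2) (fun _ => e)
    (fun p => hG.1 p.1 p.2) (fun x w₀ _ => by
      obtain ⟨t, w, h1⟩ := hG.2.2 x
      exact ⟨(t, w), h1⟩)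
  refine ⟨(Finset.univ.biUnion fun i => (Fs i).support.image fun u => (Fs i).coeff u) ∪
    (Finset.univ.biUnion fun p : T × W => (G p.1 p.2).support.image fun u =>
      (G p.1 p.2).coeff u) ∪ (Finset.univ.biUnion S1) ∪ S2, ?_, ?_, ?_⟩
  · intro i u hu
    refine Finset.mem_union_left _ (Finset.mem_union_left _ (Finset.mem_union_left _ ?_))
    exact Finset.mem_biUnion.2 ⟨i, Finset.mem_univ i,
      Finset.mem_image.2 ⟨u, mem_support_iff.2 hu, rfl⟩⟩
  · intro t w u hu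
    refine Finset.mem_union_left _ (Finset.mem_union_left _ (Finset.mem_union_right _ ?_))
    exact Finset.mem_biUnion.2 ⟨(t, w), Finset.mem_univ _,
      Finset.mem_image.2 ⟨u, mem_support_iff.2 hu, rfl⟩⟩
  · intro K _ _ τ hK hS x w₀ h0 hm
    have hGs : ∀ t w u, ‖τ ((G t w).coeff u)‖ ≤ 1 := by
      intro t w u
      by_cases hu : (G t w).coeff u = 0
      · rw [hu, map_zero, norm_zero]
        exact zero_le_one
      · refine hS _ (Finset.mem_union_left _ (Finset.mem_union_left _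
          (Finset.mem_union_right _ ?_)))
        exact Finset.mem_biUnion.2 ⟨(t, w), Finset.mem_univ _,
          Finset.mem_image.2 ⟨u, mem_support_iff.2 hu, rfl⟩⟩
    obtain ⟨⟨⟨σ, t⟩, hσ⟩, h1⟩ := hS1 w₀ K τ hK (fun b hb => hS b (Finset.mem_union_left _
      (Finset.mem_union_right _ (Finset.mem_biUnion.2 ⟨w₀, Finset.mem_univ _, hb⟩)))) x h0 hm
    have hlow : ∀ x w₀, a x w₀ ≠ 0 → (∀ w, ‖τ (a x w)‖ ≤ ‖τ (a x w₀)‖) →
        ∃ p : T × W, 1 ≤ ‖eval (fun w => τ (a x w / a x w₀)) ((G p.1 p.2).map τ)‖ :=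
      hS2 K τ hK fun b hb => hS b (Finset.mem_union_right _ hb)
    obtain ⟨χ, hχ⟩ := gd_seq (T := T) (fun i χ => ∃ w, 1 ≤
      ‖eval (fun w => τ (a x w / a x w₀)) ((chart G i χ w).map τ)‖)
      ⟨Fin.elim0, w₀, by
        rw [chart, map_X, eval_X, div_self h0, map_one, norm_one]⟩
      (fun i χ h => gd_step a ha0 F e G hG τ hK hGs hlow x w₀ h0 hm i χ h)
    exact ⟨σ, t, χ, hσ, h1, hχ⟩

theorem good_congr {E K Ω W T : Type*} [Field E] [NormedField K]
    [Fintype W] {c d s : ℕ} (a : Ω → W → E)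
    (G : T → W → MvPolynomial W E) (Fs : Fin s → MvPolynomial W E) (τ : E →+* K)
    (hK : IsNonarchimedean (fun z : K => ‖z‖)) (hFs : ∀ i u, ‖τ ((Fs i).coeff u)‖ ≤ 1)
    (hGs : ∀ t w u, ‖τ ((G t w).coeff u)‖ ≤ 1) (w₀ : W)
    (σ : (Fin 1 ⊕ (Fin c ⊕ Fin d)) ≃ W) (t : Fin c → Fin s) (χ : ℕ → T) (x x' : Ω)
    (h0 : a x w₀ ≠ 0) (h0' : a x' w₀ ≠ 0) (hm : ∀ w, ‖τ (a x w)‖ ≤ ‖τ (a x w₀)‖)
    (hm' : ∀ w, ‖τ (a x' w)‖ ≤ ‖τ (a x' w₀)‖)
    (hc : ∀ w, ‖τ (a x w / a x w₀ - a x' w / a x' w₀)‖ < 1)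
    (h : GoodCh a G Fs τ w₀ σ t χ x) : GoodCh a G Fs τ w₀ σ t χ x' := by
  obtain ⟨h1, h2, h3⟩ := h
  have hy := gd_y a τ w₀ x h0 hm
  have hy' := gd_y a τ w₀ x' h0' hm'
  have hd : ∀ w, ‖τ (a x w / a x w₀) - τ (a x' w / a x' w₀)‖ < 1 := by
    intro w
    rw [← map_sub]
    exact hc w
  refine ⟨h1, gd_eval_congr τ hK _ _ hy hy' hd _ (gd_mnr_int Fs τ hK hFs σ t) h2, fun i => ?_⟩
  obtain ⟨w, hw⟩ := h3 i
  exact ⟨w, gd_eval_congr τ hK _ _ hy hy' hd _ (gd_chart_int G τ hK hGs i _ w) hw⟩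

private theorem gd_cc {K W : Type*} [Field K] {d : ℕ} (f : W → MvPolynomial (Fin d) K)
    (p : MvPolynomial W K) :
    constantCoeff (aeval f p) = eval (fun w => constantCoeff (f w)) p := by
  rw [aeval_def, hom_eval₂, eval]
  congr 1
  ext r
  simp

private theorem gd_det {K : Type*} [NormedField K] (hK : IsNonarchimedean (fun z : K => ‖z‖))
    {c : ℕ} (A : Matrix (Fin c) (Fin c) K) (hA : ∀ i j, ‖A i j‖ ≤ 1) : ‖A.det‖ ≤ 1 := by
  have h1 := int_det (NormedField.toAbsoluteValue K) (gK_non hK) (σ := Fin 0)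
    (A.map C) (fun i j => int_C _ _ (hA i j)) 0
  have h2 : (A.map C : Matrix (Fin c) (Fin c) (MvPolynomial (Fin 0) K)).det = C A.det :=
    (RingHom.map_det (C : K →+* MvPolynomial (Fin 0) K) A).symm
  rw [h2, coeff_zero_C] at h1
  exact h1

private theorem gd_adj {K : Type*} [NormedField K] (hK : IsNonarchimedean (fun z : K => ‖z‖))
    {c : ℕ} (A : Matrix (Fin c) (Fin c) K) (hA : ∀ i j, ‖A i j‖ ≤ 1) (i j : Fin c) :
    ‖A.adjugate i j‖ ≤ 1 := by
  rw [Matrix.adjugate_apply]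
  refine gd_det hK _ fun i' j' => ?_
  rw [Matrix.updateRow_apply]
  split_ifs
  · by_cases hij : j' = i
    · subst hij
      rw [Pi.single_eq_same, norm_one]
    · rw [Pi.single_eq_of_ne hij, norm_zero]
      exact zero_le_one
  · exact hA _ _

theorem good_expn {E K Ω W T : Type*} [Field E] [NormedField K] [CharZero K] [Fintype W]
    {c d s : ℕ} (a : Ω → W → E) (ha0 : ∀ x, a x ≠ 0) (F : Ω → Ω)
    (e : ℕ) (G : T → W → MvPolynomial W E) (hG : LocF a (fun x => a (F x)) e G)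
    (Fs : Fin s → MvPolynomial W E) (hJ : Jac a c d Fs) (τ : E →+* K)
    (hK : IsNonarchimedean (fun z : K => ‖z‖)) (hFs : ∀ i u, ‖τ ((Fs i).coeff u)‖ ≤ 1)
    (hGs : ∀ t w u, ‖τ ((G t w).coeff u)‖ ≤ 1) (w₀ : W)
    (σ : (Fin 1 ⊕ (Fin c ⊕ Fin d)) ≃ W) (t : Fin c → Fin s) (χ : ℕ → T) (x : Ω)
    (h0 : a x w₀ ≠ 0) (hm : ∀ w, ‖τ (a x w)‖ ≤ ‖τ (a x w₀)‖)
    (h : GoodCh a G Fs τ w₀ σ t χ x) (v : Fin (d + 1) → W → E) (hv : TanB a x v) (n j : ℕ) :
    ∃ (Y₀ : W → MvPolynomial (Fin d) K) (cc : Fin (n + 1) → K) (lam : K),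
      Y₀ w₀ = 1 ∧ (∀ w, constantCoeff (Y₀ w) = τ (a x w / a x w₀)) ∧
      (∀ w u, ‖coeff u (Y₀ w)‖ ≤ 1) ∧
      Expn a F n j d τ x v (fun i : Fin (n + 1) => itY (fun t w => (G t w).map τ) χ
        (fun _ => 1) Y₀ i) cc lam ∧
      (∀ (i : ℕ) w, ‖constantCoeff (itY (fun t w => (G t w).map τ) χ
        (fun _ => 1) Y₀ i w)‖ ≤ 1) ∧
      ∀ i : ℕ, ∃ w, ‖constantCoeff (itY (fun t w => (G t w).map τ) χ
        (fun _ => 1) Y₀ i w)‖ = 1 := by
  obtain ⟨hσ, hmn, hch⟩ := h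
  subst hσ
  obtain ⟨y, hyd⟩ : ∃ y : W → K, y = fun w => τ (a x w / a x (σ (Sum.inl 0))) := ⟨_, rfl⟩
  have hyw : ∀ w, y w = τ (a x w / a x (σ (Sum.inl 0))) := fun w => by rw [hyd]
  have hy1 : ∀ w, ‖y w‖ ≤ 1 := fun w => by
    rw [hyw]
    exact gd_y a τ _ x h0 hm w
  rw [← hyd] at hmn hch
  have hy0 : y (σ (Sum.inl 0)) = 1 := by rw [hyw, div_self h0, map_one]
  -- the Jacobian matrix
  have hdet : (jac σ (fun i => (Fs (t i)).map τ) y).det = eval y ((mnr Fs σ t).map τ) := by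
    unfold jac mnr
    rw [RingHom.map_det, RingHom.map_det]
    congr 1
    ext i l
    simp only [RingHom.mapMatrix_apply, Matrix.map_apply, Matrix.of_apply]
    rw [pderiv_map]
  have hjac : ∀ i l, ‖jac σ (fun i => (Fs (t i)).map τ) y i l‖ ≤ 1 := by
    intro i l
    unfold jac
    rw [Matrix.of_apply, pderiv_map]
    refine gd_eval τ hK y hy1 _ ?_
    exact int_pderiv (gAbs τ) (gAbs_non τ hK) (fun u => hFs (t i) u) _
  have hD : ‖(jac σ (fun i => (Fs (t i)).map τ) y).det‖ = 1 :=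
    le_antisymm (gd_det hK _ hjac) (by rw [hdet]; exact hmn)
  have hD0 : (jac σ (fun i => (Fs (t i)).map τ) y).det ≠ 0 := by
    intro h1
    rw [h1, norm_zero] at hD
    exact zero_ne_one hD
  obtain ⟨Q, hQd⟩ : ∃ Q, Q = (jac σ (fun i => (Fs (t i)).map τ) y)⁻¹ := ⟨_, rfl⟩
  have hQ : jac σ (fun i => (Fs (t i)).map τ) y * Q = 1 := by
    rw [hQd]
    exact Matrix.mul_nonsing_inv _ (isUnit_iff_ne_zero.2 hD0)
  have hQ1 : ∀ l i, ‖Q l i‖ ≤ 1 := by
    intro l i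
    rw [hQd, Matrix.inv_def, Matrix.smul_apply, smul_eq_mul, norm_mul, Ring.inverse_eq_inv',
      norm_inv, hD, inv_one, one_mul]
    exact gd_adj hK _ hjac l i
  have hPy : ∀ i, eval y ((Fs (t i)).map τ) = 0 := by
    intro i
    obtain ⟨k, hk⟩ := hJ.hom (t i)
    rw [hyd, gd_val τ (a x) _ _ k hk, hJ.van (t i) x, mul_zero, map_zero]
  have hPint : ∀ i, IntPoly (NormedField.toAbsoluteValue K) ((Fs (t i)).map τ) :=
    fun i => gd_intmap τ fun u => hFs (t i) u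
  have hmin : eval (a x) (mnr Fs σ t) ≠ 0 := by
    intro h1
    obtain ⟨k, hk⟩ := gd_mnr Fs hJ.hom σ t
    rw [hyd, gd_val τ (a x) _ _ k hk, h1, mul_zero, map_zero, norm_zero] at hmn
    exact absurd hmn (not_le.2 one_pos)
  have hχ : ∀ i, ∃ w, eval (a (F^[i] x)) (G (χ i) w) ≠ 0 := by
    intro i
    by_contra hcon
    push Not at hcon
    obtain ⟨w, hw⟩ := hch (i + 1)
    obtain ⟨cst, hcst⟩ := (chart_locF a ha0 F e G hG i).2.1 (fun k : Fin i => χ k) x
    have h1 : eval (a x) (chart G (i + 1) (fun k => χ k) w) = 0 := by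
      have h2 : eval (a x) (chart G (i + 1) (fun k => χ k) w) =
          eval (fun w' => cst * a (F^[i] x) w') (G (χ i) w) := by
        rw [chart, gd_bind]
        congr 2
        funext w'
        exact hcst w'
      rw [h2, gd_smul _ e (hG.1 _ _), hcon w, mul_zero]
    rw [hyd, gd_val τ (a x) _ _ _ ((chart_locF a ha0 F e G hG (i + 1)).1 _ w), h1, mul_zero,
      map_zero, norm_zero] at hw
    exact absurd hw (not_le.2 one_pos)
  obtain ⟨cc, lam, hE⟩ := expc a ha0 F e G hG Fs hJ x σ t h0 hmin τ y hyw Q hQ v hv n j χ hχ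
    (fun _ => 1) (fun _ => one_ne_zero)
  have hcc : ∀ w, constantCoeff (newt σ (fun i => (Fs (t i)).map τ) y Q (j + 1) w) = y w :=
    fun w => newt_const σ _ y Q hPy (j + 1) w
  have hit : ∀ i w, constantCoeff (itY (fun t w => (G t w).map τ) χ (fun _ => 1)
      (newt σ (fun i => (Fs (t i)).map τ) y Q (j + 1)) i w) =
      eval y ((chart G i (fun k => χ k) w).map τ) := by
    intro i w
    have h1 : (fun w => constantCoeff (newt σ (fun i => (Fs (t i)).map τ) y Q (j + 1) w)) = y :=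
      funext hcc
    rw [itY_chart_one, gd_cc, h1]
  have hle : ∀ (i : ℕ) w, ‖eval y ((chart G i (fun k => χ k) w).map τ)‖ ≤ 1 :=
    fun i w => gd_eval τ hK y hy1 _ (gd_chart_int G τ hK hGs i _ w)
  refine ⟨newt σ (fun i => (Fs (t i)).map τ) y Q (j + 1), cc, lam, ?_, ?_, ?_, hE, ?_, ?_⟩
  · rw [newt_inl, hy0, C_1]
  · intro w
    rw [hcc, hyw]
  · intro w u
    exact int_newt (NormedField.toAbsoluteValue K) (gK_non hK) σ _ y Q hPint hy1 hQ1 (j + 1) w u
  · intro i w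
    rw [hit]
    exact hle i w
  · intro i
    obtain ⟨w, hw⟩ := hch i
    exact ⟨w, by rw [hit]; exact le_antisymm (hle i w) hw⟩

end Pool.Agent.LLX
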