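import Pool.Agent.LLX.Rankdet
import Pool.Agent.LLX.Goodx
import Pool.Agent.Helper63.SAND.Hilb2

/-!
# LLX GAIN: the determinant is small at a good place

`trunc`. Put `Z w = Y w - C (yc w)`: its constant coefficient has norm `≤ ε` and all its
coefficients have norm `≤ 1`. Write `H(yc + Z) = ∑_γ h_γ Z^γ` with
`H' = aeval (fun w => X w + C (yc w)) H = ∑ h_γ X^γ` (integral coefficients `h_γ`, `int_aeval`), so
`aeval Y H = aeval Z H'`. Put `Q = aeval (fun w => X w - C (yc w)) (∑_{|γ| < D'} h_γ X^γ)`, of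
total degree `≤ D' - 1` (if `D' = 0` it is `0`). The coefficient at `s` of `Z^γ` (product of `|γ|`
factors) has norm `≤ ε ^ (|γ| - |s|)`: in each term of the expansion at least `|γ| - |s|` factors
contribute their constant coefficient. (Clean way: the sets
`{P | ∀ s, ‖coeff s P‖ ≤ ε ^ (m - |s|)}` (natural subtraction) are stable under addition, contain
`Z w` for `m = 1`, and the product of elements of the sets for `m`, `m'` is in the set for
`m + m'`.) So for `|γ| ≥ D'` it is `≤ ε ^ (D' - |s|)`.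

`reduce`. `formsOn a m` has dimension `hil a m`; choose monomials `m_s'` of degree `m` whose
functions form a basis of it (`monomial_basis` gives `hil a m` independent ones, hence a basis
by dimension). So every monomial `X^μ` of degree `m` is `∑ c_s' m_s'` modulo forms vanishing on
`a`; over `K` apply `τ` to the coefficients; then extend linearly to all forms over `K` of degree
`m`. `hkill` is the property that the expansions kill the forms vanishing on `a`.

`gain_det`. With `Q_{κ,c}` from `trunc` (for the class `κ`, `yc = yc κ`, and `H κ c`); homogenise: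
`Q^h = ∑ q_μ X^μ X_{w₀}^(D'-1-|μ|)`, which has the same value at `Y i` because `Y i w₀ = 1`. By
`reduce`: `coeff s (aeval (Y i) Q^h) = ∑_s' coeff s (aeval (Y i) m_s') R_{κ,c,s'}` for `|s| < j`,
`κ = cl i`. So the matrix `A'` with the entries `coeff s (aeval (Y i) Q_{cl i, c})` factors through
`Fin Kc × Fin (hil a (D'-1))`, its entries have norm `≤ 1` (difference of the entries of the full
matrix, which are integral, and of `A''`), and `A'' = A - A'` satisfies
`‖A'' (i,s) c‖ ≤ ε ^ (D' - |s|)`. Apply `rankdet` with `n (i,s) = D' - |s|` and the absolute value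
`‖.‖` of `K`.
-/

open MvPolynomial

namespace Pool.Agent.LLX

open Pool.Agent.Helper63.SAND

/-- The absolute value given by the norm. -/
private noncomputable def gainV (K : Type*) [NormedField K] : AbsoluteValue K ℝ where
  toFun := fun z => ‖z‖
  map_mul' := norm_mul
  nonneg' := norm_nonneg
  eq_zero' := fun _ => norm_eq_zero
  add_le' := norm_add_le

private theorem gain_sum {K : Type*} [NormedField K] (hK : IsNonarchimedean (fun z : K => ‖z‖))
    {ι : Type*} (S : Finset ι) (f : ι → K) (B : ℝ) (hB : 0 ≤ B) (h : ∀ i ∈ S, ‖f i‖ ≤ B) :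
    ‖∑ i ∈ S, f i‖ ≤ B := by
  classical
  induction S using Finset.induction_on with
  | empty => simpa using hB
  | insert a S ha ih =>
    rw [Finset.sum_insert ha]
    refine (hK _ _).trans (max_le (h a (Finset.mem_insert_self a S)) (ih ?_))
    intro i hi
    exact h i (Finset.mem_insert_of_mem hi)

/-- The filtration. -/
private def gainF {K : Type*} [NormedField K] (d : ℕ) (ε : ℝ) (m : ℕ)
    (P : MvPolynomial (Fin d) K) : Prop :=
  ∀ s : Fin d →₀ ℕ, ‖coeff s P‖ ≤ ε ^ (m - s.degree)

section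

variable {K : Type*} [NormedField K] (hK : IsNonarchimedean (fun z : K => ‖z‖)) {d : ℕ} {ε : ℝ}
  (hε : 0 < ε) (hε1 : ε ≤ 1)

include hK hε in
private theorem gainF_sum {ι : Type*} (S : Finset ι) (f : ι → MvPolynomial (Fin d) K) (m : ℕ)
    (h : ∀ i ∈ S, gainF d ε m (f i)) : gainF d ε m (∑ i ∈ S, f i) := by
  intro s
  rw [coeff_sum]
  exact gain_sum hK S _ _ (pow_nonneg hε.le _) fun i hi => h i hi s

include hK hε hε1 in
private theorem gainF_mul {m m' : ℕ} {P Q : MvPolynomial (Fin d) K} (hP : gainF d ε m P)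
    (hQ : gainF d ε m' Q) : gainF d ε (m + m') (P * Q) := by
  classical
  intro s
  rw [coeff_mul]
  refine gain_sum hK _ _ _ (pow_nonneg hε.le _) fun q hq => ?_
  rw [norm_mul]
  refine (mul_le_mul (hP q.1) (hQ q.2) (norm_nonneg _) (pow_nonneg hε.le _)).trans ?_
  rw [← pow_add]
  refine pow_le_pow_of_le_one hε.le hε1 ?_
  have h1 : q.1.degree + q.2.degree = s.degree := by
    rw [← (Finset.HasAntidiagonal.mem_antidiagonal.1 hq), map_add]
  omega

include hε hε1 in
private theorem gainF_mono {m m' : ℕ} (hm : m' ≤ m) {P : MvPolynomial (Fin d) K}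
    (hP : gainF d ε m P) : gainF d ε m' P := by
  intro s
  refine (hP s).trans (pow_le_pow_of_le_one hε.le hε1 ?_)
  omega

private theorem gainF_one : gainF (K := K) d ε 0 1 := by
  classical
  intro s
  rw [Nat.zero_sub, pow_zero, coeff_one]
  split_ifs <;> simp

include hK hε hε1 in
private theorem gainF_pow {m : ℕ} {P : MvPolynomial (Fin d) K} (hP : gainF d ε m P) (k : ℕ) :
    gainF d ε (k * m) (P ^ k) := by
  induction k with
  | zero => simpa using gainF_one
  | succ k ih =>
    rw [pow_succ, Nat.succ_mul]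
    exact gainF_mul hK hε hε1 ih hP

include hK hε hε1 in
private theorem gainF_prod {W : Type*} (S : Finset W) (Z : W → MvPolynomial (Fin d) K)
    (hZ : ∀ w, gainF d ε 1 (Z w)) (γ : W → ℕ) :
    gainF d ε (∑ w ∈ S, γ w) (∏ w ∈ S, Z w ^ γ w) := by
  classical
  induction S using Finset.induction_on with
  | empty => simpa using gainF_one
  | insert a S ha ih =>
    rw [Finset.prod_insert ha, Finset.sum_insert ha]
    refine gainF_mul hK hε hε1 ?_ ih
    have := gainF_pow hK hε hε1 (hZ a) (γ a)
    rwa [mul_one] at this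

end

theorem trunc {K W : Type*} [NormedField K] (hK : IsNonarchimedean (fun z : K => ‖z‖))
    [Fintype W] (d : ℕ) (ε : ℝ) (hε : 0 < ε) (hε1 : ε ≤ 1) (yc : W → K) (hyc : ∀ w, ‖yc w‖ ≤ 1)
    (H : MvPolynomial W K) (hH : ∀ u, ‖coeff u H‖ ≤ 1) (D' : ℕ) :
    ∃ Q : MvPolynomial W K, Q.totalDegree ≤ D' - 1 ∧
      ∀ Y : W → MvPolynomial (Fin d) K, (∀ w u, ‖coeff u (Y w)‖ ≤ 1) →
      (∀ w, ‖constantCoeff (Y w) - yc w‖ ≤ ε) → ∀ s : Fin d →₀ ℕ,
        ‖coeff s (aeval Y H - aeval Y Q)‖ ≤ ε ^ (D' - s.degree) := by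
  classical
  have hv : IsNonarchimedean (gainV K) := hK
  set H' : MvPolynomial W K := aeval (fun w => X w + C (yc w)) H with hH'
  have hint : ∀ u, ‖coeff u H'‖ ≤ 1 := by
    have h1 : IntPoly (gainV K) H' := int_aeval (gainV K) hv _
      (fun w => int_add (gainV K) hv (int_X (gainV K) w) (int_C (gainV K) (yc w) (hyc w))) H hH
    exact h1
  set B : MvPolynomial W K := ∑ γ ∈ H'.support.filter (fun γ => γ.degree < D'),
    monomial γ (coeff γ H') with hB
  have htB : B.totalDegree ≤ D' - 1 := by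
    rw [hB]
    refine totalDegree_finsetSum_le fun γ hγ => ?_
    have h2 := (Finset.mem_filter.1 hγ).2
    refine (totalDegree_monomial_le γ _).trans ?_
    have h3 : (γ.sum fun _ => id) = γ.degree := rfl
    rw [h3]
    omega
  refine ⟨aeval (fun w => X w - C (yc w)) B, ?_, ?_⟩
  · rw [hB, map_sum]
    refine totalDegree_finsetSum_le fun γ hγ => ?_
    have h2 := (Finset.mem_filter.1 hγ).2
    rw [aeval_monomial]
    refine (totalDegree_mul _ _).trans ?_
    rw [algebraMap_eq, totalDegree_C, zero_add, Finsupp.prod]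
    refine (totalDegree_finsetProd _ _).trans ?_
    have h3 : ∀ w ∈ γ.support, ((X w - C (yc w) : MvPolynomial W K) ^ γ w).totalDegree ≤ γ w := by
      intro w _
      refine (totalDegree_pow _ _).trans ?_
      have h4 : (X w - C (yc w) : MvPolynomial W K).totalDegree ≤ 1 := by
        refine (totalDegree_sub _ _).trans (max_le ?_ ?_)
        · exact (totalDegree_X w).le
        · rw [totalDegree_C]
          exact Nat.zero_le 1
      calc _ ≤ γ w * 1 := Nat.mul_le_mul_left _ h4
        _ = γ w := mul_one _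
    refine (Finset.sum_le_sum h3).trans ?_
    have h5 : ∑ w ∈ γ.support, γ w = γ.degree := rfl
    rw [h5]
    omega
  · intro Y hY1 hY2 s
    set Z : W → MvPolynomial (Fin d) K := fun w => Y w - C (yc w) with hZ
    have e1 : aeval Y (aeval (fun w => X w - C (yc w)) B : MvPolynomial W K) = aeval Z B := by
      rw [← AlgHom.comp_apply, comp_aeval]
      congr 1
      congr 1
      funext w
      rw [map_sub, aeval_X, aeval_C, algebraMap_eq, hZ]
    have e2 : aeval Y H = aeval Z H' := by
      rw [hH', ← AlgHom.comp_apply, comp_aeval]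
      congr 1
      congr 1
      funext w
      rw [map_add, aeval_X, aeval_C, algebraMap_eq, hZ]
      ring
    have e3 : H' - B = ∑ γ ∈ H'.support.filter (fun γ => ¬ γ.degree < D'),
        monomial γ (coeff γ H') := by
      rw [sub_eq_iff_eq_add, hB, add_comm, Finset.sum_filter_add_sum_filter_not]
      exact as_sum H'
    rw [e1, e2, ← map_sub, e3, map_sum]
    have hZF : ∀ w, gainF d ε 1 (Z w) := by
      intro w u
      by_cases hu : u = 0
      · subst hu
        rw [hZ]
        simp only [coeff_sub, coeff_zero_C, map_zero, Nat.sub_zero, pow_one]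
        exact hY2 w
      · have h6 : 1 - u.degree = 0 := by
          have : u.degree ≠ 0 := fun h => hu ((Finsupp.degree_eq_zero_iff u).1 h)
          omega
        rw [h6, pow_zero, hZ]
        simp only [coeff_sub, coeff_C, if_neg (Ne.symm hu), sub_zero]
        exact hY1 w u
    refine gainF_sum hK hε _ _ D' (fun γ hγ => ?_) s
    have h7 : D' ≤ γ.degree := not_lt.1 (Finset.mem_filter.1 hγ).2
    rw [aeval_monomial]
    refine gainF_mono hε hε1 h7 ?_
    have h8 : gainF d ε 0 (algebraMap K (MvPolynomial (Fin d) K) (coeff γ H')) := by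
      intro u
      rw [Nat.zero_sub, pow_zero, algebraMap_eq, coeff_C]
      split_ifs
      · exact hint γ
      · simp
    have h9 := gainF_prod hK hε hε1 γ.support Z hZF γ
    have h10 := gainF_mul hK hε hε1 h8 h9
    rw [zero_add] at h10
    exact h10

theorem reduce {E K Ω W : Type*} [Field E] [Field K] [Fintype W] (a : Ω → W → E) (τ : E →+* K)
    (m : ℕ) :
    ∃ ms : Fin (hil a m) → (W →₀ ℕ), (∀ s', (ms s').degree = m) ∧
      ∀ Q : MvPolynomial W K, Q.IsHomogeneous m → ∃ R : Fin (hil a m) → K,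
        ∀ (d j : ℕ) (Y : W → MvPolynomial (Fin d) K),
        (∀ (P : MvPolynomial W E) (k : ℕ), P.IsHomogeneous k → Van a P →
          aeval Y (P.map τ) ∈ OrdI K d j) →
        aeval Y Q - ∑ s', C (R s') * aeval Y (monomial (ms s') (1 : K)) ∈ OrdI K d j := by
  classical
  obtain ⟨ms, hms, hli⟩ := monomial_basis a m
  have hfin : FiniteDimensional E (formsOn a m) := by
    rw [formsOn_eq_span]
    have : (mfun a '' {α | α.degree = m}) = mfun a '' (expo W m : Set (W →₀ ℕ)) := by
      congr 1
      ext α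
      exact mem_expo.symm
    rw [this]
    exact FiniteDimensional.span_of_finite E ((expo W m).finite_toSet.image _)
  have hle : Submodule.span E (Set.range fun i => mfun a (ms i)) ≤ formsOn a m := by
    rw [Submodule.span_le, formsOn_eq_span]
    rintro _ ⟨i, rfl⟩
    exact Submodule.subset_span ⟨ms i, hms i, rfl⟩
  have hspan : Submodule.span E (Set.range fun i => mfun a (ms i)) = formsOn a m := by
    refine Submodule.eq_of_le_of_finrank_eq hle ?_
    have h1 : LinearIndependent E fun i => mfun a (ms i) := hli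
    rw [finrank_span_eq_card h1, Fintype.card_fin]
    rfl
  have hc : ∀ μ : W →₀ ℕ, ∃ c : Fin (hil a m) → E, μ.degree = m →
      mfun a μ = ∑ s', c s' • mfun a (ms s') := by
    intro μ
    by_cases hμ : μ.degree = m
    · have h2 : mfun a μ ∈ Submodule.span E (Set.range fun i => mfun a (ms i)) := by
        rw [hspan, formsOn_eq_span]
        exact Submodule.subset_span ⟨μ, hμ, rfl⟩
      obtain ⟨c, hc⟩ := (Submodule.mem_span_range_iff_exists_fun E).1 h2
      exact ⟨c, fun _ => hc.symm⟩
    · exact ⟨0, fun h => absurd h hμ⟩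
  choose c hc using hc
  refine ⟨ms, hms, fun Q hQ => ⟨fun s' => ∑ μ ∈ Q.support, coeff μ Q * τ (c μ s'), ?_⟩⟩
  intro d j Y hY
  have hkey : ∀ μ : W →₀ ℕ, μ.degree = m →
      aeval Y (monomial μ (1 : K)) - ∑ s', C (τ (c μ s')) * aeval Y (monomial (ms s') (1 : K)) ∈
        OrdI K d j := by
    intro μ hμ
    have h3 := hY (monomial μ (1 : E) - ∑ s', C (c μ s') * monomial (ms s') (1 : E)) m ?_ ?_
    · rw [map_sub, map_sum] at h3
      simp only [map_mul, map_C, map_monomial, map_one] at h3
      rw [map_sub, map_sum] at h3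
      simp only [map_mul, aeval_C, algebraMap_eq] at h3
      exact h3
    · refine (isHomogeneous_monomial _ hμ).sub ?_
      refine IsHomogeneous.sum _ _ _ fun s' _ => ?_
      have := (isHomogeneous_C W (c μ s')).mul (isHomogeneous_monomial (1 : E) (hms s'))
      rwa [zero_add] at this
    · intro x
      have h4 := congrFun (hc μ hμ) x
      rw [Finset.sum_apply] at h4
      simp only [Pi.smul_apply, smul_eq_mul, mfun] at h4
      rw [map_sub, map_sum, h4]
      simp only [map_mul, eval_C]
      exact sub_self _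
  have h5 : aeval Y Q = ∑ μ ∈ Q.support, C (coeff μ Q) * aeval Y (monomial μ (1 : K)) := by
    conv_lhs => rw [Q.as_sum, map_sum]
    refine Finset.sum_congr rfl fun μ _ => ?_
    rw [aeval_monomial, aeval_monomial, map_one, one_mul, algebraMap_eq]
  have h6 : aeval Y Q - ∑ s', C (∑ μ ∈ Q.support, coeff μ Q * τ (c μ s')) *
        aeval Y (monomial (ms s') (1 : K)) =
      ∑ μ ∈ Q.support, C (coeff μ Q) * (aeval Y (monomial μ (1 : K)) -
        ∑ s', C (τ (c μ s')) * aeval Y (monomial (ms s') (1 : K))) := by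
    simp only [mul_sub, Finset.sum_sub_distrib, map_sum, map_mul, Finset.sum_mul, Finset.mul_sum]
    rw [h5, Finset.sum_comm (s := Finset.univ)]
    simp only [mul_assoc]
  rw [h6]
  refine Ideal.sum_mem _ fun μ hμ => Ideal.mul_mem_left _ _ (hkey μ ?_)
  have h7 := hQ (mem_support_iff.1 hμ)
  rw [Finsupp.degree_eq_weight_one (R := ℕ)]
  exact h7

/-- Homogenisation with respect to the variable `w₀`. -/
private theorem gain_hom {K W : Type*} [Field K] [Fintype W] (w₀ : W) (m : ℕ)
    (Q : MvPolynomial W K) (hQ : Q.totalDegree ≤ m) :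
    ∃ Qh : MvPolynomial W K, Qh.IsHomogeneous m ∧
      ∀ (d : ℕ) (Y : W → MvPolynomial (Fin d) K), Y w₀ = 1 → aeval Y Qh = aeval Y Q := by
  classical
  refine ⟨∑ μ ∈ Q.support, monomial μ (coeff μ Q) * X w₀ ^ (m - μ.degree), ?_, ?_⟩
  · refine IsHomogeneous.sum _ _ _ fun μ hμ => ?_
    have h1 : μ.degree ≤ m := (le_totalDegree hμ).trans hQ
    have h2 := (isHomogeneous_monomial (coeff μ Q) (rfl : μ.degree = μ.degree)).mul
      ((isHomogeneous_X K w₀).pow (m - μ.degree))
    rw [one_mul, Nat.add_sub_cancel' h1] at h2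
    exact h2
  · intro d Y hY
    rw [map_sum]
    conv_rhs => rw [Q.as_sum, map_sum]
    refine Finset.sum_congr rfl fun μ _ => ?_
    rw [map_mul, map_pow, aeval_X, hY, one_pow, mul_one]

theorem gain_det {E K Ω W : Type*} [Field E] [NormedField K]
    (hK : IsNonarchimedean (fun z : K => ‖z‖)) [Fintype W] (a : Ω → W → E) (τ : E →+* K)
    (d j M Kc D' : ℕ) (ε : ℝ) (hε : 0 < ε) (hε1 : ε ≤ 1) (cl : Fin M → Fin Kc)
    (w₀ : Fin Kc → W) (yc : Fin Kc → W → K) (hyc : ∀ κ w, ‖yc κ w‖ ≤ 1)
    (Y : Fin M → W → MvPolynomial (Fin d) K) (hY0 : ∀ i, Y i (w₀ (cl i)) = 1)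
    (hY1 : ∀ i w u, ‖coeff u (Y i w)‖ ≤ 1)
    (hY2 : ∀ i w, ‖constantCoeff (Y i w) - yc (cl i) w‖ ≤ ε)
    (hkill : ∀ i, ∀ (P : MvPolynomial W E) (k : ℕ), P.IsHomogeneous k → Van a P →
          aeval (Y i) (P.map τ) ∈ OrdI K d j)
    (H : Fin Kc → Fin M × JI d j → MvPolynomial W K) (hH : ∀ κ c u, ‖coeff u (H κ c)‖ ≤ 1) :
    ‖(Matrix.of fun r c : Fin M × JI d j => coeff r.2.1 (aeval (Y r.1) (H (cl r.1) c))).det‖ ≤
      ε ^ ((∑ r : Fin M × JI d j, (D' - r.2.1.degree)) - Kc * hil a (D' - 1) * D') := by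
  classical
  have hv : IsNonarchimedean (gainV K) := hK
  choose Q hQ1 hQ2 using fun κ c => trunc hK d ε hε hε1 (yc κ) (hyc κ) (H κ c) (hH κ c) D'
  choose Qh hQh1 hQh2 using fun κ c => gain_hom (w₀ κ) (D' - 1) (Q κ c) (hQ1 κ c)
  obtain ⟨ms, -, hms2⟩ := reduce a τ (D' - 1)
  choose R hR using fun κ c => hms2 (Qh κ c) (hQh1 κ c)
  set A' : Matrix (Fin M × JI d j) (Fin M × JI d j) K := Matrix.of fun r c =>
    coeff r.2.1 (aeval (Y r.1) (Q (cl r.1) c)) with hA'
  set A'' : Matrix (Fin M × JI d j) (Fin M × JI d j) K := Matrix.of fun r c =>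
    coeff r.2.1 (aeval (Y r.1) (H (cl r.1) c) - aeval (Y r.1) (Q (cl r.1) c)) with hA''
  have hsum : (Matrix.of fun r c : Fin M × JI d j =>
      coeff r.2.1 (aeval (Y r.1) (H (cl r.1) c))) = A' + A'' := by
    ext r c
    simp only [hA', hA'', Matrix.add_apply, Matrix.of_apply, coeff_sub]
    ring
  have h2 : ∀ r c, ‖A'' r c‖ ≤ ε ^ (D' - r.2.1.degree) := by
    intro r c
    exact hQ2 (cl r.1) c (Y r.1) (hY1 r.1) (hY2 r.1) r.2.1
  have h1 : ∀ r c, ‖A' r c‖ ≤ 1 := by
    intro r c
    have h3 : A' r c = coeff r.2.1 (aeval (Y r.1) (H (cl r.1) c)) + -A'' r c := by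
      simp only [hA', hA'', Matrix.of_apply, coeff_sub]
      ring
    rw [h3]
    refine (hK _ _).trans (max_le ?_ ?_)
    · have h4 : IntPoly (gainV K) (aeval (Y r.1) (H (cl r.1) c)) :=
        int_aeval (gainV K) hv (Y r.1) (fun w => hY1 r.1 w) (H (cl r.1) c) (hH (cl r.1) c)
      exact h4 r.2.1
    · change ‖-A'' r c‖ ≤ 1
      rw [norm_neg]
      exact (h2 r c).trans (pow_le_one₀ hε.le hε1)
  set P : Matrix (Fin M × JI d j) (Fin Kc × Fin (hil a (D' - 1))) K := Matrix.of fun r q =>
    if cl r.1 = q.1 then coeff r.2.1 (aeval (Y r.1) (monomial (ms q.2) (1 : K))) else 0 with hP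
  set Qm : Matrix (Fin Kc × Fin (hil a (D' - 1))) (Fin M × JI d j) K := Matrix.of fun q c =>
    R q.1 c q.2 with hQm
  have hPQ : A' = P * Qm := by
    ext r c
    rw [Matrix.mul_apply, Fintype.sum_prod_type]
    simp only [hA', hP, hQm, Matrix.of_apply, ite_mul, zero_mul]
    rw [Finset.sum_eq_single (cl r.1)]
    · simp only [if_true]
      have h5 := hR (cl r.1) c d j (Y r.1) (hkill r.1) r.2.1 r.2.2
      rw [coeff_sub, sub_eq_zero, hQh2 (cl r.1) c d (Y r.1) (hY0 r.1), coeff_sum] at h5
      rw [h5]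
      refine Finset.sum_congr rfl fun s' _ => ?_
      rw [coeff_C_mul, mul_comm]
    · intro κ _ hκ
      refine Finset.sum_eq_zero fun s' _ => ?_
      rw [if_neg (Ne.symm hκ)]
    · intro h
      exact absurd (Finset.mem_univ _) h
  have h6 := rankdet (gainV K) hv A' A'' P Qm hPQ h1 ε hε.le hε1 (fun r => D' - r.2.1.degree) D'
    (fun r => Nat.sub_le _ _) h2
  rw [hsum]
  rw [Fintype.card_prod, Fintype.card_fin, Fintype.card_fin] at h6
  exact h6

end Pool.Agent.LLX
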