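import Pool.Agent.LLX.Gain

/-!
# LLX GAINX: expansions at a good place, with the gain from residue classes

`goodx`: for every point choose a coordinate `w₀` of maximal absolute value, then `good_exists`
and `good_expn`; `IntPoly` of the expansions by `itY_int`.

`gainx`: for every class `κ` which contains a point choose a representative `x_κ = x i_κ` and
`σ, t, χ` by `good_exists` for it; by `good_congr` they are good for all the points of the class.
Let `Y₀ i` be the expansions of `good_expn`, `Y i q = itY G χ 1 (Y₀ i) q` with the `χ` of the class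
of `i`. By `itY_chart_one` the entry `(i,s), c` of `Gh Y g` is
`coeff s (aeval (Y₀ i) (H (cl i) c))` where
`H κ c = ∏_q ((chart G q.1 χ_κ q.2).map τ) ^ (g c q)` is an integral polynomial
(`chart_int`-like / `int_prod`, `int_pow`; `H κ c = 0` for the empty classes `κ`). Take
`yc κ w = τ (a x_κ w / a x_κ (w₀ κ))` (and `0` for the empty classes) and apply `gain_det`
(`hY2` is `hclose`). `hkill` is `Expn.kill` for polynomials in the variables of the block `0`:
`rename (fun w => (0, w)) P` is block homogeneous of multidegree `Pi.single 0 k`.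
-/

open MvPolynomial

namespace Pool.Agent.LLX

open Pool.Agent.Helper63.SAND

/-- The absolute value given by the norm. -/
private noncomputable def gxV (K : Type*) [NormedField K] : AbsoluteValue K ℝ where
  toFun := fun z => ‖z‖
  map_mul' := norm_mul
  nonneg' := norm_nonneg
  eq_zero' := fun _ => norm_eq_zero
  add_le' := norm_add_le

private theorem gx_chart_int {E K W T : Type*} [Field E] [Field K] (v : AbsoluteValue K ℝ)
    (hv : IsNonarchimedean v) (τ : E →+* K) (G : T → W → MvPolynomial W E)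
    (hG : ∀ t w, IntPoly v ((G t w).map τ)) (i : ℕ) :
    ∀ (χ : Fin i → T) (w : W), IntPoly v ((chart G i χ w).map τ) := by
  induction i with
  | zero =>
    intro χ w
    show IntPoly v ((X w : MvPolynomial W E).map τ)
    rw [map_X]
    exact int_X v w
  | succ i ih =>
    intro χ w
    show IntPoly v ((bind₁ (chart G i (Fin.init χ)) (G (χ (Fin.last i)) w)).map τ)
    rw [map_bind₁]
    exact int_aeval v hv _ (fun w => ih _ w) _ (hG _ _)

private theorem gx_bhom {E W : Type*} [Field E] [Fintype W] {n k : ℕ} {P : MvPolynomial W E}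
    (hP : P.IsHomogeneous k) :
    BHom (Pi.single 0 k : Fin (n + 1) → ℕ) (rename (fun w => ((0 : Fin (n + 1)), w)) P) := by
  classical
  intro s hs
  obtain ⟨u, rfl, hu⟩ := coeff_rename_ne_zero _ _ _ hs
  have h1 := hP hu
  rw [Finsupp.weight_apply] at h1 ⊢
  rw [Finsupp.sum_mapDomain_index
    (h := fun (q : Fin (n + 1) × W) (c : ℕ) => c • (Pi.single q.1 1 : Fin (n + 1) → ℕ))
    (fun _ => zero_smul _ _) (fun _ _ _ => add_smul _ _ _)]
  funext i
  rw [Finsupp.sum, Finset.sum_apply]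
  by_cases hi : i = 0
  · subst hi
    rw [Pi.single_eq_same, ← h1, Finsupp.sum]
    refine Finset.sum_congr rfl fun w _ => ?_
    rw [Pi.smul_apply, Pi.single_eq_same]
    rfl
  · rw [Pi.single_eq_of_ne hi]
    refine Finset.sum_eq_zero fun w _ => ?_
    rw [Pi.smul_apply, Pi.single_eq_of_ne hi, smul_zero]

private theorem gx_kill {E K Ω W : Type*} [Field E] [Field K] [Fintype W] {a : Ω → W → E}
    {F : Ω → Ω} {n j d : ℕ} {τ : E →+* K} {x : Ω} {v : Fin (d + 1) → W → E}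
    {Y : Fin (n + 1) → W → MvPolynomial (Fin d) K} {cc : Fin (n + 1) → K} {lam : K}
    (h : Expn a F n j d τ x v Y cc lam) (P : MvPolynomial W E) (k : ℕ) (hP : P.IsHomogeneous k)
    (hV : Van a P) : aeval (Y 0) (P.map τ) ∈ OrdI K d j := by
  have h1 := h.kill (Pi.single 0 k) (rename (fun w => ((0 : Fin (n + 1)), w)) P) (gx_bhom hP) (by
    intro x'
    rw [eval_rename]
    exact hV x')
  rw [map_rename, aeval_rename] at h1
  exact h1

variable {E Ω W T : Type*} [Field E] [CharZero E] [IsAlgClosed E] [Fintype W] [Fintype T]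

private theorem gx_le {E K σ I : Type*} [Field E] [NormedField K] (τ : E →+* K) (S : Finset E)
    (hS : ∀ b ∈ S, ‖τ b‖ ≤ 1) (P : I → MvPolynomial σ E)
    (h : ∀ i u, (P i).coeff u ≠ 0 → (P i).coeff u ∈ S) (i : I) (u : σ →₀ ℕ) :
    ‖τ ((P i).coeff u)‖ ≤ 1 := by
  by_cases h0 : (P i).coeff u = 0
  · rw [h0, map_zero, norm_zero]
    exact zero_le_one
  · exact hS _ (h i u h0)

theorem goodx {c d s : ℕ} (a : Ω → W → E) (ha0 : ∀ x, a x ≠ 0) (hcl : Clo a) (F : Ω → Ω)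
    (e : ℕ) (G : T → W → MvPolynomial W E) (hG : LocF a (fun x => a (F x)) e G)
    (Fs : Fin s → MvPolynomial W E) (hJ : Jac a c d Fs) :
    ∃ S : Finset E, ∀ (K : Type) [NormedField K] [CharZero K] (τ : E →+* K),
      IsNonarchimedean (fun z : K => ‖z‖) → (∀ b ∈ S, ‖τ b‖ ≤ 1) →
      ∀ (x : Ω) (v : Fin (d + 1) → W → E), TanB a x v → ∀ n j : ℕ,
      ∃ (Y : Fin (n + 1) → W → MvPolynomial (Fin d) K) (cc : Fin (n + 1) → K) (lam : K),
        Expn a F n j d τ x v Y cc lam ∧ (∀ i w, ‖constantCoeff (Y i w)‖ ≤ 1) ∧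
        (∀ i, ∃ w, ‖constantCoeff (Y i w)‖ = 1) ∧ ∀ i w u, ‖coeff u (Y i w)‖ ≤ 1 := by
  obtain ⟨S, hSF, hSG, hS⟩ := good_exists a ha0 hcl F e G hG Fs hJ
  refine ⟨S, ?_⟩
  intro K _ _ τ hK hSb x v hv n j
  obtain ⟨w₁, hw₁⟩ : ∃ w, a x w ≠ 0 := Function.ne_iff.1 (ha0 x)
  have : Nonempty W := ⟨w₁⟩
  obtain ⟨w₀, hm⟩ := Finite.exists_max (fun w => ‖τ (a x w)‖)
  have h0 : a x w₀ ≠ 0 := by
    intro h
    have h1 := hm w₁
    rw [h, map_zero, norm_zero] at h1
    have h2 : 0 < ‖τ (a x w₁)‖ := norm_pos_iff.2 ((map_ne_zero τ).2 hw₁)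
    linarith
  obtain ⟨σ, t, χ, hgood⟩ := hS K τ hK hSb x w₀ h0 hm
  have hFs : ∀ i u, ‖τ ((Fs i).coeff u)‖ ≤ 1 := gx_le τ S hSb Fs hSF
  have hGs : ∀ t w u, ‖τ ((G t w).coeff u)‖ ≤ 1 := fun t => gx_le τ S hSb (G t) (hSG t)
  obtain ⟨Y₀, cc, lam, h1, h2, h3, h4, h5, h6⟩ := good_expn a ha0 F e G hG Fs hJ τ hK hFs hGs w₀
    σ t χ x h0 hm hgood v hv n j
  refine ⟨_, cc, lam, h4, fun i w => h5 i w, fun i => h6 i, ?_⟩
  intro i w
  have hv' : IsNonarchimedean (gxV K) := hK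
  exact itY_int (gxV K) hv' (fun t w => (G t w).map τ) (fun t w u => by
    rw [coeff_map]
    exact hGs t w u) χ (fun _ => 1) (fun _ => (map_one (gxV K)).le) Y₀ (fun w u => h3 w u) i w

theorem gainx {c d s : ℕ} (a : Ω → W → E) (ha0 : ∀ x, a x ≠ 0) (hcl : Clo a) (F : Ω → Ω)
    (e : ℕ) (G : T → W → MvPolynomial W E) (hG : LocF a (fun x => a (F x)) e G)
    (Fs : Fin s → MvPolynomial W E) (hJ : Jac a c d Fs) :
    ∃ S : Finset E, ∀ (K : Type) [NormedField K] [CharZero K] (τ : E →+* K),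
      IsNonarchimedean (fun z : K => ‖z‖) → (∀ b ∈ S, ‖τ b‖ ≤ 1) →
      ∀ (ε : ℝ), 0 < ε → ε < 1 → ∀ (n j M Kc D' : ℕ) (x : Fin M → Ω)
      (v : Fin M → Fin (d + 1) → W → E), (∀ i, TanB a (x i) (v i)) →
      ∀ (cl : Fin M → Fin Kc) (w₀ : Fin Kc → W), (∀ i, a (x i) (w₀ (cl i)) ≠ 0) →
      (∀ i w, ‖τ (a (x i) w)‖ ≤ ‖τ (a (x i) (w₀ (cl i)))‖) →
      (∀ i i', cl i = cl i' → ∀ w, ‖τ (a (x i) w / a (x i) (w₀ (cl i)) -
        a (x i') w / a (x i') (w₀ (cl i)))‖ ≤ ε) →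
      ∃ (Y : Fin M → Fin (n + 1) → W → MvPolynomial (Fin d) K) (cc : Fin M → Fin (n + 1) → K)
        (lam : Fin M → K),
        (∀ i, Expn a F n j d τ (x i) (v i) (Y i) (cc i) (lam i)) ∧
        (∀ i q w, ‖constantCoeff (Y i q w)‖ ≤ 1) ∧
        (∀ i q, ∃ w, ‖constantCoeff (Y i q w)‖ = 1) ∧
        ∀ g : Fin M × JI d j → (Fin (n + 1) × W →₀ ℕ), ‖(Gh Y g).det‖ ≤
          ε ^ ((∑ r : Fin M × JI d j, (D' - r.2.1.degree)) - Kc * hil a (D' - 1) * D') := by
  classical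
  obtain ⟨S, hSF, hSG, hS⟩ := good_exists a ha0 hcl F e G hG Fs hJ
  refine ⟨S, ?_⟩
  intro K _ _ τ hK hSb ε hε hε1 n j M Kc D' x v hv cl w₀ h0 hm hclose
  have hv' : IsNonarchimedean (gxV K) := hK
  have hFs : ∀ i u, ‖τ ((Fs i).coeff u)‖ ≤ 1 := gx_le τ S hSb Fs hSF
  have hGs : ∀ t w u, ‖τ ((G t w).coeff u)‖ ≤ 1 := fun t => gx_le τ S hSb (G t) (hSG t)
  have hGI : ∀ t w, IntPoly (gxV K) ((G t w).map τ) := fun t w u => by
    rw [coeff_map]
    exact hGs t w u
  choose σ t χ hgood using fun i => hS K τ hK hSb (x i) (w₀ (cl i)) (h0 i) (hm i)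
  have hrep : ∀ i, ∃ i', cl i' = cl i := fun i => ⟨i, rfl⟩
  obtain ⟨rep, hrepd⟩ : ∃ rep : Fin M → Fin M, ∀ i, rep i = (hrep i).choose :=
    ⟨fun i => (hrep i).choose, fun i => rfl⟩
  have hrepc : ∀ i, cl (rep i) = cl i := fun i => by
    rw [hrepd]
    exact (hrep i).choose_spec
  have hg : ∀ i, GoodCh a G Fs τ (w₀ (cl i)) (σ (rep i)) (t (rep i)) (χ (rep i)) (x i) := by
    intro i
    have h1 := hgood (rep i)
    have h2 := h0 (rep i)
    have h3 := hm (rep i)
    have h4 := hclose (rep i) i (hrepc i)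
    rw [hrepc i] at h1 h2 h3 h4
    exact good_congr a G Fs τ hK hFs hGs (w₀ (cl i)) (σ (rep i)) (t (rep i)) (χ (rep i))
      (x (rep i)) (x i) h2 (h0 i) h3 (hm i) (fun w => lt_of_le_of_lt (h4 w) hε1) h1
  choose Y₀ cc lam hY1 hY2 hY3 hY4 hY5 hY6 using fun i => good_expn a ha0 F e G hG Fs hJ τ hK
    hFs hGs (w₀ (cl i)) (σ (rep i)) (t (rep i)) (χ (rep i)) (x i) (h0 i) (hm i) (hg i) (v i)
    (hv i) n j
  refine ⟨fun i q => itY (fun t w => (G t w).map τ) (χ (rep i)) (fun _ => 1) (Y₀ i) q, cc, lam,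
    hY4, fun i q w => hY5 i q w, fun i q => hY6 i q, ?_⟩
  intro g
  obtain ⟨yc, hycd⟩ : ∃ yc : Fin Kc → W → K, ∀ κ w, yc κ w =
      if h : ∃ i, cl i = κ then τ (a (x h.choose) w / a (x h.choose) (w₀ κ)) else 0 :=
    ⟨_, fun _ _ => rfl⟩
  obtain ⟨H, hHd⟩ : ∃ H : Fin Kc → Fin M × JI d j → MvPolynomial W K, ∀ κ c, H κ c =
      if h : ∃ i, cl i = κ then (g c).prod (fun q k =>
        ((chart G q.1 (fun k => χ h.choose k) q.2).map τ) ^ k) else 0 :=
    ⟨_, fun _ _ => rfl⟩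
  have hyc : ∀ κ w, ‖yc κ w‖ ≤ 1 := by
    intro κ w
    rw [hycd]
    split_ifs with h
    · have h1 := h.choose_spec
      have h2 := hm h.choose w
      have h3 := h0 h.choose
      rw [h1] at h2 h3
      rw [map_div₀, norm_div]
      exact div_le_one_of_le₀ h2 (norm_nonneg _)
    · rw [norm_zero]
      exact zero_le_one
  have hH : ∀ κ c u, ‖coeff u (H κ c)‖ ≤ 1 := by
    intro κ c
    have h1 : IntPoly (gxV K) (H κ c) := by
      rw [hHd]
      split_ifs with h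
      · unfold Finsupp.prod
        exact int_prod (gxV K) hv' _ _ fun q _ =>
          int_pow (gxV K) hv' (gx_chart_int (gxV K) hv' τ G hGI _ _ _) _
      · intro u
        rw [coeff_zero, map_zero]
        exact zero_le_one
    exact h1
  have hycc : ∀ i w, ‖constantCoeff (Y₀ i w) - yc (cl i) w‖ ≤ ε := by
    intro i w
    rw [hY2, hycd, dif_pos (hrep i), ← map_sub, ← hrepd]
    exact hclose i (rep i) (hrepc i).symm w
  have hfin := gain_det hK a τ d j M Kc D' ε hε hε1.le cl w₀ yc hyc Y₀ hY1 hY3 hycc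
    (fun i P k hP hV => gx_kill (hY4 i) P k hP hV) H hH
  have hmat : Gh (fun i (q : Fin (n + 1)) =>
      itY (fun t w => (G t w).map τ) (χ (rep i)) (fun _ => 1) (Y₀ i) q) g =
      Matrix.of fun r c : Fin M × JI d j => coeff r.2.1 (aeval (Y₀ r.1) (H (cl r.1) c)) := by
    ext r c
    unfold Gh
    rw [Matrix.of_apply, Matrix.of_apply]
    congr 1
    rw [hHd, dif_pos (hrep r.1), ← hrepd, aeval_monomial, map_one, one_mul]
    unfold Finsupp.prod
    rw [map_prod]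
    refine Finset.prod_congr rfl fun q _ => ?_
    dsimp only
    rw [map_pow, itY_chart_one]
  rw [hmat]
  exact hfin

end Pool.Agent.LLX
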