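import Pool.Agent.LLX.Nrm
import Pool.Agent.LLX.Int
import Pool.Agent.LLX.Ord

/-!
# LLX ITER: expansions of the iterates

`itY G χ μ Y₀ i`: the expansions of the coordinates of the `i`-th iterate, obtained from those of
the point by substituting into the forms `G (χ i)` and multiplying by the constant `μ i`.

`itY_chart`: induction on `i`: `itY (i+1) w = C (μ i) * aeval (itY i) (G (χ i) w)`, and
`aeval (fun w => C m * Y w) P = C m ^ e * aeval Y P` for `P` homogeneous of degree `e`; the chart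
of `Helper63/SAND/Defs` is `chart G (i+1) τ = fun w => bind₁ (chart G i (init τ)) (G (τ last) w)`,
and `aeval Y (bind₁ f P) = aeval (fun s => aeval Y (f s)) P` (`aeval_bind₁`), `map` commutes with
`bind₁` (`map_bind₁`).

`itY_bound`. Put `θ = 1 / (B^2 2^e)`. Induction on `i`: `nrm (ρ₀ θ^i) (itY i w) ≤ 2`:
`nrm (ρ₀ θ^i) (itY (i+1) w) ≤ B · (B 2^e)` (`nrm_aeval_le` with `A = 2`), hence for
`Z = itY (i+1) w - C (constant coefficient)` also `nrm (ρ₀ θ^i) Z ≤ B^2 2^e` (`Z` has fewer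
monomials), so `nrm (ρ₀ θ^(i+1)) Z ≤ θ B^2 2^e = 1` (`nrm_shrink`) and the constant coefficient
has norm `≤ 1`.
-/

open MvPolynomial

namespace Pool.Agent.LLX

open Pool.Agent.Helper63.SAND

/-- The expansions of the iterates. -/
noncomputable def itY {K W T : Type*} [Field K] {d : ℕ} (G : T → W → MvPolynomial W K)
    (χ : ℕ → T) (μ : ℕ → K) (Y₀ : W → MvPolynomial (Fin d) K) :
    ℕ → W → MvPolynomial (Fin d) K
  | 0 => Y₀
  | i + 1 => fun w => C (μ i) * aeval (itY G χ μ Y₀ i) (G (χ i) w)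

private theorem it_hom {K W : Type*} [Field K] {d : ℕ} (m : K)
    (Z : W → MvPolynomial (Fin d) K) {P : MvPolynomial W K} {e : ℕ} (hP : P.IsHomogeneous e) :
    aeval (fun w => C m * Z w) P = C (m ^ e) * aeval Z P := by
  classical
  conv_lhs => rw [P.as_sum, map_sum]
  conv_rhs => rw [P.as_sum, map_sum]
  rw [Finset.mul_sum]
  refine Finset.sum_congr rfl fun s hs => ?_
  rw [aeval_monomial, aeval_monomial]
  have h1 : (s.prod fun i k => (C m * Z i) ^ k) =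
      (C (m ^ e) : MvPolynomial (Fin d) K) * s.prod fun i k => Z i ^ k := by
    have h2 : s.degree = e := by
      have h3 := hP (mem_support_iff.1 hs)
      rw [Finsupp.degree_eq_weight_one]
      exact h3
    unfold Finsupp.prod
    simp only [mul_pow]
    rw [Finset.prod_mul_distrib, Finset.prod_pow_eq_pow_sum, map_pow, ← h2]
    rfl
  rw [h1]
  ring

private theorem it_bind {E K W : Type*} [Field E] [Field K] {d : ℕ} (τ : E →+* K)
    (Y₀ : W → MvPolynomial (Fin d) K) (f : W → MvPolynomial W E) (P : MvPolynomial W E) :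
    aeval (fun w => aeval Y₀ ((f w).map τ)) (P.map τ) = aeval Y₀ ((bind₁ f P).map τ) := by
  rw [map_bind₁, aeval_bind₁]

theorem itY_chart {E K W T : Type*} [Field E] [Field K] {d : ℕ} (τ : E →+* K)
    (G : T → W → MvPolynomial W E) (e : ℕ) (hG : ∀ t w, (G t w).IsHomogeneous e)
    (χ : ℕ → T) (μ : ℕ → K) (hμ : ∀ i, μ i ≠ 0) (Y₀ : W → MvPolynomial (Fin d) K) (i : ℕ) :
    ∃ m : K, m ≠ 0 ∧ ∀ w, itY (fun t w => (G t w).map τ) χ μ Y₀ i w =
      C m * aeval Y₀ ((chart G i (fun k => χ k) w).map τ) := by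
  induction i with
  | zero =>
    refine ⟨1, one_ne_zero, fun w => ?_⟩
    show Y₀ w = C 1 * aeval Y₀ ((X w : MvPolynomial W E).map τ)
    rw [map_X, aeval_X, C_1, one_mul]
  | succ i ih =>
    obtain ⟨m, hm, h⟩ := ih
    refine ⟨μ i * m ^ e, mul_ne_zero (hμ i) (pow_ne_zero _ hm), fun w => ?_⟩
    have h1 : itY (fun t w => (G t w).map τ) χ μ Y₀ i =
        fun w => C m * aeval Y₀ ((chart G i (fun k => χ k) w).map τ) := funext h
    show C (μ i) * aeval (itY (fun t w => (G t w).map τ) χ μ Y₀ i) ((G (χ i) w).map τ) =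
      C (μ i * m ^ e) * aeval Y₀ ((bind₁ (chart G i (fun k => χ k)) (G (χ i) w)).map τ)
    rw [h1, it_hom m _ ((hG (χ i) w).map τ), it_bind, map_mul, mul_assoc]

/-- With the constants `1`. -/
theorem itY_chart_one {E K W T : Type*} [Field E] [Field K] {d : ℕ} (τ : E →+* K)
    (G : T → W → MvPolynomial W E) (χ : ℕ → T) (Y₀ : W → MvPolynomial (Fin d) K) (i : ℕ)
    (w : W) : itY (fun t w => (G t w).map τ) χ (fun _ => 1) Y₀ i w =
      aeval Y₀ ((chart G i (fun k => χ k) w).map τ) := by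
  induction i generalizing w with
  | zero =>
    show Y₀ w = aeval Y₀ ((X w : MvPolynomial W E).map τ)
    rw [map_X, aeval_X]
  | succ i ih =>
    have h1 : itY (fun t w => (G t w).map τ) χ (fun _ => 1) Y₀ i =
        fun w => aeval Y₀ ((chart G i (fun k => χ k) w).map τ) := funext ih
    show C (1 : K) * aeval (itY (fun t w => (G t w).map τ) χ (fun _ => 1) Y₀ i)
        ((G (χ i) w).map τ) =
      aeval Y₀ ((bind₁ (chart G i (fun k => χ k)) (G (χ i) w)).map τ)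
    rw [h1, it_bind, C_1, one_mul]

private theorem it_nrm_sub {K : Type*} [NormedField K] {d : ℕ} {ρ : ℝ} (hρ : 0 ≤ ρ)
    (P : MvPolynomial (Fin d) K) : nrm ρ (P - C (constantCoeff P)) ≤ nrm ρ P := by
  classical
  rw [nrm_eq_sum P (P.support ∪ (P - C (constantCoeff P)).support) Finset.subset_union_left,
    nrm_eq_sum (P - C (constantCoeff P)) (P.support ∪ (P - C (constantCoeff P)).support)
      Finset.subset_union_right]
  refine Finset.sum_le_sum fun s _ => ?_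
  refine mul_le_mul_of_nonneg_right ?_ (pow_nonneg hρ _)
  rw [coeff_sub, coeff_C]
  by_cases hs : 0 = s
  · rw [if_pos hs, ← hs, constantCoeff_eq, sub_self, norm_zero]
    exact norm_nonneg _
  · rw [if_neg hs, sub_zero]

theorem itY_bound (e : ℕ) (B : ℝ) (hB : 1 ≤ B) : ∃ θ : ℝ, 0 < θ ∧ θ ≤ 1 ∧
    ∀ (K : Type) [NormedField K] (W T : Type*) [Fintype W] (d : ℕ)
      (G : T → W → MvPolynomial W K) (χ : ℕ → T) (μ : ℕ → K) (Y₀ : W → MvPolynomial (Fin d) K)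
      (ρ₀ : ℝ), 0 ≤ ρ₀ → (∀ t w, (G t w).totalDegree ≤ e) →
      (∀ t w, ∑ s ∈ (G t w).support, ‖coeff s (G t w)‖ ≤ B) → (∀ i, ‖μ i‖ ≤ B) →
      (∀ i w, ‖constantCoeff (itY G χ μ Y₀ i w)‖ ≤ 1) → (∀ w, nrm ρ₀ (Y₀ w) ≤ 2) →
      ∀ i w, nrm (ρ₀ * θ ^ i) (itY G χ μ Y₀ i w) ≤ 2 := by
  have hD : (0 : ℝ) < B ^ 2 * 2 ^ e := by positivity
  have hD1 : (1 : ℝ) ≤ B ^ 2 * 2 ^ e := by
    have h1 : (1 : ℝ) ≤ B ^ 2 := one_le_pow₀ hB
    have h2 : (1 : ℝ) ≤ 2 ^ e := one_le_pow₀ (by norm_num)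
    nlinarith
  refine ⟨(B ^ 2 * 2 ^ e)⁻¹, inv_pos.2 hD, inv_le_one_of_one_le₀ hD1, ?_⟩
  intro K _ W T _ d G χ μ Y₀ ρ₀ hρ₀ hG hGB hμ hc hY i
  obtain ⟨θ, hθ⟩ : ∃ θ : ℝ, θ = (B ^ 2 * 2 ^ e)⁻¹ := ⟨_, rfl⟩
  rw [← hθ]
  have hθ0 : 0 ≤ θ := by rw [hθ]; exact (inv_pos.2 hD).le
  have hθ1 : θ ≤ 1 := by rw [hθ]; exact inv_le_one_of_one_le₀ hD1
  induction i with
  | zero =>
    intro w
    rw [pow_zero, mul_one]
    exact hY w
  | succ i ih =>
    intro w
    have hρ : 0 ≤ ρ₀ * θ ^ i := mul_nonneg hρ₀ (pow_nonneg hθ0 _)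
    have h1 : nrm (ρ₀ * θ ^ i) (itY G χ μ Y₀ (i + 1) w) ≤ B ^ 2 * 2 ^ e := by
      show nrm (ρ₀ * θ ^ i) (C (μ i) * aeval (itY G χ μ Y₀ i) (G (χ i) w)) ≤ _
      refine (nrm_mul_le hρ _ _).trans ?_
      rw [nrm_C]
      have h2 := nrm_aeval_le hρ (itY G χ μ Y₀ i) 2 (by norm_num) ih (G (χ i) w) e (hG _ _)
      have h3 : (∑ s ∈ (G (χ i) w).support, ‖coeff s (G (χ i) w)‖) * 2 ^ e ≤ B * 2 ^ e :=
        mul_le_mul_of_nonneg_right (hGB _ _) (by positivity)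
      have h4 : ‖μ i‖ * nrm (ρ₀ * θ ^ i) (aeval (itY G χ μ Y₀ i) (G (χ i) w)) ≤
          B * (B * 2 ^ e) :=
        mul_le_mul (hμ i) (h2.trans h3) (nrm_nonneg hρ _) (by linarith)
      refine h4.trans (le_of_eq ?_)
      ring
    obtain ⟨P, hP⟩ : ∃ P, P = itY G χ μ Y₀ (i + 1) w := ⟨_, rfl⟩
    rw [← hP] at h1 ⊢
    have h5 : nrm (ρ₀ * θ ^ i) (P - C (constantCoeff P)) ≤ B ^ 2 * 2 ^ e :=
      (it_nrm_sub hρ P).trans h1
    have h6 : constantCoeff (P - C (constantCoeff P)) = 0 := by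
      rw [map_sub, constantCoeff_C, sub_self]
    have h7 := nrm_shrink hρ θ hθ0 hθ1 (P - C (constantCoeff P)) h6
    have h8 : θ * nrm (ρ₀ * θ ^ i) (P - C (constantCoeff P)) ≤ 1 := by
      refine (mul_le_mul_of_nonneg_left h5 hθ0).trans (le_of_eq ?_)
      rw [hθ]
      exact inv_mul_cancel₀ hD.ne'
    have h9 : ρ₀ * θ ^ (i + 1) = θ * (ρ₀ * θ ^ i) := by ring
    have hρ' : 0 ≤ θ * (ρ₀ * θ ^ i) := mul_nonneg hθ0 hρ
    rw [h9]
    have h10 : P = (P - C (constantCoeff P)) + C (constantCoeff P) := by ring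
    rw [h10]
    refine (nrm_add_le hρ' _ _).trans ?_
    rw [nrm_C]
    have h11 : ‖constantCoeff P‖ ≤ 1 := by
      rw [hP]
      exact hc (i + 1) w
    linarith [h7.trans h8]

theorem itY_int {K W T : Type*} [Field K] (v : AbsoluteValue K ℝ) (hv : IsNonarchimedean v)
    {d : ℕ} (G : T → W → MvPolynomial W K) (hG : ∀ t w, IntPoly v (G t w)) (χ : ℕ → T)
    (μ : ℕ → K) (hμ : ∀ i, v (μ i) ≤ 1) (Y₀ : W → MvPolynomial (Fin d) K)
    (hY₀ : ∀ w, IntPoly v (Y₀ w)) (i : ℕ) (w : W) : IntPoly v (itY G χ μ Y₀ i w) := by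
  induction i generalizing w with
  | zero => exact hY₀ w
  | succ i ih =>
    show IntPoly v (C (μ i) * aeval (itY G χ μ Y₀ i) (G (χ i) w))
    exact int_mul v hv (int_C v _ (hμ i)) (int_aeval v hv _ ih _ (hG _ _))

end Pool.Agent.LLX
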