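import Pool.Agent.LLX.Adefs

/-!
# LLX JET: jets of forms

(1) Every `H` is congruent modulo `pI y ^ N` to a polynomial of total degree `≤ N - 1`: let
`H₁ = aeval (fun w => X w + C (y w)) H`, so `H = aeval (fun w => X w - C (y w)) H₁`, and write `H₁`
as the sum of its homogeneous components; the substitution `X w ↦ X w - C (y w)` sends the
components of degree `k ≥ N` to `pI y ^ k ≤ pI y ^ N`, and the components of degree `≤ N - 1` to
polynomials of total degree `≤ N - 1`.
(2) If `H` has total degree `≤ N - 1` take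
`H' = ∑ k ∈ range N, linP l₀ ^ (N - 1 - k) * homogeneousComponent k H`; as
`linP l₀ ^ m - 1 ∈ (linP l₀ - 1)`, `H - H' ∈ (linP l₀ - 1)`.
-/

open MvPolynomial

namespace Pool.Agent.LLX.AS

variable {E : Type*} [Field E] {W : Type*} [Fintype W]

theorem jet (l₀ y : W → E) (N : ℕ) (hN : 1 ≤ N) (H : MvPolynomial W E) :
    ∃ H' : MvPolynomial W E, H'.IsHomogeneous (N - 1) ∧
      H - H' ∈ Ideal.span {linP l₀ - 1} ⊔ pI y ^ N := by
  classical
  set J : Ideal (MvPolynomial W E) := Ideal.span {linP l₀ - 1} ⊔ pI y ^ N with hJ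
  set L : MvPolynomial W E := linP l₀ with hL
  have hLhom : L.IsHomogeneous 1 := by
    rw [hL]
    unfold linP
    refine IsHomogeneous.sum _ _ _ fun w _ => ?_
    have h1 := (isHomogeneous_C W (l₀ w)).mul (isHomogeneous_X E w)
    rwa [zero_add] at h1
  have hmkL : Ideal.Quotient.mk J L = 1 := by
    rw [← map_one (Ideal.Quotient.mk J), Ideal.Quotient.eq]
    exact Ideal.mem_sup_left (Ideal.mem_span_singleton_self _)
  obtain ⟨H₁, hH₁⟩ : ∃ H₁, aeval (fun w => X w - C (y w)) H₁ = H := by
    refine ⟨aeval (fun w => X w + C (y w)) H, ?_⟩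
    have h1 : (aeval (fun w => (X w - C (y w) : MvPolynomial W E))).comp
        (aeval (fun w => (X w + C (y w) : MvPolynomial W E))) =
        AlgHom.id E (MvPolynomial W E) := by
      ext w
      simp
    rw [← AlgHom.comp_apply, h1, AlgHom.id_apply]
  let T : (W →₀ ℕ) → MvPolynomial W E := fun s =>
    C (coeff s H₁) * (L ^ (N - 1 - s.degree) * ∏ w, (X w - C (y w) * L) ^ s w)
  refine ⟨∑ s ∈ H₁.support with s.degree < N, T s, ?_, ?_⟩
  · refine IsHomogeneous.sum _ _ _ fun s hs => ?_
    have hs' := (Finset.mem_filter.1 hs).2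
    have h1 : (∏ w, (X w - C (y w) * L) ^ s w).IsHomogeneous (∑ w, 1 * s w) := by
      refine IsHomogeneous.prod _ _ _ fun w _ => ?_
      refine IsHomogeneous.pow ?_ _
      refine (isHomogeneous_X E w).sub ?_
      have h2 := (isHomogeneous_C W (y w)).mul hLhom
      rwa [zero_add] at h2
    have h2 : ∑ w, 1 * s w = s.degree := by
      rw [Finsupp.degree_eq_sum]
      exact Finset.sum_congr rfl fun w _ => one_mul _
    rw [h2] at h1
    have h3 := (isHomogeneous_C W (coeff s H₁)).mul ((hLhom.pow (N - 1 - s.degree)).mul h1)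
    have h4 : 0 + (1 * (N - 1 - s.degree) + s.degree) = N - 1 := by omega
    rwa [h4] at h3
  · rw [← Ideal.Quotient.eq, ← hH₁]
    conv_lhs => rw [H₁.as_sum]
    rw [map_sum, map_sum, map_sum, Finset.sum_filter]
    refine Finset.sum_congr rfl fun s _ => ?_
    rw [aeval_monomial, Finsupp.prod_fintype _ _ (fun w => pow_zero _), algebraMap_eq]
    split_ifs with hs
    · simp only [T, map_mul, map_prod, map_pow, map_sub, hmkL, one_pow, one_mul, mul_one]
    · rw [Ideal.Quotient.eq_zero_iff_mem]
      refine Ideal.mul_mem_left _ _ (Ideal.mem_sup_right ?_)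
      refine Ideal.pow_le_pow_right (not_lt.1 hs) ?_
      rw [Finsupp.degree_eq_sum, ← Finset.prod_pow_eq_pow_sum]
      refine Ideal.prod_mem_prod fun w _ => Ideal.pow_mem_pow ?_ _
      rw [mem_pI]
      simp

end Pool.Agent.LLX.AS
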