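import Pool.Agent.LLX.Ldim
import Pool.Agent.LLX.Mxl

/-!
# LLX KER: a function vanishing to high order at all the points

Linear algebra: the linear map
`(Fin (b + 1) → Fin h → E) → ∀ i', R ⧸ (mI a F l (x i') ^ N₀ ⊔ p)`,
`c ↦ (mk (∑ i, ∑ j, C (c i j) * ...))_i'`, goes from a space of dimension `(b + 1) h` to a space of
dimension `≤ M * hil (ZQ) (N₀ - 1)` (`locdim`), so it has a nonzero kernel element
(`LinearMap.ker_ne_bot_of_finrank_lt` or `LinearMap.exists_ne_zero...`). The function is in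
`mI a F l (x i') ^ N₀ ⊔ p` for all `i'`, so in `(⨅ i', mI ..) ^ N₀ ⊔ p` by `inf_pow_sup` (`mI_max`,
`mI_ne`).
-/

open MvPolynomial

namespace Pool.Agent.LLX.AS

open Pool.Agent.Helper63.SAND Pool.Agent.PW

variable {E : Type*} [Field E] {Ω W T : Type*} [Fintype W] {n : ℕ}

private theorem lin_ker {E R : Type*} [Field E] [CommRing R] [Algebra E R] {M : ℕ}
    (I : Fin M → Ideal R) (hf : ∀ i, Module.Finite E (R ⧸ I i)) (D : ℕ)
    (hd : ∀ i, Module.finrank E (R ⧸ I i) ≤ D) {V : Type*} [AddCommGroup V] [Module E V]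
    [FiniteDimensional E V] (B : V →ₗ[E] R) (h : M * D < Module.finrank E V) :
    ∃ c : V, c ≠ 0 ∧ ∀ i, B c ∈ I i := by
  have := hf
  let L : V →ₗ[E] (∀ i : Fin M, R ⧸ I i) :=
    LinearMap.pi fun i => (Ideal.Quotient.mkₐ E (I i)).toLinearMap.comp B
  have hlt : Module.finrank E (∀ i : Fin M, R ⧸ I i) < Module.finrank E V := by
    rw [Module.finrank_pi_fintype]
    refine lt_of_le_of_lt ?_ h
    calc ∑ i, Module.finrank E (R ⧸ I i) ≤ ∑ _i : Fin M, D := Finset.sum_le_sum fun i _ => hd i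
      _ = M * D := by simp
  obtain ⟨c, hc, hc0⟩ := (Submodule.ne_bot_iff _).1 (LinearMap.ker_ne_bot_of_finrank_lt (f := L) hlt)
  refine ⟨c, hc0, fun i => ?_⟩
  have h1 : L c i = 0 := by
    rw [LinearMap.mem_ker] at hc
    rw [hc]
    rfl
  exact Ideal.Quotient.eq_zero_iff_mem.1 h1

theorem ker [IsAlgClosed E] (a : Ω → W → E) (ha0 : ∀ x, a x ≠ 0) (F : Ω → Ω) (e : ℕ)
    (G : T → W → MvPolynomial W E) (hG : LocF a (fun x => a (F x)) e G) (hcl : Clo a)
    (l : Fin (n + 1) → W → E) {M : ℕ} (x : Fin M → Ω) (hx : ∀ i, Adm a F l (x i))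
    (hne : ∀ i i', i ≠ i' → ∀ c : E, ∃ w, a (x i) w ≠ c * a (x i') w)
    (p : Ideal (MvPolynomial (Fin (n + 1) × W) E)) (hp : VI a F l ≤ p)
    (Q : Ideal (MvPolynomial W E)) (hQ : HP Q) (hc : Cont a Q) (hQp : Q ≤ p.comap (blk E 0))
    (τ : Fin (n + 1)) (b h N₀ : ℕ) (hN₀ : 1 ≤ N₀)
    (hM : M * hil (fun y : ZQ a Q => a y) (N₀ - 1) < (b + 1) * h) (ex : Fin h → (W →₀ ℕ))
    (w₀ w₁ : W) :
    ∃ c : Fin (b + 1) → Fin h → E, c ≠ 0 ∧
      ∑ i : Fin (b + 1), ∑ j, C (c i j) * blk E 0 (monomial (ex j) 1) *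
        X (τ, w₀) ^ (b - (i : ℕ)) * X (τ, w₁) ^ (i : ℕ) ∈ (⨅ i', mI a F l (x i')) ^ N₀ ⊔ p := by
  have hd := fun i' : Fin M => locdim a ha0 F e G hG hcl l (x i') (hx i') N₀ hN₀ p hp Q hQ hc hQp
  let B : (Fin (b + 1) → Fin h → E) →ₗ[E] MvPolynomial (Fin (n + 1) × W) E :=
    { toFun := fun c => ∑ i : Fin (b + 1), ∑ j, C (c i j) * blk E 0 (monomial (ex j) 1) *
        X (τ, w₀) ^ (b - (i : ℕ)) * X (τ, w₁) ^ (i : ℕ)
      map_add' := by
        intro c c'
        rw [← Finset.sum_add_distrib]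
        refine Finset.sum_congr rfl fun i _ => ?_
        rw [← Finset.sum_add_distrib]
        refine Finset.sum_congr rfl fun j _ => ?_
        simp only [Pi.add_apply, C_add]
        ring
      map_smul' := by
        intro r c
        rw [RingHom.id_apply, Finset.smul_sum]
        refine Finset.sum_congr rfl fun i _ => ?_
        rw [Finset.smul_sum]
        refine Finset.sum_congr rfl fun j _ => ?_
        simp only [Pi.smul_apply, smul_eq_mul, C_mul, smul_eq_C_mul]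
        ring }
  obtain ⟨c, hc0, hcI⟩ := lin_ker (E := E) (fun i' => mI a F l (x i') ^ N₀ ⊔ p)
    (fun i' => (hd i').1) (hil (fun y : ZQ a Q => a y) (N₀ - 1)) (fun i' => (hd i').2) B (by
      refine lt_of_lt_of_le hM (le_of_eq ?_)
      simp [Module.finrank_pi_fintype])
  exact ⟨c, hc0, inf_pow_sup (fun i' => mI a F l (x i')) (fun i' => mI_max a F l (x i'))
    (fun i i' hi => mI_ne a F l (x i) (x i') (hx i) (hx i') (hne i i' hi)) p N₀ _ hcI⟩

end Pool.Agent.LLX.AS
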