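import Pool.Agent.LLX.Rel

/-!
# LLX LBLK: near a point every function is a function of the coordinates of the first block

The set of the `f` with the property is a subalgebra (`blk E 0` is a ring homomorphism), so it
suffices to show it for `f = X (q, w)` (`MvPolynomial.induction_on`). Take `t` from `chart_ne`, and
put `U = ∑ w', C (l q w') * chart G q t w' : MvPolynomial W E`, `y w = npt a F l x (0, w)`,
`u₀ = eval y U = eval (npt a F l x) (blk E 0 U) ≠ 0`. The polynomial `1 - C u₀⁻¹ * U` vanishes at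
`y`, so `blk E 0` of its `N`-th power is in `mI a F l x ^ N` (`Ideal.pow_mem_pow`); and
`(1 - C u₀⁻¹ * U) ^ N = 1 - U * V` for a polynomial `V` (`sub_dvd_pow_sub_pow` or
`Commute.add_pow`; e.g. `U ∣ 1 - (1 - C u₀⁻¹ * U) ^ N`). So modulo `VI ⊔ mI ^ N`, by `rel_chart`:
`X (q, w) ≡ blk V * blk U * X (q, w) ≡ blk (V * chart G q t w)`.
-/

open MvPolynomial

namespace Pool.Agent.LLX.AS

open Pool.Agent.Helper63.SAND

variable {E : Type*} [Field E] {Ω W T : Type*} [Fintype W] {n : ℕ}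

/-- A variable. -/
private theorem loc_X (a : Ω → W → E) (ha0 : ∀ x, a x ≠ 0) (F : Ω → Ω) (e : ℕ)
    (G : T → W → MvPolynomial W E) (hG : LocF a (fun x => a (F x)) e G)
    (l : Fin (n + 1) → W → E) (x : Ω) (hx : Adm a F l x) (N : ℕ) (q : Fin (n + 1)) (w : W) :
    ∃ H : MvPolynomial W E, X (q, w) - blk E 0 H ∈ VI a F l ⊔ mI a F l x ^ N := by
  obtain ⟨t, ht⟩ := chart_ne a ha0 F e G hG l x hx q
  obtain ⟨J, hJ⟩ : ∃ J, J = VI a F l ⊔ mI a F l x ^ N := ⟨_, rfl⟩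
  rw [← hJ]
  obtain ⟨U, hU⟩ : ∃ U, U = ∑ w', C (l q w') * chart G q t w' := ⟨_, rfl⟩
  have hrel := rel_chart a ha0 F e G hG l q t w
  rw [← hU] at ht hrel
  obtain ⟨u, hu⟩ : ∃ u, u = eval (npt a F l x) (blk E 0 U) := ⟨_, rfl⟩
  rw [← hu] at ht
  obtain ⟨V, hV⟩ : U ∣ 1 - (1 - C u⁻¹ * U) ^ N := by
    have h1 := sub_dvd_pow_sub_pow 1 (1 - C u⁻¹ * U) N
    rw [one_pow, sub_sub_cancel] at h1
    exact (dvd_mul_left U _).trans h1
  refine ⟨V * chart G q t w, ?_⟩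
  have h1 : Ideal.Quotient.mk J (blk E 0 U) * Ideal.Quotient.mk J (blk E 0 V) = 1 := by
    rw [← map_mul, ← map_mul, ← hV, map_sub, map_one, map_sub, map_one, sub_eq_self, map_pow,
      Ideal.Quotient.eq_zero_iff_mem, hJ]
    refine Ideal.mem_sup_right (Ideal.pow_mem_pow ?_ N)
    have h2 : eval (npt a F l x) (blk E 0 (1 - C u⁻¹ * U)) = 0 := by
      rw [map_sub, map_one, map_mul, map_sub, map_one, map_mul, ← hu, rename_C, eval_C,
        inv_mul_cancel₀ ht, sub_self]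
    exact h2
  have h2 : Ideal.Quotient.mk J (blk E 0 (chart G q t w)) =
      Ideal.Quotient.mk J (blk E 0 U) * Ideal.Quotient.mk J (X (q, w)) := by
    rw [← map_mul, Ideal.Quotient.eq, hJ]
    exact Ideal.mem_sup_left hrel
  rw [← Ideal.Quotient.eq, map_mul, map_mul, h2, ← mul_assoc, mul_comm (Ideal.Quotient.mk J _),
    h1, one_mul]

theorem loc_blk (a : Ω → W → E) (ha0 : ∀ x, a x ≠ 0) (F : Ω → Ω) (e : ℕ)
    (G : T → W → MvPolynomial W E) (hG : LocF a (fun x => a (F x)) e G)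
    (l : Fin (n + 1) → W → E) (x : Ω) (hx : Adm a F l x) (N : ℕ)
    (f : MvPolynomial (Fin (n + 1) × W) E) :
    ∃ H : MvPolynomial W E, f - blk E 0 H ∈ VI a F l ⊔ mI a F l x ^ N := by
  obtain ⟨J, hJ⟩ : ∃ J, J = VI a F l ⊔ mI a F l x ^ N := ⟨_, rfl⟩
  rw [← hJ]
  induction f using MvPolynomial.induction_on with
  | C c =>
    refine ⟨C c, ?_⟩
    rw [rename_C, sub_self]
    exact J.zero_mem
  | add f g hf hg =>
    obtain ⟨H1, h1⟩ := hf
    obtain ⟨H2, h2⟩ := hg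
    refine ⟨H1 + H2, ?_⟩
    rw [← Ideal.Quotient.eq] at h1 h2 ⊢
    rw [map_add, map_add, map_add, h1, h2]
  | mul_X f q hf =>
    obtain ⟨H1, h1⟩ := hf
    obtain ⟨H2, h2⟩ := loc_X a ha0 F e G hG l x hx N q.1 q.2
    refine ⟨H1 * H2, ?_⟩
    rw [← hJ] at h2
    rw [← Ideal.Quotient.eq] at h1 h2 ⊢
    rw [map_mul, map_mul, map_mul, h1, h2]

end Pool.Agent.LLX.AS
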