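import Pool.Agent.LLX.Lblk
import Pool.Agent.LLX.Jet
import Pool.Agent.LLX.Nlp
import Pool.Agent.Helper63.SAND.Hilb
import Pool.Agent.Helper63.SAND.Tools

/-!
# LLX LDIM: the dimension of the jets

`I = mI a F l x ^ N ⊔ p`. The linear map `φ : homogeneousSubmodule W E (N - 1) → R ⧸ I`,
`H ↦ mk (blk E 0 H)`, is surjective: `loc_blk` and `jet` with `l₀ = l 0`,
`y w = npt a F l x (0, w)`: `blk E 0` sends `pI y ^ N` into `mI a F l x ^ N` (`Ideal.map_pow` /
`Ideal.map_le_iff_le_comap`), and `linP (l 0) - 1` to `linB l 0 - 1 ∈ VI a F l ≤ p` (`rel_lin`).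
The linear map `ev : homogeneousSubmodule W E (N - 1) → (ZQ a Q → E)` of the definition of
`formsOn` has range `formsOn (fun y : ZQ a Q => a y) (N - 1)`, and `ker ev ≤ ker φ` by `van_ZQ`
(`⟸`: a form which vanishes on `ZQ a Q` is in `Q`, and `Q ≤ p.comap (blk E 0)`). So there is a
surjective linear map from `formsOn ..` to `R ⧸ I` (compose a linear section of `ev` with `φ`;
`formsOn` is finite dimensional: `formsOn_eq_span` in SAND/Hilb.lean or
`homogeneousSubmodule` spanned by finitely many monomials).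
-/

open MvPolynomial

namespace Pool.Agent.LLX.AS

open Pool.Agent.Helper63.SAND Pool.Agent.PW

variable {E : Type*} [Field E] {Ω W T : Type*} [Fintype W] {n : ℕ}

/-- Dimension of a surjective image which kills the kernel. -/
private theorem ldim_lin {V A B : Type*} [AddCommGroup V] [Module E V] [AddCommGroup A]
    [Module E A] [AddCommGroup B] [Module E B] (S : Submodule E V) (ev : V →ₗ[E] A)
    (φ : V →ₗ[E] B) (hk : ∀ v ∈ S, ev v = 0 → φ v = 0) (hsurj : ∀ b, ∃ v ∈ S, φ v = b)
    (hfin : Module.Finite E (S.map ev)) :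
    Module.Finite E B ∧ Module.finrank E B ≤ Module.finrank E (S.map ev) := by
  let ev' : S →ₗ[E] A := ev.comp S.subtype
  let φ' : S →ₗ[E] B := φ.comp S.subtype
  have hker : LinearMap.ker ev' ≤ LinearMap.ker φ' := by
    intro v hv
    exact hk v.1 v.2 hv
  have hrange : LinearMap.range ev' = S.map ev := by
    rw [LinearMap.range_comp, Submodule.range_subtype]
  let g : LinearMap.range ev' →ₗ[E] B :=
    ((LinearMap.ker ev').liftQ φ' hker).comp ev'.quotKerEquivRange.symm.toLinearMap
  have hg : Function.Surjective g := by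
    intro b
    obtain ⟨v, hv, hvb⟩ := hsurj b
    refine ⟨ev'.quotKerEquivRange (Submodule.Quotient.mk ⟨v, hv⟩), ?_⟩
    simp only [g, LinearMap.comp_apply, LinearEquiv.coe_coe, LinearEquiv.symm_apply_apply,
      Submodule.liftQ_apply]
    exact hvb
  rw [← hrange] at hfin ⊢
  exact ⟨Module.Finite.of_surjective g hg, LinearMap.finrank_le_finrank_of_surjective hg⟩

theorem locdim [IsAlgClosed E] (a : Ω → W → E) (ha0 : ∀ x, a x ≠ 0) (F : Ω → Ω) (e : ℕ)
    (G : T → W → MvPolynomial W E) (hG : LocF a (fun x => a (F x)) e G) (hcl : Clo a)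
    (l : Fin (n + 1) → W → E) (x : Ω) (hx : Adm a F l x) (N : ℕ) (hN : 1 ≤ N)
    (p : Ideal (MvPolynomial (Fin (n + 1) × W) E)) (hp : VI a F l ≤ p)
    (Q : Ideal (MvPolynomial W E)) (hQ : HP Q) (hc : Cont a Q) (hQp : Q ≤ p.comap (blk E 0)) :
    Module.Finite E (MvPolynomial (Fin (n + 1) × W) E ⧸ (mI a F l x ^ N ⊔ p)) ∧
      Module.finrank E (MvPolynomial (Fin (n + 1) × W) E ⧸ (mI a F l x ^ N ⊔ p)) ≤
        hil (fun y : ZQ a Q => a y) (N - 1) := by
  obtain ⟨I, hI⟩ : ∃ I, I = mI a F l x ^ N ⊔ p := ⟨_, rfl⟩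
  rw [← hI]
  refine ldim_lin (homogeneousSubmodule W E (N - 1))
    (LinearMap.pi fun y : ZQ a Q => (aeval (a y)).toLinearMap)
    ((Ideal.Quotient.mkₐ E I).toLinearMap.comp (blk E 0).toLinearMap) ?_ ?_ ?_
  · intro H hH h0
    have h1 : H ∈ Q := by
      rw [← van_ZQ a hcl Q hQ hc H (N - 1) ((mem_homogeneousSubmodule _ _).1 hH)]
      intro y
      have h2 := congrFun h0 y
      simpa [coe_aeval_eq_eval] using h2
    have h3 : blk E 0 H ∈ I := by
      rw [hI]
      exact Ideal.mem_sup_right (hQp h1)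
    simp only [LinearMap.comp_apply, AlgHom.toLinearMap_apply, Ideal.Quotient.mkₐ_eq_mk]
    exact Ideal.Quotient.eq_zero_iff_mem.2 h3
  · intro b
    obtain ⟨f, rfl⟩ := Ideal.Quotient.mk_surjective b
    obtain ⟨H, hH⟩ := loc_blk a ha0 F e G hG l x hx N f
    obtain ⟨H', hH', hHH⟩ := jet (l 0) (fun w => npt a F l x (0, w)) N hN H
    refine ⟨H', (mem_homogeneousSubmodule _ _).2 hH', ?_⟩
    simp only [LinearMap.comp_apply, AlgHom.toLinearMap_apply, Ideal.Quotient.mkₐ_eq_mk]
    have h1 : Ideal.Quotient.mk I f = Ideal.Quotient.mk I (blk E 0 H) := by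
      rw [Ideal.Quotient.eq, hI]
      have : VI a F l ⊔ mI a F l x ^ N ≤ mI a F l x ^ N ⊔ p :=
        sup_le (hp.trans le_sup_right) le_sup_left
      exact this hH
    rw [h1, eq_comm, Ideal.Quotient.eq, ← map_sub]
    have h2 : Ideal.span {linP (l 0) - 1} ⊔ pI (fun w => npt a F l x (0, w)) ^ N ≤
        I.comap (blk E (n := n) (W := W) 0) := by
      refine sup_le ?_ ?_
      · rw [Ideal.span_le, Set.singleton_subset_iff]
        show blk E 0 (linP (l 0) - 1) ∈ I
        have h3 : blk E (n := n) 0 (linP (l 0) - 1) = linB l 0 - 1 := by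
          rw [map_sub, map_one]
          congr 1
          unfold linP linB
          rw [map_sum]
          refine Finset.sum_congr rfl fun w _ => ?_
          rw [map_mul, rename_C, rename_X]
        rw [h3, hI]
        exact Ideal.mem_sup_right (hp (rel_lin a F l 0))
      · have h3 : pI (fun w => npt a F l x (0, w)) ≤ (mI a F l x).comap (blk E (n := n) 0) := by
          intro P hP
          show eval (npt a F l x) (blk E 0 P) = 0
          rw [eval_rename]
          exact hP
        refine (Ideal.pow_right_mono h3 N).trans ?_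
        refine (Ideal.le_comap_pow (blk E (n := n) (W := W) 0) N).trans ?_
        refine Ideal.comap_mono ?_
        rw [hI]
        exact le_sup_left
    exact h2 hHH
  · exact formsOn_finite (fun y : ZQ a Q => a y) (N - 1)

end Pool.Agent.LLX.AS
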