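import Pool.Agent.LLX.Ord
import Pool.Agent.LLX.Cnt

/-!
# LLX SYM: determinants on jets

`det_mulMat`: the matrix `mulMat d j u` is block triangular for the degree, and if `s`, `t` have
the same degree then its entry is `0` unless `s = t`, when it is the constant coefficient of `u`.
So only the identity permutation contributes (`Matrix.BlockTriangular.det` with `b = degree` (or
its dual), every block is the constant coefficient times the identity matrix).

`det_zMat`. (1) The entry `(s, t)` vanishes if `degree s < degree t` (`∏ z_b ^ t_b ∈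
OrdI (degree t)`, `ord_pow`, `ord_mul`); if `degree s = degree t` it only depends on the linear
parts of the `z b`, i.e. it is the same for `z' a = ∑_b C (L a b) * X b`,
`L a b = coeff (single b 1) (z a)` (`z a - z' a ∈ OrdI 2`, and `∏ z^t - ∏ z'^t ∈
OrdI (degree t + 1)`: replace one factor at a time). By `Matrix.BlockTriangular.det` (for the
degree) `det (zMat j z) = det (zMat j z')`: the diagonal blocks are the same.
(2) For a matrix `L` let `D L = det (zMat j (fun a => ∑_b C (L a b) * X b))`. Then
`zMat (L₁ * L₂) = zMat L₂ * zMat L₁`: `∏_a (∑_b L₁ a b X_b) ^ t_a = ∑_s (zMat L₁) s t X^s` (all the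
monomials have the degree of `t`, so `s` runs over `JI d j`); substitute
`X_b ↦ ∑_c L₂ b c X_c`. Hence `D (L₁ * L₂) = D L₁ * D L₂`.
(3) `Matrix.diagonal_transvection_induction` for `P L : D L = L.det ^ bo d j`. Diagonal matrices:
`∏ (λ_a X_a)^t_a = (∏ λ_a^t_a) X^t`, so `D = ∏_t ∏_a λ_a^t_a = ∏_a λ_a ^ (∑_t t_a)` and `sum_JI`.
Transvections `X_i ↦ X_i + c X_k`: `(zMat) s t = 0` unless `s = t` or `s k > t k`, and the diagonal
entries are `1`; so it is block triangular for `s ↦ s k` with identity blocks, `D = 1`.
-/

open MvPolynomial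

namespace Pool.Agent.LLX

variable {K : Type*} [Field K] {d : ℕ}

/-- Determinants of graded triangular matrices only depend on the diagonal blocks. -/
theorem det_congr_blocks {m R : Type*} [Fintype m] [DecidableEq m] [CommRing R] (b : m → ℕ)
    (M M' : Matrix m m R) (h : ∀ s t, b s < b t → M s t = 0)
    (h' : ∀ s t, b s < b t → M' s t = 0) (heq : ∀ s t, b s = b t → M s t = M' s t) :
    M.det = M'.det := by
  have h1 : M.BlockTriangular (fun s => OrderDual.toDual (b s)) := fun s t hst => h s t hst
  have h1' : M'.BlockTriangular (fun s => OrderDual.toDual (b s)) := fun s t hst => h' s t hst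
  rw [h1.det, h1'.det]
  apply Finset.prod_congr rfl
  intro a _
  congr 1
  ext s t
  simp only [Matrix.toSquareBlock_def, Matrix.of_apply]
  apply heq
  have h2 : OrderDual.toDual (b s.1) = a := s.2
  have h3 : OrderDual.toDual (b t.1) = a := t.2
  exact h2.trans h3.symm

theorem det_mulMat (j : ℕ) (u : MvPolynomial (Fin d) K) :
    (mulMat d j u).det = constantCoeff u ^ bz d j := by
  classical
  have h1 : (mulMat d j u).det =
      (Matrix.diagonal fun _ : JI d j => constantCoeff u).det := by
    apply det_congr_blocks (fun s : JI d j => s.1.degree)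
    · intro s t hst
      unfold mulMat
      rw [Matrix.of_apply, if_neg]
      intro h
      have h2 : t.1.degree ≤ s.1.degree := by
        obtain ⟨w, hw⟩ := exists_add_of_le h
        rw [hw, map_add]
        exact Nat.le_add_right _ _
      omega
    · intro s t hst
      rw [Matrix.diagonal_apply_ne]
      rintro rfl
      exact lt_irrefl _ hst
    · intro s t hst
      unfold mulMat
      rw [Matrix.of_apply]
      by_cases hst2 : s = t
      · subst hst2
        rw [if_pos le_rfl, Matrix.diagonal_apply_eq, tsub_self, constantCoeff_eq]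
      · rw [Matrix.diagonal_apply_ne _ hst2, if_neg]
        intro h
        obtain ⟨w, hw⟩ := exists_add_of_le h
        have h2 : s.1.degree = t.1.degree + w.degree := by rw [hw, map_add]
        have h3 : w.degree = 0 := by omega
        rw [Finsupp.degree_eq_zero_iff] at h3
        rw [h3, add_zero] at hw
        exact hst2 (Subtype.ext hw)
  rw [h1, Matrix.det_diagonal, Finset.prod_const, Finset.card_univ]
  rfl

/-- The matrix of the jets of the monomials in the `z b`. -/
noncomputable def zMat (j : ℕ) (z : Fin d → MvPolynomial (Fin d) K) :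
    Matrix (JI d j) (JI d j) K :=
  Matrix.of fun s t => coeff s.1 (∏ b, z b ^ t.1 b)

/-! ### products -/

/-- The elements `A`, `A'` of `OrdI i` have the same part of degree `i`. -/
def RR (i : ℕ) (A A' : MvPolynomial (Fin d) K) : Prop :=
  A ∈ OrdI K d i ∧ A' ∈ OrdI K d i ∧ A - A' ∈ OrdI K d (i + 1)

theorem RR.mul {i i' : ℕ} {A A' B B' : MvPolynomial (Fin d) K} (h : RR i A A')
    (h' : RR i' B B') : RR (i + i') (A * B) (A' * B') := by
  refine ⟨ord_mul h.1 h'.1, ord_mul h.2.1 h'.2.1, ?_⟩
  have h1 : A * B - A' * B' = A * (B - B') + (A - A') * B' := by ring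
  rw [h1]
  refine (OrdI K d _).add_mem ?_ ?_
  · have := ord_mul h.1 h'.2.2
    rwa [← add_assoc] at this
  · have := ord_mul h.2.2 h'.2.1
    rwa [show i + 1 + i' = i + i' + 1 by ring] at this

theorem RR.one : RR 0 (1 : MvPolynomial (Fin d) K) 1 := by
  refine ⟨?_, ?_, ?_⟩
  · rw [ord_zero]; exact Submodule.mem_top
  · rw [ord_zero]; exact Submodule.mem_top
  · rw [sub_self]; exact (OrdI K d _).zero_mem

theorem RR.pow {A A' : MvPolynomial (Fin d) K} (h : RR 1 A A') (k : ℕ) :
    RR k (A ^ k) (A' ^ k) := by
  induction k with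
  | zero =>
    rw [pow_zero, pow_zero]
    exact RR.one
  | succ k ih =>
    rw [pow_succ, pow_succ]
    exact ih.mul h

theorem RR.prod {z z' : Fin d → MvPolynomial (Fin d) K} (h : ∀ b, RR 1 (z b) (z' b))
    (t : Fin d →₀ ℕ) : RR t.degree (∏ b, z b ^ t b) (∏ b, z' b ^ t b) := by
  classical
  rw [Finsupp.degree_eq_sum]
  generalize (Finset.univ : Finset (Fin d)) = u
  induction u using Finset.induction_on with
  | empty =>
    rw [Finset.sum_empty, Finset.prod_empty, Finset.prod_empty]
    exact RR.one
  | insert a u ha ih =>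
    rw [Finset.sum_insert ha, Finset.prod_insert ha, Finset.prod_insert ha]
    exact ((h a).pow (t a)).mul ih

theorem ord_prod {z : Fin d → MvPolynomial (Fin d) K} (hz : ∀ b, constantCoeff (z b) = 0)
    (t : Fin d →₀ ℕ) : ∏ b, z b ^ t b ∈ OrdI K d t.degree := by
  have h : ∀ b, RR 1 (z b) (z b) := fun b =>
    ⟨(ord_one _).2 (hz b), (ord_one _).2 (hz b), by rw [sub_self]; exact (OrdI K d _).zero_mem⟩
  exact (RR.prod h t).1

theorem zMat_lt {j : ℕ} {z : Fin d → MvPolynomial (Fin d) K}
    (hz : ∀ b, constantCoeff (z b) = 0) (s t : JI d j) (h : s.1.degree < t.1.degree) :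
    zMat j z s t = 0 := ord_prod hz t.1 s.1 h

theorem prod_X (t : Fin d →₀ ℕ) :
    ∏ b, (X b : MvPolynomial (Fin d) K) ^ t b = monomial t 1 := by
  rw [monomial_eq, C_1, one_mul, Finsupp.prod_fintype]
  intro b
  rw [pow_zero]

theorem aeval_mon (z : Fin d → MvPolynomial (Fin d) K) (t : Fin d →₀ ℕ) (c : K) :
    aeval z (monomial t c) = C c * ∏ b, z b ^ t b := by
  rw [aeval_monomial, Finsupp.prod_fintype]
  · rfl
  · intro b
    rw [pow_zero]

/-- The jets of a substitution. -/
theorem coeff_aeval {j : ℕ} {z : Fin d → MvPolynomial (Fin d) K}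
    (hz : ∀ b, constantCoeff (z b) = 0) (r : JI d j) (P : MvPolynomial (Fin d) K) :
    coeff r.1 (aeval z P) = ∑ s : JI d j, zMat j z r s * coeff s.1 P := by
  classical
  induction P using MvPolynomial.induction_on' with
  | monomial u c =>
    rw [aeval_mon, coeff_C_mul]
    rcases Nat.lt_or_ge u.degree j with h | h
    · rw [Finset.sum_eq_single (⟨u, h⟩ : JI d j)]
      · rw [coeff_monomial, if_pos rfl, mul_comm]
        rfl
      · intro s _ hs
        rw [coeff_monomial, if_neg, mul_zero]
        intro h1
        exact hs (Subtype.ext h1.symm)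
      · intro h1
        exact absurd (Finset.mem_univ _) h1
    · rw [ord_prod hz u r.1 (lt_of_lt_of_le r.2 h), mul_zero, Finset.sum_eq_zero]
      intro s _
      rw [coeff_monomial, if_neg, mul_zero]
      rintro rfl
      exact absurd s.2 (not_lt.2 h)
  | add P Q hP hQ =>
    rw [map_add, coeff_add, hP, hQ, ← Finset.sum_add_distrib]
    apply Finset.sum_congr rfl
    intro s _
    rw [coeff_add, mul_add]

theorem zMat_comp {j : ℕ} (z₁ z₂ : Fin d → MvPolynomial (Fin d) K)
    (hz : ∀ b, constantCoeff (z₂ b) = 0) :
    zMat j (fun a => aeval z₂ (z₁ a)) = zMat j z₂ * zMat j z₁ := by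
  ext r t
  have h1 : ∏ b, (aeval z₂ (z₁ b)) ^ t.1 b = aeval z₂ (∏ b, z₁ b ^ t.1 b) := by
    rw [map_prod]
    simp only [map_pow]
  have h2 : zMat j (fun a => aeval z₂ (z₁ a)) r t =
      coeff r.1 (aeval z₂ (∏ b, z₁ b ^ t.1 b)) := by
    rw [← h1]
    rfl
  rw [h2, coeff_aeval hz, Matrix.mul_apply]
  rfl

/-! ### linear substitutions -/

/-- The linear substitution of a matrix. -/
noncomputable def Lz (L : Matrix (Fin d) (Fin d) K) (a : Fin d) : MvPolynomial (Fin d) K :=
  ∑ b, C (L a b) * X b

theorem Lz_cc (L : Matrix (Fin d) (Fin d) K) (a : Fin d) : constantCoeff (Lz L a) = 0 := by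
  unfold Lz
  rw [map_sum]
  apply Finset.sum_eq_zero
  intro b _
  rw [map_mul, constantCoeff_X, mul_zero]

theorem Lz_mul (L₁ L₂ : Matrix (Fin d) (Fin d) K) :
    Lz (L₁ * L₂) = fun a => aeval (Lz L₂) (Lz L₁ a) := by
  funext a
  unfold Lz
  rw [map_sum]
  have h1 : ∀ b, aeval (fun a => ∑ b, C (L₂ a b) * X b) (C (L₁ a b) * X b) =
      ∑ c, C (L₁ a b * L₂ b c) * (X c : MvPolynomial (Fin d) K) := by
    intro b
    rw [map_mul, aeval_X, algHom_C, Finset.mul_sum]
    apply Finset.sum_congr rfl
    intro c _
    rw [C_mul, ← mul_assoc]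
    rfl
  rw [Finset.sum_congr rfl fun b _ => h1 b, Finset.sum_comm]
  apply Finset.sum_congr rfl
  intro c _
  rw [Matrix.mul_apply, map_sum, Finset.sum_mul]

theorem det_Lz (j : ℕ) (L : Matrix (Fin d) (Fin d) K) :
    (zMat j (Lz L)).det = L.det ^ bo d j := by
  classical
  refine Matrix.diagonal_transvection_induction
    (fun L => (zMat j (Lz L)).det = L.det ^ bo d j) L ?_ ?_ ?_
  · intro D _
    have h1 : Lz (Matrix.diagonal D) = fun a => C (D a) * X a := by
      funext a
      unfold Lz
      rw [Finset.sum_eq_single a]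
      · rw [Matrix.diagonal_apply_eq]
      · intro b _ hb
        rw [Matrix.diagonal_apply_ne _ (Ne.symm hb), C_0, zero_mul]
      · intro h
        exact absurd (Finset.mem_univ a) h
    have h2 : zMat j (Lz (Matrix.diagonal D)) =
        Matrix.diagonal fun t : JI d j => ∏ a, D a ^ t.1 a := by
      ext s t
      have h3 : ∏ b, (C (D b) * X b : MvPolynomial (Fin d) K) ^ t.1 b =
          C (∏ a, D a ^ t.1 a) * monomial t.1 1 := by
        rw [← prod_X, map_prod, ← Finset.prod_mul_distrib]
        apply Finset.prod_congr rfl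
        intro b _
        rw [mul_pow, C_pow]
      rw [h1]
      show coeff s.1 (∏ b, (C (D b) * X b : MvPolynomial (Fin d) K) ^ t.1 b) = _
      rw [h3, coeff_C_mul, coeff_monomial]
      by_cases hst : s = t
      · subst hst
        rw [if_pos rfl, mul_one, Matrix.diagonal_apply_eq]
      · rw [if_neg fun h => hst (Subtype.ext h.symm), mul_zero, Matrix.diagonal_apply_ne _ hst]
    rw [h2, Matrix.det_diagonal, Matrix.det_diagonal, Finset.prod_comm, ← Finset.prod_pow]
    apply Finset.prod_congr rfl
    intro a _
    rw [Finset.prod_pow_eq_pow_sum, sum_JI]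
  · intro tr
    obtain ⟨i, k, hik, c⟩ := tr
    rw [Matrix.TransvectionStruct.det, one_pow]
    have h1 : ∀ a, Lz (Matrix.transvection i k c) a =
        (X a + if a = i then C c * X k else 0 : MvPolynomial (Fin d) K) := by
      intro a
      unfold Lz Matrix.transvection
      have h2 : ∀ b, C ((1 + Matrix.single i k c : Matrix (Fin d) (Fin d) K) a b) *
          (X b : MvPolynomial (Fin d) K) =
          (if b = a then X a else 0) + (if b = k then (if a = i then C c * X k else 0) else 0) := by
        intro b
        rw [Matrix.add_apply, C_add, add_mul]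
        congr 1
        · by_cases h : b = a
          · rw [if_pos h, h, Matrix.one_apply_eq, C_1, one_mul]
          · rw [if_neg h, Matrix.one_apply_ne (Ne.symm h), C_0, zero_mul]
        · rw [Matrix.single_apply]
          by_cases h : b = k
          · rw [if_pos h, h]
            by_cases h3 : a = i
            · rw [if_pos ⟨h3.symm, rfl⟩, if_pos h3]
            · rw [if_neg fun h4 => h3 h4.1.symm, if_neg h3, C_0, zero_mul]
          · rw [if_neg h, if_neg fun h4 => h h4.2.symm, C_0, zero_mul]
      rw [Finset.sum_congr rfl fun b _ => h2 b, Finset.sum_add_distrib, Finset.sum_ite_eq',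
        Finset.sum_ite_eq', if_pos (Finset.mem_univ _), if_pos (Finset.mem_univ _)]
    -- the entries
    have h2 : ∀ s t : JI d j, s.1 k ≤ t.1 k →
        zMat j (Lz (Matrix.transvection i k c)) s t = if s = t then 1 else 0 := by
      intro s t hst
      set z := Lz (Matrix.transvection i k c) with hz
      have hzk : z k = X k := by
        rw [h1, if_neg (Ne.symm hik), add_zero]
      have hdvd : (X k : MvPolynomial (Fin d) K) ∣
          ∏ a ∈ Finset.univ.erase k, z a ^ t.1 a - ∏ a ∈ Finset.univ.erase k, X a ^ t.1 a := by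
        rw [← Ideal.mem_span_singleton, ← Ideal.Quotient.eq, map_prod, map_prod]
        apply Finset.prod_congr rfl
        intro a _
        rw [map_pow, map_pow]
        congr 1
        rw [Ideal.Quotient.eq, Ideal.mem_span_singleton, h1, add_sub_cancel_left]
        split_ifs
        · exact Dvd.intro_left _ rfl
        · exact dvd_zero _
      obtain ⟨B, hB⟩ := hdvd
      have h3 : ∏ a, z a ^ t.1 a = monomial t.1 1 + monomial (Finsupp.single k (t.1 k + 1)) 1 * B := by
        rw [← prod_X, ← Finset.mul_prod_erase Finset.univ (fun a => z a ^ t.1 a) (Finset.mem_univ k),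
          ← Finset.mul_prod_erase Finset.univ (fun a => (X a : MvPolynomial (Fin d) K) ^ t.1 a)
            (Finset.mem_univ k), hzk, ← X_pow_eq_monomial, pow_succ, mul_assoc, ← hB]
        ring
      show coeff s.1 (∏ a, z a ^ t.1 a) = _
      rw [h3, coeff_add, coeff_monomial, coeff_monomial_mul', if_neg (c := _ ≤ _), add_zero]
      · by_cases h4 : s = t
        · rw [if_pos (congrArg Subtype.val h4).symm, if_pos h4]
        · rw [if_neg fun h => h4 (Subtype.ext h.symm), if_neg h4]
      · intro h4
        have h5 := h4 k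
        rw [Finsupp.single_eq_same] at h5
        omega
    have h3 : (zMat j (Lz (Matrix.transvection i k c))).det =
        (1 : Matrix (JI d j) (JI d j) K).det := by
      apply det_congr_blocks (fun s : JI d j => s.1 k)
      · intro s t hst
        rw [h2 s t hst.le, if_neg]
        rintro rfl
        exact lt_irrefl _ hst
      · intro s t hst
        rw [Matrix.one_apply_ne]
        rintro rfl
        exact lt_irrefl _ hst
      · intro s t hst
        rw [h2 s t hst.le, Matrix.one_apply]
    show (zMat j (Lz (Matrix.transvection i k c))).det = 1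
    rw [h3, Matrix.det_one]
  · intro A B hA hB
    rw [Lz_mul, zMat_comp _ _ (Lz_cc B), Matrix.det_mul, hA, hB, Matrix.det_mul, mul_pow, mul_comm]

theorem det_zMat (j : ℕ) (z : Fin d → MvPolynomial (Fin d) K)
    (hz : ∀ b, constantCoeff (z b) = 0) :
    (zMat j z).det = (Matrix.of fun a b => coeff (Finsupp.single b 1) (z a)).det ^ bo d j := by
  classical
  set L : Matrix (Fin d) (Fin d) K := Matrix.of fun a b => coeff (Finsupp.single b 1) (z a) with hL
  rw [← det_Lz]
  have hRR : ∀ b, RR 1 (z b) (Lz L b) := by
    intro b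
    refine ⟨(ord_one _).2 (hz b), (ord_one _).2 (Lz_cc L b), ?_⟩
    intro s hs
    rw [coeff_sub]
    rcases Nat.lt_or_ge s.degree 1 with h | h
    · rw [(ord_one _).2 (hz b) s h, (ord_one _).2 (Lz_cc L b) s h, sub_zero]
    · have h1 : s.degree = 1 := by omega
      obtain ⟨a, ha⟩ : ∃ a, s = Finsupp.single a 1 := (Finsupp.sum_eq_one_iff s).1 h1
      have h2 : coeff s (Lz L b) = L b a := by
        unfold Lz
        rw [coeff_sum, Finset.sum_eq_single a]
        · rw [coeff_C_mul, ha, coeff_X, if_pos rfl, mul_one]
        · intro a' _ ha'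
          rw [coeff_C_mul, ha, coeff_X, if_neg, mul_zero]
          intro h3
          exact ha' (Finsupp.single_left_injective one_ne_zero h3)
        · intro h3
          exact absurd (Finset.mem_univ a) h3
      rw [h2, ha, hL, Matrix.of_apply, sub_self]
  apply det_congr_blocks (fun s : JI d j => s.1.degree)
  · intro s t hst
    exact zMat_lt hz s t hst
  · intro s t hst
    exact zMat_lt (Lz_cc L) s t hst
  · intro s t hst
    have h1 := (RR.prod hRR t.1).2.2 s.1 (by omega)
    rw [coeff_sub] at h1
    exact sub_eq_zero.1 h1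

end Pool.Agent.LLX
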