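import Pool.Agent.LLX.Defs2
import Pool.Agent.LLX.Sym
import Pool.Agent.LLX.Detl
import Pool.Agent.LLX.Eps

/-!
# LLX LOC: the jets of the generators at one place

`V i` is an inverse of the value `linY i` of the linear form `l i` at the expansion `Y i` modulo
`OrdI (j + 1)` (so also modulo `OrdI j` and, since `j ≥ 1`, modulo `OrdI 2`).

`exists_V`: `ord_inv` for `linY i`, whose constant coefficient `c i * τ (lin (l i) ..)` is not `0`
(`linY_const`, `Expn.cne`, `Adm`, injectivity of `τ`).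
`lam_ne`: `Expn.one` and `Expn.tan`.
`loc_mem`: `eps_VI` for the part in `VI`; `⨅ i, mI (x i) ≤ mI (x i)`, the elements of `mI (x i)` are
mapped to `OrdI 1` (`eps_const`, `ord_one`), so those of the `j`-th power to `OrdI j`
(`ord_map_pow`).
`loc_z`: `det_zMat`; the constant coefficient of `eps (zc b)` is `0` (`eps_const`, `zc b` vanishes
at the point), and its linear coefficients are those of `Y 0 (I b) * V 0`
(`eps (zc b) = Y 0 (I b) * V 0 - C _`), so the determinant is given by `detl` with the linear form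
`fun w => τ (l 0 w)`; finally `plu (tv (Y 0)) J = lam * τ (plu v J)` (`Expn.tan`) and
`lin (τ ∘ l 0) (fun w => constantCoeff (Y 0 w)) = c 0 * τ (lin (l 0) (a x))`, `F^[0] x = x`.
`loc_E`: for `i ≠ i'`, `ep i' ∈ mI (x i) ^ j`, so `eps_i` of it is in `OrdI j`; for `i = i'`,
`ep i - 1 ∈ mI (x i) ^ j`.
`loc_ind`: apply `eps_i` and take the coefficients: with `loc_E`,
`∑_t zMat_i s t * τ (c (i, t)) = 0` for all `s`, and `det zMat_i ≠ 0` by `loc_z`
(`pv ≠ 0`, `lam ≠ 0`, ...), so `τ (c (i, t)) = 0`.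
-/

open MvPolynomial

namespace Pool.Agent.LLX

open Pool.Agent.Helper63.SAND

variable {E K Ω W : Type*} [Field E] [Field K] [Fintype W] {n d : ℕ}

theorem exists_V (a : Ω → W → E) (F : Ω → Ω) (j : ℕ) (τ : E →+* K) (x : Ω)
    (v : Fin (d + 1) → W → E) (Y : Fin (n + 1) → W → MvPolynomial (Fin d) K)
    (c : Fin (n + 1) → K) (lam : K) (l : Fin (n + 1) → W → E)
    (hE : Expn a F n j d τ x v Y c lam) (hadm : Adm a F l x) :
    ∃ V : Fin (n + 1) → MvPolynomial (Fin d) K, ∀ i, linY τ l Y i * V i - 1 ∈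
      OrdI K d (j + 1) := by
  have h : ∀ i, ∃ V : MvPolynomial (Fin d) K, linY τ l Y i * V - 1 ∈ OrdI K d (j + 1) := by
    intro i
    have h0 : constantCoeff (linY τ l Y i) ≠ 0 := by
      rw [linY_const a F j τ x v Y c lam l hE i]
      exact mul_ne_zero (hE.cne i) ((map_ne_zero τ).2 (hadm i))
    obtain ⟨V, hV, _⟩ := ord_inv (j + 1) h0
    exact ⟨V, hV⟩
  choose V hV using h
  exact ⟨V, hV⟩

theorem lam_ne (a : Ω → W → E) (F : Ω → Ω) (j : ℕ) (τ : E →+* K) (x : Ω)
    (v : Fin (d + 1) → W → E) (Y : Fin (n + 1) → W → MvPolynomial (Fin d) K)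
    (c : Fin (n + 1) → K) (lam : K) (hE : Expn a F n j d τ x v Y c lam) : lam ≠ 0 := by
  intro h
  obtain ⟨J, hJ⟩ := hE.one
  rw [hE.tan J, h, zero_mul] at hJ
  exact zero_ne_one hJ

theorem loc_z (a : Ω → W → E) (F : Ω → Ω) (j : ℕ) (hj : 1 ≤ j) (τ : E →+* K) (x : Ω)
    (v : Fin (d + 1) → W → E) (Y : Fin (n + 1) → W → MvPolynomial (Fin d) K)
    (c : Fin (n + 1) → K) (lam : K) (l : Fin (n + 1) → W → E)
    (hE : Expn a F n j d τ x v Y c lam) (hadm : Adm a F l x)
    (V : Fin (n + 1) → MvPolynomial (Fin d) K)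
    (hV : ∀ i, linY τ l Y i * V i - 1 ∈ OrdI K d (j + 1)) (I : Fin d → W) :
    (zMat j fun b => eps τ Y V (zc a F l x I b)).det =
      ((c 0 * τ (lin (l 0) (a x)))⁻¹ ^ (d + 1) * (lam * τ (pv (l 0) I v))) ^ bo d j := by
  have hV' : ∀ i, linY τ l Y i * V i - 1 ∈ OrdI K d j := fun i => ord_anti (Nat.le_succ j) (hV i)
  have hz : ∀ b, constantCoeff (eps τ Y V (zc a F l x I b)) = 0 := by
    intro b
    rw [eps_const a F j τ x v Y c lam l hE hadm hj V hV']
    unfold zc
    rw [map_sub, eval_X, eval_C, sub_self, map_zero]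
  rw [det_zMat j _ hz]
  congr 1
  have hlin : lin (fun w => τ (l 0 w)) (fun w => constantCoeff (Y 0 w)) =
      c 0 * τ (lin (l 0) (a x)) := by
    have h1 := linY_const a F j τ x v Y c lam l hE 0
    have h2 : constantCoeff (linY τ l Y 0) =
        lin (fun w => τ (l 0 w)) (fun w => constantCoeff (Y 0 w)) := by
      unfold linY lin
      rw [map_sum]
      refine Finset.sum_congr rfl fun w _ => ?_
      rw [map_mul, constantCoeff_C]
    rw [← h2, h1]
    rfl
  have h0 : lin (fun w => τ (l 0 w)) (fun w => constantCoeff (Y 0 w)) ≠ 0 := by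
    rw [hlin]
    exact mul_ne_zero (hE.cne 0) ((map_ne_zero τ).2 (hadm 0))
  have hD := detl (Y 0) (fun w => τ (l 0 w)) h0 (V 0) (ord_anti (by omega) (hV 0)) I
  rw [hlin] at hD
  have hent : (Matrix.of fun b b' : Fin d =>
      coeff (Finsupp.single b' 1) (eps τ Y V (zc a F l x I b))) =
      (Matrix.of fun b b' : Fin d => coeff (Finsupp.single b' 1) (Y 0 (I b) * V 0)) := by
    ext b b'
    simp only [Matrix.of_apply]
    unfold zc eps
    rw [map_sub, coe_eval₂Hom, eval₂_X, eval₂_C, coeff_sub]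
    have : coeff (Finsupp.single b' 1)
        (((C : K →+* MvPolynomial (Fin d) K).comp τ) (npt a F l x (0, I b))) = 0 := by
      rw [RingHom.comp_apply, coeff_C, if_neg]
      intro h
      have := congrArg (fun f => f b') h
      simp at this
    rw [this, sub_zero]
  rw [hent, hD]
  congr 1
  unfold pv
  rw [map_sum, Finset.mul_sum]
  refine Finset.sum_congr rfl fun w _ => ?_
  rw [hE.tan, map_mul]
  ring

variable {M : ℕ} (a : Ω → W → E) (F : Ω → Ω) (j : ℕ) (hj : 1 ≤ j) (τ : E →+* K) (x : Fin M → Ω)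
    (v : Fin M → Fin (d + 1) → W → E) (Y : Fin M → Fin (n + 1) → W → MvPolynomial (Fin d) K)
    (c : Fin M → Fin (n + 1) → K) (lam : Fin M → K) (l : Fin (n + 1) → W → E)
    (hE : ∀ i, Expn a F n j d τ (x i) (v i) (Y i) (c i) (lam i)) (hadm : ∀ i, Adm a F l (x i))
    (V : Fin M → Fin (n + 1) → MvPolynomial (Fin d) K)
    (hV : ∀ i q, linY τ l (Y i) q * V i q - 1 ∈ OrdI K d (j + 1)) (I : Fin M → Fin d → W)
    (ep : Fin M → MvPolynomial (Fin (n + 1) × W) E)

include hj hE hadm hV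

omit ep I in
/-- Elements of the powers of the maximal ideal. -/
theorem loc_mI (i : Fin M) (P : MvPolynomial (Fin (n + 1) × W) E)
    (hP : P ∈ mI a F l (x i) ^ j) : eps τ (Y i) (V i) P ∈ OrdI K d j := by
  refine ord_map_pow (eps τ (Y i) (V i)) (mI a F l (x i)) (fun Q hQ => ?_) j P hP
  rw [ord_one, eps_const a F j τ (x i) (v i) (Y i) (c i) (lam i) l (hE i) (hadm i) hj (V i)
    (fun q => ord_anti (Nat.le_succ j) (hV i q))]
  have h1 : eval (npt a F l (x i)) Q = 0 := hQ
  rw [h1, map_zero]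

theorem loc_mem (i : Fin M) (P : MvPolynomial (Fin (n + 1) × W) E)
    (hP : P ∈ VI a F l ⊔ (⨅ i, mI a F l (x i)) ^ j) :
    eps τ (Y i) (V i) P ∈ OrdI K d j := by
  obtain ⟨P1, h1, P2, h2, rfl⟩ := Submodule.mem_sup.1 hP
  rw [map_add]
  refine (OrdI K d j).add_mem ?_ ?_
  · exact eps_VI a F j τ (x i) (v i) (Y i) (c i) (lam i) l (hE i) (hadm i) (V i)
      (fun q => ord_anti (Nat.le_succ j) (hV i q)) P1 h1
  · exact loc_mI a F j hj τ x v Y c lam l hE hadm V hV i P2
      (Ideal.pow_right_mono (iInf_le _ i) j h2)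

theorem loc_E (he1 : ∀ i, ep i - 1 ∈ mI a F l (x i) ^ j)
    (he2 : ∀ i i', i ≠ i' → ep i ∈ mI a F l (x i') ^ j) (i i' : Fin M) (s t : JI d j) :
    coeff s.1 (eps τ (Y i) (V i) (Er a F l x I ep (i', t))) =
      if i = i' then zMat j (fun b => eps τ (Y i) (V i) (zc a F l (x i) (I i) b)) s t else 0 := by
  by_cases h : i = i'
  · subst h
    rw [if_pos rfl]
    unfold Er zMat
    simp only [Matrix.of_apply]
    have h1 : ep i * ∏ b, zc a F l (x i) (I i) b ^ t.1 b =
        ∏ b, zc a F l (x i) (I i) b ^ t.1 b +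
          (ep i - 1) * ∏ b, zc a F l (x i) (I i) b ^ t.1 b := by ring
    rw [h1, map_add, coeff_add, map_mul]
    have h2 : eps τ (Y i) (V i) (ep i - 1) *
        eps τ (Y i) (V i) (∏ b, zc a F l (x i) (I i) b ^ t.1 b) ∈ OrdI K d j :=
      (OrdI K d j).mul_mem_right _ (loc_mI a F j hj τ x v Y c lam l hE hadm V hV i _ (he1 i))
    rw [h2 s.1 s.2, add_zero, map_prod]
    simp only [map_pow]
  · rw [if_neg h]
    unfold Er
    rw [map_mul]
    exact (OrdI K d j).mul_mem_right _ (loc_mI a F j hj τ x v Y c lam l hE hadm V hV i _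
      (he2 i' i (Ne.symm h))) s.1 s.2

theorem loc_ind (he1 : ∀ i, ep i - 1 ∈ mI a F l (x i) ^ j)
    (he2 : ∀ i i', i ≠ i' → ep i ∈ mI a F l (x i') ^ j)
    (hI : ∀ i, pv (l 0) (I i) (v i) ≠ 0) (b : Fin M × JI d j → E)
    (hb : ∑ r, C (b r) * Er a F l x I ep r ∈ VI a F l ⊔ (⨅ i, mI a F l (x i)) ^ j) : b = 0 := by
  classical
  have key : ∀ i, ∀ t : JI d j, b (i, t) = 0 := by
    intro i
    have h1 := loc_mem a F j hj τ x v Y c lam l hE hadm V hV i _ hb
    have h2 : (zMat j fun b => eps τ (Y i) (V i) (zc a F l (x i) (I i) b)).mulVec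
        (fun t => τ (b (i, t))) = 0 := by
      funext s
      have h3 := h1 s.1 s.2
      rw [map_sum, coeff_sum] at h3
      have h4 : ∀ r : Fin M × JI d j, coeff s.1 (eps τ (Y i) (V i) (C (b r) * Er a F l x I ep r)) =
          if i = r.1 then
            zMat j (fun b => eps τ (Y i) (V i) (zc a F l (x i) (I i) b)) s r.2 * τ (b r)
          else 0 := by
        intro r
        have h5 : eps τ (Y i) (V i) (C (b r)) = C (τ (b r)) := by
          unfold eps
          rw [coe_eval₂Hom, eval₂_C]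
          rfl
        rw [map_mul, h5, coeff_C_mul,
          loc_E a F j hj τ x v Y c lam l hE hadm V hV I ep he1 he2 i r.1 s r.2]
        split_ifs
        · rw [mul_comm]
        · rw [mul_zero]
      rw [Finset.sum_congr rfl fun r _ => h4 r, Fintype.sum_prod_type] at h3
      simp only [Finset.sum_ite_irrel, Finset.sum_const_zero, Finset.sum_ite_eq, Finset.mem_univ,
        if_true] at h3
      exact h3
    have h3 : (zMat j fun b => eps τ (Y i) (V i) (zc a F l (x i) (I i) b)).det ≠ 0 := by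
      rw [loc_z a F j hj τ (x i) (v i) (Y i) (c i) (lam i) l (hE i) (hadm i) (V i) (hV i) (I i)]
      refine pow_ne_zero _ (mul_ne_zero (pow_ne_zero _ (inv_ne_zero (mul_ne_zero ((hE i).cne 0)
        ((map_ne_zero τ).2 (hadm i 0))))) (mul_ne_zero ?_ ((map_ne_zero τ).2 (hI i))))
      exact lam_ne a F j τ (x i) (v i) (Y i) (c i) (lam i) (hE i)
    have h4 := Matrix.eq_zero_of_mulVec_eq_zero h3 h2
    intro t
    have h5 := congrFun h4 t
    exact (map_eq_zero τ).1 h5
  funext r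
  exact key r.1 r.2

end Pool.Agent.LLX
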