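import Pool.Agent.LLX.Tanb
import Pool.Agent.LLX.Smo

/-!
# LLX TANX: the tangent spaces have dimension `d + 1`

Proof. `smo` gives `Jac a c d Fs` (`Ω` is nonempty because of `x`). Choose `w₀` with
`a x w₀ ≠ 0` and `σ`, `t` from `Jac.minor`; by `jac_li` the differentials of the `Fs (t i)` at `a x`
are linearly independent, so the kernel `N` of `z ↦ (∑_w eval (a x) (∂_w Fs (t i)) * z w)_i` has
dimension `card W - c = d + 1`. Let `v` be a basis of `N`. For a form `P` vanishing on `a`,
`Jac.gen` gives a form `q`, `eval (a x) q ≠ 0`, with `q * P = ∑ B i * Fs (t i)`; differentiate and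
evaluate at `a x` (`P` and the `Fs (t i)` vanish there):
`eval (a x) q * ∂_w P (a x) = ∑ eval (a x) (B i) * ∂_w (Fs (t i)) (a x)`, so the differential of `P`
vanishes on `N`: `TanVec`.
-/

open MvPolynomial

namespace Pool.Agent.LLX

open Pool.Agent.Helper63.SAND

theorem exists_tanb {E Ω W : Type*} [Field E] [CharZero E] [Fintype W] (a : Ω → W → E)
    (ha0 : ∀ x, a x ≠ 0) (d : ℕ) (hsm : SmD a d) (x : Ω) :
    ∃ v : Fin (d + 1) → W → E, TanB a x v := by
  classical
  have : Nonempty Ω := ⟨x⟩
  obtain ⟨c, s, Fs, hJ⟩ := smo a d hsm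
  obtain ⟨w₀, hw₀⟩ := Function.ne_iff.1 (ha0 x)
  obtain ⟨σ, t, -, ht⟩ := hJ.minor x w₀ hw₀
  have hli := jac_li a Fs x σ t ht
  set M : Matrix (Fin c) W E := Matrix.of fun i w => eval (a x) (pderiv w (Fs (t i))) with hM
  have hrank : M.rank = c := by
    have h1 : LinearIndependent E M.row := hli
    have h2 := LinearIndependent.rank_matrix h1
    rwa [Fintype.card_fin] at h2
  have hker : Module.finrank E (LinearMap.ker M.mulVecLin) = d + 1 := by
    have h1 := LinearMap.finrank_range_add_finrank_ker M.mulVecLin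
    rw [Module.finrank_fintype_fun_eq_card] at h1
    have h2 : Module.finrank E (LinearMap.range M.mulVecLin) = c := hrank
    have h3 := hJ.card
    omega
  let b := Module.finBasisOfFinrankEq E (LinearMap.ker M.mulVecLin) hker
  have hb : ∀ k i, ∑ w, eval (a x) (pderiv w (Fs (t i))) * (b k : W → E) w = 0 := by
    intro k i
    have h1 : M.mulVecLin (b k : W → E) = 0 := LinearMap.mem_ker.1 (b k).2
    exact congrFun h1 i
  refine ⟨fun k => (b k : W → E), ?_, ?_⟩
  · exact b.linearIndependent.map' (Submodule.subtype _) (Submodule.ker_subtype _)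
  · intro k P m hP hPv
    obtain ⟨q, m', -, hq0, hmem⟩ := hJ.gen x t hli P m hP hPv
    obtain ⟨B, hB⟩ := (Ideal.mem_span_range_iff_exists_fun).1 hmem
    have hz : ∀ i, eval (a x) (Fs (t i)) = 0 := fun i => hJ.van (t i) x
    have h1 : ∀ w, eval (a x) q * eval (a x) (pderiv w P) =
        ∑ i, eval (a x) (B i) * eval (a x) (pderiv w (Fs (t i))) := by
      intro w
      have h2 := congrArg (fun Q => eval (a x) (pderiv w Q)) hB
      simp only [map_sum, Derivation.leibniz, map_add, smul_eq_mul, map_mul, hz, hPv x, zero_mul,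
        add_zero] at h2
      rw [← h2]
    have h2 : eval (a x) q * ∑ w, eval (a x) (pderiv w P) * (b k : W → E) w = 0 := by
      calc eval (a x) q * ∑ w, eval (a x) (pderiv w P) * (b k : W → E) w
          = ∑ w, (eval (a x) q * eval (a x) (pderiv w P)) * (b k : W → E) w := by
            rw [Finset.mul_sum]
            exact Finset.sum_congr rfl fun w _ => (mul_assoc _ _ _).symm
        _ = ∑ w, ∑ i, eval (a x) (B i) *
              (eval (a x) (pderiv w (Fs (t i))) * (b k : W → E) w) := by
            refine Finset.sum_congr rfl fun w _ => ?_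
            rw [h1, Finset.sum_mul]
            exact Finset.sum_congr rfl fun i _ => mul_assoc _ _ _
        _ = ∑ i, eval (a x) (B i) *
              ∑ w, eval (a x) (pderiv w (Fs (t i))) * (b k : W → E) w := by
            rw [Finset.sum_comm]
            exact Finset.sum_congr rfl fun i _ => (Finset.mul_sum _ _ _).symm
        _ = 0 := by simp [hb]
    exact (mul_eq_zero.1 h2).resolve_left hq0

end Pool.Agent.LLX
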