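import Pool.Agent.LLX.Fin0
import Pool.Agent.LLX.Anti
import Pool.Agent.LLX.Tanx

/-!
# LLX: the main theorem
-/

open MvPolynomial Filter Topology
open scoped LinearAlgebra.Projectivization

namespace Pool.Agent.LLX

open Pool.Agent.Helper90.KSC Pool.Agent.Helper63.SAND Pool.Agent.Helper63.WH Pool.Agent.PW

variable {E : Type*} [Field E] {ι : Type*} [Fintype ι] [DecidableEq ι] {N : ι → ℕ}
variable [CharZero E] [Algebra.IsAlgebraic ℚ E]

theorem anti_tanHt (X : Set (PPt E N)) (d : ℕ) (hsm : SmoothDim X d) (r₀ m₁ : ℕ) (hr₀ : 1 ≤ r₀)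
    (Gc : (Fin (d + 1) → SIx N) × (Fin m₁ → SIx N) → MvPolynomial (SIx N) E)
    (hGc : AntiCan (fun x : X => seg (x : PPt E N)) d r₀ m₁ Gc) :
    ∃ κ : ℝ, 0 ≤ κ ∧ ∀ x : X, (∃ I, eval (seg (x : PPt E N)) (Gc I) ≠ 0) → TanHt X d κ x := by
  obtain ⟨κ, hκ, h⟩ := anti (fun x : X => seg (x : PPt E N)) (fun x => seg_ne_zero _) d r₀ m₁ hr₀
    Gc hGc
  refine ⟨κ, hκ, fun x hx => ?_⟩
  obtain ⟨v, hv⟩ := exists_tanb (fun x : X => seg (x : PPt E N)) (fun x => seg_ne_zero _) d hsm x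
  refine ⟨v, hv, ?_⟩
  have h1 := h x v hv hx
  simp only [absHeight_seg] at h1
  exact h1

end Pool.Agent.LLX
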