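import Pool.Agent.LLX.Badx
import Pool.Agent.LLX.Gainx
import Pool.Agent.LLX.Detb
import Pool.Agent.LLX.Class
import Pool.Agent.LLX.Abound

/-!
# LLX PLACES: expansions at all the places

Proof. Let `S₁` be the set of `badx`, `S₂` the union of the sets of `goodx` and `gainx`. `abound`
gives a bound `B₀` for `S₁` at all the places; `badx` for this `B₀` gives `ρ₀`, `θ`;
`B = max ρ₀⁻¹ θ⁻¹` (so `(ρ₀ θ ^ n)⁻¹ ≤ B ^ (n + 1)`). For the elements of `S₂` there is `p₀` such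
that `‖τ b‖ ≤ 1` for all `b ∈ S₂`, `p ≥ p₀`, `τ : E →+* PadicAlgCl p` (`Helper63/WH/Pint.lean`,
`pint`-lemma for finite sets). `pst` is a prime `≥ p₀` (`Nat.exists_infinite_primes`), `Kc`, `ε`
from `classes` at `pst`.
Bad and archimedean places: `badx` (for every `i`) and `detb` with `ρ = ρ₀ * θ ^ n`. Good places:
`goodx` and `detb_int`. The place `pst`: `classes` and `gainx`, for each `D'`.
`IsNonarchimedean` for `PadicAlgCl p`: `PadicAlgCl.isNonarchimedean p`.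
-/

open MvPolynomial

namespace Pool.Agent.LLX

open Pool.Agent.Helper63.SAND Pool.Agent.Helper63.WH

/-- At the place `τ` there are expansions, with normalised constant coefficients, such that the
determinants of the jets are bounded by `Γ`. -/
def PlaceOK {E Ω W K : Type*} [Field E] [Fintype W] [NormedField K] {n M : ℕ} (a : Ω → W → E)
    (F : Ω → Ω) (j d : ℕ) (τ : E →+* K) (x : Fin M → Ω) (v : Fin M → Fin (d + 1) → W → E)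
    (Γ : (Fin (n + 1) → ℕ) → ℕ → ℝ) : Prop :=
  ∃ (Y : Fin M → Fin (n + 1) → W → MvPolynomial (Fin d) K) (cc : Fin M → Fin (n + 1) → K)
    (lam : Fin M → K), (∀ i, Expn a F n j d τ (x i) (v i) (Y i) (cc i) (lam i)) ∧
    (∀ i q w, ‖constantCoeff (Y i q w)‖ ≤ 1) ∧
    (∀ i q, ∃ w, ‖constantCoeff (Y i q w)‖ = 1) ∧
    ∀ (ω : Fin (n + 1) → ℕ) (k : ℕ) (g : Fin M × JI d j → (Fin (n + 1) × W →₀ ℕ)),
      (∀ c i, ∑ w, g c (i, w) = k * ω i) → ‖(Gh Y g).det‖ ≤ Γ ω k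

private theorem pl_bad {E Ω W K : Type*} [Field E] [Fintype W] [NormedField K] {n M : ℕ}
    (a : Ω → W → E) (F : Ω → Ω) (j d : ℕ) (τ : E →+* K) (x : Fin M → Ω)
    (v : Fin M → Fin (d + 1) → W → E) (ρ₀ θ B : ℝ) (hρ0 : 0 < ρ₀) (hρ1 : ρ₀ ≤ 1) (hθ0 : 0 < θ)
    (hθ1 : θ ≤ 1) (hB1 : ρ₀⁻¹ ≤ B) (hB2 : θ⁻¹ ≤ B)
    (h : ∀ i, ∃ (Y : Fin (n + 1) → W → MvPolynomial (Fin d) K) (cc : Fin (n + 1) → K) (lam : K),
        Expn a F n j d τ (x i) (v i) Y cc lam ∧ (∀ i w, ‖constantCoeff (Y i w)‖ ≤ 1) ∧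
        (∀ i, ∃ w, ‖constantCoeff (Y i w)‖ = 1) ∧ ∀ i w, nrm (ρ₀ * θ ^ n) (Y i w) ≤ 2) :
    PlaceOK (n := n) a F j d τ x v fun ω k => (M * bz d j).factorial *
        (2 ^ (k * ∑ i, ω i) * B ^ ((n + 1) * j)) ^ (M * bz d j) := by
  choose Y cc lam h1 h2 h3 h4 using h
  refine ⟨Y, cc, lam, h1, h2, h3, fun ω k g hg => ?_⟩
  have hθn : 0 < θ ^ n := pow_pos hθ0 n
  have hr0 : 0 < ρ₀ * θ ^ n := mul_pos hρ0 hθn
  have hr1 : ρ₀ * θ ^ n ≤ 1 := mul_le_one₀ hρ1 hθn.le (pow_le_one₀ hθ0.le hθ1)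
  refine (detb Y (ρ₀ * θ ^ n) hr0 hr1 h4 ω k g hg).trans ?_
  have hρi : 0 < ρ₀⁻¹ := inv_pos.2 hρ0
  have hB0 : 0 < B := hρi.trans_le hB1
  have h5 : (ρ₀ * θ ^ n)⁻¹ ≤ B ^ (n + 1) := by
    rw [mul_inv, ← inv_pow, pow_succ, mul_comm]
    exact mul_le_mul (pow_le_pow_left₀ (inv_pos.2 hθ0).le hB2 n) hB1 hρi.le (pow_nonneg hB0.le n)
  have h6 : (ρ₀ * θ ^ n)⁻¹ ^ j ≤ B ^ ((n + 1) * j) := by
    rw [pow_mul]
    exact pow_le_pow_left₀ (inv_pos.2 hr0).le h5 j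
  refine mul_le_mul_of_nonneg_left (pow_le_pow_left₀ (by positivity) ?_ _) (by positivity)
  exact mul_le_mul_of_nonneg_left h6 (by positivity)

theorem places {E Ω W T : Type*} [Field E] [CharZero E] [Algebra.IsAlgebraic ℚ E]
    [IsAlgClosed E] [Fintype W] [Fintype T] {c d s : ℕ} (a : Ω → W → E)
    (ha0 : ∀ x, a x ≠ 0) (F : Ω → Ω) (e : ℕ) (G : T → W → MvPolynomial W E)
    (hG : LocF a (fun x => a (F x)) e G) (hcl : Clo a) (Fs : Fin s → MvPolynomial W E)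
    (hJ : Jac a c d Fs) (D : ℕ) (hD : 1 ≤ D) :
    ∃ (p₀ : ℕ) (pst : Nat.Primes) (Kc : ℕ) (ε B : ℝ), p₀ ≤ (pst : ℕ) ∧ 0 < ε ∧ ε < 1 ∧ 1 ≤ B ∧
      ∀ (n j M : ℕ) (x : Fin M → Ω) (v : Fin M → Fin (d + 1) → W → E),
      (∀ i, FieldLE a G D (x i)) → (∀ i, TanB a (x i) (v i)) →
      (∀ τ : E →+* ℂ, PlaceOK (n := n) a F j d τ x v fun ω k => (M * bz d j).factorial *
        (2 ^ (k * ∑ i, ω i) * B ^ ((n + 1) * j)) ^ (M * bz d j)) ∧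
      (∀ (p : Nat.Primes) (τ : E →+* PadicAlgCl p), PlaceOK (n := n) a F j d τ x v fun ω k =>
        (M * bz d j).factorial * (2 ^ (k * ∑ i, ω i) * B ^ ((n + 1) * j)) ^ (M * bz d j)) ∧
      (∀ (p : Nat.Primes) (τ : E →+* PadicAlgCl p), p₀ ≤ (p : ℕ) →
        PlaceOK (n := n) a F j d τ x v fun _ _ => 1) ∧
      ∀ (τ : E →+* PadicAlgCl pst) (D' : ℕ), PlaceOK (n := n) a F j d τ x v fun _ _ =>
        ε ^ ((∑ r : Fin M × JI d j, (D' - r.2.1.degree)) - Kc * hil a (D' - 1) * D') := by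
  classical
  obtain ⟨S1, hS1⟩ := badx a ha0 hcl F e G hG Fs hJ
  obtain ⟨S2, hS2⟩ := goodx a ha0 hcl F e G hG Fs hJ
  obtain ⟨S3, hS3⟩ := gainx a ha0 hcl F e G hG Fs hJ
  obtain ⟨B₀, hB₀, hBp, hBc⟩ := abound S1
  obtain ⟨ρ₀, θ, hρ0, hρ1, hθ0, hθ1, hbad⟩ := hS1 B₀ hB₀
  obtain ⟨p₀, hp₀⟩ := pint (S2 ∪ S3)
  obtain ⟨pst, hq⟩ : ∃ pst : Nat.Primes, p₀ ≤ (pst : ℕ) := by
    obtain ⟨q, hq, hqp⟩ := Nat.exists_infinite_primes p₀
    exact ⟨⟨q, hqp⟩, hq⟩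
  obtain ⟨Kc, ε, hε0, hε1, hcl'⟩ := classes a ha0 G D hD pst
  have hρi : (1 : ℝ) ≤ ρ₀⁻¹ := (one_le_inv₀ hρ0).2 hρ1
  refine ⟨p₀, pst, Kc, ε, max ρ₀⁻¹ θ⁻¹, hq, hε0, hε1, hρi.trans (le_max_left _ _), ?_⟩
  intro n j M x v hx hv
  refine ⟨?_, ?_, ?_, ?_⟩
  · intro τ
    exact pl_bad a F j d τ x v ρ₀ θ _ hρ0 hρ1 hθ0 hθ1 (le_max_left _ _) (le_max_right _ _)
      fun i => hbad ℂ τ (hBc τ) (x i) (v i) (hv i) n j
  · intro p τ
    exact pl_bad a F j d τ x v ρ₀ θ _ hρ0 hρ1 hθ0 hθ1 (le_max_left _ _) (le_max_right _ _)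
      fun i => hbad (PadicAlgCl p) τ (hBp p τ) (x i) (v i) (hv i) n j
  · intro p τ hp
    have h1 := fun i => hS2 (PadicAlgCl p) τ (PadicAlgCl.isNonarchimedean p)
      (fun b hb => by
        rw [← pAbs_apply]
        exact hp₀ p hp τ b (Finset.mem_union_left _ hb)) (x i) (v i) (hv i) n j
    choose Y cc lam h2 h3 h4 h5 using h1
    exact ⟨Y, cc, lam, h2, h3, h4, fun ω k g _ =>
      detb_int (PadicAlgCl.isNonarchimedean p) Y h5 g⟩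
  · intro τ D'
    obtain ⟨cl, w₀, h1, h2, h3⟩ := hcl' τ M x hx
    obtain ⟨Y, cc, lam, h4, h5, h6, h7⟩ := hS3 (PadicAlgCl pst) τ
      (PadicAlgCl.isNonarchimedean _)
      (fun b hb => by
        rw [← pAbs_apply]
        exact hp₀ _ hq τ b (Finset.mem_union_right _ hb)) ε hε0 hε1 n j M Kc D' x v hv cl w₀
      h1 h2 h3
    exact ⟨Y, cc, lam, h4, h5, h6, fun ω k g _ => h7 g⟩

end Pool.Agent.LLX
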