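import Mathlib

/-!
# LLX RANKDET: determinants of small perturbations of matrices of small rank

Proof. Expand `det (A' + A'')` by multilinearity in the rows
(`Matrix.detRowAlternating`, `MultilinearMap.map_add_univ`): it is the sum over the subsets `T` of
the rows of `det (B T)`, where the row `r` of `B T` is the row of `A'` for `r ∈ T` and the row of
`A''` otherwise. If `card T > card κ` the rows of `A' = P * Q` with index in `T` are linearly
dependent (they are combinations of the `card κ` rows of `Q`), so `det (B T) = 0`. If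
`card T ≤ card κ`, then `v (det (B T)) ≤ ∏_{r ∉ T} ε ^ (n r)` (expand the determinant, `v` is
nonarchimedean), which is `ε ^ (∑_{r ∉ T} n r)`, and
`∑_{r ∉ T} n r ≥ ∑ n r - card T * D' ≥ ∑ n r - card κ * D'`. Finally the ultrametric inequality.
-/

namespace Pool.Agent.LLX

private theorem rd_sum {K : Type*} [Field K] {v : AbsoluteValue K ℝ} (hv : IsNonarchimedean v)
    {α : Type*} (s : Finset α) (f : α → K) {C : ℝ} (hC : 0 ≤ C) (h : ∀ i ∈ s, v (f i) ≤ C) :
    v (∑ i ∈ s, f i) ≤ C := by
  classical
  induction s using Finset.induction_on with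
  | empty => simpa using hC
  | insert a s ha ih =>
    rw [Finset.sum_insert ha]
    refine (hv _ _).trans (max_le (h a (Finset.mem_insert_self a s)) ?_)
    exact ih fun i hi => h i (Finset.mem_insert_of_mem hi)

private theorem rd_det {K : Type*} [Field K] {v : AbsoluteValue K ℝ} (hv : IsNonarchimedean v)
    {ι : Type*} [Fintype ι] [DecidableEq ι] (B : Matrix ι ι K) (b : ι → ℝ) (hb : ∀ r, 0 ≤ b r)
    (h : ∀ r c, v (B r c) ≤ b r) : v B.det ≤ ∏ r, b r := by
  rw [Matrix.det_apply]
  refine rd_sum hv _ _ (Finset.prod_nonneg fun r _ => hb r) fun σ _ => ?_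
  have h1 : v (∏ i, B (σ i) i) ≤ ∏ r, b r := by
    rw [map_prod, ← Equiv.prod_comp σ b]
    exact Finset.prod_le_prod (fun i _ => v.nonneg _) fun i _ => h (σ i) i
  rcases Int.units_eq_one_or (Equiv.Perm.sign σ) with hs | hs
  · rw [hs, one_smul]
    exact h1
  · rw [hs, Units.neg_smul, one_smul, v.map_neg]
    exact h1

private theorem rd_zero {K : Type*} [Field K] {ι κ : Type*} [Fintype ι] [DecidableEq ι]
    [Fintype κ] {A' B : Matrix ι ι K} {P : Matrix ι κ K} {Q : Matrix κ ι K} (hPQ : A' = P * Q)
    {T : Finset ι} (hT : Fintype.card κ < T.card) (hB : ∀ r ∈ T, B r = A' r) : B.det = 0 := by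
  classical
  by_contra hne
  have hli : LinearIndependent K (fun r => B r) := Matrix.linearIndependent_rows_of_det_ne_zero hne
  have hli2 : LinearIndependent K (fun r : T => B r.1) :=
    hli.comp (fun r : T => r.1) Subtype.val_injective
  have h1 : Module.finrank K (Submodule.span K (Set.range fun r : T => B r.1)) = T.card := by
    rw [finrank_span_eq_card hli2, Fintype.card_coe]
  have h2 : Submodule.span K (Set.range fun r : T => B r.1) ≤
      Submodule.span K (Set.range fun k => Q k) := by
    rw [Submodule.span_le]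
    rintro _ ⟨r, rfl⟩
    have h3 : B r.1 = ∑ k, P r.1 k • Q k := by
      rw [hB r.1 r.2, hPQ]
      funext c
      rw [Matrix.mul_apply, Finset.sum_apply]
      rfl
    simp only
    rw [h3]
    exact Submodule.sum_mem _ fun k _ =>
      Submodule.smul_mem _ _ (Submodule.subset_span ⟨k, rfl⟩)
  have h4 := Submodule.finrank_mono h2
  have h5 : Module.finrank K (Submodule.span K (Set.range fun k => Q k)) ≤ Fintype.card κ :=
    finrank_range_le_card (fun k => Q k)
  omega

theorem rankdet {K : Type*} [Field K] (v : AbsoluteValue K ℝ) (hv : IsNonarchimedean v)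
    {ι κ : Type*} [Fintype ι] [DecidableEq ι] [Fintype κ] (A' A'' : Matrix ι ι K)
    (P : Matrix ι κ K) (Q : Matrix κ ι K) (hPQ : A' = P * Q) (h1 : ∀ r c, v (A' r c) ≤ 1)
    (ε : ℝ) (hε : 0 ≤ ε) (hε1 : ε ≤ 1) (n : ι → ℕ) (D' : ℕ) (hn : ∀ r, n r ≤ D')
    (h2 : ∀ r c, v (A'' r c) ≤ ε ^ (n r)) :
    v (A' + A'').det ≤ ε ^ ((∑ r, n r) - Fintype.card κ * D') := by
  classical
  have e1 : (A' + A'').det = ∑ T : Finset ι, Matrix.det (T.piecewise A' A'') :=
    MultilinearMap.map_add_univ (Matrix.detRowAlternating (n := ι) (R := K)).toMultilinearMap A' A''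
  rw [e1]
  refine rd_sum hv _ _ (pow_nonneg hε _) fun T _ => ?_
  by_cases hT : Fintype.card κ < T.card
  · rw [rd_zero (B := (T.piecewise A' A'' : Matrix ι ι K)) hPQ hT
      (fun r hr => Finset.piecewise_eq_of_mem T A' A'' hr), v.map_zero]
    exact pow_nonneg hε _
  · rw [not_lt] at hT
    have hb : v (Matrix.det (T.piecewise A' A'')) ≤
        ∏ r, (if r ∈ T then (1 : ℝ) else ε ^ n r) := by
      refine rd_det hv _ _ (fun r => ?_) fun r c => ?_
      · by_cases hr : r ∈ T
        · rw [if_pos hr]; exact zero_le_one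
        · rw [if_neg hr]; exact pow_nonneg hε _
      · by_cases hr : r ∈ T
        · rw [if_pos hr, Finset.piecewise_eq_of_mem T A' A'' hr]
          exact h1 r c
        · rw [if_neg hr, Finset.piecewise_eq_of_notMem T A' A'' hr]
          exact h2 r c
    refine hb.trans ?_
    have e2 : ∏ r, (if r ∈ T then (1 : ℝ) else ε ^ n r) = ε ^ (∑ r, if r ∈ T then 0 else n r) := by
      rw [← Finset.prod_pow_eq_pow_sum]
      refine Finset.prod_congr rfl fun r _ => ?_
      by_cases hr : r ∈ T
      · rw [if_pos hr, if_pos hr, pow_zero]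
      · rw [if_neg hr, if_neg hr]
    rw [e2]
    refine pow_le_pow_of_le_one hε hε1 ?_
    have e3 : ∑ r, n r = (∑ r, if r ∈ T then 0 else n r) + ∑ r ∈ T, n r := by
      rw [← Finset.sum_filter_add_sum_filter_not Finset.univ (fun r => r ∈ T) n, add_comm]
      congr 1
      · rw [Finset.sum_filter]
        refine Finset.sum_congr rfl fun r _ => ?_
        by_cases hr : r ∈ T
        · simp [hr]
        · simp [hr]
      · refine Finset.sum_congr ?_ fun _ _ => rfl
        ext r
        simp
    have e4 : ∑ r ∈ T, n r ≤ Fintype.card κ * D' := by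
      calc ∑ r ∈ T, n r ≤ ∑ _r ∈ T, D' := Finset.sum_le_sum fun r _ => hn r
        _ = T.card * D' := by rw [Finset.sum_const, smul_eq_mul]
        _ ≤ Fintype.card κ * D' := Nat.mul_le_mul_right D' hT
    omega

end Pool.Agent.LLX
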