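import Pool.Agent.LLX.Newt
import Pool.Agent.LLX.Ord

/-!
# LLX TAN: the linear part of the expansions

Proof. Write `Y = newt σ P y Q m`, `m ≥ 1`, `T = tv Y`: `T 0 w = y w` (`newt_const`),
`T (succ b) w = coeff (single b 1) (Y w)`.
(1) Linear equations. `T k` is in the kernel of the differentials of the `P i` at `y`:
`∑_w eval y (∂_w P i) * T k w = 0` for all `i`, `k`. For `k = 0` this is Euler's formula:
`P i` is homogeneous and `eval y (P i) = 0`. For `k = succ b`: `aeval Y (P i) ∈ OrdI (m+1) ≤
OrdI 2` (`newt_ord`), and the coefficient of `X b` in `aeval Y (P i)` is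
`∑_w eval y (∂_w P i) * coeff (single b 1) (Y w)` (by `taylor_ideal` with `R = A =
MvPolynomial (Fin d) K`, `I = OrdI 1`, at the constants `C (y w)`; or directly by induction on
`P i`: `P ↦ coeff (single b 1) (aeval Y P)` is a derivation at `constantCoeff`).
(2) The kernel `N` of `z ↦ (∑_w eval y (∂_w P i) * z w)_i`, `(W → K) → (Fin c → K)`, has dimension
`card W - c = d + 1` because the `c × c` minor `jac σ P y` is invertible (`hQ`), so the map is
surjective.
(3) The vectors `τ ∘ v k`, `k ≤ d`, are in `N` (`TanVec` for the forms `Fs (t i)`; note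
`eval y (∂_w ((Fs (t i)).map τ)) = (τ (a x w₀))⁻¹ ^ (deg - 1) * τ (eval (a x) (∂_w (Fs (t i))))`,
by homogeneity of `∂_w`, so the equations for `a x` and for `y = τ (a x / a x w₀)` are
proportional), and they are linearly independent over `K` (a family of vectors over `E` which is
linearly independent over `E` stays so after applying the field embedding `τ`: some
`(d+1) × (d+1)` minor is nonzero; e.g. `LinearIndependent.map'`/`plu v J ≠ 0` for some `J`,
which is the statement that the matrix `v` has rank `d + 1`).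
So they are a basis of `N`, and `T k = ∑_k' Λ k k' τ (v k')` with a matrix `Λ`. Then
`plu T J = det Λ * τ (plu v J)`, `lam = det Λ`.
(4) For `J = Fin.cons (σ (inl 0)) (fun b => σ (inr (inr b)))` the matrix
`(T k (J k'))` is `1` at `(0,0)`, `T (succ b) (σ (inl 0)) = 0`, `T (succ b) (σ (inr (inr b'))) =
δ_{b b'}` (`newt_inl`, `newt_inr`): triangular with diagonal entries `1`, since
`y (σ (inl 0)) = 1`.
-/

open MvPolynomial

namespace Pool.Agent.LLX

/-- homogeneity of the evaluation -/
private lemma eval_smul_hom {E W : Type*} [Field E] {F : MvPolynomial W E} {n : ℕ}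
    (h : F.IsHomogeneous n) (cc : E) (z : W → E) :
    eval (fun w => cc * z w) F = cc ^ n * eval z F := by
  rw [eval_eq, eval_eq, Finset.mul_sum]
  refine Finset.sum_congr rfl fun m hm => ?_
  have h1 : ∏ i ∈ m.support, (cc * z i) ^ m i = cc ^ n * ∏ i ∈ m.support, z i ^ m i := by
    rw [h.degree_eq_sum_deg_support hm, ← Finset.prod_pow_eq_pow_sum, ← Finset.prod_mul_distrib]
    exact Finset.prod_congr rfl fun i _ => mul_pow _ _ _
  rw [h1]
  ring

private lemma eval_map_comp {E K W : Type*} [Field E] [Field K] (τ : E →+* K) (z : W → E)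
    (F : MvPolynomial W E) : eval (fun w => τ (z w)) (F.map τ) = τ (eval z F) := by
  rw [eval_map, eval_eq, map_sum]
  rw [eval₂_eq]
  refine Finset.sum_congr rfl fun m _ => ?_
  rw [map_mul, map_prod]
  congr 1
  exact Finset.prod_congr rfl fun i _ => (map_pow _ _ _).symm

private lemma coeff_one_mul {K : Type*} [Field K] {d : ℕ} (b : Fin d)
    (A B : MvPolynomial (Fin d) K) :
    coeff (Finsupp.single b 1) (A * B) =
      constantCoeff A * coeff (Finsupp.single b 1) B +
        coeff (Finsupp.single b 1) A * constantCoeff B := by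
  classical
  rw [coeff_mul, Finsupp.antidiagonal_single, Finset.sum_map, Finset.Nat.antidiagonal_succ]
  simp [constantCoeff_eq]

/-- the linear part of a composition -/
private lemma coeff_aeval {K W : Type*} [Field K] [Fintype W] {d : ℕ} (b : Fin d)
    (Y : W → MvPolynomial (Fin d) K) (P : MvPolynomial W K) :
    coeff (Finsupp.single b 1) (aeval Y P) =
      ∑ w, eval (fun w => constantCoeff (Y w)) (pderiv w P) *
        coeff (Finsupp.single b 1) (Y w) := by
  classical
  have hc : ∀ P : MvPolynomial W K, constantCoeff (aeval Y P) =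
      eval (fun w => constantCoeff (Y w)) P := by
    intro P
    induction P using MvPolynomial.induction_on with
    | C a => simp
    | add p q hp hq => rw [map_add, map_add, map_add, hp, hq]
    | mul_X p j hp => rw [map_mul, map_mul, map_mul, hp, aeval_X, eval_X]
  induction P using MvPolynomial.induction_on with
  | C a =>
    rw [aeval_C, algebraMap_eq, coeff_C, if_neg]
    · simp
    · intro h
      have h1 := DFunLike.congr_fun h b
      simp at h1
  | add p q hp hq =>
    rw [map_add, coeff_add, hp, hq, ← Finset.sum_add_distrib]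
    refine Finset.sum_congr rfl fun w _ => ?_
    rw [map_add, map_add]
    ring
  | mul_X p j hp =>
    rw [map_mul, aeval_X, coeff_one_mul, hp, hc]
    have h1 : ∀ w, eval (fun w => constantCoeff (Y w)) (pderiv w (p * X j)) *
        coeff (Finsupp.single b 1) (Y w) =
        (eval (fun w => constantCoeff (Y w)) (pderiv w p) *
          coeff (Finsupp.single b 1) (Y w)) * constantCoeff (Y j) +
        if w = j then eval (fun w => constantCoeff (Y w)) p *
          coeff (Finsupp.single b 1) (Y w) else 0 := by
      intro w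
      rw [pderiv_mul, map_add, map_mul, map_mul, eval_X, pderiv_X]
      by_cases h : w = j
      · subst h
        rw [Pi.single_eq_same, map_one, if_pos rfl]
        ring
      · rw [Pi.single_eq_of_ne (Ne.symm h), map_zero, if_neg h]
        ring
    rw [Finset.sum_congr rfl fun w _ => h1 w, Finset.sum_add_distrib, ← Finset.sum_mul,
      Finset.sum_ite_eq' Finset.univ j, if_pos (Finset.mem_univ j)]
    ring

/-- linear independence over a larger field -/
private lemma indep_map {E K W : Type*} [Field E] [Field K] [Fintype W] {d : ℕ} (τ : E →+* K)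
    (v : Fin (d + 1) → W → E) (hv : LinearIndependent E v) (c : Fin (d + 1) → K)
    (hc : ∀ w, ∑ k, c k * τ (v k w) = 0) : c = 0 := by
  classical
  have hker : LinearMap.ker (Fintype.linearCombination E v) = ⊥ := by
    rw [LinearMap.ker_eq_bot']
    intro m hm
    rw [Fintype.linearIndependent_iff] at hv
    funext i
    exact hv m hm i
  obtain ⟨g, hg⟩ := LinearMap.exists_leftInverse_of_injective _ hker
  have hgv : ∀ k, g (v k) = Pi.single k 1 := by
    intro k
    have h1 := LinearMap.congr_fun hg (Pi.single k 1)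
    rw [LinearMap.comp_apply, Fintype.linearCombination_apply_single, one_smul] at h1
    exact h1
  have hB : ∀ k k', ∑ w, v k w * g (fun j => if w = j then 1 else 0) k' =
      (Pi.single k 1 : Fin (d + 1) → E) k' := by
    intro k k'
    rw [← hgv k, LinearMap.pi_apply_eq_sum_univ g (v k), Finset.sum_apply]
    rfl
  funext k'
  have h1 : c k' = ∑ k, c k * τ ((Pi.single k 1 : Fin (d + 1) → E) k') := by
    rw [Finset.sum_eq_single k']
    · rw [Pi.single_eq_same, map_one, mul_one]
    · intro k _ hk
      rw [Pi.single_eq_of_ne (Ne.symm hk), map_zero, mul_zero]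
    · intro h
      exact absurd (Finset.mem_univ _) h
  rw [h1, Pi.zero_apply]
  have h2 : ∀ k, c k * τ ((Pi.single k 1 : Fin (d + 1) → E) k') =
      ∑ w, (c k * τ (v k w)) * τ (g (fun j => if w = j then 1 else 0) k') := by
    intro k
    rw [← hB k k', map_sum, Finset.mul_sum]
    exact Finset.sum_congr rfl fun w _ => by rw [map_mul, mul_assoc]
  rw [Finset.sum_congr rfl fun k _ => h2 k, Finset.sum_comm]
  refine Finset.sum_eq_zero fun w _ => ?_
  rw [← Finset.sum_mul, hc w, zero_mul]

theorem tan_newt {E K Ω W : Type*} [Field E] [Field K] [CharZero K] [Fintype W] {c d s : ℕ}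
    (a : Ω → W → E) (Fs : Fin s → MvPolynomial W E) (hJ : Jac a c d Fs) (x : Ω)
    (σ : (Fin 1 ⊕ (Fin c ⊕ Fin d)) ≃ W) (t : Fin c → Fin s) (h0 : a x (σ (Sum.inl 0)) ≠ 0)
    (τ : E →+* K) (y : W → K) (hy : ∀ w, y w = τ (a x w / a x (σ (Sum.inl 0))))
    (Q : Matrix (Fin c) (Fin c) K) (hQ : jac σ (fun i => (Fs (t i)).map τ) y * Q = 1)
    (v : Fin (d + 1) → W → E) (hv : TanB a x v) (m : ℕ) (hm : 1 ≤ m) :
    ∃ lam : K, (∀ J : Fin (d + 1) → W,
        plu (tv (newt σ (fun i => (Fs (t i)).map τ) y Q m)) J = lam * τ (plu v J)) ∧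
      ∃ J : Fin (d + 1) → W, plu (tv (newt σ (fun i => (Fs (t i)).map τ) y Q m)) J = 1 := by
  classical
  set P : Fin c → MvPolynomial W K := fun i => (Fs (t i)).map τ with hP
  set Y := newt σ P y Q m with hY
  -- the point
  have hy' : y = fun w => τ ((a x (σ (Sum.inl 0)))⁻¹ * a x w) := by
    funext w
    rw [hy w, div_eq_mul_inv, mul_comm]
  have hev : ∀ (F : MvPolynomial W E) (n : ℕ), F.IsHomogeneous n →
      eval y (F.map τ) = τ ((a x (σ (Sum.inl 0)))⁻¹ ^ n * eval (a x) F) := by
    intro F n hF
    rw [hy', eval_map_comp τ (fun w => (a x (σ (Sum.inl 0)))⁻¹ * a x w) F, eval_smul_hom hF]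
  have hzero : ∀ i, eval y (P i) = 0 := by
    intro i
    obtain ⟨n, hn⟩ := hJ.hom (t i)
    have h1 : eval (a x) (Fs (t i)) = 0 := hJ.van (t i) x
    rw [hP, hev _ n hn, h1, mul_zero, map_zero]
  -- the constant coefficients
  have hYc : ∀ w, constantCoeff (Y w) = y w := newt_const σ P y Q hzero m
  -- the tangent equations
  set gr : Fin c → W → K := fun i w => eval y (pderiv w (P i)) with hgr
  have hT0 : ∀ i, ∑ w, gr i w * y w = 0 := by
    intro i
    obtain ⟨n, hn⟩ := hJ.hom (t i)
    have hPn : (P i).IsHomogeneous n := hn.map τ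
    have h1 := congrArg (eval y) hPn.sum_X_mul_pderiv
    rw [map_sum, map_nsmul, hzero i, smul_zero] at h1
    rw [← h1]
    refine Finset.sum_congr rfl fun w _ => ?_
    rw [map_mul, eval_X, mul_comm]
  have hT1 : ∀ i b, ∑ w, gr i w * coeff (Finsupp.single b 1) (Y w) = 0 := by
    intro i b
    have h1 := coeff_aeval b Y (P i)
    have h2 : coeff (Finsupp.single b 1) (aeval Y (P i)) = 0 := by
      refine newt_ord σ P y Q hzero hQ m i _ ?_
      rw [Finsupp.degree_single]
      omega
    rw [h2] at h1
    have h3 : (fun w => constantCoeff (Y w)) = y := funext hYc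
    rw [h3] at h1
    exact h1.symm
  have hTk : ∀ i k, ∑ w, gr i w * tv Y k w = 0 := by
    intro i k
    refine Fin.cases ?_ (fun b => ?_) k
    · show ∑ w, gr i w * constantCoeff (Y w) = 0
      simp only [hYc]
      exact hT0 i
    · exact hT1 i b
  have hVk : ∀ i k, ∑ w, gr i w * τ (v k w) = 0 := by
    intro i k
    obtain ⟨n, hn⟩ := hJ.hom (t i)
    have h1 := hv.2 k (Fs (t i)) n hn (hJ.van (t i))
    have h2 : ∀ w, gr i w * τ (v k w) = τ ((a x (σ (Sum.inl 0)))⁻¹ ^ (n - 1)) *
        τ (eval (a x) (pderiv w (Fs (t i))) * v k w) := by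
      intro w
      show eval y (pderiv w ((Fs (t i)).map τ)) * _ = _
      rw [pderiv_map, hev _ (n - 1) hn.pderiv, map_mul, map_mul]
      ring
    rw [Finset.sum_congr rfl fun w _ => h2 w, ← Finset.mul_sum, ← map_sum, h1, map_zero,
      mul_zero]
  -- the coordinates
  set J0 : Fin (d + 1) → W := Fin.cons (σ (Sum.inl 0)) fun b => σ (Sum.inr (Sum.inr b)) with hJ0
  have hN : ∀ z : W → K, (∀ i, ∑ w, gr i w * z w = 0) → (∀ k, z (J0 k) = 0) → z = 0 := by
    intro z hz1 hz2
    have e1 : z (σ (Sum.inl 0)) = 0 := hz2 0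
    have e2 : ∀ b, z (σ (Sum.inr (Sum.inr b))) = 0 := fun b => hz2 b.succ
    set z' : Fin c → K := fun l => z (σ (Sum.inr (Sum.inl l))) with hz'
    have h1 : (jac σ P y).mulVec z' = 0 := by
      funext i
      have h2 := hz1 i
      rw [← σ.sum_comp, Fintype.sum_sum_type, Fintype.sum_sum_type] at h2
      have h3 : ∑ u : Fin 1, gr i (σ (Sum.inl u)) * z (σ (Sum.inl u)) = 0 := by
        rw [Fin.sum_univ_one, e1, mul_zero]
      have h4 : ∑ b : Fin d, gr i (σ (Sum.inr (Sum.inr b))) * z (σ (Sum.inr (Sum.inr b))) = 0 :=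
        Finset.sum_eq_zero fun b _ => by rw [e2 b, mul_zero]
      rw [h3, h4, zero_add, add_zero] at h2
      exact h2
    have h5 : z' = 0 := by
      have h6 : Q * jac σ P y = 1 := mul_eq_one_comm.1 hQ
      have h7 : (Q * jac σ P y).mulVec z' = 0 := by
        rw [← Matrix.mulVec_mulVec, h1, Matrix.mulVec_zero]
      rwa [h6, Matrix.one_mulVec] at h7
    funext w
    obtain ⟨u, rfl⟩ := σ.surjective w
    rcases u with u | l | b
    · have hu : u = 0 := Subsingleton.elim _ _
      rw [hu]
      exact e1
    · exact congrFun h5 l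
    · exact e2 b
  set A : Matrix (Fin (d + 1)) (Fin (d + 1)) K :=
    Matrix.of fun k k' => τ (v k (J0 k')) with hA
  have hAdet : A.det ≠ 0 := by
    intro hdet
    obtain ⟨cc, hcc, hcc'⟩ := Matrix.exists_vecMul_eq_zero_iff.2 hdet
    apply hcc
    have h1 := hN (fun w => ∑ k, cc k * τ (v k w)) ?_ ?_
    · exact indep_map τ v hv.1 cc fun w => congrFun h1 w
    · intro i
      have h2 : ∀ w, gr i w * ∑ k, cc k * τ (v k w) = ∑ k, cc k * (gr i w * τ (v k w)) := by
        intro w
        rw [Finset.mul_sum]
        exact Finset.sum_congr rfl fun k _ => by ring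
      rw [Finset.sum_congr rfl fun w _ => h2 w, Finset.sum_comm]
      refine Finset.sum_eq_zero fun k _ => ?_
      rw [← Finset.mul_sum, hVk i k, mul_zero]
    · intro k'
      exact congrFun hcc' k'
  set B : Matrix (Fin (d + 1)) (Fin (d + 1)) K :=
    Matrix.of fun k k' => tv Y k (J0 k') with hB
  set Λ : Matrix (Fin (d + 1)) (Fin (d + 1)) K := B * A⁻¹ with hΛ
  have hΛA : Λ * A = B := by
    rw [hΛ, Matrix.mul_assoc, Matrix.nonsing_inv_mul _ (Ne.isUnit hAdet), Matrix.mul_one]
  have hT : ∀ k w, tv Y k w = ∑ k', Λ k k' * τ (v k' w) := by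
    intro k w
    have h1 := hN (fun w => tv Y k w - ∑ k', Λ k k' * τ (v k' w)) ?_ ?_
    · exact sub_eq_zero.1 (congrFun h1 w)
    · intro i
      have h2 : ∀ w, gr i w * (tv Y k w - ∑ k', Λ k k' * τ (v k' w)) =
          gr i w * tv Y k w - ∑ k', Λ k k' * (gr i w * τ (v k' w)) := by
        intro w
        rw [mul_sub, Finset.mul_sum]
        congr 1
        exact Finset.sum_congr rfl fun k _ => by ring
      rw [Finset.sum_congr rfl fun w _ => h2 w, Finset.sum_sub_distrib, hTk i k,
        Finset.sum_comm, zero_sub, neg_eq_zero]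
      refine Finset.sum_eq_zero fun k' _ => ?_
      rw [← Finset.mul_sum, hVk i k', mul_zero]
    · intro k'
      have h2 : (Λ * A) k k' = B k k' := by rw [hΛA]
      rw [Matrix.mul_apply] at h2
      exact sub_eq_zero.2 h2.symm
  refine ⟨Λ.det, fun J => ?_, J0, ?_⟩
  · have h1 : (Matrix.of fun i k : Fin (d + 1) => tv Y i (J k)) =
        Λ * (τ.mapMatrix (Matrix.of fun i k : Fin (d + 1) => v i (J k))) := by
      ext i k
      rw [Matrix.mul_apply]
      exact hT i (J k)
    rw [plu, h1, Matrix.det_mul, ← RingHom.map_det]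
    rfl
  · have hent : ∀ b b' : Fin d, coeff (Finsupp.single b 1)
        (newt σ P y Q m (σ (Sum.inr (Sum.inr b')))) = if b' = b then 1 else 0 := by
      intro b b'
      rw [newt_inr, coeff_add, coeff_C, coeff_X, if_neg, zero_add]
      · by_cases h : b' = b
        · rw [if_pos h, if_pos (by rw [h])]
        · rw [if_neg h, if_neg]
          intro h2
          exact h ((Finsupp.single_left_inj one_ne_zero).1 h2)
      · intro h
        have h2 := DFunLike.congr_fun h b
        simp at h2
    have h1 : B.BlockTriangular id := by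
      intro i j hij
      have hij' : j < i := hij
      revert hij'
      refine Fin.cases ?_ (fun b => ?_) i
      · intro h
        exact absurd h (Fin.not_lt_zero _)
      · refine Fin.cases ?_ (fun b' => ?_) j
        · intro _
          show coeff (Finsupp.single b 1) (newt σ P y Q m (σ (Sum.inl 0))) = 0
          rw [newt_inl, coeff_C, if_neg]
          intro h
          have h2 := DFunLike.congr_fun h b
          simp at h2
        · intro h
          show coeff (Finsupp.single b 1) (newt σ P y Q m (σ (Sum.inr (Sum.inr b')))) = 0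
          rw [hent, if_neg]
          rintro rfl
          exact lt_irrefl _ h
    show B.det = 1
    rw [Matrix.det_of_upperTriangular h1]
    refine Finset.prod_eq_one fun i _ => ?_
    refine Fin.cases ?_ (fun b => ?_) i
    · show constantCoeff (Y (σ (Sum.inl 0))) = 1
      rw [hYc, hy, div_self h0, map_one]
    · show coeff (Finsupp.single b 1) (newt σ P y Q m (σ (Sum.inr (Sum.inr b)))) = 1
      rw [hent, if_pos rfl]

end Pool.Agent.LLX
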