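import Pool.Agent.LLX.Defs2

/-!
# LLX TANB: the tangent space of the cone

`tanb_ker`: the map `z ↦ (∑_w eval (a x) (∂_w Fs (t i)) * z w)_i`, `(W → E) → (Fin c → E)` is
surjective (its rows are linearly independent), so its kernel has dimension `card W - c = d + 1`;
the `v k` are in the kernel (`TanVec` for the forms `Fs (t i)`) and linearly independent, so they
span it.
`tanb_self`: `a x` is in the kernel by Euler's formula (`∑_w X w * pderiv w P = k P` for `P`
homogeneous of degree `k`; `MvPolynomial.IsHomogeneous.euler_identity` or similar; a `t` with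
independent differentials exists by `Jac.minor`: the minor `mnr Fs σ t` is the determinant of the
columns `σ (inr (inl l))` of the matrix of the differentials).
`pv_eq`: linearity of the determinant in the first column.
`pv_zero`: a square matrix with nonzero determinant has no kernel (`Matrix.eq_zero_of_vecMul_eq_zero`
and `pv_eq`).
`exists_I`: let `A k w = v k w`; the rows are independent, so the columns `A · w` span
`Fin (d+1) → E`. The vector `y k = lin l (v k)` is not `0` because
`lin l (a x) = ∑ α k * y k ≠ 0`. Extend `y` to a basis by columns of `A`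
(`exists_linearIndependent_extension` / `LinearIndepOn.extend` inside
`insert y (range columns)`): it has `d` further vectors, which are columns; number them by
`Fin d`.
-/

open MvPolynomial

namespace Pool.Agent.LLX

open Pool.Agent.Helper63.SAND

variable {E Ω W : Type*} [Field E] [Fintype W] {c d s : ℕ}

theorem pv_eq (l : W → E) (I : Fin d → W) (v : Fin (d + 1) → W → E) :
    pv l I v = (Matrix.of fun k : Fin (d + 1) =>
      (Fin.cons (lin l (v k)) (fun b => v k (I b)) : Fin (d + 1) → E)).det := by
  have e1 : ∀ (A : Fin (d + 1) → E), (Matrix.of fun k : Fin (d + 1) =>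
      (Fin.cons (A k) (fun b => v k (I b)) : Fin (d + 1) → E)).det =
      ∑ i : Fin (d + 1), (-1) ^ (i : ℕ) * A i *
        (Matrix.of fun i' b : Fin d => v (i.succAbove i') (I b)).det := by
    intro A
    rw [Matrix.det_succ_column_zero]
    refine Finset.sum_congr rfl fun i _ => ?_
    rw [Matrix.of_apply, Fin.cons_zero]
    congr 1
  unfold pv plu
  have e2 : ∀ w : W, (Matrix.of fun i k : Fin (d + 1) => v i ((Fin.cons w I : Fin (d + 1) → W) k)).det
      = ∑ i : Fin (d + 1), (-1) ^ (i : ℕ) * v i w *
        (Matrix.of fun i' b : Fin d => v (i.succAbove i') (I b)).det := by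
    intro w
    rw [← e1]
    congr 1
    ext i k
    refine Fin.cases ?_ (fun b => ?_) k
    · simp
    · simp
  rw [e1 (fun k => lin l (v k)), Finset.sum_congr rfl fun w _ => by rw [e2 w]]
  simp only [Finset.mul_sum, lin, Finset.sum_mul]
  rw [Finset.sum_comm]
  refine Finset.sum_congr rfl fun i _ => Finset.sum_congr rfl fun w _ => ?_
  ring

theorem pv_zero (l : W → E) (I : Fin d → W) (v : Fin (d + 1) → W → E) (h : pv l I v ≠ 0)
    (α : Fin (d + 1) → E) (h1 : ∑ k, α k * lin l (v k) = 0)
    (h2 : ∀ b, ∑ k, α k * v k (I b) = 0) : α = 0 := by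
  rw [pv_eq] at h
  apply Matrix.eq_zero_of_vecMul_eq_zero h
  funext j
  refine Fin.cases ?_ (fun b => ?_) j
  · simp only [Matrix.vecMul, dotProduct, Matrix.of_apply, Fin.cons_zero, Pi.zero_apply]
    exact h1
  · simp only [Matrix.vecMul, dotProduct, Matrix.of_apply, Fin.cons_succ, Pi.zero_apply]
    exact h2 b

theorem jac_li (a : Ω → W → E) (Fs : Fin s → MvPolynomial W E) (x : Ω)
    (σ : (Fin 1 ⊕ (Fin c ⊕ Fin d)) ≃ W) (t : Fin c → Fin s) (h : eval (a x) (mnr Fs σ t) ≠ 0) :
    LinearIndependent E (fun i w => eval (a x) (pderiv w (Fs (t i)))) := by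
  rw [Fintype.linearIndependent_iff]
  intro g hg
  have h0 : ((Matrix.of fun i l : Fin c =>
      eval (a x) (pderiv (σ (Sum.inr (Sum.inl l))) (Fs (t i))) : Matrix (Fin c) (Fin c) E)).det ≠ 0 := by
    unfold mnr at h
    rw [RingHom.map_det] at h
    exact h
  have h1 := Matrix.eq_zero_of_vecMul_eq_zero h0 (v := g) (by
    funext l
    have := congrFun hg (σ (Sum.inr (Sum.inl l)))
    simpa [Matrix.vecMul, dotProduct, Finset.sum_apply] using this)
  intro i
  exact congrFun h1 i

theorem tanb_ker (a : Ω → W → E) (Fs : Fin s → MvPolynomial W E) (hJ : Jac a c d Fs) (x : Ω)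
    (t : Fin c → Fin s)
    (ht : LinearIndependent E (fun i w => eval (a x) (pderiv w (Fs (t i)))))
    (v : Fin (d + 1) → W → E) (hv : TanB a x v) (z : W → E)
    (hz : ∀ i, ∑ w, eval (a x) (pderiv w (Fs (t i))) * z w = 0) :
    ∃ α : Fin (d + 1) → E, ∀ w, z w = ∑ k, α k * v k w := by
  classical
  set D : Matrix (Fin c) W E := Matrix.of fun i w => eval (a x) (pderiv w (Fs (t i))) with hD
  have hr : D.rank = c := by
    have := LinearIndependent.rank_matrix (M := D) ht
    rwa [Fintype.card_fin] at this
  have hk : Module.finrank E (LinearMap.ker D.mulVecLin) = d + 1 := by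
    have h1 := LinearMap.finrank_range_add_finrank_ker D.mulVecLin
    rw [Module.finrank_fintype_fun_eq_card] at h1
    have h2 : Module.finrank E (LinearMap.range D.mulVecLin) = c := hr
    have h3 := hJ.card
    omega
  have hmem : ∀ u : W → E, u ∈ LinearMap.ker D.mulVecLin ↔
      ∀ i, ∑ w, eval (a x) (pderiv w (Fs (t i))) * u w = 0 := by
    intro u
    rw [LinearMap.mem_ker, Matrix.mulVecLin_apply]
    constructor
    · intro h i
      exact congrFun h i
    · intro h
      funext i
      exact h i
  have hsub : Submodule.span E (Set.range v) ≤ LinearMap.ker D.mulVecLin := by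
    rw [Submodule.span_le]
    rintro _ ⟨k, rfl⟩
    rw [SetLike.mem_coe, hmem]
    intro i
    obtain ⟨m, hm⟩ := hJ.hom (t i)
    exact hv.2 k _ m hm (hJ.van (t i))
  have hspan : Submodule.span E (Set.range v) = LinearMap.ker D.mulVecLin := by
    apply Submodule.eq_of_le_of_finrank_eq hsub
    rw [finrank_span_eq_card hv.1, Fintype.card_fin, hk]
  have hzm : z ∈ Submodule.span E (Set.range v) := by
    rw [hspan, hmem]
    exact hz
  obtain ⟨α, hα⟩ := (Submodule.mem_span_range_iff_exists_fun E).1 hzm
  refine ⟨α, fun w => ?_⟩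
  rw [← hα]
  simp [Finset.sum_apply]

private theorem tanb_euler (P : MvPolynomial W E) (k : ℕ) (hP : P.IsHomogeneous k) (z : W → E)
    (h : eval z P = 0) : ∑ w, eval z (pderiv w P) * z w = 0 := by
  have e1 := congrArg (eval z) hP.sum_X_mul_pderiv
  rw [map_sum, map_nsmul, h, smul_zero] at e1
  rw [← e1]
  refine Finset.sum_congr rfl fun w _ => ?_
  rw [map_mul, eval_X, mul_comm]

theorem tanb_self (a : Ω → W → E) (ha0 : ∀ x, a x ≠ 0) (Fs : Fin s → MvPolynomial W E)
    (hJ : Jac a c d Fs) (x : Ω) (v : Fin (d + 1) → W → E) (hv : TanB a x v) :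
    ∃ α : Fin (d + 1) → E, ∀ w, a x w = ∑ k, α k * v k w := by
  obtain ⟨w₀, hw₀⟩ : ∃ w₀, a x w₀ ≠ 0 := by
    by_contra h
    push Not at h
    exact ha0 x (funext h)
  obtain ⟨σ, t, _, hm⟩ := hJ.minor x w₀ hw₀
  refine tanb_ker a Fs hJ x t (jac_li a Fs x σ t hm) v hv (a x) fun i => ?_
  obtain ⟨m, hm⟩ := hJ.hom (t i)
  exact tanb_euler _ m hm _ (hJ.van (t i) x)

/-- A nonzero vector and suitable columns of a matrix of full rank are a basis. -/
private theorem tanb_cols (v : Fin (d + 1) → W → E) (hv : LinearIndependent E v)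
    (y : Fin (d + 1) → E) (hy : y ≠ 0) :
    ∃ I : Fin d → W, LinearIndependent E
      (Fin.cons y (fun i k => v k (I i)) : Fin (d + 1) → Fin (d + 1) → E) := by
  classical
  set A : Matrix (Fin (d + 1)) W E := Matrix.of v with hA
  have hr : A.rank = d + 1 := by
    have := LinearIndependent.rank_matrix (M := A) hv
    rwa [Fintype.card_fin] at this
  have htop : Submodule.span E (Set.range A.col) = ⊤ := by
    apply Submodule.eq_top_of_finrank_eq
    rw [← Matrix.rank_eq_finrank_span_cols, hr]
    simp
  have hs : LinearIndepOn E id ({y} : Set (Fin (d + 1) → E)) := LinearIndepOn.singleton (v := id) hy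
  obtain ⟨b, hb1, hb2, hb3, hb4⟩ := exists_linearIndepOn_id_extension hs
    (show {y} ⊆ insert y (Set.range A.col) by
      intro u hu
      exact Or.inl hu)
  have hli : LinearIndependent E ((↑) : b → (Fin (d + 1) → E)) := hb4
  have hbtop : Submodule.span E b = ⊤ := by
    rw [eq_top_iff, ← htop, Submodule.span_le]
    exact fun u hu => hb3 (Or.inr hu)
  have hfin : b.Finite := hli.setFinite
  haveI : Fintype b := hfin.fintype
  have hcard : b.toFinset.card = d + 1 := by
    rw [← finrank_span_set_eq_card hli, hbtop]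
    simp
  have hyb : y ∈ b := hb2 rfl
  have hcard2 : (b.toFinset.erase y).card = d := by
    rw [Finset.card_erase_of_mem (Set.mem_toFinset.2 hyb), hcard]
    rfl
  set e := (Finset.equivFinOfCardEq hcard2).symm with he
  have hmem : ∀ i : Fin d, (e i).1 ∈ b ∧ (e i).1 ≠ y := by
    intro i
    have := (e i).2
    rw [Finset.mem_erase, Set.mem_toFinset] at this
    exact ⟨this.2, this.1⟩
  have hcol : ∀ i : Fin d, ∃ w, A.col w = (e i).1 := by
    intro i
    rcases hb1 (hmem i).1 with h | h
    · exact absurd h (hmem i).2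
    · exact h
  choose I hI using hcol
  refine ⟨I, ?_⟩
  have hcol2 : (fun (i : Fin d) (k : Fin (d + 1)) => v k (I i)) = fun i => (e i).1 := by
    funext i
    rw [← hI i]
    rfl
  rw [hcol2, linearIndependent_finCons]
  constructor
  · exact hli.comp (fun i => (⟨(e i).1, (hmem i).1⟩ : b)) (by
      intro i j hij
      have := congrArg Subtype.val hij
      exact e.injective (Subtype.ext this))
  · have h1 := hli.notMem_span_image (s := {(⟨y, hyb⟩ : b)}ᶜ) (x := ⟨y, hyb⟩) (by simp)
    intro h2
    apply h1
    refine Submodule.span_mono ?_ h2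
    rintro _ ⟨i, rfl⟩
    refine ⟨⟨(e i).1, (hmem i).1⟩, ?_, rfl⟩
    intro h3
    exact (hmem i).2 (congrArg Subtype.val h3)

theorem exists_I (a : Ω → W → E) (ha0 : ∀ x, a x ≠ 0) (Fs : Fin s → MvPolynomial W E)
    (hJ : Jac a c d Fs) (x : Ω) (v : Fin (d + 1) → W → E) (hv : TanB a x v) (l : W → E)
    (hl : lin l (a x) ≠ 0) : ∃ I : Fin d → W, pv l I v ≠ 0 := by
  obtain ⟨α, hα⟩ := tanb_self a ha0 Fs hJ x v hv
  have hy : (fun k => lin l (v k)) ≠ 0 := by
    intro h
    apply hl
    unfold lin
    have e1 : ∀ w, l w * a x w = ∑ k, α k * (l w * v k w) := by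
      intro w
      rw [hα w, Finset.mul_sum]
      refine Finset.sum_congr rfl fun k _ => ?_
      ring
    rw [Finset.sum_congr rfl fun w _ => e1 w, Finset.sum_comm]
    refine Finset.sum_eq_zero fun k _ => ?_
    rw [← Finset.mul_sum]
    have := congrFun h k
    unfold lin at this
    rw [this, Pi.zero_apply, mul_zero]
  obtain ⟨I, hI⟩ := tanb_cols v hv.1 _ hy
  refine ⟨I, ?_⟩
  rw [pv_eq]
  have h1 : (Matrix.of fun k : Fin (d + 1) =>
      (Fin.cons (lin l (v k)) (fun b => v k (I b)) : Fin (d + 1) → E)).col =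
      (Fin.cons (fun k => lin l (v k)) (fun i k => v k (I i)) : Fin (d + 1) → Fin (d + 1) → E) := by
    funext j
    refine Fin.cases ?_ (fun b => ?_) j
    · funext k
      simp [Matrix.col]
    · funext k
      simp [Matrix.col]
  rw [← h1, Matrix.linearIndependent_cols_iff_isUnit, Matrix.isUnit_iff_isUnit_det] at hI
  exact hI.ne_zero

end Pool.Agent.LLX
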