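import Pool.Agent.LLX.Defs

/-!
# LLX: the weights of the blocks
-/

namespace Pool.Agent.LLX

/-- The weights of the blocks. -/
noncomputable def wt (r : ℝ) (n : ℕ) (i : Fin (n + 1)) : ℕ := ⌈r ^ (n - (i : ℕ))⌉₊

end Pool.Agent.LLX
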